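import Pool.Agent.Lib.MP_6947cd_al.Y.Defs

/-!
Problem MP_6947cd_al (Chollet).  Linear inequalities for the squared moduli of a triple of vertices (support lines).
-/

set_option autoImplicit false

namespace Pool.Agent.Lib.MP_6947cd_al
namespace C1

open B1

/-- the square form of the condition -/
lemma tri_sq {x y z : ℝ} (h : Tri x y z) (hx0 : 0 ≤ x) (hx1 : x ≤ 1) (hy0 : 0 ≤ y) (hy1 : y ≤ 1) (hz0 : 0 ≤ z)
    (hxy : 1 ≤ x + y) : x * y + (1 - x) * (1 - y) - z ≤ 2 * Real.sqrt (x * y * ((1 - x) * (1 - y))) := by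
  have sx := Real.sq_sqrt hx0
  have sy := Real.sq_sqrt hy0
  have sz := Real.sq_sqrt hz0
  have px := Real.sqrt_nonneg x
  have py := Real.sqrt_nonneg y
  have pz := Real.sqrt_nonneg z
  have hb0 : 0 ≤ (1 - x) * (1 - y) := mul_nonneg (by linarith) (by linarith)
  have ha0 : 0 ≤ x * y := mul_nonneg hx0 hy0
  rw [Real.sqrt_mul ha0]
  have sa := Real.sq_sqrt ha0
  have sb := Real.sq_sqrt hb0
  have pa := Real.sqrt_nonneg (x * y)
  have pb := Real.sqrt_nonneg ((1 - x) * (1 - y))
  unfold Tri at h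
  have e : Real.sqrt x * Real.sqrt y = Real.sqrt (x * y) := (Real.sqrt_mul hx0 y).symm
  rw [e] at h
  set a := Real.sqrt (x * y) with had
  set b := Real.sqrt ((1 - x) * (1 - y)) with hbd
  set c := Real.sqrt z with hcd
  have hab : b ≤ a := Real.sqrt_le_sqrt (by nlinarith)
  -- (c - a) ^ 2 ≤ b ^ 2
  have h1 : (c - a) ^ 2 ≤ b ^ 2 := by nlinarith
  have h2 : |c - a| ≤ b := abs_le_of_sq_le_sq h1 pb
  have h3 : a - b ≤ c := by
    have := (abs_le.mp h2).1
    linarith
  have h4 : (a - b) ^ 2 ≤ c ^ 2 := by nlinarith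
  nlinarith

/-- THE SUPPORT LINES of the set of triples. -/
theorem triL {x y z p q r : ℝ} (h : Tri x y z) (hx0 : 0 ≤ x) (hx1 : x ≤ 1) (hy0 : 0 ≤ y) (hy1 : y ≤ 1)
    (hz0 : 0 ≤ z) (hp : 0 ≤ p) (hq : 0 ≤ q) (hr : 0 ≤ r) :
    4 * p * r * x + 4 * q * r * y ≤ p ^ 2 + q ^ 2 + r ^ 2 + 2 * p * r + 2 * q * r - 2 * p * q + 4 * p * q * z := by
  obtain ⟨D, hD⟩ : ∃ D, D = 2 * (p * x + q * y) - (p + q) := ⟨_, rfl⟩
  obtain ⟨W, hW⟩ : ∃ W, W = (p - q) ^ 2 + 4 * p * q * z := ⟨_, rfl⟩
  have hW0 : (p - q) ^ 2 ≤ W := by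
    rw [hW]
    have : 0 ≤ 4 * p * q * z := by positivity
    linarith
  have goal : 2 * r * D ≤ W + r ^ 2 := by
    rcases le_or_gt D 0 with h0 | h0
    · have : 2 * r * D ≤ 0 := mul_nonpos_of_nonneg_of_nonpos (by positivity) h0
      nlinarith [sq_nonneg (p - q), sq_nonneg r]
    · have key : D ^ 2 ≤ W := by
        rcases le_total (x + y) 1 with hxy | hxy
        · -- D ≤ |p - q|
          refine le_trans ?_ hW0
          rcases le_total p q with hpq | hpq
          · have h1 : D ≤ q - p := by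
              rw [hD]
              nlinarith [mul_nonneg (sub_nonneg.mpr hpq) hx0, mul_nonneg hq (sub_nonneg.mpr hxy)]
            nlinarith
          · have h1 : D ≤ p - q := by
              rw [hD]
              nlinarith [mul_nonneg (sub_nonneg.mpr hpq) hy0, mul_nonneg hp (sub_nonneg.mpr hxy)]
            nlinarith
        · have h1 := tri_sq h hx0 hx1 hy0 hy1 hz0 hxy
          have hA : 0 ≤ x * (1 - x) := mul_nonneg hx0 (by linarith)
          have hB : 0 ≤ y * (1 - y) := mul_nonneg hy0 (by linarith)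
          have e : x * y * ((1 - x) * (1 - y)) = x * (1 - x) * (y * (1 - y)) := by ring
          rw [e, Real.sqrt_mul hA] at h1
          have sA := Real.sq_sqrt hA
          have sB := Real.sq_sqrt hB
          set A := Real.sqrt (x * (1 - x)) with hAd
          set B := Real.sqrt (y * (1 - y)) with hBd
          have h2 : p * q * (x * y + (1 - x) * (1 - y) - z) ≤ p * q * (2 * (A * B)) :=
            mul_le_mul_of_nonneg_left h1 (mul_nonneg hp hq)
          have h3 : p * q * (2 * (A * B)) ≤ p ^ 2 * (x * (1 - x)) + q ^ 2 * (y * (1 - y)) := by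
            rw [← sA, ← sB]
            nlinarith [sq_nonneg (p * A - q * B)]
          rw [hD, hW]
          nlinarith
      nlinarith [sq_nonneg (D - r)]
  rw [hD, hW] at goal
  nlinarith

end C1
end Pool.Agent.Lib.MP_6947cd_al
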