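import Pool.Agent.Lib.MP_6947cd_al.C.Num
import Pool.Agent.Lib.MP_6947cd_al.C.TriL

/-!
Problem MP_6947cd_al (Chollet).  CASE C: tables of corner values, the check of psi, the lines, the pieces of the function
of the special entries.
-/

set_option autoImplicit false
open Finset

namespace Pool.Agent.Lib.MP_6947cd_al
namespace C1

open Ent Ent.Pk Fr Fr.WT CC B1 PkA

/-! ### tables of corner values -/

/-- eight values, the first argument is the fastest -/
noncomputable def tab3 (f : Bool → Bool → Bool → ℕ) (k : List ℕ → Bool) : Bool :=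
  frc (f false false false) fun v0 => frc (f true false false) fun v1 =>
  frc (f false true false) fun v2 => frc (f true true false) fun v3 =>
  frc (f false false true) fun v4 => frc (f true false true) fun v5 =>
  frc (f false true true) fun v6 => frc (f true true true) fun v7 => k [v0, v1, v2, v3, v4, v5, v6, v7]

lemma tab3_sound {f : Bool → Bool → Bool → ℕ} {k : List ℕ → Bool} (h : tab3 f k = true) :
    ∃ l, k l = true ∧ ∀ a b c, l.getD (ix a b c) 0 = f a b c := by
  unfold tab3 at h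
  simp only [frc_eq] at h
  refine ⟨_, h, fun a b c => ?_⟩
  cases a <;> cases b <;> cases c <;> rfl

/-- index of one of sixteen values -/
def i4 (a b c d : Bool) : ℕ :=
  (bif a then 1 else 0) + (bif b then 2 else 0) + (bif c then 4 else 0) + (bif d then 8 else 0)

/-- sixteen values -/
noncomputable def tab4 (f : Bool → Bool → Bool → Bool → ℕ) (k : List ℕ → Bool) : Bool :=
  frc (f false false false false) fun v0 => frc (f true false false false) fun v1 =>
  frc (f false true false false) fun v2 => frc (f true true false false) fun v3 =>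
  frc (f false false true false) fun v4 => frc (f true false true false) fun v5 =>
  frc (f false true true false) fun v6 => frc (f true true true false) fun v7 =>
  frc (f false false false true) fun u0 => frc (f true false false true) fun u1 =>
  frc (f false true false true) fun u2 => frc (f true true false true) fun u3 =>
  frc (f false false true true) fun u4 => frc (f true false true true) fun u5 =>
  frc (f false true true true) fun u6 => frc (f true true true true) fun u7 =>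
    k [v0, v1, v2, v3, v4, v5, v6, v7, u0, u1, u2, u3, u4, u5, u6, u7]

lemma tab4_sound {f : Bool → Bool → Bool → Bool → ℕ} {k : List ℕ → Bool} (h : tab4 f k = true) :
    ∃ l, k l = true ∧ ∀ a b c d, l.getD (i4 a b c d) 0 = f a b c d := by
  unfold tab4 at h
  simp only [frc_eq] at h
  refine ⟨_, h, fun a b c d => ?_⟩
  cases a <;> cases b <;> cases c <;> cases d <;> rfl

/-- the end of an interval, unit `1 / 400` -/
def cv (a b : ℕ) (c : Bool) : ℕ := cond c b a

lemma en_eq (a b : ℕ) (c : Bool) : en a b c = (cv a b c : ℕ) / 400 := rfl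

/-! ### psi -/

/-- minimum of the nonzero numbers -/
def mnz (a b : ℕ) : ℕ := cond (Nat.beq b (nat_lit 0)) a (cond (Nat.ble a b) a b)

/-- the check of a lower bound of the merged row: weights `X1 : X2 : X3`, value `V` (unit `1e-7`) -/
noncomputable def psC (X1 X2 X3 V : ℕ) : Bool :=
  frc (mnz (mnz X1 X2) X3) fun X0 =>
    cond (Nat.beq X2 (nat_lit 0))
      (cond (Nat.beq X3 (nat_lit 0)) (psiOK [nat_lit 1] [X1] X0 V) (psiOK [nat_lit 1, nat_lit 1] [X1, X3] X0 V))
      (cond (Nat.beq X3 (nat_lit 0)) (psiOK [nat_lit 1, nat_lit 1] [X1, X2] X0 V)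
        (psiOK [nat_lit 1, nat_lit 1, nat_lit 1] [X1, X2, X3] X0 V))

theorem psC_sound {X1 X2 X3 V : ℕ} (h : psC X1 X2 X3 V = true) :
    PsiOk ((V : ℝ) / 10 ^ 7) ((X2 : ℝ) / ((X1 + X2 + X3 : ℕ) : ℝ)) ((X3 : ℝ) / ((X1 + X2 + X3 : ℕ) : ℝ)) := by
  unfold psC at h
  rw [frc_eq] at h
  intro u v hu hv hk hl
  rcases Nat.eq_zero_or_pos X2 with h2 | h2
  · subst h2
    rw [show Nat.beq 0 0 = true from rfl, cond_true] at h
    rcases Nat.eq_zero_or_pos X3 with h3 | h3
    · subst h3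
      rw [show Nat.beq 0 0 = true from rfl, cond_true] at h
      have := psi_sound _ _ _ _ h [{1}] rfl (by simp) (u ::ₘ v ::ₘ 0)
      simp only [logS, Multiset.map_singleton, Multiset.sum_singleton, Real.log_one, mul_zero, add_zero,
        zero_div] at this
      simp only [CharP.cast_eq_zero, zero_div, zero_mul, add_zero]
      refine this.trans (le_of_eq ?_)
      congr 1
    · rw [show Nat.beq X3 0 = false by
        cases X3 with
        | zero => omega
        | succ n => rfl, cond_false] at h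
      have h3' : (0 : ℝ) < X3 := by exact_mod_cast h3
      have hv0 : 0 < v := hl (by positivity)
      have := psi_sound _ _ _ _ h [{1}, {v}] rfl (by
        intro R hR z hz
        simp only [List.mem_cons, List.not_mem_nil, or_false] at hR
        rcases hR with rfl | rfl
        · rw [Multiset.mem_singleton.mp hz]; exact one_pos
        · rw [Multiset.mem_singleton.mp hz]; exact hv0) (u ::ₘ 0)
      simp only [logS, Multiset.map_singleton, Multiset.sum_singleton, Real.log_one, mul_zero, add_zero,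
        zero_add, Pk.dotN] at this
      simp only [CharP.cast_eq_zero, zero_div, zero_mul, add_zero]
      refine le_trans (le_of_eq ?_) (this.trans (le_of_eq ?_))
      · push_cast
        ring
      · congr 1
        simp only [List.sum_cons, List.sum_nil, add_zero, ← Multiset.singleton_add]
        abel
  · have h2' : (0 : ℝ) < X2 := by exact_mod_cast h2
    have hu0 : 0 < u := hk (by positivity)
    rw [show Nat.beq X2 0 = false by
        cases X2 with
        | zero => omega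
        | succ n => rfl, cond_false] at h
    rcases Nat.eq_zero_or_pos X3 with h3 | h3
    · subst h3
      rw [show Nat.beq 0 0 = true from rfl, cond_true] at h
      have := psi_sound _ _ _ _ h [{1}, {u}] rfl (by
        intro R hR z hz
        simp only [List.mem_cons, List.not_mem_nil, or_false] at hR
        rcases hR with rfl | rfl
        · rw [Multiset.mem_singleton.mp hz]; exact one_pos
        · rw [Multiset.mem_singleton.mp hz]; exact hu0) (v ::ₘ 0)
      simp only [logS, Multiset.map_singleton, Multiset.sum_singleton, Real.log_one, mul_zero, add_zero,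
        zero_add, Pk.dotN] at this
      simp only [CharP.cast_eq_zero, zero_div, zero_mul, add_zero]
      refine le_trans (le_of_eq ?_) (this.trans (le_of_eq ?_))
      · push_cast
        ring
      · congr 1
    · have h3' : (0 : ℝ) < X3 := by exact_mod_cast h3
      have hv0 : 0 < v := hl (by positivity)
      rw [show Nat.beq X3 0 = false by
        cases X3 with
        | zero => omega
        | succ n => rfl, cond_false] at h
      have := psi_sound _ _ _ _ h [{1}, {u}, {v}] rfl (by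
        intro R hR z hz
        simp only [List.mem_cons, List.not_mem_nil, or_false] at hR
        rcases hR with rfl | rfl | rfl
        · rw [Multiset.mem_singleton.mp hz]; exact one_pos
        · rw [Multiset.mem_singleton.mp hz]; exact hu0
        · rw [Multiset.mem_singleton.mp hz]; exact hv0) 0
      simp only [logS, Multiset.map_singleton, Multiset.sum_singleton, Real.log_one, mul_zero, add_zero,
        zero_add, Pk.dotN] at this
      refine le_trans (le_of_eq ?_) (this.trans (le_of_eq ?_))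
      · push_cast
        ring
      · congr 1

/-! ### lines -/

/-- a line of a triple: roles (`0`: the third entry is the bounded one, `1`: the second, `2`: the first), `p q r`, weight -/
structure Ln where
  o : ℕ
  p : ℕ
  q : ℕ
  r : ℕ
  k : ℕ

/-- positive part at `(x, y, z)`, `z` = the bounded entry -/
def lnP (p q r z : ℕ) : ℕ :=
  Nat.add (Nat.mul (nat_lit 400) (Nat.add (Nat.add (Nat.add (Nat.mul p p) (Nat.mul q q)) (Nat.mul r r))
    (Nat.add (Nat.mul (nat_lit 2) (Nat.mul p r)) (Nat.mul (nat_lit 2) (Nat.mul q r)))))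
    (Nat.mul (Nat.mul (nat_lit 4) (Nat.mul p q)) z)

/-- negative part -/
def lnQ (p q r x y : ℕ) : ℕ :=
  Nat.add (Nat.mul (nat_lit 800) (Nat.mul p q))
    (Nat.mul (Nat.mul (nat_lit 4) r) (Nat.add (Nat.mul p x) (Nat.mul q y)))

/-- the value at a point, times `160000` -/
noncomputable def lnV (p q r : ℕ) (x y z : ℝ) : ℝ :=
  400 * ((p : ℝ) ^ 2 + q ^ 2 + r ^ 2 + 2 * p * r + 2 * q * r - 2 * p * q)
    + 400 * (4 * p * q * z - 4 * p * r * x - 4 * q * r * y)

lemma lnV_nat (p q r x y z : ℕ) : lnV p q r ((x : ℝ) / 400) ((y : ℝ) / 400) ((z : ℝ) / 400)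
    = (lnP p q r z : ℕ) - (lnQ p q r x y : ℕ) := by
  have e1 : lnP p q r z = 400 * (p * p + q * q + r * r + (2 * (p * r) + 2 * (q * r))) + 4 * (p * q) * z := rfl
  have e2 : lnQ p q r x y = 800 * (p * q) + 4 * r * (p * x + q * y) := rfl
  rw [e1, e2]
  unfold lnV
  push_cast
  ring

lemma lnV_nonneg {x y z : ℝ} (h : Tri x y z) (hx0 : 0 ≤ x) (hx1 : x ≤ 1) (hy0 : 0 ≤ y) (hy1 : y ≤ 1)
    (hz0 : 0 ≤ z) (p q r : ℕ) : 0 ≤ lnV p q r x y z := by
  have := triL h hx0 hx1 hy0 hy1 hz0 (p := (p : ℝ)) (q := q) (r := r) (Nat.cast_nonneg _) (Nat.cast_nonneg _)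
    (Nat.cast_nonneg _)
  unfold lnV
  linarith

/-- the value with the roles -/
noncomputable def Ln.V (l : Ln) (a b c : ℝ) : ℝ :=
  if l.o = 0 then l.k * lnV l.p l.q l.r a b c
  else if l.o = 1 then l.k * lnV l.p l.q l.r a c b
  else l.k * lnV l.p l.q l.r b c a

/-- the parts of the value at a corner -/
noncomputable def Ln.P (l : Ln) (a b c : ℕ) : ℕ :=
  Nat.mul l.k (lnP l.p l.q l.r (@Nat.rec (fun _ => ℕ) c (fun m _ => @Nat.rec (fun _ => ℕ) b (fun _ _ => a) m) l.o))

noncomputable def Ln.Q (l : Ln) (a b c : ℕ) : ℕ :=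
  Nat.mul l.k (@Nat.rec (fun _ => ℕ) (lnQ l.p l.q l.r a b)
    (fun m _ => @Nat.rec (fun _ => ℕ) (lnQ l.p l.q l.r a c) (fun _ _ => lnQ l.p l.q l.r b c) m) l.o)

lemma Ln.V_nat (l : Ln) (a b c : ℕ) : l.V ((a : ℝ) / 400) ((b : ℝ) / 400) ((c : ℝ) / 400)
    = (l.P a b c : ℕ) - (l.Q a b c : ℕ) := by
  obtain ⟨o, p, q, r, k⟩ := l
  match o with
  | 0 =>
    have e1 : Ln.P ⟨0, p, q, r, k⟩ a b c = k * lnP p q r c := rfl
    have e2 : Ln.Q ⟨0, p, q, r, k⟩ a b c = k * lnQ p q r a b := rfl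
    rw [e1, e2]
    unfold Ln.V
    rw [if_pos rfl, lnV_nat]
    push_cast
    ring
  | 1 =>
    have e1 : Ln.P ⟨1, p, q, r, k⟩ a b c = k * lnP p q r b := rfl
    have e2 : Ln.Q ⟨1, p, q, r, k⟩ a b c = k * lnQ p q r a c := rfl
    rw [e1, e2]
    unfold Ln.V
    rw [if_neg (by simp), if_pos rfl, lnV_nat]
    push_cast
    ring
  | (n + 2) =>
    have e1 : Ln.P ⟨n + 2, p, q, r, k⟩ a b c = k * lnP p q r a := rfl
    have e2 : Ln.Q ⟨n + 2, p, q, r, k⟩ a b c = k * lnQ p q r b c := rfl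
    rw [e1, e2]
    unfold Ln.V
    rw [if_neg (by simp), if_neg (by simp), lnV_nat]
    push_cast
    ring

/-- the triple inequality in all the orders -/
def Tri3 (a b c : ℝ) : Prop := Tri a b c ∧ Tri a c b ∧ Tri b c a

lemma Ln.V_nonneg (l : Ln) {a b c : ℝ} (h : Tri3 a b c) (ha0 : 0 ≤ a) (ha1 : a ≤ 1) (hb0 : 0 ≤ b) (hb1 : b ≤ 1)
    (hc0 : 0 ≤ c) (hc1 : c ≤ 1) : 0 ≤ l.V a b c := by
  have hk : (0 : ℝ) ≤ l.k := Nat.cast_nonneg _
  unfold Ln.V
  split_ifs
  · exact mul_nonneg hk (lnV_nonneg h.1 ha0 ha1 hb0 hb1 hc0 _ _ _)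
  · exact mul_nonneg hk (lnV_nonneg h.2.1 ha0 ha1 hc0 hc1 hb0 _ _ _)
  · exact mul_nonneg hk (lnV_nonneg h.2.2 hb0 hb1 hc0 hc1 ha0 _ _ _)

lemma ma_lnV (p q r : ℕ) (i j k : Fin 7) : Ma fun v : Fin 7 → ℝ => lnV p q r (v i) (v j) (v k) := by
  have h := ((((Ma.coord k).smul (1600 * p * q)).add ((Ma.coord i).smul (-(1600 * p * r)))).add
    ((Ma.coord j).smul (-(1600 * q * r)))).add
    (Ma.const (ι := Fin 7) (400 * ((p : ℝ) ^ 2 + q ^ 2 + r ^ 2 + 2 * p * r + 2 * q * r - 2 * p * q)))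
  refine fun v m => ?_
  obtain ⟨a, b, h1⟩ := h v m
  refine ⟨a, b, fun u => ?_⟩
  rw [← h1 u]
  unfold lnV
  ring

lemma Ln.ma (l : Ln) (i j k : Fin 7) : Ma fun v : Fin 7 → ℝ => l.V (v i) (v j) (v k) := by
  unfold Ln.V
  split_ifs
  · exact (ma_lnV _ _ _ i j k).smul _
  · exact (ma_lnV _ _ _ i k j).smul _
  · exact (ma_lnV _ _ _ j k i).smul _

/-- sums of lines -/
noncomputable def lsP (ls : List Ln) (a b c : ℕ) : ℕ :=
  @List.rec Ln (fun _ => ℕ) (nat_lit 0) (fun l _ ih => Nat.add (l.P a b c) ih) ls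

noncomputable def lsQ (ls : List Ln) (a b c : ℕ) : ℕ :=
  @List.rec Ln (fun _ => ℕ) (nat_lit 0) (fun l _ ih => Nat.add (l.Q a b c) ih) ls

noncomputable def lsV (ls : List Ln) (a b c : ℝ) : ℝ := (ls.map fun l => l.V a b c).sum

lemma lsV_nat (ls : List Ln) (a b c : ℕ) : lsV ls ((a : ℝ) / 400) ((b : ℝ) / 400) ((c : ℝ) / 400)
    = (lsP ls a b c : ℕ) - (lsQ ls a b c : ℕ) := by
  induction ls with
  | nil =>
    have e1 : lsP [] a b c = 0 := rfl
    have e2 : lsQ [] a b c = 0 := rfl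
    rw [e1, e2]
    simp [lsV]
  | cons l ls ih =>
    have e1 : lsP (l :: ls) a b c = l.P a b c + lsP ls a b c := rfl
    have e2 : lsQ (l :: ls) a b c = l.Q a b c + lsQ ls a b c := rfl
    have e3 : lsV (l :: ls) ((a : ℝ) / 400) ((b : ℝ) / 400) ((c : ℝ) / 400)
      = l.V ((a : ℝ) / 400) ((b : ℝ) / 400) ((c : ℝ) / 400) + lsV ls ((a : ℝ) / 400) ((b : ℝ) / 400) ((c : ℝ) / 400) := by
      unfold lsV
      rw [List.map_cons, List.sum_cons]
    rw [e1, e2, e3, ih, l.V_nat]
    push_cast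
    ring

lemma lsV_nonneg (ls : List Ln) {a b c : ℝ} (h : Tri3 a b c) (ha0 : 0 ≤ a) (ha1 : a ≤ 1) (hb0 : 0 ≤ b) (hb1 : b ≤ 1)
    (hc0 : 0 ≤ c) (hc1 : c ≤ 1) : 0 ≤ lsV ls a b c := by
  refine List.sum_nonneg fun x hx => ?_
  obtain ⟨l, -, rfl⟩ := List.mem_map.mp hx
  exact l.V_nonneg h ha0 ha1 hb0 hb1 hc0 hc1

lemma ma_lsV (ls : List Ln) (i j k : Fin 7) : Ma fun v : Fin 7 → ℝ => lsV ls (v i) (v j) (v k) := by
  induction ls with
  | nil => exact Ma.const 0
  | cons l ls ih =>
    have := (l.ma i j k).add ih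
    refine fun v m => ?_
    obtain ⟨a, b, h1⟩ := this v m
    refine ⟨a, b, fun u => ?_⟩
    rw [← h1 u]
    simp only [lsV, List.map_cons, List.sum_cons]

/-! ### the piece of a pair of merged entries, unit `1 / (8 * 10 ^ 15)` -/

/-- the offset of every table -/
def offs : ℕ := nat_lit 400000000000000000

/-- upper bound of `8000 * w * X / s * (- log (V' / 10 ^ 6)) * 10 ^ 12`, `V = V' + 10 ^ 6` -/
noncomputable def clg (w X s V : ℕ) : ℕ :=
  cond (Nat.beq (Nat.mul w X) (nat_lit 0)) (nat_lit 0)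
    (Nat.succ (Nat.div (Nat.mul (Nat.mul (nat_lit 8) (Nat.mul w X))
      (Nat.sub (nat_lit 10000000000000) (lgOff (Nat.sub V (nat_lit 1000000)) (nat_lit 1000000)))) s))

/-- the piece: `w` = weight of the merged row, `wq` = weight of the logarithm of the triple -/
noncomputable def pcm (w wq a b c0 c1 : ℕ) (gb kf mf : Bool) (X s : ℕ) (ls : List Ln) (V H A B : ℕ) : ℕ :=
  Nat.sub (Nat.add (Nat.add (Nat.add (Nat.mul w (X12 a b c0 c1 gb kf mf V A B)) (clg w X s V)) (lsP ls H A B)) offs)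
    (Nat.add (Nat.mul (Nat.mul (nat_lit 16) wq) (lgOff (Nat.add H (Nat.add A B)) (nat_lit 200))) (lsQ ls H A B))

lemma clg_le {w X s V : ℕ} (hs : 0 < s) (hV : w * X ≠ 0 → 1000123 ≤ V) :
    8000000000000 * ((w : ℝ) * ((X : ℝ) / s) * -Real.log (((V : ℝ) - 1000000) / 1000000)) ≤ (clg w X s V : ℕ) := by
  have hs' : (0 : ℝ) < s := by exact_mod_cast hs
  by_cases h0 : w * X = 0
  · have e : clg w X s V = 0 := by
      unfold clg
      rw [show Nat.beq (Nat.mul w X) 0 = true by
        show Nat.beq (w * X) 0 = true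
        rw [h0]; rfl]
      rfl
    rw [e]
    have h1 : (w : ℝ) * X = 0 := by exact_mod_cast h0
    have h2 : (w : ℝ) * ((X : ℝ) / s) = 0 := by rw [← mul_div_assoc, h1, zero_div]
    rw [h2]
    simp
  · have hV := hV h0
    obtain ⟨U, hU⟩ : ∃ U, V = U + 1000000 := ⟨V - 1000000, by omega⟩
    subst hU
    have e : clg w X s (U + 1000000) = 8 * (w * X) * (10000000000000 - lgOff U 1000000) / s + 1 := by
      unfold clg
      rw [show Nat.beq (Nat.mul w X) 0 = false by
        show Nat.beq (w * X) 0 = false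
        cases hh : w * X with
        | zero => exact absurd hh h0
        | succ n => rfl]
      rw [show Nat.sub (U + 1000000) 1000000 = U by
        show U + 1000000 - 1000000 = U
        omega]
      rfl
    have hl := lgOff_le U 1000000 (by omega) (by norm_num) (by omega)
    rw [e]
    have e2 : (((U + 1000000 : ℕ) : ℝ) - 1000000) / 1000000 = (U : ℝ) / ((1000000 : ℕ) : ℝ) := by
      push_cast
      ring
    rw [e2]
    have h3 := div_up (8 * (w * X) * (10000000000000 - lgOff U 1000000)) s hs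
    have h4 : (10000000000000 : ℝ) - lgOff U 1000000 ≤ ((10000000000000 - lgOff U 1000000 : ℕ) : ℝ) := by
      rw [sub_le_iff_le_add]
      exact_mod_cast (le_tsub_add : (10000000000000 : ℕ) ≤ _)
    obtain ⟨lg, hlg⟩ : ∃ lg, lg = Real.log ((U : ℝ) / ((1000000 : ℕ) : ℝ)) := ⟨_, rfl⟩
    rw [← hlg] at hl ⊢
    push_cast at h3 ⊢
    refine le_trans ?_ h3
    rw [le_div_iff₀ hs']
    have h5 : 8 * ((w : ℝ) * X) * (-(10 ^ 12 * lg)) ≤ 8 * ((w : ℝ) * X) * ((10000000000000 - lgOff U 1000000 : ℕ) : ℝ) := by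
      refine mul_le_mul_of_nonneg_left ?_ (by positivity)
      refine le_trans ?_ h4
      linarith
    refine le_trans (le_of_eq ?_) h5
    field_simp
    ring

/-- the piece, real form -/
noncomputable def pcR (w wq α : ℝ) (P : MP) (ls : List Ln) (U h a b : ℝ) : ℝ :=
  w * (P.X U a b - α * Real.log U) - 2 * wq * Real.log (2 * (h + a + b)) + lsV ls h a b / 8000000000000

/-- THE PIECE OF A PAIR -/
theorem pcm_le (P : MP) (um : ℕ) (hum : P.um = (um : ℝ) / 400) {w wq X s : ℕ} (hs : 0 < s) (ls : List Ln)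
    {V H A B : ℕ} (hHA : 100 ≤ H + A) (hV : w * X ≠ 0 → 1000123 ≤ V) :
    pcR w wq ((X : ℝ) / s) P ls (((V : ℝ) - 1000000) / 1000000) ((H : ℝ) / 400) ((A : ℝ) / 400) ((B : ℝ) / 400)
      ≤ ((pcm w wq (cAn P.L) (cBn P.L) (tc0 um) (tc1 um) P.gb P.kf P.mf X s ls V H A B : ℕ) - (offs : ℕ)
        + 16 * wq * 10 ^ 13) / 8000000000000 := by
  have h1 := X12_le P um hum V A B
  have h2 := clg_le (w := w) (X := X) (s := s) (V := V) hs hV
  have h3 := lsV_nat ls H A B
  have h4 := lgOff_le (H + (A + B)) 200 (by omega) (by norm_num) (by omega)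
  obtain ⟨x12, hx⟩ : ∃ x, x = X12 (cAn P.L) (cBn P.L) (tc0 um) (tc1 um) P.gb P.kf P.mf V A B := ⟨_, rfl⟩
  obtain ⟨cl, hcl⟩ : ∃ x, x = clg w X s V := ⟨_, rfl⟩
  obtain ⟨lp, hlp⟩ : ∃ x, x = lsP ls H A B := ⟨_, rfl⟩
  obtain ⟨lq, hlq⟩ : ∃ x, x = lsQ ls H A B := ⟨_, rfl⟩
  obtain ⟨lg, hlg⟩ : ∃ x, x = lgOff (H + (A + B)) 200 := ⟨_, rfl⟩
  have e : pcm w wq (cAn P.L) (cBn P.L) (tc0 um) (tc1 um) P.gb P.kf P.mf X s ls V H A B
      = w * x12 + cl + lp + offs - (16 * wq * lg + lq) := by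
    rw [hx, hcl, hlp, hlq, hlg]
    rfl
  rw [← hx] at h1
  rw [← hcl] at h2
  rw [← hlp, ← hlq] at h3
  rw [← hlg] at h4
  rw [e]
  have h5 : ((w * x12 + cl + lp + offs : ℕ) : ℝ) ≤ ((w * x12 + cl + lp + offs - (16 * wq * lg + lq) : ℕ) : ℝ)
      + (16 * wq * lg + lq : ℕ) := by exact_mod_cast le_tsub_add
  unfold pcR
  have e2 : 2 * ((H : ℝ) / 400 + (A : ℝ) / 400 + (B : ℝ) / 400) = ((H + (A + B) : ℕ) : ℝ) / ((200 : ℕ) : ℝ) := by
    push_cast
    ring
  rw [h3, e2]
  obtain ⟨L1, hL1⟩ : ∃ L, L = Real.log (((V : ℝ) - 1000000) / 1000000) := ⟨_, rfl⟩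
  obtain ⟨L2, hL2⟩ : ∃ L, L = Real.log (((H + (A + B) : ℕ) : ℝ) / ((200 : ℕ) : ℝ)) := ⟨_, rfl⟩
  obtain ⟨x, hxx⟩ : ∃ x, x = P.X (((V : ℝ) - 1000000) / 1000000) ((A : ℝ) / 400) ((B : ℝ) / 400) := ⟨_, rfl⟩
  rw [← hL1] at h2 ⊢
  rw [← hL2] at h4 ⊢
  rw [← hxx] at h1 ⊢
  rw [le_div_iff₀ (by norm_num)] at h1 ⊢
  push_cast at h5
  have hw : (0 : ℝ) ≤ w := Nat.cast_nonneg _
  have hwq : (0 : ℝ) ≤ 16 * wq := by positivity
  have u1 := mul_le_mul_of_nonneg_left h1 hw
  have u2 := mul_le_mul_of_nonneg_left h4 hwq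
  obtain ⟨D, hD⟩ : ∃ D, D = ((w * x12 + cl + lp + offs - (16 * wq * lg + lq) : ℕ) : ℝ) := ⟨_, rfl⟩
  rw [← hD] at h5 ⊢
  have goal : 8000000000000 * (w * x) + 8000000000000 * (w * ((X : ℝ) / s) * -L1)
      - 16 * wq * (10 ^ 12 * L2) + ((lp : ℝ) - lq) ≤ D - offs + 16 * wq * 10 ^ 13 := by
    nlinarith
  refine le_trans (le_of_eq ?_) goal
  ring

end C1
end Pool.Agent.Lib.MP_6947cd_al
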