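import Pool.Agent.Lib.MP_6947cd_al.C.RowUse
import Pool.Agent.Lib.MP_6947cd_al.C.Cut

/-!
Problem MP_6947cd_al (Chollet).  CASE C: the alternatives of the row functional (additive part), check of the majorants.
-/

set_option autoImplicit false
open Finset

namespace Pool.Agent.Lib.MP_6947cd_al
namespace C1

open Ent Ent.Pk Fr Fr.WT CC B1 B2 PkA

/-- the additive part of an entry -/
noncomputable def gr (x : ℝ) : ℝ := gtr (3 / 20) (9 / 20) x

lemma gr_small {x : ℝ} (h : x ≤ 9 / 20) : gr x = 43 / 200 * x + 3 / 20 * x ^ 2 := by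
  unfold gr gtr
  rw [min_eq_left h]

lemma gr_big {x : ℝ} (h : 9 / 20 ≤ x) : gr x = 1017 / 8000 := by
  unfold gr gtr
  rw [min_eq_right h]
  norm_num

/-- the value at a grid point, unit `1 / (32 * 10 ^ 7)` -/
def g32 (X : ℕ) : ℕ :=
  cond (Nat.ble X (nat_lit 180)) (Nat.add (Nat.mul (nat_lit 172000) X) (Nat.mul (nat_lit 300) (Nat.mul X X)))
    (nat_lit 40680000)

lemma g32_eq (X : ℕ) : gr ((X : ℝ) / 400) = (g32 X : ℕ) / 320000000 := by
  rcases Nat.le_total X 180 with h | h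
  · have e : g32 X = 172000 * X + 300 * (X * X) := by
      unfold g32
      rw [show Nat.ble X (nat_lit 180) = true from Nat.ble_eq_true_of_le h]
      rfl
    have h' : (X : ℝ) ≤ 180 := by exact_mod_cast h
    rw [e, gr_small (by linarith)]
    push_cast
    ring
  · have h' : (180 : ℝ) ≤ X := by exact_mod_cast h
    rcases h.eq_or_lt with h1 | h1
    · subst h1
      rw [gr_big (by norm_num)]
      norm_num [g32, Nat.ble]
    · have e : g32 X = 40680000 := by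
        unfold g32
        have : Nat.ble X (nat_lit 180) = false := by
          rw [← Bool.not_eq_true, Nat.ble_eq]
          exact not_le.mpr h1
        rw [this]
        rfl
      rw [e, gr_big (by linarith)]
      norm_num

/-- the check of a chord: borders `X0`, `X1` (unit `1 / 400`), values `v0`, `v1` (unit `1e-7`) -/
def chG (X0 X1 v0 v1 : ℕ) : Bool :=
  cond (Nat.ble (g32 X0) (Nat.mul (nat_lit 32) v0)) (cond (Nat.ble (g32 X1) (Nat.mul (nat_lit 32) v1))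
    (cond (Nat.ble (nat_lit 180) X0) true (cond (Nat.ble X1 (nat_lit 180)) true
      (Nat.ble (Nat.mul (Nat.sub X1 X0) (nat_lit 1271250))
        (Nat.add (Nat.mul (Nat.sub X1 (nat_lit 180)) v0) (Nat.mul (Nat.sub (nat_lit 180) X0) v1))))) false) false

/-- the chord -/
noncomputable def chF (x0 x1 v0 v1 x : ℝ) : ℝ := v0 + (v1 - v0) / (x1 - x0) * (x - x0)

lemma ble_false {a b : ℕ} (h : Nat.ble a b = false) : b < a := by
  by_contra hc
  rw [Nat.ble_eq_true_of_le (not_lt.mp hc)] at h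
  exact absurd h (by simp)

lemma chord_real {x0 x1 w0 w1 x : ℝ} (hd : x0 < x1) (h0 : x0 ≤ x) (h1 : x ≤ x1) (a0 : gr x0 ≤ w0)
    (a1 : gr x1 ≤ w1) (hm : x0 < 9 / 20 → 9 / 20 < x1 →
      (x1 - x0) * (1017 / 8000) ≤ (x1 - 9 / 20) * w0 + (9 / 20 - x0) * w1) :
    gr x * (x1 - x0) ≤ (x1 - x) * w0 + (x - x0) * w1 := by
  have hd' : 0 ≤ x1 - x0 := by linarith
  have p0 : 0 ≤ x - x0 := by linarith
  have p1 : 0 ≤ x1 - x := by linarith
  have m0 := mul_le_mul_of_nonneg_left a0 p1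
  have m1 := mul_le_mul_of_nonneg_left a1 p0
  rcases le_or_gt (9 / 20) x0 with hb | hb
  · rw [gr_big hb] at m0
    rw [gr_big (hb.trans hd.le)] at m1
    rw [gr_big (hb.trans h0)]
    nlinarith
  · rcases le_or_gt x1 (9 / 20) with hc | hc
    · rw [gr_small hb.le] at m0
      rw [gr_small hc] at m1
      rw [gr_small (h1.trans hc)]
      nlinarith [mul_nonneg (mul_nonneg p0 p1) hd']
    · have hm := hm hb hc
      have q1 : 0 < x1 - 9 / 20 := by linarith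
      have q0 : 0 < 9 / 20 - x0 := by linarith
      have b1 : 1017 / 8000 ≤ w1 := by rwa [gr_big hc.le] at a1
      have b0 : 43 / 200 * x0 + 3 / 20 * x0 ^ 2 ≤ w0 := by rwa [gr_small hb.le] at a0
      rcases le_total x (9 / 20) with hx | hx
      · rw [gr_small hx]
        have hx' := sub_nonneg.mpr hx
        have key : (9 / 20 - x0) * (43 / 200 * x + 3 / 20 * x ^ 2)
            ≤ (9 / 20 - x) * (43 / 200 * x0 + 3 / 20 * x0 ^ 2) + (x - x0) * (1017 / 8000) := by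
          nlinarith [mul_nonneg (mul_nonneg p0 hx') q0.le]
        have k1 := mul_le_mul_of_nonneg_left b0 hx'
        have k3 := mul_le_mul_of_nonneg_right (key.trans (add_le_add k1 le_rfl)) hd'
        have k4 := mul_le_mul_of_nonneg_left hm p0
        have k2 : (9 / 20 - x0) * ((43 / 200 * x + 3 / 20 * x ^ 2) * (x1 - x0))
            ≤ (9 / 20 - x0) * ((x1 - x) * w0 + (x - x0) * w1) := by
          have e1 : (9 / 20 - x0) * ((43 / 200 * x + 3 / 20 * x ^ 2) * (x1 - x0))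
            = (9 / 20 - x0) * (43 / 200 * x + 3 / 20 * x ^ 2) * (x1 - x0) := by ring
          have e2 : (9 / 20 - x0) * ((x1 - x) * w0 + (x - x0) * w1)
            = (9 / 20 - x) * w0 * (x1 - x0) + (x - x0) * ((x1 - 9 / 20) * w0 + (9 / 20 - x0) * w1) := by ring
          rw [e1, e2]
          refine k3.trans (le_trans (le_of_eq ?_) (add_le_add le_rfl k4))
          ring
        exact le_of_mul_le_mul_left k2 q0
      · rw [gr_big hx]
        have k1 := mul_le_mul_of_nonneg_left hm p1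
        have k2 := mul_le_mul_of_nonneg_left b1 (mul_nonneg hd' (sub_nonneg.mpr hx))
        have k3 : (x1 - 9 / 20) * (1017 / 8000 * (x1 - x0)) ≤ (x1 - 9 / 20) * ((x1 - x) * w0 + (x - x0) * w1) := by
          have e1 : (x1 - 9 / 20) * ((x1 - x) * w0 + (x - x0) * w1)
            = (x1 - x) * ((x1 - 9 / 20) * w0 + (9 / 20 - x0) * w1) + (x1 - x0) * (x - 9 / 20) * w1 := by ring
          have e2 : (x1 - 9 / 20) * (1017 / 8000 * (x1 - x0))
            = (x1 - x) * ((x1 - x0) * (1017 / 8000)) + (x1 - x0) * (x - 9 / 20) * (1017 / 8000) := by ring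
          rw [e1, e2]
          exact add_le_add k1 k2
        exact le_of_mul_le_mul_left k3 q1

lemma chG_facts {X0 X1 v0 v1 : ℕ} (h : chG X0 X1 v0 v1 = true) (hlt : X0 < X1) :
    gr ((X0 : ℝ) / 400) ≤ (v0 : ℝ) / 10 ^ 7 ∧ gr ((X1 : ℝ) / 400) ≤ (v1 : ℝ) / 10 ^ 7 ∧
    ((X0 : ℝ) < 180 → (180 : ℝ) < X1 →
      ((X1 : ℝ) - X0) * 1271250 ≤ ((X1 : ℝ) - 180) * v0 + (180 - (X0 : ℝ)) * v1) := by
  unfold chG at h
  obtain ⟨c0, h⟩ := cond_eq_true h
  obtain ⟨c1, h⟩ := cond_eq_true h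
  have c0 : (g32 X0 : ℝ) ≤ 32 * v0 := by exact_mod_cast Nat.le_of_ble_eq_true c0
  have c1 : (g32 X1 : ℝ) ≤ 32 * v1 := by exact_mod_cast Nat.le_of_ble_eq_true c1
  refine ⟨?_, ?_, ?_⟩
  · rw [g32_eq X0, div_le_div_iff₀ (by norm_num) (by norm_num)]
    generalize (g32 X0 : ℝ) = u at *
    nlinarith
  · rw [g32_eq X1, div_le_div_iff₀ (by norm_num) (by norm_num)]
    generalize (g32 X1 : ℝ) = u at *
    nlinarith
  · intro h1 h2
    have h1' : X0 < 180 := by exact_mod_cast h1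
    have h2' : 180 < X1 := by exact_mod_cast h2
    have hb : Nat.ble (nat_lit 180) X0 = false := by
      rw [← Bool.not_eq_true, Nat.ble_eq]
      exact not_le.mpr h1'
    have hc : Nat.ble X1 (nat_lit 180) = false := by
      rw [← Bool.not_eq_true, Nat.ble_eq]
      exact not_le.mpr h2'
    rw [hb, cond_false, hc, cond_false] at h
    have hn : (X1 - X0) * 1271250 ≤ (X1 - 180) * v0 + (180 - X0) * v1 := Nat.le_of_ble_eq_true h
    have hn' : (((X1 - X0) * 1271250 : ℕ) : ℝ) ≤ (((X1 - 180) * v0 + (180 - X0) * v1 : ℕ) : ℝ) := by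
      exact_mod_cast hn
    rw [Nat.cast_add, Nat.cast_mul, Nat.cast_mul, Nat.cast_mul, Nat.cast_sub hlt.le, Nat.cast_sub h2'.le,
      Nat.cast_sub h1'.le] at hn'
    exact hn'

theorem chG_sound {X0 X1 v0 v1 : ℕ} (h : chG X0 X1 v0 v1 = true) (hlt : X0 < X1) {x : ℝ} (h0 : (X0 : ℝ) / 400 ≤ x)
    (h1 : x ≤ (X1 : ℝ) / 400) :
    gr x ≤ chF ((X0 : ℝ) / 400) ((X1 : ℝ) / 400) ((v0 : ℝ) / 10 ^ 7) ((v1 : ℝ) / 10 ^ 7) x := by
  obtain ⟨a0, a1, hm⟩ := chG_facts h hlt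
  have hlt' : (X0 : ℝ) < X1 := by exact_mod_cast hlt
  clear h hlt
  generalize (X0 : ℝ) = Y0 at *
  generalize (X1 : ℝ) = Y1 at *
  generalize (v0 : ℝ) = w0 at *
  generalize (v1 : ℝ) = w1 at *
  have hd : 0 < Y1 / 400 - Y0 / 400 := by linarith
  have hL : chF (Y0 / 400) (Y1 / 400) (w0 / 10 ^ 7) (w1 / 10 ^ 7) x
      = ((Y1 / 400 - x) * (w0 / 10 ^ 7) + (x - Y0 / 400) * (w1 / 10 ^ 7)) / (Y1 / 400 - Y0 / 400) := by
    unfold chF
    rw [eq_div_iff hd.ne', add_mul, mul_right_comm, div_mul_cancel₀ _ hd.ne']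
    ring
  rw [hL, le_div_iff₀ hd]
  refine chord_real (by linarith) h0 h1 a0 a1 fun h2 h3 => ?_
  have := hm (by linarith) (by linarith)
  have e1 : (Y1 / 400 - Y0 / 400) * (1017 / 8000) = ((Y1 - Y0) * 1271250) / (400 * 10 ^ 7) := by ring
  have e2 : (Y1 / 400 - 9 / 20) * (w0 / 10 ^ 7) + (9 / 20 - Y0 / 400) * (w1 / 10 ^ 7)
    = ((Y1 - 180) * w0 + (180 - Y0) * w1) / (400 * 10 ^ 7) := by ring
  rw [e1, e2]
  exact div_le_div_of_nonneg_right this (by norm_num)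

/-! ### the rests -/

lemma gr_CG : CG 20 gr := by
  intro i hi x h0 h1
  have a : 0 ≤ 20 * x - i := by linarith
  have b : 0 ≤ 1 - (20 * x - i) := by linarith
  rcases Nat.lt_or_ge i 9 with h | h
  · have h' : (i : ℝ) + 1 ≤ 9 := by exact_mod_cast h
    rw [gr_small (by linarith), gr_small (by linarith), gr_small (by linarith)]
    nlinarith [mul_nonneg a b]
  · have h' : (9 : ℝ) ≤ i := by exact_mod_cast h
    rw [gr_big (by linarith), gr_big (by linarith), gr_big (by linarith)]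
    linarith

/-- the values at the nodes `i / 20`, unit `1e-7` -/
def grN (i : ℕ) : ℕ :=
  cond (Nat.ble i (nat_lit 9)) (Nat.add (Nat.mul (nat_lit 107500) i) (Nat.mul (nat_lit 3750) (Nat.mul i i)))
    (nat_lit 1271250)

lemma grN_ok : ∀ i : ℕ, i ≤ 20 → gr ((i : ℝ) / 20) ≤ (grN i : ℝ) / 10000000 := by
  intro i hi
  rcases Nat.le_total i 9 with h | h
  · have e : grN i = 107500 * i + 3750 * (i * i) := by
      unfold grN
      rw [show Nat.ble i (nat_lit 9) = true from Nat.ble_eq_true_of_le h]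
      rfl
    have h' : (i : ℝ) ≤ 9 := by exact_mod_cast h
    rw [e, gr_small (by linarith)]
    push_cast
    apply le_of_eq
    ring
  · have h' : (9 : ℝ) ≤ i := by exact_mod_cast h
    rw [gr_big (by linarith)]
    have : 1271250 ≤ grN i := by
      rcases h.eq_or_lt with h1 | h1
      · subst h1; decide
      · unfold grN
        have : Nat.ble i (nat_lit 9) = false := by
          rw [← Bool.not_eq_true, Nat.ble_eq]
          exact not_le.mpr h1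
        rw [this]
        exact le_rfl
    have : (1271250 : ℝ) ≤ grN i := by exact_mod_cast this
    rw [le_div_iff₀ (by norm_num)]
    linarith

/-- the check of the majorant of the rests -/
def gsC (ks Gs : List ℕ) : Bool := ppOK grN (nat_lit 20) (nat_lit 0) (nat_lit 0) ks Gs

lemma ppOK_len (g : ℕ → ℕ) (n : ℕ) : ∀ (ks vs : List ℕ) (A vA : ℕ), ppOK g n A vA ks vs = true →
    vs.length = ks.length := by
  intro ks
  induction ks with
  | nil =>
    intro vs A vA h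
    cases vs with
    | nil => rfl
    | cons v vs => simp [ppOK] at h
  | cons k ks ih =>
    intro vs A vA h
    cases vs with
    | nil => simp [ppOK] at h
    | cons v vs =>
      unfold ppOK at h
      rw [Bool.and_eq_true] at h
      rw [List.length_cons, List.length_cons, ih vs _ _ h.2]

lemma gsC_sound {ks Gs : List ℕ} (h : gsC ks Gs = true) : Gs.length = ks.length ∧
    ∀ t, 0 ≤ t → t ≤ top 0 (kR ks) → gr t ≤ nF 10000000 ks Gs t := by
  refine ⟨ppOK_len _ _ _ _ _ _ h, fun t h0 h1 => ?_⟩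
  have := maj (c := 10000000) (by norm_num) gr_CG (g := grN) grN_ok ks Gs 0 0 (by norm_num) h t
    (by simpa using h0) (by simpa using h1)
  simpa [nF] using this

/-! ### the alternatives -/

/-- the affine majorant of the special entries -/
noncomputable def lamA (A0 A1 Y0 Y1 Z0 Z1 a0 a1 y0 y1 z0 z1 : ℕ) : Af :=
  ⟨(chF ((A0 : ℝ) / 400) ((A1 : ℝ) / 400) ((a0 : ℝ) / 10 ^ 7) ((a1 : ℝ) / 10 ^ 7) 0
    + chF ((Y0 : ℝ) / 400) ((Y1 : ℝ) / 400) ((y0 : ℝ) / 10 ^ 7) ((y1 : ℝ) / 10 ^ 7) 0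
    + chF ((Z0 : ℝ) / 400) ((Z1 : ℝ) / 400) ((z0 : ℝ) / 10 ^ 7) ((z1 : ℝ) / 10 ^ 7) 0) - 6 / 125,
    ((a1 : ℝ) / 10 ^ 7 - (a0 : ℝ) / 10 ^ 7) / ((A1 : ℝ) / 400 - (A0 : ℝ) / 400),
    ((y1 : ℝ) / 10 ^ 7 - (y0 : ℝ) / 10 ^ 7) / ((Y1 : ℝ) / 400 - (Y0 : ℝ) / 400),
    ((z1 : ℝ) / 10 ^ 7 - (z0 : ℝ) / 10 ^ 7) / ((Z1 : ℝ) / 400 - (Z0 : ℝ) / 400)⟩

lemma lamA_val (A0 A1 Y0 Y1 Z0 Z1 a0 a1 y0 y1 z0 z1 : ℕ) (a y z : ℝ) :
    (lamA A0 A1 Y0 Y1 Z0 Z1 a0 a1 y0 y1 z0 z1).val a y z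
    = chF ((A0 : ℝ) / 400) ((A1 : ℝ) / 400) ((a0 : ℝ) / 10 ^ 7) ((a1 : ℝ) / 10 ^ 7) a
    + chF ((Y0 : ℝ) / 400) ((Y1 : ℝ) / 400) ((y0 : ℝ) / 10 ^ 7) ((y1 : ℝ) / 10 ^ 7) y
    + chF ((Z0 : ℝ) / 400) ((Z1 : ℝ) / 400) ((z0 : ℝ) / 10 ^ 7) ((z1 : ℝ) / 10 ^ 7) z - 6 / 125 := by
  unfold lamA Af.val chF
  ring

lemma chF_end {X0 X1 : ℕ} (h : X0 < X1) (v0 v1 : ℕ) (q : Bool) :
    chF ((X0 : ℝ) / 400) ((X1 : ℝ) / 400) ((v0 : ℝ) / 10 ^ 7) ((v1 : ℝ) / 10 ^ 7)
      (edg ((X0 : ℝ) / 400) ((X1 : ℝ) / 400) q) = ((cv v0 v1 q : ℕ) : ℝ) / 10 ^ 7 := by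
  have h' : (X0 : ℝ) < X1 := by exact_mod_cast h
  have hd : ((X1 : ℝ) / 400 - (X0 : ℝ) / 400) ≠ 0 := by
    have : 0 < (X1 : ℝ) / 400 - (X0 : ℝ) / 400 := by linarith
    exact this.ne'
  cases q with
  | false =>
    show chF _ _ _ _ ((X0 : ℝ) / 400) = (v0 : ℝ) / 10 ^ 7
    unfold chF
    rw [sub_self, mul_zero, add_zero]
  | true =>
    show chF _ _ _ _ ((X1 : ℝ) / 400) = (v1 : ℝ) / 10 ^ 7
    unfold chF
    rw [div_mul_cancel₀ _ hd]
    ring

/-- the values of the affine majorant at the corners -/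
def lsN (a0 a1 y0 y1 z0 z1 : ℕ) (ba bb bc : Bool) : ℕ :=
  Nat.sub (Nat.add (Nat.add (cv a0 a1 ba) (cv y0 y1 bb)) (cv z0 z1 bc)) (nat_lit 480000)

lemma lamA_le {A0 A1 Y0 Y1 Z0 Z1 a0 a1 y0 y1 z0 z1 : ℕ} (hA : A0 < A1) (hY : Y0 < Y1) (hZ : Z0 < Z1)
    (ba bb bc : Bool) :
    (lamA A0 A1 Y0 Y1 Z0 Z1 a0 a1 y0 y1 z0 z1).val (edg ((A0 : ℝ) / 400) ((A1 : ℝ) / 400) ba)
      (edg ((Y0 : ℝ) / 400) ((Y1 : ℝ) / 400) bb) (edg ((Z0 : ℝ) / 400) ((Z1 : ℝ) / 400) bc)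
    ≤ ((lsN a0 a1 y0 y1 z0 z1 ba bb bc : ℕ) : ℝ) / 10 ^ 7 := by
  rw [lamA_val, chF_end hA, chF_end hY, chF_end hZ]
  have e : lsN a0 a1 y0 y1 z0 z1 ba bb bc = cv a0 a1 ba + cv y0 y1 bb + cv z0 z1 bc - 480000 := rfl
  have h1 : ((cv a0 a1 ba + cv y0 y1 bb + cv z0 z1 bc : ℕ) : ℝ)
      ≤ ((cv a0 a1 ba + cv y0 y1 bb + cv z0 z1 bc - 480000 : ℕ) : ℝ) + (480000 : ℕ) := by
    exact_mod_cast le_tsub_add
  rw [e]
  push_cast at h1
  rw [← add_div, ← add_div, sub_le_iff_le_add, div_le_iff₀ (by norm_num)]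
  rw [add_mul, div_mul_cancel₀ _ (by norm_num)]
  linarith

/-- THE ALTERNATIVES of a payer -/
theorem altOK_of {ks Gs : List ℕ} {bad : Bool} {A0 A1 Y0 Y1 Z0 Z1 a0 a1 y0 y1 z0 z1 : ℕ} (hS7 : SpecR7)
    (hkn : KnOK ks) (hA : A0 < A1) (hY : Y0 < Y1) (hZ : Z0 < Z1) (h : gsC ks Gs = true)
    (c0 : chG A0 A1 a0 a1 = true) (c1 : chG Y0 Y1 y0 y1 = true) (c2 : chG Z0 Z1 z0 z1 = true) :
    AltOK ks bad (altA 5000000 (lamA A0 A1 Y0 Y1 Z0 Z1 a0 a1 y0 y1 z0 z1)) (altG ks Gs) ((A0 : ℝ) / 400)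
      ((A1 : ℝ) / 400) ((Y0 : ℝ) / 400) ((Y1 : ℝ) / 400) ((Z0 : ℝ) / 400) ((Z1 : ℝ) / 400) := by
  obtain ⟨hl, hg⟩ := gsC_sound h
  obtain ⟨n1, n2, -⟩ := nF_facts hS7 10000000 ks Gs hkn hl
  refine ⟨?_, ?_, ?_⟩
  · intro al
    cases al with
    | false => exact aff_zero _ _
    | true => exact n1
  · intro al
    cases al with
    | false => rfl
    | true => exact n2
  · intro _ al a y z M ha0 ha1 hy0 hy1 hz0 hz1 hM
    cases al with
    | false =>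
      refine (Gam_half _).trans (le_of_eq ?_)
      have e1 : altA 5000000 (lamA A0 A1 Y0 Y1 Z0 Z1 a0 a1 y0 y1 z0 z1) false = cAf ((5000000 : ℕ) / 10 ^ 7) := rfl
      have e2 : altG ks Gs false = fun _ => (0 : ℝ) := rfl
      rw [e1, e2, cAf_val, Multiset.map_const', Multiset.sum_replicate, smul_zero, add_zero]
      norm_num
    | true =>
      have e1 : altA 5000000 (lamA A0 A1 Y0 Y1 Z0 Z1 a0 a1 y0 y1 z0 z1) true
        = lamA A0 A1 Y0 Y1 Z0 Z1 a0 a1 y0 y1 z0 z1 := rfl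
      have e2 : altG ks Gs true = nF 10000000 ks Gs := rfl
      rw [e1, e2, lamA_val]
      have g0 := chG_sound c0 hA ha0 ha1
      have g1 := chG_sound c1 hY hy0 hy1
      have g2 := chG_sound c2 hZ hz0 hz1
      have g3 : (M.map gr).sum ≤ (M.map (nF 10000000 ks Gs)).sum :=
        Multiset.sum_map_le_sum_map _ _ fun e he => hg e (hM e he).1 (hM e he).2
      have g4 : Gam (a ::ₘ y ::ₘ z ::ₘ M) ≤ gr a + (gr y + (gr z + (M.map gr).sum)) - 6 / 125 := by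
        unfold Gam
        refine (min_le_left _ _).trans (le_of_eq ?_)
        rw [Multiset.map_cons, Multiset.map_cons, Multiset.map_cons, Multiset.sum_cons, Multiset.sum_cons,
          Multiset.sum_cons]
        rfl
      linarith

/-- no alternatives -/
theorem altOK_bad {ks : List ℕ} {a0 a1 y0 y1 z0 z1 : ℝ} :
    AltOK ks true (fun _ => cAf 0) (fun _ _ => 0) a0 a1 y0 y1 z0 z1 :=
  ⟨fun _ => aff_zero _ _, fun _ => rfl, fun h => absurd h (by simp)⟩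

end C1
end Pool.Agent.Lib.MP_6947cd_al
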