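import Pool.Agent.Lib.MP_6947cd_al.C.Side3

/-!
Problem MP_6947cd_al (Chollet).  THE CHECK OF A ROW from the tables of a cell of a grid: the corners of the box of the
special entries are chords of the corners of the cell.  Borders = integers in a unit `1 / U`.
-/

set_option autoImplicit false
open Finset

namespace Pool.Agent.Lib.MP_6947cd_al
namespace B3

open Ent Ent.Pk Fr Fr.WT PkA B1 B2

/-- a cell of the grid: radices, knots (unit `1 / 200`), borders (unit `1 / U`), the eight tables (index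
`ix ba bb bc`; digit = row bound + `2 ^ 32` row value, unit `1e-7`, `0` = not valid) -/
structure GC where
  rd : List ℕ
  ks : List ℕ
  a0 : ℕ
  a1 : ℕ
  y0 : ℕ
  y1 : ℕ
  z0 : ℕ
  z1 : ℕ
  x0 : ℕ
  x1 : ℕ
  x2 : ℕ
  x3 : ℕ
  x4 : ℕ
  x5 : ℕ
  x6 : ℕ
  x7 : ℕ

/-- the table at a corner -/
def GC.tb (E : GC) (ba bb bc : Bool) : ℕ :=
  bif bc then (bif bb then (bif ba then E.x7 else E.x6) else (bif ba then E.x5 else E.x4))
    else (bif bb then (bif ba then E.x3 else E.x2) else (bif ba then E.x1 else E.x0))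

/-- a border -/
noncomputable def eU (U a b : ℕ) (c : Bool) : ℝ := ((bif c then b else a : ℕ) : ℝ) / U

/-- the data of a cell are correct -/
structure GC.OK (U : ℕ) (E : GC) : Prop where
  cnt : CntOK E.rd (cnts E.rd 1)
  lk : E.ks.length = E.rd.length
  kn : KnOK E.ks
  k2 : ∀ k ∈ E.ks, k ≤ 200
  tv : ∀ ba bb bc : Bool, Tv E.rd E.ks (Sp (eU U E.a0 E.a1 ba) (eU U E.y0 E.y1 bb) (eU U E.z0 E.z1 bc))
    (E.tb ba bb bc)

/-- the chord numbers of a coordinate: cell `[a0, a1]`, box `[u0, u1]` -/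
noncomputable def crd (U a0 a1 u0 u1 : ℕ) (K : ℕ → ℕ → ℕ → Bool) : Bool :=
  cond (Nat.ble (Nat.succ a0) a1) (cond (Nat.ble a0 u0) (cond (Nat.ble u0 u1) (cond (Nat.ble u1 a1) (cond (Nat.ble a1 U)
    (let e := Nat.sub a1 a0;
     let m0 := Nat.sub a1 u0;
     let m1 := Nat.sub a1 u1;
     let g := Nat.gcd e (Nat.gcd m0 m1);
     K (Nat.div e g) (Nat.div m0 g) (Nat.div m1 g)) false) false) false) false) false

/-- sentinel -/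
noncomputable def sNr (rd : List ℕ) : ℕ := Nat.mul (nat_lit 10000000) (Nat.add (lsum rd (nat_lit 0)) (nat_lit 4))

/-- row bounds of a table -/
noncomputable def tTr (rd : List ℕ) (X : ℕ) : ℕ := senT (ONr rd) (sNr rd) X

/-- row values of a table -/
noncomputable def wTr (rd : List ℕ) (X : ℕ) : ℕ := senW (ONr rd) X

/-- THE CORNERS of the box; `K s bd tabs` -/
noncomputable def celC (U : ℕ) (rd : List ℕ) (a0 a1 y0 y1 z0 z1 x0 x1 x2 x3 x4 x5 x6 x7 u0 u1 v0 v1 w0 w1 : ℕ)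
    (K : ℕ → ℕ → List (ℕ × ℕ) → Bool) : Bool :=
  cond (Nat.ble (Nat.mul (nat_lit 3) U) (Nat.mul (nat_lit 10) (Nat.add (Nat.add a0 y0) z0)))
  (cond (Nat.ble (sNr rd) (nat_lit 4294967295))
  (crd U a0 a1 u0 u1 fun ca la0 la1 => crd U y0 y1 v0 v1 fun cy ly0 ly1 => crd U z0 z1 w0 w1 fun cz lz0 lz1 =>
    let s := Nat.mul ca (Nat.mul cy cz);
    cond (Nat.ble s (nat_lit 1073741824))
    (cl24 ca la0 la1 cy ly0 ly1 cz lz0 lz1 (tTr rd x0) (tTr rd x1) (tTr rd x2) (tTr rd x3) (tTr rd x4) (tTr rd x5)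
      (tTr rd x6) (tTr rd x7) fun t0 t1 t2 t3 t4 t5 t6 t7 =>
    cl24 ca la0 la1 cy ly0 ly1 cz lz0 lz1 (wTr rd x0) (wTr rd x1) (wTr rd x2) (wTr rd x3) (wTr rd x4) (wTr rd x5)
      (wTr rd x6) (wTr rd x7) fun v0 v1 v2 v3 v4 v5 v6 v7 =>
    K s (Nat.mul s (nat_lit 4294967296)) [(t0, v0), (t1, v1), (t2, v2), (t3, v3), (t4, v4), (t5, v5), (t6, v6), (t7, v7)])
      false) false) false

/-- the facts of a coordinate -/
structure CrdOK (U a0 a1 u0 u1 c l0 l1 : ℕ) : Prop where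
  hU : 0 < U
  mm : a0 ≤ a1
  c0 : 0 < c
  h0 : l0 ≤ c
  h1 : l1 ≤ c
  e0 : (c : ℝ) * ((u0 : ℝ) / U) = l0 * ((a0 : ℝ) / U) + (c - l0) * ((a1 : ℝ) / U)
  e1 : (c : ℝ) * ((u1 : ℝ) / U) = l1 * ((a0 : ℝ) / U) + (c - l1) * ((a1 : ℝ) / U)
  b0 : 0 ≤ (a0 : ℝ) / U ∧ (a0 : ℝ) / U ≤ 1
  b1 : 0 ≤ (a1 : ℝ) / U ∧ (a1 : ℝ) / U ≤ 1
  m0 : 0 ≤ (u0 : ℝ) / U
  m1 : (u0 : ℝ) / U ≤ (u1 : ℝ) / U
  m2 : (u1 : ℝ) / U ≤ 1

lemma crd_sound {U a0 a1 u0 u1 : ℕ} {K : ℕ → ℕ → ℕ → Bool} (h : crd U a0 a1 u0 u1 K = true) :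
    ∃ c l0 l1, K c l0 l1 = true ∧ CrdOK U a0 a1 u0 u1 c l0 l1 := by
  unfold crd at h
  obtain ⟨h1, h⟩ := cond_eq_true h
  obtain ⟨h2, h⟩ := cond_eq_true h
  obtain ⟨h3, h⟩ := cond_eq_true h
  obtain ⟨h4, h⟩ := cond_eq_true h
  obtain ⟨h5, h⟩ := cond_eq_true h
  have h1 : a0 + 1 ≤ a1 := Nat.le_of_ble_eq_true h1
  have h2 : a0 ≤ u0 := Nat.le_of_ble_eq_true h2
  have h3 : u0 ≤ u1 := Nat.le_of_ble_eq_true h3
  have h4 : u1 ≤ a1 := Nat.le_of_ble_eq_true h4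
  have h5 : a1 ≤ U := Nat.le_of_ble_eq_true h5
  have hU : 0 < U := by omega
  obtain ⟨g, hg⟩ : ∃ g, g = Nat.gcd (a1 - a0) (Nat.gcd (a1 - u0) (a1 - u1)) := ⟨_, rfl⟩
  have k0 : K ((a1 - a0) / g) ((a1 - u0) / g) ((a1 - u1) / g) = true := by
    rw [hg]
    exact h
  have d0 : g ∣ a1 - a0 := by rw [hg]; exact Nat.gcd_dvd_left _ _
  have d1 : g ∣ a1 - u0 := by
    rw [hg]
    exact (Nat.gcd_dvd_right _ _).trans (Nat.gcd_dvd_left _ _)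
  have d2 : g ∣ a1 - u1 := by
    rw [hg]
    exact (Nat.gcd_dvd_right _ _).trans (Nat.gcd_dvd_right _ _)
  obtain ⟨c, hc⟩ := d0
  obtain ⟨l0, hl0⟩ := d1
  obtain ⟨l1, hl1⟩ := d2
  have hg0 : 0 < g := by
    rcases Nat.eq_zero_or_pos g with h0 | h0
    · rw [h0] at hc
      omega
    · exact h0
  rw [hc, hl0, hl1, Nat.mul_div_cancel_left _ hg0, Nat.mul_div_cancel_left _ hg0, Nat.mul_div_cancel_left _ hg0] at k0
  have hUR : (0 : ℝ) < U := by exact_mod_cast hU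
  have hgR : (0 : ℝ) < g := by exact_mod_cast hg0
  have r0 : (a1 : ℝ) - a0 = g * c := by
    have : (a1 : ℝ) = a0 + g * c := by
      have : a1 = a0 + g * c := by omega
      exact_mod_cast this
    linarith
  have r1 : (a1 : ℝ) - u0 = g * l0 := by
    have : (a1 : ℝ) = u0 + g * l0 := by
      have : a1 = u0 + g * l0 := by omega
      exact_mod_cast this
    linarith
  have r2 : (a1 : ℝ) - u1 = g * l1 := by
    have : (a1 : ℝ) = u1 + g * l1 := by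
      have : a1 = u1 + g * l1 := by omega
      exact_mod_cast this
    linarith
  have m : ∀ x : ℕ, x ≤ U → 0 ≤ (x : ℝ) / U ∧ (x : ℝ) / U ≤ 1 := by
    intro x hx
    have : (x : ℝ) ≤ U := by exact_mod_cast hx
    exact ⟨by positivity, (div_le_one hUR).mpr this⟩
  have hcp : 0 < c := by
    rcases Nat.eq_zero_or_pos c with h0 | h0
    · rw [h0] at hc
      omega
    · exact h0
  refine ⟨c, l0, l1, k0, hU, by omega, hcp, ?_, ?_, ?_, ?_, m a0 (by omega), m a1 h5, (m u0 (by omega)).1, ?_, (m u1 (by omega)).2⟩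
  · refine Nat.le_of_mul_le_mul_left ?_ hg0
    omega
  · refine Nat.le_of_mul_le_mul_left ?_ hg0
    omega
  · have e : (c : ℝ) * u0 = l0 * a0 + (c - l0) * a1 := by
      have h6 : (g : ℝ) * ((c : ℝ) * u0 - (l0 * a0 + (c - l0) * a1)) = 0 := by
        have e1 : (g : ℝ) * ((c : ℝ) * u0 - (l0 * a0 + (c - l0) * a1))
            = (g * c) * (u0 - a1) + (g * l0) * (a1 - a0) := by ring
        rw [e1, ← r0, ← r1]
        ring
      rcases mul_eq_zero.mp h6 with h7 | h7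
      · exact absurd h7 hgR.ne'
      · linarith
    field_simp
    linarith
  · have e : (c : ℝ) * u1 = l1 * a0 + (c - l1) * a1 := by
      have h6 : (g : ℝ) * ((c : ℝ) * u1 - (l1 * a0 + (c - l1) * a1)) = 0 := by
        have e1 : (g : ℝ) * ((c : ℝ) * u1 - (l1 * a0 + (c - l1) * a1))
            = (g * c) * (u1 - a1) + (g * l1) * (a1 - a0) := by ring
        rw [e1, ← r0, ← r2]
        ring
      rcases mul_eq_zero.mp h6 with h7 | h7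
      · exact absurd h7 hgR.ne'
      · linarith
    field_simp
    linarith
  · have : (u0 : ℝ) ≤ u1 := by exact_mod_cast h3
    exact div_le_div_of_nonneg_right this hUR.le

lemma lsum_eq (l : List ℕ) : ∀ s, lsum l s = s + l.sum := by
  induction l with
  | nil => intro s; rfl
  | cons x l ih =>
    intro s
    have e : lsum (x :: l) s = frc (Nat.add s x) fun s' => lsum l s' := rfl
    rw [e, frc_eq, ih, List.sum_cons]
    show s + x + l.sum = _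
    ring

lemma eU_ed (U a b : ℕ) (c : Bool) : eU U a b c = ed ((a : ℝ) / U) ((b : ℝ) / U) c := by
  cases c <;> rfl

lemma cardSp (a y z : ℝ) : (Sp a y z).card = 3 := rfl

/-- the tables with the sentinel -/
lemma Tb_of {rd ks : List ℕ} {a y z : ℝ} {X : ℕ} (h : Tv rd ks (Sp a y z) X)
    (ha : 0 ≤ a ∧ a ≤ 1) (hy : 0 ≤ y ∧ y ≤ 1) (hz : 0 ≤ z ∧ z ≤ 1) (hk : ∀ k ∈ ks, k ≤ 200)
    (h30 : 3 / 10 ≤ a + y + z) (hs : sNr rd ≤ 4294967295) :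
    Tb rd ks 1 (2 ^ 32) (Sp a y z) (tTr rd X) (wTr rd X) := by
  have e : sNr rd = 10000000 * (rd.sum + 3 + 1) := by
    unfold sNr
    rw [lsum_eq]
    show 10000000 * (0 + rd.sum + 4) = _
    ring
  have e1 : ONr rd = one (prd rd) := by
    unfold ONr
    rw [prN_eq]
  unfold tTr wTr
  rw [e1]
  refine Tb.of_tv h ?_ hk ?_ ?_ ?_
  · intro x hx
    unfold Sp at hx
    simp only [Multiset.mem_cons, Multiset.notMem_zero, or_false] at hx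
    rcases hx with rfl | rfl | rfl
    · exact ha
    · exact hy
    · exact hz
  · rw [Sp_sum]
    exact h30
  · rw [cardSp, e]
  · omega

/-- THE CORNERS, soundness. -/
theorem celC_sound {U : ℕ} {E : GC} (hE : E.OK U) {u0 u1 v0 v1 w0 w1 : ℕ} {K : ℕ → ℕ → List (ℕ × ℕ) → Bool}
    (h : celC U E.rd E.a0 E.a1 E.y0 E.y1 E.z0 E.z1 E.x0 E.x1 E.x2 E.x3 E.x4 E.x5 E.x6 E.x7 u0 u1 v0 v1 w0 w1 K
      = true) :
    ∃ s bd tabs, K s bd tabs = true ∧ 0 < s ∧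
      Bx ((u0 : ℝ) / U) ((u1 : ℝ) / U) ((v0 : ℝ) / U) ((v1 : ℝ) / U) ((w0 : ℝ) / U) ((w1 : ℝ) / U) ∧
      GX E.rd E.ks s bd ((u0 : ℝ) / U) ((u1 : ℝ) / U) ((v0 : ℝ) / U) ((v1 : ℝ) / U) ((w0 : ℝ) / U) ((w1 : ℝ) / U)
        ix tabs := by
  unfold celC at h
  obtain ⟨h1, h⟩ := cond_eq_true h
  obtain ⟨h2, h⟩ := cond_eq_true h
  obtain ⟨ca, la0, la1, h, qa⟩ := crd_sound h
  obtain ⟨cy, ly0, ly1, h, qy⟩ := crd_sound h
  obtain ⟨cz, lz0, lz1, h, qz⟩ := crd_sound h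
  obtain ⟨h3, h⟩ := cond_eq_true h
  have h1 : 3 * U ≤ 10 * (E.a0 + E.y0 + E.z0) := Nat.le_of_ble_eq_true h1
  have h2 : sNr E.rd ≤ 4294967295 := Nat.le_of_ble_eq_true h2
  have h3 : ca * (cy * cz) ≤ 1073741824 := Nat.le_of_ble_eq_true h3
  have hU := qa.hU
  have hUR : (0 : ℝ) < U := by exact_mod_cast hU
  have hle : ∀ {a b : ℕ}, a ≤ b → ∀ c : Bool, (a : ℝ) / U ≤ ed ((a : ℝ) / U) ((b : ℝ) / U) c := by
    intro a b hab c
    cases c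
    · exact le_rfl
    · exact div_le_div_of_nonneg_right (by exact_mod_cast hab) hUR.le
  have hed : ∀ {a b : ℝ}, (0 ≤ a ∧ a ≤ 1) → (0 ≤ b ∧ b ≤ 1) → ∀ c : Bool, 0 ≤ ed a b c ∧ ed a b c ≤ 1 := by
    intro a b ha hb c
    cases c
    · exact ha
    · exact hb
  have ma : E.a0 ≤ E.a1 := qa.mm
  have my : E.y0 ≤ E.y1 := qy.mm
  have mz : E.z0 ≤ E.z1 := qz.mm
  have base : ∀ ba bb bc : Bool, Tb E.rd E.ks 1 (2 ^ 32) (Sp (ed ((E.a0 : ℝ) / U) ((E.a1 : ℝ) / U) ba)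
      (ed ((E.y0 : ℝ) / U) ((E.y1 : ℝ) / U) bb) (ed ((E.z0 : ℝ) / U) ((E.z1 : ℝ) / U) bc))
      (tTr E.rd (E.tb ba bb bc)) (wTr E.rd (E.tb ba bb bc)) := by
    intro ba bb bc
    have ht := hE.tv ba bb bc
    rw [eU_ed, eU_ed, eU_ed] at ht
    refine Tb_of ht (hed qa.b0 qa.b1 ba) (hed qy.b0 qy.b1 bb) (hed qz.b0 qz.b1 bc) hE.k2 ?_ h2
    have e1 := hle ma ba
    have e2 := hle my bb
    have e3 := hle mz bc
    have e4 : (3 : ℝ) / 10 ≤ (E.a0 : ℝ) / U + (E.y0 : ℝ) / U + (E.z0 : ℝ) / U := by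
      have : (3 : ℝ) * U ≤ 10 * (E.a0 + E.y0 + E.z0) := by exact_mod_cast h1
      rw [← add_div, ← add_div, div_le_div_iff₀ (by norm_num) hUR]
      linarith
    linarith
  have hG : G8 E.rd E.ks 1 (2 ^ 32) ((E.a0 : ℝ) / U) ((E.a1 : ℝ) / U) ((E.y0 : ℝ) / U) ((E.y1 : ℝ) / U)
      ((E.z0 : ℝ) / U) ((E.z1 : ℝ) / U) [(tTr E.rd E.x0, wTr E.rd E.x0), (tTr E.rd E.x1, wTr E.rd E.x1),
        (tTr E.rd E.x2, wTr E.rd E.x2), (tTr E.rd E.x3, wTr E.rd E.x3), (tTr E.rd E.x4, wTr E.rd E.x4),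
        (tTr E.rd E.x5, wTr E.rd E.x5), (tTr E.rd E.x6, wTr E.rd E.x6), (tTr E.rd E.x7, wTr E.rd E.x7)] := by
    refine ⟨rfl, fun ba bb bc => ?_⟩
    have := base ba bb bc
    cases ba <;> cases bb <;> cases bc <;> exact this
  simp only [cl24_eq] at h
  have hb : ca * (cy * (cz * 2 ^ 32)) < 2 ^ 64 := by
    have e : ca * (cy * (cz * 2 ^ 32)) = ca * (cy * cz) * 2 ^ 32 := by ring
    rw [e]
    calc ca * (cy * cz) * 2 ^ 32 ≤ 1073741824 * 2 ^ 32 := Nat.mul_le_mul_right _ h3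
      _ < 2 ^ 64 := by norm_num
  obtain ⟨tabs, hK, hGX⟩ := c24_sound (k := fun tabs => K (Nat.mul ca (Nat.mul cy cz))
      (Nat.mul (Nat.mul ca (Nat.mul cy cz)) 4294967296) tabs) hG Nat.one_pos qa.h0 qa.h1 qa.c0 qy.h0 qy.h1 qy.c0
    qz.h0 qz.h1 qz.c0 qa.e0 qa.e1 qy.e0 qy.e1 qz.e0 qz.e1 qa.b0 qa.b1 qy.b0 qy.b1 qz.b0 qz.b1 hE.k2 hb h
  refine ⟨_, _, tabs, hK, Nat.mul_pos qa.c0 (Nat.mul_pos qy.c0 qz.c0), ⟨qa.m0, qa.m1, qa.m2, qy.m0, qy.m1, qy.m2,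
    qz.m0, qz.m1, qz.m2⟩, ?_⟩
  have es : ca * (cy * (cz * 1)) = Nat.mul ca (Nat.mul cy cz) := by
    show _ = ca * (cy * cz)
    ring
  have eb : ca * (cy * (cz * 2 ^ 32)) = Nat.mul (Nat.mul ca (Nat.mul cy cz)) 4294967296 := by
    show _ = ca * (cy * cz) * 4294967296
    ring
  rw [← eb, ← es]
  exact GX.of8 hGX

/-! ### the checks -/

/-- the lengths of the lists -/
noncomputable def lnC (rd Ps Os Rs Gs : List ℕ) : Bool :=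
  cond (Nat.beq Ps.length rd.length) (cond (Nat.beq Os.length rd.length) (cond (Nat.beq Rs.length rd.length)
    (Nat.beq Gs.length rd.length) false) false) false

/-- THE CHECK OF A ROW of a payer: `A`, `β` weights, `Os`, `Rs` values of the functions of the rests at the knots (unit
`1e-7 / 4`), `Gs` slopes of the second alternative (unit `1e-7`), `vh` the constant alternative, `ls` the corner values
of the second alternative (unit `1e-7`), `rs` the bounds at the corners (plus `O`, unit `1e-7 / 4`); filters: sum of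
the rests at most `T1`, price at most `p1`, sum at least `lb`; `d` margin of richness -/
noncomputable def chkP (U : ℕ) (E : GC) (u0 u1 v0 v1 w0 w1 : ℕ) (Ps Os Rs Gs : List ℕ) (A β vh d O T1 p1 lb : ℕ)
    (rs ls : List ℕ) : Bool :=
  @GC.rec (fun _ => Bool) (fun rd ks a0 a1 y0 y1 z0 z1 x0 x1 x2 x3 x4 x5 x6 x7 =>
    cond (lnC rd Ps Os Rs Gs)
      (celC U rd a0 a1 y0 y1 z0 z1 x0 x1 x2 x3 x4 x5 x6 x7 u0 u1 v0 v1 w0 w1 fun s bd tabs =>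
        rowP rd ks Ps Os Rs Gs (Nat.mul (nat_lit 4) (Nat.add A β)) (Nat.mul (nat_lit 4) β) vh d s bd O T1 p1 lb tabs
          rs ls) false) E

/-- THE CHECK OF A ROW of a bad vertex -/
noncomputable def chkB (U : ℕ) (E : GC) (u0 u1 v0 v1 w0 w1 : ℕ) (Ps Os Rs : List ℕ) (A β d O T1 p1 lb : ℕ)
    (rs : List ℕ) : Bool :=
  @GC.rec (fun _ => Bool) (fun rd ks a0 a1 y0 y1 z0 z1 x0 x1 x2 x3 x4 x5 x6 x7 =>
    cond (lnC rd Ps Os Rs Os)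
      (celC U rd a0 a1 y0 y1 z0 z1 x0 x1 x2 x3 x4 x5 x6 x7 u0 u1 v0 v1 w0 w1 fun s bd tabs =>
        rowB rd ks Ps Os Rs (Nat.mul (nat_lit 4) (Nat.add A β)) (Nat.mul (nat_lit 4) β) d s bd O T1 p1 lb tabs
          rs) false) E

/-- RICHNESS of a row -/
noncomputable def chkR (U : ℕ) (E : GC) (u0 u1 v0 v1 w0 w1 : ℕ) (Ps : List ℕ) (vh d T1 p1 lb : ℕ) : Bool :=
  @GC.rec (fun _ => Bool) (fun rd ks a0 a1 y0 y1 z0 z1 x0 x1 x2 x3 x4 x5 x6 x7 =>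
    cond (lnC rd Ps Ps Ps Ps)
      (celC U rd a0 a1 y0 y1 z0 z1 x0 x1 x2 x3 x4 x5 x6 x7 u0 u1 v0 v1 w0 w1 fun s bd tabs =>
        rowR rd ks Ps vh d s bd T1 p1 lb tabs) false) E

lemma lnC_sound {rd Ps Os Rs Gs : List ℕ} (h : lnC rd Ps Os Rs Gs = true) :
    Ps.length = rd.length ∧ Os.length = rd.length ∧ Rs.length = rd.length ∧ Gs.length = rd.length := by
  unfold lnC at h
  obtain ⟨h1, h⟩ := cond_eq_true h
  obtain ⟨h2, h⟩ := cond_eq_true h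
  obtain ⟨h3, h⟩ := cond_eq_true h
  exact ⟨Nat.eq_of_beq_eq_true h1, Nat.eq_of_beq_eq_true h2, Nat.eq_of_beq_eq_true h3, Nat.eq_of_beq_eq_true h⟩

/-- THE CHECK OF A ROW of a payer, soundness. -/
theorem chkP_sound (hS : SpS) {U : ℕ} {E : GC} (hE : E.OK U) {u0 u1 v0 v1 w0 w1 : ℕ} {Ps Os Rs Gs : List ℕ}
    {A β vh d O T1 p1 lb : ℕ} {rs ls : List ℕ}
    (h : chkP U E u0 u1 v0 v1 w0 w1 Ps Os Rs Gs A β vh d O T1 p1 lb rs ls = true) (lam : Af)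
    (hlam : ∀ ba bb bc : Bool, lam.val (eU U u0 u1 ba) (eU U v0 v1 bb) (eU U w0 w1 bc)
      ≤ (ls.getD (ix ba bb bc) 0 : ℝ) / 10 ^ 7)
    (ns : List ℕ) (fs : List Bool) (M' : Multiset ℝ) (hred : Red 0 (kR E.ks) ns fs M')
    (h1 : Pk.dotN ns E.ks + lowN 0 E.ks fs ≤ T1) (h2 : Pk.dotN ns Ps + lowN 0 Ps fs ≤ p1)
    (h3 : lb ≤ Pk.dotN ns E.ks + uppN E.ks fs) :
    ∃ al : Bool, (∀ ba bb bc : Bool, VJ A β (altA vh lam al) (altG E.ks Gs al) (phF E.ks Os Rs)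
      (eU U u0 u1 ba) (eU U v0 v1 bb) (eU U w0 w1 bc) M' ≤ ((rs.getD (ix ba bb bc) 0 : ℝ) - O) / 40000000) ∨
    (∀ a y z : ℝ, (u0 : ℝ) / U ≤ a → a ≤ (u1 : ℝ) / U → (v0 : ℝ) / U ≤ y → y ≤ (v1 : ℝ) / U →
      (w0 : ℝ) / U ≤ z → z ≤ (w1 : ℝ) / U →
      max (FM (1 ::ₘ a ::ₘ y ::ₘ z ::ₘ M')) ((altA vh lam al).val a y z + (M'.map (altG E.ks Gs al)).sum)
        + (d : ℝ) / 10 ^ 7 ≤ WD.Wd (a + y + z + M'.sum)) := by
  have e : chkP U E u0 u1 v0 v1 w0 w1 Ps Os Rs Gs A β vh d O T1 p1 lb rs ls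
      = cond (lnC E.rd Ps Os Rs Gs)
        (celC U E.rd E.a0 E.a1 E.y0 E.y1 E.z0 E.z1 E.x0 E.x1 E.x2 E.x3 E.x4 E.x5 E.x6 E.x7 u0 u1 v0 v1 w0 w1
          fun s bd tabs => rowP E.rd E.ks Ps Os Rs Gs (Nat.mul (nat_lit 4) (Nat.add A β)) (Nat.mul (nat_lit 4) β) vh d
            s bd O T1 p1 lb tabs rs ls) false := by
    cases E
    rfl
  rw [e] at h
  obtain ⟨hl, h⟩ := cond_eq_true h
  obtain ⟨l1, l2, l3, l4⟩ := lnC_sound hl
  obtain ⟨s, bd, tabs, hK, hs, hB, hG⟩ := celC_sound hE h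
  have r := sideP3_real hS E.rd E.ks Ps Os Rs Gs hE.cnt hE.lk l1 (by rw [hE.lk, l2]) (by rw [hE.lk, l3])
    (by rw [hE.lk, l4]) hE.kn hB s bd hs ix tabs hG A β O d vh T1 p1 lb rs ls lam (fun ba bb bc => by
      have := hlam ba bb bc
      rwa [eU_ed, eU_ed, eU_ed] at this) hK ns fs M' hred h1 h2 h3
  simpa only [eU_ed] using r

/-- THE CHECK OF A ROW of a bad vertex, soundness. -/
theorem chkB_sound (hS : SpS) {U : ℕ} {E : GC} (hE : E.OK U) {u0 u1 v0 v1 w0 w1 : ℕ} {Ps Os Rs : List ℕ}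
    {A β d O T1 p1 lb : ℕ} {rs : List ℕ}
    (h : chkB U E u0 u1 v0 v1 w0 w1 Ps Os Rs A β d O T1 p1 lb rs = true)
    (ns : List ℕ) (fs : List Bool) (M' : Multiset ℝ) (hred : Red 0 (kR E.ks) ns fs M')
    (h1 : Pk.dotN ns E.ks + lowN 0 E.ks fs ≤ T1) (h2 : Pk.dotN ns Ps + lowN 0 Ps fs ≤ p1)
    (h3 : lb ≤ Pk.dotN ns E.ks + uppN E.ks fs) :
    (∀ ba bb bc : Bool, VJ A β (cAf 0) (fun _ => 0) (phF E.ks Os Rs)
      (eU U u0 u1 ba) (eU U v0 v1 bb) (eU U w0 w1 bc) M' ≤ ((rs.getD (ix ba bb bc) 0 : ℝ) - O) / 40000000) ∨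
    (∀ a y z : ℝ, (u0 : ℝ) / U ≤ a → a ≤ (u1 : ℝ) / U → (v0 : ℝ) / U ≤ y → y ≤ (v1 : ℝ) / U →
      (w0 : ℝ) / U ≤ z → z ≤ (w1 : ℝ) / U →
      max (FM (1 ::ₘ a ::ₘ y ::ₘ z ::ₘ M')) 0 + (d : ℝ) / 10 ^ 7 ≤ WD.Wd (a + y + z + M'.sum)) := by
  have e : chkB U E u0 u1 v0 v1 w0 w1 Ps Os Rs A β d O T1 p1 lb rs
      = cond (lnC E.rd Ps Os Rs Os)
        (celC U E.rd E.a0 E.a1 E.y0 E.y1 E.z0 E.z1 E.x0 E.x1 E.x2 E.x3 E.x4 E.x5 E.x6 E.x7 u0 u1 v0 v1 w0 w1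
          fun s bd tabs => rowB E.rd E.ks Ps Os Rs (Nat.mul (nat_lit 4) (Nat.add A β)) (Nat.mul (nat_lit 4) β) d
            s bd O T1 p1 lb tabs rs) false := by
    cases E
    rfl
  rw [e] at h
  obtain ⟨hl, h⟩ := cond_eq_true h
  obtain ⟨l1, l2, l3, l4⟩ := lnC_sound hl
  obtain ⟨s, bd, tabs, hK, hs, hB, hG⟩ := celC_sound hE h
  have r := sideB3_real hS E.rd E.ks Ps Os Rs hE.cnt hE.lk l1 (by rw [hE.lk, l2]) (by rw [hE.lk, l3])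
    hE.kn hB s bd hs ix tabs hG A β O d T1 p1 lb rs hK ns fs M' hred h1 h2 h3
  simpa only [eU_ed] using r

/-- RICHNESS of a row, soundness. -/
theorem chkR_sound (hS : SpS) {U : ℕ} {E : GC} (hE : E.OK U) {u0 u1 v0 v1 w0 w1 : ℕ} {Ps : List ℕ}
    {vh d T1 p1 lb : ℕ} (h : chkR U E u0 u1 v0 v1 w0 w1 Ps vh d T1 p1 lb = true)
    (ns : List ℕ) (fs : List Bool) (M' : Multiset ℝ) (hred : Red 0 (kR E.ks) ns fs M')
    (h1 : Pk.dotN ns E.ks + lowN 0 E.ks fs ≤ T1) (h2 : Pk.dotN ns Ps + lowN 0 Ps fs ≤ p1)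
    (h3 : lb ≤ Pk.dotN ns E.ks + uppN E.ks fs) :
    ∀ a y z : ℝ, (u0 : ℝ) / U ≤ a → a ≤ (u1 : ℝ) / U → (v0 : ℝ) / U ≤ y → y ≤ (v1 : ℝ) / U →
      (w0 : ℝ) / U ≤ z → z ≤ (w1 : ℝ) / U →
      max (FM (1 ::ₘ a ::ₘ y ::ₘ z ::ₘ M')) ((vh : ℝ) / 10 ^ 7) + (d : ℝ) / 10 ^ 7 ≤ WD.Wd (a + y + z + M'.sum) := by
  have e : chkR U E u0 u1 v0 v1 w0 w1 Ps vh d T1 p1 lb
      = cond (lnC E.rd Ps Ps Ps Ps)
        (celC U E.rd E.a0 E.a1 E.y0 E.y1 E.z0 E.z1 E.x0 E.x1 E.x2 E.x3 E.x4 E.x5 E.x6 E.x7 u0 u1 v0 v1 w0 w1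
          fun s bd tabs => rowR E.rd E.ks Ps vh d s bd T1 p1 lb tabs) false := by
    cases E
    rfl
  rw [e] at h
  obtain ⟨hl, h⟩ := cond_eq_true h
  obtain ⟨l1, l2, l3, l4⟩ := lnC_sound hl
  obtain ⟨s, bd, tabs, hK, hs, hB, hG⟩ := celC_sound hE h
  exact sideR3_real hS E.rd E.ks Ps hE.cnt hE.lk l1 hE.kn hB s bd hs ix tabs hG d vh T1 p1 lb hK ns fs M' hred h1 h2 h3

/-! ### four corners: the third special entry is `0` -/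

/-- a cell of the grid, two special entries; four tables, index `ix ba bb false` -/
structure GD where
  rd : List ℕ
  ks : List ℕ
  a0 : ℕ
  a1 : ℕ
  y0 : ℕ
  y1 : ℕ
  x0 : ℕ
  x1 : ℕ
  x2 : ℕ
  x3 : ℕ

/-- the table at a corner -/
def GD.tb (E : GD) (ba bb : Bool) : ℕ :=
  bif bb then (bif ba then E.x3 else E.x2) else (bif ba then E.x1 else E.x0)

/-- the data of a cell are correct -/
structure GD.OK (U : ℕ) (E : GD) : Prop where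
  cnt : CntOK E.rd (cnts E.rd 1)
  lk : E.ks.length = E.rd.length
  kn : KnOK E.ks
  k2 : ∀ k ∈ E.ks, k ≤ 200
  tv : ∀ ba bb : Bool, Tv E.rd E.ks (Sq (eU U E.a0 E.a1 ba) (eU U E.y0 E.y1 bb)) (E.tb ba bb)

/-- THE CORNERS of the box; `K s bd tabs` -/
noncomputable def cel4 (U : ℕ) (rd : List ℕ) (a0 a1 y0 y1 x0 x1 x2 x3 u0 u1 v0 v1 : ℕ)
    (K : ℕ → ℕ → List (ℕ × ℕ) → Bool) : Bool :=
  cond (Nat.ble (Nat.mul (nat_lit 3) U) (Nat.mul (nat_lit 10) (Nat.add a0 y0)))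
  (cond (Nat.ble (sNr rd) (nat_lit 4294967295))
  (crd U a0 a1 u0 u1 fun ca la0 la1 => crd U y0 y1 v0 v1 fun cy ly0 ly1 =>
    let s := Nat.mul ca cy;
    cond (Nat.ble s (nat_lit 1073741824))
    (cl8 ca la0 la1 cy ly0 ly1 (tTr rd x0) (tTr rd x1) (tTr rd x2) (tTr rd x3) fun t0 t1 t2 t3 =>
    cl8 ca la0 la1 cy ly0 ly1 (wTr rd x0) (wTr rd x1) (wTr rd x2) (wTr rd x3) fun v0 v1 v2 v3 =>
    K s (Nat.mul s (nat_lit 4294967296)) [(t0, v0), (t1, v1), (t2, v2), (t3, v3)]) false) false) false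

lemma Tb_of4 {rd ks : List ℕ} {a y : ℝ} {X : ℕ} (h : Tv rd ks (Sq a y) X)
    (ha : 0 ≤ a ∧ a ≤ 1) (hy : 0 ≤ y ∧ y ≤ 1) (hk : ∀ k ∈ ks, k ≤ 200)
    (h30 : 3 / 10 ≤ a + y) (hs : sNr rd ≤ 4294967295) :
    Tb rd ks 1 (2 ^ 32) (Sq a y) (tTr rd X) (wTr rd X) := by
  have e : sNr rd = 10000000 * (rd.sum + 4) := by
    unfold sNr
    rw [lsum_eq]
    show 10000000 * (0 + rd.sum + 4) = _
    ring
  have e1 : ONr rd = one (prd rd) := by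
    unfold ONr
    rw [prN_eq]
  unfold tTr wTr
  rw [e1]
  refine Tb.of_tv h ?_ hk ?_ ?_ ?_
  · intro x hx
    unfold Sq at hx
    simp only [Multiset.mem_cons, Multiset.notMem_zero, or_false] at hx
    rcases hx with rfl | rfl
    · exact ha
    · exact hy
  · unfold Sq
    simpa using h30
  · rw [e]
    refine Nat.mul_le_mul_left _ ?_
    have : (Sq a y).card = 2 := rfl
    omega
  · omega

theorem cel4_sound {U : ℕ} {E : GD} (hE : E.OK U) {u0 u1 v0 v1 : ℕ} {K : ℕ → ℕ → List (ℕ × ℕ) → Bool}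
    (h : cel4 U E.rd E.a0 E.a1 E.y0 E.y1 E.x0 E.x1 E.x2 E.x3 u0 u1 v0 v1 K = true) :
    ∃ s bd tabs, K s bd tabs = true ∧ 0 < s ∧
      Bx ((u0 : ℝ) / U) ((u1 : ℝ) / U) ((v0 : ℝ) / U) ((v1 : ℝ) / U) 0 0 ∧
      GX E.rd E.ks s bd ((u0 : ℝ) / U) ((u1 : ℝ) / U) ((v0 : ℝ) / U) ((v1 : ℝ) / U) 0 0 ix4 tabs := by
  unfold cel4 at h
  obtain ⟨h1, h⟩ := cond_eq_true h
  obtain ⟨h2, h⟩ := cond_eq_true h
  obtain ⟨ca, la0, la1, h, qa⟩ := crd_sound h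
  obtain ⟨cy, ly0, ly1, h, qy⟩ := crd_sound h
  obtain ⟨h3, h⟩ := cond_eq_true h
  have h1 : 3 * U ≤ 10 * (E.a0 + E.y0) := Nat.le_of_ble_eq_true h1
  have h2 : sNr E.rd ≤ 4294967295 := Nat.le_of_ble_eq_true h2
  have h3 : ca * cy ≤ 1073741824 := Nat.le_of_ble_eq_true h3
  have hU := qa.hU
  have hUR : (0 : ℝ) < U := by exact_mod_cast hU
  have hle : ∀ {a b : ℕ}, a ≤ b → ∀ c : Bool, (a : ℝ) / U ≤ ed ((a : ℝ) / U) ((b : ℝ) / U) c := by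
    intro a b hab c
    cases c
    · exact le_rfl
    · exact div_le_div_of_nonneg_right (by exact_mod_cast hab) hUR.le
  have hed : ∀ {a b : ℝ}, (0 ≤ a ∧ a ≤ 1) → (0 ≤ b ∧ b ≤ 1) → ∀ c : Bool, 0 ≤ ed a b c ∧ ed a b c ≤ 1 := by
    intro a b ha hb c
    cases c
    · exact ha
    · exact hb
  have ma : E.a0 ≤ E.a1 := qa.mm
  have my : E.y0 ≤ E.y1 := qy.mm
  have base : ∀ ba bb : Bool, Tb E.rd E.ks 1 (2 ^ 32) (Sq (ed ((E.a0 : ℝ) / U) ((E.a1 : ℝ) / U) ba)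
      (ed ((E.y0 : ℝ) / U) ((E.y1 : ℝ) / U) bb))
      (tTr E.rd (E.tb ba bb)) (wTr E.rd (E.tb ba bb)) := by
    intro ba bb
    have ht := hE.tv ba bb
    rw [eU_ed, eU_ed] at ht
    refine Tb_of4 ht (hed qa.b0 qa.b1 ba) (hed qy.b0 qy.b1 bb) hE.k2 ?_ h2
    have e1 := hle ma ba
    have e2 := hle my bb
    have e4 : (3 : ℝ) / 10 ≤ (E.a0 : ℝ) / U + (E.y0 : ℝ) / U := by
      have : (3 : ℝ) * U ≤ 10 * (E.a0 + E.y0) := by exact_mod_cast h1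
      rw [← add_div, div_le_div_iff₀ (by norm_num) hUR]
      linarith
    linarith
  have hG : G4 E.rd E.ks 1 (2 ^ 32) ((E.a0 : ℝ) / U) ((E.a1 : ℝ) / U) ((E.y0 : ℝ) / U) ((E.y1 : ℝ) / U)
      [(tTr E.rd E.x0, wTr E.rd E.x0), (tTr E.rd E.x1, wTr E.rd E.x1),
        (tTr E.rd E.x2, wTr E.rd E.x2), (tTr E.rd E.x3, wTr E.rd E.x3)] := by
    refine ⟨rfl, fun ba bb => ?_⟩
    have := base ba bb
    cases ba <;> cases bb <;> exact this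
  have hb : ca * (cy * 2 ^ 32) < 2 ^ 64 := by
    have e : ca * (cy * 2 ^ 32) = ca * cy * 2 ^ 32 := by ring
    rw [e]
    calc ca * cy * 2 ^ 32 ≤ 1073741824 * 2 ^ 32 := Nat.mul_le_mul_right _ h3
      _ < 2 ^ 64 := by norm_num
  obtain ⟨tabs, hK, hGX⟩ := cl8_sound (k := fun tabs => K (Nat.mul ca cy)
      (Nat.mul (Nat.mul ca cy) 4294967296) tabs) hG Nat.one_pos qa.h0 qa.h1 qa.c0 qy.h0 qy.h1 qy.c0
    qa.e0 qa.e1 qy.e0 qy.e1 qa.b0 qa.b1 qy.b0 qy.b1 hE.k2 hb h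
  refine ⟨_, _, tabs, hK, Nat.mul_pos qa.c0 qy.c0, ⟨qa.m0, qa.m1, qa.m2, qy.m0, qy.m1, qy.m2,
    le_rfl, le_rfl, zero_le_one⟩, ?_⟩
  have es : ca * (cy * 1) = Nat.mul ca cy := by
    show _ = ca * cy
    ring
  have eb : ca * (cy * 2 ^ 32) = Nat.mul (Nat.mul ca cy) 4294967296 := by
    show _ = ca * cy * 4294967296
    ring
  rw [← eb, ← es]
  exact GX.of4 hGX

/-- THE CHECK OF A ROW of a payer, two special entries -/
noncomputable def chkP4 (U : ℕ) (E : GD) (u0 u1 v0 v1 : ℕ) (Ps Os Rs Gs : List ℕ) (A β vh d O T1 p1 lb : ℕ)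
    (rs ls : List ℕ) : Bool :=
  @GD.rec (fun _ => Bool) (fun rd ks a0 a1 y0 y1 x0 x1 x2 x3 =>
    cond (lnC rd Ps Os Rs Gs)
      (cel4 U rd a0 a1 y0 y1 x0 x1 x2 x3 u0 u1 v0 v1 fun s bd tabs =>
        rowP rd ks Ps Os Rs Gs (Nat.mul (nat_lit 4) (Nat.add A β)) (Nat.mul (nat_lit 4) β) vh d s bd O T1 p1 lb tabs
          rs ls) false) E

/-- THE CHECK OF A ROW of a bad vertex, two special entries -/
noncomputable def chkB4 (U : ℕ) (E : GD) (u0 u1 v0 v1 : ℕ) (Ps Os Rs : List ℕ) (A β d O T1 p1 lb : ℕ)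
    (rs : List ℕ) : Bool :=
  @GD.rec (fun _ => Bool) (fun rd ks a0 a1 y0 y1 x0 x1 x2 x3 =>
    cond (lnC rd Ps Os Rs Os)
      (cel4 U rd a0 a1 y0 y1 x0 x1 x2 x3 u0 u1 v0 v1 fun s bd tabs =>
        rowB rd ks Ps Os Rs (Nat.mul (nat_lit 4) (Nat.add A β)) (Nat.mul (nat_lit 4) β) d s bd O T1 p1 lb tabs
          rs) false) E

/-- RICHNESS of a row, two special entries -/
noncomputable def chkR4 (U : ℕ) (E : GD) (u0 u1 v0 v1 : ℕ) (Ps : List ℕ) (vh d T1 p1 lb : ℕ) : Bool :=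
  @GD.rec (fun _ => Bool) (fun rd ks a0 a1 y0 y1 x0 x1 x2 x3 =>
    cond (lnC rd Ps Ps Ps Ps)
      (cel4 U rd a0 a1 y0 y1 x0 x1 x2 x3 u0 u1 v0 v1 fun s bd tabs =>
        rowR rd ks Ps vh d s bd T1 p1 lb tabs) false) E

lemma ed00 (c : Bool) : ed (0 : ℝ) 0 c = 0 := by cases c <;> rfl

/-- THE CHECK OF A ROW of a payer, two special entries, soundness. -/
theorem chkP4_sound (hS : SpS) {U : ℕ} {E : GD} (hE : E.OK U) {u0 u1 v0 v1 : ℕ} {Ps Os Rs Gs : List ℕ}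
    {A β vh d O T1 p1 lb : ℕ} {rs ls : List ℕ}
    (h : chkP4 U E u0 u1 v0 v1 Ps Os Rs Gs A β vh d O T1 p1 lb rs ls = true) (lam : Af)
    (hlam : ∀ ba bb : Bool, lam.val (eU U u0 u1 ba) (eU U v0 v1 bb) 0
      ≤ (ls.getD (ix ba bb false) 0 : ℝ) / 10 ^ 7)
    (ns : List ℕ) (fs : List Bool) (M' : Multiset ℝ) (hred : Red 0 (kR E.ks) ns fs M')
    (h1 : Pk.dotN ns E.ks + lowN 0 E.ks fs ≤ T1) (h2 : Pk.dotN ns Ps + lowN 0 Ps fs ≤ p1)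
    (h3 : lb ≤ Pk.dotN ns E.ks + uppN E.ks fs) :
    ∃ al : Bool, (∀ ba bb : Bool, VJ A β (altA vh lam al) (altG E.ks Gs al) (phF E.ks Os Rs)
      (eU U u0 u1 ba) (eU U v0 v1 bb) 0 M' ≤ ((rs.getD (ix ba bb false) 0 : ℝ) - O) / 40000000) ∨
    (∀ a y : ℝ, (u0 : ℝ) / U ≤ a → a ≤ (u1 : ℝ) / U → (v0 : ℝ) / U ≤ y → y ≤ (v1 : ℝ) / U →
      max (FM (1 ::ₘ a ::ₘ y ::ₘ 0 ::ₘ M')) ((altA vh lam al).val a y 0 + (M'.map (altG E.ks Gs al)).sum)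
        + (d : ℝ) / 10 ^ 7 ≤ WD.Wd (a + y + 0 + M'.sum)) := by
  have e : chkP4 U E u0 u1 v0 v1 Ps Os Rs Gs A β vh d O T1 p1 lb rs ls
      = cond (lnC E.rd Ps Os Rs Gs)
        (cel4 U E.rd E.a0 E.a1 E.y0 E.y1 E.x0 E.x1 E.x2 E.x3 u0 u1 v0 v1
          fun s bd tabs => rowP E.rd E.ks Ps Os Rs Gs (Nat.mul (nat_lit 4) (Nat.add A β)) (Nat.mul (nat_lit 4) β) vh d
            s bd O T1 p1 lb tabs rs ls) false := by
    cases E
    rfl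
  rw [e] at h
  obtain ⟨hl, h⟩ := cond_eq_true h
  obtain ⟨l1, l2, l3, l4⟩ := lnC_sound hl
  obtain ⟨s, bd, tabs, hK, hs, hB, hG⟩ := cel4_sound hE h
  obtain ⟨al, r⟩ := sideP3_real hS E.rd E.ks Ps Os Rs Gs hE.cnt hE.lk l1 (by rw [hE.lk, l2]) (by rw [hE.lk, l3])
    (by rw [hE.lk, l4]) hE.kn hB s bd hs ix4 tabs hG A β O d vh T1 p1 lb rs ls lam (fun ba bb bc => by
      have := hlam ba bb
      rw [ed00]
      rwa [eU_ed, eU_ed] at this) hK ns fs M' hred h1 h2 h3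
  refine ⟨al, ?_⟩
  rcases r with r | r
  · left
    intro ba bb
    have := r ba bb false
    rw [ed00] at this
    rw [eU_ed, eU_ed]
    exact this
  · right
    intro a y p1 p2 p3 p4
    exact r a y 0 p1 p2 p3 p4 le_rfl le_rfl

/-- THE CHECK OF A ROW of a bad vertex, two special entries, soundness. -/
theorem chkB4_sound (hS : SpS) {U : ℕ} {E : GD} (hE : E.OK U) {u0 u1 v0 v1 : ℕ} {Ps Os Rs : List ℕ}
    {A β d O T1 p1 lb : ℕ} {rs : List ℕ}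
    (h : chkB4 U E u0 u1 v0 v1 Ps Os Rs A β d O T1 p1 lb rs = true)
    (ns : List ℕ) (fs : List Bool) (M' : Multiset ℝ) (hred : Red 0 (kR E.ks) ns fs M')
    (h1 : Pk.dotN ns E.ks + lowN 0 E.ks fs ≤ T1) (h2 : Pk.dotN ns Ps + lowN 0 Ps fs ≤ p1)
    (h3 : lb ≤ Pk.dotN ns E.ks + uppN E.ks fs) :
    (∀ ba bb : Bool, VJ A β (cAf 0) (fun _ => 0) (phF E.ks Os Rs)
      (eU U u0 u1 ba) (eU U v0 v1 bb) 0 M' ≤ ((rs.getD (ix ba bb false) 0 : ℝ) - O) / 40000000) ∨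
    (∀ a y : ℝ, (u0 : ℝ) / U ≤ a → a ≤ (u1 : ℝ) / U → (v0 : ℝ) / U ≤ y → y ≤ (v1 : ℝ) / U →
      max (FM (1 ::ₘ a ::ₘ y ::ₘ 0 ::ₘ M')) 0 + (d : ℝ) / 10 ^ 7 ≤ WD.Wd (a + y + 0 + M'.sum)) := by
  have e : chkB4 U E u0 u1 v0 v1 Ps Os Rs A β d O T1 p1 lb rs
      = cond (lnC E.rd Ps Os Rs Os)
        (cel4 U E.rd E.a0 E.a1 E.y0 E.y1 E.x0 E.x1 E.x2 E.x3 u0 u1 v0 v1
          fun s bd tabs => rowB E.rd E.ks Ps Os Rs (Nat.mul (nat_lit 4) (Nat.add A β)) (Nat.mul (nat_lit 4) β) d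
            s bd O T1 p1 lb tabs rs) false := by
    cases E
    rfl
  rw [e] at h
  obtain ⟨hl, h⟩ := cond_eq_true h
  obtain ⟨l1, l2, l3, l4⟩ := lnC_sound hl
  obtain ⟨s, bd, tabs, hK, hs, hB, hG⟩ := cel4_sound hE h
  have r := sideB3_real hS E.rd E.ks Ps Os Rs hE.cnt hE.lk l1 (by rw [hE.lk, l2]) (by rw [hE.lk, l3])
    hE.kn hB s bd hs ix4 tabs hG A β O d T1 p1 lb rs hK ns fs M' hred h1 h2 h3
  rcases r with r | r
  · left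
    intro ba bb
    have := r ba bb false
    rw [ed00] at this
    rw [eU_ed, eU_ed]
    exact this
  · right
    intro a y p1 p2 p3 p4
    exact r a y 0 p1 p2 p3 p4 le_rfl le_rfl

/-- RICHNESS of a row, two special entries, soundness. -/
theorem chkR4_sound (hS : SpS) {U : ℕ} {E : GD} (hE : E.OK U) {u0 u1 v0 v1 : ℕ} {Ps : List ℕ}
    {vh d T1 p1 lb : ℕ} (h : chkR4 U E u0 u1 v0 v1 Ps vh d T1 p1 lb = true)
    (ns : List ℕ) (fs : List Bool) (M' : Multiset ℝ) (hred : Red 0 (kR E.ks) ns fs M')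
    (h1 : Pk.dotN ns E.ks + lowN 0 E.ks fs ≤ T1) (h2 : Pk.dotN ns Ps + lowN 0 Ps fs ≤ p1)
    (h3 : lb ≤ Pk.dotN ns E.ks + uppN E.ks fs) :
    ∀ a y : ℝ, (u0 : ℝ) / U ≤ a → a ≤ (u1 : ℝ) / U → (v0 : ℝ) / U ≤ y → y ≤ (v1 : ℝ) / U →
      max (FM (1 ::ₘ a ::ₘ y ::ₘ 0 ::ₘ M')) ((vh : ℝ) / 10 ^ 7) + (d : ℝ) / 10 ^ 7 ≤ WD.Wd (a + y + 0 + M'.sum) := by
  have e : chkR4 U E u0 u1 v0 v1 Ps vh d T1 p1 lb
      = cond (lnC E.rd Ps Ps Ps Ps)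
        (cel4 U E.rd E.a0 E.a1 E.y0 E.y1 E.x0 E.x1 E.x2 E.x3 u0 u1 v0 v1
          fun s bd tabs => rowR E.rd E.ks Ps vh d s bd T1 p1 lb tabs) false := by
    cases E
    rfl
  rw [e] at h
  obtain ⟨hl, h⟩ := cond_eq_true h
  obtain ⟨l1, l2, l3, l4⟩ := lnC_sound hl
  obtain ⟨s, bd, tabs, hK, hs, hB, hG⟩ := cel4_sound hE h
  intro a y p1 p2 p3 p4
  exact sideR3_real hS E.rd E.ks Ps hE.cnt hE.lk l1 hE.kn hB s bd hs ix4 tabs hG d vh T1 _ lb hK ns fs M' hred h1 h2 h3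
    a y 0 p1 p2 p3 p4 le_rfl le_rfl

end B3
end Pool.Agent.Lib.MP_6947cd_al
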