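import Pool.Agent.Lib.MP_6947cd_al.C.Grd
import Pool.Agent.Lib.MP_6947cd_al.C.Alt

/-!
Problem MP_6947cd_al (Chollet).  THE CHECK OF A ROW from a family of tables: the result `C1.RowOK`, eight corners
(three special entries) and four corners (the third special entry is `0`).
-/

set_option autoImplicit false
open Finset

namespace Pool.Agent.Lib.MP_6947cd_al
namespace B3

open Ent Ent.Pk Fr Fr.WT PkA PkA.TF B1 B2 C1

/-- equality of lists -/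
noncomputable def lqL : List ℕ → List ℕ → Bool :=
  @List.rec ℕ (fun _ => List ℕ → Bool) (fun b => @List.rec ℕ (fun _ => Bool) true (fun _ _ _ => false) b)
    (fun x _ ih b => @List.rec ℕ (fun _ => Bool) false (fun y b' _ => cond (Nat.beq x y) (ih b') false) b)

lemma lqL_sound (a : List ℕ) : ∀ b, lqL a b = true → a = b := by
  induction a with
  | nil =>
    intro b h
    cases b with
    | nil => rfl
    | cons y b => exact Bool.noConfusion h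
  | cons x a ih =>
    intro b h
    cases b with
    | nil => exact Bool.noConfusion h
    | cons y b =>
      have e : lqL (x :: a) (y :: b) = cond (Nat.beq x y) (lqL a b) false := rfl
      rw [e] at h
      obtain ⟨h1, h2⟩ := cond_eq_true h
      rw [Nat.eq_of_beq_eq_true h1, ih b h2]

/-- a value of the second alternative -/
def lv (a y z : ℕ) : ℕ := Nat.sub (Nat.add (Nat.add a y) z) (nat_lit 480000)

/-- the values of the second alternative at the eight corners -/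
def lsL (a0 a1 y0 y1 z0 z1 : ℕ) : List ℕ :=
  [lv a0 y0 z0, lv a1 y0 z0, lv a0 y1 z0, lv a1 y1 z0, lv a0 y0 z1, lv a1 y0 z1, lv a0 y1 z1, lv a1 y1 z1]

/-- the values of the second alternative at the four corners -/
def lsL4 (a0 a1 y0 y1 : ℕ) : List ℕ :=
  [lv a0 y0 (nat_lit 0), lv a1 y0 (nat_lit 0), lv a0 y1 (nat_lit 0), lv a1 y1 (nat_lit 0)]

/-- THE CHECK OF A ROW: grid steps, knots, prices, values of the function of the rests at the knots (positive part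
`Os`, negative part `Rs`, unit `1e-7 / 4`), slopes of the second alternative (unit `1e-7`), weights `A`, `β`, threshold
`d`, constant `O`, filters, status, results at the corners, values of the second alternative at the ends, borders -/
noncomputable def rowK (F : Fam) (sa sy sz : ℕ) (ks Ps Os Rs Gs : List ℕ) (A β d O T1 p1 lb : ℕ) (bad : Bool)
    (R : List ℕ) (a0 a1 y0 y1 z0 z1 X0 X1 Y0 Y1 Z0 Z1 : ℕ) : Bool :=
  @Fam.rec (fun _ => Bool) (fun rd kf T =>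
    cond (lqL kf ks)
    (cond bad
      (cond (lnC rd Ps Os Rs Os)
        (celR rd T sa sy sz X0 X1 Y0 Y1 Z0 Z1 fun s bd tabs =>
          rowB rd ks Ps Os Rs (Nat.mul (nat_lit 4) (Nat.add A β)) (Nat.mul (nat_lit 4) β) d s bd O T1 p1 lb tabs R)
        false)
      (cond (Nat.ble (Nat.succ X0) X1) (cond (Nat.ble (Nat.succ Y0) Y1) (cond (Nat.ble (Nat.succ Z0) Z1)
      (cond (lnC rd Ps Os Rs Gs)
        (celR rd T sa sy sz X0 X1 Y0 Y1 Z0 Z1 fun s bd tabs =>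
          rowP rd ks Ps Os Rs Gs (Nat.mul (nat_lit 4) (Nat.add A β)) (Nat.mul (nat_lit 4) β) (nat_lit 5000000) d s bd O
            T1 p1 lb tabs R (lsL a0 a1 y0 y1 z0 z1)) false) false) false) false)) false) F

/-- THE CHECK OF A ROW, third special entry `0` -/
noncomputable def rowK4 (F : Fam) (sa sy : ℕ) (ks Ps Os Rs Gs : List ℕ) (A β d O T1 p1 lb : ℕ) (bad : Bool)
    (R : List ℕ) (a0 a1 y0 y1 X0 X1 Y0 Y1 : ℕ) : Bool :=
  @Fam.rec (fun _ => Bool) (fun rd kf T =>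
    cond (lqL kf ks)
    (cond bad
      (cond (lnC rd Ps Os Rs Os)
        (celR4 rd T sa sy X0 X1 Y0 Y1 fun s bd tabs =>
          rowB rd ks Ps Os Rs (Nat.mul (nat_lit 4) (Nat.add A β)) (Nat.mul (nat_lit 4) β) d s bd O T1 p1 lb tabs R)
        false)
      (cond (Nat.ble (Nat.succ X0) X1) (cond (Nat.ble (Nat.succ Y0) Y1)
      (cond (lnC rd Ps Os Rs Gs)
        (celR4 rd T sa sy X0 X1 Y0 Y1 fun s bd tabs =>
          rowP rd ks Ps Os Rs Gs (Nat.mul (nat_lit 4) (Nat.add A β)) (Nat.mul (nat_lit 4) β) (nat_lit 5000000) d s bd O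
            T1 p1 lb tabs R (lsL4 a0 a1 y0 y1)) false) false) false)) false) F

lemma edg_ed (a b : ℝ) (c : Bool) : edg a b c = ed a b c := rfl

lemma lsN_lv (a0 a1 y0 y1 z0 z1 : ℕ) (ba bb bc : Bool) :
    lsN a0 a1 y0 y1 z0 z1 ba bb bc = lv (cv a0 a1 ba) (cv y0 y1 bb) (cv z0 z1 bc) := by
  unfold lsN lv
  exact Eq.refl _

lemma getD8 (f : ℕ → ℕ → ℕ → ℕ) (a0 a1 y0 y1 z0 z1 : ℕ) (ba bb bc : Bool) :
    [f a0 y0 z0, f a1 y0 z0, f a0 y1 z0, f a1 y1 z0, f a0 y0 z1, f a1 y0 z1, f a0 y1 z1, f a1 y1 z1].getD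
      (ix ba bb bc) 0 = f (cv a0 a1 ba) (cv y0 y1 bb) (cv z0 z1 bc) := by
  cases ba <;> cases bb <;> cases bc <;> rfl

lemma getD4 (f : ℕ → ℕ → ℕ) (a0 a1 y0 y1 : ℕ) (ba bb bc : Bool) :
    [f a0 y0, f a1 y0, f a0 y1, f a1 y1].getD (ix4 ba bb bc) 0 = f (cv a0 a1 ba) (cv y0 y1 bb) := by
  cases ba <;> cases bb <;> cases bc <;> rfl

lemma lsL_eq (a0 a1 y0 y1 z0 z1 : ℕ) (ba bb bc : Bool) :
    (lsL a0 a1 y0 y1 z0 z1).getD (ix ba bb bc) 0 = lsN a0 a1 y0 y1 z0 z1 ba bb bc := by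
  rw [lsN_lv]
  exact getD8 lv a0 a1 y0 y1 z0 z1 ba bb bc

lemma lsL4_eq (a0 a1 y0 y1 : ℕ) (ba bb bc : Bool) :
    (lsL4 a0 a1 y0 y1).getD (ix4 ba bb bc) 0 = lsN a0 a1 y0 y1 0 0 ba bb false := by
  rw [lsN_lv]
  exact getD4 (fun a y => lv a y 0) a0 a1 y0 y1 ba bb bc

/-- the alternatives of a row -/
noncomputable def altF (bad : Bool) (X0 X1 Y0 Y1 Z0 Z1 a0 a1 y0 y1 z0 z1 : ℕ) : Bool → Af :=
  bif bad then fun _ => cAf 0 else altA 5000000 (lamA X0 X1 Y0 Y1 Z0 Z1 a0 a1 y0 y1 z0 z1)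

/-- the alternatives of a row, rests -/
noncomputable def altH (bad : Bool) (ks Gs : List ℕ) : Bool → ℝ → ℝ := bif bad then fun _ _ => 0 else altG ks Gs

lemma mx0 {a y z d W : ℝ} {N : Multiset ℝ}
    (h : max (FM (1 ::ₘ a ::ₘ y ::ₘ z ::ₘ N)) 0 + d ≤ W) :
    max (FM (1 ::ₘ a ::ₘ y ::ₘ z ::ₘ N)) ((cAf 0).val a y z + (N.map fun _ => (0 : ℝ)).sum) + d ≤ W := by
  have e0 : (cAf 0).val a y z + (N.map fun _ => (0 : ℝ)).sum = 0 := by
    rw [cAf_val, Multiset.map_const', Multiset.sum_replicate, smul_zero, add_zero]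
  rw [e0]
  exact h

/-- THE CHECK OF A ROW, soundness. -/
theorem rowK_sound (hS : SpS) {F : Fam} (hF : F.OK) {sa sy sz : ℕ} {ks Ps Os Rs Gs : List ℕ}
    {A β d O T1 p1 lb : ℕ} {bad : Bool} {R : List ℕ} {a0 a1 y0 y1 z0 z1 X0 X1 Y0 Y1 Z0 Z1 : ℕ}
    (h : rowK F sa sy sz ks Ps Os Rs Gs A β d O T1 p1 lb bad R a0 a1 y0 y1 z0 z1 X0 X1 Y0 Y1 Z0 Z1 = true) :
    RowOK ks Ps lb T1 p1 d A β (altF bad X0 X1 Y0 Y1 Z0 Z1 a0 a1 y0 y1 z0 z1) (altH bad ks Gs) (phF ks Os Rs)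
      ((X0 : ℝ) / 400) ((X1 : ℝ) / 400) ((Y0 : ℝ) / 400) ((Y1 : ℝ) / 400) ((Z0 : ℝ) / 400) ((Z1 : ℝ) / 400)
      (fun i => (((R.getD i 0 : ℕ) : ℝ) - O) / 40000000) := by
  obtain ⟨rd, kf, T⟩ := F
  obtain ⟨hcnt, hlen, hkn, hk2, hT⟩ := hF
  dsimp only at hcnt hlen hkn hk2 hT
  have h' : cond (lqL kf ks)
    (cond bad
      (cond (lnC rd Ps Os Rs Os)
        (celR rd T sa sy sz X0 X1 Y0 Y1 Z0 Z1 fun s bd tabs =>
          rowB rd ks Ps Os Rs (Nat.mul (nat_lit 4) (Nat.add A β)) (Nat.mul (nat_lit 4) β) d s bd O T1 p1 lb tabs R)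
        false)
      (cond (Nat.ble (Nat.succ X0) X1) (cond (Nat.ble (Nat.succ Y0) Y1) (cond (Nat.ble (Nat.succ Z0) Z1)
      (cond (lnC rd Ps Os Rs Gs)
        (celR rd T sa sy sz X0 X1 Y0 Y1 Z0 Z1 fun s bd tabs =>
          rowP rd ks Ps Os Rs Gs (Nat.mul (nat_lit 4) (Nat.add A β)) (Nat.mul (nat_lit 4) β) (nat_lit 5000000) d s bd O
            T1 p1 lb tabs R (lsL a0 a1 y0 y1 z0 z1)) false) false) false) false)) false = true := h
  clear h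
  obtain ⟨hq, h⟩ := cond_eq_true h'
  obtain rfl := lqL_sound _ _ hq
  intro ns fs N hred h1 h2 h3
  cases bad with
  | true =>
    rw [cond_true] at h
    obtain ⟨hl, h⟩ := cond_eq_true h
    obtain ⟨l1, l2, l3, l4⟩ := lnC_sound hl
    obtain ⟨s, bd, tabs, hK, hs, hB, hG⟩ := celR_sound hT hk2 h
    refine ⟨true, ?_⟩
    rcases sideB3_real hS rd kf Ps Os Rs hcnt hlen l1 (by rw [hlen, l2]) (by rw [hlen, l3])
      hkn hB s bd hs ix tabs (GX.of8 hG) A β O d T1 p1 lb R hK ns fs N hred h1 h2 h3 with r | r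
    · exact Or.inl r
    · exact Or.inr fun a y z q1 q2 q3 q4 q5 q6 => mx0 (r a y z q1 q2 q3 q4 q5 q6)
  | false =>
    rw [cond_false] at h
    obtain ⟨hX, h⟩ := cond_eq_true h
    obtain ⟨hY, h⟩ := cond_eq_true h
    obtain ⟨hZ, h⟩ := cond_eq_true h
    have hX : X0 < X1 := Nat.le_of_ble_eq_true hX
    have hY : Y0 < Y1 := Nat.le_of_ble_eq_true hY
    have hZ : Z0 < Z1 := Nat.le_of_ble_eq_true hZ
    obtain ⟨hl, h⟩ := cond_eq_true h
    obtain ⟨l1, l2, l3, l4⟩ := lnC_sound hl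
    obtain ⟨s, bd, tabs, hK, hs, hB, hG⟩ := celR_sound hT hk2 h
    exact sideP3_real hS rd kf Ps Os Rs Gs hcnt hlen l1 (by rw [hlen, l2]) (by rw [hlen, l3]) (by rw [hlen, l4])
      hkn hB s bd hs ix tabs (GX.of8 hG) A β O d 5000000 T1 p1 lb R _
      (lamA X0 X1 Y0 Y1 Z0 Z1 a0 a1 y0 y1 z0 z1) (fun ba bb bc => by
        rw [lsL_eq]
        exact lamA_le hX hY hZ ba bb bc) hK ns fs N hred h1 h2 h3

lemma lamA_val0 (A0 A1 Y0 Y1 a0 a1 y0 y1 : ℕ) (a y z : ℝ) :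
    (lamA A0 A1 Y0 Y1 0 0 a0 a1 y0 y1 0 0).val a y z
    = chF ((A0 : ℝ) / 400) ((A1 : ℝ) / 400) ((a0 : ℝ) / 10 ^ 7) ((a1 : ℝ) / 10 ^ 7) a
    + chF ((Y0 : ℝ) / 400) ((Y1 : ℝ) / 400) ((y0 : ℝ) / 10 ^ 7) ((y1 : ℝ) / 10 ^ 7) y - 6 / 125 := by
  rw [lamA_val]
  have e : chF (((0 : ℕ) : ℝ) / 400) (((0 : ℕ) : ℝ) / 400) (((0 : ℕ) : ℝ) / 10 ^ 7) (((0 : ℕ) : ℝ) / 10 ^ 7) z = 0 := by
    unfold chF
    simp
  rw [e, add_zero]

lemma lamA_le0 {A0 A1 Y0 Y1 a0 a1 y0 y1 : ℕ} (hA : A0 < A1) (hY : Y0 < Y1) (ba bb : Bool) (z : ℝ) :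
    (lamA A0 A1 Y0 Y1 0 0 a0 a1 y0 y1 0 0).val (edg ((A0 : ℝ) / 400) ((A1 : ℝ) / 400) ba)
      (edg ((Y0 : ℝ) / 400) ((Y1 : ℝ) / 400) bb) z
    ≤ ((lsN a0 a1 y0 y1 0 0 ba bb false : ℕ) : ℝ) / 10 ^ 7 := by
  rw [lamA_val0, chF_end hA, chF_end hY]
  have e : lsN a0 a1 y0 y1 0 0 ba bb false = cv a0 a1 ba + cv y0 y1 bb + 0 - 480000 := rfl
  have h1 : ((cv a0 a1 ba + cv y0 y1 bb + 0 : ℕ) : ℝ)
      ≤ ((cv a0 a1 ba + cv y0 y1 bb + 0 - 480000 : ℕ) : ℝ) + (480000 : ℕ) := by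
    exact_mod_cast le_tsub_add
  rw [e]
  push_cast at h1
  rw [← add_div, sub_le_iff_le_add, div_le_iff₀ (by norm_num)]
  rw [add_mul, div_mul_cancel₀ _ (by norm_num)]
  linarith

/-- THE CHECK OF A ROW, third special entry `0`, soundness: `r` any function with the results at the corners. -/
theorem rowK4_sound (hS : SpS) {F : Fam} (hF : F.OK) {sa sy : ℕ} {ks Ps Os Rs Gs : List ℕ}
    {A β d O T1 p1 lb : ℕ} {bad : Bool} {R : List ℕ} {a0 a1 y0 y1 X0 X1 Y0 Y1 : ℕ}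
    (h : rowK4 F sa sy ks Ps Os Rs Gs A β d O T1 p1 lb bad R a0 a1 y0 y1 X0 X1 Y0 Y1 = true) {r : ℕ → ℝ}
    (hr : ∀ ba bb bc : Bool, (((R.getD (ix ba bb false) 0 : ℕ) : ℝ) - O) / 40000000 ≤ r (ix ba bb bc)) :
    RowOK ks Ps lb T1 p1 d A β (altF bad X0 X1 Y0 Y1 0 0 a0 a1 y0 y1 0 0) (altH bad ks Gs) (phF ks Os Rs)
      ((X0 : ℝ) / 400) ((X1 : ℝ) / 400) ((Y0 : ℝ) / 400) ((Y1 : ℝ) / 400) (((0 : ℕ) : ℝ) / 400)
      (((0 : ℕ) : ℝ) / 400) r := by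
  obtain ⟨rd, kf, T⟩ := F
  obtain ⟨hcnt, hlen, hkn, hk2, hT⟩ := hF
  dsimp only at hcnt hlen hkn hk2 hT
  have h' : cond (lqL kf ks)
    (cond bad
      (cond (lnC rd Ps Os Rs Os)
        (celR4 rd T sa sy X0 X1 Y0 Y1 fun s bd tabs =>
          rowB rd ks Ps Os Rs (Nat.mul (nat_lit 4) (Nat.add A β)) (Nat.mul (nat_lit 4) β) d s bd O T1 p1 lb tabs R)
        false)
      (cond (Nat.ble (Nat.succ X0) X1) (cond (Nat.ble (Nat.succ Y0) Y1)
      (cond (lnC rd Ps Os Rs Gs)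
        (celR4 rd T sa sy X0 X1 Y0 Y1 fun s bd tabs =>
          rowP rd ks Ps Os Rs Gs (Nat.mul (nat_lit 4) (Nat.add A β)) (Nat.mul (nat_lit 4) β) (nat_lit 5000000) d s bd O
            T1 p1 lb tabs R (lsL4 a0 a1 y0 y1)) false) false) false)) false = true := h
  clear h
  obtain ⟨hq, h⟩ := cond_eq_true h'
  obtain rfl := lqL_sound _ _ hq
  have e0 : (((0 : ℕ) : ℝ) / 400) = 0 := by simp
  rw [e0]
  have e1 : ∀ bc : Bool, edg (0 : ℝ) 0 bc = 0 := fun bc => by cases bc <;> rfl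
  intro ns fs N hred h1 h2 h3
  cases bad with
  | true =>
    rw [cond_true] at h
    obtain ⟨hl, h⟩ := cond_eq_true h
    obtain ⟨l1, l2, l3, l4⟩ := lnC_sound hl
    obtain ⟨s, bd, tabs, hK, hs, hB, hG⟩ := celR4_sound hT hk2 h
    refine ⟨true, ?_⟩
    rcases sideB3_real hS rd kf Ps Os Rs hcnt hlen l1 (by rw [hlen, l2]) (by rw [hlen, l3])
      hkn hB s bd hs ix4 tabs (GX.of4 hG) A β O d T1 p1 lb R hK ns fs N hred h1 h2 h3 with q | q
    · refine Or.inl fun ba bb bc => (q ba bb bc).trans ?_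
      exact hr ba bb bc
    · exact Or.inr fun a y z q1 q2 q3 q4 q5 q6 => mx0 (q a y z q1 q2 q3 q4 q5 q6)
  | false =>
    rw [cond_false] at h
    obtain ⟨hX, h⟩ := cond_eq_true h
    obtain ⟨hY, h⟩ := cond_eq_true h
    have hX : X0 < X1 := Nat.le_of_ble_eq_true hX
    have hY : Y0 < Y1 := Nat.le_of_ble_eq_true hY
    obtain ⟨hl, h⟩ := cond_eq_true h
    obtain ⟨l1, l2, l3, l4⟩ := lnC_sound hl
    obtain ⟨s, bd, tabs, hK, hs, hB, hG⟩ := celR4_sound hT hk2 h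
    obtain ⟨al, q⟩ := sideP3_real hS rd kf Ps Os Rs Gs hcnt hlen l1 (by rw [hlen, l2]) (by rw [hlen, l3])
      (by rw [hlen, l4]) hkn hB s bd hs ix4 tabs (GX.of4 hG) A β O d 5000000 T1 p1 lb R _
      (lamA X0 X1 Y0 Y1 0 0 a0 a1 y0 y1 0 0) (fun ba bb bc => by
        rw [lsL4_eq]
        exact lamA_le0 hX hY ba bb _) hK ns fs N hred h1 h2 h3
    refine ⟨al, ?_⟩
    rcases q with q | q
    · refine Or.inl fun ba bb bc => (q ba bb bc).trans ?_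
      exact hr ba bb bc
    · exact Or.inr q

end B3
end Pool.Agent.Lib.MP_6947cd_al
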