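import Pool.Agent.Lib.MP_6947cd_al.C.ChkS
import Pool.Agent.Lib.MP_6947cd_al.C.RowG

/-!
Problem MP_6947cd_al (Chollet).  CASE C: THE TABLE CHECK OF A ROW of a leaf (patterns, zone 2, heavy rows).
-/

set_option autoImplicit false
open Finset

namespace Pool.Agent.Lib.MP_6947cd_al
namespace C1

open Ent Ent.Pk Fr Fr.WT CC B1 B2 PkA

/-- forced evaluation of the elements of a list -/
noncomputable def frL (l : List ℕ) : (List ℕ → Bool) → Bool :=
  @List.rec ℕ (fun _ => (List ℕ → Bool) → Bool) (fun k => k []) (fun a _ ih k => frc a fun a' => ih fun r => k (a' :: r)) l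

lemma frL_eq (l : List ℕ) : ∀ k, frL l k = k l := by
  induction l with
  | nil => intro k; rfl
  | cons a l ih =>
    intro k
    have e : frL (a :: l) k = frc a fun a' => frL l fun r => k (a' :: r) := rfl
    rw [e, frc_eq, ih]

/-- THE TABLE CHECK OF A ROW of case C.  `r.st = [f, g, k0, a, Q]`: `f` = number of the family of the patterns, the
rest as in `chkSZ`; `A`, `β` weights, `bad` status, borders of the special entries, `R1` = upper border of the sum of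
the rests of the row `i` -/
noncomputable def chkRow (l : List TF.Fam) (r : Rw) (A β : ℕ) (bad : Bool) (X0 X1 Y0 Y1 Z0 Z1 R1 : ℕ) : Bool :=
  cond (SStar.chkSZ l r A β bad X0 X1 Y0 Y1 Z0 Z1)
    (frL (rsL r.P r.kn.Ps r.Om) fun Rs => frc (gt r.st (nat_lit 0)) fun f => frc (Nat.mul (nat_lit 32) R1) fun p1 =>
      TF.famN (fun F => B3.rowK F (nat_lit 80) (nat_lit 80) (nat_lit 80) r.kn.ks r.kn.Ps r.Op Rs r.Gs A β r.d (nat_lit 0)
        r.S1 p1 (nat_lit 0) bad r.R r.a0 r.a1 r.y0 r.y1 r.z0 r.z1 X0 X1 Y0 Y1 Z0 Z1) l f) false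

/-- **SOUNDNESS.** -/
theorem chkRow_sound (hS : SpS) {l : List TF.Fam} (hl : TF.EnvF l) {r : Rw} {A β : ℕ} {bad : Bool}
    {X0 X1 Y0 Y1 Z0 Z1 R1 : ℕ} (h : chkRow l r A β bad X0 X1 Y0 Y1 Z0 Z1 R1 = true) :
    RwOK r A β bad X0 X1 Y0 Y1 Z0 Z1 R1 := by
  unfold chkRow at h
  obtain ⟨h1, h2⟩ := cond_eq_true h
  rw [frL_eq, frc_eq, frc_eq] at h2
  obtain ⟨q1, q2⟩ := SStar.chkSZ_sound hl h1
  obtain ⟨F, hF, h3⟩ := TF.famN_sound hl h2
  have h4 := B3.rowK_sound hS hF h3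
  have e : (fun i : ℕ => (((r.R.getD i 0 : ℕ) : ℝ) - ((0 : ℕ) : ℝ)) / 40000000)
      = fun i : ℕ => ((r.R.getD i 0 : ℕ) : ℝ) / 40000000 := by
    funext i
    rw [Nat.cast_zero, sub_zero]
  refine ⟨?_, q1, q2⟩
  rw [← e]
  exact h4

end C1
end Pool.Agent.Lib.MP_6947cd_al
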