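import Pool.Agent.Lib.MP_6947cd_al.Z.PPL
import Pool.Agent.Lib.MP_6947cd_al.L.BoxLibC

/-!
Problem MP_6947cd_al (Chollet).  CASE C, the price of a pair of rests: the library `LIBC` (pure classes),
mixtures of classes of different boxes.  Unit of the values `1 / (4 * 10 ^ 10)`.
-/

set_option autoImplicit false
open Finset

namespace Pool.Agent.Lib.MP_6947cd_al

namespace CB

open CA

/-- THE LIBRARY OF CASE C: index `k < 30`: `LIB`; `30 + 2 j + i`: `H0 = 130 + 10 j`, `so = 80` (`i = 0`),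
`so = 110` (`i = 1`) -/
def LIBC : List Box := [xL100_20, xL100_40, xL100_60, xL110_20, xL110_40, xL110_60,
  xL120_20, xL120_40, xL120_60, xL130_20, xL130_40, xL130_60,
  xL140_20, xL140_40, xL140_60, xL150_20, xL150_40, xL150_60,
  xL160_20, xL160_40, xL160_60, xL170_20, xL170_40, xL170_60,
  xL180_20, xL180_40, xL180_60, xL190_20, xL190_40, xL190_60,
  xC130_80, xC130_110, xC140_80, xC140_110, xC150_80, xC150_110,
  xC160_80, xC160_110, xC170_80, xC170_110, xC180_80, xC180_110, xC190_80, xC190_110]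

/-- all the pair inequalities -/
def LibIIC : Prop := ∀ x ∈ LIBC, PropII x

theorem libC_format : LIBC.all boxF = true := by decide +kernel

end CB

namespace C1

open Ent Ent.Pk Fr Fr.WT PkA B1
open B2 (clD smC smR smC_cast smR_sub smR_mul smR_add smR_le smR_congr plc gP gP_maj ppOK nF)

/-- the class `c` of the box `k` -/
def clC (k c : ℕ) : CA.Cl :=
  match CB.LIBC[k]? with
  | none => clD
  | some x => x.cls.getD c clD

/-- resolved classes with weights, from `(box, class, weight)` -/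
def resX : List (ℕ × ℕ × ℕ) → List (ℕ × CA.Cl)
  | [] => []
  | (k, c, y) :: l => (y, clC k c) :: resX l

/-- the class is usable for `h` in `[lo, hi]` (`1/400`), `s ≤ m/400` -/
def oneC (m lo hi : ℕ) (p : ℕ × ℕ × ℕ) : Bool :=
  match CB.LIBC[p.1]? with
  | none => false
  | some x => Nat.ble (Nat.mul 2 x.H0) lo && (Nat.ble hi (Nat.mul 2 x.H1) && (Nat.ble m (Nat.mul 2 x.so) &&
      (Nat.blt p.2.1 x.cls.length && Nat.beq (x.cls.getD p.2.1 clD).ty 3)))

/-- one cell `[lo, hi]` of the range of `h` -/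
def cellC (w3 TJ Sl m : ℕ) (ks Os : List ℕ) (lo hi : ℕ) (l : List (ℕ × ℕ × ℕ)) : Bool :=
  l.all (oneC m lo hi) && (Nat.beq (smC (fun _ => 1) (resX l)) w3 &&
    (Nat.ble (smC (fun c => c.a) (resX l)) Sl &&
      ppOK (gP (Nat.sub 1000 w3) TJ (resX l)) 20 0 0 ks Os))

/-- cover of the range of `h` (`1 / 400`): the cells are given by their upper ends -/
def covC (w3 TJ Sl m : ℕ) (ks Os : List ℕ) (h1 : ℕ) : ℕ → List (ℕ × List (ℕ × ℕ × ℕ)) → Bool
  | _, [] => false
  | lo, (hi, l) :: rest => cellC w3 TJ Sl m ks Os lo hi l &&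
      (Nat.ble h1 hi || covC w3 TJ Sl m ks Os h1 hi rest)

/-- THE CHECK with a linear function `TJ / 1000 y` -/
def pairT (w3 TJ Sl m h0 h1 : ℕ) (ks Os : List ℕ) (cells : List (ℕ × List (ℕ × ℕ × ℕ))) : Bool :=
  Nat.ble w3 1000 && cond (Nat.beq w3 0) (ppOK (gP 1000 TJ []) 20 0 0 ks Os)
    (covC w3 TJ Sl m ks Os h1 h0 cells)

/-- THE CHECK of the pair price of case C: weights in `1/1000`, `m, h0, h1` in `1/400` -/
def pairC (w3 Sl m h0 h1 : ℕ) (ks Os : List ℕ) (cells : List (ℕ × List (ℕ × ℕ × ℕ))) : Bool :=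
  pairT w3 0 Sl m h0 h1 ks Os cells

/-- a slope `TJ` such that `Osp + TJ - Osm` is nonnegative at the knots -/
def tjC : List ℕ → List ℕ → ℕ
  | k :: ks, o :: os => Nat.add (tjC ks os)
      (cond (Nat.beq o 0) 0 (Nat.succ (Nat.div o (Nat.mul (nat_lit 200000) k))))
  | _, _ => 0

/-- the shifted values -/
def osC (TJ : ℕ) : List ℕ → List ℕ → List ℕ → List ℕ
  | k :: ks, p :: ps, m :: ms => Nat.sub (Nat.add p (Nat.mul (nat_lit 200000) (Nat.mul TJ k))) m :: osC TJ ks ps ms
  | _, _, _ => []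

/-- the shifted values are nonnegative, increasing knots, equal lengths; `a` = the last knot -/
def okC (TJ : ℕ) : ℕ → List ℕ → List ℕ → List ℕ → Bool
  | a, k :: ks, p :: ps, m :: ms => Nat.blt a k &&
      (Nat.ble m (Nat.add p (Nat.mul (nat_lit 200000) (Nat.mul TJ k))) && okC TJ k ks ps ms)
  | _, [], [], [] => true
  | _, _, _, _ => false

/-- THE CHECK of the pair price of case C, the values at the knots are `Osp - Osm` -/
def pairS (w3 Sl m h0 h1 : ℕ) (ks Osp Osm : List ℕ) (cells : List (ℕ × List (ℕ × ℕ × ℕ))) : Bool :=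
  okC (tjC ks Osm) 0 ks Osp Osm &&
    pairT w3 (tjC ks Osm) Sl m h0 h1 ks (osC (tjC ks Osm) ks Osp Osm) cells

lemma clC_mem {k c : ℕ} {m lo hi y : ℕ} (h : oneC m lo hi (k, c, y) = true) :
    ∃ x ∈ CB.LIBC, clC k c ∈ x.cls ∧ 2 * x.H0 ≤ lo ∧ hi ≤ 2 * x.H1 ∧ m ≤ 2 * x.so ∧ (clC k c).ty = 3 := by
  unfold oneC at h
  cases hk : CB.LIBC[k]? with
  | none => simp only [hk] at h; exact absurd h (by simp)
  | some x =>
    simp only [hk] at h
    simp only [Bool.and_eq_true, Nat.ble_eq, Nat.blt_eq, Nat.beq_eq] at h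
    obtain ⟨a1, a2, a3, a4, a5⟩ := h
    have e : clC k c = x.cls.getD c clD := by
      unfold clC
      rw [hk]
    refine ⟨x, List.mem_of_getElem? hk, ?_, a1, a2, a3, ?_⟩
    · rw [e, List.getD_eq_getElem _ _ a4]
      exact List.getElem_mem a4
    · rw [e]
      exact a5

lemma resX_mem : ∀ (l : List (ℕ × ℕ × ℕ)) (q : ℕ × CA.Cl), q ∈ resX l →
    ∃ p ∈ l, q = (p.2.2, clC p.1 p.2.1) := by
  intro l
  induction l with
  | nil => intro q hq; exact absurd hq (by simp [resX])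
  | cons p l ih =>
    obtain ⟨k, c, y⟩ := p
    intro q hq
    unfold resX at hq
    rcases List.mem_cons.mp hq with rfl | hq
    · exact ⟨(k, c, y), List.mem_cons_self, rfl⟩
    · obtain ⟨p, hp, e⟩ := ih q hq
      exact ⟨p, List.mem_cons_of_mem _ hp, e⟩

/-- THE PRICE OF A PAIR, case C, with a linear function -/
theorem pair_priceT (hLib : CB.LibIIC) {w3 TJ Sl m h0 h1 : ℕ} {ks Os : List ℕ}
    {cells : List (ℕ × List (ℕ × ℕ × ℕ))} (hc : pairT w3 TJ Sl m h0 h1 ks Os cells = true) {h : ℝ}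
    (hh0 : (h0 : ℝ) / 400 ≤ h) (hh1 : h ≤ (h1 : ℝ) / 400) {x y e u : ℝ} (hx0 : 0 ≤ x)
    (hxm : x ≤ (m : ℝ) / 400) (hy0 : 0 ≤ y) (hy1 : y ≤ 1) (hyt : y ≤ top 0 (kR ks))
    (g : PQ.Geo h x y e u) :
    (1000 - (w3 : ℝ)) / 1000 * omg y + (w3 : ℝ) / 1000 * (omg x + omg y - omg (min u (max x y)))
      + (TJ : ℝ) / 1000 * y ≤ nF 40000000000 ks Os y + (Sl : ℝ) / 1000000 * x := by
  unfold pairT at hc
  simp only [Bool.and_eq_true] at hc
  obtain ⟨hw, hc⟩ := hc
  have hw3 : w3 ≤ 1000 := Nat.le_of_ble_eq_true hw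
  have hw1 : ((1000 - w3 : ℕ) : ℝ) = 1000 - (w3 : ℝ) := by
    rw [Nat.cast_sub hw3]; norm_num
  have hSl : 0 ≤ (Sl : ℝ) / 1000000 * x := by positivity
  cases hb : Nat.beq w3 0 with
  | true =>
    rw [hb, cond_true] at hc
    have h2 : w3 = 0 := Nat.eq_of_beq_eq_true hb
    have h5 := gP_maj (ys := []) (by simp) hc hy0 hyt
    simp only [smR, zero_div, add_zero] at h5
    rw [h2]
    push_cast at h5 ⊢
    linarith
  | false =>
    rw [hb, cond_false] at hc
    have cell : ∀ (cells : List (ℕ × List (ℕ × ℕ × ℕ))) (lo : ℕ), (lo : ℝ) / 400 ≤ h →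
        covC w3 TJ Sl m ks Os h1 lo cells = true → ∃ (lo hi : ℕ) (l : List (ℕ × ℕ × ℕ)), (lo : ℝ) / 400 ≤ h ∧
          h ≤ (hi : ℝ) / 400 ∧ cellC w3 TJ Sl m ks Os lo hi l = true := by
      intro cells
      induction cells with
      | nil => intro lo _ h; exact absurd h (by simp [covC])
      | cons p cells ih =>
        obtain ⟨hi, l⟩ := p
        intro lo hlo h2
        unfold covC at h2
        simp only [Bool.and_eq_true, Bool.or_eq_true, Nat.ble_eq] at h2
        obtain ⟨a1, a2⟩ := h2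
        rcases le_total h ((hi : ℝ) / 400) with b2 | b2
        · exact ⟨lo, hi, l, hlo, b2, a1⟩
        · rcases a2 with a2 | a2
          · have : (h1 : ℝ) ≤ hi := by exact_mod_cast a2
            exact ⟨lo, hi, l, hlo, hh1.trans (by linarith), a1⟩
          · exact ih hi b2 a2
    obtain ⟨lo, hi, l, x0, x1, hcell⟩ := cell cells h0 hh0 hc
    unfold cellC at hcell
    simp only [Bool.and_eq_true, Nat.ble_eq, Nat.beq_eq, List.all_eq_true] at hcell
    obtain ⟨c5, c2, c4, c6⟩ := hcell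
    obtain ⟨ys, hys⟩ : ∃ ys, ys = resX l := ⟨_, rfl⟩
    -- every class
    have each : ∀ q ∈ ys, q.2.b.length = 20 ∧ omg x + omg y - omg (min u (max x y))
        ≤ (q.2.a : ℝ) / 1000 * x + plc q.2 y := by
      intro q hq
      rw [hys] at hq
      obtain ⟨⟨k, c, w⟩, hp, rfl⟩ := resX_mem l q hq
      obtain ⟨b, hb1, hb2, hb3, hb4, hb5, hb6⟩ := clC_mem (c5 _ hp)
      have hf := List.all_eq_true.mp CB.libC_format b hb1
      unfold CB.boxF at hf
      simp only [Bool.and_eq_true, beq_iff_eq, List.all_eq_true] at hf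
      obtain ⟨f1, f2⟩ := hf
      have hcl := f2 _ hb2
      unfold CB.clF at hcl
      simp only [Bool.and_eq_true, Bool.or_eq_true, Nat.beq_eq] at hcl
      obtain ⟨g1, _, g3⟩ := hcl
      refine ⟨g3, ?_⟩
      have k0 : (b.H0 : ℝ) / 200 ≤ h := by
        have : ((2 * b.H0 : ℕ) : ℝ) ≤ lo := by exact_mod_cast hb3
        push_cast at this
        linarith
      have k1 : h ≤ (b.H1 : ℝ) / 200 := by
        have : (hi : ℝ) ≤ ((2 * b.H1 : ℕ) : ℝ) := by exact_mod_cast hb4
        push_cast at this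
        linarith
      have k2 : x ≤ (b.so : ℝ) / 200 := by
        have : (m : ℝ) ≤ ((2 * b.so : ℕ) : ℝ) := by exact_mod_cast hb5
        push_cast at this
        linarith
      have k3 : y ≤ ((b.k.getLastD 0 : ℕ) : ℝ) / 1000 := by
        rw [f1]
        have : CB.K20.getLastD 0 = 1000 := rfl
        rw [this]
        norm_num
        exact hy1
      have := CB.lib_pure (hLib b hb1) hb2 g1 hb6 k0 k1 g k2 k3
      rw [f1] at this
      exact this
    have s1 := smR_le (fun _ => omg x + omg y - omg (min u (max x y)))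
      (fun c => (c.a : ℝ) / 1000 * x + plc c y) ys (fun q hq => (each q hq).2)
    have s2 := gP_maj (fun q hq => (each q hq).1) (hys ▸ c6) hy0 hyt
    have t1 : smR (fun _ => (1 : ℝ)) ys = (w3 : ℝ) := by
      have h7 : ((smC (fun _ => 1) ys : ℕ) : ℝ) = (w3 : ℝ) := by rw [hys, c2]
      rw [smC_cast] at h7
      push_cast at h7
      exact h7
    have t3 : smR (fun c => (c.a : ℝ)) ys ≤ Sl := by
      have h7 : ((smC (fun c => c.a) ys : ℕ) : ℝ) ≤ Sl := by rw [hys]; exact_mod_cast c4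
      rw [smC_cast] at h7
      exact h7
    have u1 : smR (fun _ => omg x + omg y - omg (min u (max x y))) ys
        = (omg x + omg y - omg (min u (max x y))) * smR (fun _ => (1 : ℝ)) ys := by
      rw [smR_mul]
      refine smR_congr _ _ _ fun p _ => ?_
      ring
    have u2 : smR (fun c => (c.a : ℝ) / 1000 * x + plc c y) ys
        = x / 1000 * smR (fun c => (c.a : ℝ)) ys + smR (fun c => plc c y) ys := by
      rw [smR_mul, smR_add]
      refine smR_congr _ _ _ fun p _ => ?_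
      ring
    rw [u1, u2, t1] at s1
    have v2 := mul_le_mul_of_nonneg_left t3 (show 0 ≤ x / 1000 by positivity)
    have hw1' : ((Nat.sub 1000 w3 : ℕ) : ℝ) = 1000 - (w3 : ℝ) := hw1
    rw [hw1'] at s2
    linarith

/-- THE PRICE OF A PAIR, case C -/
theorem pair_priceC (hLib : CB.LibIIC) {w3 Sl m h0 h1 : ℕ} {ks Os : List ℕ}
    {cells : List (ℕ × List (ℕ × ℕ × ℕ))} (hc : pairC w3 Sl m h0 h1 ks Os cells = true) {h : ℝ}
    (hh0 : (h0 : ℝ) / 400 ≤ h) (hh1 : h ≤ (h1 : ℝ) / 400) {x y e u : ℝ} (hx0 : 0 ≤ x)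
    (hxm : x ≤ (m : ℝ) / 400) (hy0 : 0 ≤ y) (hy1 : y ≤ 1) (hyt : y ≤ top 0 (kR ks))
    (g : PQ.Geo h x y e u) :
    (1000 - (w3 : ℝ)) / 1000 * omg y + (w3 : ℝ) / 1000 * (omg x + omg y - omg (min u (max x y)))
      ≤ nF 40000000000 ks Os y + (Sl : ℝ) / 1000000 * x := by
  have h1 := pair_priceT hLib hc hh0 hh1 hx0 hxm hy0 hy1 hyt g
  push_cast at h1
  linarith

/-- interpolation is linear -/
lemma ipl_lin (TJ : ℕ) : ∀ (ks ps ms : List ℕ) (a : ℕ) (v1 v2 v3 : ℝ),
    okC TJ a ks ps ms = true → v1 + v2 = v3 + (TJ : ℝ) / 1000 * ((a : ℝ) / 200) → ∀ t : ℝ,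
    (a : ℝ) / 200 ≤ t → t ≤ top ((a : ℝ) / 200) (kR ks) →
    ipl ((a : ℝ) / 200) v1 (kR ks) ((osC TJ ks ps ms).map fun v : ℕ => (v : ℝ) / 40000000000) t
      + ipl ((a : ℝ) / 200) v2 (kR ks) (ms.map fun v : ℕ => (v : ℝ) / 40000000000) t
      = ipl ((a : ℝ) / 200) v3 (kR ks) (ps.map fun v : ℕ => (v : ℝ) / 40000000000) t
        + (TJ : ℝ) / 1000 * t := by
  intro ks
  induction ks with
  | nil =>
    intro ps ms a v1 v2 v3 h hv t h0 h1
    have ht : t = (a : ℝ) / 200 := le_antisymm h1 h0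
    cases ps with
    | cons p ps => simp [okC] at h
    | nil =>
      cases ms with
      | cons m ms => simp [okC] at h
      | nil =>
        have e : ∀ v : ℝ, ipl ((a : ℝ) / 200) v (kR []) (([] : List ℕ).map fun v : ℕ => (v : ℝ) / 40000000000) t = v :=
          fun v => rfl
        have e' : osC TJ [] [] [] = [] := rfl
        rw [e', e, e, e, hv, ht]
  | cons k ks ih =>
    intro ps ms a v1 v2 v3 h hv t h0 h1
    cases ps with
    | nil => simp [okC] at h
    | cons p ps =>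
      cases ms with
      | nil => simp [okC] at h
      | cons m ms =>
        unfold okC at h
        simp only [Bool.and_eq_true, Nat.blt_eq, Nat.ble_eq] at h
        obtain ⟨hak, hm, hr⟩ := h
        have hm' : m ≤ p + 200000 * (TJ * k) := hm
        have hakr : (a : ℝ) < k := by exact_mod_cast hak
        have eo : osC TJ (k :: ks) (p :: ps) (m :: ms) = (p + 200000 * (TJ * k) - m) :: osC TJ ks ps ms := rfl
        have ek : kR (k :: ks) = ((k : ℝ) / 200) :: kR ks := rfl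
        have w : (((p + 200000 * (TJ * k) - m : ℕ) : ℝ)) / 40000000000 + (m : ℝ) / 40000000000
            = (p : ℝ) / 40000000000 + (TJ : ℝ) / 1000 * ((k : ℝ) / 200) := by
          rw [Nat.cast_sub hm']
          push_cast
          ring
        rw [eo, ek, List.map_cons, List.map_cons, List.map_cons]
        rw [ek] at h1
        have e : ∀ (v w : ℝ) (l : List ℝ), ipl ((a : ℝ) / 200) v ((k : ℝ) / 200 :: kR ks) (w :: l) t
            = if t ≤ (k : ℝ) / 200 then v + (w - v) / ((k : ℝ) / 200 - (a : ℝ) / 200) * (t - (a : ℝ) / 200)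
              else ipl ((k : ℝ) / 200) w (kR ks) l t := fun v w l => rfl
        rw [e, e, e]
        split_ifs with hle
        · have hd : (k : ℝ) / 200 - (a : ℝ) / 200 ≠ 0 := ne_of_gt (by linarith)
          have w1 : (((p + 200000 * (TJ * k) - m : ℕ) : ℝ)) / 40000000000
              = (p : ℝ) / 40000000000 + (TJ : ℝ) / 1000 * ((k : ℝ) / 200) - (m : ℝ) / 40000000000 := by
            linarith
          have w2 : v1 = v3 + (TJ : ℝ) / 1000 * ((a : ℝ) / 200) - v2 := by linarith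
          rw [w1, w2]
          generalize (k : ℝ) / 200 = K at *
          generalize (a : ℝ) / 200 = A at *
          field_simp
          ring
        · exact ih ps ms k _ _ _ hr w t (not_le.mp hle).le h1

/-- THE PRICE OF A PAIR, case C, signed values at the knots -/
theorem pair_priceS (hLib : CB.LibIIC) {w3 Sl m h0 h1 : ℕ} {ks Osp Osm : List ℕ}
    {cells : List (ℕ × List (ℕ × ℕ × ℕ))} (hc : pairS w3 Sl m h0 h1 ks Osp Osm cells = true) {h : ℝ}
    (hh0 : (h0 : ℝ) / 400 ≤ h) (hh1 : h ≤ (h1 : ℝ) / 400) {x y e u : ℝ} (hx0 : 0 ≤ x)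
    (hxm : x ≤ (m : ℝ) / 400) (hy0 : 0 ≤ y) (hy1 : y ≤ 1) (hyt : y ≤ top 0 (kR ks))
    (g : PQ.Geo h x y e u) :
    (1000 - (w3 : ℝ)) / 1000 * omg y + (w3 : ℝ) / 1000 * (omg x + omg y - omg (min u (max x y)))
      ≤ nF 40000000000 ks Osp y - nF 40000000000 ks Osm y + (Sl : ℝ) / 1000000 * x := by
  unfold pairS at hc
  rw [Bool.and_eq_true] at hc
  have k1 := pair_priceT hLib hc.2 hh0 hh1 hx0 hxm hy0 hy1 hyt g
  have k2 := ipl_lin (tjC ks Osm) ks Osp Osm 0 0 0 0 hc.1 (by norm_num) y (by simpa using hy0)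
    (by simpa using hyt)
  have z : (((0 : ℕ) : ℝ) / 200) = 0 := by norm_num
  rw [z] at k2
  unfold nF at k1 ⊢
  linarith

end C1
end Pool.Agent.Lib.MP_6947cd_al
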