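import Pool.Agent.Lib.MP_6947cd_al.C.LeafI
import Pool.Agent.Lib.MP_6947cd_al.C.PairC

/-!
Problem MP_6947cd_al (Chollet).  CASE C: the data of a leaf.
-/

set_option autoImplicit false
open Finset

namespace Pool.Agent.Lib.MP_6947cd_al
namespace C1

open Ent Ent.Pk Fr Fr.WT CC B1 B2 PkA

/-- a pair of merged entries: level, `gb` = the vertex is bad, flags, tangent `um / 400`, radii, eight values
(unit `10^-6`, plus `10^6`) -/
structure Pd where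
  L : ℕ
  gb : Bool
  kf : Bool
  mf : Bool
  um : ℕ
  ra : ℕ
  rb : ℕ
  V : List ℕ

/-- knots (`1 / 200`), prices (`1 / 12800`), lines of the prices, line of the cap -/
structure Kn where
  ks : List ℕ
  Ps : List ℕ
  ts : List (ℕ × ℕ × ℕ)
  cp : ℕ × ℕ × ℕ

/-- a used row: price, bounds of the sum (`1 / 200`) for the patterns and for zone 2, slope `C` of zone 2, threshold
(`1e-7`), omitted entries (positive and negative parts), results at the corners, additive part at the borders of the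
special entries and at the knots, data of the check of the heavy rows -/
structure Rw where
  kn : Kn
  P : ℕ
  S1 : ℕ
  S : ℕ
  C : ℕ
  d : ℕ
  Op : List ℕ
  Om : List ℕ
  R : List ℕ
  a0 : ℕ
  a1 : ℕ
  y0 : ℕ
  y1 : ℕ
  z0 : ℕ
  z1 : ℕ
  Gs : List ℕ
  st : List ℕ

/-- a leaf -/
structure Lf where
  w3 : ℕ
  w7 : ℕ
  w8 : ℕ
  wA : ℕ
  lam : ℕ
  c1 : ℕ
  c2 : ℕ
  c3 : ℕ
  o1 : ℕ
  o2 : ℕ
  Sl : ℕ
  cells : List (ℕ × List (ℕ × ℕ × ℕ))
  k : Pd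
  l : Pd
  ps : ℕ
  X1 : ℕ
  X2 : ℕ
  X3 : ℕ
  L7 : ℕ
  L8 : ℕ
  l1 : List Ln
  l2 : List Ln
  l3 : List Ln
  l4 : List Ln
  r1 : Rw
  r2 : Rw
  r3 : Rw

/-- absent data -/
def Pd.none : Pd := ⟨0, false, false, false, 0, 0, 0, []⟩
def Rw.none : Rw := ⟨⟨[], [], [], (0, 0, 0)⟩, 0, 0, 0, 0, 0, [], [], [], 0, 0, 0, 0, 0, 0, [], []⟩

/-- the alternatives of a row -/
noncomputable def altC (bad : Bool) (r : Rw) (X0 X1 Y0 Y1 Z0 Z1 : ℕ) : Bool → Af :=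
  bif bad then fun _ => cAf 0 else altA 5000000 (lamA X0 X1 Y0 Y1 Z0 Z1 r.a0 r.a1 r.y0 r.y1 r.z0 r.z1)

noncomputable def altD (bad : Bool) (r : Rw) : Bool → ℝ → ℝ :=
  bif bad then fun _ _ => 0 else altG r.kn.ks r.Gs

/-- the function of the rests of a row -/
noncomputable def phC (r : Rw) : ℝ → ℝ := phF r.kn.ks r.Op (rsL r.P r.kn.Ps r.Om)

/-- THE RESULT OF THE TABLE CHECKS OF A ROW: weight `A`, multiplier `β`, status, borders of the special entries,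
upper border of the rests of the row `i` -/
structure RwOK (r : Rw) (A β : ℕ) (bad : Bool) (X0 X1 Y0 Y1 Z0 Z1 R1 : ℕ) : Prop where
  row : RowOK r.kn.ks r.kn.Ps 0 r.S1 (32 * R1) r.d A β (altC bad r X0 X1 Y0 Y1 Z0 Z1) (altD bad r) (phC r)
    ((X0 : ℝ) / 400) ((X1 : ℝ) / 400) ((Y0 : ℝ) / 400) ((Y1 : ℝ) / 400) ((Z0 : ℝ) / 400) ((Z1 : ℝ) / 400)
    (fun i => ((r.R.getD i 0 : ℕ) : ℝ) / 40000000)
  zone : r.S1 ≠ r.S → ZoneOK (lstC 0 r.kn.ks) r.S1 r.S A β ((r.C : ℝ) / 200000) (v2 bad) ((X0 : ℝ) / 400)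
    ((X1 : ℝ) / 400) ((Y0 : ℝ) / 400) ((Y1 : ℝ) / 400) ((Z0 : ℝ) / 400) ((Z1 : ℝ) / 400)
    (fun i => ((r.R.getD i 0 : ℕ) : ℝ) / 40000000)
  star : StarOK (lstC 0 r.kn.ks) r.S r.d (!bad) ((X0 : ℝ) / 400) ((X1 : ℝ) / 400) ((Y0 : ℝ) / 400) ((Y1 : ℝ) / 400)
    ((Z0 : ℝ) / 400) ((Z1 : ℝ) / 400)

/-- forced evaluation of a Boolean -/
def fB (b : Bool) (k : Bool → Bool) : Bool := cond b (k true) (k false)

lemma fB_eq (b : Bool) (k : Bool → Bool) : fB b k = k b := by cases b <;> rfl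

/-- forced evaluation of a box -/
def frS (σ : St) (k : St → Bool) : Bool :=
  frc σ.x.H0 fun H0 => frc σ.x.H1 fun H1 => frc σ.x.T0 fun T0 => frc σ.x.T1 fun T1 => frc σ.x.S0 fun S0 =>
  frc σ.x.S1 fun S1 => frc σ.x.A0 fun A0 => frc σ.x.A1 fun A1 => frc σ.x.B0 fun B0 => frc σ.x.B1 fun B1 =>
  frc σ.x.C0 fun C0 => frc σ.x.C1 fun C1 => frc σ.x.R0 fun R0 => frc σ.x.R1 fun R1 =>
  frc σ.s1 fun s1 => frc σ.s2 fun s2 => frc σ.s3 fun s3 => fB σ.n1 fun n1 => fB σ.n2 fun n2 => fB σ.n3 fun n3 =>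
  k ⟨⟨H0, H1, T0, T1, S0, S1, A0, A1, B0, B1, C0, C1, R0, R1⟩, s1, s2, s3, n1, n2, n3⟩

lemma frS_eq (σ : St) (k : St → Bool) : frS σ k = k σ := by
  unfold frS
  simp only [frc_eq, fB_eq]

/-- the status decides: the vertex is known to be bad -/
def isB (s : ℕ) : Bool := Nat.beq s (nat_lit 0)

/-- the vertex may be bad and the entry may be at least `3 / 10` -/
def uF (s : ℕ) (n : Bool) (A1 : ℕ) : Bool :=
  cond (Nat.beq s (nat_lit 1)) false (cond n false (Nat.ble (nat_lit 120) A1))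

lemma uF_sound {s : ℕ} {n : Bool} {A1 : ℕ} {D g : ℝ} (h1 : s = 1 → D ≤ 0) (h2 : n = true → g < 3 / 10)
    (h3 : g ≤ (A1 : ℝ) / 400) (hD : 0 < D) (hg : 3 / 10 ≤ g) : uF s n A1 = true := by
  unfold uF
  cases hs : Nat.beq s (nat_lit 1) with
  | true => exact absurd (h1 (Nat.eq_of_beq_eq_true hs)) (not_le.mpr hD)
  | false =>
    cases n with
    | true => exact absurd (h2 rfl) (not_lt.mpr hg)
    | false =>
      show Nat.ble 120 A1 = true
      refine Nat.ble_eq_true_of_le ?_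
      have : (120 : ℝ) ≤ A1 := by linarith
      exact_mod_cast this

/-! ### the thresholds -/

lemma div_c4 (f : ℕ) : (f : ℝ) / 4 ≤ (((f + 3) / 4 : ℕ) : ℝ) := by
  have h : f ≤ 4 * ((f + 3) / 4) := by omega
  have h2 : (f : ℝ) ≤ 4 * (((f + 3) / 4 : ℕ) : ℝ) := by exact_mod_cast h
  linarith

/-- the check of a threshold -/
noncomputable def thrC (K M : List ℕ) (d : ℕ) : Bool :=
  frc (Nat.mul (nat_lit 800000) d) fun D => frc (Nat.div (Nat.add (e4 K M) (nat_lit 3)) (nat_lit 4)) fun E =>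
    allB fun a => allB fun b => allB fun c => allB fun e =>
      frc (i4 a b c e) fun i => Nat.ble (Nat.add (Nat.mul (gt K i) (gt M i)) E) D

lemma thrC_sound {K M : List ℕ} {d : ℕ} (h : thrC K M d = true) (e : Fin 7 → Bool) :
    at4 K e / 100000 * (at4 M e / 80000000) + ∑ i, eV K M i / (4 * 8000000000000) ≤ (d : ℝ) / 10 ^ 7 := by
  unfold thrC at h
  rw [frc_eq, frc_eq] at h
  have h1 := allB_sound (allB_sound (allB_sound (allB_sound h (e 0)) (e 1)) (e 2)) (e 6)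
  rw [frc_eq, gt_eq, gt_eq] at h1
  have h2 := Nat.le_of_ble_eq_true h1
  have h3 : ((K.getD (i4 (e 0) (e 1) (e 2) (e 6)) 0 * M.getD (i4 (e 0) (e 1) (e 2) (e 6)) 0
      + (e4 K M + 3) / 4 : ℕ) : ℝ) ≤ ((800000 * d : ℕ) : ℝ) := Nat.cast_le.mpr h2
  have h4 := div_c4 (e4 K M)
  rw [← Finset.sum_div, sum_eV]
  unfold at4
  generalize K.getD (i4 (e 0) (e 1) (e 2) (e 6)) 0 = k at h3 ⊢
  generalize M.getD (i4 (e 0) (e 1) (e 2) (e 6)) 0 = m at h3 ⊢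
  generalize e4 K M = f at h3 h4 ⊢
  generalize (f + 3) / 4 = q at h3 h4
  push_cast at h3 h4 ⊢
  have e1 : (k : ℝ) / 100000 * ((m : ℝ) / 80000000) + (f : ℝ) / (4 * 8000000000000)
    = ((k : ℝ) * m + (f : ℝ) / 4) / 8000000000000 := by ring
  rw [e1, div_le_div_iff₀ (by norm_num) (by norm_num)]
  nlinarith

lemma eV4_nonneg (K M : List ℕ) (i : Fin 7) : 0 ≤ eV K M i / (4 * 8000000000000) :=
  div_nonneg (eV_nonneg _ _ i) (by norm_num)

lemma eV4_sound (K M : List ℕ) (i : Fin 7) (e e' : Fin 7 → Bool) :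
    -((at4 K (Function.update e i true) / 100000 - at4 K (Function.update e i false) / 100000)
        * (at4 M (Function.update e' i true) / 80000000 - at4 M (Function.update e' i false) / 80000000))
      ≤ 4 * (eV K M i / (4 * 8000000000000)) := by
  have := eV_sound K M i e e'
  have e1 : -((at4 K (Function.update e i true) / 100000 - at4 K (Function.update e i false) / 100000)
        * (at4 M (Function.update e' i true) / 80000000 - at4 M (Function.update e' i false) / 80000000))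
      = -((at4 K (Function.update e i true) - at4 K (Function.update e i false))
        * (at4 M (Function.update e' i true) - at4 M (Function.update e' i false))) / 8000000000000 := by ring
  have e2 : 4 * (eV K M i / (4 * 8000000000000)) = eV K M i / 8000000000000 := by ring
  rw [e1, e2]
  exact div_le_div_of_nonneg_right this (by norm_num)

/-! ### the merged entries -/

/-- the eight values as integers -/
def v8 (V : List ℕ) : N3C.V8 :=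
  ⟨Int.subNatNat (V.getD 0 0) 1000000, Int.subNatNat (V.getD 4 0) 1000000, Int.subNatNat (V.getD 2 0) 1000000,
    Int.subNatNat (V.getD 6 0) 1000000, Int.subNatNat (V.getD 1 0) 1000000, Int.subNatNat (V.getD 5 0) 1000000,
    Int.subNatNat (V.getD 3 0) 1000000, Int.subNatNat (V.getD 7 0) 1000000⟩

noncomputable def vF (V : List ℕ) (a b c : Bool) : ℝ := (((V.getD (ix a b c) 0 : ℕ) : ℝ) - 1000000) / 1000000

lemma snn (n : ℕ) : ((Int.subNatNat n 1000000 : ℤ) : ℝ) = (n : ℝ) - 1000000 := by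
  rw [Int.subNatNat_eq_coe]
  push_cast
  rfl

lemma v8_fn (V : List ℕ) : UC.fn (v8 V) = vF V := by
  funext a b c
  cases a <;> cases b <;> cases c <;>
    · unfold UC.fn vF v8
      simp only
      rw [snn]
      rfl

/-- the check of the merged entries -/
def pdC (p : Pd) (H0 H1 T0 T1 G0 G1 : ℕ) : Bool := UC.chkU 400 2500 H0 H1 T0 T1 G0 G1 p.ra p.rb (v8 p.V)

/-- all the values are at least `1000123` -/
noncomputable def pvC (V : List ℕ) : Bool :=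
  allB fun a => allB fun b => allB fun c => Nat.ble (nat_lit 1000123) (gt V (ix a b c))

lemma pvC_sound {V : List ℕ} (h : pvC V = true) (a b c : Bool) : 1000123 ≤ V.getD (ix a b c) 0 := by
  have h1 := allB_sound (allB_sound (allB_sound h a) b) c
  rw [gt_eq] at h1
  exact Nat.le_of_ble_eq_true h1

/-- level -/
def lvC (L a b : ℕ) : Bool :=
  cond (Nat.ble L (nat_lit 10)) (cond (Nat.ble L (nat_lit 3)) true (cond (Nat.ble (Nat.mul (nat_lit 40) L) a) true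
    (Nat.ble (Nat.mul (nat_lit 40) L) b))) false

def lvD (L a b c : ℕ) : Bool :=
  cond (Nat.ble L (nat_lit 10)) (cond (Nat.ble L (nat_lit 3)) true (cond (Nat.ble (Nat.mul (nat_lit 40) L) a) true
    (cond (Nat.ble (Nat.mul (nat_lit 40) L) b) true (Nat.ble (Nat.mul (nat_lit 40) L) c)))) false

lemma ble40 {L a : ℕ} (h : Nat.ble (Nat.mul (nat_lit 40) L) a = true) : (L : ℝ) / 10 ≤ (a : ℝ) / 400 := by
  have h1 : 40 * L ≤ a := Nat.le_of_ble_eq_true h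
  have : (40 : ℝ) * L ≤ a := by exact_mod_cast h1
  linarith

lemma cond_or {a b : Bool} (h : cond a true b = true) : a = true ∨ b = true := by
  cases a
  · exact Or.inr h
  · exact Or.inl rfl

lemma lvC_sound {L a b : ℕ} (h : lvC L a b = true) : L ≤ 10 ∧
    (L ≤ 3 ∨ (L : ℝ) / 10 ≤ (a : ℝ) / 400 ∨ (L : ℝ) / 10 ≤ (b : ℝ) / 400) := by
  unfold lvC at h
  obtain ⟨h1, h2⟩ := cond_eq_true h
  refine ⟨Nat.le_of_ble_eq_true h1, ?_⟩
  rcases cond_or h2 with h3 | h3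
  · exact Or.inl (Nat.le_of_ble_eq_true h3)
  · rcases cond_or h3 with h4 | h4
    · exact Or.inr (Or.inl (ble40 h4))
    · exact Or.inr (Or.inr (ble40 h4))

lemma lvD_sound {L a b c : ℕ} (h : lvD L a b c = true) : L ≤ 10 ∧
    (L ≤ 3 ∨ (L : ℝ) / 10 ≤ (a : ℝ) / 400 ∨ (L : ℝ) / 10 ≤ (b : ℝ) / 400 ∨ (L : ℝ) / 10 ≤ (c : ℝ) / 400) := by
  unfold lvD at h
  obtain ⟨h1, h2⟩ := cond_eq_true h
  refine ⟨Nat.le_of_ble_eq_true h1, ?_⟩
  rcases cond_or h2 with h3 | h3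
  · exact Or.inl (Nat.le_of_ble_eq_true h3)
  · rcases cond_or h3 with h4 | h4
    · exact Or.inr (Or.inl (ble40 h4))
    · rcases cond_or h4 with h5 | h5
      · exact Or.inr (Or.inr (Or.inl (ble40 h5)))
      · exact Or.inr (Or.inr (Or.inr (ble40 h5)))

/-! ### the integer part of the check of a row -/

/-- minimum -/
def mnF (a b : ℕ) : ℕ := frc a fun x => frc b fun y => cond (Nat.ble x y) x y

lemma mnF_cases (a b : ℕ) : mnF a b = a ∨ mnF a b = b := by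
  unfold mnF
  rw [frc_eq, frc_eq]
  cases Nat.ble a b
  · exact Or.inr rfl
  · exact Or.inl rfl

/-- prices, cap, monotonicity, total, zone 2, alternatives; `sm` = bound of the rests of the row `i` -/
noncomputable def rwC (r : Rw) (bad : Bool) (sm X0 X1 Y0 Y1 Z0 Z1 : ℕ) : Bool :=
  cond (knC X0 sm r.kn.ks r.kn.Ps r.kn.ts r.kn.cp) (cond (moC r.kn.Ps (nat_lit 0))
    (cond (Nat.ble (Nat.add (Nat.add (Nat.add X1 Y1) Z1) (Nat.mul (nat_lit 2) r.S)) (nat_lit 6400))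
    (cond (Nat.ble r.S1 r.S) (cond (cond (Nat.beq r.S1 r.S) true (czC r.C r.kn.ks r.Op (rsL r.P r.kn.Ps r.Om)))
      (cond bad true (cond (gsC r.kn.ks r.Gs) (cond (chG X0 X1 r.a0 r.a1) (cond (chG Y0 Y1 r.y0 r.y1)
        (chG Z0 Z1 r.z0 r.z1) false) false) false)) false) false) false) false) false

lemma rwC_sound (hS7 : SpecR7) {r : Rw} {bad : Bool} {sm X0 X1 Y0 Y1 Z0 Z1 : ℕ}
    (h : rwC r bad sm X0 X1 Y0 Y1 Z0 Z1 = true) (hX : X0 < X1) (hY : Y0 < Y1) (hZ : Z0 < Z1) :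
    knC X0 sm r.kn.ks r.kn.Ps r.kn.ts r.kn.cp = true ∧ moC r.kn.Ps 0 = true ∧ X1 + Y1 + Z1 + 2 * r.S ≤ 6400 ∧
    r.S1 ≤ r.S ∧ (r.S1 = r.S ∨ czC r.C r.kn.ks r.Op (rsL r.P r.kn.Ps r.Om) = true) ∧
    AltOK r.kn.ks bad (altC bad r X0 X1 Y0 Y1 Z0 Z1) (altD bad r) ((X0 : ℝ) / 400) ((X1 : ℝ) / 400)
      ((Y0 : ℝ) / 400) ((Y1 : ℝ) / 400) ((Z0 : ℝ) / 400) ((Z1 : ℝ) / 400) := by
  unfold rwC at h
  obtain ⟨h1, h⟩ := cond_eq_true h
  obtain ⟨h2, h⟩ := cond_eq_true h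
  obtain ⟨h3, h⟩ := cond_eq_true h
  obtain ⟨h4, h⟩ := cond_eq_true h
  obtain ⟨h5, h⟩ := cond_eq_true h
  refine ⟨h1, h2, Nat.le_of_ble_eq_true h3, Nat.le_of_ble_eq_true h4, ?_, ?_⟩
  · rcases cond_or h5 with h6 | h6
    · exact Or.inl (Nat.eq_of_beq_eq_true h6)
    · exact Or.inr h6
  · cases bad with
    | true => exact altOK_bad
    | false =>
      rw [cond_false] at h
      obtain ⟨h4, h⟩ := cond_eq_true h
      obtain ⟨h5, h⟩ := cond_eq_true h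
      obtain ⟨h6, h⟩ := cond_eq_true h
      exact altOK_of hS7 (knC_knOK h1) hX hY hZ h4 h5 h6 h

/-- the row of a vertex, from the integer data -/
theorem row_fin (hS2 : SpecS2) (hS1 : SpecS1) (hS7 : SpecR7) {r : Rw} {A β : ℕ} {bad : Bool}
    {sm X0 X1 Y0 Y1 Z0 Z1 R1 : ℕ} (hc : rwC r bad sm X0 X1 Y0 Y1 Z0 Z1 = true) (hO : r.Op.length = r.kn.ks.length)
    (ok : RwOK r A β bad X0 X1 Y0 Y1 Z0 Z1 R1)
    (hX0 : 120 ≤ X0) (hX : X0 < X1) (hX1 : X1 ≤ 400) (hY : Y0 < Y1) (hY1 : Y1 ≤ 400) (hZ : Z0 < Z1) (hZ1 : Z1 ≤ 400)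
    {a y z G : ℝ} {M : Multiset (ℝ × ℝ)} {Mi : Multiset ℝ}
    (ha : (X0 : ℝ) / 400 ≤ a ∧ a ≤ (X1 : ℝ) / 400) (hy : (Y0 : ℝ) / 400 ≤ y ∧ y ≤ (Y1 : ℝ) / 400)
    (hz : (Z0 : ℝ) / 400 ≤ z ∧ z ≤ (Z1 : ℝ) / 400)
    (hv : Val G (a ::ₘ y ::ₘ z ::ₘ sn M)) (hP : Prs a Mi M) (hMi : ∀ x ∈ Mi, 0 ≤ x ∧ x ≤ (sm : ℝ) / 400)
    (hRs : Mi.sum ≤ (R1 : ℝ) / 400)
    (hbad : bad = true → 0 < Df G (a ::ₘ y ::ₘ z ::ₘ sn M))
    (hd : -((r.d : ℝ) / 10 ^ 7) < Df G (a ::ₘ y ::ₘ z ::ₘ sn M)) :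
    RowD (kR r.kn.ks) (phR r.kn.ks r.Op (rsL r.P r.kn.Ps r.Om)) (A / 1000) (β / 1000) a y z G M
      ((X0 : ℝ) / 400) ((X1 : ℝ) / 400) ((Y0 : ℝ) / 400) ((Y1 : ℝ) / 400) ((Z0 : ℝ) / 400) ((Z1 : ℝ) / 400)
      (fun ba bb bc => ((r.R.getD (ix ba bb bc) 0 : ℕ) : ℝ) / 40000000000) ∧
    ∀ w ∈ M, 0 ≤ w.1 ∧ w.2 ≤ top 0 (kR r.kn.ks) ∧ nF 12800 r.kn.ks r.kn.Ps w.2 ≤ w.1 := by
  obtain ⟨k1, k2, k3, k4, k5, k6⟩ := rwC_sound hS7 hc hX hY hZ
  refine row_res (C := r.C) hS2 hS1 hS7 k1 k2 hO (by rw [rsL_len, knC_len k1]) hX0 hX1 hY1 hZ1 k3 k4 ok.row ?_ ok.star k6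
    ha.1 ha.2 hy.1 hy.2 hz.1 hz.2 hv hP hMi hRs hbad hd ?_
  · by_cases h : r.S1 = r.S
    · exact Or.inl h
    · exact Or.inr ⟨k5.resolve_left h, ok.zone h⟩
  · rw [Nat.cast_zero, zero_div]
    exact sum_sn_nonneg hP

end C1
end Pool.Agent.Lib.MP_6947cd_al
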