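import Pool.Agent.Lib.MP_6947cd_al.C.SZone

/-!
Problem MP_6947cd_al (Chollet).  HEAVY ROWS, PACKED CHECK: the row values come from the tables, and all the nodes of a
corner are compared at once.
-/

set_option autoImplicit false
open Finset

namespace Pool.Agent.Lib.MP_6947cd_al
namespace SStar

open Ent Ent.Pk Fr Fr.WT CC PkA B1 B2

/-- the tables at the corners: row bounds and row values -/
structure FW (rd ks : List ℕ) (s bd : ℕ) (a0 a1 y0 y1 z0 z1 : ℝ) (jx : Bool → Bool → Bool → ℕ)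
    (tabs : List (ℕ × ℕ)) : Prop where
  fx : FX rd ks s a0 a1 y0 y1 z0 z1 jx tabs
  dT : ∀ ba bb bc : Bool, ∀ i < prd rd, dg (tabs.getD (jx ba bb bc) (0, 0)).1 i ≤ bd
  dW : ∀ ba bb bc : Bool, ∀ i < prd rd, dg (tabs.getD (jx ba bb bc) (0, 0)).2 i ≤ bd
  W : ∀ ba bb bc : Bool, ∀ i < prd rd, (dg (tabs.getD (jx ba bb bc) (0, 0)).2 i : ℝ) / (s * 10 ^ 7)
      ≤ WD.Wd (ed a0 a1 ba + ed y0 y1 bb + ed z0 z1 bc + (Ent.mk (CA.dig rd i) (kR ks)).sum)

theorem FW.of8 {rd ks : List ℕ} {s bd : ℕ} {a0 a1 y0 y1 z0 z1 : ℝ} {tabs : List (ℕ × ℕ)}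
    (h : G8 rd ks s bd a0 a1 y0 y1 z0 z1 tabs) : FW rd ks s bd a0 a1 y0 y1 z0 z1 ix tabs := by
  refine ⟨FX.of8 h, fun ba bb bc => (h.2 ba bb bc).dT, fun ba bb bc => (h.2 ba bb bc).dW,
    fun ba bb bc i hi => ?_⟩
  have := (h.2 ba bb bc).hw i hi
  rwa [Sp_sum] at this

theorem FW.of4 {rd ks : List ℕ} {s bd : ℕ} {a0 a1 y0 y1 : ℝ} {tabs : List (ℕ × ℕ)}
    (h : G4 rd ks s bd a0 a1 y0 y1 tabs) : FW rd ks s bd a0 a1 y0 y1 (((0 : ℕ) : ℝ) / 400) (((0 : ℕ) : ℝ) / 400)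
      (fun ba bb _ => ix ba bb false) tabs := by
  refine ⟨FX.of4 h, fun ba bb _ => (h.2 ba bb).dT, fun ba bb _ => (h.2 ba bb).dW, fun ba bb bc i hi => ?_⟩
  have := (h.2 ba bb).hw i hi
  have e0 : ed (((0 : ℕ) : ℝ) / 400) (((0 : ℕ) : ℝ) / 400) bc = 0 := by cases bc <;> simp [ed]
  rw [e0]
  refine this.trans (le_of_eq ?_)
  congr 1
  unfold Sq
  simp only [Multiset.sum_cons, Multiset.sum_zero]
  ring

/-- one knot -/
theorem FW.one {r1 cap s bd : ℕ} {a0 a1 y0 y1 z0 z1 : ℝ} {jx : Bool → Bool → Bool → ℕ} {tabs : List (ℕ × ℕ)}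
    (h : FW [r1] [cap] s bd a0 a1 y0 y1 z0 z1 jx tabs) : FW [1, r1] [0, cap] s bd a0 a1 y0 y1 z0 z1 jx tabs := by
  have hp : prd [1, r1] = prd [r1] := by
    show 1 * (r1 * 1) = r1 * 1
    ring
  have hm : ∀ i, Ent.mk (CA.dig [1, r1] i) (kR [0, cap]) = Multiset.replicate 0 0 + Ent.mk (CA.dig [r1] i) (kR [cap]) := by
    intro i
    have e1 : CA.dig [1, r1] i = (i % 1) :: CA.dig [r1] (i / 1) := rfl
    rw [e1, Nat.mod_one, Nat.div_one]
    have e2 : Ent.mk (0 :: CA.dig [r1] i) (kR [0, cap])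
        = Multiset.replicate 0 (((0 : ℕ) : ℝ) / 200) + Ent.mk (CA.dig [r1] i) (kR [cap]) := rfl
    rw [e2, Multiset.replicate_zero, Multiset.replicate_zero]
  have hm' : ∀ i, Ent.mk (CA.dig [1, r1] i) (kR [0, cap]) = Ent.mk (CA.dig [r1] i) (kR [cap]) := by
    intro i
    rw [hm, Multiset.replicate_zero, zero_add]
  refine ⟨⟨h.fx.ln, fun ba bb bc i hi => ?_⟩, fun ba bb bc i hi => h.dT ba bb bc i (hp ▸ hi),
    fun ba bb bc i hi => h.dW ba bb bc i (hp ▸ hi), fun ba bb bc i hi => ?_⟩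
  · rw [hm']
    exact h.fx.F ba bb bc i (hp ▸ hi)
  · rw [hm']
    exact h.W ba bb bc i (hp ▸ hi)

/-! ### the packed comparison -/

/-- the digits of the nodes -/
def isn (r0 n0 m i : ℕ) : ℕ := if r0 ∣ i ∧ n0 < i / r0 ∧ i / r0 ≤ n0 + m then 1 else 0

/-- ones at the digits of the nodes -/
def on2 (r0 n0 m : ℕ) : ℕ :=
  frc (Nat.mul (nat_lit 64) r0) fun w => Nat.shiftLeft (Nat.div (Nat.sub (Nat.shiftLeft (nat_lit 1) (Nat.mul w m))
    (nat_lit 1)) (Nat.sub (Nat.shiftLeft (nat_lit 1) w) (nat_lit 1))) (Nat.mul w (Nat.succ n0))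

lemma on2_eq {r0 n0 m N : ℕ} (hr : 1 ≤ r0) (hN : r0 * (n0 + m) < N) : on2 r0 n0 m = pk (isn r0 n0 m) N := by
  have h1 : on2 r0 n0 m = ((2 ^ (64 * r0)) ^ m - 1) / (2 ^ (64 * r0) - 1) * (2 ^ (64 * r0)) ^ (n0 + 1) := by
    unfold on2
    rw [frc_eq]
    show ((1 <<< (64 * r0 * m) - 1) / (1 <<< (64 * r0) - 1)) <<< (64 * r0 * (n0 + 1)) = _
    rw [Nat.shiftLeft_eq, Nat.one_shiftLeft, Nat.one_shiftLeft, pow_mul 2 (64 * r0) m,
      pow_mul 2 (64 * r0) (n0 + 1)]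
  have h2 : (2 : ℕ) ≤ 2 ^ (64 * r0) := by
    calc (2 : ℕ) = 2 ^ 1 := by norm_num
      _ ≤ 2 ^ (64 * r0) := Nat.pow_le_pow_right (by norm_num) (by omega)
  rw [h1, ← Nat.geomSum_eq h2, Finset.sum_mul]
  unfold PkA.pk isn
  have h3 : ∀ i ∈ range N, (if r0 ∣ i ∧ n0 < i / r0 ∧ i / r0 ≤ n0 + m then 1 else 0) * 2 ^ (64 * i)
      = if r0 ∣ i ∧ n0 < i / r0 ∧ i / r0 ≤ n0 + m then 2 ^ (64 * i) else 0 := by
    intro i _
    split <;> simp
  rw [Finset.sum_congr rfl h3, ← Finset.sum_filter]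
  refine Finset.sum_nbij' (fun j => r0 * (n0 + 1 + j)) (fun i => i / r0 - (n0 + 1)) ?_ ?_ ?_ ?_ ?_
  · intro j hj
    rw [Finset.mem_range] at hj
    rw [Finset.mem_filter, Finset.mem_range, Nat.mul_div_cancel_left _ (by omega)]
    refine ⟨lt_of_le_of_lt (Nat.mul_le_mul_left _ (by omega)) hN, Dvd.intro _ rfl, by omega, by omega⟩
  · intro i hi
    rw [Finset.mem_filter] at hi
    rw [Finset.mem_range]
    omega
  · intro j _
    show r0 * (n0 + 1 + j) / r0 - (n0 + 1) = j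
    rw [Nat.mul_div_cancel_left _ (by omega)]
    omega
  · intro i hi
    rw [Finset.mem_filter] at hi
    show r0 * (n0 + 1 + (i / r0 - (n0 + 1))) = i
    rw [show n0 + 1 + (i / r0 - (n0 + 1)) = i / r0 by omega]
    exact Nat.mul_div_cancel' hi.2.1
  · intro j _
    rw [← pow_mul, ← pow_mul, ← pow_add]
    congr 1
    ring

/-- all the nodes of a corner: `K` mask of the digits, `H` bits 63, `D` margins -/
def nod (K H D T W : ℕ) : Bool :=
  Nat.beq (Nat.land (Nat.sub (Nat.add H (Nat.land W K)) (Nat.add (Nat.land T K) D)) H) H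

lemma land_mask {f : ℕ → ℕ} {N X : ℕ} (hf : ∀ i < N, f i = 0 ∨ f i = 1) :
    Nat.land X (Nat.mul 18446744073709551615 (pk f N)) = pk (fun i => f i * dg X i) N := by
  have e0 : Nat.mul 18446744073709551615 (pk f N) = pk (fun i => 18446744073709551615 * f i) N := pk_mul _ _ _
  have hlt : ∀ i < N, 18446744073709551615 * f i < 2 ^ 64 := by
    intro i hi
    rcases hf i hi with h | h <;> rw [h] <;> norm_num
  rw [e0]
  have hX : Nat.land X (PkA.pk (fun i => 18446744073709551615 * f i) N) < 2 ^ (64 * N) :=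
    lt_of_le_of_lt Nat.and_le_right (pk_lt _ _ hlt)
  refine eq_pk hX _ fun i hi => ?_
  rw [dg_land, dg_pk _ _ hlt i hi]
  rcases hf i hi with h | h
  · rw [h, Nat.mul_zero, Nat.zero_mul]
    exact Nat.and_zero _
  · rw [h, Nat.mul_one, Nat.one_mul]
    show dg X i &&& (2 ^ 64 - 1) = dg X i
    rw [Nat.and_two_pow_sub_one_eq_mod, Nat.mod_eq_of_lt (dg_lt X i)]

lemma nod_sound {f : ℕ → ℕ} {N T W sd : ℕ} (hf : ∀ i < N, f i = 0 ∨ f i = 1)
    (hT : ∀ i < N, dg T i + sd ≤ 2 ^ 63) (hW : ∀ i < N, dg W i < 2 ^ 63)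
    (h : nod (Nat.mul 18446744073709551615 (pk f N)) (Nat.mul 9223372036854775808 (pk f N)) (Nat.mul sd (pk f N))
      T W = true) : ∀ i < N, f i = 1 → dg T i + sd ≤ dg W i := by
  unfold nod at h
  have h := Nat.eq_of_beq_eq_true h
  rw [land_mask hf, land_mask hf] at h
  have e1 : Nat.mul 9223372036854775808 (pk f N) = pk (fun i => 9223372036854775808 * f i) N := pk_mul _ _ _
  have e2 : Nat.mul sd (pk f N) = pk (fun i => sd * f i) N := pk_mul _ _ _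
  rw [e1, e2] at h
  have e3 : Nat.sub (Nat.add (pk (fun i => 9223372036854775808 * f i) N) (pk (fun i => f i * dg W i) N))
      (Nat.add (pk (fun i => f i * dg T i) N) (pk (fun i => sd * f i) N))
      = pk (fun i => (9223372036854775808 * f i + f i * dg W i) - (f i * dg T i + sd * f i)) N := by
    show (pk (fun i => 9223372036854775808 * f i) N + pk (fun i => f i * dg W i) N)
      - (pk (fun i => f i * dg T i) N + pk (fun i => sd * f i) N) = _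
    rw [pk_add, pk_add, pk_sub]
    intro i hi
    rcases hf i hi with h0 | h0
    · simp [h0]
    · have := hT i hi
      rw [h0]
      omega
  rw [e3] at h
  have hz : ∀ i < N, (9223372036854775808 * f i + f i * dg W i) - (f i * dg T i + sd * f i) < 2 ^ 64 := by
    intro i hi
    have := hW i hi
    rcases hf i hi with h0 | h0
    · rw [h0]
      omega
    · rw [h0]
      omega
  have hh : ∀ i < N, 9223372036854775808 * f i < 2 ^ 64 := by
    intro i hi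
    rcases hf i hi with h0 | h0 <;> rw [h0] <;> norm_num
  intro i hi h1
  have h2 : dg _ i = dg _ i := congrArg (fun X => dg X i) h
  rw [dg_land, dg_pk _ _ hz i hi, dg_pk _ _ hh i hi, h1] at h2
  have h3 : (9223372036854775808 : ℕ) * 1 ≤ (9223372036854775808 * 1 + 1 * dg W i) - (1 * dg T i + sd * 1) :=
    le_trans (le_of_eq h2.symm) Nat.and_le_left
  have h4 := hT i hi
  omega

/-! ### the check -/

/-- one corner: the chord, the nodes -/
noncomputable def corP (iA iB wA wB sd K H D : ℕ) (T W : ℕ) : Bool :=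
  frc T fun T => frc W fun W =>
  cond (Nat.ble (Nat.add (Nat.add (Nat.mul wA (dg T iA)) (Nat.mul wB (dg T iB))) (Nat.mul sd (Nat.add wA wB)))
    (Nat.add (Nat.mul wA (dg W iA)) (Nat.mul wB (dg W iB)))) (nod K H D T W) false

/-- all the corners -/
noncomputable def evp (f : ℕ → ℕ → Bool) (tabs : List (ℕ × ℕ)) : Bool :=
  @List.rec (ℕ × ℕ) (fun _ => Bool) true (fun t _ ih => cond (f t.1 t.2) ih false) tabs

lemma evp_sound {f : ℕ → ℕ → Bool} : ∀ {tabs : List (ℕ × ℕ)}, evp f tabs = true →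
    ∀ q < tabs.length, f (tabs.getD q (0, 0)).1 (tabs.getD q (0, 0)).2 = true := by
  intro tabs
  induction tabs with
  | nil => intro _ q hq; exact absurd hq (Nat.not_lt_zero q)
  | cons t tabs ih =>
    intro h q hq
    have h' : cond (f t.1 t.2) (evp f tabs) false = true := h
    obtain ⟨h1, h2⟩ := cond_eq_true h'
    cases q with
    | zero => simpa using h1
    | succ q =>
      have := ih h2 q (by simpa using hq)
      simpa using this

/-- THE PACKED CHECK of a heavy row.  Table: radices `[r0, r1]`, knots `[kp, cap]` (unit `1 / 200`); `n0`, `md` start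
of the chord; `S` the first sum (unit `1 / 400`); `d` the margin (unit `1e-7`); `Q` the last node; `k0`, `a` the far
window; `pay`: the margin of `1/2` is checked too; borders of the special entries in `1 / 400`; `bd` bound of the
digits. -/
noncomputable def starP (r0 r1 kp cap n0 md S d Q k0 a : ℕ) (pay : Bool) (u0 u1 v0 v1 w0 w1 : ℕ)
    (s bd : ℕ) (tabs : List (ℕ × ℕ)) : Bool :=
  frc (Nat.mul (nat_lit 2) cap) fun c2 => frc (Nat.add (Nat.add u0 v0) w0) fun lo =>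
  frc (Nat.add (Nat.add u1 v1) w1) fun hi => frc (Nat.mul s d) fun sd =>
  cond (Nat.ble (nat_lit 1) cap) (cond (Nat.ble cap (nat_lit 200)) (cond (Nat.ble kp cap)
  (cond (Nat.ble (Nat.succ n0) Q) (cond (Nat.ble (Nat.succ Q) r1)
  (cond (Nat.ble (Nat.add hi S) (Nat.mul (nat_lit 8) k0)) (cond (Nat.ble (Nat.succ hi) (Nat.mul (nat_lit 8) k0))
  (cond (Nat.ble (Nat.add (Nat.mul (nat_lit 8) k0) c2) (Nat.add lo (Nat.mul c2 Q)))
  (cond (Nat.ble (Nat.add (Nat.succ bd) sd) (nat_lit 9223372036854775808))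
  (cond (Nat.ble (Nat.add (Nat.add (fln c2 u0 u1) (fln c2 v0 v1)) (fln c2 w0 w1)) (Nat.mul (nat_lit 4) a))
  (cond (farC k0 a) (cond (Nat.ble (nat_lit 120) (Nat.add lo S))
  (cond (cond pay (Nat.ble (Nat.mul (nat_lit 8) (Nat.add (nat_lit 5000000) d)) (w8d (Nat.add lo S))) true)
  (stg r0 kp c2 n0 md fun iA iB pA pB =>
    cond (Nat.ble pA S) (cond (Nat.ble S pB) (cond (Nat.ble (Nat.succ pA) pB)
    (frc (Nat.sub pB S) fun wA => frc (Nat.sub S pA) fun wB => frc (on2 r0 n0 (Nat.sub Q n0)) fun O =>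
      frc (Nat.mul (nat_lit 18446744073709551615) O) fun K => frc (Nat.mul (nat_lit 9223372036854775808) O) fun H =>
      frc (Nat.mul sd O) fun D => evp (corP iA iB wA wB sd K H D) tabs) false) false) false)
  false) false) false) false) false) false) false) false) false) false) false) false) false

/-- the row value of a digit -/
lemma row_digW {r0 r1 kp cap s bd : ℕ} {a0 a1 y0 y1 z0 z1 : ℝ} {jx : Bool → Bool → Bool → ℕ} {tabs : List (ℕ × ℕ)}
    (h : FW [r0, r1] [kp, cap] s bd a0 a1 y0 y1 z0 z1 jx tabs) (ba bb bc : Bool) (m n : ℕ) (hm : m < r0)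
    (hn : n < r1) : (dg (tabs.getD (jx ba bb bc) (0, 0)).2 (m + r0 * n) : ℝ) / (s * 10 ^ 7)
      ≤ WD.Wd (ed a0 a1 ba + ed y0 y1 bb + ed z0 z1 bc + (m * ((kp : ℝ) / 200) + n * ((cap : ℝ) / 200))) := by
  have hok : CA.OkD [r0, r1] [m, n] := List.Forall₂.cons hm (List.Forall₂.cons hn List.Forall₂.nil)
  have h1 := h.W ba bb bc _ (idx_lt _ _ hok)
  rw [CA.dig_idx _ _ hok] at h1
  have e1 : CA.idx [r0, r1] [m, n] = m + r0 * n := by
    show m + r0 * (n + r1 * 0) = _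
    ring
  rw [e1] at h1
  refine h1.trans (le_of_eq ?_)
  congr 2
  have e2 : Ent.mk [m, n] (kR [kp, cap]) = Multiset.replicate m ((kp : ℝ) / 200)
      + (Multiset.replicate n ((cap : ℝ) / 200) + 0) := rfl
  rw [e2, Multiset.sum_add, Multiset.sum_add, Multiset.sum_replicate, Multiset.sum_replicate, Multiset.sum_zero,
    nsmul_eq_mul, nsmul_eq_mul]
  ring

/-- an end point at a corner, packed -/
lemma ptP_le {r0 r1 kp cap s bd n0 i p : ℕ} {a0 a1 y0 y1 z0 z1 : ℝ} {jx : Bool → Bool → Bool → ℕ}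
    {tabs : List (ℕ × ℕ)} (h : FW [r0, r1] [kp, cap] s bd a0 a1 y0 y1 z0 z1 jx tabs) (ba bb bc : Bool)
    (hp : Pt r0 kp (2 * cap) n0 i p) (hn : n0 + 1 < r1) :
    D4 ((cap : ℝ) / 200) n0 (ed a0 a1 ba) (ed y0 y1 bb) (ed z0 z1 bc) (((p : ℝ) - (2 * cap : ℕ) * n0) / 400)
      ≤ (dg (tabs.getD (jx ba bb bc) (0, 0)).1 i : ℝ) / (s * 10 ^ 7)
        - (dg (tabs.getD (jx ba bb bc) (0, 0)).2 i : ℝ) / (s * 10 ^ 7) := by
  have hF := pt_F h.fx ba bb bc hp hn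
  have hW : (dg (tabs.getD (jx ba bb bc) (0, 0)).2 i : ℝ) / (s * 10 ^ 7)
      ≤ WD.Wd (ed a0 a1 ba + ed y0 y1 bb + ed z0 z1 bc + ((p : ℝ) - (2 * cap : ℕ) * n0) / 400
        + n0 * ((cap : ℝ) / 200)) := by
    rcases hp with ⟨r, rfl, rfl⟩ | ⟨r, rfl, rfl⟩ | ⟨r, rfl, rfl⟩
    · have h1 := row_digW h ba bb bc 0 n0 r (by omega)
      rw [zero_add] at h1
      refine h1.trans (le_of_eq ?_)
      congr 1
      push_cast
      ring
    · have h1 := row_digW h ba bb bc 1 n0 (by omega) (by omega)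
      rw [show 1 + r0 * n0 = r0 * n0 + 1 by ring] at h1
      refine h1.trans (le_of_eq ?_)
      congr 1
      push_cast
      ring
    · have h1 := row_digW h ba bb bc 0 (n0 + 1) r (by omega)
      rw [zero_add] at h1
      refine h1.trans (le_of_eq ?_)
      congr 1
      push_cast
      ring
  unfold D4
  linarith

/-- **THE PACKED CHECK OF A HEAVY ROW, soundness.** -/
theorem starP_sound {r0 r1 kp cap n0 md S d Q k0 a : ℕ} {pay : Bool} {u0 u1 v0 v1 w0 w1 : ℕ}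
    {s bd : ℕ} {tabs : List (ℕ × ℕ)} {jx : Bool → Bool → Bool → ℕ} (hs : 0 < s)
    (hX : FW [r0, r1] [kp, cap] s bd ((u0 : ℝ) / 400) ((u1 : ℝ) / 400) ((v0 : ℝ) / 400) ((v1 : ℝ) / 400)
      ((w0 : ℝ) / 400) ((w1 : ℝ) / 400) jx tabs)
    (hB : Bx ((u0 : ℝ) / 400) ((u1 : ℝ) / 400) ((v0 : ℝ) / 400) ((v1 : ℝ) / 400) ((w0 : ℝ) / 400) ((w1 : ℝ) / 400))
    (h : starP r0 r1 kp cap n0 md S d Q k0 a pay u0 u1 v0 v1 w0 w1 s bd tabs = true) :
    StarR ((cap : ℝ) / 200) ((S : ℝ) / 400) ((d : ℝ) / 10 ^ 7) pay ((u0 : ℝ) / 400) ((u1 : ℝ) / 400)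
      ((v0 : ℝ) / 400) ((v1 : ℝ) / 400) ((w0 : ℝ) / 400) ((w1 : ℝ) / 400) := by
  unfold starP at h
  rw [frc_eq, frc_eq, frc_eq, frc_eq] at h
  obtain ⟨c1, h⟩ := cond_eq_true h
  obtain ⟨c2, h⟩ := cond_eq_true h
  obtain ⟨c3, h⟩ := cond_eq_true h
  obtain ⟨c4, h⟩ := cond_eq_true h
  obtain ⟨c5, h⟩ := cond_eq_true h
  obtain ⟨c6, h⟩ := cond_eq_true h
  obtain ⟨c7, h⟩ := cond_eq_true h
  obtain ⟨c8, h⟩ := cond_eq_true h
  obtain ⟨c9, h⟩ := cond_eq_true h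
  obtain ⟨c10, h⟩ := cond_eq_true h
  obtain ⟨c11, h⟩ := cond_eq_true h
  obtain ⟨c16, h⟩ := cond_eq_true h
  obtain ⟨c12, h⟩ := cond_eq_true h
  obtain ⟨iA, iB, pA, pB, h, hA, hBp⟩ := stg_sound h
  obtain ⟨c13, h⟩ := cond_eq_true h
  obtain ⟨c14, h⟩ := cond_eq_true h
  obtain ⟨c15, h⟩ := cond_eq_true h
  rw [frc_eq, frc_eq, frc_eq, frc_eq, frc_eq, frc_eq] at h
  have c1 : 1 ≤ cap := Nat.le_of_ble_eq_true c1
  have c2 : cap ≤ 200 := Nat.le_of_ble_eq_true c2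
  have c3 : kp ≤ cap := Nat.le_of_ble_eq_true c3
  have c4 : n0 + 1 ≤ Q := Nat.le_of_ble_eq_true c4
  have c5 : Q + 1 ≤ r1 := Nat.le_of_ble_eq_true c5
  have c6 : u1 + v1 + w1 + S ≤ 8 * k0 := Nat.le_of_ble_eq_true c6
  have c7 : u1 + v1 + w1 + 1 ≤ 8 * k0 := Nat.le_of_ble_eq_true c7
  have c8 : 8 * k0 + 2 * cap ≤ u0 + v0 + w0 + 2 * cap * Q := Nat.le_of_ble_eq_true c8
  have c9 : bd + 1 + s * d ≤ 9223372036854775808 := Nat.le_of_ble_eq_true c9
  have c10 : fln (2 * cap) u0 u1 + fln (2 * cap) v0 v1 + fln (2 * cap) w0 w1 ≤ 4 * a := Nat.le_of_ble_eq_true c10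
  have c13 : pA ≤ S := Nat.le_of_ble_eq_true c13
  have c14 : S ≤ pB := Nat.le_of_ble_eq_true c14
  have c15 : pA + 1 ≤ pB := Nat.le_of_ble_eq_true c15
  have c16 : 120 ≤ u0 + v0 + w0 + S := Nat.le_of_ble_eq_true c16
  obtain ⟨hk0, hfar⟩ := farC_sound c11
  have hsR : (0 : ℝ) < s := by exact_mod_cast hs
  have hcapR : (1 : ℝ) ≤ cap := by exact_mod_cast c1
  have hcapR2 : (cap : ℝ) ≤ 200 := by exact_mod_cast c2
  have hκ0 : (0 : ℝ) < (cap : ℝ) / 200 := by positivity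
  have hκ1 : (cap : ℝ) / 200 ≤ 1 := by
    rw [div_le_one (by norm_num)]
    exact hcapR2
  -- positions
  have pos : ∀ {i p : ℕ}, Pt r0 kp (2 * cap) n0 i p → 2 * cap * n0 ≤ p ∧ p ≤ 2 * cap * n0 + 2 * cap := by
    intro i p hp
    rcases hp with ⟨-, -, rfl⟩ | ⟨-, -, rfl⟩ | ⟨-, -, rfl⟩ <;> omega
  obtain ⟨qA, qA'⟩ := pos hA
  obtain ⟨qB, qB'⟩ := pos hBp
  -- the corners
  have hr1 : 1 ≤ r0 := by
    rcases hA with ⟨h1, -, -⟩ | ⟨h1, -, -⟩ | ⟨h1, -, -⟩ <;> omega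
  have hcor := fun ba bb bc => evp_sound h (jx ba bb bc) (hX.fx.ln ba bb bc)
  have e01 : ∀ (ba bb bc : Bool), (0 ≤ ed ((u0 : ℝ) / 400) ((u1 : ℝ) / 400) ba ∧ ed ((u0 : ℝ) / 400) ((u1 : ℝ) / 400) ba ≤ 1)
      ∧ (0 ≤ ed ((v0 : ℝ) / 400) ((v1 : ℝ) / 400) bb ∧ ed ((v0 : ℝ) / 400) ((v1 : ℝ) / 400) bb ≤ 1)
      ∧ (0 ≤ ed ((w0 : ℝ) / 400) ((w1 : ℝ) / 400) bc ∧ ed ((w0 : ℝ) / 400) ((w1 : ℝ) / 400) bc ≤ 1) := by
    have key : ∀ {a b : ℝ}, 0 ≤ a → a ≤ b → b ≤ 1 → ∀ q : Bool, 0 ≤ ed a b q ∧ ed a b q ≤ 1 := by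
      intro a b h0 h1 h2 q
      cases q
      · exact ⟨h0, h1.trans h2⟩
      · exact ⟨h0.trans h1, h2⟩
    intro ba bb bc
    exact ⟨key hB.la hB.ma hB.ua ba, key hB.ly hB.my hB.uy bb, key hB.lz hB.mz hB.uz bc⟩
  have hcapn : ((2 * cap : ℕ) : ℝ) = 2 * cap := by push_cast; ring
  have qAR : ((2 * cap : ℕ) : ℝ) * n0 ≤ pA := by exact_mod_cast qA
  have qBR : (pB : ℝ) ≤ ((2 * cap : ℕ) : ℝ) * n0 + (2 * cap : ℕ) := by exact_mod_cast qB'
  have c13R : (pA : ℝ) ≤ S := by exact_mod_cast c13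
  have c14R : (S : ℝ) ≤ pB := by exact_mod_cast c14
  have c15R : (pA : ℝ) + 1 ≤ pB := by exact_mod_cast c15
  have hprd : prd [r0, r1] = r0 * r1 := by
    show r0 * (r1 * 1) = _
    ring
  refine star_real (x0 := ((S : ℝ) - (2 * cap : ℕ) * n0) / 400) (T0 := (k0 : ℝ) / 50) (sm := (a : ℝ) / 100)
    (n0 := n0) (Q := Q) hκ0 hκ1 (by positivity) hB (by linarith) (by omega) ?_ ?_ ?_ hfar ?_ ?_ ?_ ?_ ?_ ?_ ?_
  · push_cast
    ring
  · -- the chord
    intro ba bb bc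
    have h1 := hcor ba bb bc
    unfold corP at h1
    rw [frc_eq, frc_eq] at h1
    obtain ⟨h2, -⟩ := cond_eq_true h1
    have h2 := Nat.le_of_ble_eq_true h2
    have fA := ptP_le hX ba bb bc hA (by omega)
    have fB := ptP_le hX ba bb bc hBp (by omega)
    obtain ⟨g1, g2, g3⟩ := e01 ba bb bc
    have hch := D4_chord (κ := (cap : ℝ) / 200) hκ0.le hκ1 g1 g2 g3
      (xA := ((pA : ℝ) - (2 * cap : ℕ) * n0) / 400) (xB := ((pB : ℝ) - (2 * cap : ℕ) * n0) / 400)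
      (x := ((S : ℝ) - (2 * cap : ℕ) * n0) / 400) (by linarith) (by rw [hcapn] at *; linarith) (by linarith)
      (by linarith) n0
    have e1 : ((pB : ℝ) - (2 * cap : ℕ) * n0) / 400 - ((pA : ℝ) - (2 * cap : ℕ) * n0) / 400 = ((pB : ℝ) - pA) / 400 := by ring
    have e2 : ((pB : ℝ) - (2 * cap : ℕ) * n0) / 400 - ((S : ℝ) - (2 * cap : ℕ) * n0) / 400 = ((pB : ℝ) - S) / 400 := by ring
    have e3 : ((S : ℝ) - (2 * cap : ℕ) * n0) / 400 - ((pA : ℝ) - (2 * cap : ℕ) * n0) / 400 = ((S : ℝ) - pA) / 400 := by ring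
    rw [e1, e2, e3] at hch
    generalize dg (tabs.getD (jx ba bb bc) (0, 0)).1 iA = FA at h2 fA
    generalize dg (tabs.getD (jx ba bb bc) (0, 0)).1 iB = FB at h2 fB
    generalize dg (tabs.getD (jx ba bb bc) (0, 0)).2 iA = WA at h2 fA
    generalize dg (tabs.getD (jx ba bb bc) (0, 0)).2 iB = WB at h2 fB
    generalize D4 ((cap : ℝ) / 200) n0 (ed ((u0 : ℝ) / 400) ((u1 : ℝ) / 400) ba) (ed ((v0 : ℝ) / 400) ((v1 : ℝ) / 400) bb)
      (ed ((w0 : ℝ) / 400) ((w1 : ℝ) / 400) bc) (((pA : ℝ) - (2 * cap : ℕ) * n0) / 400) = DA at fA hch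
    generalize D4 ((cap : ℝ) / 200) n0 (ed ((u0 : ℝ) / 400) ((u1 : ℝ) / 400) ba) (ed ((v0 : ℝ) / 400) ((v1 : ℝ) / 400) bb)
      (ed ((w0 : ℝ) / 400) ((w1 : ℝ) / 400) bc) (((pB : ℝ) - (2 * cap : ℕ) * n0) / 400) = DB at fB hch
    generalize D4 ((cap : ℝ) / 200) n0 (ed ((u0 : ℝ) / 400) ((u1 : ℝ) / 400) ba) (ed ((v0 : ℝ) / 400) ((v1 : ℝ) / 400) bb)
      (ed ((w0 : ℝ) / 400) ((w1 : ℝ) / 400) bc) (((S : ℝ) - (2 * cap : ℕ) * n0) / 400) = DS at hch ⊢
    have h3 : (pB - S) * FA + (S - pA) * FB + s * d * ((pB - S) + (S - pA)) ≤ (pB - S) * WA + (S - pA) * WB := h2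
    have h4 : ((pB : ℝ) - S) * FA + ((S : ℝ) - pA) * FB + s * d * (((pB : ℝ) - S) + ((S : ℝ) - pA))
        ≤ ((pB : ℝ) - S) * WA + ((S : ℝ) - pA) * WB := by
      have := (Nat.cast_le (α := ℝ)).mpr h3
      push_cast [Nat.cast_sub c13, Nat.cast_sub c14] at this
      exact this
    have w1' : 0 ≤ ((pB : ℝ) - S) / 400 := by linarith
    have w2' : 0 ≤ ((S : ℝ) - pA) / 400 := by linarith
    have m1 := mul_le_mul_of_nonneg_left fA w1'
    have m2 := mul_le_mul_of_nonneg_left fB w2'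
    have h5 : ((pB : ℝ) - S) / 400 * ((FA : ℝ) / (s * 10 ^ 7) - (WA : ℝ) / (s * 10 ^ 7))
        + ((S : ℝ) - pA) / 400 * ((FB : ℝ) / (s * 10 ^ 7) - (WB : ℝ) / (s * 10 ^ 7))
        ≤ -((d : ℝ) / 10 ^ 7) * (((pB : ℝ) - pA) / 400) := by
      have e6 : ((pB : ℝ) - S) / 400 * ((FA : ℝ) / (s * 10 ^ 7) - (WA : ℝ) / (s * 10 ^ 7))
          + ((S : ℝ) - pA) / 400 * ((FB : ℝ) / (s * 10 ^ 7) - (WB : ℝ) / (s * 10 ^ 7))
          = ((((pB : ℝ) - S) * FA + ((S : ℝ) - pA) * FB) - (((pB : ℝ) - S) * WA + ((S : ℝ) - pA) * WB))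
            / (4000000000 * s) := by
        field_simp
        ring
      have e7 : -((d : ℝ) / 10 ^ 7) * (((pB : ℝ) - pA) / 400)
          = -(s * d * (((pB : ℝ) - S) + ((S : ℝ) - pA))) / (4000000000 * s) := by
        field_simp
        ring
      rw [e6, e7]
      exact div_le_div_of_nonneg_right (by linarith) (by positivity)
    have h6 : ((pB : ℝ) - pA) / 400 * DS ≤ ((pB : ℝ) - pA) / 400 * -((d : ℝ) / 10 ^ 7) := by linarith
    exact le_of_mul_le_mul_left h6 (by linarith)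
  · -- the nodes
    intro n hn hnQ ba bb bc
    have h1 := hcor ba bb bc
    unfold corP at h1
    rw [frc_eq, frc_eq] at h1
    obtain ⟨-, h2⟩ := cond_eq_true h1
    have hlt : r0 * (n0 + Nat.sub Q n0) < r0 * r1 := by
      have e : n0 + Nat.sub Q n0 = Q := by
        show n0 + (Q - n0) = Q
        omega
      rw [e]
      exact Nat.mul_lt_mul_of_pos_left (by omega) (by omega)
    rw [on2_eq hr1 hlt] at h2
    have hi : r0 * n < r0 * r1 := Nat.mul_lt_mul_of_pos_left (by omega) (by omega)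
    have h3 := nod_sound (N := r0 * r1) (fun i _ => by unfold isn; split <;> simp) (fun i hi => by
      have := hX.dT ba bb bc i (by rw [hprd]; exact hi)
      show _ + s * d ≤ _
      omega) (fun i hi => by
      have := hX.dW ba bb bc i (by rw [hprd]; exact hi)
      omega) h2 (r0 * n) hi (by
      unfold isn
      rw [if_pos]
      rw [Nat.mul_div_cancel_left _ (by omega)]
      refine ⟨Dvd.intro _ rfl, hn, ?_⟩
      show n ≤ n0 + (Q - n0)
      omega)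
    have hF := row_dig hX.fx ba bb bc 0 n (by omega) (by omega)
    rw [zero_add] at hF
    have hW := row_digW hX ba bb bc 0 n (by omega) (by omega)
    rw [zero_add, Nat.cast_zero, zero_mul, zero_add] at hW
    unfold D4
    have e2 : (1 : ℝ) ::ₘ ed ((u0 : ℝ) / 400) ((u1 : ℝ) / 400) ba ::ₘ ed ((v0 : ℝ) / 400) ((v1 : ℝ) / 400) bb
        ::ₘ ed ((w0 : ℝ) / 400) ((w1 : ℝ) / 400) bc ::ₘ (0 : ℝ) ::ₘ Multiset.replicate n ((cap : ℝ) / 200)
        = Multiset.replicate 1 0 + (1 ::ₘ ed ((u0 : ℝ) / 400) ((u1 : ℝ) / 400) ba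
          ::ₘ ed ((v0 : ℝ) / 400) ((v1 : ℝ) / 400) bb ::ₘ ed ((w0 : ℝ) / 400) ((w1 : ℝ) / 400) bc
          ::ₘ (Multiset.replicate 0 ((kp : ℝ) / 200) + Multiset.replicate n ((cap : ℝ) / 200))) := by
      rw [Multiset.replicate_one, Multiset.replicate_zero]
      simp only [← Multiset.singleton_add]
      abel
    have e3 : ed ((u0 : ℝ) / 400) ((u1 : ℝ) / 400) ba + ed ((v0 : ℝ) / 400) ((v1 : ℝ) / 400) bb
        + ed ((w0 : ℝ) / 400) ((w1 : ℝ) / 400) bc + 0 + (n : ℝ) * ((cap : ℝ) / 200)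
        = ed ((u0 : ℝ) / 400) ((u1 : ℝ) / 400) ba + ed ((v0 : ℝ) / 400) ((v1 : ℝ) / 400) bb
        + ed ((w0 : ℝ) / 400) ((w1 : ℝ) / 400) bc + (n : ℝ) * ((cap : ℝ) / 200) := by ring
    rw [e2, FM_zero_add, e3]
    generalize dg (tabs.getD (jx ba bb bc) (0, 0)).1 (r0 * n) = F at h3 hF
    generalize dg (tabs.getD (jx ba bb bc) (0, 0)).2 (r0 * n) = W at h3 hW
    have h3 : F + s * d ≤ W := h3
    have h4 : (F : ℝ) + s * d ≤ W := by exact_mod_cast h3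
    have h5 : (F : ℝ) / (s * 10 ^ 7) - (W : ℝ) / (s * 10 ^ 7) ≤ -((d : ℝ) / 10 ^ 7) := by
      have e6 : (F : ℝ) / (s * 10 ^ 7) - (W : ℝ) / (s * 10 ^ 7) = (F - W) / (10000000 * s) := by
        field_simp
        ring
      have e7 : -((d : ℝ) / 10 ^ 7) = -(s * d) / (10000000 * s) := by
        field_simp
        ring
      rw [e6, e7]
      exact div_le_div_of_nonneg_right (by linarith) (by positivity)
    linarith
  · have : (k0 : ℝ) ≤ 750 := by exact_mod_cast hk0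
    linarith
  · have : (u1 : ℝ) + v1 + w1 + S ≤ 8 * k0 := by exact_mod_cast c6
    linarith
  · have : (u1 : ℝ) + v1 + w1 + 1 ≤ 8 * k0 := by exact_mod_cast c7
    linarith
  · have : (120 : ℝ) ≤ u0 + v0 + w0 + S := by exact_mod_cast c16
    linarith
  · have : (8 : ℝ) * k0 + 2 * cap ≤ u0 + v0 + w0 + 2 * cap * Q := by exact_mod_cast c8
    linarith
  · have : ((fln (2 * cap) u0 u1 : ℝ) + fln (2 * cap) v0 v1 + fln (2 * cap) w0 w1) ≤ 4 * a := by exact_mod_cast c10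
    rw [← fln_eq, ← fln_eq, ← fln_eq]
    linarith
  · intro hp
    rw [hp, cond_true] at c12
    have c12 : 8 * (5000000 + d) ≤ w8d (u0 + v0 + w0 + S) := Nat.le_of_ble_eq_true c12
    have le4 : ∀ {x y : ℕ}, (x : ℝ) / 400 ≤ (y : ℝ) / 400 → x ≤ y := by
      intro x y hxy
      have h1 := (div_le_div_iff_of_pos_right (by norm_num : (0 : ℝ) < 400)).mp hxy
      exact_mod_cast h1
    have mu := le4 hB.ma
    have mv := le4 hB.my
    have mw := le4 hB.mz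
    have hW := w8d_eq (u0 + v0 + w0 + S) (by omega) (by omega)
    have e1 : (u0 : ℝ) / 400 + (v0 : ℝ) / 400 + (w0 : ℝ) / 400 + (S : ℝ) / 400 = ((u0 + v0 + w0 + S : ℕ) : ℝ) / 400 := by
      push_cast
      ring
    rw [e1, ← hW]
    have c12R : (8 : ℝ) * (5000000 + d) ≤ w8d (u0 + v0 + w0 + S) := by exact_mod_cast c12
    rw [le_div_iff₀ (by norm_num)]
    linarith

end SStar
end Pool.Agent.Lib.MP_6947cd_al
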