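import Pool.Agent.Lib.MP_6947cd_al.C.Grd
import Pool.Agent.Lib.MP_6947cd_al.C.SStar2
import Pool.Agent.Lib.MP_6947cd_al.C.LeafD

/-!
Problem MP_6947cd_al (Chollet).  HEAVY ROWS AND ZONE 2 of a leaf from families of tables; the tail of the row `i` of
case C.
-/

set_option autoImplicit false
open Finset

namespace Pool.Agent.Lib.MP_6947cd_al
namespace SStar

open Ent Ent.Pk Fr Fr.WT CC PkA B1 B2

/-! ### monotonicity -/

theorem StarR.mono {κ κ' S S' d d' : ℝ} {pay : Bool} {a0 a1 y0 y1 z0 z1 : ℝ} (h : StarR κ S d pay a0 a1 y0 y1 z0 z1)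
    (hκ : κ' ≤ κ) (hS : S ≤ S') (hd : d' ≤ d) : StarR κ' S' d' pay a0 a1 y0 y1 z0 z1 := by
  intro a y z M h1 h2 h3 h4 h5 h6 hM hs
  obtain ⟨q1, q2⟩ := h a y z M h1 h2 h3 h4 h5 h6 (fun e he => ⟨(hM e he).1, (hM e he).2.trans hκ⟩) (hS.trans hs)
  exact ⟨by linarith, fun hp => by linarith [q2 hp]⟩

theorem StarR.sub {κ S d : ℝ} {pay : Bool} {a0 a1 y0 y1 z0 z1 b0 b1 x0 x1 w0 w1 : ℝ}
    (h : StarR κ S d pay a0 a1 y0 y1 z0 z1) (h1 : a0 ≤ b0) (h2 : b1 ≤ a1) (h3 : y0 ≤ x0) (h4 : x1 ≤ y1)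
    (h5 : z0 ≤ w0) (h6 : w1 ≤ z1) : StarR κ S d pay b0 b1 x0 x1 w0 w1 :=
  fun a y z M q1 q2 q3 q4 q5 q6 => h a y z M (h1.trans q1) (q2.trans h2) (h3.trans q3) (q4.trans h4) (h5.trans q5)
    (q6.trans h6)

/-! ### the knots of a family -/

/-- one or two knots -/
noncomputable def kn2 (rd ks : List ℕ) (K : ℕ → ℕ → ℕ → ℕ → Bool) : Bool :=
  @List.rec ℕ (fun _ => Bool) false (fun r0 rd' _ => @List.rec ℕ (fun _ => Bool) false (fun k0 ks' _ =>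
    @List.rec ℕ (fun _ => Bool)
      (@List.rec ℕ (fun _ => Bool) (K (nat_lit 1) r0 (nat_lit 0) k0) (fun _ _ _ => false) ks')
      (fun r1 rd'' _ => @List.rec ℕ (fun _ => Bool)
        (@List.rec ℕ (fun _ => Bool) false (fun k1 ks'' _ =>
          @List.rec ℕ (fun _ => Bool) (K r0 r1 k0 k1) (fun _ _ _ => false) ks'') ks')
        (fun _ _ _ => false) rd'') rd') ks) rd

lemma kn2_sound {rd ks : List ℕ} {K : ℕ → ℕ → ℕ → ℕ → Bool} (h : kn2 rd ks K = true) :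
    ∃ r0 r1 kp cap, K r0 r1 kp cap = true ∧ ∀ (s bd : ℕ) (a0 a1 y0 y1 z0 z1 : ℝ) (jx : Bool → Bool → Bool → ℕ)
      (tabs : List (ℕ × ℕ)), FW rd ks s bd a0 a1 y0 y1 z0 z1 jx tabs →
        FW [r0, r1] [kp, cap] s bd a0 a1 y0 y1 z0 z1 jx tabs := by
  rcases rd with _ | ⟨r0, rd'⟩
  · exact Bool.noConfusion h
  rcases ks with _ | ⟨k0, ks'⟩
  · exact Bool.noConfusion h
  rcases rd' with _ | ⟨r1, rd''⟩
  · rcases ks' with _ | ⟨k1, ks''⟩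
    · exact ⟨1, r0, 0, k0, h, fun s bd a0 a1 y0 y1 z0 z1 jx tabs hF => hF.one⟩
    · exact Bool.noConfusion h
  rcases rd'' with _ | ⟨r2, rd'''⟩
  · rcases ks' with _ | ⟨k1, ks''⟩
    · exact Bool.noConfusion h
    rcases ks'' with _ | ⟨k2, ks'''⟩
    · exact ⟨r0, r1, k0, k1, h, fun s bd a0 a1 y0 y1 z0 z1 jx tabs hF => hF⟩
    · exact Bool.noConfusion h
  · exact Bool.noConfusion h

/-- the piece of a sum: number of full entries, kind of the chord -/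
noncomputable def pcS (r0 kp c2 S : ℕ) (K : ℕ → ℕ → Bool) : Bool :=
  frc (Nat.div S c2) fun n0 => frc (Nat.sub S (Nat.mul c2 n0)) fun r =>
    frc (cond (Nat.ble r0 (nat_lit 1)) (nat_lit 0) (cond (Nat.ble r (Nat.mul (nat_lit 2) kp)) (nat_lit 1) (nat_lit 2)))
      fun md => K n0 md

lemma pcS_sound {r0 kp c2 S : ℕ} {K : ℕ → ℕ → Bool} (h : pcS r0 kp c2 S K = true) : ∃ n0 md, K n0 md = true := by
  unfold pcS at h
  rw [frc_eq, frc_eq, frc_eq] at h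
  exact ⟨_, _, h⟩

/-! ### heavy rows -/

/-- the check of a heavy row from the tables at the corners (first the packed check, then the exact one); `S` in
`1 / 400` -/
noncomputable def starS (rd ks : List ℕ) (cap S d Q k0 a : ℕ) (pay : Bool) (u0 u1 v0 v1 w0 w1 : ℕ) (us : List ℕ)
    (s bd : ℕ) (tabs : List (ℕ × ℕ)) : Bool :=
  kn2 rd ks fun r0 r1 kp cp => cond (Nat.beq cp cap)
    (pcS r0 kp (Nat.mul (nat_lit 2) cp) S fun n0 md =>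
      cond (starP r0 r1 kp cp n0 md S d Q k0 a pay u0 u1 v0 v1 w0 w1 s bd tabs) true
        (starK r0 r1 kp cp n0 md S d Q k0 a pay u0 u1 v0 v1 w0 w1 us s tabs)) false

theorem starS_sound {rd ks : List ℕ} {cap S d Q k0 a : ℕ} {pay : Bool} {u0 u1 v0 v1 w0 w1 : ℕ} {us : List ℕ}
    {s bd : ℕ} {tabs : List (ℕ × ℕ)} {jx : Bool → Bool → Bool → ℕ} (hs : 0 < s)
    (hX : FW rd ks s bd ((u0 : ℝ) / 400) ((u1 : ℝ) / 400) ((v0 : ℝ) / 400) ((v1 : ℝ) / 400)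
      ((w0 : ℝ) / 400) ((w1 : ℝ) / 400) jx tabs)
    (hB : Bx ((u0 : ℝ) / 400) ((u1 : ℝ) / 400) ((v0 : ℝ) / 400) ((v1 : ℝ) / 400) ((w0 : ℝ) / 400) ((w1 : ℝ) / 400))
    (hus : ∀ ba bb bc, us.getD (jx ba bb bc) 0 = eN u0 u1 ba + eN v0 v1 bb + eN w0 w1 bc)
    (h : starS rd ks cap S d Q k0 a pay u0 u1 v0 v1 w0 w1 us s bd tabs = true) :
    StarR ((cap : ℝ) / 200) ((S : ℝ) / 400) ((d : ℝ) / 10 ^ 7) pay ((u0 : ℝ) / 400) ((u1 : ℝ) / 400)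
      ((v0 : ℝ) / 400) ((v1 : ℝ) / 400) ((w0 : ℝ) / 400) ((w1 : ℝ) / 400) := by
  obtain ⟨r0, r1, kp, cp, h1, hF⟩ := kn2_sound h
  obtain ⟨hc, h2⟩ := cond_eq_true h1
  have hc' : cp = cap := Nat.eq_of_beq_eq_true hc
  obtain ⟨n0, md, h3⟩ := pcS_sound h2
  have hX' := hF _ _ _ _ _ _ _ _ _ _ hX
  rw [← hc']
  rcases C1.cond_or h3 with h4 | h4
  · exact starP_sound hs hX' hB h4
  · exact starK_sound hs hX'.fx hB hus h4

/-! ### zone 2 -/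

/-- the check of zone 2 from the tables at the corners; `S1`, `S` in `1 / 400` -/
noncomputable def zoneS (rd ks : List ℕ) (cap S1 S A β C v : ℕ) (u0 u1 v0 v1 w0 w1 : ℕ) (us rs : List ℕ)
    (s : ℕ) (tabs : List (ℕ × ℕ)) : Bool :=
  kn2 rd ks fun r0 r1 kp cp => cond (Nat.beq cp cap)
    (pcS r0 kp (Nat.mul (nat_lit 2) cp) S1 fun n0 md => pcS r0 kp (Nat.mul (nat_lit 2) cp) S fun n1 me =>
      zoneK r0 r1 kp cp n0 md n1 me S1 S A β C v u0 u1 v0 v1 w0 w1 us rs s tabs) false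

theorem zoneS_sound {rd ks : List ℕ} {cap S1 S A β C v : ℕ} {u0 u1 v0 v1 w0 w1 : ℕ} {us rs : List ℕ}
    {s bd : ℕ} {tabs : List (ℕ × ℕ)} {jx : Bool → Bool → Bool → ℕ} (hs : 0 < s)
    (hX : FW rd ks s bd ((u0 : ℝ) / 400) ((u1 : ℝ) / 400) ((v0 : ℝ) / 400) ((v1 : ℝ) / 400)
      ((w0 : ℝ) / 400) ((w1 : ℝ) / 400) jx tabs)
    (hB : Bx ((u0 : ℝ) / 400) ((u1 : ℝ) / 400) ((v0 : ℝ) / 400) ((v1 : ℝ) / 400) ((w0 : ℝ) / 400) ((w1 : ℝ) / 400))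
    (hus : ∀ ba bb bc, us.getD (jx ba bb bc) 0 = eN u0 u1 ba + eN v0 v1 bb + eN w0 w1 bc)
    (h : zoneS rd ks cap S1 S A β C v u0 u1 v0 v1 w0 w1 us rs s tabs = true) :
    ZoneR ((cap : ℝ) / 200) ((S1 : ℝ) / 400) ((S : ℝ) / 400) A β ((C : ℝ) / 200000) ((v : ℝ) / 10 ^ 7)
      ((u0 : ℝ) / 400) ((u1 : ℝ) / 400) ((v0 : ℝ) / 400) ((v1 : ℝ) / 400) ((w0 : ℝ) / 400) ((w1 : ℝ) / 400)
      (fun ba bb bc => ((rs.getD (jx ba bb bc) 0 : ℕ) : ℝ) / 40000000) := by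
  obtain ⟨r0, r1, kp, cp, h1, hF⟩ := kn2_sound h
  obtain ⟨hc, h2⟩ := cond_eq_true h1
  have hc' : cp = cap := Nat.eq_of_beq_eq_true hc
  obtain ⟨n0, md, h3⟩ := pcS_sound h2
  obtain ⟨n1, me, h4⟩ := pcS_sound h3
  rw [← hc']
  exact zoneK_sound hs (hF _ _ _ _ _ _ _ _ _ _ hX).fx hB hus h4

/-! ### case C: the fields `star` and `zone` of a row -/

/-- THE CHECK of the heavy rows and of zone 2 of a row of case C; `r.st = [f, g, k0, a, Q]`: `g` = number of the family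
with the knots `[k', cap]` or `[cap]`, `k0`, `a` = far window, `Q` = last node -/
noncomputable def chkSZ (l : List TF.Fam) (r : C1.Rw) (A β : ℕ) (bad : Bool) (X0 X1 Y0 Y1 Z0 Z1 : ℕ) : Bool :=
  frc (C1.lstC (nat_lit 0) r.kn.ks) fun cap => frc (gt r.st (nat_lit 1)) fun g => frc (gt r.st (nat_lit 2)) fun k0 =>
  frc (gt r.st (nat_lit 3)) fun a => frc (gt r.st (nat_lit 4)) fun Q => frc (Nat.mul (nat_lit 2) r.S) fun S2 =>
  TF.famN (fun F => B3.celR F.rd F.T (nat_lit 80) (nat_lit 80) (nat_lit 80) X0 X1 Y0 Y1 Z0 Z1 fun s bd tabs =>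
    cond (starS F.rd F.ks cap S2 r.d Q k0 a (!bad) X0 X1 Y0 Y1 Z0 Z1 (us8 X0 X1 Y0 Y1 Z0 Z1) s bd tabs)
      (cond (Nat.beq r.S1 r.S) true
        (frc (Nat.mul (nat_lit 2) r.S1) fun S12 => frc (cond bad (nat_lit 0) (nat_lit 5000000)) fun v =>
          zoneS F.rd F.ks cap S12 S2 A β r.C v X0 X1 Y0 Y1 Z0 Z1 (us8 X0 X1 Y0 Y1 Z0 Z1) r.R s tabs)) false) l g

lemma Bx.of {a0 a1 y0 y1 z0 z1 : ℝ} (h : B3.Bx a0 a1 y0 y1 z0 z1) : Bx a0 a1 y0 y1 z0 z1 :=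
  ⟨h.la, h.ma, h.ua, h.ly, h.my, h.uy, h.lz, h.mz, h.uz⟩

/-- **SOUNDNESS.** -/
theorem chkSZ_sound {l : List TF.Fam} (hl : TF.EnvF l) {r : C1.Rw} {A β : ℕ} {bad : Bool} {X0 X1 Y0 Y1 Z0 Z1 : ℕ}
    (h : chkSZ l r A β bad X0 X1 Y0 Y1 Z0 Z1 = true) :
    (r.S1 ≠ r.S → C1.ZoneOK (C1.lstC 0 r.kn.ks) r.S1 r.S A β ((r.C : ℝ) / 200000) (C1.v2 bad) ((X0 : ℝ) / 400)
      ((X1 : ℝ) / 400) ((Y0 : ℝ) / 400) ((Y1 : ℝ) / 400) ((Z0 : ℝ) / 400) ((Z1 : ℝ) / 400)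
      (fun i => ((r.R.getD i 0 : ℕ) : ℝ) / 40000000)) ∧
    C1.StarOK (C1.lstC 0 r.kn.ks) r.S r.d (!bad) ((X0 : ℝ) / 400) ((X1 : ℝ) / 400) ((Y0 : ℝ) / 400)
      ((Y1 : ℝ) / 400) ((Z0 : ℝ) / 400) ((Z1 : ℝ) / 400) := by
  unfold chkSZ at h
  rw [frc_eq, frc_eq, frc_eq, frc_eq, frc_eq, frc_eq] at h
  obtain ⟨F, hF, h⟩ := TF.famN_sound hl h
  obtain ⟨s, bd, tabs, h, hs, hB, hG⟩ := B3.celR_sound hF.tab hF.k2 h
  obtain ⟨h1, h2⟩ := cond_eq_true h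
  have hX := FW.of8 hG
  have hus := us8_eq X0 X1 Y0 Y1 Z0 Z1
  refine ⟨fun hne => ?_, (starS_sound hs hX (Bx.of hB) hus h1).ok⟩
  rcases C1.cond_or h2 with h3 | h3
  · exact absurd (Nat.eq_of_beq_eq_true h3) hne
  · rw [frc_eq, frc_eq] at h3
    have h4 := (zoneS_sound hs hX (Bx.of hB) hus h3).ok (r := fun i => ((r.R.getD i 0 : ℕ) : ℝ) / 40000000)
    have e : C1.v2 bad = ((cond bad 0 5000000 : ℕ) : ℝ) / 10 ^ 7 := by
      cases bad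
      · show (1 : ℝ) / 2 = ((5000000 : ℕ) : ℝ) / 10 ^ 7
        norm_num
      · show (0 : ℝ) = ((0 : ℕ) : ℝ) / 10 ^ 7
        norm_num
    rw [e]
    exact h4

/-! ### case C: the tail of the row `i` -/

/-- a box of `(h, t, s)`: borders (`1 / 400`), `cap`, first sum `S` (`1 / 200`), far window, last node, family -/
structure TlB where
  h0 : ℕ
  h1 : ℕ
  t0 : ℕ
  t1 : ℕ
  s0 : ℕ
  s1 : ℕ
  cap : ℕ
  S : ℕ
  k0 : ℕ
  a : ℕ
  Q : ℕ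
  g : ℕ

/-- the check of a box of the tail -/
noncomputable def tlC (l : List TF.Fam) (b : TlB) : Bool :=
  frc (Nat.mul (nat_lit 2) b.S) fun S2 =>
  TF.famN (fun F => B3.celR F.rd F.T (nat_lit 80) (nat_lit 80) (nat_lit 80) b.h0 b.h1 b.t0 b.t1 b.s0 b.s1
    fun s bd tabs => starS F.rd F.ks b.cap S2 (nat_lit 0) b.Q b.k0 b.a false b.h0 b.h1 b.t0 b.t1 b.s0 b.s1
      (us8 b.h0 b.h1 b.t0 b.t1 b.s0 b.s1) s bd tabs) l b.g

lemma tlC_sound {l : List TF.Fam} (hl : TF.EnvF l) {b : TlB} (h : tlC l b = true) :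
    C1.StarOK b.cap b.S 0 false ((b.h0 : ℝ) / 400) ((b.h1 : ℝ) / 400) ((b.t0 : ℝ) / 400) ((b.t1 : ℝ) / 400)
      ((b.s0 : ℝ) / 400) ((b.s1 : ℝ) / 400) := by
  unfold tlC at h
  rw [frc_eq] at h
  obtain ⟨F, hF, h⟩ := TF.famN_sound hl h
  obtain ⟨s, bd, tabs, h, hs, hB, hG⟩ := B3.celR_sound hF.tab hF.k2 h
  exact (starS_sound hs (FW.of8 hG) (Bx.of hB) (us8_eq _ _ _ _ _ _) h).ok

/-- THE CHECK OF THE TAIL: the boxes are slabs of `s`, increasing; root `h ∈ [H0, H1]`, `t ∈ [T0, T1]`, `s ∈ [S0, S1]`,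
`r` = bound of the sum of the rests (`1 / 400`) -/
noncomputable def tailC (l : List TF.Fam) (H0 H1 T0 T1 S1 r : ℕ) (bs : List TlB) : ℕ → Bool :=
  @List.rec TlB (fun _ => ℕ → Bool) (fun c => cond (Nat.ble S1 c) true (cond (Nat.ble T1 c) true (Nat.ble H1 c)))
    (fun b _ ih c => cond (Nat.ble b.s0 c) (cond (cond (Nat.ble b.h0 H0) true (Nat.ble b.h0 c)) (cond (Nat.ble H1 b.h1)
      (cond (cond (Nat.ble b.t0 T0) true (Nat.ble b.t0 c))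
      (cond (cond (Nat.ble T1 b.t1) true (Nat.ble H1 b.t1)) (cond (Nat.ble b.s1 (Nat.mul (nat_lit 2) b.cap))
      (cond (Nat.ble (Nat.mul (nat_lit 2) b.S) r) (cond (tlC l b) (ih b.s1) false) false) false) false) false) false)
      false) false) bs

lemma tail_aux {l : List TF.Fam} (hl : TF.EnvF l) {H0 H1 T0 T1 S1 r : ℕ} {h t s g1 g2 g3 : ℝ} {Mi : Multiset ℝ}
    {M1 M2 M3 : Multiset (ℝ × ℝ)} {G0 G1 G2 G3 p1 p2 p3 ρ1 ρ2 ρ3 : ℝ}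
    (hc : C1.Cfg h t s g1 g2 g3 Mi M1 M2 M3 G0 G1 G2 G3 p1 p2 p3 ρ1 ρ2 ρ3)
    (hh0 : (H0 : ℝ) / 400 ≤ h) (hh1 : h ≤ (H1 : ℝ) / 400) (ht0 : (T0 : ℝ) / 400 ≤ t) (ht1 : t ≤ (T1 : ℝ) / 400)
    (hs1 : s ≤ (S1 : ℝ) / 400) (hr : (r : ℝ) / 400 ≤ Mi.sum) : ∀ (bs : List TlB) (c : ℕ),
    tailC l H0 H1 T0 T1 S1 r bs c = true → (c : ℝ) / 400 ≤ s → (bs = [] → (c : ℝ) / 400 < s) → False := by
  have le4 : ∀ {x y : ℕ}, x ≤ y → (x : ℝ) / 400 ≤ (y : ℝ) / 400 := by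
    intro x y hxy
    exact div_le_div_of_nonneg_right (by exact_mod_cast hxy) (by norm_num)
  intro bs
  induction bs with
  | nil =>
    intro c k1 _ k3
    have k3 := k3 rfl
    have k1 : cond (Nat.ble S1 c) true (cond (Nat.ble T1 c) true (Nat.ble H1 c)) = true := k1
    rcases C1.cond_or k1 with k4 | k4
    · have := le4 (Nat.le_of_ble_eq_true k4)
      linarith
    · rcases C1.cond_or k4 with k4 | k4
      · have := le4 (Nat.le_of_ble_eq_true k4)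
        have := hc.st
        linarith
      · have := le4 (Nat.le_of_ble_eq_true k4)
        have := hc.st
        have := hc.th
        linarith
  | cons b bs ih =>
    intro c k1 k2 _
    have k1 : cond (Nat.ble b.s0 c) (cond (cond (Nat.ble b.h0 H0) true (Nat.ble b.h0 c)) (cond (Nat.ble H1 b.h1)
      (cond (cond (Nat.ble b.t0 T0) true (Nat.ble b.t0 c))
      (cond (cond (Nat.ble T1 b.t1) true (Nat.ble H1 b.t1)) (cond (Nat.ble b.s1 (Nat.mul (nat_lit 2) b.cap))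
      (cond (Nat.ble (Nat.mul (nat_lit 2) b.S) r) (cond (tlC l b) (tailC l H0 H1 T0 T1 S1 r bs b.s1) false) false) false)
      false) false) false) false) false = true := k1
    obtain ⟨e1, k1⟩ := cond_eq_true k1
    obtain ⟨e2, k1⟩ := cond_eq_true k1
    obtain ⟨e3, k1⟩ := cond_eq_true k1
    obtain ⟨e4, k1⟩ := cond_eq_true k1
    obtain ⟨e5, k1⟩ := cond_eq_true k1
    obtain ⟨e6, k1⟩ := cond_eq_true k1
    obtain ⟨e7, k1⟩ := cond_eq_true k1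
    obtain ⟨e8, k1⟩ := cond_eq_true k1
    have e1 := le4 (Nat.le_of_ble_eq_true e1)
    have e2 : (b.h0 : ℝ) / 400 ≤ h := by
      rcases C1.cond_or e2 with e | e
      · exact (le4 (Nat.le_of_ble_eq_true e)).trans hh0
      · exact (le4 (Nat.le_of_ble_eq_true e)).trans (k2.trans (hc.st.trans hc.th))
    have e3 := le4 (Nat.le_of_ble_eq_true e3)
    have e4 : (b.t0 : ℝ) / 400 ≤ t := by
      rcases C1.cond_or e4 with e | e
      · exact (le4 (Nat.le_of_ble_eq_true e)).trans ht0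
      · exact (le4 (Nat.le_of_ble_eq_true e)).trans (k2.trans hc.st)
    have e5 : t ≤ (b.t1 : ℝ) / 400 := by
      rcases C1.cond_or e5 with e | e
      · exact ht1.trans (le4 (Nat.le_of_ble_eq_true e))
      · exact (hc.th.trans hh1).trans (le4 (Nat.le_of_ble_eq_true e))
    have e6 : b.s1 ≤ 2 * b.cap := Nat.le_of_ble_eq_true e6
    have e6 : (b.s1 : ℝ) ≤ 2 * b.cap := by exact_mod_cast e6
    have e7 : 2 * b.S ≤ r := Nat.le_of_ble_eq_true e7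
    have e7 : (2 : ℝ) * b.S ≤ r := by exact_mod_cast e7
    rcases le_or_gt s ((b.s1 : ℝ) / 400) with k3 | k3
    · have h8 := tlC_sound hl e8
      obtain ⟨q1, -⟩ := h8 h t s Mi e2 (hh1.trans e3) e4 e5 (e1.trans k2) k3
        (fun e he => ⟨(hc.mi e he).1, (hc.mi e he).2.trans (k3.trans (by linarith))⟩) (by linarith)
      have h9 := hc.d0
      rw [C1.Df3] at h9
      have h10 := hc.v0
      rw [Nat.cast_zero, zero_div, add_zero] at q1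
      linarith
    · exact ih b.s1 k1 k3.le fun _ => k3

/-- not empty -/
noncomputable def neL (bs : List TlB) : Bool := @List.rec TlB (fun _ => Bool) false (fun _ _ _ => true) bs

/-- **THE TAIL OF THE ROW `i`**: no configuration with `(h, t, s)` in the root and a large sum of the rests. -/
theorem tailC_sound {l : List TF.Fam} (hl : TF.EnvF l) {H0 H1 T0 T1 S0 S1 r : ℕ} {bs : List TlB}
    (hb : cond (neL bs) (tailC l H0 H1 T0 T1 S1 r bs S0) false = true)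
    {h t s g1 g2 g3 : ℝ} {Mi : Multiset ℝ} {M1 M2 M3 : Multiset (ℝ × ℝ)} {G0 G1 G2 G3 p1 p2 p3 ρ1 ρ2 ρ3 : ℝ}
    (hc : C1.Cfg h t s g1 g2 g3 Mi M1 M2 M3 G0 G1 G2 G3 p1 p2 p3 ρ1 ρ2 ρ3)
    (hh0 : (H0 : ℝ) / 400 ≤ h) (hh1 : h ≤ (H1 : ℝ) / 400) (ht0 : (T0 : ℝ) / 400 ≤ t) (ht1 : t ≤ (T1 : ℝ) / 400)
    (hs0 : (S0 : ℝ) / 400 ≤ s) (hs1 : s ≤ (S1 : ℝ) / 400) : Mi.sum < (r : ℝ) / 400 := by
  by_contra hcon
  rw [not_lt] at hcon
  obtain ⟨h1, h2⟩ := cond_eq_true hb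
  refine tail_aux hl hc hh0 hh1 ht0 ht1 hs1 hcon bs S0 h2 hs0 fun e => ?_
  subst e
  exact Bool.noConfusion h1

end SStar
end Pool.Agent.Lib.MP_6947cd_al
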