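import Pool.Agent.Lib.MP_6947cd_al.C.Defs

/-!
Problem MP_6947cd_al (Chollet).  CASE C: the combination of the inequalities of a configuration.
-/

set_option autoImplicit false
open Finset

namespace Pool.Agent.Lib.MP_6947cd_al
namespace C1

open Ent Fr B1

/-- the coefficient of a payer -/
noncomputable def Kf (a ρ : ℝ) : ℝ := (4 * a - a ^ 2 + 4 * ρ) / (3 * a ^ 2)

/-- one payer -/
lemma pay_one {a D dv p ρ ρ' M : ℝ} (h : Payv a D dv p ρ) (ha : 0 < a) (ha1 : a ≤ 1) (hρ : ρ ≤ ρ')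
    (hM : max D (1 / 1000) ≤ M) (hd : dv ≤ 0) : -dv ≤ p * (Kf a ρ' * M) := by
  obtain ⟨p0, p1, r0, -, h5⟩ := h
  have h5 := h5 hd
  have hM0 : 0 ≤ M := le_trans (le_trans (by norm_num) (le_max_right _ _)) hM
  have hn : need D a ρ ≤ (4 * a - a ^ 2 + 4 * ρ') * M := by
    unfold need
    have h1 : D * (4 * a - a ^ 2) ≤ M * (4 * a - a ^ 2) :=
      mul_le_mul_of_nonneg_right ((le_max_left _ _).trans hM) (by nlinarith)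
    have h2 : ρ * max D (1 / 1000) ≤ ρ' * M := mul_le_mul hρ hM (le_trans (by norm_num) (le_max_right _ _)) (r0.trans hρ)
    linarith
  have h6 : 3 * a ^ 2 * (-dv) ≤ p * ((4 * a - a ^ 2 + 4 * ρ') * M) := by
    rw [h5]
    exact mul_le_mul_of_nonneg_left hn p0
  have ha2 : 0 < 3 * a ^ 2 := by positivity
  have e : p * (Kf a ρ' * M) = p * ((4 * a - a ^ 2 + 4 * ρ') * M) / (3 * a ^ 2) := by
    unfold Kf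
    ring
  rw [e, le_div_iff₀ ha2]
  linarith

/-- THE JOINT PAYMENT -/
theorem pay_joint {a1 a2 a3 D d1 d2 d3 p1 p2 p3 ρ1 ρ2 ρ3 σ1 σ2 σ3 M c1 c2 c3 Φ : ℝ}
    (h1 : Payv a1 D d1 p1 ρ1) (h2 : Payv a2 D d2 p2 ρ2) (h3 : Payv a3 D d3 p3 ρ3) (hp : p1 + p2 + p3 < 1)
    (a10 : 0 < a1) (a11 : a1 ≤ 1) (a20 : 0 < a2) (a21 : a2 ≤ 1) (a30 : 0 < a3) (a31 : a3 ≤ 1)
    (s1 : ρ1 ≤ σ1) (s2 : ρ2 ≤ σ2) (s3 : ρ3 ≤ σ3) (hM : max D (1 / 1000) ≤ M)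
    (c10 : 0 ≤ c1) (c20 : 0 ≤ c2) (c30 : 0 ≤ c3) (hΦ : 0 ≤ Φ)
    (k1 : d1 ≤ 0 → c1 * Kf a1 σ1 ≤ Φ) (k2 : d2 ≤ 0 → c2 * Kf a2 σ2 ≤ Φ) (k3 : d3 ≤ 0 → c3 * Kf a3 σ3 ≤ Φ) :
    0 ≤ Φ * M + (c1 * d1 + c2 * d2 + c3 * d3) := by
  have hM0 : 0 ≤ M := le_trans (le_trans (by norm_num) (le_max_right _ _)) hM
  have one : ∀ {a d p ρ σ c : ℝ}, Payv a D d p ρ → 0 < a → a ≤ 1 → ρ ≤ σ → 0 ≤ c → (d ≤ 0 → c * Kf a σ ≤ Φ) →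
      -(p * (Φ * M)) ≤ c * d := by
    intro a d p ρ σ c h ha ha1 hρ hc hk
    rcases le_or_gt d 0 with hd | hd
    · have e1 := pay_one h ha ha1 hρ hM hd
      have e2 := mul_le_mul_of_nonneg_left e1 hc
      have e3 : p * ((c * Kf a σ) * M) ≤ p * (Φ * M) :=
        mul_le_mul_of_nonneg_left (mul_le_mul_of_nonneg_right (hk hd) hM0) h.1
      nlinarith
    · have e1 : p = 0 := h.2.2.2.1 hd
      rw [e1, zero_mul, neg_zero]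
      exact mul_nonneg hc hd.le
  have e1 := one h1 a10 a11 s1 c10 k1
  have e2 := one h2 a20 a21 s2 c20 k2
  have e3 := one h3 a30 a31 s3 c30 k3
  have e4 : (p1 + p2 + p3) * (Φ * M) ≤ 1 * (Φ * M) :=
    mul_le_mul_of_nonneg_right hp.le (mul_nonneg hΦ hM0)
  linarith

/-- the weights -/
structure Wt where
  w3 : ℝ
  w7 : ℝ
  w8 : ℝ
  wA : ℝ
  lam : ℝ
  c1 : ℝ
  c2 : ℝ
  c3 : ℝ

/-- signs -/
structure Wt.Ok (w : Wt) : Prop where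
  w3 : 0 ≤ w.w3
  w7 : 0 ≤ w.w7
  w8 : 0 ≤ w.w8
  wA : 0 ≤ w.wA
  sum : w.w3 + w.w7 + w.w8 + w.wA = 1
  lam : 0 ≤ w.lam
  c1 : 0 ≤ w.c1
  c2 : 0 ≤ w.c2
  c3 : 0 ≤ w.c3

lemma wpos {w x : ℝ} (hw : 0 ≤ w) (hx : w ≠ 0 → 0 < x) : 0 ≤ w * x := by
  rcases hw.eq_or_lt with h | h
  · rw [← h, zero_mul]
  · exact (mul_pos h (hx h.ne')).le

/-- four weighted strict inequalities -/
lemma wpos4 {w3 w7 w8 wA x3 x7 x8 xA : ℝ} (h3 : 0 ≤ w3) (h7 : 0 ≤ w7) (h8 : 0 ≤ w8) (hA : 0 ≤ wA)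
    (hs : w3 + w7 + w8 + wA = 1) (p3 : w3 ≠ 0 → 0 < x3) (p7 : w7 ≠ 0 → 0 < x7) (p8 : w8 ≠ 0 → 0 < x8)
    (pA : wA ≠ 0 → 0 < xA) : 0 < w3 * x3 + w7 * x7 + w8 * x8 + wA * xA := by
  have q3 := wpos h3 p3
  have q7 := wpos h7 p7
  have q8 := wpos h8 p8
  have qA := wpos hA pA
  rcases h3.eq_or_lt with e3 | e3
  · rcases h7.eq_or_lt with e7 | e7
    · rcases h8.eq_or_lt with e8 | e8
      · have e : wA = 1 := by linarith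
        have := pA (by rw [e]; norm_num)
        rw [← e3, ← e7, ← e8, e]
        linarith
      · have := mul_pos e8 (p8 e8.ne')
        linarith
    · have := mul_pos e7 (p7 e7.ne')
      linarith
  · have := mul_pos e3 (p3 e3.ne')
    linarith

section

variable {h t s g1 g2 g3 : ℝ} {Mi : Multiset ℝ} {M1 M2 M3 : Multiset (ℝ × ℝ)}
  {G0 G1 G2 G3 p1 p2 p3 ρ1 ρ2 ρ3 : ℝ}

/-- THE COMBINATION of the inequalities of a configuration. -/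
theorem comb (c : Cfg h t s g1 g2 g3 Mi M1 M2 M3 G0 G1 G2 G3 p1 p2 p3 ρ1 ρ2 ρ3) {w : Wt} (hw : w.Ok)
    {M Φ σ1 σ2 σ3 X3 L7 L8 S : ℝ}
    (hM : max (Df G0 (h ::ₘ t ::ₘ s ::ₘ Mi)) (1 / 1000) ≤ M) (hΦ : 0 ≤ Φ)
    (s1 : ρ1 ≤ σ1) (s2 : ρ2 ≤ σ2) (s3 : ρ3 ≤ σ3)
    (k1 : Df G1 (h ::ₘ g1 ::ₘ g2 ::ₘ sn M1) ≤ 0 → w.c1 * Kf h σ1 ≤ Φ)
    (k2 : Df G2 (t ::ₘ g1 ::ₘ g3 ::ₘ sn M2) ≤ 0 → w.c2 * Kf t σ2 ≤ Φ)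
    (k3 : Df G3 (s ::ₘ g2 ::ₘ g3 ::ₘ sn M3) ≤ 0 → w.c3 * Kf s σ3 ≤ Φ)
    (h3 : w.w3 ≠ 0 → 0 < G0 + G1 + X3)
    (h7 : w.w7 ≠ 0 → LB3 s g2 g3 L7) (h8 : w.w8 ≠ 0 → LB3 t g1 g3 L8)
    (hA : w.wA ≠ 0 → 0 < S ∧ (S ≤ 4 * (h + t + s + g1 + g2 + g3) - 6 + 2 * (h * g3 + t * g2 + s * g1)
      ∨ S ≤ 2 * (h + t + g1) ∨ S ≤ 2 * (h + s + g2) ∨ S ≤ 2 * (t + s + g3)
      ∨ S ≤ (1 + h) * (1 + g3) ∨ S ≤ (1 + t) * (1 + g2) ∨ S ≤ (1 + s) * (1 + g1))) :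
    0 < G0 + G1 + (w.w7 + w.wA) * G2 + (w.w8 + w.wA) * G3
      + (1 - w.w3) * Om Mi + (1 - w.w3) * Om (sn M1) + (w.w7 + w.wA) * Om (sn M2) + (w.w8 + w.wA) * Om (sn M3)
      + w.w3 * X3 + w.w7 * (L7 - 2 * Real.log (2 * (h + t + g1))) + w.w8 * (L8 - 2 * Real.log (2 * (h + s + g2)))
      - w.wA * (2 * Real.log S)
      + w.lam * Df G0 (h ::ₘ t ::ₘ s ::ₘ Mi)
      + (w.c1 * Df G1 (h ::ₘ g1 ::ₘ g2 ::ₘ sn M1) + w.c2 * Df G2 (t ::ₘ g1 ::ₘ g3 ::ₘ sn M2)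
        + w.c3 * Df G3 (s ::ₘ g2 ::ₘ g3 ::ₘ sn M3)) + Φ * M := by
  have hth := c.th
  have hst := c.st
  have hs0 := c.s0
  have hh1 := c.h1
  have hd0 := c.d0
  have pj := pay_joint c.y1 c.y2 c.y3 c.psum (by linarith) hh1 (by linarith) (by linarith) (by linarith)
    (by linarith) s1 s2 s3 hM hw.c1 hw.c2 hw.c3 hΦ k1 k2 k3
  have q0 := mul_nonneg hw.lam hd0.le
  have q4 := wpos4 hw.w3 hw.w7 hw.w8 hw.wA hw.sum h3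
    (fun hne => sub_pos.mpr (c.nr123 _ (h7 hne))) (fun hne => sub_pos.mpr (c.nr124 _ (h8 hne)))
    (fun hne => sub_pos.mpr (c.nrall S (hA hne).1 (hA hne).2))
  have hsum := hw.sum
  have e3 : w.w3 = 1 - w.w7 - w.w8 - w.wA := by linarith
  obtain ⟨D0, hD0⟩ : ∃ D0, D0 = Df G0 (h ::ₘ t ::ₘ s ::ₘ Mi) := ⟨_, rfl⟩
  obtain ⟨P, hP⟩ : ∃ P, P = w.c1 * Df G1 (h ::ₘ g1 ::ₘ g2 ::ₘ sn M1) + w.c2 * Df G2 (t ::ₘ g1 ::ₘ g3 ::ₘ sn M2)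
        + w.c3 * Df G3 (s ::ₘ g2 ::ₘ g3 ::ₘ sn M3) := ⟨_, rfl⟩
  rw [← hD0] at q0 ⊢
  rw [← hP] at pj ⊢
  rw [e3] at q4 ⊢
  linarith

end

end C1
end Pool.Agent.Lib.MP_6947cd_al
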