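import Pool.Agent.Lib.MP_6947cd_al.C.Mg

/-!
Problem MP_6947cd_al (Chollet).  CASE C: the class logic.
-/

set_option autoImplicit false
open scoped Matrix ComplexOrder
open Finset

namespace Pool.Agent.Lib.MP_6947cd_al
namespace C1

open Ent Fr Fr.LL B1 B1.DM

section
variable {n : ℕ} {A : Matrix (Fin n) (Fin n) ℂ}

open Classical in
/-- `rho` for the vertex `i` and the payer `j`, the other special vertices `k`, `l` -/
lemma rho_leC (i j k l : Fin n) (hj : D What A j ≤ 0) :
    rho What A i j ≤ (if 0 < D What A k ∧ 3 / 10 ≤ row A j k then row A i k else 0)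
      + (if 0 < D What A l ∧ 3 / 10 ≤ row A j l then row A i l else 0)
      + (if ∃ m ∈ C4 i j k l, 3 / 10 ≤ row A j m then ∑ m ∈ C4 i j k l, row A i m else 0) := by
  have hnn := fun l => row_nonneg A i l
  obtain ⟨X, hX⟩ : ∃ X : Finset (Fin n), X = if 0 < D What A k ∧ 3 / 10 ≤ row A j k then {k} else ∅ :=
    ⟨_, rfl⟩
  obtain ⟨Y, hY⟩ : ∃ Y : Finset (Fin n), Y = if 0 < D What A l ∧ 3 / 10 ≤ row A j l then {l} else ∅ :=
    ⟨_, rfl⟩
  obtain ⟨Z, hZ⟩ : ∃ Z : Finset (Fin n), Z = if ∃ m ∈ C4 i j k l, 3 / 10 ≤ row A j m then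
    C4 i j k l else ∅ := ⟨_, rfl⟩
  have h1 := rho_le_sum (W := What) (A := A) i j hj (X ∪ (Y ∪ Z)) (fun m h1 h2 h3 h4 => by
    by_cases e1 : m = k
    · refine Finset.mem_union_left _ ?_
      rw [hX, ← e1, if_pos ⟨h3, h4⟩]
      exact Finset.mem_singleton_self _
    · refine Finset.mem_union_right _ ?_
      by_cases e2 : m = l
      · refine Finset.mem_union_left _ ?_
        rw [hY, ← e2, if_pos ⟨h3, h4⟩]
        exact Finset.mem_singleton_self _
      · refine Finset.mem_union_right _ ?_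
        have hm : m ∈ C4 i j k l := mem_C4.mpr ⟨h1, h2, e1, e2⟩
        rw [hZ, if_pos ⟨m, hm, h4⟩]
        exact hm)
  refine h1.trans ?_
  have h2 : ∀ T : Finset (Fin n), ∑ m ∈ T, y What A m * row A i m ≤ ∑ m ∈ T, row A i m := fun T =>
    Finset.sum_le_sum fun m _ => mul_le_of_le_one_left (hnn m) (y_le_one m)
  have h3 : ∀ S T : Finset (Fin n), ∑ m ∈ S ∪ T, row A i m ≤ ∑ m ∈ S, row A i m + ∑ m ∈ T, row A i m := by
    intro S T
    rw [← Finset.sum_union_inter]
    have : 0 ≤ ∑ m ∈ S ∩ T, row A i m := Finset.sum_nonneg fun m _ => hnn m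
    linarith
  refine (h2 _).trans ((h3 _ _).trans ?_)
  rw [add_assoc]
  refine add_le_add ?_ ((h3 _ _).trans (add_le_add ?_ ?_))
  · rw [hX]
    split_ifs
    · rw [Finset.sum_singleton]
    · rw [Finset.sum_empty]
  · rw [hY]
    split_ifs
    · rw [Finset.sum_singleton]
    · rw [Finset.sum_empty]
  · rw [hZ]
    split_ifs
    · exact le_rfl
    · rw [Finset.sum_empty]

lemma C4_rot (a b c d : Fin n) : C4 b a c d = C4 a b c d := by
  ext l; rw [mem_C4, mem_C4]; tauto

lemma C4_rot2 (a b c d : Fin n) : C4 c a b d = C4 a b c d := by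
  ext l; rw [mem_C4, mem_C4]; tauto

lemma C4_rot3 (a b c d : Fin n) : C4 d a b c = C4 a b c d := by
  ext l; rw [mem_C4, mem_C4]; tauto

/-- the fraction paid -/
noncomputable def pfr (A : Matrix (Fin n) (Fin n) ℂ) (i v : Fin n) : ℝ :=
  if 0 < D What A v then 0 else 3 * (row A i v) ^ 2 * (-D What A v)
    / LL.need What A i v (rho What A i v)

/-- the bound of `rho` -/
noncomputable def rfr (A : Matrix (Fin n) (Fin n) ℂ) (i v : Fin n) : ℝ :=
  if 0 < D What A v then 0 else rho What A i v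

lemma pfr_nonneg (hce : CEG GG A) (i v : Fin n) (hi : 0 < D What A i) (hb : 3 / 10 ≤ row A i v) :
    0 ≤ pfr A i v := by
  unfold pfr
  split_ifs with h
  · exact le_rfl
  · have h1 := need_pos hce.psd hce.diag i v hi hb _ (rho_nonneg (W := What) (A := A) i v)
    have h2 := neg_nonneg.mpr (not_lt.mp h)
    positivity

/-- the fractions add up to less than one -/
lemma pfr_sum (hce : CEG GG A) (i j k l : Fin n) (hjk : j ≠ k) (hjl : j ≠ l) (hkl : k ≠ l)
    (hi : 0 < D What A i) (hj : 3 / 10 ≤ row A i j) (hk : 3 / 10 ≤ row A i k)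
    (hl : 3 / 10 ≤ row A i l) (hno : ¬ LLat What A i) : pfr A i j + pfr A i k + pfr A i l < 1 := by
  classical
  by_contra hcon
  push Not at hcon
  refine hno ?_
  refine LLat_of_sum hce.psd hce.diag i hi (({j, k, l} : Finset (Fin n)).filter fun v => ¬ 0 < D What A v)
    (fun v hv => ?_) (fun v => rho What A i v) (fun v _ => le_rfl) ?_
  · obtain ⟨h1, h2⟩ := Finset.mem_filter.mp hv
    refine ⟨not_lt.mp h2, ?_⟩
    simp only [Finset.mem_insert, Finset.mem_singleton] at h1
    rcases h1 with rfl | rfl | rfl <;> assumption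
  · rw [Finset.sum_filter]
    rw [Finset.sum_insert (by simp [hjk, hjl]), Finset.sum_pair hkl]
    have e : ∀ v, (if ¬ 0 < D What A v then 3 * (row A i v) ^ 2 * (-D What A v)
        / LL.need What A i v (rho What A i v) else 0) = pfr A i v := by
      intro v
      unfold pfr
      by_cases h : 0 < D What A v
      · rw [if_pos h, if_neg (not_not.mpr h)]
      · rw [if_neg h, if_pos h]
    rw [e, e, e]
    linarith

/-- the payment -/
lemma payv_of (hce : CEG GG A) (i v : Fin n) (hi : 0 < D What A i) (hb : 3 / 10 ≤ row A i v)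
    (h1 : pfr A i v < 1) {D0 dv : ℝ} (h0 : D0 = D What A i) (hv : dv = D What A v) :
    Payv (row A i v) D0 dv (pfr A i v) (rfr A i v) := by
  subst h0 hv
  refine ⟨pfr_nonneg hce i v hi hb, h1, ?_, fun h => ?_, fun h => ?_⟩
  · unfold rfr
    split_ifs
    · exact le_rfl
    · exact rho_nonneg (W := What) (A := A) i v
  · unfold pfr
    rw [if_pos h]
  · have h2 : ¬ 0 < D What A v := not_lt.mpr h
    unfold pfr rfr
    rw [if_neg h2, if_neg h2]
    have h3 := need_pos hce.psd hce.diag i v hi hb _ (rho_nonneg (W := What) (A := A) i v)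
    have e : LL.need What A i v (rho What A i v)
      = B1.need (D What A i) (row A i v) (rho What A i v) := rfl
    rw [← e]
    rw [div_mul_cancel₀ _ h3.ne']

/-- the value of a row -/
lemma val_of (hce : CEG GG A) (v : Fin n) (M : Multiset ℝ) (hM : F (row A v) = FM (1 ::ₘ M))
    (hg : ∀ f : ℝ → ℝ, ∑ m ∈ Finset.univ.erase v, f (row A v m) = (M.map f).sum) :
    Val (GG.G (Fin n) (row A v)) M ∧ Df (GG.G (Fin n) (row A v)) M = D What A v := by
  have hD : Df (GG.G (Fin n) (row A v)) M = D What A v := by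
    unfold Df D LL.tot
    have h1 := hg id
    simp only [id, Multiset.map_id'] at h1
    rw [h1]
  refine ⟨⟨?_, fun h => ?_⟩, hD⟩
  · rcases B2.DM.GG_cases (row A v) v (row_diag A hce.diag v) with h | h
    · rw [h, hM]; exact le_max_left _ _
    · rw [hg] at h
      exact h.trans (le_max_right _ _)
  · rw [hD] at h
    rw [GG_eq_of_bad hce v h, hM]

open Classical in
/-- THE CONFIGURATION of a counterexample to the local lemma. -/
theorem cfg_of_fail (hce : CEG GG A) (i j k l : Fin n) (hij : i ≠ j) (hik : i ≠ k) (hil : i ≠ l)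
    (hjk : j ≠ k) (hjl : j ≠ l) (hkl : k ≠ l) (hD : 0 < D What A i) (hkj : row A i k ≤ row A i j)
    (hlk : row A i l ≤ row A i k) (hl : 3 / 10 ≤ row A i l)
    (hrest : ∀ m, m ≠ i → m ≠ j → m ≠ k → m ≠ l → row A i m ≤ row A i l)
    (hno : ¬ LLat What A i) :
    ∃ (Mi : Multiset ℝ) (M1 M2 M3 : Multiset (ℝ × ℝ)) (G0 G1 G2 G3 p1 p2 p3 ρ1 ρ2 ρ3 : ℝ),
      Cfg (row A i j) (row A i k) (row A i l) (row A j k) (row A j l) (row A k l) Mi M1 M2 M3
        G0 G1 G2 G3 p1 p2 p3 ρ1 ρ2 ρ3 := by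
  have hnn := fun a b => row_nonneg A a b
  have hle := fun a b => row_le_one A hce.psd hce.diag a b
  have hsym := fun a b => row_symm A hce.psd a b
  have hdg := fun a => row_diag A hce.diag a
  have hk : 3 / 10 ≤ row A i k := hl.trans hlk
  have hj : 3 / 10 ≤ row A i j := hk.trans hkj
  have tri : ∀ a b c, Tri (row A a b) (row A a c) (row A b c) := by
    intro a b c
    have h := tri_row A hce.psd hce.diag a b c
    unfold Tri
    linarith
  obtain ⟨C, hC⟩ : ∃ C : Finset (Fin n), C = C4 i j k l := ⟨_, rfl⟩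
  set Mi : Multiset ℝ := C.val.map (row A i) with hMi
  set M1 : Multiset (ℝ × ℝ) := C.val.map fun m => (row A i m, row A j m) with hM1
  set M2 : Multiset (ℝ × ℝ) := C.val.map fun m => (row A i m, row A k m) with hM2
  set M3 : Multiset (ℝ × ℝ) := C.val.map fun m => (row A i m, row A l m) with hM3
  have e1 : sn M1 = C.val.map (row A j) := by unfold sn; rw [hM1, Multiset.map_map]; rfl
  have e2 : sn M2 = C.val.map (row A k) := by unfold sn; rw [hM2, Multiset.map_map]; rfl
  have e3 : sn M3 = C.val.map (row A l) := by unfold sn; rw [hM3, Multiset.map_map]; rfl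
  have hOm : ∀ v, Om (C.val.map (row A v)) = ∑ m ∈ C, omg (row A v m) := by
    intro v
    unfold Om
    rw [Multiset.map_map]
    rfl
  have hSm : ∀ (v : Fin n) (f : ℝ → ℝ), ((C.val.map (row A v)).map f).sum = ∑ m ∈ C, f (row A v m) := by
    intro v f
    rw [Multiset.map_map]
    rfl
  -- the rows
  have F0 : F (row A i) = FM (1 ::ₘ row A i j ::ₘ row A i k ::ₘ row A i l ::ₘ Mi) := by
    rw [F_eq_FM, map_row4 i j k l hij hik hil hjk hjl hkl, hdg, ← hC]
  have F1 : F (row A j) = FM (1 ::ₘ row A i j ::ₘ row A j k ::ₘ row A j l ::ₘ sn M1) := by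
    rw [F_eq_FM, map_row4 j i k l hij.symm hjk hjl hik hil hkl, hdg, C4_rot, ← hC, hsym j i, e1]
  have F2 : F (row A k) = FM (1 ::ₘ row A i k ::ₘ row A j k ::ₘ row A k l ::ₘ sn M2) := by
    rw [F_eq_FM, map_row4 k i j l hik.symm hjk.symm hkl hij hil hjl, hdg, C4_rot2, ← hC, hsym k i,
      hsym k j, e2]
  have F3 : F (row A l) = FM (1 ::ₘ row A i l ::ₘ row A j l ::ₘ row A k l ::ₘ sn M3) := by
    rw [F_eq_FM, map_row4 l i j k hil.symm hjl.symm hkl.symm hij hik hjk, hdg, C4_rot3, ← hC, hsym l i,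
      hsym l j, hsym l k, e3]
  obtain ⟨V0, D0⟩ := val_of hce i (row A i j ::ₘ row A i k ::ₘ row A i l ::ₘ Mi) F0 (fun f => by
    rw [sum_row4 i j k l hij hik hil hjk hjl hkl (fun m => f (row A i m)), ← hC]
    simp only [Multiset.map_cons, Multiset.sum_cons]
    rw [hMi, hSm])
  obtain ⟨V1, D1⟩ := val_of hce j (row A i j ::ₘ row A j k ::ₘ row A j l ::ₘ sn M1) F1 (fun f => by
    rw [sum_row4 j i k l hij.symm hjk hjl hik hil hkl (fun m => f (row A j m)), C4_rot, ← hC]
    simp only [Multiset.map_cons, Multiset.sum_cons]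
    rw [e1, hSm, hsym j i])
  obtain ⟨V2, D2⟩ := val_of hce k (row A i k ::ₘ row A j k ::ₘ row A k l ::ₘ sn M2) F2 (fun f => by
    rw [sum_row4 k i j l hik.symm hjk.symm hkl hij hil hjl (fun m => f (row A k m)), C4_rot2, ← hC]
    simp only [Multiset.map_cons, Multiset.sum_cons]
    rw [e2, hSm, hsym k i, hsym k j])
  obtain ⟨V3, D3⟩ := val_of hce l (row A i l ::ₘ row A j l ::ₘ row A k l ::ₘ sn M3) F3 (fun f => by
    rw [sum_row4 l i j k hil.symm hjl.symm hkl.symm hij hik hjk (fun m => f (row A l m)), C4_rot3,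
      ← hC]
    simp only [Multiset.map_cons, Multiset.sum_cons]
    rw [e3, hSm, hsym l i, hsym l j, hsym l k])
  have q1 := pfr_nonneg hce i j hD hj
  have q2 := pfr_nonneg hce i k hD hk
  have q3 := pfr_nonneg hce i l hD hl
  have qs := pfr_sum hce i j k l hjk hjl hkl hD hj hk hl hno
  have hPrs : ∀ v, Prs (row A i v) Mi (C.val.map fun m => (row A i m, row A v m)) := by
    intro v
    refine ⟨?_, fun z hz => ?_⟩
    · rw [Multiset.map_map]; rfl
    · obtain ⟨m, _, rfl⟩ := Multiset.mem_map.mp hz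
      exact ⟨hnn _ _, hle _ _, tri i v m⟩
  have hex : ∀ v : Fin n, (∃ z ∈ (C.val.map fun m => (row A i m, row A v m)), 3 / 10 ≤ z.2)
      ↔ ∃ m ∈ C, 3 / 10 ≤ row A v m := by
    intro v
    constructor
    · rintro ⟨z, hz, hz2⟩
      obtain ⟨m, hm, rfl⟩ := Multiset.mem_map.mp hz
      exact ⟨m, hm, hz2⟩
    · rintro ⟨m, hm, h⟩
      exact ⟨_, Multiset.mem_map_of_mem _ hm, h⟩
  have hMs : Mi.sum = ∑ m ∈ C, row A i m := rfl
  have hbnd : ∀ (a b c : Fin n), i ≠ a → i ≠ b → i ≠ c → a ≠ b → a ≠ c → b ≠ c → C4 i a b c = C →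
      ∀ (db dc : ℝ), db = D What A b → dc = D What A c →
      rfr A i a ≤ Rho (row A i b) db (row A a b) (row A i c) dc (row A a c) Mi
        (C.val.map fun m => (row A i m, row A a m)) := by
    intro a b c hia hib hic hab hac hbc hCC db dc hdb hdc
    unfold rfr Rho
    simp only [hex a, hMs]
    by_cases h : 0 < D What A a
    · rw [if_pos h]
      have h1 : (0 : ℝ) ≤ (if 0 < db ∧ 3 / 10 ≤ row A a b then row A i b else 0) := by
        split_ifs
        · exact hnn _ _
        · exact le_rfl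
      have h2 : (0 : ℝ) ≤ (if 0 < dc ∧ 3 / 10 ≤ row A a c then row A i c else 0) := by
        split_ifs
        · exact hnn _ _
        · exact le_rfl
      have h3 : (0 : ℝ) ≤ (if ∃ m ∈ C, 3 / 10 ≤ row A a m then ∑ m ∈ C, row A i m else 0) := by
        split_ifs
        · exact Finset.sum_nonneg fun m _ => hnn _ _
        · exact le_rfl
      linarith
    · rw [if_neg h, hdb, hdc]
      have h1 := rho_leC i a b c (not_lt.mp h)
      rw [hCC] at h1
      exact h1
  refine ⟨Mi, M1, M2, M3, GG.G (Fin n) (row A i), GG.G (Fin n) (row A j), GG.G (Fin n) (row A k),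
    GG.G (Fin n) (row A l), pfr A i j, pfr A i k, pfr A i l, rfr A i j, rfr A i k, rfr A i l, ?_⟩
  have hS4 := specS4 n A hce.psd hce.diag i j k l hij hik hil hjk hjl hkl
  have n4 := nr4P hce i j k l hij hik hil hjk hjl hkl
  refine ⟨hkj, hlk, hl, hle _ _, ⟨hnn _ _, hle _ _⟩, ⟨hnn _ _, hle _ _⟩, ⟨hnn _ _, hle _ _⟩,
    tri i j k, tri i j l, tri i k l, tri j k l, ?_, hPrs j, hPrs k, hPrs l, ?_, ?_, V1, V2, V3,
    ?_, ?_, ?_, qs, ?_, ?_, ?_, ?_, ?_, ?_, ?_, ?_, ?_, ?_, ?_, ?_⟩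
  · intro x hx
    obtain ⟨m, hm, rfl⟩ := Multiset.mem_map.mp hx
    have hm' := mem_C4.mp (show m ∈ C4 i j k l by rw [← hC]; exact hm)
    exact ⟨hnn _ _, hrest m hm'.1 hm'.2.1 hm'.2.2.1 hm'.2.2.2⟩
  · rw [D0]; exact hD
  · exact V0.2 (by rw [D0]; exact hD)
  · exact payv_of hce i j hD hj (by linarith) D0 D1
  · exact payv_of hce i k hD hk (by linarith) D0 D2
  · exact payv_of hce i l hD hl (by linarith) D0 D3
  · exact hbnd j k l hij hik hil hjk hjl hkl hC.symm _ _ D2 D3
  · have h := hbnd k j l hik hij hil hjk.symm hkl hjl (by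
      rw [hC]; ext m; rw [mem_C4, mem_C4]; tauto) _ _ D1 D3
    rw [hsym k j] at h
    exact h
  · have h := hbnd l j k hil hij hik hjl.symm hkl.symm hjk (by
      rw [hC]; ext m; rw [mem_C4, mem_C4]; tauto) _ _ D1 D2
    rw [hsym l j, hsym l k] at h
    exact h
  · -- nr12
    have h := nr2P hce i j k l hij hik hil hjk hjl hkl
    rw [← hC, ← hOm, ← hOm, ← e1] at h
    exact h
  · -- nr13
    have h := nr2P hce i k j l hik hij hil hjk.symm hkl hjl
    have e : C4 i k j l = C := by rw [hC]; ext m; rw [mem_C4, mem_C4]; tauto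
    rw [e, ← hOm, ← hOm, ← e2, hsym k j] at h
    exact h
  · -- nr23
    have h := nr2P hce j k i l hjk hij.symm hjl hik.symm hkl hil
    have e : C4 j k i l = C := by rw [hC]; ext m; rw [mem_C4, mem_C4]; tauto
    rw [e, ← hOm, ← hOm, ← e1, ← e2, hsym j i, hsym k i] at h
    exact h
  · -- nr123
    intro L hL
    have h := nr3P hce i j k l hij hik hil hjk hjl hkl L hL (by linarith [hnn j k])
    rw [← hC, ← hOm, ← hOm, ← hOm, ← e1, ← e2] at h
    exact h
  · -- nr124
    intro L hL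
    have h := nr3P hce i j l k hij hil hik hjl hjk hkl.symm L (by rw [hsym l k]; exact hL)
      (by linarith [hnn j l])
    have e : C4 i j l k = C := by rw [hC]; ext m; rw [mem_C4, mem_C4]; tauto
    rw [e, ← hOm, ← hOm, ← hOm, ← e1, ← e3] at h
    exact h
  · -- nr134
    intro L hL
    have h := nr3P hce i k l j hik hil hij hkl hjk.symm hjl.symm L
      (by rw [hsym k j, hsym l j]; exact hL) (by linarith [hnn k l])
    have e : C4 i k l j = C := by rw [hC]; ext m; rw [mem_C4, mem_C4]; tauto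
    rw [e, ← hOm, ← hOm, ← hOm, ← e2, ← e3] at h
    exact h
  · -- nr234
    intro L hL hpos
    have h := nr3P hce j k l i hjk hjl hij.symm hkl hik.symm hil.symm L
      (by rw [hsym j i, hsym k i, hsym l i]; exact hL) hpos
    have e : C4 j k l i = C := by rw [hC]; ext m; rw [mem_C4, mem_C4]; tauto
    rw [e, ← hOm, ← hOm, ← hOm, ← e1, ← e2, ← e3] at h
    exact h
  · -- nrall
    intro S hS0 hS
    have hSS : S ≤ Fr.S A {i, j, k, l} := by
      have m3 : ∀ a b c : Fin n, a ≠ b → a ≠ c → b ≠ c → ({a, b, c} : Finset (Fin n)) ⊆ {i, j, k, l} →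
          2 * (row A a b + row A a c + row A b c) ≤ Fr.S A {i, j, k, l} := fun a b c hab hac hbc hs =>
        (S_three_ge A hce.psd hce.diag a b c hab hac hbc).1.trans (S_mono hce.psd hce.diag _ _ hs)
      have m22 : ∀ a b c d : Fin n, a ≠ b → c ≠ d → a ≠ c → a ≠ d → b ≠ c → b ≠ d →
          ({a, b} : Finset (Fin n)) ∪ {c, d} = {i, j, k, l} →
          (1 + row A a b) * (1 + row A c d) ≤ Fr.S A {i, j, k, l} := by
        intro a b c d hab hcd hac had hbc hbd hs
        rw [← hs, ← S_two A hce.psd hce.diag a b hab, ← S_two A hce.psd hce.diag c d hcd]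
        refine S_mul_le hce.psd _ _ ?_
        rw [Finset.disjoint_left]
        intro x hx hx'
        simp only [Finset.mem_insert, Finset.mem_singleton] at hx hx'
        rcases hx with rfl | rfl <;> rcases hx' with h | h
        · exact hac h
        · exact had h
        · exact hbc h
        · exact hbd h
      rcases hS with h | h | h | h | h | h | h
      · refine h.trans (le_trans (le_of_eq ?_) hS4)
        ring
      · exact h.trans (m3 i j k hij hik hjk (by intro x; simp; tauto))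
      · exact h.trans (m3 i j l hij hil hjl (by intro x; simp; tauto))
      · exact h.trans (m3 i k l hik hil hkl (by intro x; simp; tauto))
      · exact h.trans (m22 i j k l hij hkl hik hil hjk hjl (by ext x; simp; tauto))
      · exact h.trans (m22 i k j l hik hjl hij hil hjk.symm hkl (by ext x; simp; tauto))
      · exact h.trans (m22 i l j k hil hjk hij hik hjl.symm hkl.symm (by ext x; simp; tauto))
    have h := n4 S hS0 hSS
    rw [← hC, ← hOm, ← hOm, ← hOm, ← hOm, ← e1, ← e2, ← e3] at h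
    exact h
  · -- n3
    intro r uk ul vk vl π hr h1 h2 h3 h4 h5 h6 h7 h8 h9 h10 hπ
    have h := n3P hce i j k l hij hik hil hjk hjl hkl r hr uk ul vk vl h1 h2 h3 h4 h5 h6 h7 h8 h9 h10 π
      (fun m hm c u hu0 hu1 hg => hπ (row A i m, row A j m) (by
        rw [hM1]
        exact Multiset.mem_map.mpr ⟨m, by rw [hC]; exact hm, rfl⟩) c u hu0 hu1 hg)
      (0 < D What A k) (0 < D What A l) (fun h => GG_eq_of_bad hce k h)
      (fun h => GG_eq_of_bad hce l h)
    have es : (M1.map fun z => π z.1 z.2).sum = ∑ m ∈ C4 i j k l, π (row A i m) (row A j m) := by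
      rw [hM1, Multiset.map_map, ← hC]
      rfl
    rw [es, D2, D3]
    refine h.trans_le (le_of_eq ?_)
    congr 1
    · congr 1
      by_cases hb : 0 < D What A k
      · rw [if_pos hb]; unfold lm2; rw [if_pos hb, if_pos trivial]
      · rw [if_neg hb]; unfold lm2; rw [if_neg hb, if_neg not_false]
    · by_cases hb : 0 < D What A l
      · rw [if_pos hb]; unfold lm2; rw [if_pos hb, if_pos trivial]
      · rw [if_neg hb]; unfold lm2; rw [if_neg hb, if_neg not_false]

/-- THE CLASS LOGIC. -/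
theorem specDC : SpecDC := by
  intro hN n A hce i j k l hij hik hil hjk hjl hkl hD hkj hlk hl hrest
  by_contra hno
  obtain ⟨Mi, M1, M2, M3, G0, G1, G2, G3, p1, p2, p3, ρ1, ρ2, ρ3, hC⟩ :=
    cfg_of_fail hce i j k l hij hik hil hjk hjl hkl hD hkj hlk hl hrest hno
  exact hN _ _ _ _ _ _ _ _ _ _ _ _ _ _ _ _ _ _ _ _ hC

/-- no configuration with `h, t, s` in the region `P` -/
def NoCfgOn (P : ℝ → ℝ → ℝ → Prop) : Prop := ∀ (h t s g1 g2 g3 : ℝ) (Mi : Multiset ℝ)
    (M1 M2 M3 : Multiset (ℝ × ℝ)) (G0 G1 G2 G3 p1 p2 p3 ρ1 ρ2 ρ3 : ℝ), P h t s →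
    ¬ Cfg h t s g1 g2 g3 Mi M1 M2 M3 G0 G1 G2 G3 p1 p2 p3 ρ1 ρ2 ρ3

theorem chi_of (hN : NoCfgOn fun _ t s => 7 / 10 ≤ t ∨ (3 / 5 ≤ t ∧ 1 / 2 ≤ s)) :
    LL.SpecChi What := by
  intro n A hce i j k l hij hik hil hjk hjl hkl hD hkj hlk hl hrest hP
  by_contra hno
  obtain ⟨Mi, M1, M2, M3, G0, G1, G2, G3, p1, p2, p3, ρ1, ρ2, ρ3, hC⟩ :=
    cfg_of_fail hce i j k l hij hik hil hjk hjl hkl hD hkj hlk hl hrest hno
  exact hN _ _ _ _ _ _ _ _ _ _ _ _ _ _ _ _ _ _ _ _ hP hC

theorem clo_of (hN : NoCfgOn fun _ t s => t ≤ 3 / 5 ∨ (t ≤ 7 / 10 ∧ s ≤ 1 / 2)) :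
    LL.SpecClo What := by
  intro n A hce i j k l hij hik hil hjk hjl hkl hD hkj hlk hl hrest hP
  by_contra hno
  obtain ⟨Mi, M1, M2, M3, G0, G1, G2, G3, p1, p2, p3, ρ1, ρ2, ρ3, hC⟩ :=
    cfg_of_fail hce i j k l hij hik hil hjk hjl hkl hD hkj hlk hl hrest hno
  exact hN _ _ _ _ _ _ _ _ _ _ _ _ _ _ _ _ _ _ _ _ hP hC

end

end C1
end Pool.Agent.Lib.MP_6947cd_al
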