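import Pool.Agent.Lib.MP_6947cd_al.Y.Defs

/-!
Problem MP_6947cd_al (Chollet).  CASE C: the abstract configuration.

`h = b i j ≥ t = b i k ≥ s = b i l ≥ 3/10` (the three largest entries of the bad row `i`), `g1 = b j k`,
`g2 = b j l`, `g3 = b k l`; `Mi` = the other entries of the row `i` (all at most `s`); `M1`, `M2`, `M3` =
the pairs `(b i m, b v m)` for `v = j, k, l` (`m` runs through the other vertices).
`G0` (row `i`), `G1`, `G2`, `G3` = the values of the row functional; `Df` = the defects;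
`p v` = the fraction paid by `v` (`0` if `v` is bad), `ρ v` = bound of `rho`.
-/

set_option autoImplicit false
open scoped ComplexOrder
open Finset

namespace Pool.Agent.Lib.MP_6947cd_al
namespace C1

open Ent Fr B1

/-- the additive part of the row functional (`M` = the entries without the diagonal entry) -/
noncomputable def Gam (M : Multiset ℝ) : ℝ := min ((M.map (gtr (3 / 20) (9 / 20))).sum - 6 / 125) (1 / 2)

/-- polynomial loss -/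
noncomputable def lp (A B s : ℝ) : ℝ := A * s + B / 2 * s ^ 2

/-- loss of an entry `s` in the presence of an entry `M ≥ s`, entropic part -/
noncomputable def lf (M s : ℝ) : ℝ :=
  if 10 / 10 ≤ M then lp (161 / 1000) (240 / 1000) s
    else if 9 / 10 ≤ M then lp (169 / 1000) (260 / 1000) s
    else if 8 / 10 ≤ M then lp (178 / 1000) (285 / 1000) s
    else if 7 / 10 ≤ M then lp (186 / 1000) (310 / 1000) s
    else if 6 / 10 ≤ M then lp (194 / 1000) (330 / 1000) s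
    else if 5 / 10 ≤ M then lp (202 / 1000) (340 / 1000) s
    else if 4 / 10 ≤ M then lp (208 / 1000) (345 / 1000) s
    else omg s

/-- loss of two removed entries -/
noncomputable def lo2 (s t : ℝ) : ℝ := lf (max s t) (min s t) + omg (max s t)

/-- loss of two merged entries (`b = true`: the vertex is bad, no additive part) -/
noncomputable def lm2 (b : Prop) [Decidable b] (s t : ℝ) : ℝ :=
  (if b then lf (max s t) (min s t) else max (lf (max s t) (min s t)) (gtr (3 / 20) (9 / 20) (min s t)))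
    + omg (max s t)

/-- `L` is a bound of the loss caused by removing the entries `x`, `y`, `z` from a row -/
def LB3 (x y z L : ℝ) : Prop :=
  (y ≤ x ∧ z ≤ x ∧ omg x + (lf x y + lf x z) ≤ L) ∨ (x ≤ y ∧ z ≤ y ∧ omg y + (lf y x + lf y z) ≤ L)
    ∨ (x ≤ z ∧ y ≤ z ∧ omg z + (lf z x + lf z y) ≤ L)

/-- the geometry of a merged entry `u` of the rows `i` (entry `x`) and `j` (entry `y`), `r ^ 2 = 1 - h` -/
def PGeo (h r x y c u : ℝ) : Prop :=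
  c ^ 2 ≤ x * y ∧ x + y ≤ 1 - h + 2 * Real.sqrt h * c ∧
    2 * (1 + h) * u = (1 - r) * x + (1 + r) * y + 2 * Real.sqrt h * c

/-- the defect of the row with the value `G` and the other entries `M` -/
noncomputable def Df (G : ℝ) (M : Multiset ℝ) : ℝ := G - What M.sum

/-- the second components -/
def sn (M : Multiset (ℝ × ℝ)) : Multiset ℝ := M.map Prod.snd

/-- the pairs of entries of the rows `i` and `v` (`a = b i v`) -/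
def Prs (a : ℝ) (Mi : Multiset ℝ) (M : Multiset (ℝ × ℝ)) : Prop :=
  M.map Prod.fst = Mi ∧ ∀ z ∈ M, 0 ≤ z.2 ∧ z.2 ≤ 1 ∧ Tri a z.1 z.2

/-- the value of a row (`M` = the other entries) -/
def Val (G : ℝ) (M : Multiset ℝ) : Prop :=
  G ≤ max (FM (1 ::ₘ M)) (Gam M) ∧ (0 < Df G M → G ≤ FM (1 ::ₘ M))

/-- the payment of `v`: `a = b i v`, `D` = the defect of the row `i`, `dv` = the defect of the row `v`,
`p` = the fraction, `ρ` = bound of `rho` -/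
def Payv (a D dv p ρ : ℝ) : Prop :=
  0 ≤ p ∧ p < 1 ∧ 0 ≤ ρ ∧ (0 < dv → p = 0) ∧ (dv ≤ 0 → 3 * a ^ 2 * (-dv) = p * need D a ρ)

open Classical in
/-- the bound of `rho` for `v`; `a`, `a'` = entries of the row `i` at the two other special vertices, `d`,
`d'` = their defects, `g`, `g'` = their entries in the row `v` -/
noncomputable def Rho (a d g a' d' g' : ℝ) (Mi : Multiset ℝ) (M : Multiset (ℝ × ℝ)) : ℝ :=
  (if 0 < d ∧ 3 / 10 ≤ g then a else 0) + (if 0 < d' ∧ 3 / 10 ≤ g' then a' else 0)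
    + (if ∃ z ∈ M, 3 / 10 ≤ z.2 then Mi.sum else 0)

open Classical in
/-- The configuration. -/
structure Cfg (h t s g1 g2 g3 : ℝ) (Mi : Multiset ℝ) (M1 M2 M3 : Multiset (ℝ × ℝ))
    (G0 G1 G2 G3 p1 p2 p3 ρ1 ρ2 ρ3 : ℝ) : Prop where
  th : t ≤ h
  st : s ≤ t
  s0 : 3 / 10 ≤ s
  h1 : h ≤ 1
  g1m : 0 ≤ g1 ∧ g1 ≤ 1
  g2m : 0 ≤ g2 ∧ g2 ≤ 1
  g3m : 0 ≤ g3 ∧ g3 ≤ 1
  tr1 : Tri h t g1
  tr2 : Tri h s g2
  tr3 : Tri t s g3
  tr4 : Tri g1 g2 g3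
  mi : ∀ x ∈ Mi, 0 ≤ x ∧ x ≤ s
  m1 : Prs h Mi M1
  m2 : Prs t Mi M2
  m3 : Prs s Mi M3
  d0 : 0 < Df G0 (h ::ₘ t ::ₘ s ::ₘ Mi)
  v0 : G0 ≤ FM (1 ::ₘ h ::ₘ t ::ₘ s ::ₘ Mi)
  v1 : Val G1 (h ::ₘ g1 ::ₘ g2 ::ₘ sn M1)
  v2 : Val G2 (t ::ₘ g1 ::ₘ g3 ::ₘ sn M2)
  v3 : Val G3 (s ::ₘ g2 ::ₘ g3 ::ₘ sn M3)
  y1 : Payv h (Df G0 (h ::ₘ t ::ₘ s ::ₘ Mi)) (Df G1 (h ::ₘ g1 ::ₘ g2 ::ₘ sn M1)) p1 ρ1
  y2 : Payv t (Df G0 (h ::ₘ t ::ₘ s ::ₘ Mi)) (Df G2 (t ::ₘ g1 ::ₘ g3 ::ₘ sn M2)) p2 ρ2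
  y3 : Payv s (Df G0 (h ::ₘ t ::ₘ s ::ₘ Mi)) (Df G3 (s ::ₘ g2 ::ₘ g3 ::ₘ sn M3)) p3 ρ3
  psum : p1 + p2 + p3 < 1
  r1 : ρ1 ≤ Rho t (Df G2 (t ::ₘ g1 ::ₘ g3 ::ₘ sn M2)) g1 s (Df G3 (s ::ₘ g2 ::ₘ g3 ::ₘ sn M3)) g2 Mi M1
  r2 : ρ2 ≤ Rho h (Df G1 (h ::ₘ g1 ::ₘ g2 ::ₘ sn M1)) g1 s (Df G3 (s ::ₘ g2 ::ₘ g3 ::ₘ sn M3)) g3 Mi M2
  r3 : ρ3 ≤ Rho h (Df G1 (h ::ₘ g1 ::ₘ g2 ::ₘ sn M1)) g2 t (Df G2 (t ::ₘ g1 ::ₘ g3 ::ₘ sn M2)) g3 Mi M3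
  nr12 : 2 * Real.log (1 + h) < (G0 + Om Mi) + (G1 + Om (sn M1)) + lo2 t g1 + lo2 s g2
  nr13 : 2 * Real.log (1 + t) < (G0 + Om Mi) + (G2 + Om (sn M2)) + lo2 h g1 + lo2 s g3
  nr23 : 2 * Real.log (1 + g1) < (G1 + Om (sn M1)) + (G2 + Om (sn M2)) + lo2 h t + lo2 g2 g3
  nr123 : ∀ L, LB3 s g2 g3 L →
    2 * Real.log (2 * (h + t + g1)) < (G0 + Om Mi) + (G1 + Om (sn M1)) + (G2 + Om (sn M2)) + L
  nr124 : ∀ L, LB3 t g1 g3 L →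
    2 * Real.log (2 * (h + s + g2)) < (G0 + Om Mi) + (G1 + Om (sn M1)) + (G3 + Om (sn M3)) + L
  nr134 : ∀ L, LB3 h g1 g2 L →
    2 * Real.log (2 * (t + s + g3)) < (G0 + Om Mi) + (G2 + Om (sn M2)) + (G3 + Om (sn M3)) + L
  nr234 : ∀ L, LB3 h t s L → 0 < g1 + g2 + g3 →
    2 * Real.log (2 * (g1 + g2 + g3)) < (G1 + Om (sn M1)) + (G2 + Om (sn M2)) + (G3 + Om (sn M3)) + L
  nrall : ∀ S, 0 < S → (S ≤ 4 * (h + t + s + g1 + g2 + g3) - 6 + 2 * (h * g3 + t * g2 + s * g1)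
      ∨ S ≤ 2 * (h + t + g1) ∨ S ≤ 2 * (h + s + g2) ∨ S ≤ 2 * (t + s + g3)
      ∨ S ≤ (1 + h) * (1 + g3) ∨ S ≤ (1 + t) * (1 + g2) ∨ S ≤ (1 + s) * (1 + g1)) →
    2 * Real.log S < (G0 + Om Mi) + (G1 + Om (sn M1)) + (G2 + Om (sn M2)) + (G3 + Om (sn M3))
  n3 : ∀ (r uk ul vk vl : ℝ) (π : ℝ → ℝ → ℝ), r ^ 2 = 1 - h → 0 ≤ uk → 0 ≤ ul →
    2 * (1 + h) * uk ≤ max 0 ((2 - r) * t + (2 + r) * g1 - (1 - h)) → 0 ≤ vk → vk ≤ uk → vk ≤ max t g1 →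
    2 * (1 + h) * ul ≤ max 0 ((2 - r) * s + (2 + r) * g2 - (1 - h)) → 0 ≤ vl → vl ≤ ul → vl ≤ max s g2 →
    (∀ z ∈ M1, ∀ c u, 0 ≤ u → u ≤ 1 → PGeo h r z.1 z.2 c u →
      omg z.1 + omg z.2 - omg (min u (max z.1 z.2)) ≤ π z.1 z.2) →
    2 * Real.log (1 + h) + FM (1 ::ₘ uk ::ₘ ul ::ₘ 0) + omg vk + omg vl
      < G0 + G1 + (M1.map fun z => π z.1 z.2).sum
        + (if 0 < Df G2 (t ::ₘ g1 ::ₘ g3 ::ₘ sn M2) then lm2 True t g1 else lm2 False t g1)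
        + (if 0 < Df G3 (s ::ₘ g2 ::ₘ g3 ::ₘ sn M3) then lm2 True s g2 else lm2 False s g2)

/-- no configuration -/
def NoCfg : Prop := ∀ (h t s g1 g2 g3 : ℝ) (Mi : Multiset ℝ) (M1 M2 M3 : Multiset (ℝ × ℝ))
    (G0 G1 G2 G3 p1 p2 p3 ρ1 ρ2 ρ3 : ℝ), ¬ Cfg h t s g1 g2 g3 Mi M1 M2 M3 G0 G1 G2 G3 p1 p2 p3 ρ1 ρ2 ρ3

/-- the class logic -/
def SpecDC : Prop := NoCfg → LL.SpecC What

/-- the permanent of order four -/
def SpecS4 : Prop := ∀ (n : ℕ) (A : Matrix (Fin n) (Fin n) ℂ), A.PosSemidef → (∀ i, A i i = 1) →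
  ∀ i j k l : Fin n, i ≠ j → i ≠ k → i ≠ l → j ≠ k → j ≠ l → k ≠ l →
  4 * (row A i j + row A i k + row A i l + row A j k + row A j l + row A k l) - 6
    + 2 * (row A i j * row A k l + row A i k * row A j l + row A i l * row A j k) ≤ S A {i, j, k, l}

end C1
end Pool.Agent.Lib.MP_6947cd_al
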