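import Pool.Agent.Lib.MP_6947cd_al.C.Tb
import Pool.Agent.Lib.MP_6947cd_al.Y.TWr
import Pool.Agent.Lib.MP_6947cd_al.L.WConc2

/-!
Problem MP_6947cd_al (Chollet).  THE CHECK OF PACKED TABLES with arbitrary special entries, range by range.
Digit (64 bits) = row bound + `2 ^ 32` row value, unit `1e-7`, `0` = no entry.  The certificate of a row is a
parameter `rc : digits → data → bound → Bool`.
-/

set_option autoImplicit false
open Finset

namespace Pool.Agent.Lib.MP_6947cd_al
namespace PkA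
namespace TF

open Ent Ent.Pk Fr Fr.WT B1

/-- `rc ns D V` certifies the row with the multiplicities `ns` of the knots -/
def RcF (S : Multiset ℝ) (ks : List ℕ) (rc : List ℕ → ℕ → ℕ → Bool) : Prop :=
  ∀ ns D V, rc ns D V = true → FM (1 ::ₘ (S + Ent.mk ns (kR ks))) ≤ (V : ℝ) / 10 ^ 7

/-- the facts of a digit -/
def FctF (S : Multiset ℝ) (rd ks : List ℕ) (D i : ℕ) : Prop :=
  FM (1 ::ₘ (S + Ent.mk (CA.dig rd i) (kR ks))) ≤ ((Nat.land D 4294967295 : ℕ) : ℝ) / 10 ^ 7 ∧
  ((Nat.shiftRight D 32 : ℕ) : ℝ) / 10 ^ 7 ≤ WD.Wd (S.sum + (Ent.mk (CA.dig rd i) (kR ks)).sum)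

/-- the facts of the digits `i0 ≤ i < i1` of a table -/
def RngF (S : Multiset ℝ) (rd ks : List ℕ) (X i0 i1 : ℕ) : Prop :=
  ∀ i, i0 ≤ i → i < i1 → 1 ≤ dg X i → FctF S rd ks (dg X i) i

theorem RngF.glue {S : Multiset ℝ} {rd ks : List ℕ} {X i0 i1 i2 : ℕ} (h : RngF S rd ks X i0 i1)
    (h' : RngF S rd ks X i1 i2) : RngF S rd ks X i0 i2 := by
  intro i h1 h2 h3
  rcases Nat.lt_or_ge i i1 with h4 | h4
  · exact h i h1 h4 h3
  · exact h' i h4 h2 h3

theorem RngF.mono {S : Multiset ℝ} {rd ks : List ℕ} {X i0 i1 j0 j1 : ℕ} (h : RngF S rd ks X i0 i1)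
    (h0 : i0 ≤ j0) (h1 : j1 ≤ i1) : RngF S rd ks X j0 j1 :=
  fun i h2 h3 h4 => h i (h0.trans h2) (h3.trans_le h1) h4

theorem RngF.perm {S S' : Multiset ℝ} {rd ks : List ℕ} {X i0 i1 : ℕ} (h : RngF S rd ks X i0 i1) (e : S = S') :
    RngF S' rd ks X i0 i1 := e ▸ h

/-! ### the check -/

/-- the row value; `c` = sum of the special entries (unit `1 / 1000`) -/
noncomputable def wdC (c : ℕ) (ks ns : List ℕ) (w : ℕ) : Bool :=
  cond (Nat.beq w (nat_lit 0)) true
    (frc (Nat.add c (Nat.mul (nat_lit 5) (ldot ns ks (nat_lit 0)))) fun T =>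
      cond (Nat.ble (nat_lit 300) T) (cond (Nat.ble T (nat_lit 15999))
        (Nat.ble (Nat.mul (nat_lit 20) w) (WD.w20d T)) false) false)

/-- the loop over the nonzero digits of a block; `b` = index of the lowest digit of `B`, `n` = number of certificates
used so far; `R32` = bits of the data of a row, `msk = 2 ^ R32 - 1` -/
noncomputable def tabBF (rc : List ℕ → ℕ → ℕ → Bool) (rd ks : List ℕ) (c R32 msk : ℕ) (f : ℕ) :
    ℕ → ℕ → ℕ → ℕ → (ℕ → Bool) → Bool :=
  @Nat.rec (fun _ => ℕ → ℕ → ℕ → ℕ → (ℕ → Bool) → Bool) (fun _ B _ n k => cond (Nat.beq B (nat_lit 0)) (k n) false)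
    (fun _ ih b B XC n k => cond (Nat.beq B (nat_lit 0)) (k n)
      (frc (lowD B) fun d => frc (Nat.add b d) fun i => frc (Nat.mul (nat_lit 64) d) fun s =>
        frc (Nat.shiftRight B s) fun B1 =>
        cond (Nat.beq (Nat.shiftLeft B1 s) B)
          (frc (Nat.land B1 (nat_lit 18446744073709551615)) fun D =>
          frc (Nat.land D (nat_lit 4294967295)) fun V =>
          cond (CA.digC rd i fun ns =>
              cond (frc (Nat.land XC msk) fun N => rc ns N V)
                (frc (Nat.shiftRight D (nat_lit 32)) fun w => wdC c ks ns w) false)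
            (frc (Nat.succ i) fun i' => frc (Nat.shiftRight B1 (nat_lit 64)) fun B' =>
              frc (Nat.shiftRight XC R32) fun XC' => frc (Nat.succ n) fun n' => ih i' B' XC' n' k) false) false)) f

/-- the loop over the blocks -/
noncomputable def tabTF (rc : List ℕ → ℕ → ℕ → Bool) (rd ks : List ℕ) (c R32 msk mB mC : ℕ) (f : ℕ) :
    ℕ → ℕ → ℕ → Bool :=
  @Nat.rec (fun _ => ℕ → ℕ → ℕ → Bool) (fun _ T _ => Nat.beq T (nat_lit 0))
    (fun _ ih b T XS => cond (Nat.beq T (nat_lit 0)) true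
      (frc (Nat.land T mB) fun B => frc (Nat.land XS mC) fun XC =>
        tabBF rc rd ks c R32 msk (nat_lit 32) b B XC (nat_lit 0) fun n =>
          frc (Nat.add b (nat_lit 32)) fun b' => frc (Nat.shiftRight T (nat_lit 2048)) fun T' =>
          frc (Nat.shiftRight XS (Nat.mul R32 n)) fun XS' => ih b' T' XS')) f

/-- THE CHECK OF A RANGE of a table: the digits `i0 ≤ i < i1` of `TW` (`XS`: data of the nonzero digits OF THE RANGE,
`R` words of 32 bits, from the lowest to the highest; `c` = sum of the special entries in `1 / 1000`) -/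
noncomputable def tabF (rc : List ℕ → ℕ → ℕ → Bool) (rd ks : List ℕ) (c R TW XS i0 i1 : ℕ) : Bool :=
    (frc (Nat.sub i1 i0) fun n => frc (Nat.mul (nat_lit 32) R) fun R32 =>
      frc (Nat.sub (Nat.shiftLeft (nat_lit 1) R32) (nat_lit 1)) fun msk =>
      frc mBk fun mB =>
      frc (Nat.sub (Nat.shiftLeft (nat_lit 1) (Nat.mul (nat_lit 32) R32)) (nat_lit 1)) fun mC =>
      frc (Nat.land (Nat.shiftRight TW (Nat.mul (nat_lit 64) i0))
        (Nat.sub (Nat.shiftLeft (nat_lit 1) (Nat.mul (nat_lit 64) n)) (nat_lit 1))) fun T =>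
        tabTF rc rd ks c R32 msk mB mC n i0 T XS)

/-! ### soundness -/

lemma mk_sum (ks : List ℕ) : ∀ ns : List ℕ, (Ent.mk ns (kR ks)).sum = (Pk.dotN ns ks : ℝ) / 200 := by
  induction ks with
  | nil => intro ns; cases ns <;> simp [kR, Ent.mk, Pk.dotN]
  | cons k ks ih =>
    intro ns
    cases ns with
    | nil => simp [Ent.mk, Pk.dotN]
    | cons n ns =>
      have e : Ent.mk (n :: ns) (kR (k :: ks)) = Multiset.replicate n ((k : ℝ) / 200) + Ent.mk ns (kR ks) := rfl
      rw [e, Multiset.sum_add, Multiset.sum_replicate, ih ns, nsmul_eq_mul]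
      have e2 : Pk.dotN (n :: ns) (k :: ks) = n * k + Pk.dotN ns ks := rfl
      rw [e2]
      push_cast
      ring

lemma lineD_mono {k : ℕ} (h1 : 15 ≤ k) (h2 : k ≤ 799) {s t : ℝ} (h : s ≤ t) : WD.lineD k s ≤ WD.lineD k t := by
  have h4 : WD.yr' k ≤ WD.yr' (k + 1) := yr'_mono k h1 h2
  have h5 : WD.lineD k t = WD.lineD k s + 50 * (t - s) * (WD.yr' (k + 1) - WD.yr' k) := by
    unfold WD.lineD
    ring
  rw [h5]
  have := mul_nonneg (mul_nonneg (show (0 : ℝ) ≤ 50 by norm_num) (sub_nonneg.mpr h)) (sub_nonneg.mpr h4)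
  linarith

theorem Wd_mono {s t : ℝ} (h : s ≤ t) : WD.Wd s ≤ WD.Wd t := by
  rw [WD.Wd, WD.Wd]
  refine (Finset.le_inf'_iff _ _).mpr fun k hk => (Finset.inf'_le _ hk).trans ?_
  rw [Finset.mem_Icc] at hk
  exact lineD_mono hk.1 hk.2 h

lemma wdC_sound {c w : ℕ} {ks ns : List ℕ} (h : wdC c ks ns w = true) {σ : ℝ} (hσ : (c : ℝ) / 1000 ≤ σ)
    (h3 : 3 / 10 ≤ σ) : (w : ℝ) / 10 ^ 7 ≤ WD.Wd (σ + (Ent.mk ns (kR ks)).sum) := by
  have hs : 0 ≤ (Ent.mk ns (kR ks)).sum := by
    rw [mk_sum]
    positivity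
  unfold wdC at h
  cases h0 : Nat.beq w (nat_lit 0) with
  | true =>
    have hw : w = 0 := Nat.eq_of_beq_eq_true h0
    rw [hw, Nat.cast_zero, zero_div]
    exact Wd_nonneg (by linarith)
  | false =>
    rw [h0, cond_false] at h
    simp only [frc_eq] at h
    obtain ⟨h1, h⟩ := cond_eq_true h
    obtain ⟨h2, h⟩ := cond_eq_true h
    rw [ldot_eq] at h1 h2 h
    have e : ((Nat.add c (Nat.mul 5 (0 + Pk.dotN ns ks)) : ℕ) : ℝ) / 1000
        = (c : ℝ) / 1000 + (Ent.mk ns (kR ks)).sum := by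
      rw [mk_sum, Nat.zero_add]
      show ((c + 5 * Pk.dotN ns ks : ℕ) : ℝ) / 1000 = _
      push_cast
      ring
    refine le_trans ?_ (Wd_mono (show (c : ℝ) / 1000 + (Ent.mk ns (kR ks)).sum
      ≤ σ + (Ent.mk ns (kR ks)).sum by linarith))
    rw [← e]
    have h1 := Nat.le_of_ble_eq_true h1
    have h2 := Nat.le_of_ble_eq_true h2
    refine le_trans ?_ (WD.w20d_le _ h1 (by omega))
    have h4 : (20 : ℝ) * (w : ℝ) ≤ (WD.w20d (Nat.add c (Nat.mul 5 (0 + Pk.dotN ns ks))) : ℕ) := by
      exact_mod_cast Nat.le_of_ble_eq_true h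
    rw [div_le_div_iff₀ (by norm_num) (by norm_num)]
    nlinarith

section
variable {S : Multiset ℝ} {rd ks : List ℕ} {rc : List ℕ → ℕ → ℕ → Bool} {c : ℕ}

lemma tabBF_sound (hrc : RcF S ks rc) (hc : (c : ℝ) / 1000 ≤ S.sum) (h3 : 3 / 10 ≤ S.sum) (R32 msk f : ℕ) :
    ∀ b B XC n k, tabBF rc rd ks c R32 msk f b B XC n k = true → (∃ n', k n' = true) ∧
      ∀ j, 1 ≤ dg B j → FctF S rd ks (dg B j) (b + j) := by
  induction f with
  | zero =>
    intro b B XC n k h
    have e : tabBF rc rd ks c R32 msk 0 b B XC n k = cond (Nat.beq B (nat_lit 0)) (k n) false := rfl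
    rw [e] at h
    obtain ⟨h1, h2⟩ := cond_eq_true h
    refine ⟨⟨n, h2⟩, fun j hj => ?_⟩
    have h0 : B = 0 := Nat.eq_of_beq_eq_true h1
    rw [h0, dg_eq, Nat.zero_div] at hj
    norm_num at hj
  | succ f ih =>
    intro b B XC n k h
    have e : tabBF rc rd ks c R32 msk (f + 1) b B XC n k = cond (Nat.beq B (nat_lit 0)) (k n)
      (frc (lowD B) fun d => frc (Nat.add b d) fun i => frc (Nat.mul (nat_lit 64) d) fun s =>
        frc (Nat.shiftRight B s) fun B1 =>
        cond (Nat.beq (Nat.shiftLeft B1 s) B)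
          (frc (Nat.land B1 (nat_lit 18446744073709551615)) fun D =>
          frc (Nat.land D (nat_lit 4294967295)) fun V =>
          cond (CA.digC rd i fun ns =>
              cond (frc (Nat.land XC msk) fun N => rc ns N V)
                (frc (Nat.shiftRight D (nat_lit 32)) fun w => wdC c ks ns w) false)
            (frc (Nat.succ i) fun i' => frc (Nat.shiftRight B1 (nat_lit 64)) fun B' =>
              frc (Nat.shiftRight XC R32) fun XC' => frc (Nat.succ n) fun n' =>
                tabBF rc rd ks c R32 msk f i' B' XC' n' k) false) false) := rfl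
    rw [e] at h
    simp only [frc_eq] at h
    cases hb : Nat.beq B (nat_lit 0) with
    | true =>
      rw [hb, cond_true] at h
      refine ⟨⟨n, h⟩, fun j hj => ?_⟩
      have h0 : B = 0 := Nat.eq_of_beq_eq_true hb
      rw [h0, dg_eq, Nat.zero_div] at hj
      norm_num at hj
    | false =>
      rw [hb, cond_false] at h
      obtain ⟨d, hd⟩ : ∃ d, d = lowD B := ⟨_, rfl⟩
      rw [← hd] at h
      obtain ⟨h1, h⟩ := cond_eq_true h
      obtain ⟨h2, h4⟩ := cond_eq_true h
      have h1 : Nat.shiftLeft (Nat.shiftRight B (Nat.mul 64 d)) (Nat.mul 64 d) = B := Nat.eq_of_beq_eq_true h1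
      have e3 : Nat.shiftRight (Nat.shiftRight B (Nat.mul 64 d)) (nat_lit 64) = Nat.shiftRight B (Nat.mul 64 (d + 1)) := by
        show (B >>> (64 * d)) >>> 64 = B >>> (64 * (d + 1))
        rw [← Nat.shiftRight_add]
        congr 1
      have eD : Nat.land (Nat.shiftRight B (Nat.mul 64 d)) (nat_lit 18446744073709551615) = dg B d := rfl
      rw [e3] at h4
      rw [eD] at h2
      obtain ⟨h5, h6⟩ := ih _ _ _ _ _ h4
      refine ⟨h5, fun j hj => ?_⟩
      rcases Nat.lt_trichotomy j d with hlt | rfl | hgt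
      · exfalso
        rw [← h1, dg_shl _ _ _ hlt] at hj
        norm_num at hj
      · rw [CA.digC_eq] at h2
        obtain ⟨h9, h10⟩ := cond_eq_true h2
        exact ⟨hrc _ _ _ h9, wdC_sound h10 hc h3⟩
      · obtain ⟨e', he'⟩ := Nat.exists_eq_add_of_lt hgt
        have h7 := h6 e' (by
          rw [dg_shr, show e' + (d + 1) = j by omega]
          exact hj)
        rw [dg_shr, show e' + (d + 1) = j by omega] at h7
        have e4 : Nat.succ (Nat.add b d) + e' = b + j := by
          show b + d + 1 + e' = b + j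
          omega
        rw [e4] at h7
        exact h7

lemma tabTF_sound (hrc : RcF S ks rc) (hc : (c : ℝ) / 1000 ≤ S.sum) (h3 : 3 / 10 ≤ S.sum) (R32 msk mC f : ℕ) :
    ∀ b T XS, tabTF rc rd ks c R32 msk mBk mC f b T XS = true → ∀ j, 1 ≤ dg T j →
      FctF S rd ks (dg T j) (b + j) := by
  induction f with
  | zero =>
    intro b T XS h j hj
    have h0 : T = 0 := Nat.eq_of_beq_eq_true h
    rw [h0, dg_eq, Nat.zero_div] at hj
    norm_num at hj
  | succ f ih =>
    intro b T XS h j hj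
    have e : tabTF rc rd ks c R32 msk mBk mC (f + 1) b T XS = cond (Nat.beq T (nat_lit 0)) true
      (frc (Nat.land T mBk) fun B => frc (Nat.land XS mC) fun XC =>
        tabBF rc rd ks c R32 msk (nat_lit 32) b B XC (nat_lit 0) fun n =>
          frc (Nat.add b (nat_lit 32)) fun b' => frc (Nat.shiftRight T (nat_lit 2048)) fun T' =>
          frc (Nat.shiftRight XS (Nat.mul R32 n)) fun XS' =>
            tabTF rc rd ks c R32 msk mBk mC f b' T' XS') := rfl
    rw [e] at h
    simp only [frc_eq] at h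
    cases hb : Nat.beq T (nat_lit 0) with
    | true =>
      have h0 : T = 0 := Nat.eq_of_beq_eq_true hb
      rw [h0, dg_eq, Nat.zero_div] at hj
      norm_num at hj
    | false =>
      rw [hb, cond_false] at h
      obtain ⟨⟨n, h1⟩, h2⟩ := tabBF_sound hrc hc h3 _ _ _ _ _ _ _ _ h
      rcases Nat.lt_or_ge j 32 with h5 | h5
      · have h4 := h2 j (by rw [dg_blk T j h5]; exact hj)
        rw [dg_blk T j h5] at h4
        exact h4
      · obtain ⟨e', rfl⟩ := Nat.exists_eq_add_of_le h5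
        have e3 : Nat.shiftRight T (nat_lit 2048) = Nat.shiftRight T (Nat.mul 64 32) := rfl
        rw [e3] at h1
        have h4 := ih _ _ _ h1 e' (by
          rw [dg_shr, show e' + 32 = 32 + e' by ring]
          exact hj)
        rw [dg_shr, show e' + 32 = 32 + e' by ring] at h4
        have e4 : Nat.add b 32 + e' = b + (32 + e') := by
          show b + 32 + e' = b + (32 + e')
          ring
        rw [e4] at h4
        exact h4

/-- SOUNDNESS of the check of a range. -/
theorem tabF_sound (hrc : RcF S ks rc) (hc : (c : ℝ) / 1000 ≤ S.sum) (h3 : 3 / 10 ≤ S.sum) {R X XS i0 i1 : ℕ}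
    (h : tabF rc rd ks c R X XS i0 i1 = true) : RngF S rd ks X i0 i1 := by
  unfold tabF at h
  simp only [frc_eq] at h
  have h4 := tabTF_sound hrc hc h3 _ _ _ _ _ _ _ h
  intro i h5 h6 h7
  obtain ⟨j, rfl⟩ := Nat.exists_eq_add_of_le h5
  have h8 : j < Nat.sub i1 i0 := by
    show j < i1 - i0
    omega
  have h9 := h4 j
  rw [dg_cut _ _ _ h8, dg_shr, show j + i0 = i0 + j by ring] at h9
  exact h9 h7

end

/-! ### special entries as a list of natural numbers (unit `1 / 400`) -/

/-- the special entries -/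
noncomputable def msp (sp : List ℕ) : Multiset ℝ := ((sp.map fun x : ℕ => (x : ℝ) / 400 : List ℝ) : Multiset ℝ)

lemma msp_cons (x : ℕ) (sp : List ℕ) : msp (x :: sp) = ((x : ℝ) / 400) ::ₘ msp sp := rfl

lemma msp_nil : msp [] = 0 := rfl

lemma msp_sum (sp : List ℕ) : (msp sp).sum = (sp.sum : ℝ) / 400 := by
  induction sp with
  | nil => simp [msp_nil]
  | cons x sp ih =>
    rw [msp_cons, Multiset.sum_cons, ih, List.sum_cons]
    push_cast
    ring

/-- THE CHECK OF A RANGE of a table -/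
noncomputable def tabG (rc : List ℕ → ℕ → ℕ → Bool) (sp rd ks : List ℕ) (R X XS i0 i1 : ℕ) : Bool :=
  frc (lsum sp (nat_lit 0)) fun s => cond (Nat.ble (nat_lit 120) s)
    (frc (Nat.div (Nat.mul (nat_lit 5) s) (nat_lit 2)) fun c => tabF rc rd ks c R X XS i0 i1) false

theorem tabG_sound {rc : List ℕ → ℕ → ℕ → Bool} {sp rd ks : List ℕ} (hrc : RcF (msp sp) ks rc) {R X XS i0 i1 : ℕ}
    (h : tabG rc sp rd ks R X XS i0 i1 = true) : RngF (msp sp) rd ks X i0 i1 := by
  unfold tabG at h
  simp only [frc_eq] at h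
  obtain ⟨h1, h⟩ := cond_eq_true h
  rw [lsum_eq, Nat.zero_add] at h1 h
  have h1 : 120 ≤ sp.sum := Nat.le_of_ble_eq_true h1
  have h1' : (120 : ℝ) ≤ sp.sum := by exact_mod_cast h1
  refine tabF_sound hrc ?_ ?_ h
  · rw [msp_sum]
    have h2 : 2 * Nat.div (Nat.mul 5 sp.sum) 2 ≤ 5 * sp.sum := Nat.mul_div_le _ _
    have h3 : (2 : ℝ) * (Nat.div (Nat.mul 5 sp.sum) 2 : ℕ) ≤ 5 * sp.sum := by exact_mod_cast h2
    linarith
  · rw [msp_sum]
    linarith

/-! ### certificates of the form `rowOK` -/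

/-- the entries; special entries `0` are omitted -/
def vF (ks : List ℕ) : List ℕ → List (ℕ × ℕ)
  | [] => ks.map fun k => (k, 200)
  | x :: sp => bif Nat.beq x 0 then vF ks sp else (x, 400) :: vF ks sp

/-- the multiplicities -/
def oF (ns : List ℕ) : List ℕ → List ℕ
  | [] => ns
  | x :: sp => bif Nat.beq x 0 then oF ns sp else 1 :: oF ns sp

/-- `D` = packed numbers `X_a`, 32 bits; `rk` = `rowOK` or any other sound check -/
noncomputable def rcP (rk : List (ℕ × ℕ) → List ℕ → List ℕ → ℕ → Bool) (sp ks : List ℕ) (R : ℕ) (ns : List ℕ)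
    (D V : ℕ) : Bool :=
  CA.upk R D fun X => rk ((1, 1) :: vF ks sp) (1 :: oF ns sp) X V

lemma mk_one (x : ℝ) (ns : List ℕ) (xs : List ℝ) : Ent.mk (1 :: ns) (x :: xs) = x ::ₘ Ent.mk ns xs := by
  have e : Ent.mk (1 :: ns) (x :: xs) = Multiset.replicate 1 x + Ent.mk ns xs := rfl
  rw [e, Multiset.replicate_one, Multiset.singleton_add]

lemma FM_vF (ks ns : List ℕ) (sp : List ℕ) : ∀ M : Multiset ℝ,
    FM (M + Ent.mk (oF ns sp) ((vF ks sp).map fun u => (u.1 : ℝ) / (u.2 : ℝ)))
      = FM (M + (msp sp + Ent.mk ns (kR ks))) := by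
  induction sp with
  | nil =>
    intro M
    have e : (vF ks []).map (fun u => (u.1 : ℝ) / (u.2 : ℝ)) = kR ks := by
      unfold vF kR
      rw [List.map_map]
      rfl
    rw [e, msp_nil, zero_add]
    rfl
  | cons x sp ih =>
    intro M
    cases h0 : Nat.beq x 0 with
    | true =>
      have hx : x = 0 := Nat.eq_of_beq_eq_true h0
      have e1 : oF ns (x :: sp) = oF ns sp := by
        rw [oF, h0, cond_true]
      have e2 : vF ks (x :: sp) = vF ks sp := by
        rw [vF, h0, cond_true]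
      rw [e1, e2, ih M, msp_cons, hx, Nat.cast_zero, zero_div, Multiset.cons_add, Multiset.add_cons, FM_zero_cons]
    | false =>
      have e1 : oF ns (x :: sp) = 1 :: oF ns sp := by
        rw [oF, h0]
        rfl
      have e2 : vF ks (x :: sp) = (x, 400) :: vF ks sp := by
        rw [vF, h0]
        rfl
      rw [e1, e2, List.map_cons, mk_one, msp_cons, Multiset.cons_add, Multiset.add_cons, Multiset.add_cons,
        ← Multiset.cons_add, ← Multiset.cons_add, ih]
      norm_num

/-- a sound check of the form `rowOK` is a certificate. -/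
theorem rcF_P {rk : List (ℕ × ℕ) → List ℕ → List ℕ → ℕ → Bool} (hrk : RcOK rk) (sp ks : List ℕ) (R : ℕ) :
    RcF (msp sp) ks (rcP rk sp ks R) := by
  intro ns D V h
  obtain ⟨X, hX⟩ := CA.upk_sound _ _ _ h
  have h1 := hrk _ _ _ _ hX
  rw [List.map_cons, mk_one] at h1
  have h2 := FM_vF ks ns sp {((1, 1) : ℕ × ℕ).1 / (((1, 1) : ℕ × ℕ).2 : ℝ)}
  rw [Multiset.singleton_add, Multiset.singleton_add] at h2
  rw [h2] at h1
  norm_num at h1 ⊢
  exact h1

/-! ### all the digits of a table -/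

/-- the valid digits of a table are correct -/
abbrev TvD (rd ks : List ℕ) (S : Multiset ℝ) (X : ℕ) : Prop := Tv rd ks S X

theorem TvD.of_rng {S : Multiset ℝ} {rd ks : List ℕ} {X N : ℕ} (hN : prd rd = N) (h : RngF S rd ks X 0 N) :
    TvD rd ks S X := by
  subst hN
  have h5 : ∀ i < prd rd, 1 ≤ dg (loT (prd rd) X) i → 1 ≤ dg X i := by
    intro i hi hp
    rw [dg_lo _ _ _ hi] at hp
    have h6 : Nat.land (dg X i) 4294967295 ≤ dg X i := Nat.and_le_left
    omega
  refine ⟨fun i hi hp => ?_, fun i hi hp => ?_⟩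
  · rw [dg_lo _ _ _ hi]
    exact (h i (Nat.zero_le _) hi (h5 i hi hp)).1
  · rw [dg_hi _ _ _ hi]
    exact (h i (Nat.zero_le _) hi (h5 i hi hp)).2

/-- the table without valid digits -/
theorem TvD.zero (rd ks : List ℕ) (S : Multiset ℝ) : TvD rd ks S 0 := by
  have h0 : ∀ i < prd rd, dg (loT (prd rd) 0) i = 0 := by
    intro i hi
    rw [dg_lo _ _ _ hi, dg_eq, Nat.zero_div]
    rfl
  exact ⟨fun i hi hp => by rw [h0 i hi] at hp; omega, fun i hi hp => by rw [h0 i hi] at hp; omega⟩

theorem TvD.perm {rd ks : List ℕ} {S S' : Multiset ℝ} {X : ℕ} (h : TvD rd ks S X) (e : S = S') :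
    TvD rd ks S' X := e ▸ h

/-- an entry `0` more -/
theorem TvD.drop {rd ks : List ℕ} {S : Multiset ℝ} {X : ℕ} (h : TvD rd ks (0 ::ₘ S) X) : TvD rd ks S X := by
  refine ⟨fun i hi hp => ?_, fun i hi hp => ?_⟩
  · have := h.hF i hi hp
    rwa [Multiset.cons_add, Multiset.cons_swap, FM_zero_cons] at this
  · have := h.hw i hi hp
    rwa [Multiset.sum_cons, zero_add] at this

/-! ### families of tables: search trees -/

/-- a family of tables: search tree, key of the special entries, packed table -/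
inductive TT where
  | nil : TT
  | node (l : TT) (k X : ℕ) (r : TT) : TT

/-- the key of three special entries (unit `1 / 400`) -/
def ky3 (a y z : ℕ) : ℕ :=
  Nat.add (Nat.mul (Nat.add (Nat.mul a (nat_lit 1024)) y) (nat_lit 1024)) z

/-- the key of the three special entries in increasing order -/
def kys (a y z : ℕ) : ℕ :=
  cond (Nat.ble a y) (cond (Nat.ble y z) (ky3 a y z) (cond (Nat.ble a z) (ky3 a z y) (ky3 z a y)))
    (cond (Nat.ble a z) (ky3 y a z) (cond (Nat.ble y z) (ky3 y z a) (ky3 z y a)))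

/-- the table with the key `k`, `0` if there is none -/
noncomputable def lk (k : ℕ) (T : TT) : ℕ :=
  @TT.rec (fun _ => ℕ) (nat_lit 0) (fun _ k' X _ ihl ihr => cond (Nat.beq k k') X (cond (Nat.ble k k') ihl ihr)) T

/-- the table of three special entries in any order -/
noncomputable def lk3 (T : TT) (a y z : ℕ) : ℕ := frc (kys a y z) fun k => lk k T

/-- all the tables are correct -/
def TOK (rd ks : List ℕ) : TT → Prop
  | .nil => True
  | .node l k X r => TOK rd ks l ∧ TOK rd ks r ∧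
      ∃ a y z : ℕ, a < 1024 ∧ y < 1024 ∧ z < 1024 ∧ k = ky3 a y z ∧ TvD rd ks (msp [a, y, z]) X

theorem TOK.nil {rd ks : List ℕ} : TOK rd ks .nil := trivial

theorem TOK.node {rd ks : List ℕ} {l r : TT} {a y z X N : ℕ} (hl : TOK rd ks l) (hr : TOK rd ks r)
    (h : RngF (msp [a, y, z]) rd ks X 0 N) (hN : prd rd = N) (ha : a < 1024) (hy : y < 1024) (hz : z < 1024) {k : ℕ}
    (hk : k = ky3 a y z) : TOK rd ks (.node l k X r) :=
  ⟨hl, hr, a, y, z, ha, hy, hz, hk, TvD.of_rng hN h⟩

lemma ky3_inj {a y z a' y' z' : ℕ} (hy : y < 1024) (hz : z < 1024) (hy' : y' < 1024) (hz' : z' < 1024)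
    (h : ky3 a y z = ky3 a' y' z') : a = a' ∧ y = y' ∧ z = z' := by
  have e : ∀ a y z, ky3 a y z = (a * 1024 + y) * 1024 + z := fun _ _ _ => rfl
  rw [e, e] at h
  omega

lemma lk_ok {rd ks : List ℕ} {a y z : ℕ} (hy : y < 1024) (hz : z < 1024) (T : TT)
    (h : TOK rd ks T) : TvD rd ks (msp [a, y, z]) (lk (ky3 a y z) T) := by
  induction T with
  | nil => exact TvD.zero _ _ _
  | node l k X r ihl ihr =>
    obtain ⟨h1, h2, a', y', z', -, hy', hz', hk, h3⟩ := h
    have e : lk (ky3 a y z) (.node l k X r) = cond (Nat.beq (ky3 a y z) k) X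
      (cond (Nat.ble (ky3 a y z) k) (lk (ky3 a y z) l) (lk (ky3 a y z) r)) := rfl
    rw [e]
    cases hb : Nat.beq (ky3 a y z) k with
    | true =>
      have h4 : ky3 a y z = k := Nat.eq_of_beq_eq_true hb
      rw [hk] at h4
      obtain ⟨rfl, rfl, rfl⟩ := ky3_inj hy hz hy' hz' h4
      exact h3
    | false =>
      rw [cond_false]
      cases Nat.ble (ky3 a y z) k with
      | true => exact ihl h1
      | false => exact ihr h2

lemma msp3 (a y z : ℕ) : msp [a, y, z] = Sp ((a : ℝ) / 400) ((y : ℝ) / 400) ((z : ℝ) / 400) := rfl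

/-- THE TABLE of three special entries in any order. -/
theorem lk3_ok {rd ks : List ℕ} {T : TT} (h : TOK rd ks T) {a y z : ℕ} (ha : a ≤ 400) (hy : y ≤ 400) (hz : z ≤ 400) :
    TvD rd ks (Sp ((a : ℝ) / 400) ((y : ℝ) / 400) ((z : ℝ) / 400)) (lk3 T a y z) := by
  have key : ∀ {b c d : ℕ}, c < 1024 → d < 1024 → msp [b, c, d] = msp [a, y, z] →
      TvD rd ks (Sp ((a : ℝ) / 400) ((y : ℝ) / 400) ((z : ℝ) / 400)) (lk (ky3 b c d) T) := by
    intro b c d hc hd he
    exact (lk_ok hc hd T h).perm (he.trans (msp3 a y z))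
  unfold lk3
  rw [frc_eq]
  unfold kys
  have s1 : ∀ b c d : ℕ, msp [b, c, d] = msp [c, b, d] := fun b c d => by
    simp only [msp_cons]
    rw [Multiset.cons_swap]
  have s2 : ∀ b c d : ℕ, msp [b, c, d] = msp [b, d, c] := fun b c d => by
    simp only [msp_cons]
    rw [Multiset.cons_swap ((c : ℝ) / 400)]
  cases Nat.ble a y with
  | true =>
    cases Nat.ble y z with
    | true => exact key (by omega) (by omega) rfl
    | false =>
      cases Nat.ble a z with
      | true => exact key (by omega) (by omega) (s2 _ _ _)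
      | false => exact key (by omega) (by omega) ((s1 _ _ _).trans (s2 _ _ _))
  | false =>
    cases Nat.ble a z with
    | true => exact key (by omega) (by omega) (s1 _ _ _)
    | false =>
      cases Nat.ble y z with
      | true => exact key (by omega) (by omega) ((s2 _ _ _).trans (s1 _ _ _))
      | false => exact key (by omega) (by omega) ((s1 _ _ _).trans ((s2 _ _ _).trans (s1 _ _ _)))

/-- the table of two special entries in any order -/
theorem lk3_ok2 {rd ks : List ℕ} {T : TT} (h : TOK rd ks T) {a y : ℕ} (ha : a ≤ 400) (hy : y ≤ 400) :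
    TvD rd ks (Sq ((a : ℝ) / 400) ((y : ℝ) / 400)) (lk3 T a y (nat_lit 0)) := by
  have h1 := lk3_ok h ha hy (show (0 : ℕ) ≤ 400 by omega)
  refine (h1.perm (S' := (0 : ℝ) ::ₘ Sq ((a : ℝ) / 400) ((y : ℝ) / 400)) ?_).drop
  unfold Sp Sq
  rw [Nat.cast_zero, zero_div, Multiset.cons_swap ((y : ℝ) / 400) 0, Multiset.cons_swap ((a : ℝ) / 400) 0]

/-- A FAMILY: radices, knots (unit `1 / 200`), tables -/
structure Fam where
  rd : List ℕ
  ks : List ℕ
  T : TT

/-- the data of a family are correct -/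
structure Fam.OK (F : Fam) : Prop where
  cnt : CntOK F.rd (cnts F.rd 1)
  len : F.ks.length = F.rd.length
  kn : KnOK F.ks
  k2 : ∀ k ∈ F.ks, k ≤ 200
  tab : TOK F.rd F.ks F.T

/-- increasing knots -/
def incC (a : ℕ) : List ℕ → Bool
  | [] => Nat.ble a 200
  | k :: ks => Nat.ble (a + 1) k && incC k ks

lemma incC_sound (ks : List ℕ) : ∀ a, incC a ks = true → Inc ((a : ℝ) / 200) (kR ks) ∧ ∀ k ∈ ks, k ≤ 200 := by
  induction ks with
  | nil =>
    intro a h
    have h1 : a ≤ 200 := Nat.le_of_ble_eq_true h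
    have h2 : (a : ℝ) ≤ 200 := by exact_mod_cast h1
    refine ⟨?_, fun k hk => absurd hk (by simp)⟩
    show (a : ℝ) / 200 ≤ 1
    linarith
  | cons k ks ih =>
    intro a h
    unfold incC at h
    rw [Bool.and_eq_true] at h
    obtain ⟨h1, h2⟩ := ih k h.2
    have h3 : a + 1 ≤ k := Nat.le_of_ble_eq_true h.1
    have h4 : (a : ℝ) + 1 ≤ k := by exact_mod_cast h3
    refine ⟨⟨?_, h1⟩, fun k' hk' => ?_⟩
    · show (a : ℝ) / 200 < (k : ℝ) / 200
      linarith
    · rcases List.mem_cons.mp hk' with rfl | hk'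
      · -- the last knot is at most 200
        clear ih h1 h3 h4
        have : ∀ (ks : List ℕ) (b : ℕ), incC b ks = true → b ≤ 200 := by
          intro ks
          induction ks with
          | nil => intro b hb; exact Nat.le_of_ble_eq_true hb
          | cons c ks ih =>
            intro b hb
            unfold incC at hb
            rw [Bool.and_eq_true] at hb
            have h5 := ih c hb.2
            have h6 : b + 1 ≤ c := Nat.le_of_ble_eq_true hb.1
            omega
        exact this ks _ h.2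
      · exact h2 k' hk'

/-- the check of the radices and the knots -/
noncomputable def famC (rd ks : List ℕ) : Bool := cntOKb rd && (Nat.beq ks.length rd.length && incC 0 ks)

theorem Fam.OK.of {rd ks : List ℕ} {T : TT} (h : famC rd ks = true) (hT : TOK rd ks T) : Fam.OK ⟨rd, ks, T⟩ := by
  unfold famC at h
  rw [Bool.and_eq_true, Bool.and_eq_true] at h
  obtain ⟨h1, h2⟩ := incC_sound ks 0 h.2.2
  rw [Nat.cast_zero, zero_div] at h1
  exact ⟨cntOK_sound _ h.1, Nat.eq_of_beq_eq_true h.2.1, h1, h2, hT⟩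

/-- the family number `i` of an environment, passed to `k`; `false` if there is none -/
noncomputable def famN (k : Fam → Bool) (l : List Fam) : ℕ → Bool :=
  @List.rec Fam (fun _ => ℕ → Bool) (fun _ => false)
    (fun F _ ih i => @Nat.rec (fun _ => Bool) (k F) (fun j _ => ih j) i) l

/-- an environment -/
def EnvF (l : List Fam) : Prop := ∀ F ∈ l, F.OK

theorem famN_sound {l : List Fam} (hl : EnvF l) {k : Fam → Bool} {i : ℕ} (h : famN k l i = true) :
    ∃ F, F.OK ∧ k F = true := by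
  induction l generalizing i with
  | nil => exact Bool.noConfusion h
  | cons F l ih =>
    cases i with
    | zero => exact ⟨F, hl F (List.mem_cons_self ..), h⟩
    | succ i => exact ih (fun G hG => hl G (List.mem_cons_of_mem _ hG)) h

end TF
end PkA
end Pool.Agent.Lib.MP_6947cd_al
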