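import Pool.Agent.Lib.MP_6947cd_al.C.Cel
import Pool.Agent.Lib.MP_6947cd_al.C.TabF

/-!
Problem MP_6947cd_al (Chollet).  THE CORNERS OF THE BOX of the special entries from the tables of a family at the nodes
of a grid: the value at a corner is a chord in the cell of this corner (the two ends of a coordinate may lie in
different cells).  Borders = integers in the unit `1 / 400`.
-/

set_option autoImplicit false
open Finset

namespace Pool.Agent.Lib.MP_6947cd_al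
namespace B3

open Ent Ent.Pk Fr Fr.WT PkA PkA.TF B1 B2

/-- the nodes of a point (grid step `s`, lowest node `m`): `K lo hi w p`: weights `p / w`, `1 - p / w` -/
noncomputable def nod (m s u : ℕ) (K : ℕ → ℕ → ℕ → ℕ → Bool) : Bool :=
  frc (Nat.mul s (Nat.div u s)) fun q =>
  frc (cond (Nat.ble m q) q m) fun lo =>
  cond (Nat.beq u lo) (K lo lo (nat_lit 1) (nat_lit 1))
    (frc (Nat.add q s) fun hi =>
      cond (Nat.ble lo u) (cond (Nat.ble (Nat.succ u) hi) (cond (Nat.ble hi (nat_lit 400))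
        (K lo hi (Nat.sub hi lo) (Nat.sub hi u)) false) false) false)

/-- the point is in the cell -/
structure NdOK (m u lo hi w p : ℕ) : Prop where
  ml : m ≤ lo
  lh : lo ≤ hi
  h4 : hi ≤ 400
  w0 : 0 < w
  pw : p ≤ w
  e : w * u = p * lo + (w - p) * hi

lemma nod_sound {m s u : ℕ} {K : ℕ → ℕ → ℕ → ℕ → Bool} (hu : u ≤ 400) (h : nod m s u K = true) :
    ∃ lo hi w p, K lo hi w p = true ∧ NdOK m u lo hi w p := by
  unfold nod at h
  simp only [frc_eq] at h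
  obtain ⟨q, hq⟩ : ∃ q, q = Nat.mul s (Nat.div u s) := ⟨_, rfl⟩
  rw [← hq] at h
  obtain ⟨lo, hlo⟩ : ∃ lo, lo = cond (Nat.ble m q) q m := ⟨_, rfl⟩
  rw [← hlo] at h
  have hm : m ≤ lo := by
    rw [hlo]
    cases hb : Nat.ble m q with
    | true => exact Nat.le_of_ble_eq_true hb
    | false => exact le_rfl
  cases hu0 : Nat.beq u lo with
  | true =>
    rw [hu0, cond_true] at h
    have e : u = lo := Nat.eq_of_beq_eq_true hu0
    refine ⟨_, _, _, _, h, hm, le_rfl, by omega, Nat.one_pos, le_rfl, ?_⟩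
    rw [e]
    show 1 * lo = 1 * lo + (1 - 1) * lo
    omega
  | false =>
    rw [hu0, cond_false] at h
    obtain ⟨h1, h⟩ := cond_eq_true h
    obtain ⟨h2, h⟩ := cond_eq_true h
    obtain ⟨h3, h⟩ := cond_eq_true h
    obtain ⟨hi, hhi⟩ : ∃ hi, hi = Nat.add q s := ⟨_, rfl⟩
    rw [← hhi] at h h2 h3
    have h1 : lo ≤ u := Nat.le_of_ble_eq_true h1
    have h2 : u + 1 ≤ hi := Nat.le_of_ble_eq_true h2
    have h3 : hi ≤ 400 := Nat.le_of_ble_eq_true h3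
    refine ⟨_, _, _, _, h, hm, by omega, h3, ?_, ?_, ?_⟩
    · show 0 < hi - lo
      omega
    · show hi - u ≤ hi - lo
      omega
    · show (hi - lo) * u = (hi - u) * lo + ((hi - lo) - (hi - u)) * hi
      obtain ⟨a, ha⟩ := Nat.exists_eq_add_of_le h1
      obtain ⟨b, hb⟩ := Nat.exists_eq_add_of_le (show u ≤ hi by omega)
      have e1 : hi - lo = a + b := by omega
      have e2 : hi - u = b := by omega
      have e3 : a + b - b = a := by omega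
      rw [e1, e2, e3, hb, ha]
      ring

/-- the two ends of a coordinate: `K i0 j0 i1 j1 c l0 l1` (nodes, chord numbers) -/
noncomputable def crF (m s u0 u1 : ℕ) (K : ℕ → ℕ → ℕ → ℕ → ℕ → ℕ → ℕ → Bool) : Bool :=
  cond (Nat.ble u0 u1) (cond (Nat.ble u1 (nat_lit 400))
    (nod m s u0 fun i0 j0 w0 p0 => nod m s u1 fun i1 j1 w1 p1 =>
      let L := Nat.mul w0 w1;
      let a := Nat.mul p0 w1;
      let b := Nat.mul p1 w0;
      let g := Nat.gcd L (Nat.gcd a b);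
      frc (Nat.div L g) fun c => frc (Nat.div a g) fun l0 => frc (Nat.div b g) fun l1 =>
        K i0 j0 i1 j1 c l0 l1) false) false

/-- the facts of an end -/
structure EdF (m u i j c l : ℕ) : Prop where
  mi : m ≤ i
  ij : i ≤ j
  j4 : j ≤ 400
  c0 : 0 < c
  lc : l ≤ c
  e : (c : ℝ) * ((u : ℝ) / 400) = l * ((i : ℝ) / 400) + (c - l) * ((j : ℝ) / 400)

lemma EdF.of {m u lo hi w p : ℕ} (h : NdOK m u lo hi w p) {g f c l : ℕ}
    (hg : 0 < g) (hf : 0 < f) (h1 : w * f = g * c) (h2 : p * f = g * l) : EdF m u lo hi c l := by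
  obtain ⟨ml, lh, h4, w0, pw, e⟩ := h
  have hc : 0 < c := by
    rcases Nat.eq_zero_or_pos c with h0 | h0
    · rw [h0, Nat.mul_zero] at h1
      have := Nat.mul_pos w0 hf
      omega
    · exact h0
  refine ⟨ml, lh, h4, hc, ?_, ?_⟩
  · have h3 : g * l ≤ g * c := by
      rw [← h1, ← h2]
      exact Nat.mul_le_mul_right _ pw
    exact Nat.le_of_mul_le_mul_left h3 hg
  · have hgR : (0 : ℝ) < g := by exact_mod_cast hg
    have e' : (w : ℝ) * u = p * lo + ((w : ℝ) - p) * hi := by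
      have : ((w * u : ℕ) : ℝ) = ((p * lo + (w - p) * hi : ℕ) : ℝ) := by rw [e]
      push_cast [Nat.cast_sub pw] at this
      exact this
    have h1' : (w : ℝ) * f = g * c := by exact_mod_cast h1
    have h2' : (p : ℝ) * f = g * l := by exact_mod_cast h2
    have key : (c : ℝ) * u = l * lo + ((c : ℝ) - l) * hi := by
      have : (g : ℝ) * ((c : ℝ) * u) = g * (l * lo + ((c : ℝ) - l) * hi) := by
        calc (g : ℝ) * ((c : ℝ) * u) = (w * f) * u := by rw [h1']; ring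
          _ = f * (w * u) := by ring
          _ = f * (p * lo + ((w : ℝ) - p) * hi) := by rw [e']
          _ = (p * f) * lo + ((w * f) - (p * f)) * hi := by ring
          _ = (g * l) * lo + ((g * c) - (g * l)) * hi := by rw [h1', h2']
          _ = _ := by ring
      exact mul_left_cancel₀ hgR.ne' this
    calc (c : ℝ) * ((u : ℝ) / 400) = (c * u) / 400 := by ring
      _ = (l * lo + ((c : ℝ) - l) * hi) / 400 := by rw [key]
      _ = _ := by ring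

lemma crF_sound {m s u0 u1 : ℕ} {K : ℕ → ℕ → ℕ → ℕ → ℕ → ℕ → ℕ → Bool} (h : crF m s u0 u1 K = true) :
    u0 ≤ u1 ∧ ∃ i0 j0 i1 j1 c l0 l1, K i0 j0 i1 j1 c l0 l1 = true ∧ EdF m u0 i0 j0 c l0 ∧ EdF m u1 i1 j1 c l1 := by
  unfold crF at h
  obtain ⟨h1, h⟩ := cond_eq_true h
  obtain ⟨h2, h⟩ := cond_eq_true h
  have h1 : u0 ≤ u1 := Nat.le_of_ble_eq_true h1
  have h2 : u1 ≤ 400 := Nat.le_of_ble_eq_true h2
  obtain ⟨i0, j0, w0, p0, h, s0⟩ := nod_sound (h1.trans h2) h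
  obtain ⟨i1, j1, w1, p1, h, s1⟩ := nod_sound h2 h
  simp only [frc_eq] at h
  obtain ⟨g, hg⟩ : ∃ g, g = Nat.gcd (w0 * w1) (Nat.gcd (p0 * w1) (p1 * w0)) := ⟨_, rfl⟩
  have k0 : K i0 j0 i1 j1 (w0 * w1 / g) (p0 * w1 / g) (p1 * w0 / g) = true := by
    rw [hg]
    exact h
  have d0 : g ∣ w0 * w1 := by rw [hg]; exact Nat.gcd_dvd_left _ _
  have d1 : g ∣ p0 * w1 := by
    rw [hg]
    exact (Nat.gcd_dvd_right _ _).trans (Nat.gcd_dvd_left _ _)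
  have d2 : g ∣ p1 * w0 := by
    rw [hg]
    exact (Nat.gcd_dvd_right _ _).trans (Nat.gcd_dvd_right _ _)
  have hg0 : 0 < g := by
    rcases Nat.eq_zero_or_pos g with h0 | h0
    · rw [h0] at d0
      have := Nat.mul_pos s0.w0 s1.w0
      have := Nat.eq_zero_of_zero_dvd d0
      omega
    · exact h0
  refine ⟨h1, i0, j0, i1, j1, _, _, _, k0, ?_, ?_⟩
  · exact EdF.of s0 hg0 s1.w0 (Nat.mul_div_cancel' d0).symm (Nat.mul_div_cancel' d1).symm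
  · refine EdF.of s1 hg0 s0.w0 ?_ (Nat.mul_div_cancel' d2).symm
    rw [Nat.mul_comm]
    exact (Nat.mul_div_cancel' d0).symm

/-! ### the value at a corner -/

/-- chord in the third special entry -/
noncomputable def zF (f : ℕ → ℕ) (T : TT) (a y i j c l : ℕ) : ℕ := chl c l (f (lk3 T a y i)) (f (lk3 T a y j))

/-- chord in the second special entry -/
noncomputable def yF (f : ℕ → ℕ) (T : TT) (a i j c l iz jz cz lz : ℕ) : ℕ :=
  chl c l (zF f T a i iz jz cz lz) (zF f T a j iz jz cz lz)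

/-- chord in the first special entry -/
noncomputable def aF (f : ℕ → ℕ) (T : TT) (i j c l iy jy cy ly iz jz cz lz : ℕ) : ℕ :=
  chl c l (yF f T i iy jy cy ly iz jz cz lz) (yF f T j iy jy cy ly iz jz cz lz)

lemma n01 {a : ℕ} (h : a ≤ 400) : 0 ≤ (a : ℝ) / 400 ∧ (a : ℝ) / 400 ≤ 1 := by
  have : (a : ℝ) ≤ 400 := by exact_mod_cast h
  exact ⟨by positivity, by linarith⟩

lemma n30 {a : ℕ} (h : 120 ≤ a) : 3 / 10 ≤ (a : ℝ) / 400 := by
  have : (120 : ℝ) ≤ a := by exact_mod_cast h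
  linarith

lemma two01 {a y : ℝ} (ha : 0 ≤ a ∧ a ≤ 1) (hy : 0 ≤ y ∧ y ≤ 1) : ∀ z ∈ a ::ₘ y ::ₘ (0 : Multiset ℝ), 0 ≤ z ∧ z ≤ 1 := by
  intro z hz
  simp only [Multiset.mem_cons, Multiset.notMem_zero, or_false] at hz
  rcases hz with rfl | rfl
  · exact ha
  · exact hy

lemma one01 {a : ℝ} (ha : 0 ≤ a ∧ a ≤ 1) : ∀ z ∈ a ::ₘ (0 : Multiset ℝ), 0 ≤ z ∧ z ≤ 1 := by
  intro z hz
  simp only [Multiset.mem_cons, Multiset.notMem_zero, or_false] at hz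
  subst hz
  exact ha

lemma EdF.u01 {m u i j c l : ℕ} (h : EdF m u i j c l) : 0 ≤ (u : ℝ) / 400 ∧ (u : ℝ) / 400 ≤ 1 :=
  chord01 h.c0 h.lc (n01 (h.ij.trans h.j4)) (n01 h.j4) h.e

/-- THE VALUE AT A CORNER, soundness. -/
theorem aF_sound {rd ks : List ℕ} {T : TT} (hT : TOK rd ks T) (hk : ∀ k ∈ ks, k ≤ 200) (hs : sNr rd ≤ 4294967295)
    {u v w ia ja ca la iy jy cy ly iz jz cz lz : ℕ} (qa : EdF 120 u ia ja ca la) (qy : EdF 0 v iy jy cy ly)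
    (qz : EdF 0 w iz jz cz lz) (hb : ca * (cy * (cz * 2 ^ 32)) < 2 ^ 64) :
    Tb rd ks (ca * (cy * (cz * 1))) (ca * (cy * (cz * 2 ^ 32))) (Sp ((u : ℝ) / 400) ((v : ℝ) / 400) ((w : ℝ) / 400))
      (aF (tTr rd) T ia ja ca la iy jy cy ly iz jz cz lz) (aF (wTr rd) T ia ja ca la iy jy cy ly iz jz cz lz) := by
  have ia4 := qa.ij.trans qa.j4
  have iy4 := qy.ij.trans qy.j4
  have iz4 := qz.ij.trans qz.j4
  have c1y : 1 ≤ cy := qy.c0
  have c1a : 1 ≤ ca := qa.c0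
  have b1 : cz * 2 ^ 32 < 2 ^ 64 := by
    refine lt_of_le_of_lt ?_ hb
    calc cz * 2 ^ 32 = 1 * (1 * (cz * 2 ^ 32)) := by ring
      _ ≤ ca * (cy * (cz * 2 ^ 32)) := Nat.mul_le_mul c1a (Nat.mul_le_mul_right _ c1y)
  have b2 : cy * (cz * 2 ^ 32) < 2 ^ 64 := by
    refine lt_of_le_of_lt ?_ hb
    calc cy * (cz * 2 ^ 32) = 1 * (cy * (cz * 2 ^ 32)) := by ring
      _ ≤ ca * (cy * (cz * 2 ^ 32)) := Nat.mul_le_mul_right _ c1a
  have base : ∀ i j k : ℕ, 120 ≤ i → i ≤ 400 → j ≤ 400 → k ≤ 400 → Tb rd ks 1 (2 ^ 32) (Sp ((i : ℝ) / 400)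
      ((j : ℝ) / 400) ((k : ℝ) / 400)) (tTr rd (lk3 T i j k)) (wTr rd (lk3 T i j k)) := by
    intro i j k h1 h2 h3 h4
    refine Tb_of (lk3_ok hT h2 h3 h4) (n01 h2) (n01 h3) (n01 h4) hk ?_ hs
    have := n30 h1
    have := (n01 h3).1
    have := (n01 h4).1
    linarith
  have sz : ∀ i j : ℕ, 120 ≤ i → i ≤ 400 → j ≤ 400 → Tb rd ks (cz * 1) (cz * 2 ^ 32)
      (Sp ((i : ℝ) / 400) ((j : ℝ) / 400) ((w : ℝ) / 400))
      (zF (tTr rd) T i j iz jz cz lz) (zF (wTr rd) T i j iz jz cz lz) := by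
    intro i j h1 h2 h3
    have g0 := base i j iz h1 h2 h3 iz4
    have g1 := base i j jz h1 h2 h3 qz.j4
    have r : ∀ x : ℝ, Sp ((i : ℝ) / 400) ((j : ℝ) / 400) x
        = x ::ₘ (((i : ℝ) / 400) ::ₘ ((j : ℝ) / 400) ::ₘ 0) := fun x => (Sp_rot x _ _).symm
    rw [r] at g0 g1 ⊢
    unfold zF
    rw [chl_eq, chl_eq]
    exact Tb.chord g0 g1 Nat.one_pos qz.lc qz.c0 qz.e (n01 iz4) (n01 qz.j4) (two01 (n01 h2) (n01 h3)) hk b1
  have sy : ∀ i : ℕ, 120 ≤ i → i ≤ 400 → Tb rd ks (cy * (cz * 1)) (cy * (cz * 2 ^ 32))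
      (Sp ((i : ℝ) / 400) ((v : ℝ) / 400) ((w : ℝ) / 400))
      (yF (tTr rd) T i iy jy cy ly iz jz cz lz) (yF (wTr rd) T i iy jy cy ly iz jz cz lz) := by
    intro i h1 h2
    have g0 := sz i iy h1 h2 iy4
    have g1 := sz i jy h1 h2 qy.j4
    have r : ∀ x : ℝ, Sp ((i : ℝ) / 400) x ((w : ℝ) / 400)
        = x ::ₘ (((i : ℝ) / 400) ::ₘ ((w : ℝ) / 400) ::ₘ 0) := by
      intro x
      unfold Sp
      rw [Multiset.cons_swap]
    rw [r] at g0 g1 ⊢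
    unfold yF
    rw [chl_eq, chl_eq]
    exact Tb.chord g0 g1 (Nat.mul_pos qz.c0 Nat.one_pos) qy.lc qy.c0 qy.e (n01 iy4) (n01 qy.j4)
      (two01 (n01 h2) qz.u01) hk b2
  have g0 := sy ia qa.mi ia4
  have g1 := sy ja (qa.mi.trans qa.ij) qa.j4
  unfold Sp at g0 g1 ⊢
  unfold aF
  rw [chl_eq, chl_eq]
  exact Tb.chord g0 g1 (Nat.mul_pos qy.c0 (Nat.mul_pos qz.c0 Nat.one_pos)) qa.lc qa.c0 qa.e (n01 ia4) (n01 qa.j4)
    (two01 qy.u01 qz.u01) hk hb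

/-- THE CORNERS of the box (grid steps `sa`, `sy`, `sz`); `K s bd tabs` -/
noncomputable def celR (rd : List ℕ) (T : TT) (sa sy sz u0 u1 v0 v1 w0 w1 : ℕ)
    (K : ℕ → ℕ → List (ℕ × ℕ) → Bool) : Bool :=
  cond (Nat.ble (sNr rd) (nat_lit 4294967295))
  (crF (nat_lit 120) sa u0 u1 fun a0 b0 a1 b1 ca la0 la1 => crF (nat_lit 0) sy v0 v1 fun p0 q0 p1 q1 cy ly0 ly1 =>
   crF (nat_lit 0) sz w0 w1 fun r0 t0 r1 t1 cz lz0 lz1 =>
    frc (Nat.mul ca (Nat.mul cy cz)) fun s =>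
    cond (Nat.ble s (nat_lit 1073741824))
    (K s (Nat.mul s (nat_lit 4294967296))
      [(aF (tTr rd) T a0 b0 ca la0 p0 q0 cy ly0 r0 t0 cz lz0, aF (wTr rd) T a0 b0 ca la0 p0 q0 cy ly0 r0 t0 cz lz0),
       (aF (tTr rd) T a1 b1 ca la1 p0 q0 cy ly0 r0 t0 cz lz0, aF (wTr rd) T a1 b1 ca la1 p0 q0 cy ly0 r0 t0 cz lz0),
       (aF (tTr rd) T a0 b0 ca la0 p1 q1 cy ly1 r0 t0 cz lz0, aF (wTr rd) T a0 b0 ca la0 p1 q1 cy ly1 r0 t0 cz lz0),
       (aF (tTr rd) T a1 b1 ca la1 p1 q1 cy ly1 r0 t0 cz lz0, aF (wTr rd) T a1 b1 ca la1 p1 q1 cy ly1 r0 t0 cz lz0),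
       (aF (tTr rd) T a0 b0 ca la0 p0 q0 cy ly0 r1 t1 cz lz1, aF (wTr rd) T a0 b0 ca la0 p0 q0 cy ly0 r1 t1 cz lz1),
       (aF (tTr rd) T a1 b1 ca la1 p0 q0 cy ly0 r1 t1 cz lz1, aF (wTr rd) T a1 b1 ca la1 p0 q0 cy ly0 r1 t1 cz lz1),
       (aF (tTr rd) T a0 b0 ca la0 p1 q1 cy ly1 r1 t1 cz lz1, aF (wTr rd) T a0 b0 ca la0 p1 q1 cy ly1 r1 t1 cz lz1),
       (aF (tTr rd) T a1 b1 ca la1 p1 q1 cy ly1 r1 t1 cz lz1, aF (wTr rd) T a1 b1 ca la1 p1 q1 cy ly1 r1 t1 cz lz1)])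
    false) false

lemma dv400 {a b : ℕ} (h : a ≤ b) : (a : ℝ) / 400 ≤ (b : ℝ) / 400 :=
  div_le_div_of_nonneg_right (by exact_mod_cast h) (by norm_num)

/-- THE CORNERS, soundness. -/
theorem celR_sound {rd ks : List ℕ} {T : TT} (hT : TOK rd ks T) (hk : ∀ k ∈ ks, k ≤ 200)
    {sa sy sz u0 u1 v0 v1 w0 w1 : ℕ} {K : ℕ → ℕ → List (ℕ × ℕ) → Bool}
    (h : celR rd T sa sy sz u0 u1 v0 v1 w0 w1 K = true) :
    ∃ s bd tabs, K s bd tabs = true ∧ 0 < s ∧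
      Bx ((u0 : ℝ) / 400) ((u1 : ℝ) / 400) ((v0 : ℝ) / 400) ((v1 : ℝ) / 400) ((w0 : ℝ) / 400) ((w1 : ℝ) / 400) ∧
      G8 rd ks s bd ((u0 : ℝ) / 400) ((u1 : ℝ) / 400) ((v0 : ℝ) / 400) ((v1 : ℝ) / 400) ((w0 : ℝ) / 400)
        ((w1 : ℝ) / 400) tabs := by
  unfold celR at h
  obtain ⟨h2, h⟩ := cond_eq_true h
  obtain ⟨ma, a0, b0, a1, b1, ca, la0, la1, h, qa0, qa1⟩ := crF_sound h
  obtain ⟨my, p0, q0, p1, q1, cy, ly0, ly1, h, qy0, qy1⟩ := crF_sound h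
  obtain ⟨mz, r0, t0, r1, t1, cz, lz0, lz1, h, qz0, qz1⟩ := crF_sound h
  rw [frc_eq] at h
  obtain ⟨h3, h⟩ := cond_eq_true h
  have h2 : sNr rd ≤ 4294967295 := Nat.le_of_ble_eq_true h2
  have h3 : ca * (cy * cz) ≤ 1073741824 := Nat.le_of_ble_eq_true h3
  have hb : ca * (cy * (cz * 2 ^ 32)) < 2 ^ 64 := by
    have e : ca * (cy * (cz * 2 ^ 32)) = ca * (cy * cz) * 2 ^ 32 := by ring
    rw [e]
    calc ca * (cy * cz) * 2 ^ 32 ≤ 1073741824 * 2 ^ 32 := Nat.mul_le_mul_right _ h3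
      _ < 2 ^ 64 := by norm_num
  have es : ca * (cy * (cz * 1)) = Nat.mul ca (Nat.mul cy cz) := by
    show _ = ca * (cy * cz)
    ring
  have eb : ca * (cy * (cz * 2 ^ 32)) = Nat.mul (Nat.mul ca (Nat.mul cy cz)) 4294967296 := by
    show _ = ca * (cy * cz) * 4294967296
    ring
  refine ⟨_, _, _, h, Nat.mul_pos qa0.c0 (Nat.mul_pos qy0.c0 qz0.c0), ?_, ?_⟩
  · exact ⟨qa0.u01.1, dv400 ma, qa1.u01.2, qy0.u01.1, dv400 my, qy1.u01.2, qz0.u01.1, dv400 mz, qz1.u01.2⟩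
  · rw [← eb, ← es]
    refine ⟨rfl, ?_⟩
    intro ba bb bc
    cases ba <;> cases bb <;> cases bc
    · exact aF_sound hT hk h2 qa0 qy0 qz0 hb
    · exact aF_sound hT hk h2 qa0 qy0 qz1 hb
    · exact aF_sound hT hk h2 qa0 qy1 qz0 hb
    · exact aF_sound hT hk h2 qa0 qy1 qz1 hb
    · exact aF_sound hT hk h2 qa1 qy0 qz0 hb
    · exact aF_sound hT hk h2 qa1 qy0 qz1 hb
    · exact aF_sound hT hk h2 qa1 qy1 qz0 hb
    · exact aF_sound hT hk h2 qa1 qy1 qz1 hb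

/-! ### two special entries -/

/-- chord in the second special entry, third entry `0` -/
noncomputable def yF2 (f : ℕ → ℕ) (T : TT) (a i j c l : ℕ) : ℕ :=
  chl c l (f (lk3 T a i (nat_lit 0))) (f (lk3 T a j (nat_lit 0)))

/-- chord in the first special entry -/
noncomputable def aF2 (f : ℕ → ℕ) (T : TT) (i j c l iy jy cy ly : ℕ) : ℕ :=
  chl c l (yF2 f T i iy jy cy ly) (yF2 f T j iy jy cy ly)

/-- THE VALUE AT A CORNER, two special entries, soundness. -/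
theorem aF2_sound {rd ks : List ℕ} {T : TT} (hT : TOK rd ks T) (hk : ∀ k ∈ ks, k ≤ 200) (hs : sNr rd ≤ 4294967295)
    {u v ia ja ca la iy jy cy ly : ℕ} (qa : EdF 120 u ia ja ca la) (qy : EdF 0 v iy jy cy ly)
    (hb : ca * (cy * 2 ^ 32) < 2 ^ 64) :
    Tb rd ks (ca * (cy * 1)) (ca * (cy * 2 ^ 32)) (Sq ((u : ℝ) / 400) ((v : ℝ) / 400))
      (aF2 (tTr rd) T ia ja ca la iy jy cy ly) (aF2 (wTr rd) T ia ja ca la iy jy cy ly) := by
  have ia4 := qa.ij.trans qa.j4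
  have iy4 := qy.ij.trans qy.j4
  have c1a : 1 ≤ ca := qa.c0
  have b2 : cy * 2 ^ 32 < 2 ^ 64 := by
    refine lt_of_le_of_lt ?_ hb
    calc cy * 2 ^ 32 = 1 * (cy * 2 ^ 32) := by ring
      _ ≤ ca * (cy * 2 ^ 32) := Nat.mul_le_mul_right _ c1a
  have base : ∀ i j : ℕ, 120 ≤ i → i ≤ 400 → j ≤ 400 → Tb rd ks 1 (2 ^ 32) (Sq ((i : ℝ) / 400)
      ((j : ℝ) / 400)) (tTr rd (lk3 T i j (nat_lit 0))) (wTr rd (lk3 T i j (nat_lit 0))) := by
    intro i j h1 h2 h3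
    refine Tb_of4 (lk3_ok2 hT h2 h3) (n01 h2) (n01 h3) hk ?_ hs
    have := n30 h1
    have := (n01 h3).1
    linarith
  have sy : ∀ i : ℕ, 120 ≤ i → i ≤ 400 → Tb rd ks (cy * 1) (cy * 2 ^ 32) (Sq ((i : ℝ) / 400) ((v : ℝ) / 400))
      (yF2 (tTr rd) T i iy jy cy ly) (yF2 (wTr rd) T i iy jy cy ly) := by
    intro i h1 h2
    have g0 := base i iy h1 h2 iy4
    have g1 := base i jy h1 h2 qy.j4
    rw [Sq_rot] at g0 g1 ⊢
    unfold Sq at g0 g1 ⊢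
    unfold yF2
    rw [chl_eq, chl_eq]
    exact Tb.chord g0 g1 Nat.one_pos qy.lc qy.c0 qy.e (n01 iy4) (n01 qy.j4) (one01 (n01 h2)) hk b2
  have g0 := sy ia qa.mi ia4
  have g1 := sy ja (qa.mi.trans qa.ij) qa.j4
  unfold Sq at g0 g1 ⊢
  unfold aF2
  rw [chl_eq, chl_eq]
  exact Tb.chord g0 g1 (Nat.mul_pos qy.c0 Nat.one_pos) qa.lc qa.c0 qa.e (n01 ia4) (n01 qa.j4)
    (one01 qy.u01) hk hb

/-- THE CORNERS of the box, two special entries; `K s bd tabs` -/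
noncomputable def celR4 (rd : List ℕ) (T : TT) (sa sy u0 u1 v0 v1 : ℕ) (K : ℕ → ℕ → List (ℕ × ℕ) → Bool) : Bool :=
  cond (Nat.ble (sNr rd) (nat_lit 4294967295))
  (crF (nat_lit 120) sa u0 u1 fun a0 b0 a1 b1 ca la0 la1 => crF (nat_lit 0) sy v0 v1 fun p0 q0 p1 q1 cy ly0 ly1 =>
    frc (Nat.mul ca cy) fun s =>
    cond (Nat.ble s (nat_lit 1073741824))
    (K s (Nat.mul s (nat_lit 4294967296))
      [(aF2 (tTr rd) T a0 b0 ca la0 p0 q0 cy ly0, aF2 (wTr rd) T a0 b0 ca la0 p0 q0 cy ly0),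
       (aF2 (tTr rd) T a1 b1 ca la1 p0 q0 cy ly0, aF2 (wTr rd) T a1 b1 ca la1 p0 q0 cy ly0),
       (aF2 (tTr rd) T a0 b0 ca la0 p1 q1 cy ly1, aF2 (wTr rd) T a0 b0 ca la0 p1 q1 cy ly1),
       (aF2 (tTr rd) T a1 b1 ca la1 p1 q1 cy ly1, aF2 (wTr rd) T a1 b1 ca la1 p1 q1 cy ly1)])
    false) false

/-- THE CORNERS, two special entries, soundness. -/
theorem celR4_sound {rd ks : List ℕ} {T : TT} (hT : TOK rd ks T) (hk : ∀ k ∈ ks, k ≤ 200)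
    {sa sy u0 u1 v0 v1 : ℕ} {K : ℕ → ℕ → List (ℕ × ℕ) → Bool} (h : celR4 rd T sa sy u0 u1 v0 v1 K = true) :
    ∃ s bd tabs, K s bd tabs = true ∧ 0 < s ∧
      Bx ((u0 : ℝ) / 400) ((u1 : ℝ) / 400) ((v0 : ℝ) / 400) ((v1 : ℝ) / 400) 0 0 ∧
      G4 rd ks s bd ((u0 : ℝ) / 400) ((u1 : ℝ) / 400) ((v0 : ℝ) / 400) ((v1 : ℝ) / 400) tabs := by
  unfold celR4 at h
  obtain ⟨h2, h⟩ := cond_eq_true h
  obtain ⟨ma, a0, b0, a1, b1, ca, la0, la1, h, qa0, qa1⟩ := crF_sound h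
  obtain ⟨my, p0, q0, p1, q1, cy, ly0, ly1, h, qy0, qy1⟩ := crF_sound h
  rw [frc_eq] at h
  obtain ⟨h3, h⟩ := cond_eq_true h
  have h2 : sNr rd ≤ 4294967295 := Nat.le_of_ble_eq_true h2
  have h3 : ca * cy ≤ 1073741824 := Nat.le_of_ble_eq_true h3
  have hb : ca * (cy * 2 ^ 32) < 2 ^ 64 := by
    have e : ca * (cy * 2 ^ 32) = ca * cy * 2 ^ 32 := by ring
    rw [e]
    calc ca * cy * 2 ^ 32 ≤ 1073741824 * 2 ^ 32 := Nat.mul_le_mul_right _ h3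
      _ < 2 ^ 64 := by norm_num
  have es : ca * (cy * 1) = Nat.mul ca cy := by
    show _ = ca * cy
    ring
  have eb : ca * (cy * 2 ^ 32) = Nat.mul (Nat.mul ca cy) 4294967296 := by
    show _ = ca * cy * 4294967296
    ring
  refine ⟨_, _, _, h, Nat.mul_pos qa0.c0 qy0.c0, ?_, ?_⟩
  · exact ⟨qa0.u01.1, dv400 ma, qa1.u01.2, qy0.u01.1, dv400 my, qy1.u01.2, le_rfl, le_rfl, zero_le_one⟩
  · rw [← eb, ← es]
    refine ⟨rfl, ?_⟩
    intro ba bb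
    cases ba <;> cases bb
    · exact aF2_sound hT hk h2 qa0 qy0 hb
    · exact aF2_sound hT hk h2 qa0 qy1 hb
    · exact aF2_sound hT hk h2 qa1 qy0 hb
    · exact aF2_sound hT hk h2 qa1 qy1 hb

end B3
end Pool.Agent.Lib.MP_6947cd_al
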