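import Pool.Agent.Lib.MP_6947cd_al.Z.CC

/-!
Problem MP_6947cd_al (Chollet).  Multi-affine interpolation on a box and the product of two multi-affine
functions.
-/

set_option autoImplicit false
open Finset

namespace Pool.Agent.Lib.MP_6947cd_al
namespace CC

variable {ι : Type} [DecidableEq ι]

/-- weight of an end -/
noncomputable def wt1 (a b : ℝ) (c : Bool) (x : ℝ) : ℝ := bif c then (x - a) / (b - a) else (b - x) / (b - a)

/-- the multi-affine function with the values `f` at the corners -/
noncomputable def Ip [Fintype ι] (lo hi : ι → ℝ) (f : (ι → Bool) → ℝ) (v : ι → ℝ) : ℝ :=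
  ∑ c : ι → Bool, (∏ i, wt1 (lo i) (hi i) (c i) (v i)) * f c

lemma Ma.sum {κ : Type} (s : Finset κ) (f : κ → (ι → ℝ) → ℝ) (h : ∀ k, Ma (f k)) :
    Ma fun v => ∑ k ∈ s, f k v := by
  classical
  induction s using Finset.induction_on with
  | empty => simpa using Ma.const (ι := ι) 0
  | insert a s ha ih =>
    intro v i
    obtain ⟨p, q, h1⟩ := ((h a).add ih) v i
    refine ⟨p, q, fun u => ?_⟩
    rw [← h1]
    exact Finset.sum_insert ha

theorem Ip_ma [Fintype ι] (lo hi : ι → ℝ) (f : (ι → Bool) → ℝ) : Ma (Ip lo hi f) := by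
  refine Ma.sum _ _ fun c => ?_
  intro v i
  obtain ⟨p, q, h⟩ : ∃ p q : ℝ, ∀ u, wt1 (lo i) (hi i) (c i) u = p + q * u := by
    unfold wt1
    cases c i with
    | true => exact ⟨-lo i / (hi i - lo i), 1 / (hi i - lo i), fun u => by simp only [cond_true]; ring⟩
    | false => exact ⟨hi i / (hi i - lo i), -1 / (hi i - lo i), fun u => by simp only [cond_false]; ring⟩
  refine ⟨p * ((∏ j ∈ univ.erase i, wt1 (lo j) (hi j) (c j) (v j)) * f c),
    q * ((∏ j ∈ univ.erase i, wt1 (lo j) (hi j) (c j) (v j)) * f c), fun u => ?_⟩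
  beta_reduce
  rw [← Finset.mul_prod_erase univ _ (mem_univ i), Function.update_self, h]
  have e : ∏ j ∈ univ.erase i, wt1 (lo j) (hi j) (c j) (Function.update v i u j)
      = ∏ j ∈ univ.erase i, wt1 (lo j) (hi j) (c j) (v j) :=
    Finset.prod_congr rfl fun j hj => by rw [Function.update_of_ne (Finset.ne_of_mem_erase hj)]
  rw [e]
  ring

theorem Ip_corner [Fintype ι] {lo hi : ι → ℝ} (hlh : ∀ i, lo i < hi i) (f : (ι → Bool) → ℝ) (c : ι → Bool) :
    Ip lo hi f (corner lo hi c) = f c := by
  unfold Ip
  rw [Finset.sum_eq_single c]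
  · rw [Finset.prod_eq_one, one_mul]
    intro i _
    have : hi i - lo i ≠ 0 := (sub_pos.mpr (hlh i)).ne'
    unfold wt1 corner
    cases c i <;> simp only [cond_true, cond_false] <;> exact div_self this
  · intro b _ hb
    obtain ⟨i, hi'⟩ : ∃ i, b i ≠ c i := by
      by_contra h
      push Not at h
      exact hb (funext h)
    rw [Finset.prod_eq_zero (mem_univ i), zero_mul]
    unfold wt1 corner
    cases hbi : b i <;> cases hci : c i
    · exact absurd (hbi.trans hci.symm) hi'
    · simp
    · simp
    · exact absurd (hbi.trans hci.symm) hi'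
  · intro h
    exact absurd (mem_univ c) h

/-- a coordinatewise convex function lies below the interpolation -/
theorem Cc.le_Ip [Fintype ι] {lo hi : ι → ℝ} (hlh : ∀ i, lo i < hi i) {u : (ι → ℝ) → ℝ} (hu : Cc lo hi u)
    {f : (ι → Bool) → ℝ} (hf : ∀ c, u (corner lo hi c) ≤ f c) {v : ι → ℝ} (hv : Box lo hi v) :
    u v ≤ Ip lo hi f v := by
  have h1 : Cc lo hi fun v => u v + -Ip lo hi f v := hu.add (Ip_ma lo hi f).neg.cc
  have h2 := h1.le_of_corners (C := 0) (fun c => by
    have := hf c
    rw [← Ip_corner hlh f c] at this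
    linarith) hv
  linarith

/-- from below -/
theorem Ma.Ip_le [Fintype ι] {lo hi : ι → ℝ} (hlh : ∀ i, lo i < hi i) {f : (ι → Bool) → ℝ} {C : ℝ}
    (hf : ∀ c, C ≤ f c) {v : ι → ℝ} (hv : Box lo hi v) : C ≤ Ip lo hi f v :=
  (Cc.const (lo := lo) (hi := hi) C).le_Ip hlh (fun c => hf c) hv

lemma Ma.update {F : (ι → ℝ) → ℝ} (hF : Ma F) (j : ι) (a : ℝ) : Ma fun v => F (Function.update v j a) := by
  intro v i
  by_cases h : i = j
  · subst h
    exact ⟨F (Function.update v i a), 0, fun u => by simp⟩
  · obtain ⟨p, q, h1⟩ := hF (Function.update v j a) i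
    refine ⟨p, q, fun u => ?_⟩
    rw [← h1 u]
    beta_reduce
    rw [Function.update_comm h]

lemma corner_update {lo hi : ι → ℝ} (c : ι → Bool) (i : ι) (b : Bool) :
    corner lo hi (Function.update c i b) = Function.update (corner lo hi c) i (bif b then hi i else lo i) := by
  funext j
  by_cases h : j = i
  · subst h
    unfold corner
    rw [Function.update_self, Function.update_self]
  · unfold corner
    rw [Function.update_of_ne h, Function.update_of_ne h]

/-- the ends of every coordinate bound the function up to an error -/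
theorem ac_le [Fintype ι] {lo hi : ι → ℝ} {f : (ι → ℝ) → ℝ} {E : ι → ℝ}
    (hf : ∀ v, Box lo hi v → ∀ i, f v ≤ max (f (Function.update v i (lo i))) (f (Function.update v i (hi i))) + E i)
    {C : ℝ} (hc : ∀ c : ι → Bool, f (corner lo hi c) ≤ C) {v : ι → ℝ} (hv : Box lo hi v) :
    f v ≤ C + ∑ i, E i := by
  suffices H : ∀ s : Finset ι, ∀ w, Box lo hi w → (∀ i, i ∉ s → w i = lo i ∨ w i = hi i) →
      f w ≤ C + ∑ i ∈ s, E i from
    H Finset.univ v hv fun i hi => absurd (Finset.mem_univ i) hi
  intro s
  induction s using Finset.induction_on with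
  | empty =>
    intro w _ h
    have : w = corner lo hi fun i => decide (w i = hi i) := by
      funext i
      unfold corner
      rcases h i (Finset.notMem_empty i) with h1 | h1
      · by_cases h2 : w i = hi i
        · simp [h2]
        · show w i = bif decide (w i = hi i) then hi i else lo i
          rw [decide_eq_false h2, cond_false]
          exact h1
      · simp [h1]
    rw [this, Finset.sum_empty, add_zero]
    exact hc _
  | insert i s hi' ih =>
    intro w hw h
    have hlh := (hw i).1.trans (hw i).2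
    rw [Finset.sum_insert hi']
    refine (hf w hw i).trans ?_
    have a1 := ih _ (hw.update le_rfl hlh) (fun j hj => ?_)
    have a2 := ih _ (hw.update hlh le_rfl) (fun j hj => ?_)
    · have := max_le a1 a2
      linarith
    all_goals
      by_cases hji : j = i
      · subst hji
        simp
      · rw [Function.update_of_ne hji]
        exact h j (fun hm => (Finset.mem_insert.mp hm).elim hji hj)

lemma prod1 {F0 F1 G0 G1 H0 H1 H E θ : ℝ} (h0 : 0 ≤ θ) (h1 : θ ≤ 1) (hE : 0 ≤ E)
    (hH : H ≤ (1 - θ) * H0 + θ * H1) (h : -((F1 - F0) * (G1 - G0)) ≤ 4 * E) :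
    ((1 - θ) * F0 + θ * F1) * ((1 - θ) * G0 + θ * G1) + H ≤ max (F0 * G0 + H0) (F1 * G1 + H1) + E := by
  have e : ((1 - θ) * F0 + θ * F1) * ((1 - θ) * G0 + θ * G1)
      = (1 - θ) * (F0 * G0) + θ * (F1 * G1) + θ * (1 - θ) * -((F1 - F0) * (G1 - G0)) := by ring
  have h2 : 0 ≤ 1 - θ := by linarith
  have h3 : θ * (1 - θ) * -((F1 - F0) * (G1 - G0)) ≤ E := by
    have h4 : θ * (1 - θ) * -((F1 - F0) * (G1 - G0)) ≤ θ * (1 - θ) * (4 * E) :=
      mul_le_mul_of_nonneg_left h (mul_nonneg h0 h2)
    have h5 : 4 * (θ * (1 - θ)) ≤ 1 := by nlinarith [sq_nonneg (2 * θ - 1)]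
    nlinarith [mul_le_mul_of_nonneg_right h5 hE]
  have m0 := le_max_left (F0 * G0 + H0) (F1 * G1 + H1)
  have m1 := le_max_right (F0 * G0 + H0) (F1 * G1 + H1)
  have k0 := mul_le_mul_of_nonneg_left m0 h2
  have k1 := mul_le_mul_of_nonneg_left m1 h0
  nlinarith

/-- THE PRODUCT of two multi-affine functions -/
theorem prod_le [Fintype ι] {lo hi : ι → ℝ} (hlh : ∀ i, lo i < hi i) {F G H : (ι → ℝ) → ℝ} (hF : Ma F) (hG : Ma G)
    (hH : Cc lo hi H) {E : ι → ℝ} (hE : ∀ i, 0 ≤ E i)
    (h : ∀ i, ∀ c c' : ι → Bool,
      -((F (corner lo hi (Function.update c i true)) - F (corner lo hi (Function.update c i false)))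
        * (G (corner lo hi (Function.update c' i true)) - G (corner lo hi (Function.update c' i false))))
      ≤ 4 * E i) {C : ℝ}
    (hc : ∀ c : ι → Bool, F (corner lo hi c) * G (corner lo hi c) + H (corner lo hi c) ≤ C) {v : ι → ℝ}
    (hv : Box lo hi v) : F v * G v + H v ≤ C + ∑ i, E i := by
  refine ac_le (f := fun v => F v * G v + H v) (fun w hw i => ?_) hc hv
  -- the differences
  have hd : ∀ w w' : ι → ℝ, Box lo hi w → Box lo hi w' →
      -((F (Function.update w i (hi i)) - F (Function.update w i (lo i)))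
        * (G (Function.update w' i (hi i)) - G (Function.update w' i (lo i)))) ≤ 4 * E i := by
    intro w w' hw hw'
    have m1 : Ma fun w => F (Function.update w i (hi i)) - F (Function.update w i (lo i)) :=
      (hF.update i (hi i)).sub (hF.update i (lo i))
    have m2 : Ma fun w => G (Function.update w i (hi i)) - G (Function.update w i (lo i)) :=
      (hG.update i (hi i)).sub (hG.update i (lo i))
    have s1 : ∀ c : ι → Bool, -((F (Function.update (corner lo hi c) i (hi i))
        - F (Function.update (corner lo hi c) i (lo i)))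
        * (G (Function.update w' i (hi i)) - G (Function.update w' i (lo i)))) ≤ 4 * E i := by
      intro c
      have := (m2.smul (-(F (Function.update (corner lo hi c) i (hi i))
        - F (Function.update (corner lo hi c) i (lo i))))).cc (lo := lo) (hi := hi)
      have h2 := this.le_of_corners (C := 4 * E i) (fun c' => by
        have h3 := h i c c'
        rw [corner_update, corner_update, corner_update, corner_update] at h3
        simp only [cond_true, cond_false] at h3
        linarith) hw'
      linarith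
    have := (m1.smul (-(G (Function.update w' i (hi i)) - G (Function.update w' i (lo i))))).cc
      (lo := lo) (hi := hi)
    have h2 := this.le_of_corners (C := 4 * E i) (fun c => by
      have := s1 c
      linarith) hw
    linarith
  have hd := hd w w hw hw
  have hi0 : 0 < hi i - lo i := sub_pos.mpr (hlh i)
  set θ := (w i - lo i) / (hi i - lo i) with hθ
  have t0 : 0 ≤ θ := div_nonneg (by linarith [(hw i).1]) hi0.le
  have t1 : θ ≤ 1 := by
    rw [hθ, div_le_one hi0]
    linarith [(hw i).2]
  have ew : w i = (1 - θ) * lo i + θ * hi i := by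
    have : θ * (hi i - lo i) = w i - lo i := by rw [hθ, div_mul_cancel₀ _ hi0.ne']
    linarith
  have haff : ∀ {f : (ι → ℝ) → ℝ}, Ma f → f w = (1 - θ) * f (Function.update w i (lo i))
      + θ * f (Function.update w i (hi i)) := by
    intro f hf
    obtain ⟨p, q, h1⟩ := hf w i
    have h2 := h1 (w i)
    rw [Function.update_eq_self] at h2
    rw [h2, h1, h1]
    calc p + q * w i = p + q * ((1 - θ) * lo i + θ * hi i) := by rw [← ew]
      _ = _ := by ring
  have hHc := (hH w hw i).2 (Set.left_mem_Icc.mpr (hlh i).le) (Set.right_mem_Icc.mpr (hlh i).le)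
    (show 0 ≤ 1 - θ by linarith) t0 (by ring)
  simp only [smul_eq_mul] at hHc
  rw [← ew, Function.update_eq_self] at hHc
  have := prod1 (F0 := F (Function.update w i (lo i))) (F1 := F (Function.update w i (hi i)))
    (G0 := G (Function.update w i (lo i))) (G1 := G (Function.update w i (hi i))) t0 t1 (hE i) hHc hd
  rw [← haff hF, ← haff hG] at this
  exact this

end CC
end Pool.Agent.Lib.MP_6947cd_al
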