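import Pool.Agent.Lib.MP_6947cd_al.Z.Side2
import Pool.Agent.Lib.MP_6947cd_al.C.TriL

/-!
Problem MP_6947cd_al (Chollet).  CASE C: the prices and the cap of a row, from the support lines of the triples
(`a` = entry of the row `i`, `x` = entry of `i` at another vertex, `y` = entry of the row `v` there).
Knots in 1/200, prices in 1/12800.
-/

set_option autoImplicit false
open Finset

namespace Pool.Agent.Lib.MP_6947cd_al
namespace C1

open Ent Ent.Pk Fr Fr.WT B1 B2 PkA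

/-! ### the checks -/

/-- one end of a segment: `4pq P + 12800 (p+q+r)^2 ≤ 128 pr A0 + 256 qr k + 51200 pq` -/
def endC (A0 p q r k P : ℕ) : Bool :=
  frc (Nat.mul p q) fun pq => frc (Nat.add (Nat.add p q) r) fun s =>
    Nat.ble (Nat.add (Nat.mul (Nat.mul (nat_lit 4) pq) P) (Nat.mul (nat_lit 12800) (Nat.mul s s)))
      (Nat.add (Nat.add (Nat.mul (nat_lit 128) (Nat.mul (Nat.mul p r) A0))
        (Nat.mul (nat_lit 256) (Nat.mul (Nat.mul q r) k))) (Nat.mul (nat_lit 51200) pq))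

lemma endC_iff {A0 p q r k P : ℕ} (h : endC A0 p q r k P = true) :
    4 * (p * q) * P + 12800 * ((p + q + r) * (p + q + r)) ≤ 128 * (p * r * A0) + 256 * (q * r * k) + 51200 * (p * q) := by
  unfold endC at h
  rw [frc_eq, frc_eq] at h
  exact Nat.le_of_ble_eq_true h

/-- a segment with the triple `t = (p, q, r)` (`p = 0`: both prices zero) -/
def segC (A0 k0 P0 k P : ℕ) (t : ℕ × ℕ × ℕ) : Bool :=
  Nat.ble (Nat.succ k0) k && cond (Nat.ble (nat_lit 1) t.1)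
    (Nat.ble (nat_lit 1) t.2.1 && (endC A0 t.1 t.2.1 t.2.2 k0 P0 && endC A0 t.1 t.2.1 t.2.2 k P))
    (Nat.ble P0 (nat_lit 0) && Nat.ble P (nat_lit 0))

/-- all the segments -/
def segsC (A0 : ℕ) : ℕ → ℕ → List ℕ → List ℕ → List (ℕ × ℕ × ℕ) → Bool
  | _, _, [], [], [] => true
  | k0, P0, k :: ks, P :: Ps, t :: ts => segC A0 k0 P0 k P t && segsC A0 k P ks Ps ts
  | _, _, _, _, _ => false

/-- the last knot -/
def lstC : ℕ → List ℕ → ℕ
  | k0, [] => k0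
  | _, k :: ks => lstC k ks

/-- the cap: `400 (p+q+r)^2 + 4pq sm ≤ 4qr A0 + 8pr cap + 1600 pq` -/
def capC (A0 sm cap : ℕ) (t : ℕ × ℕ × ℕ) : Bool :=
  cond (Nat.ble (nat_lit 1) t.1)
    (Nat.ble (nat_lit 1) t.2.2 && frc (Nat.mul t.1 t.2.1) fun pq => frc (Nat.add (Nat.add t.1 t.2.1) t.2.2) fun s =>
      Nat.ble (Nat.add (Nat.mul (nat_lit 400) (Nat.mul s s)) (Nat.mul (Nat.mul (nat_lit 4) pq) sm))
        (Nat.add (Nat.add (Nat.mul (nat_lit 4) (Nat.mul (Nat.mul t.2.1 t.2.2) A0))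
          (Nat.mul (nat_lit 8) (Nat.mul (Nat.mul t.1 t.2.2) cap))) (Nat.mul (nat_lit 1600) pq)))
    (Nat.ble (nat_lit 200) cap)

/-- THE CHECK of the knots, prices and the cap of a row. `A0` = lower border of `a`, `sm` = upper border of `x`
(both in 1/400). -/
def knC (A0 sm : ℕ) (ks Ps : List ℕ) (ts : List (ℕ × ℕ × ℕ)) (cap : ℕ × ℕ × ℕ) : Bool :=
  segsC A0 0 0 ks Ps ts && (Nat.ble (nat_lit 1) (lstC 0 ks) &&
    (Nat.ble (lstC 0 ks) (nat_lit 200) && capC A0 sm (lstC 0 ks) cap))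

/-! ### soundness -/

lemma tri_c23 {a x y : ℝ} (h : Tri a x y) : Tri a y x := by
  unfold Tri at h ⊢
  have e : Real.sqrt a * Real.sqrt y * Real.sqrt x = Real.sqrt a * Real.sqrt x * Real.sqrt y := by ring
  rw [e]
  linarith

lemma tri_rot {a x y : ℝ} (h : Tri a x y) : Tri y a x := by
  unfold Tri at h ⊢
  have e : Real.sqrt y * Real.sqrt a * Real.sqrt x = Real.sqrt a * Real.sqrt x * Real.sqrt y := by ring
  rw [e]
  linarith

lemma top_kR (ks : List ℕ) : ∀ k0 : ℕ, top ((k0 : ℝ) / 200) (kR ks) = (lstC k0 ks : ℝ) / 200 := by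
  induction ks with
  | nil => intro k0; rfl
  | cons k ks ih => intro k0; exact ih k

/-- the support line at a price -/
lemma price_le {A0 p q r : ℕ} {a x y : ℝ} (ha0 : (A0 : ℝ) / 400 ≤ a) (ha1 : a ≤ 1)
    (hx0 : 0 ≤ x) (hy0 : 0 ≤ y) (hy1 : y ≤ 1) (ht : Tri a x y) :
    128 * ((p : ℝ) * r * A0) + 256 * ((q : ℝ) * r * (200 * y)) + 51200 * ((p : ℝ) * q)
      ≤ 4 * ((p : ℝ) * q) * (12800 * x) + 12800 * (((p : ℝ) + q + r) * ((p : ℝ) + q + r)) := by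
  have h0 : (0 : ℝ) ≤ A0 / 400 := by positivity
  have h1 := triL (p := (p : ℝ)) (q := (q : ℝ)) (r := (r : ℝ)) (tri_c23 ht) (h0.trans ha0) ha1 hy0 hy1 hx0
    (Nat.cast_nonneg _) (Nat.cast_nonneg _) (Nat.cast_nonneg _)
  have h2 : (p : ℝ) * r * (A0 / 400) ≤ (p : ℝ) * r * a := mul_le_mul_of_nonneg_left ha0 (by positivity)
  nlinarith [h1, h2]

/-- a segment -/
lemma segC_sound {A0 k0 P0 k P : ℕ} {t : ℕ × ℕ × ℕ} (h : segC A0 k0 P0 k P t = true) {a x y : ℝ}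
    (ha0 : (A0 : ℝ) / 400 ≤ a) (ha1 : a ≤ 1) (hx0 : 0 ≤ x) (hy0 : 0 ≤ y) (hy1 : y ≤ 1) (ht : Tri a x y)
    (hk0 : (k0 : ℝ) / 200 ≤ y) (hk : y ≤ (k : ℝ) / 200) :
    (k0 : ℝ) / 200 < (k : ℝ) / 200 ∧ (P0 : ℝ) / 12800 + ((P : ℝ) / 12800 - (P0 : ℝ) / 12800)
      / ((k : ℝ) / 200 - (k0 : ℝ) / 200) * (y - (k0 : ℝ) / 200) ≤ x := by
  unfold segC at h
  rw [Bool.and_eq_true] at h
  obtain ⟨h1, h2⟩ := h
  have h1' : k0 + 1 ≤ k := Nat.le_of_ble_eq_true h1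
  have hkk : (k0 : ℝ) / 200 < (k : ℝ) / 200 := by
    have : (k0 : ℝ) < k := by exact_mod_cast h1'
    linarith
  refine ⟨hkk, ?_⟩
  have hd : (0 : ℝ) < (k : ℝ) / 200 - (k0 : ℝ) / 200 := by linarith
  -- weights
  obtain ⟨θ, hθ⟩ : ∃ θ, θ = (y - (k0 : ℝ) / 200) / ((k : ℝ) / 200 - (k0 : ℝ) / 200) := ⟨_, rfl⟩
  have hθ0 : 0 ≤ θ := by
    rw [hθ]
    exact div_nonneg (by linarith) hd.le
  have hθ1 : θ ≤ 1 := by
    rw [hθ, div_le_one hd]
    linarith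
  have hy : y = (k0 : ℝ) / 200 + θ * ((k : ℝ) / 200 - (k0 : ℝ) / 200) := by
    rw [hθ, div_mul_cancel₀ _ hd.ne']
    ring
  have hv : (P0 : ℝ) / 12800 + ((P : ℝ) / 12800 - (P0 : ℝ) / 12800)
      / ((k : ℝ) / 200 - (k0 : ℝ) / 200) * (y - (k0 : ℝ) / 200)
      = (1 - θ) * ((P0 : ℝ) / 12800) + θ * ((P : ℝ) / 12800) := by
    rw [hθ]
    ring
  rw [hv]
  cases hb : Nat.ble (nat_lit 1) t.1 with
  | false =>
    rw [hb, cond_false, Bool.and_eq_true] at h2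
    have e1 : P0 = 0 := Nat.le_zero.mp (Nat.le_of_ble_eq_true h2.1)
    have e2 : P = 0 := Nat.le_zero.mp (Nat.le_of_ble_eq_true h2.2)
    rw [e1, e2]
    simpa using hx0
  | true =>
    rw [hb, cond_true, Bool.and_eq_true, Bool.and_eq_true] at h2
    obtain ⟨h3, h4, h5⟩ := h2
    have hp : 1 ≤ t.1 := Nat.le_of_ble_eq_true hb
    have hq : 1 ≤ t.2.1 := Nat.le_of_ble_eq_true h3
    have e4 := endC_iff h4
    have e5 := endC_iff h5
    obtain ⟨p, hpd⟩ : ∃ p, p = t.1 := ⟨_, rfl⟩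
    obtain ⟨q, hqd⟩ : ∃ q, q = t.2.1 := ⟨_, rfl⟩
    obtain ⟨r, hrd⟩ : ∃ r, r = t.2.2 := ⟨_, rfl⟩
    rw [← hpd] at hp
    rw [← hqd] at hq
    rw [← hpd, ← hqd, ← hrd] at e4 e5
    have f4 : 4 * ((p : ℝ) * q) * P0 + 12800 * (((p : ℝ) + q + r) * (p + q + r))
        ≤ 128 * ((p : ℝ) * r * A0) + 256 * ((q : ℝ) * r * k0) + 51200 * ((p : ℝ) * q) := by exact_mod_cast e4
    have f5 : 4 * ((p : ℝ) * q) * P + 12800 * (((p : ℝ) + q + r) * (p + q + r))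
        ≤ 128 * ((p : ℝ) * r * A0) + 256 * ((q : ℝ) * r * k) + 51200 * ((p : ℝ) * q) := by exact_mod_cast e5
    have f6 := price_le (p := p) (q := q) (r := r) ha0 ha1 hx0 hy0 hy1 ht
    have hpR : (0 : ℝ) < p := by exact_mod_cast hp
    have hqR : (0 : ℝ) < q := by exact_mod_cast hq
    have hpq : (0 : ℝ) < (p : ℝ) * q := mul_pos hpR hqR
    have g4 := mul_le_mul_of_nonneg_left f4 (sub_nonneg.mpr hθ1)
    have g5 := mul_le_mul_of_nonneg_left f5 hθ0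
    have e6 : 200 * y = (1 - θ) * k0 + θ * k := by
      rw [hy]
      ring
    rw [e6] at f6
    have key : 4 * ((p : ℝ) * q) * ((1 - θ) * P0 + θ * P) ≤ 4 * ((p : ℝ) * q) * (12800 * x) := by
      nlinarith [g4, g5, f6]
    have key2 : (1 - θ) * (P0 : ℝ) + θ * P ≤ 12800 * x := le_of_mul_le_mul_left key (by positivity)
    have e7 : (1 - θ) * ((P0 : ℝ) / 12800) + θ * ((P : ℝ) / 12800) = ((1 - θ) * (P0 : ℝ) + θ * P) / 12800 := by ring
    rw [e7, div_le_iff₀ (by norm_num)]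
    linarith

lemma segsC_sound {A0 : ℕ} {a x y : ℝ} (ha0 : (A0 : ℝ) / 400 ≤ a) (ha1 : a ≤ 1) (hx0 : 0 ≤ x) (hy0 : 0 ≤ y)
    (hy1 : y ≤ 1) (ht : Tri a x y) (ks : List ℕ) : ∀ (k0 P0 : ℕ) (Ps : List ℕ) (ts : List (ℕ × ℕ × ℕ)),
    segsC A0 k0 P0 ks Ps ts = true → ks ≠ [] → (k0 : ℝ) / 200 ≤ y → y ≤ top ((k0 : ℝ) / 200) (kR ks) →
    ipl ((k0 : ℝ) / 200) ((P0 : ℝ) / 12800) (kR ks) (Ps.map fun v : ℕ => (v : ℝ) / 12800) y ≤ x := by
  induction ks with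
  | nil => intro _ _ _ _ _ h; exact absurd rfl h
  | cons k ks ih =>
    intro k0 P0 Ps ts h _ hk0 htop
    cases Ps with
    | nil => simp [segsC] at h
    | cons P Ps =>
      cases ts with
      | nil => simp [segsC] at h
      | cons t ts =>
        unfold segsC at h
        rw [Bool.and_eq_true] at h
        obtain ⟨h1, h2⟩ := h
        have e : ipl ((k0 : ℝ) / 200) ((P0 : ℝ) / 12800) (kR (k :: ks)) ((P :: Ps).map fun v : ℕ => (v : ℝ) / 12800) y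
            = if y ≤ (k : ℝ) / 200 then (P0 : ℝ) / 12800 + ((P : ℝ) / 12800 - (P0 : ℝ) / 12800)
                / ((k : ℝ) / 200 - (k0 : ℝ) / 200) * (y - (k0 : ℝ) / 200)
              else ipl ((k : ℝ) / 200) ((P : ℝ) / 12800) (kR ks) (Ps.map fun v : ℕ => (v : ℝ) / 12800) y := rfl
        rw [e]
        split_ifs with hy
        · exact (segC_sound h1 ha0 ha1 hx0 hy0 hy1 ht hk0 hy).2
        · rw [not_le] at hy
          have htop' : y ≤ top ((k : ℝ) / 200) (kR ks) := htop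
          refine ih k P Ps ts h2 ?_ hy.le htop'
          rintro rfl
          have : y ≤ (k : ℝ) / 200 := htop'
          linarith

lemma segsC_len {A0 : ℕ} (ks : List ℕ) : ∀ (k0 P0 : ℕ) (Ps : List ℕ) (ts : List (ℕ × ℕ × ℕ)),
    segsC A0 k0 P0 ks Ps ts = true → Ps.length = ks.length := by
  induction ks with
  | nil =>
    intro k0 P0 Ps ts h
    cases Ps with
    | nil => rfl
    | cons P Ps => simp [segsC] at h
  | cons k ks ih =>
    intro k0 P0 Ps ts h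
    cases Ps with
    | nil => simp [segsC] at h
    | cons P Ps =>
      cases ts with
      | nil => simp [segsC] at h
      | cons t ts =>
        unfold segsC at h
        rw [Bool.and_eq_true] at h
        simp only [List.length_cons, ih k P Ps ts h.2]

lemma segsC_inc {A0 : ℕ} (ks : List ℕ) : ∀ (k0 P0 : ℕ) (Ps : List ℕ) (ts : List (ℕ × ℕ × ℕ)),
    segsC A0 k0 P0 ks Ps ts = true → lstC k0 ks ≤ 200 → Inc ((k0 : ℝ) / 200) (kR ks) := by
  induction ks with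
  | nil =>
    intro k0 P0 Ps ts _ h2
    have h2' : k0 ≤ 200 := h2
    have : (k0 : ℝ) ≤ 200 := by exact_mod_cast h2'
    show (k0 : ℝ) / 200 ≤ 1
    linarith
  | cons k ks ih =>
    intro k0 P0 Ps ts h h2
    cases Ps with
    | nil => simp [segsC] at h
    | cons P Ps =>
      cases ts with
      | nil => simp [segsC] at h
      | cons t ts =>
        unfold segsC at h
        rw [Bool.and_eq_true] at h
        obtain ⟨h3, h4⟩ := h
        unfold segC at h3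
        rw [Bool.and_eq_true] at h3
        have h5 : k0 + 1 ≤ k := Nat.le_of_ble_eq_true h3.1
        refine ⟨?_, ih k P Ps ts h4 h2⟩
        have : (k0 : ℝ) < k := by exact_mod_cast h5
        linarith

/-- the cap -/
lemma capC_sound {A0 sm cap : ℕ} {t : ℕ × ℕ × ℕ} (h : capC A0 sm cap t = true) {a x y : ℝ}
    (ha0 : (A0 : ℝ) / 400 ≤ a) (ha1 : a ≤ 1) (hx0 : 0 ≤ x) (hxs : x ≤ (sm : ℝ) / 400) (hy0 : 0 ≤ y) (hy1 : y ≤ 1)
    (ht : Tri a x y) : y ≤ (cap : ℝ) / 200 := by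
  unfold capC at h
  cases hb : Nat.ble (nat_lit 1) t.1 with
  | false =>
    rw [hb, cond_false] at h
    have h1 : 200 ≤ cap := Nat.le_of_ble_eq_true h
    have : (200 : ℝ) ≤ cap := by exact_mod_cast h1
    linarith
  | true =>
    rw [hb, cond_true, Bool.and_eq_true, frc_eq, frc_eq] at h
    obtain ⟨h3, h4⟩ := h
    have hp : 1 ≤ t.1 := Nat.le_of_ble_eq_true hb
    have hr : 1 ≤ t.2.2 := Nat.le_of_ble_eq_true h3
    have e4 : 400 * ((t.1 + t.2.1 + t.2.2) * (t.1 + t.2.1 + t.2.2)) + 4 * (t.1 * t.2.1) * sm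
        ≤ 4 * (t.2.1 * t.2.2 * A0) + 8 * (t.1 * t.2.2 * cap) + 1600 * (t.1 * t.2.1) := Nat.le_of_ble_eq_true h4
    obtain ⟨p, hpd⟩ : ∃ p, p = t.1 := ⟨_, rfl⟩
    obtain ⟨q, hqd⟩ : ∃ q, q = t.2.1 := ⟨_, rfl⟩
    obtain ⟨r, hrd⟩ : ∃ r, r = t.2.2 := ⟨_, rfl⟩
    rw [← hpd] at hp
    rw [← hrd] at hr
    rw [← hpd, ← hqd, ← hrd] at e4
    have f4 : 400 * (((p : ℝ) + q + r) * (p + q + r)) + 4 * ((p : ℝ) * q) * sm
        ≤ 4 * ((q : ℝ) * r * A0) + 8 * ((p : ℝ) * r * cap) + 1600 * ((p : ℝ) * q) := by exact_mod_cast e4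
    have h0 : (0 : ℝ) ≤ A0 / 400 := by positivity
    have f5 := triL (p := (p : ℝ)) (q := (q : ℝ)) (r := (r : ℝ)) (tri_rot ht) hy0 hy1 (h0.trans ha0) ha1 hx0
      (Nat.cast_nonneg _) (Nat.cast_nonneg _) (Nat.cast_nonneg _)
    have f6 : (q : ℝ) * r * (A0 / 400) ≤ (q : ℝ) * r * a := mul_le_mul_of_nonneg_left ha0 (by positivity)
    have f7 : (p : ℝ) * q * x ≤ (p : ℝ) * q * (sm / 400) := mul_le_mul_of_nonneg_left hxs (by positivity)
    have hpR : (0 : ℝ) < p := by exact_mod_cast hp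
    have hrR : (0 : ℝ) < r := by exact_mod_cast hr
    have key : (p : ℝ) * r * (200 * y) ≤ (p : ℝ) * r * cap := by nlinarith [f4, f5, f6, f7]
    have key2 : 200 * y ≤ (cap : ℝ) := le_of_mul_le_mul_left key (mul_pos hpR hrR)
    linarith

section

variable {A0 sm : ℕ} {ks Ps : List ℕ} {ts : List (ℕ × ℕ × ℕ)} {cap : ℕ × ℕ × ℕ}

lemma knC_parts (h : knC A0 sm ks Ps ts cap = true) : segsC A0 0 0 ks Ps ts = true ∧ 1 ≤ lstC 0 ks ∧
    lstC 0 ks ≤ 200 ∧ capC A0 sm (lstC 0 ks) cap = true := by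
  unfold knC at h
  rw [Bool.and_eq_true, Bool.and_eq_true, Bool.and_eq_true] at h
  exact ⟨h.1, Nat.le_of_ble_eq_true h.2.1, Nat.le_of_ble_eq_true h.2.2.1, h.2.2.2⟩

/-- the knots are admissible -/
theorem knC_knOK (h : knC A0 sm ks Ps ts cap = true) : KnOK ks := by
  obtain ⟨h1, -, h3, -⟩ := knC_parts h
  have := segsC_inc ks 0 0 Ps ts h1 h3
  rw [Nat.cast_zero, zero_div] at this
  exact this

/-- the number of the prices -/
theorem knC_len (h : knC A0 sm ks Ps ts cap = true) : Ps.length = ks.length :=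
  segsC_len ks 0 0 Ps ts (knC_parts h).1

/-- there is a knot -/
theorem knC_ne (h : knC A0 sm ks Ps ts cap = true) : ks ≠ [] := by
  rintro rfl
  have h1 : 1 ≤ 0 := (knC_parts h).2.1
  omega

/-- the last knot is at most one -/
theorem knC_lst (h : knC A0 sm ks Ps ts cap = true) : lstC 0 ks ≤ 200 := (knC_parts h).2.2.1

lemma top_kR0 (ks : List ℕ) : top 0 (kR ks) = (lstC 0 ks : ℝ) / 200 := by
  have := top_kR ks 0
  rw [Nat.cast_zero, zero_div] at this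
  exact this

/-- THE PRICES AND THE CAP OF A ROW. -/
theorem knC_sound (h : knC A0 sm ks Ps ts cap = true) {a x y : ℝ} (ha0 : (A0 : ℝ) / 400 ≤ a) (ha1 : a ≤ 1)
    (hx0 : 0 ≤ x) (hxs : x ≤ (sm : ℝ) / 400) (hy0 : 0 ≤ y) (hy1 : y ≤ 1) (ht : Tri a x y) :
    y ≤ top 0 (kR ks) ∧ nF 12800 ks Ps y ≤ x := by
  obtain ⟨h1, h2, h3, h4⟩ := knC_parts h
  have hc := capC_sound h4 ha0 ha1 hx0 hxs hy0 hy1 ht
  rw [← top_kR0] at hc
  refine ⟨hc, ?_⟩
  have hc' : y ≤ top (((0 : ℕ) : ℝ) / 200) (kR ks) := by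
    rw [Nat.cast_zero, zero_div]
    exact hc
  have := segsC_sound ha0 ha1 hx0 hy0 hy1 ht ks 0 0 Ps ts h1 (knC_ne h)
    (by rw [Nat.cast_zero, zero_div]; exact hy0) hc'
  rw [Nat.cast_zero, zero_div, zero_div] at this
  exact this

/-- the sum of the prices, for a multiset of pairs -/
theorem knC_sum (h : knC A0 sm ks Ps ts cap = true) {a : ℝ} (ha0 : (A0 : ℝ) / 400 ≤ a) (ha1 : a ≤ 1)
    (M : Multiset (ℝ × ℝ)) (hM : ∀ z ∈ M, 0 ≤ z.1 ∧ z.1 ≤ (sm : ℝ) / 400 ∧ 0 ≤ z.2 ∧ z.2 ≤ 1 ∧ Tri a z.1 z.2)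
    {R : ℝ} (hR : (M.map Prod.fst).sum ≤ R) : (M.map fun z => nF 12800 ks Ps z.2).sum ≤ R := by
  refine le_trans (Multiset.sum_map_le_sum_map _ _ fun z hz => ?_) hR
  obtain ⟨h1, h2, h3, h4, h5⟩ := hM z hz
  exact (knC_sound h ha0 ha1 h1 h2 h3 h4 h5).2

/-- the same for the second components -/
theorem knC_sum2 (h : knC A0 sm ks Ps ts cap = true) {a : ℝ} (ha0 : (A0 : ℝ) / 400 ≤ a) (ha1 : a ≤ 1)
    (M : Multiset (ℝ × ℝ)) (hM : ∀ z ∈ M, 0 ≤ z.1 ∧ z.1 ≤ (sm : ℝ) / 400 ∧ 0 ≤ z.2 ∧ z.2 ≤ 1 ∧ Tri a z.1 z.2)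
    {R : ℝ} (hR : (M.map Prod.fst).sum ≤ R) : ((M.map Prod.snd).map (nF 12800 ks Ps)).sum ≤ R := by
  rw [Multiset.map_map]
  exact knC_sum h ha0 ha1 M hM hR

/-- the second components are below the last knot -/
theorem knC_top (h : knC A0 sm ks Ps ts cap = true) {a : ℝ} (ha0 : (A0 : ℝ) / 400 ≤ a) (ha1 : a ≤ 1)
    (M : Multiset (ℝ × ℝ)) (hM : ∀ z ∈ M, 0 ≤ z.1 ∧ z.1 ≤ (sm : ℝ) / 400 ∧ 0 ≤ z.2 ∧ z.2 ≤ 1 ∧ Tri a z.1 z.2) :
    ∀ y ∈ M.map Prod.snd, 0 ≤ y ∧ y ≤ top 0 (kR ks) := by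
  intro y hy
  obtain ⟨z, hz, rfl⟩ := Multiset.mem_map.mp hy
  obtain ⟨h1, h2, h3, h4, h5⟩ := hM z hz
  exact ⟨h3, (knC_sound h ha0 ha1 h1 h2 h3 h4 h5).1⟩

end

/-- the examples of the sample file (row 1 of the first leaf) -/
example : knC 340 40 [40, 80, 100] [0, 795, 1829] [(0, 0, 0), (1000, 814, 310), (1000, 714, 692)] (72, 100, 61)
    = true := by rfl

end C1
end Pool.Agent.Lib.MP_6947cd_al
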