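import Pool.Agent.Lib.MP_6947cd_al.C.LeafS

/-!
Problem MP_6947cd_al (Chollet).  CASE C: the complete check of a leaf, the check of a row is a parameter.
-/

set_option autoImplicit false
open Finset

namespace Pool.Agent.Lib.MP_6947cd_al
namespace C1

open Ent Ent.Pk Fr Fr.WT CC B1 B2 PkA

/-- the type of the checks of a row: row, weight, multiplier, status, borders of the special entries, upper border of
the rests of the row `i` -/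
abbrev RowFn := Rw → ℕ → ℕ → Bool → ℕ → ℕ → ℕ → ℕ → ℕ → ℕ → ℕ → Bool

/-- the check is correct -/
def RowFn.Ok (f : RowFn) : Prop := ∀ (r : Rw) (A β : ℕ) (bad : Bool) (X0 X1 Y0 Y1 Z0 Z1 R1 : ℕ),
  X0 < X1 → Y0 < Y1 → Z0 < Z1 → f r A β bad X0 X1 Y0 Y1 Z0 Z1 R1 = true → RwOK r A β bad X0 X1 Y0 Y1 Z0 Z1 R1

/-- the rows of a leaf -/
noncomputable def rows3 (f : RowFn) (L : Lf) (σ : St) : Bool :=
  cond (fB (isB σ.s1) fun b => f L.r1 (nat_lit 1000) L.c1 b σ.x.H0 σ.x.H1 σ.x.A0 σ.x.A1 σ.x.B0 σ.x.B1 σ.x.R1)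
    (cond (imB (nz L.w7 L.wA L.c2) (fB (isB σ.s2) fun b => frc (Nat.add L.w7 L.wA) fun A =>
        f L.r2 A L.c2 b σ.x.T0 σ.x.T1 σ.x.A0 σ.x.A1 σ.x.C0 σ.x.C1 σ.x.R1))
      (imB (nz L.w8 L.wA L.c3) (fB (isB σ.s3) fun b => frc (Nat.add L.w8 L.wA) fun A =>
        f L.r3 A L.c3 b σ.x.S0 σ.x.S1 σ.x.B0 σ.x.B1 σ.x.C0 σ.x.C1 σ.x.R1)) false) false

/-- THE CHECK OF A LEAF -/
noncomputable def leafC (E : ET) (f : RowFn) (L : Lf) (σ : St) : Bool :=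
  frS σ fun σ => cond (leafM E L σ) (rows3 f L σ) false

theorem leafC_sound (hR4 : SpecR4) (hS2 : SpecS2) (hS1 : SpecS1) (hS7 : SpecR7) (hLib : CB.LibIIC) {E : ET}
    (hE : EnvOK 400 0 E) {f : RowFn} (hf : f.Ok) (L : Lf) (σ : St) (hc : leafC E f L σ = true) : Dead σ := by
  unfold leafC at hc
  rw [frS_eq] at hc
  obtain ⟨h1, h2⟩ := cond_eq_true hc
  have hx : σ.x.Ok := Bx.ok_sound (cond_eq_true h1).1
  unfold rows3 at h2
  simp only [fB_eq, frc_eq] at h2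
  obtain ⟨k1, h2⟩ := cond_eq_true h2
  obtain ⟨k2, k3⟩ := cond_eq_true h2
  exact leafM_sound hR4 hS2 hS1 hS7 hLib hE h1 (hf _ _ _ _ _ _ _ _ _ _ _ hx.H hx.A hx.B k1)
    (fun hq => hf _ _ _ _ _ _ _ _ _ _ _ hx.T hx.A hx.C (imB_sound k2 hq))
    (fun hq => hf _ _ _ _ _ _ _ _ _ _ _ hx.S hx.B hx.C (imB_sound k3 hq))

/-- THE TREE -/
theorem treeC (hR4 : SpecR4) (hS2 : SpecS2) (hS1 : SpecS1) (hS7 : SpecR7) (hLib : CB.LibIIC) {E : ET}
    (hE : EnvOK 400 0 E) {f : RowFn} (hf : f.Ok) {refs : List St} (hr : ∀ τ ∈ refs, Dead τ) {T : Tr Lf} {σ : St}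
    (h : T.chk (leafC E f) (fun _ => dleC E (nat_lit 400) (nat_lit 0)) refs σ = true) : Dead σ :=
  Tr.sound (fun L τ hl => leafC_sound hR4 hS2 hS1 hS7 hLib hE hf L τ hl) (fun _ _ h => dleC_sound hR4 hE h) hr T σ h

end C1
end Pool.Agent.Lib.MP_6947cd_al
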