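import Pool.Agent.Lib.MP_6947cd_al.Z.RealA
import Pool.Agent.Lib.MP_6947cd_al.L.CellN

/-!
Problem MP_6947cd_al (Chollet).  CASE C: reduced rests of a row, position of the rests of the row `i`.
-/

set_option autoImplicit false
open Finset

namespace Pool.Agent.Lib.MP_6947cd_al
namespace C1

open Ent Fr Fr.WT CC B1

/-- reduced rests of a row: `S` = the special entries of the row (with the diagonal) -/
structure Rd (ks : List ℝ) (S M : Multiset ℝ) (ns : List ℕ) (fs : List Bool) (M' : Multiset ℝ) : Prop where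
  red : Red 0 ks ns fs M'
  f : ∀ φ : ℝ → ℝ, Aff φ 0 ks → φ 0 = 0 → (M.map φ).sum = (M'.map φ).sum
  s : M.sum = M'.sum
  F : FM (S + M) ≤ FM (S + M')

/-- REDUCTION of the rests of a row -/
theorem rd_of (ks : List ℝ) (hinc : Inc 0 ks) (S M : Multiset ℝ) (h1 : 1 ∈ S)
    (hS : ∀ z ∈ S, 0 ≤ z ∧ z ≤ 1) (hM : ∀ z ∈ M, 0 ≤ z ∧ z ≤ top 0 ks) :
    ∃ ns fs M', Rd ks S M ns fs M' := by
  obtain ⟨m, ns, fs, M', r1, r2, r3, r4⟩ := reduce ks 0 le_rfl hinc S M h1 hS hM
  refine ⟨ns, fs, M', r1, fun φ hφ h0 => ?_, ?_, ?_⟩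
  · rw [r3 φ hφ, h0, mul_zero, zero_add]
  · rw [r4, mul_zero, zero_add]
  · refine r2.trans (le_of_eq ?_)
    have e : S + (Multiset.replicate m 0 + M') = Multiset.replicate m 0 + (S + M') := by
      rw [← add_assoc, add_comm S, add_assoc]
    rw [e]
    clear e r2 r3 r4
    induction m with
    | zero => simp
    | succ m ih =>
      rw [Multiset.replicate_succ, Multiset.cons_add, ← ih]
      exact FM_zero_cons _

/-- the position of the rests of the row `i` -/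
structure Seg (m : ℝ) (q : ℕ) (sa sb : ℝ) (M : Multiset ℝ) : Prop where
  m0 : 0 < m
  m1 : m ≤ 1
  qa : (q : ℝ) * m ≤ sa
  bq : sb ≤ ((q : ℝ) + 1) * m
  aS : sa ≤ M.sum
  Sb : M.sum ≤ sb
  e : ∀ e ∈ M, 0 ≤ e ∧ e ≤ m


end C1
end Pool.Agent.Lib.MP_6947cd_al
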