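import Pool.Agent.Lib.MP_6947cd_al.C.RealC
import Pool.Agent.Lib.MP_6947cd_al.C.Rd

/-!
Problem MP_6947cd_al (Chollet).  CASE C: the leaf, real form.
-/

set_option autoImplicit false
open Finset

namespace Pool.Agent.Lib.MP_6947cd_al
namespace C1

open Ent Fr Fr.WT CC B1

lemma sum_snd (M : Multiset (ℝ × ℝ)) (φ : ℝ → ℝ) : ((sn M).map φ).sum = (M.map fun z => φ z.2).sum := by
  unfold sn
  rw [Multiset.map_map]
  rfl

lemma Om_sn (M : Multiset (ℝ × ℝ)) : Om (sn M) = (M.map fun z => omg z.2).sum := sum_snd M omg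

lemma sum_sn (M : Multiset (ℝ × ℝ)) : (sn M).sum = (M.map fun z => z.2).sum := by
  unfold sn
  rfl

lemma sum_fst {a : ℝ} {Mi : Multiset ℝ} {M : Multiset (ℝ × ℝ)} (h : Prs a Mi M) :
    (M.map fun z => z.1).sum = Mi.sum := by
  rw [← h.1]

lemma sum_sn_nonneg {a : ℝ} {Mi : Multiset ℝ} {M : Multiset (ℝ × ℝ)} (h : Prs a Mi M) : 0 ≤ (sn M).sum := by
  refine Multiset.sum_nonneg fun x hx => ?_
  obtain ⟨z, hz, rfl⟩ := Multiset.mem_map.mp hx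
  exact (h.2 z hz).1

/-- the bound of the row value, closed interval -/
theorem Wc_le_What' (s : ℝ) (h1 : 3 / 10 ≤ s) (h2 : s ≤ 37 / 5) : Wc s ≤ What s := by
  rcases h1.eq_or_lt with h | h
  · rw [← h]
    have e1 := Wc_le_line 15 (by norm_num) (by norm_num) (3 / 10)
    have e2 := What_w1 (3 / 10) (by norm_num) (by norm_num)
    have e3 : min ((3 / 10 : ℝ) ^ 2) (18 / 100) = (3 / 10) ^ 2 := min_eq_left (by norm_num)
    rw [e3] at e2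
    have e4 : (yn 15 : ℝ) ≤ 100000 := by
      have : yn 15 ≤ 100000 := by decide +kernel
      exact_mod_cast this
    unfold lineW yr at e1
    norm_num at e1
    linarith
  · exact Wc_le_What s h h2

/-- the bound of the extended row value, closed interval -/
theorem Wd_le_What' (s : ℝ) (h1 : 3 / 10 ≤ s) (h2 : s ≤ 16) : WD.Wd s ≤ What s := by
  rcases h1.eq_or_lt with h | h
  · exact (WD.Wd_le_Wc s).trans (Wc_le_What' s h1 (by rw [← h]; norm_num))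
  · exact WD.Wd_le_What s h h2

/-- the special vertex counts -/
noncomputable def fl (b : Bool) (x : ℝ) : ℝ := bif b then x else 0

/-- THE LEAF, real form. -/
theorem leaf_realC (hR4 : SpecR4) {h t s g1 g2 g3 : ℝ} {Mi : Multiset ℝ} {M1 M2 M3 : Multiset (ℝ × ℝ)}
    {G0 G1 G2 G3 p1 p2 p3 ρ1 ρ2 ρ3 : ℝ}
    (c : Cfg h t s g1 g2 g3 Mi M1 M2 M3 G0 G1 G2 G3 p1 p2 p3 ρ1 ρ2 ρ3)
    {ks1 ks2 ks3 : List ℝ} {n1 n2 n3 : List ℕ} {f1 f2 f3 : List Bool} {N1 N2 N3 : Multiset ℝ}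
    (r1 : Rd ks1 (1 ::ₘ h ::ₘ g1 ::ₘ g2 ::ₘ 0) (sn M1) n1 f1 N1)
    (r2 : Rd ks2 (1 ::ₘ t ::ₘ g1 ::ₘ g3 ::ₘ 0) (sn M2) n2 f2 N2)
    (r3 : Rd ks3 (1 ::ₘ s ::ₘ g2 ::ₘ g3 ::ₘ 0) (sn M3) n3 f3 N3)
    (hN1 : ∀ e ∈ N1, 0 ≤ e ∧ e ≤ 1) (hN2 : ∀ e ∈ N2, 0 ≤ e ∧ e ≤ 1) (hN3 : ∀ e ∈ N3, 0 ≤ e ∧ e ≤ 1)
    {m : ℝ} {q : ℕ} {sa sb : ℝ} (sg : Seg m q sa sb Mi) {lo hi : Fin 7 → ℝ}
    (hlh : ∀ i, lo i < hi i) (hl0 : ∀ i, 0 ≤ lo i) (hh1 : ∀ i, hi i ≤ 1)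
    (hv : Box lo hi (vec7 h t s g1 g2 g3 (Mi.sum - q * m)))
    (l0 : 3 / 10 ≤ lo 0) (l1 : 3 / 10 ≤ lo 1) (l2 : 3 / 10 ≤ lo 2)
    {w : Wt} (hw : w.Ok) (toti : h + t + s + Mi.sum ≤ 37 / 5)
    (tot1 : w.c1 ≠ 0 → h + g1 + g2 + (sn M1).sum ≤ 16)
    (tot2 : w.c2 ≠ 0 → t + g1 + g3 + (sn M2).sum ≤ 16)
    (tot3 : w.c3 ≠ 0 → s + g2 + g3 + (sn M3).sum ≤ 16) (u12 u13 u21 u23 u31 u32 b1 b2 b3 : Bool)
    (v12 : 0 < Df G2 (t ::ₘ g1 ::ₘ g3 ::ₘ sn M2) → 3 / 10 ≤ g1 → u12 = true)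
    (v13 : 0 < Df G3 (s ::ₘ g2 ::ₘ g3 ::ₘ sn M3) → 3 / 10 ≤ g2 → u13 = true)
    (v21 : 0 < Df G1 (h ::ₘ g1 ::ₘ g2 ::ₘ sn M1) → 3 / 10 ≤ g1 → u21 = true)
    (v23 : 0 < Df G3 (s ::ₘ g2 ::ₘ g3 ::ₘ sn M3) → 3 / 10 ≤ g3 → u23 = true)
    (v31 : 0 < Df G1 (h ::ₘ g1 ::ₘ g2 ::ₘ sn M1) → 3 / 10 ≤ g2 → u31 = true)
    (v32 : 0 < Df G2 (t ::ₘ g1 ::ₘ g3 ::ₘ sn M2) → 3 / 10 ≤ g3 → u32 = true)
    (hb1 : b1 = true → 0 < Df G1 (h ::ₘ g1 ::ₘ g2 ::ₘ sn M1))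
    (hb2 : b2 = true → 0 < Df G2 (t ::ₘ g1 ::ₘ g3 ::ₘ sn M2))
    (hb3 : b3 = true → 0 < Df G3 (s ::ₘ g2 ::ₘ g3 ::ₘ sn M3))
    {Mc Φc : (Fin 7 → Bool) → ℝ} {E : Fin 7 → ℝ} (hE : ∀ i, 0 ≤ E i)
    (hMΦ : ∀ i, ∀ e e' : Fin 7 → Bool,
      -((Φc (Function.update e i true) - Φc (Function.update e i false))
        * (Mc (Function.update e' i true) - Mc (Function.update e' i false))) ≤ 4 * E i)
    (hMc : ∀ e : Fin 7 → Bool, max (FI (corner lo hi e 0) (corner lo hi e 1) (corner lo hi e 2) (corner lo hi e 6) m q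
      - WI (corner lo hi e 0) (corner lo hi e 1) (corner lo hi e 2) (corner lo hi e 6) m q) (1 / 1000) ≤ Mc e)
    (hΦ0 : ∀ e, 0 ≤ Φc e)
    (hK1 : b1 = false → ∀ e, w.c1 * Kf (corner lo hi e 0) (fl u12 (corner lo hi e 1) + fl u13 (corner lo hi e 2)
      + (corner lo hi e 6 + q * m)) ≤ Φc e)
    (hK2 : b2 = false → ∀ e, w.c2 * Kf (corner lo hi e 1) (fl u21 (corner lo hi e 0) + fl u23 (corner lo hi e 2)
      + (corner lo hi e 6 + q * m)) ≤ Φc e)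
    (hK3 : b3 = false → ∀ e, w.c3 * Kf (corner lo hi e 2) (fl u31 (corner lo hi e 0) + fl u32 (corner lo hi e 1)
      + (corner lo hi e 6 + q * m)) ≤ Φc e)
    {φ1 φ2 φ3 : ℝ → ℝ} (af1 : Aff φ1 0 ks1) (af2 : Aff φ2 0 ks2) (af3 : Aff φ3 0 ks3)
    (z1 : φ1 0 = 0) (z2 : φ2 0 = 0) (z3 : φ3 0 = 0) {π : ℝ → ℝ → ℝ} {P1 P2 P3 ξ1 ξ2 ξ3 : ℝ}
    (hφ1 : ∀ z ∈ M1, w.w3 * π z.1 z.2 + (1 - w.w3) * omg z.2 + ξ1 * z.2 ≤ φ1 z.2 + P1 * z.1)
    (hφ2 : ∀ z ∈ M2, (w.w7 + w.wA) * omg z.2 + ξ2 * z.2 ≤ φ2 z.2 + P2 * z.1)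
    (hφ3 : ∀ z ∈ M3, (w.w8 + w.wA) * omg z.2 + ξ3 * z.2 ≤ φ3 z.2 + P3 * z.1)
    {X L7 L8 S4 cut : ℝ} (hcut : 0 ≤ cut + ξ1 * (sn M1).sum + ξ2 * (sn M2).sum + ξ3 * (sn M3).sum)
    (h3 : w.w3 ≠ 0 → 0 < G0 + G1 + (X + (M1.map fun z => π z.1 z.2).sum))
    (h7 : w.w7 ≠ 0 → LB3 s g2 g3 L7) (h8 : w.w8 ≠ 0 → LB3 t g1 g3 L8)
    (hA : w.wA ≠ 0 → 0 < S4 ∧ (S4 ≤ 4 * (h + t + s + g1 + g2 + g3) - 6 + 2 * (h * g3 + t * g2 + s * g1)
      ∨ S4 ≤ 2 * (h + t + g1) ∨ S4 ≤ 2 * (h + s + g2) ∨ S4 ≤ 2 * (t + s + g3)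
      ∨ S4 ≤ (1 + h) * (1 + g3) ∨ S4 ≤ (1 + t) * (1 + g2) ∨ S4 ≤ (1 + s) * (1 + g1)))
    {S : (Fin 7 → ℝ) → ℝ} (hS : Cc lo hi S)
    (hSv : w.w3 * X + w.w7 * (L7 - 2 * Real.log (2 * (h + t + g1))) + w.w8 * (L8 - 2 * Real.log (2 * (h + s + g2)))
      - w.wA * (2 * Real.log S4) + cut ≤ S (vec7 h t s g1 g2 g3 (Mi.sum - q * m)))
    {Li R1 R2 R3 : Bool → Bool → Bool → ℝ}
    (hI : ∀ e : Fin 7 → Bool, Φc e * Mc e + RI w.lam (1 - w.w3) (P1 + P2 + P3) (corner lo hi e 0)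
      (corner lo hi e 1) (corner lo hi e 2) (corner lo hi e 6) m q ≤ Li (e 0) (e 1) (e 2))
    (hJ1 : ∃ cf : B2.Af, G1 ≤ max (FM (1 ::ₘ h ::ₘ g1 ::ₘ g2 ::ₘ N1)) (cf.val h g1 g2) ∧
      ∀ ba bb bc : Bool, B2.UJ 1 w.c1 cf φ1 (bif ba then hi 0 else lo 0) (bif bb then hi 3 else lo 3)
        (bif bc then hi 4 else lo 4) N1 ≤ R1 ba bb bc)
    (hJ2 : ∃ cf : B2.Af, G2 ≤ max (FM (1 ::ₘ t ::ₘ g1 ::ₘ g3 ::ₘ N2)) (cf.val t g1 g3) ∧
      ∀ ba bb bc : Bool, B2.UJ (w.w7 + w.wA) w.c2 cf φ2 (bif ba then hi 1 else lo 1) (bif bb then hi 3 else lo 3)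
        (bif bc then hi 5 else lo 5) N2 ≤ R2 ba bb bc)
    (hJ3 : ∃ cf : B2.Af, G3 ≤ max (FM (1 ::ₘ s ::ₘ g2 ::ₘ g3 ::ₘ N3)) (cf.val s g2 g3) ∧
      ∀ ba bb bc : Bool, B2.UJ (w.w8 + w.wA) w.c3 cf φ3 (bif ba then hi 2 else lo 2) (bif bb then hi 4 else lo 4)
        (bif bc then hi 5 else lo 5) N3 ≤ R3 ba bb bc)
    (hL : ∀ e : Fin 7 → Bool, Li (e 0) (e 1) (e 2) + R1 (e 0) (e 3) (e 4) + R2 (e 1) (e 3) (e 5)
      + R3 (e 2) (e 4) (e 5) + S (corner lo hi e) ≤ -∑ i, E i) : False := by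
  have bx0 := hv 0
  have bx1 := hv 1
  have bx2 := hv 2
  have bx3 := hv 3
  have bx4 := hv 4
  have bx5 := hv 5
  have bx6 := hv 6
  simp only [vec7, Matrix.cons_val_zero, Matrix.cons_val_one, Matrix.cons_val] at bx0 bx1 bx2 bx3 bx4 bx5 bx6
  obtain ⟨cf1, gj1, hJ1⟩ := hJ1
  obtain ⟨cf2, gj2, hJ2⟩ := hJ2
  obtain ⟨cf3, gj3, hJ3⟩ := hJ3
  have m0 := sg.m0
  have m1 := sg.m1
  have hw3 := hw.w3
  have hw7 := hw.w7
  have hw8 := hw.w8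
  have hwA := hw.wA
  have hsum := hw.sum
  have hlam := hw.lam
  have hc1 := hw.c1
  have hc2 := hw.c2
  have hc3 := hw.c3
  have h1w : 0 ≤ 1 - w.w3 := by linarith
  -- the row i
  obtain ⟨R, hR⟩ : ∃ R, R = Mi.sum := ⟨_, rfl⟩
  obtain ⟨r, hr⟩ : ∃ r, r = R - q * m := ⟨_, rfl⟩
  have hR0 : 0 ≤ R := by
    rw [hR]
    exact Multiset.sum_nonneg fun e he => (sg.e e he).1
  have e0 : ∀ M : Multiset ℝ, (1 : ℝ) ::ₘ h ::ₘ t ::ₘ s ::ₘ M = (1 ::ₘ h ::ₘ t ::ₘ s ::ₘ 0) + M := by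
    intro M
    simp only [Multiset.cons_add, zero_add]
  obtain ⟨k1, k2⟩ := hR4 (1 ::ₘ h ::ₘ t ::ₘ s ::ₘ 0) Mi m q (by simp) (by
      intro e he
      simp only [Multiset.mem_cons, Multiset.notMem_zero, or_false] at he
      have := hh1 0
      have := hh1 1
      have := hh1 2
      rcases he with rfl | rfl | rfl | rfl
      · exact ⟨zero_le_one, le_rfl⟩
      · exact ⟨by linarith, by linarith⟩
      · exact ⟨by linarith, by linarith⟩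
      · exact ⟨by linarith, by linarith⟩) m0 m1 sg.e (sg.qa.trans sg.aS) (sg.Sb.trans sg.bq)
  rw [← e0, ← e0, ← hR, ← hr] at k1
  rw [← hR, ← hr] at k2 hv bx6 hSv
  rw [← hR] at toti
  have hRr : r + q * m = R := by rw [hr]; ring
  have hF : G0 ≤ FI h t s r m q := c.v0.trans k1
  have hWI : WI h t s r m q ≤ What (h + t + s + R) := by
    unfold WI
    rw [hRr]
    exact Wc_le_What _ (by linarith) toti
  obtain ⟨D0, hD0⟩ : ∃ D0, D0 = Df G0 (h ::ₘ t ::ₘ s ::ₘ Mi) := ⟨_, rfl⟩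
  have hDle : D0 ≤ FI h t s r m q - WI h t s r m q := by
    rw [hD0]
    unfold Df
    rw [Multiset.sum_cons, Multiset.sum_cons, Multiset.sum_cons, ← hR,
      show h + (t + (s + R)) = h + t + s + R by ring]
    linarith
  -- the interpolations
  obtain ⟨v, hvd⟩ : ∃ v, v = vec7 h t s g1 g2 g3 r := ⟨_, rfl⟩
  rw [← hvd] at hv hSv
  have v0 : v 0 = h := by rw [hvd]; rfl
  have v1 : v 1 = t := by rw [hvd]; rfl
  have v2 : v 2 = s := by rw [hvd]; rfl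
  have v3 : v 3 = g1 := by rw [hvd]; rfl
  have v4 : v 4 = g2 := by rw [hvd]; rfl
  have v5 : v 5 = g3 := by rw [hvd]; rfl
  have v6 : v 6 = r := by rw [hvd]; rfl
  have hM : max D0 (1 / 1000) ≤ Ip lo hi Mc v := by
    have := ((cc_DI (lo := lo) (hi := hi) hl0 hh1 m0.le m1 q).max_const (1 / 1000)).le_Ip hlh hMc hv
    rw [v0, v1, v2, v6] at this
    exact (max_le_max hDle le_rfl).trans this
  have hΦ : 0 ≤ Ip lo hi Φc v := Ma.Ip_le hlh hΦ0 hv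
  have hfl : ∀ b : Bool, ∀ j : Fin 7, Ma fun v : Fin 7 → ℝ => fl b (v j) := by
    intro b j
    cases b with
    | false => exact Ma.const 0
    | true => exact Ma.coord j
  have hfp : ∀ b : Bool, ∀ x : ℝ, 0 ≤ x → 0 ≤ fl b x := by
    intro b x hx
    cases b with
    | false => exact le_rfl
    | true => exact hx
  have hqm : 0 ≤ (q : ℝ) * m := mul_nonneg (Nat.cast_nonneg _) m0.le
  have hK : ∀ (j a b : Fin 7) (ua ub : Bool) (cc : ℝ), a ≠ j → b ≠ j → (6 : Fin 7) ≠ j → 0 < lo j → 0 ≤ cc →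
      (∀ e, cc * Kf (corner lo hi e j) (fl ua (corner lo hi e a) + fl ub (corner lo hi e b)
        + (corner lo hi e 6 + q * m)) ≤ Φc e) →
      cc * Kf (v j) (fl ua (v a) + fl ub (v b) + (v 6 + q * m)) ≤ Ip lo hi Φc v := by
    intro j a b ua ub cc ha hb h6 hj hcc hh
    have h1 := cc_Kf (lo := lo) (hi := hi) j hj
      (ρ := fun v => fl ua (v a) + fl ub (v b) + (v 6 + q * m))
      (((hfl ua a).add (hfl ub b)).add (ma_R m q)) (by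
        intro v u
        rw [Function.update_of_ne ha, Function.update_of_ne hb, Function.update_of_ne h6]) (by
        intro v hv
        have x1 := hfp ua (v a) ((hl0 a).trans (hv a).1)
        have x2 := hfp ub (v b) ((hl0 b).trans (hv b).1)
        have x3 := (hl0 6).trans (hv 6).1
        linarith)
    exact (h1.smul hcc).le_Ip hlh hh hv
  -- the bounds of rho
  have hg1 := c.g1m.1
  have hg2 := c.g2m.1
  have hg3 := c.g3m.1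
  have hMi0 : 0 ≤ Mi.sum := by rw [← hR]; exact hR0
  have rb : ∀ (P Q : Prop) (x : ℝ) (u : Bool), [Decidable (P ∧ Q)] → 0 ≤ x → (P → Q → u = true) →
      (if P ∧ Q then x else 0) ≤ fl u x := by
    intro P Q x u _ hx hu
    split_ifs with hp
    · rw [hu hp.1 hp.2]
      exact le_rfl
    · exact hfp u x hx
  have rc : ∀ (P : Prop) (inst : Decidable P), (@ite ℝ P inst Mi.sum 0) ≤ Mi.sum := by
    intro P inst
    split_ifs
    · exact le_rfl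
    · exact hMi0
  have hsR : ∀ x : ℝ, x + Mi.sum = x + (r + q * m) := by
    intro x
    rw [hRr, hR]
  have q1 : ρ1 ≤ fl u12 t + fl u13 s + (r + q * m) := by
    refine c.r1.trans ?_
    unfold Rho
    rw [← hsR]
    exact add_le_add (add_le_add (rb _ _ _ _ (by linarith) v12) (rb _ _ _ _ (by linarith) v13)) (rc _ _)
  have q2 : ρ2 ≤ fl u21 h + fl u23 s + (r + q * m) := by
    refine c.r2.trans ?_
    unfold Rho
    rw [← hsR]
    exact add_le_add (add_le_add (rb _ _ _ _ (by linarith) v21) (rb _ _ _ _ (by linarith) v23)) (rc _ _)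
  have q3 : ρ3 ≤ fl u31 h + fl u32 t + (r + q * m) := by
    refine c.r3.trans ?_
    unfold Rho
    rw [← hsR]
    exact add_le_add (add_le_add (rb _ _ _ _ (by linarith) v31) (rb _ _ _ _ (by linarith) v32)) (rc _ _)
  -- the combination
  have hcomb := comb c hw (M := Ip lo hi Mc v) (Φ := Ip lo hi Φc v) (X3 := X + (M1.map fun z => π z.1 z.2).sum)
    (L7 := L7) (L8 := L8) (S := S4) (by rw [← hD0]; exact hM) hΦ q1 q2 q3
    (fun hd => by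
      cases hb : b1 with
      | true => exact absurd (hb1 hb) (not_lt.mpr hd)
      | false =>
        have := hK 0 1 2 u12 u13 w.c1 (by decide) (by decide) (by decide) (by linarith) hc1 (hK1 hb)
        rwa [v0, v1, v2, v6] at this)
    (fun hd => by
      cases hb : b2 with
      | true => exact absurd (hb2 hb) (not_lt.mpr hd)
      | false =>
        have := hK 1 0 2 u21 u23 w.c2 (by decide) (by decide) (by decide) (by linarith) hc2 (hK2 hb)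
        rwa [v0, v1, v2, v6] at this)
    (fun hd => by
      cases hb : b3 with
      | true => exact absurd (hb3 hb) (not_lt.mpr hd)
      | false =>
        have := hK 2 0 1 u31 u32 w.c3 (by decide) (by decide) (by decide) (by linarith) hc3 (hK3 hb)
        rwa [v0, v1, v2, v6] at this)
    h3 h7 h8 hA
  -- the total function
  have hB2 : 0 ≤ w.w7 + w.wA := add_nonneg hw7 hwA
  have hB3 : 0 ≤ w.w8 + w.wA := add_nonneg hw8 hwA
  have hT := total_le7 hlh hl0 hh1 (lam := w.lam) (w := 1 - w.w3) (A := P1 + P2 + P3) (m := m) (q := q) hlam h1w m0.le m1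
    (A1 := 1) (β1 := w.c1) (A2 := w.w7 + w.wA) (β2 := w.c2) (A3 := w.w8 + w.wA) (β3 := w.c3)
    zero_le_one hc1 hB2 hc2 hB3 hc3 cf1 cf2 cf3 φ1 φ2 φ3 hS hN1 hN2 hN3 hE hMΦ (by
      intro e
      have i1 := hI e
      have j1 := hJ1 (e 0) (e 3) (e 4)
      have j2 := hJ2 (e 1) (e 3) (e 5)
      have j3 := hJ3 (e 2) (e 4) (e 5)
      have l := hL e
      have j1' : B2.UJ 1 w.c1 cf1 φ1 (corner lo hi e 0) (corner lo hi e 3) (corner lo hi e 4) N1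
        ≤ R1 (e 0) (e 3) (e 4) := j1
      have j2' : B2.UJ (w.w7 + w.wA) w.c2 cf2 φ2 (corner lo hi e 1) (corner lo hi e 3) (corner lo hi e 5) N2
        ≤ R2 (e 1) (e 3) (e 5) := j2
      have j3' : B2.UJ (w.w8 + w.wA) w.c3 cf3 φ3 (corner lo hi e 2) (corner lo hi e 4) (corner lo hi e 5) N3
        ≤ R3 (e 2) (e 4) (e 5) := j3
      linarith) hv
  rw [v0, v1, v2, v3, v4, v5, v6] at hT
  -- the sums
  have sm : ∀ {M : Multiset (ℝ × ℝ)} {φ ψ : ℝ × ℝ → ℝ}, (∀ z ∈ M, φ z ≤ ψ z) → (M.map φ).sum ≤ (M.map ψ).sum :=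
    fun h => Multiset.sum_map_le_sum_map _ _ h
  have s1 : w.w3 * (M1.map fun z => π z.1 z.2).sum + (1 - w.w3) * Om (sn M1) + ξ1 * (sn M1).sum
      ≤ (N1.map φ1).sum + P1 * R := by
    have h1 := sm hφ1
    rw [Multiset.sum_map_add, Multiset.sum_map_add, Multiset.sum_map_mul_left, Multiset.sum_map_mul_left,
      Multiset.sum_map_mul_left, Multiset.sum_map_add, Multiset.sum_map_mul_left, ← Om_sn, ← sum_sn,
      sum_fst c.m1, ← sum_snd, r1.f φ1 af1 z1, ← hR] at h1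
    exact h1
  have s2 : (w.w7 + w.wA) * Om (sn M2) + ξ2 * (sn M2).sum ≤ (N2.map φ2).sum + P2 * R := by
    have h1 := sm hφ2
    rw [Multiset.sum_map_add, Multiset.sum_map_mul_left, Multiset.sum_map_mul_left,
      Multiset.sum_map_add, Multiset.sum_map_mul_left, ← Om_sn, ← sum_sn,
      sum_fst c.m2, ← sum_snd, r2.f φ2 af2 z2, ← hR] at h1
    exact h1
  have s3 : (w.w8 + w.wA) * Om (sn M3) + ξ3 * (sn M3).sum ≤ (N3.map φ3).sum + P3 * R := by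
    have h1 := sm hφ3
    rw [Multiset.sum_map_add, Multiset.sum_map_mul_left, Multiset.sum_map_mul_left,
      Multiset.sum_map_add, Multiset.sum_map_mul_left, ← Om_sn, ← sum_sn,
      sum_fst c.m3, ← sum_snd, r3.f φ3 af3 z3, ← hR] at h1
    exact h1
  -- the values of the rows
  have sj1 := r1.s
  have sj2 := r2.s
  have sj3 := r3.s
  have hth := c.th
  have hst := c.st
  have hs0 := c.s0
  have y1 : w.c1 * WD.Wd (h + g1 + g2 + N1.sum) ≤ w.c1 * What (h + g1 + g2 + (sn M1).sum) := by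
    by_cases hz : w.c1 = 0
    · rw [hz, zero_mul, zero_mul]
    · rw [← sj1]
      have := sum_sn_nonneg c.m1
      exact mul_le_mul_of_nonneg_left (Wd_le_What' _ (by linarith) (tot1 hz)) hc1
  have y2 : w.c2 * WD.Wd (t + g1 + g3 + N2.sum) ≤ w.c2 * What (t + g1 + g3 + (sn M2).sum) := by
    by_cases hz : w.c2 = 0
    · rw [hz, zero_mul, zero_mul]
    · rw [← sj2]
      have := sum_sn_nonneg c.m2
      exact mul_le_mul_of_nonneg_left (Wd_le_What' _ (by linarith) (tot2 hz)) hc2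
  have y3 : w.c3 * WD.Wd (s + g2 + g3 + N3.sum) ≤ w.c3 * What (s + g2 + g3 + (sn M3).sum) := by
    by_cases hz : w.c3 = 0
    · rw [hz, zero_mul, zero_mul]
    · rw [← sj3]
      have := sum_sn_nonneg c.m3
      exact mul_le_mul_of_nonneg_left (Wd_le_What' _ (by linarith) (tot3 hz)) hc3
  have e1 : Df G1 (h ::ₘ g1 ::ₘ g2 ::ₘ sn M1) = G1 - What (h + g1 + g2 + (sn M1).sum) := by
    unfold Df
    rw [Multiset.sum_cons, Multiset.sum_cons, Multiset.sum_cons,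
      show h + (g1 + (g2 + (sn M1).sum)) = h + g1 + g2 + (sn M1).sum by ring]
  have e2 : Df G2 (t ::ₘ g1 ::ₘ g3 ::ₘ sn M2) = G2 - What (t + g1 + g3 + (sn M2).sum) := by
    unfold Df
    rw [Multiset.sum_cons, Multiset.sum_cons, Multiset.sum_cons,
      show t + (g1 + (g3 + (sn M2).sum)) = t + g1 + g3 + (sn M2).sum by ring]
  have e3 : Df G3 (s ::ₘ g2 ::ₘ g3 ::ₘ sn M3) = G3 - What (s + g2 + g3 + (sn M3).sum) := by
    unfold Df
    rw [Multiset.sum_cons, Multiset.sum_cons, Multiset.sum_cons,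
      show s + (g2 + (g3 + (sn M3).sum)) = s + g2 + g3 + (sn M3).sum by ring]
  rw [e1, e2, e3, ← hD0] at hcomb
  unfold B2.UJ RI at hT
  rw [hRr] at hT
  obtain ⟨F, hFd⟩ : ∃ F, F = FI h t s r m q := ⟨_, rfl⟩
  obtain ⟨WW, hWd⟩ : ∃ WW, WW = WI h t s r m q := ⟨_, rfl⟩
  obtain ⟨F1, hF1⟩ : ∃ F1, F1 = max (FM (1 ::ₘ h ::ₘ g1 ::ₘ g2 ::ₘ N1)) (cf1.val h g1 g2) := ⟨_, rfl⟩
  obtain ⟨F2, hF2⟩ : ∃ F2, F2 = max (FM (1 ::ₘ t ::ₘ g1 ::ₘ g3 ::ₘ N2)) (cf2.val t g1 g3) := ⟨_, rfl⟩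
  obtain ⟨F3, hF3⟩ : ∃ F3, F3 = max (FM (1 ::ₘ s ::ₘ g2 ::ₘ g3 ::ₘ N3)) (cf3.val s g2 g3) := ⟨_, rfl⟩
  rw [← hFd, ← hWd, ← hF1, ← hF2, ← hF3] at hT
  rw [← hFd] at hF
  rw [← hFd, ← hWd] at hDle
  rw [← hF1] at gj1
  rw [← hF2] at gj2
  rw [← hF3] at gj3
  have u0 := mul_le_mul_of_nonneg_left hDle hlam
  have u1 := mul_le_mul_of_nonneg_left gj1 (show 0 ≤ 1 + w.c1 by linarith)
  have u2 := mul_le_mul_of_nonneg_left gj2 (add_nonneg hB2 hc2)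
  have u3 := mul_le_mul_of_nonneg_left gj3 (add_nonneg hB3 hc3)
  have y0 := mul_le_mul_of_nonneg_left k2 h1w
  rw [hRr] at *
  linarith [hcomb, hT, s1, s2, s3, u0, u1, u2, u3, y0, y1, y2, y3, hSv, hcut, hF]

end C1
end Pool.Agent.Lib.MP_6947cd_al
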