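import Pool.Agent.Lib.MP_6947cd_al.C.St
import Pool.Agent.Lib.MP_6947cd_al.C.LeafR
import Pool.Agent.Lib.MP_6947cd_al.Z.TriA
import Pool.Agent.Lib.MP_6947cd_al.Y.TabI

/-!
Problem MP_6947cd_al (Chollet).  CASE C: the tree of boxes.  All the borders are multiples of `1 / 400`.

Coordinates: `0 1 2 3 4 5` = `h t s g1 g2 g3`, `6` = the sum of the rests of the row `i`.
-/

set_option autoImplicit false
open Finset

namespace Pool.Agent.Lib.MP_6947cd_al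
namespace C1

open Ent Ent.Pk Fr Fr.WT CC B1 PkA

/-! ### configurations as points -/

/-- the data of a configuration -/
structure Pt where
  h : ℝ
  t : ℝ
  s : ℝ
  g1 : ℝ
  g2 : ℝ
  g3 : ℝ
  Mi : Multiset ℝ
  M1 : Multiset (ℝ × ℝ)
  M2 : Multiset (ℝ × ℝ)
  M3 : Multiset (ℝ × ℝ)
  G0 : ℝ
  G1 : ℝ
  G2 : ℝ
  G3 : ℝ
  p1 : ℝ
  p2 : ℝ
  p3 : ℝ
  ρ1 : ℝ
  ρ2 : ℝ
  ρ3 : ℝ

/-- it is a configuration -/
def Pt.C (k : Pt) : Prop :=
  Cfg k.h k.t k.s k.g1 k.g2 k.g3 k.Mi k.M1 k.M2 k.M3 k.G0 k.G1 k.G2 k.G3 k.p1 k.p2 k.p3 k.ρ1 k.ρ2 k.ρ3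

noncomputable def Pt.D1 (k : Pt) : ℝ := Df k.G1 (k.h ::ₘ k.g1 ::ₘ k.g2 ::ₘ sn k.M1)
noncomputable def Pt.D2 (k : Pt) : ℝ := Df k.G2 (k.t ::ₘ k.g1 ::ₘ k.g3 ::ₘ sn k.M2)
noncomputable def Pt.D3 (k : Pt) : ℝ := Df k.G3 (k.s ::ₘ k.g2 ::ₘ k.g3 ::ₘ sn k.M3)

/-- it lies in the box -/
def Pt.I (k : Pt) (σ : St) : Prop := In σ k.h k.t k.s k.g1 k.g2 k.g3 k.Mi k.D1 k.D2 k.D3

theorem dead_iff {σ : St} : Dead σ ↔ ∀ k : Pt, k.C → k.I σ → False := by
  constructor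
  · intro h k hc hi
    exact h k.h k.t k.s k.g1 k.g2 k.g3 k.Mi k.M1 k.M2 k.M3 k.G0 k.G1 k.G2 k.G3 k.p1 k.p2 k.p3 k.ρ1 k.ρ2 k.ρ3 hc hi
  · intro H h t s g1 g2 g3 Mi M1 M2 M3 G0 G1 G2 G3 p1 p2 p3 ρ1 ρ2 ρ3 hc hi
    exact H ⟨h, t, s, g1, g2, g3, Mi, M1, M2, M3, G0, G1, G2, G3, p1, p2, p3, ρ1, ρ2, ρ3⟩ hc hi

/-- the value of a coordinate -/
noncomputable def Pt.v (k : Pt) : ℕ → ℝ
  | 0 => k.h
  | 1 => k.t
  | 2 => k.s
  | 3 => k.g1
  | 4 => k.g2
  | 5 => k.g3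
  | _ => k.Mi.sum

/-- between two borders -/
def BtC (a b : ℕ) (x : ℝ) : Prop := (a : ℝ) / 400 ≤ x ∧ x ≤ (b : ℝ) / 400

lemma box7 {b : Bx} {h t s g1 g2 g3 R : ℝ} : Box b.lo b.hi (vec7 h t s g1 g2 g3 R) ↔
    BtC b.H0 b.H1 h ∧ BtC b.T0 b.T1 t ∧ BtC b.S0 b.S1 s ∧ BtC b.A0 b.A1 g1 ∧ BtC b.B0 b.B1 g2 ∧
      BtC b.C0 b.C1 g3 ∧ BtC b.R0 b.R1 R := by
  constructor
  · intro H
    exact ⟨H 0, H 1, H 2, H 3, H 4, H 5, H 6⟩
  · rintro ⟨h0, h1, h2, h3, h4, h5, h6⟩ i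
    fin_cases i
    · exact h0
    · exact h1
    · exact h2
    · exact h3
    · exact h4
    · exact h5
    · exact h6

/-! ### borders -/

def St.loN (σ : St) : ℕ → ℕ
  | 0 => σ.x.H0
  | 1 => σ.x.T0
  | 2 => σ.x.S0
  | 3 => σ.x.A0
  | 4 => σ.x.B0
  | 5 => σ.x.C0
  | _ => σ.x.R0

def St.hiN (σ : St) : ℕ → ℕ
  | 0 => σ.x.H1
  | 1 => σ.x.T1
  | 2 => σ.x.S1
  | 3 => σ.x.A1
  | 4 => σ.x.B1
  | 5 => σ.x.C1
  | _ => σ.x.R1

/-- new lower border -/
def St.stLo (σ : St) (b : ℕ) : ℕ → St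
  | 0 => { σ with x := { σ.x with H0 := b } }
  | 1 => { σ with x := { σ.x with T0 := b } }
  | 2 => { σ with x := { σ.x with S0 := b } }
  | 3 => { σ with x := { σ.x with A0 := b } }
  | 4 => { σ with x := { σ.x with B0 := b } }
  | 5 => { σ with x := { σ.x with C0 := b } }
  | _ => { σ with x := { σ.x with R0 := b } }

/-- new upper border `b`; `3 / 10` is not reached if `b ≤ q` -/
def St.stHi (σ : St) (q b : ℕ) : ℕ → St
  | 0 => { σ with x := { σ.x with H1 := b } }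
  | 1 => { σ with x := { σ.x with T1 := b } }
  | 2 => { σ with x := { σ.x with S1 := b } }
  | 3 => { σ with x := { σ.x with A1 := b }, n1 := cond σ.n1 true (Nat.ble b q) }
  | 4 => { σ with x := { σ.x with B1 := b }, n2 := cond σ.n2 true (Nat.ble b q) }
  | 5 => { σ with x := { σ.x with C1 := b }, n3 := cond σ.n3 true (Nat.ble b q) }
  | _ => { σ with x := { σ.x with R1 := b } }

section

variable {k : Pt} {σ : St}

lemma Pt.I.bt (i : k.I σ) (c : ℕ) : BtC (σ.loN c) (σ.hiN c) (k.v c) := by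
  obtain ⟨h0, h1, h2, h3, h4, h5, h6⟩ := box7.mp i.box
  rcases lt_or_ge c 6 with hc | hc
  · interval_cases c
    · exact h0
    · exact h1
    · exact h2
    · exact h3
    · exact h4
    · exact h5
  · obtain ⟨c, rfl⟩ := Nat.exists_eq_add_of_le' hc
    exact h6

/-- new lower border -/
lemma Pt.I.stLo (i : k.I σ) (c b : ℕ) (hb : (b : ℝ) / 400 ≤ k.v c) : k.I (σ.stLo b c) := by
  obtain ⟨h0, h1, h2, h3, h4, h5, h6⟩ := box7.mp i.box
  rcases lt_or_ge c 6 with hc | hc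
  · interval_cases c
    · exact { i with box := box7.mpr ⟨⟨hb, h0.2⟩, h1, h2, h3, h4, h5, h6⟩ }
    · exact { i with box := box7.mpr ⟨h0, ⟨hb, h1.2⟩, h2, h3, h4, h5, h6⟩ }
    · exact { i with box := box7.mpr ⟨h0, h1, ⟨hb, h2.2⟩, h3, h4, h5, h6⟩ }
    · exact { i with box := box7.mpr ⟨h0, h1, h2, ⟨hb, h3.2⟩, h4, h5, h6⟩ }
    · exact { i with box := box7.mpr ⟨h0, h1, h2, h3, ⟨hb, h4.2⟩, h5, h6⟩ }
    · exact { i with box := box7.mpr ⟨h0, h1, h2, h3, h4, ⟨hb, h5.2⟩, h6⟩ }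
  · obtain ⟨c, rfl⟩ := Nat.exists_eq_add_of_le' hc
    exact { i with box := box7.mpr ⟨h0, h1, h2, h3, h4, h5, ⟨hb, h6.2⟩⟩ }

/-- new upper border -/
lemma Pt.I.stHi (i : k.I σ) (q c b : ℕ) (hb : k.v c ≤ (b : ℝ) / 400) (hq : b ≤ q → k.v c < 3 / 10) :
    k.I (σ.stHi q b c) := by
  obtain ⟨h0, h1, h2, h3, h4, h5, h6⟩ := box7.mp i.box
  have nn : ∀ (n : Bool) (x : ℝ), (n = true → x < 3 / 10) → (b ≤ q → x < 3 / 10) →
      cond n true (Nat.ble b q) = true → x < 3 / 10 := by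
    intro n x hn hx hc
    cases n with
    | true => exact hn rfl
    | false =>
      rw [cond_false] at hc
      exact hx (Nat.le_of_ble_eq_true hc)
  rcases lt_or_ge c 6 with hc | hc
  · interval_cases c
    · exact { i with box := box7.mpr ⟨⟨h0.1, hb⟩, h1, h2, h3, h4, h5, h6⟩ }
    · exact { i with box := box7.mpr ⟨h0, ⟨h1.1, hb⟩, h2, h3, h4, h5, h6⟩ }
    · exact { i with box := box7.mpr ⟨h0, h1, ⟨h2.1, hb⟩, h3, h4, h5, h6⟩ }
    · exact { i with box := box7.mpr ⟨h0, h1, h2, ⟨h3.1, hb⟩, h4, h5, h6⟩, n1 := nn _ _ i.n1 hq }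
    · exact { i with box := box7.mpr ⟨h0, h1, h2, h3, ⟨h4.1, hb⟩, h5, h6⟩, n2 := nn _ _ i.n2 hq }
    · exact { i with box := box7.mpr ⟨h0, h1, h2, h3, h4, ⟨h5.1, hb⟩, h6⟩, n3 := nn _ _ i.n3 hq }
  · obtain ⟨c, rfl⟩ := Nat.exists_eq_add_of_le' hc
    exact { i with box := box7.mpr ⟨h0, h1, h2, h3, h4, h5, ⟨h6.1, hb⟩⟩ }

end

/-! ### the triples -/

/-- the admissible triples of coordinates (`{0,1,3}`, `{0,2,4}`, `{1,2,5}`, `{3,4,5}`, any order) -/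
def okT (X Y Z : ℕ) : Bool :=
  cond (Nat.ble X (nat_lit 5)) (cond (Nat.ble Y (nat_lit 5)) (cond (Nat.ble Z (nat_lit 5))
    (frc (Nat.add (Nat.add (Nat.pow (nat_lit 2) X) (Nat.pow (nat_lit 2) Y)) (Nat.pow (nat_lit 2) Z)) fun n =>
      cond (Nat.beq n (nat_lit 11)) true (cond (Nat.beq n (nat_lit 21)) true (cond (Nat.beq n (nat_lit 38)) true
        (Nat.beq n (nat_lit 56))))) false) false) false

def T24 : List (ℕ × ℕ × ℕ) :=
  [(0, 1, 3), (0, 3, 1), (1, 0, 3), (1, 3, 0), (3, 0, 1), (3, 1, 0),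
   (0, 2, 4), (0, 4, 2), (2, 0, 4), (2, 4, 0), (4, 0, 2), (4, 2, 0),
   (1, 2, 5), (1, 5, 2), (2, 1, 5), (2, 5, 1), (5, 1, 2), (5, 2, 1),
   (3, 4, 5), (3, 5, 4), (4, 3, 5), (4, 5, 3), (5, 3, 4), (5, 4, 3)]

lemma T24_all : ((List.range 6).all fun X => (List.range 6).all fun Y => (List.range 6).all fun Z =>
    !okT X Y Z || T24.contains (X, Y, Z)) = true := by decide +kernel

lemma okT_mem {X Y Z : ℕ} (h : okT X Y Z = true) : (X, Y, Z) ∈ T24 := by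
  have h1 : X ≤ 5 ∧ Y ≤ 5 ∧ Z ≤ 5 := by
    unfold okT at h
    obtain ⟨a, h⟩ := cond_eq_true h
    obtain ⟨b, h⟩ := cond_eq_true h
    obtain ⟨c, -⟩ := cond_eq_true h
    exact ⟨Nat.le_of_ble_eq_true a, Nat.le_of_ble_eq_true b, Nat.le_of_ble_eq_true c⟩
  have key := T24_all
  rw [List.all_eq_true] at key
  have k1 := key X (List.mem_range.mpr (by omega))
  rw [List.all_eq_true] at k1
  have k2 := k1 Y (List.mem_range.mpr (by omega))
  rw [List.all_eq_true] at k2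
  have k3 := k2 Z (List.mem_range.mpr (by omega))
  rw [h] at k3
  simpa using k3

/-- the entries are in `[0, 1]`, the four triples are admissible -/
theorem okT_sound {k : Pt} (c : k.C) {X Y Z : ℕ} (h : okT X Y Z = true) :
    (0 ≤ k.v X ∧ k.v X ≤ 1) ∧ (0 ≤ k.v Y ∧ k.v Y ≤ 1) ∧ (0 ≤ k.v Z ∧ k.v Z ≤ 1) ∧
      Tri (k.v X) (k.v Y) (k.v Z) := by
  have hh : 0 ≤ k.h ∧ k.h ≤ 1 := ⟨by linarith [c.s0, c.st, c.th], c.h1⟩
  have ht : 0 ≤ k.t ∧ k.t ≤ 1 := ⟨by linarith [c.s0, c.st], c.th.trans c.h1⟩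
  have hs : 0 ≤ k.s ∧ k.s ≤ 1 := ⟨by linarith [c.s0], (c.st.trans c.th).trans c.h1⟩
  have h1 := c.g1m
  have h2 := c.g2m
  have h3 := c.g3m
  have a1 := c.tr1
  have a2 := c.tr2
  have a3 := c.tr3
  have a4 := c.tr4
  have p23 : ∀ {x y z : ℝ}, Tri x y z → Tri x z y := fun h => Tri.comm23 h
  have p12 : ∀ {x y z : ℝ}, Tri x y z → Tri y x z := fun h => Tri.comm12 h
  have hm := okT_mem h
  simp only [T24, List.mem_cons, Prod.mk.injEq, List.not_mem_nil, or_false] at hm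
  rcases hm with ⟨rfl, rfl, rfl⟩ | ⟨rfl, rfl, rfl⟩ | ⟨rfl, rfl, rfl⟩ | ⟨rfl, rfl, rfl⟩ | ⟨rfl, rfl, rfl⟩ |
    ⟨rfl, rfl, rfl⟩ | ⟨rfl, rfl, rfl⟩ | ⟨rfl, rfl, rfl⟩ | ⟨rfl, rfl, rfl⟩ | ⟨rfl, rfl, rfl⟩ | ⟨rfl, rfl, rfl⟩ |
    ⟨rfl, rfl, rfl⟩ | ⟨rfl, rfl, rfl⟩ | ⟨rfl, rfl, rfl⟩ | ⟨rfl, rfl, rfl⟩ | ⟨rfl, rfl, rfl⟩ | ⟨rfl, rfl, rfl⟩ |
    ⟨rfl, rfl, rfl⟩ | ⟨rfl, rfl, rfl⟩ | ⟨rfl, rfl, rfl⟩ | ⟨rfl, rfl, rfl⟩ | ⟨rfl, rfl, rfl⟩ | ⟨rfl, rfl, rfl⟩ |
    ⟨rfl, rfl, rfl⟩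
  · exact ⟨hh, ht, h1, a1⟩
  · exact ⟨hh, h1, ht, p23 a1⟩
  · exact ⟨ht, hh, h1, p12 a1⟩
  · exact ⟨ht, h1, hh, p23 (p12 a1)⟩
  · exact ⟨h1, hh, ht, p12 (p23 a1)⟩
  · exact ⟨h1, ht, hh, p12 (p23 (p12 a1))⟩
  · exact ⟨hh, hs, h2, a2⟩
  · exact ⟨hh, h2, hs, p23 a2⟩
  · exact ⟨hs, hh, h2, p12 a2⟩
  · exact ⟨hs, h2, hh, p23 (p12 a2)⟩
  · exact ⟨h2, hh, hs, p12 (p23 a2)⟩
  · exact ⟨h2, hs, hh, p12 (p23 (p12 a2))⟩
  · exact ⟨ht, hs, h3, a3⟩
  · exact ⟨ht, h3, hs, p23 a3⟩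
  · exact ⟨hs, ht, h3, p12 a3⟩
  · exact ⟨hs, h3, ht, p23 (p12 a3)⟩
  · exact ⟨h3, ht, hs, p12 (p23 a3)⟩
  · exact ⟨h3, hs, ht, p12 (p23 (p12 a3))⟩
  · exact ⟨h1, h2, h3, a4⟩
  · exact ⟨h1, h3, h2, p23 a4⟩
  · exact ⟨h2, h1, h3, p12 a4⟩
  · exact ⟨h2, h3, h1, p23 (p12 a4)⟩
  · exact ⟨h3, h1, h2, p12 (p23 a4)⟩
  · exact ⟨h3, h2, h1, p12 (p23 (p12 a4))⟩

/-- the line of a triple, upper part: `400 (p² + q² + r² + 2pr + 2qr) + 4pqZ` -/
def lnUC (p q r Z : ℕ) : ℕ :=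
  Nat.add (Nat.mul (nat_lit 400) (Nat.add (Nat.add (Nat.add (Nat.mul p p) (Nat.mul q q)) (Nat.mul r r))
    (Nat.mul (nat_lit 2) (Nat.mul (Nat.add p q) r)))) (Nat.mul (Nat.mul (nat_lit 4) (Nat.mul p q)) Z)

/-- the line of a triple, lower part: `4prX + 4qrY + 800pq` -/
def lnLC (p q r X Y : ℕ) : ℕ :=
  Nat.add (Nat.mul (Nat.mul (nat_lit 4) r) (Nat.add (Nat.mul p X) (Nat.mul q Y)))
    (Nat.mul (nat_lit 800) (Nat.mul p q))

lemma lnUC_cast (p q r Z : ℕ) : (lnUC p q r Z : ℝ)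
    = 400 * ((p : ℝ) ^ 2 + q ^ 2 + r ^ 2 + 2 * (p * r) + 2 * (q * r)) + 4 * (p * q) * Z := by
  have e : lnUC p q r Z = 400 * (p * p + q * q + r * r + 2 * ((p + q) * r)) + 4 * (p * q) * Z := rfl
  rw [e]
  push_cast
  ring

lemma lnLC_cast (p q r X Y : ℕ) : (lnLC p q r X Y : ℝ) = 4 * (p * r) * X + 4 * (q * r) * Y + 800 * (p * q) := by
  have e : lnLC p q r X Y = 4 * r * (p * X + q * Y) + 800 * (p * q) := rfl
  rw [e]
  push_cast
  ring

/-- THE LINE of a triple -/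
theorem lineC {k : Pt} (c : k.C) {X Y Z : ℕ} (h : okT X Y Z = true) (p q r : ℕ) :
    4 * (p : ℝ) * r * k.v X + 4 * (q : ℝ) * r * k.v Y
      ≤ (p : ℝ) ^ 2 + (q : ℝ) ^ 2 + (r : ℝ) ^ 2 + 2 * p * r + 2 * q * r - 2 * p * q + 4 * p * q * k.v Z := by
  obtain ⟨a, b, d, e⟩ := okT_sound c h
  exact triL e a.1 a.2 b.1 b.2 d.1 (Nat.cast_nonneg _) (Nat.cast_nonneg _) (Nat.cast_nonneg _)

/-! ### inclusion of boxes -/

/-- the status of a vertex: the reference is unknown or the same -/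
def subS (s s' : ℕ) : Bool := cond (Nat.ble (nat_lit 2) s') true (Nat.beq s s')

/-- the flag of an entry -/
def subF (n n' : Bool) : Bool := cond n' n true

/-- inclusion of intervals -/
def subI (a b a' b' : ℕ) (k : Bool) : Bool := cond (Nat.ble a' a) (cond (Nat.ble b b') k false) false

/-- inclusion of boxes -/
def St.sub (σ τ : St) : Bool :=
  subI σ.x.H0 σ.x.H1 τ.x.H0 τ.x.H1 (subI σ.x.T0 σ.x.T1 τ.x.T0 τ.x.T1 (subI σ.x.S0 σ.x.S1 τ.x.S0 τ.x.S1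
    (subI σ.x.A0 σ.x.A1 τ.x.A0 τ.x.A1 (subI σ.x.B0 σ.x.B1 τ.x.B0 τ.x.B1 (subI σ.x.C0 σ.x.C1 τ.x.C0 τ.x.C1
      (subI σ.x.R0 σ.x.R1 τ.x.R0 τ.x.R1 (cond (subS σ.s1 τ.s1) (cond (subS σ.s2 τ.s2) (cond (subS σ.s3 τ.s3)
        (cond (subF σ.n1 τ.n1) (cond (subF σ.n2 τ.n2) (subF σ.n3 τ.n3) false) false) false) false) false)))))))

lemma subI_sound {a b a' b' : ℕ} {k : Bool} (h : subI a b a' b' k = true) {x : ℝ} (hx : BtC a b x) :
    BtC a' b' x ∧ k = true := by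
  unfold subI at h
  obtain ⟨h1, h⟩ := cond_eq_true h
  obtain ⟨h2, h⟩ := cond_eq_true h
  have e1 : (a' : ℝ) ≤ a := by exact_mod_cast Nat.le_of_ble_eq_true h1
  have e2 : (b : ℝ) ≤ b' := by exact_mod_cast Nat.le_of_ble_eq_true h2
  exact ⟨⟨le_trans (by linarith) hx.1, hx.2.trans (by linarith)⟩, h⟩

lemma subS_sound {s s' : ℕ} (h : subS s s' = true) {D : ℝ} (h0 : s = 0 → 0 < D) (h1 : s = 1 → D ≤ 0) :
    (s' = 0 → 0 < D) ∧ (s' = 1 → D ≤ 0) := by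
  unfold subS at h
  cases hb : Nat.ble (nat_lit 2) s' with
  | true =>
    have : 2 ≤ s' := Nat.le_of_ble_eq_true hb
    exact ⟨fun e => by omega, fun e => by omega⟩
  | false =>
    rw [hb, cond_false] at h
    have : s = s' := Nat.eq_of_beq_eq_true h
    subst this
    exact ⟨h0, h1⟩

lemma subF_sound {n n' : Bool} (h : subF n n' = true) {x : ℝ} (h0 : n = true → x < 3 / 10) :
    n' = true → x < 3 / 10 := by
  rintro rfl
  exact h0 h

theorem Dead.mono {σ τ : St} (hs : σ.sub τ = true) (h : Dead τ) : Dead σ := by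
  rw [dead_iff] at h ⊢
  intro k c i
  obtain ⟨h0, h1, h2, h3, h4, h5, h6⟩ := box7.mp i.box
  unfold St.sub at hs
  obtain ⟨a0, hs⟩ := subI_sound hs h0
  obtain ⟨a1, hs⟩ := subI_sound hs h1
  obtain ⟨a2, hs⟩ := subI_sound hs h2
  obtain ⟨a3, hs⟩ := subI_sound hs h3
  obtain ⟨a4, hs⟩ := subI_sound hs h4
  obtain ⟨a5, hs⟩ := subI_sound hs h5
  obtain ⟨a6, hs⟩ := subI_sound hs h6
  obtain ⟨b1, hs⟩ := cond_eq_true hs
  obtain ⟨b2, hs⟩ := cond_eq_true hs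
  obtain ⟨b3, hs⟩ := cond_eq_true hs
  obtain ⟨n1, hs⟩ := cond_eq_true hs
  obtain ⟨n2, n3⟩ := cond_eq_true hs
  have c1 := subS_sound b1 i.b1 i.q1
  have c2 := subS_sound b2 i.b2 i.q2
  have c3 := subS_sound b3 i.b3 i.q3
  exact h k c ⟨box7.mpr ⟨a0, a1, a2, a3, a4, a5, a6⟩, c1.1, c1.2, c2.1, c2.2, c3.1, c3.2,
    subF_sound n1 i.n1, subF_sound n2 i.n2, subF_sound n3 i.n3⟩

/-! ### the tree -/

/-- A TREE OF BOXES with the leaves `α` -/
inductive Tr (α : Type) : Type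
  | leaf : α → Tr α
  /-- split of the coordinate `c` at `b` -/
  | spl : ℕ → ℕ → Tr α → Tr α → Tr α
  /-- the status of the vertex `v = 1, 2, 3`: first bad, then payer -/
  | stt : ℕ → Tr α → Tr α → Tr α
  /-- borders by `s ≤ t ≤ h` -/
  | ord : Tr α → Tr α
  /-- `X Y Z p q r b`: new upper border `b` of `X` -/
  | trX : ℕ → ℕ → ℕ → ℕ → ℕ → ℕ → ℕ → Tr α → Tr α
  /-- `X Y Z p q r b`: new lower border `b` of `Z` -/
  | trZ : ℕ → ℕ → ℕ → ℕ → ℕ → ℕ → ℕ → Tr α → Tr α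
  /-- the box is empty: order -/
  | emO : Tr α
  /-- the box is empty: line `X Y Z p q r` -/
  | emL : ℕ → ℕ → ℕ → ℕ → ℕ → ℕ → Tr α
  /-- the box is empty: borders of the coordinate `c` -/
  | emB : ℕ → Tr α
  /-- the box is contained in the reference box `k` -/
  | ref : ℕ → Tr α
  /-- the row `i` is satisfied on the box -/
  | dle : ℕ → Tr α

/-- evaluation of a Boolean value -/
def frB (b : Bool) (k : Bool → Bool) : Bool := cond b (k true) (k false)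

lemma frB_eq (b : Bool) (k : Bool → Bool) : frB b k = k b := by cases b <;> rfl

/-- evaluation of a box -/
def nrm (σ : St) (k : St → Bool) : Bool :=
  frc σ.x.H0 fun a => frc σ.x.H1 fun a' => frc σ.x.T0 fun b => frc σ.x.T1 fun b' =>
  frc σ.x.S0 fun c => frc σ.x.S1 fun c' => frc σ.x.A0 fun d => frc σ.x.A1 fun d' =>
  frc σ.x.B0 fun e => frc σ.x.B1 fun e' => frc σ.x.C0 fun f => frc σ.x.C1 fun f' =>
  frc σ.x.R0 fun g => frc σ.x.R1 fun g' => frc σ.s1 fun s1 => frc σ.s2 fun s2 => frc σ.s3 fun s3 =>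
  frB σ.n1 fun n1 => frB σ.n2 fun n2 => frB σ.n3 fun n3 =>
    k ⟨⟨a, a', b, b', c, c', d, d', e, e', f, f', g, g'⟩, s1, s2, s3, n1, n2, n3⟩

lemma nrm_eq (σ : St) (k : St → Bool) : nrm σ k = k σ := by
  unfold nrm
  simp only [frc_eq, frB_eq]

/-- new status -/
def St.stS (σ : St) (b : ℕ) : ℕ → St
  | 1 => { σ with s1 := b }
  | 2 => { σ with s2 := b }
  | _ => { σ with s3 := b }

/-- smaller of two numbers -/
def mnN (a b : ℕ) : ℕ := cond (Nat.ble a b) a b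
def mxN (a b : ℕ) : ℕ := cond (Nat.ble a b) b a

lemma mnN_eq (a b : ℕ) : mnN a b = min a b := by
  unfold mnN
  cases h : Nat.ble a b with
  | true => rw [cond_true, min_eq_left (Nat.le_of_ble_eq_true h)]
  | false =>
    have : ¬ a ≤ b := fun h1 => by
      rw [Nat.ble_eq_true_of_le h1] at h
      exact Bool.noConfusion h
    rw [cond_false, min_eq_right (by omega)]

lemma mxN_eq (a b : ℕ) : mxN a b = max a b := by
  unfold mxN
  cases h : Nat.ble a b with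
  | true => rw [cond_true, max_eq_right (Nat.le_of_ble_eq_true h)]
  | false =>
    have : ¬ a ≤ b := fun h1 => by
      rw [Nat.ble_eq_true_of_le h1] at h
      exact Bool.noConfusion h
    rw [cond_false, max_eq_left (by omega)]

/-- the order -/
def St.ord (σ : St) : St :=
  { σ with x := { σ.x with
      T1 := mnN σ.x.T1 σ.x.H1, S1 := mnN σ.x.S1 (mnN σ.x.T1 σ.x.H1),
      T0 := mxN σ.x.T0 σ.x.S0, H0 := mxN σ.x.H0 (mxN σ.x.T0 σ.x.S0) } }

/-- strict comparison -/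
def ltN (a b : ℕ) : Bool := Nat.ble (Nat.succ a) b

/-- the reference boxes -/
noncomputable def rfb (l : List St) (f : St → Bool) : ℕ → Bool :=
  @List.rec St (fun _ => ℕ → Bool) (fun _ => false) (fun τ _ ih i => @Nat.rec (fun _ => Bool) (f τ) (fun j _ => ih j) i) l

lemma rfb_sound (f : St → Bool) (l : List St) : ∀ i, rfb l f i = true → ∃ τ ∈ l, f τ = true := by
  induction l with
  | nil => intro i h; exact Bool.noConfusion h
  | cons τ l ih =>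
    intro i h
    cases i with
    | zero => exact ⟨τ, List.mem_cons_self .., h⟩
    | succ i =>
      obtain ⟨τ', h1, h2⟩ := ih i h
      exact ⟨τ', List.mem_cons_of_mem _ h1, h2⟩

section

variable {α : Type}

/-- THE CHECK of a tree: `lf` = check of a leaf, `df k` = check of a box where the row `i` is satisfied -/
noncomputable def Tr.chk (lf : α → St → Bool) (df : ℕ → St → Bool) (refs : List St) (T : Tr α) : St → Bool :=
  @Tr.rec α (fun _ => St → Bool)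
    (fun a σ => lf a σ)
    (fun c b _ _ ihL ihR σ => cond (nrm (σ.stHi (nat_lit 120) b c) ihL) (nrm (σ.stLo b c) ihR) false)
    (fun v _ _ ihL ihR σ => cond (nrm (σ.stS (nat_lit 0) v) ihL) (nrm (σ.stS (nat_lit 1) v) ihR) false)
    (fun _ ih σ => nrm σ.ord ih)
    (fun X Y Z p q r b _ ih σ => cond (okT X Y Z) (cond (Nat.ble (nat_lit 1) p) (cond (Nat.ble (nat_lit 1) r)
      (cond (Nat.ble (lnUC p q r (σ.hiN Z)) (lnLC p q r b (σ.loN Y)))
        (nrm (σ.stHi (nat_lit 119) b X) ih) false) false) false) false)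
    (fun X Y Z p q r b _ ih σ => cond (okT X Y Z) (cond (Nat.ble (nat_lit 1) p) (cond (Nat.ble (nat_lit 1) q)
      (cond (Nat.ble (lnUC p q r b) (lnLC p q r (σ.loN X) (σ.loN Y)))
        (nrm (σ.stLo b Z) ih) false) false) false) false)
    (fun σ => cond (ltN σ.x.H1 σ.x.T0) true (cond (ltN σ.x.T1 σ.x.S0) true (ltN σ.x.H1 σ.x.S0)))
    (fun X Y Z p q r σ => cond (okT X Y Z) (ltN (lnUC p q r (σ.hiN Z)) (lnLC p q r (σ.loN X) (σ.loN Y))) false)
    (fun c σ => ltN (σ.hiN c) (σ.loN c))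
    (fun k σ => rfb refs (fun τ => σ.sub τ) k)
    (fun k σ => df k σ) T

lemma ltN_iff {a b : ℕ} (h : ltN a b = true) : (a : ℝ) < b := by
  have : a + 1 ≤ b := Nat.le_of_ble_eq_true h
  have h2 : a < b := this
  exact_mod_cast h2

/-- SOUNDNESS of the tree -/
theorem Tr.sound {lf : α → St → Bool} (hlf : ∀ a σ, lf a σ = true → Dead σ) {df : ℕ → St → Bool}
    (hdf : ∀ k σ, df k σ = true → Dead σ) {refs : List St} (hr : ∀ τ ∈ refs, Dead τ) (T : Tr α) :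
    ∀ σ, T.chk lf df refs σ = true → Dead σ := by
  induction T with
  | leaf a => intro σ h; exact hlf a σ h
  | spl c b L R ihL ihR =>
    intro σ h
    have h' : cond (nrm (σ.stHi 120 b c) (L.chk lf df refs)) (nrm (σ.stLo b c) (R.chk lf df refs)) false = true := h
    rw [nrm_eq, nrm_eq] at h'
    obtain ⟨h1, h2⟩ := cond_eq_true h'
    rw [dead_iff]
    intro k hc i
    rcases lt_or_ge (k.v c) ((b : ℝ) / 400) with hb | hb
    · refine dead_iff.mp (ihL _ h1) k hc (i.stHi 120 c b hb.le fun hq => lt_of_lt_of_le hb ?_)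
      have : (b : ℝ) ≤ 120 := by exact_mod_cast hq
      linarith
    · exact dead_iff.mp (ihR _ h2) k hc (i.stLo c b hb)
  | stt v L R ihL ihR =>
    intro σ h
    have h' : cond (nrm (σ.stS 0 v) (L.chk lf df refs)) (nrm (σ.stS 1 v) (R.chk lf df refs)) false = true := h
    rw [nrm_eq, nrm_eq] at h'
    obtain ⟨h1, h2⟩ := cond_eq_true h'
    rw [dead_iff]
    intro k hc i
    have n01 : ¬ (0 : ℕ) = 1 := by norm_num
    have n10 : ¬ (1 : ℕ) = 0 := by norm_num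
    rcases Nat.lt_trichotomy v 1 with hv | hv | hv
    · have hv0 : v = 0 := by omega
      subst hv0
      rcases lt_or_ge 0 k.D3 with hD | hD
      · exact dead_iff.mp (ihL _ h1) k hc { i with b3 := fun _ => hD, q3 := fun e => absurd e n01 }
      · exact dead_iff.mp (ihR _ h2) k hc { i with b3 := fun e => absurd e n10, q3 := fun _ => hD }
    · subst hv
      rcases lt_or_ge 0 k.D1 with hD | hD
      · exact dead_iff.mp (ihL _ h1) k hc { i with b1 := fun _ => hD, q1 := fun e => absurd e n01 }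
      · exact dead_iff.mp (ihR _ h2) k hc { i with b1 := fun e => absurd e n10, q1 := fun _ => hD }
    · rcases Nat.eq_or_lt_of_le (show 2 ≤ v from hv) with hv2 | hv2
      · subst hv2
        rcases lt_or_ge 0 k.D2 with hD | hD
        · exact dead_iff.mp (ihL _ h1) k hc { i with b2 := fun _ => hD, q2 := fun e => absurd e n01 }
        · exact dead_iff.mp (ihR _ h2) k hc { i with b2 := fun e => absurd e n10, q2 := fun _ => hD }
      · obtain ⟨w, rfl⟩ : ∃ w, v = w + 3 := ⟨v - 3, by omega⟩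
        rcases lt_or_ge 0 k.D3 with hD | hD
        · exact dead_iff.mp (ihL _ h1) k hc { i with b3 := fun _ => hD, q3 := fun e => absurd e n01 }
        · exact dead_iff.mp (ihR _ h2) k hc { i with b3 := fun e => absurd e n10, q3 := fun _ => hD }
  | ord L ih =>
    intro σ h
    have h' : nrm σ.ord (L.chk lf df refs) = true := h
    rw [nrm_eq] at h'
    rw [dead_iff]
    intro k hc i
    obtain ⟨h0, h1, h2, h3, h4, h5, h6⟩ := box7.mp i.box
    have hth : k.t ≤ k.h := hc.th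
    have hst : k.s ≤ k.t := hc.st
    have mn : ∀ (a b : ℕ) (x : ℝ), x ≤ (a : ℝ) / 400 → x ≤ (b : ℝ) / 400 → x ≤ ((mnN a b : ℕ) : ℝ) / 400 := by
      intro a b x ha hb
      rw [mnN_eq]
      rcases min_cases a b with ⟨e, -⟩ | ⟨e, -⟩
      · rw [e]; exact ha
      · rw [e]; exact hb
    have mx : ∀ (a b : ℕ) (x : ℝ), (a : ℝ) / 400 ≤ x → (b : ℝ) / 400 ≤ x → ((mxN a b : ℕ) : ℝ) / 400 ≤ x := by
      intro a b x ha hb
      rw [mxN_eq]
      rcases max_cases a b with ⟨e, -⟩ | ⟨e, -⟩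
      · rw [e]; exact ha
      · rw [e]; exact hb
    have t1 := mn σ.x.T1 σ.x.H1 k.t h1.2 (hth.trans h0.2)
    have s1 := mn σ.x.S1 (mnN σ.x.T1 σ.x.H1) k.s h2.2 (hst.trans t1)
    have t0 := mx σ.x.T0 σ.x.S0 k.t h1.1 (h2.1.trans hst)
    have h0' := mx σ.x.H0 (mxN σ.x.T0 σ.x.S0) k.h h0.1 (t0.trans hth)
    exact dead_iff.mp (ih _ h') k hc
      { i with box := box7.mpr ⟨⟨h0', h0.2⟩, ⟨t0, t1⟩, ⟨h2.1, s1⟩, h3, h4, h5, h6⟩ }
  | trX X Y Z p q r b L ih =>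
    intro σ h
    have h' : cond (okT X Y Z) (cond (Nat.ble 1 p) (cond (Nat.ble 1 r)
      (cond (Nat.ble (lnUC p q r (σ.hiN Z)) (lnLC p q r b (σ.loN Y)))
        (nrm (σ.stHi 119 b X) (L.chk lf df refs)) false) false) false) false = true := h
    rw [nrm_eq] at h'
    obtain ⟨ok, h'⟩ := cond_eq_true h'
    obtain ⟨hp, h'⟩ := cond_eq_true h'
    obtain ⟨hr', h'⟩ := cond_eq_true h'
    obtain ⟨hl, h'⟩ := cond_eq_true h'
    rw [dead_iff]
    intro k hc i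
    have key := lineC hc ok p q r
    have bY := (i.bt Y).1
    have bZ := (i.bt Z).2
    have e1 : ((lnUC p q r (σ.hiN Z) : ℕ) : ℝ) ≤ (lnLC p q r b (σ.loN Y) : ℕ) := by
      exact_mod_cast Nat.le_of_ble_eq_true hl
    rw [lnUC_cast, lnLC_cast] at e1
    have hp' : (0 : ℝ) < p := by exact_mod_cast Nat.lt_of_lt_of_le Nat.zero_lt_one (Nat.le_of_ble_eq_true hp)
    have hr'' : (0 : ℝ) < r := by exact_mod_cast Nat.lt_of_lt_of_le Nat.zero_lt_one (Nat.le_of_ble_eq_true hr')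
    have hq' : (0 : ℝ) ≤ q := Nat.cast_nonneg _
    have hX : k.v X ≤ (b : ℝ) / 400 := by
      obtain ⟨vX, hX⟩ : ∃ z, z = k.v X := ⟨_, rfl⟩
      obtain ⟨vY, hY⟩ : ∃ z, z = k.v Y := ⟨_, rfl⟩
      obtain ⟨vZ, hZ⟩ : ∃ z, z = k.v Z := ⟨_, rfl⟩
      rw [← hX, ← hY, ← hZ] at key
      rw [← hY] at bY
      rw [← hZ] at bZ
      rw [← hX]
      have f1 : 4 * ((p : ℝ) * q) * (400 * vZ) ≤ 4 * (p * q) * (σ.hiN Z : ℝ) :=
        mul_le_mul_of_nonneg_left (by linarith) (by positivity)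
      have f2 : 4 * ((q : ℝ) * r) * (σ.loN Y : ℝ) ≤ 4 * (q * r) * (400 * vY) :=
        mul_le_mul_of_nonneg_left (by linarith) (by positivity)
      have f3 : 4 * ((p : ℝ) * r) * (400 * vX) ≤ 4 * (p * r) * b := by nlinarith
      have f4 := le_of_mul_le_mul_left f3 (by positivity)
      linarith
    refine dead_iff.mp (ih _ h') k hc (i.stHi 119 X b hX fun hq => lt_of_le_of_lt hX ?_)
    have : (b : ℝ) ≤ 119 := by exact_mod_cast hq
    linarith
  | trZ X Y Z p q r b L ih =>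
    intro σ h
    have h' : cond (okT X Y Z) (cond (Nat.ble 1 p) (cond (Nat.ble 1 q)
      (cond (Nat.ble (lnUC p q r b) (lnLC p q r (σ.loN X) (σ.loN Y)))
        (nrm (σ.stLo b Z) (L.chk lf df refs)) false) false) false) false = true := h
    rw [nrm_eq] at h'
    obtain ⟨ok, h'⟩ := cond_eq_true h'
    obtain ⟨hp, h'⟩ := cond_eq_true h'
    obtain ⟨hq, h'⟩ := cond_eq_true h'
    obtain ⟨hl, h'⟩ := cond_eq_true h'
    rw [dead_iff]
    intro k hc i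
    have key := lineC hc ok p q r
    have bX := (i.bt X).1
    have bY := (i.bt Y).1
    have e1 : ((lnUC p q r b : ℕ) : ℝ) ≤ (lnLC p q r (σ.loN X) (σ.loN Y) : ℕ) := by
      exact_mod_cast Nat.le_of_ble_eq_true hl
    rw [lnUC_cast, lnLC_cast] at e1
    have hp' : (0 : ℝ) < p := by exact_mod_cast Nat.lt_of_lt_of_le Nat.zero_lt_one (Nat.le_of_ble_eq_true hp)
    have hq' : (0 : ℝ) < q := by exact_mod_cast Nat.lt_of_lt_of_le Nat.zero_lt_one (Nat.le_of_ble_eq_true hq)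
    have hr'' : (0 : ℝ) ≤ r := Nat.cast_nonneg _
    have hZ : (b : ℝ) / 400 ≤ k.v Z := by
      obtain ⟨vX, hX⟩ : ∃ z, z = k.v X := ⟨_, rfl⟩
      obtain ⟨vY, hY⟩ : ∃ z, z = k.v Y := ⟨_, rfl⟩
      obtain ⟨vZ, hZ⟩ : ∃ z, z = k.v Z := ⟨_, rfl⟩
      rw [← hX, ← hY, ← hZ] at key
      rw [← hX] at bX
      rw [← hY] at bY
      rw [← hZ]
      have f1 : 4 * ((p : ℝ) * r) * (σ.loN X : ℝ) ≤ 4 * (p * r) * (400 * vX) :=
        mul_le_mul_of_nonneg_left (by linarith) (by positivity)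
      have f2 : 4 * ((q : ℝ) * r) * (σ.loN Y : ℝ) ≤ 4 * (q * r) * (400 * vY) :=
        mul_le_mul_of_nonneg_left (by linarith) (by positivity)
      have f3 : 4 * ((p : ℝ) * q) * b ≤ 4 * (p * q) * (400 * vZ) := by nlinarith
      have f4 := le_of_mul_le_mul_left f3 (by positivity)
      linarith
    exact dead_iff.mp (ih _ h') k hc (i.stLo Z b hZ)
  | emO =>
    intro σ h
    have h' : cond (ltN σ.x.H1 σ.x.T0) true (cond (ltN σ.x.T1 σ.x.S0) true (ltN σ.x.H1 σ.x.S0)) = true := h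
    rw [dead_iff]
    intro k hc i
    obtain ⟨h0, h1, h2, h3, h4, h5, h6⟩ := box7.mp i.box
    have hth : k.t ≤ k.h := hc.th
    have hst : k.s ≤ k.t := hc.st
    cases e1 : ltN σ.x.H1 σ.x.T0 with
    | true =>
      have a := ltN_iff e1
      have b := h0.2
      have d := h1.1
      linarith
    | false =>
      rw [e1, cond_false] at h'
      cases e2 : ltN σ.x.T1 σ.x.S0 with
      | true =>
        have a := ltN_iff e2
        have b := h1.2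
        have d := h2.1
        linarith
      | false =>
        rw [e2, cond_false] at h'
        have a := ltN_iff h'
        have b := h0.2
        have d := h2.1
        linarith
  | emL X Y Z p q r =>
    intro σ h
    have h' : cond (okT X Y Z) (ltN (lnUC p q r (σ.hiN Z)) (lnLC p q r (σ.loN X) (σ.loN Y))) false = true := h
    obtain ⟨ok, hl⟩ := cond_eq_true h'
    rw [dead_iff]
    intro k hc i
    have key := lineC hc ok p q r
    have bX := (i.bt X).1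
    have bY := (i.bt Y).1
    have bZ := (i.bt Z).2
    have e1 := ltN_iff hl
    rw [lnUC_cast, lnLC_cast] at e1
    obtain ⟨vX, hX⟩ : ∃ z, z = k.v X := ⟨_, rfl⟩
    obtain ⟨vY, hY⟩ : ∃ z, z = k.v Y := ⟨_, rfl⟩
    obtain ⟨vZ, hZ⟩ : ∃ z, z = k.v Z := ⟨_, rfl⟩
    rw [← hX, ← hY, ← hZ] at key
    rw [← hX] at bX
    rw [← hY] at bY
    rw [← hZ] at bZ
    have hp' : (0 : ℝ) ≤ p := Nat.cast_nonneg _
    have hq' : (0 : ℝ) ≤ q := Nat.cast_nonneg _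
    have hr'' : (0 : ℝ) ≤ r := Nat.cast_nonneg _
    have f1 : 4 * ((p : ℝ) * r) * (σ.loN X : ℝ) ≤ 4 * (p * r) * (400 * vX) :=
      mul_le_mul_of_nonneg_left (by linarith) (by positivity)
    have f2 : 4 * ((q : ℝ) * r) * (σ.loN Y : ℝ) ≤ 4 * (q * r) * (400 * vY) :=
      mul_le_mul_of_nonneg_left (by linarith) (by positivity)
    have f3 : 4 * ((p : ℝ) * q) * (400 * vZ) ≤ 4 * (p * q) * (σ.hiN Z : ℝ) :=
      mul_le_mul_of_nonneg_left (by linarith) (by positivity)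
    nlinarith
  | emB c =>
    intro σ h
    have h' : ltN (σ.hiN c) (σ.loN c) = true := h
    rw [dead_iff]
    intro k hc i
    have e := ltN_iff h'
    have a := (i.bt c).1.trans (i.bt c).2
    linarith
  | ref j =>
    intro σ h
    have h' : rfb refs (fun τ => σ.sub τ) j = true := h
    obtain ⟨τ, h1, h2⟩ := rfb_sound _ _ _ h'
    exact (hr τ h1).mono h2
  | dle j => intro σ h; exact hdf j σ h

end

/-! ### tables of values of the row `i` -/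

/-- a table: a search tree; `node l k v N r`: key `k`, value `v`, certificate `N` of the value -/
inductive ET : Type
  | nil : ET
  | node : ET → ℕ → ℕ → ℕ → ET → ET

/-- the value of a key, `0` if it is missing -/
noncomputable def lk (E : ET) : ℕ → ℕ :=
  @ET.rec (fun _ => ℕ → ℕ) (fun _ => nat_lit 0)
    (fun _ k v _ _ ihl ihr x => cond (Nat.beq x k) v (cond (Nat.ble x k) (ihl x) (ihr x))) E

/-- the entries of the table satisfy `P` -/
def ET.All (P : ℕ → ℕ → Prop) : ET → Prop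
  | .nil => True
  | .node l k v _ r => l.All P ∧ P k v ∧ r.All P

lemma lk_mem {P : ℕ → ℕ → Prop} (E : ET) : E.All P → ∀ x, lk E x ≠ 0 → P x (lk E x) := by
  induction E with
  | nil => intro _ x h; exact absurd rfl h
  | node l k v N r ihl ihr =>
    intro hA x hx
    obtain ⟨h1, h2, h3⟩ := hA
    have e : lk (.node l k v N r) x = cond (Nat.beq x k) v (cond (Nat.ble x k) (lk l x) (lk r x)) := rfl
    rw [e] at hx ⊢
    cases hb : Nat.beq x k with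
    | true =>
      rw [cond_true, Nat.eq_of_beq_eq_true hb]
      exact h2
    | false =>
      rw [hb, cond_false] at hx
      rw [cond_false]
      cases hc : Nat.ble x k with
      | true =>
        rw [hc, cond_true] at hx
        rw [cond_true]
        exact ihl h1 x hx
      | false =>
        rw [hc, cond_false] at hx
        rw [cond_false]
        exact ihr h3 x hx

/-- the key of a corner -/
def ky (H T S R : ℕ) : ℕ :=
  Nat.add (Nat.mul (Nat.add (Nat.mul (Nat.add (Nat.mul H (nat_lit 1024)) T) (nat_lit 1024)) S) (nat_lit 1024)) R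

/-- the meaning of an entry: `m`, `q` = the concentrated rests `q` times `m / 400` -/
def EP (m q k v : ℕ) : Prop := ∀ H T S R : ℕ, T < 1024 → S < 1024 → R < 1024 → k = ky H T S R →
  FI ((H : ℝ) / 400) ((T : ℝ) / 400) ((S : ℝ) / 400) ((R : ℝ) / 400) ((m : ℝ) / 400) q ≤ (v : ℝ) / 10 ^ 7

/-- the table is correct -/
def EnvOK (m q : ℕ) (E : ET) : Prop := E.All (EP m q)

theorem lk_okq {m q : ℕ} {E : ET} (hE : EnvOK m q E) {H T S R : ℕ} (hT : T < 1024) (hS : S < 1024) (hR : R < 1024)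
    (h : lk E (ky H T S R) ≠ 0) :
    FI ((H : ℝ) / 400) ((T : ℝ) / 400) ((S : ℝ) / 400) ((R : ℝ) / 400) ((m : ℝ) / 400) q
      ≤ (lk E (ky H T S R) : ℝ) / 10 ^ 7 :=
  lk_mem E hE _ h H T S R hT hS hR rfl

/-- the main case: no concentrated rests -/
theorem lk_ok {m : ℕ} {E : ET} (hE : EnvOK m 0 E) {H T S R : ℕ} (hT : T < 1024) (hS : S < 1024) (hR : R < 1024)
    (h : lk E (ky H T S R) ≠ 0) :
    FI ((H : ℝ) / 400) ((T : ℝ) / 400) ((S : ℝ) / 400) ((R : ℝ) / 400) 1 0 ≤ (lk E (ky H T S R) : ℝ) / 10 ^ 7 := by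
  have := lk_okq hE hT hS hR h
  unfold FI at this ⊢
  rwa [Multiset.replicate_zero] at this ⊢

/-! ### the row `i` is satisfied -/

/-- a corner: `8 F ≤ w8` -/
noncomputable def dlc (E : ET) (Q H T S R : ℕ) : Bool :=
  frc (lk E (ky H T S (Nat.sub R Q))) fun F => cond (Nat.ble (nat_lit 1) F)
    (Nat.ble (Nat.mul (nat_lit 8) F) (w8 (Nat.add (Nat.add (Nat.add H T) S) R))) false

/-- both ends of a coordinate -/
def two (a b : ℕ) (f : ℕ → Bool) : Bool := cond (f a) (f b) false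

lemma two_sound {a b : ℕ} {f : ℕ → Bool} (h : two a b f = true) (c : Bool) : f (bif c then b else a) = true := by
  obtain ⟨h1, h2⟩ := cond_eq_true h
  cases c
  · exact h1
  · exact h2

/-- THE CHECK: the row `i` is satisfied on the box, entries of the row at most `m / 400`, `q m ≤ R ≤ (q + 1) m` -/
noncomputable def dleC (E : ET) (m q : ℕ) (σ : St) : Bool :=
  frc (Nat.mul q m) fun Q =>
  cond (Nat.ble (nat_lit 1) m) (cond (Nat.ble m (nat_lit 400)) (cond (Nat.ble σ.x.S1 m)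
  (cond (Nat.ble σ.x.H1 (nat_lit 400)) (cond (Nat.ble σ.x.T1 (nat_lit 400)) (cond (Nat.ble (nat_lit 120) σ.x.H0)
  (cond (Nat.ble Q σ.x.R0) (cond (Nat.ble σ.x.R1 (Nat.add Q m)) (cond (Nat.ble (nat_lit 120) σ.x.T0)
  (cond (Nat.ble (nat_lit 120) σ.x.S0) (cond (Nat.ble (Nat.add (Nat.add (Nat.add σ.x.H1 σ.x.T1) σ.x.S1) σ.x.R1)
    (nat_lit 2960))
    (two σ.x.H0 σ.x.H1 fun H => two σ.x.T0 σ.x.T1 fun T => two σ.x.S0 σ.x.S1 fun S => two σ.x.R0 σ.x.R1 fun R =>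
      dlc E Q H T S R) false) false) false) false) false) false) false) false) false) false) false

lemma hi_le1 (b : Bx) (h0 : b.H1 ≤ 400) (h1 : b.T1 ≤ 400) (h2 : b.S1 ≤ 400) (h3 : b.A1 ≤ 400) (h4 : b.B1 ≤ 400)
    (h5 : b.C1 ≤ 400) (h6 : b.R1 ≤ 400) : ∀ i, b.hi i ≤ 1 := by
  have c : ∀ x : ℕ, x ≤ 400 → (x : ℝ) / 400 ≤ 1 := fun x hx => by
    have : (x : ℝ) ≤ 400 := by exact_mod_cast hx
    linarith
  intro i
  fin_cases i
  · exact c _ h0
  · exact c _ h1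
  · exact c _ h2
  · exact c _ h3
  · exact c _ h4
  · exact c _ h5
  · exact c _ h6

theorem dleC_sound (hR4 : SpecR4) {E : ET} {m q : ℕ} (hE : EnvOK m q E) {σ : St} (h : dleC E m q σ = true) :
    Dead σ := by
  unfold dleC at h
  rw [frc_eq] at h
  obtain ⟨m1, h⟩ := cond_eq_true h
  obtain ⟨m2, h⟩ := cond_eq_true h
  obtain ⟨hS1, h⟩ := cond_eq_true h
  obtain ⟨hH1, h⟩ := cond_eq_true h
  obtain ⟨hT1, h⟩ := cond_eq_true h
  obtain ⟨hH0, h⟩ := cond_eq_true h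
  obtain ⟨hQ0, h⟩ := cond_eq_true h
  obtain ⟨hQ1, h⟩ := cond_eq_true h
  obtain ⟨hT0, h⟩ := cond_eq_true h
  obtain ⟨hS0, h⟩ := cond_eq_true h
  obtain ⟨htot, h⟩ := cond_eq_true h
  have m1 : 1 ≤ m := Nat.le_of_ble_eq_true m1
  have m2 : m ≤ 400 := Nat.le_of_ble_eq_true m2
  have hS1 : σ.x.S1 ≤ m := Nat.le_of_ble_eq_true hS1
  have hH1 : σ.x.H1 ≤ 400 := Nat.le_of_ble_eq_true hH1
  have hT1 : σ.x.T1 ≤ 400 := Nat.le_of_ble_eq_true hT1
  have hH0 : 120 ≤ σ.x.H0 := Nat.le_of_ble_eq_true hH0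
  have hQ0 : q * m ≤ σ.x.R0 := Nat.le_of_ble_eq_true hQ0
  have hQ1 : σ.x.R1 ≤ q * m + m := Nat.le_of_ble_eq_true hQ1
  have htot : σ.x.H1 + σ.x.T1 + σ.x.S1 + σ.x.R1 ≤ 2960 := Nat.le_of_ble_eq_true htot
  rw [dead_iff]
  intro k hc i
  obtain ⟨b0, b1, b2, -, -, -, b6⟩ := box7.mp i.box
  have hR01 : σ.x.R0 ≤ σ.x.R1 := by
    have : (σ.x.R0 : ℝ) / 400 ≤ (σ.x.R1 : ℝ) / 400 := b6.1.trans b6.2
    have : (σ.x.R0 : ℝ) ≤ σ.x.R1 := by linarith
    exact_mod_cast this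
  have hmR : (0 : ℝ) < (m : ℝ) / 400 := by
    have : (0 : ℝ) < m := by exact_mod_cast m1
    positivity
  have hmR1 : (m : ℝ) / 400 ≤ 1 := by
    have : (m : ℝ) ≤ 400 := by exact_mod_cast m2
    linarith
  have hms : k.s ≤ (m : ℝ) / 400 := by
    have : (σ.x.S1 : ℝ) ≤ m := by exact_mod_cast hS1
    exact b2.2.trans (by linarith)
  have hH1' : (σ.x.H1 : ℝ) ≤ 400 := by exact_mod_cast hH1
  have hT1' : (σ.x.T1 : ℝ) ≤ 400 := by exact_mod_cast hT1
  have hS1' : (σ.x.S1 : ℝ) ≤ 400 := by exact_mod_cast hS1.trans m2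
  have kh0 : 0 ≤ k.h := by linarith [hc.s0, hc.st, hc.th]
  have kt0 : 0 ≤ k.t := by linarith [hc.s0, hc.st]
  have ks0 : 0 ≤ k.s := by linarith [hc.s0]
  have kh1 : k.h ≤ 1 := hc.h1
  have kt1 : k.t ≤ 1 := hc.th.trans hc.h1
  have ks1 : k.s ≤ 1 := hc.st.trans kt1
  have hq0 : (q : ℝ) * ((m : ℝ) / 400) ≤ k.Mi.sum := by
    have : ((q * m : ℕ) : ℝ) ≤ σ.x.R0 := by exact_mod_cast hQ0
    push_cast at this
    have h2 := b6.1
    linarith
  have hq1 : k.Mi.sum ≤ ((q : ℝ) + 1) * ((m : ℝ) / 400) := by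
    have : (σ.x.R1 : ℝ) ≤ ((q * m + m : ℕ) : ℝ) := by exact_mod_cast hQ1
    push_cast at this
    have h2 := b6.2
    linarith
  have e0 : ∀ M : Multiset ℝ, (1 : ℝ) ::ₘ k.h ::ₘ k.t ::ₘ k.s ::ₘ M = (1 ::ₘ k.h ::ₘ k.t ::ₘ k.s ::ₘ 0) + M := by
    intro M
    simp only [Multiset.cons_add, zero_add]
  obtain ⟨k1, -⟩ := hR4 (1 ::ₘ k.h ::ₘ k.t ::ₘ k.s ::ₘ 0) k.Mi ((m : ℝ) / 400) q (by simp) (by
    intro e he
    simp only [Multiset.mem_cons, Multiset.notMem_zero, or_false] at he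
    rcases he with rfl | rfl | rfl | rfl
    · exact ⟨zero_le_one, le_rfl⟩
    · exact ⟨kh0, kh1⟩
    · exact ⟨kt0, kt1⟩
    · exact ⟨ks0, ks1⟩) hmR hmR1 (fun e he => ⟨(hc.mi e he).1, (hc.mi e he).2.trans hms⟩) hq0 hq1
  rw [← e0, ← e0] at k1
  obtain ⟨r, hr⟩ : ∃ r, r = k.Mi.sum - q * ((m : ℝ) / 400) := ⟨_, rfl⟩
  rw [← hr] at k1
  have hF : k.G0 ≤ FI k.h k.t k.s r ((m : ℝ) / 400) q := hc.v0.trans k1
  have hRr : r + q * ((m : ℝ) / 400) = k.Mi.sum := by rw [hr]; ring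
  -- the box of the four variables
  obtain ⟨ra, hra⟩ : ∃ ra, ra = σ.x.R0 - q * m := ⟨_, rfl⟩
  obtain ⟨rb, hrb⟩ : ∃ rb, rb = σ.x.R1 - q * m := ⟨_, rfl⟩
  have hra' : (ra : ℝ) = σ.x.R0 - q * m := by
    rw [hra]
    push_cast [Nat.cast_sub hQ0]
    ring
  have hrb' : (rb : ℝ) = σ.x.R1 - q * m := by
    rw [hrb]
    push_cast [Nat.cast_sub (hQ0.trans hR01)]
    ring
  have hrb1 : rb ≤ m := by omega
  obtain ⟨b, hb⟩ : ∃ b : Bx, b = ⟨σ.x.H0, σ.x.H1, σ.x.T0, σ.x.T1, σ.x.S0, σ.x.S1, 0, 400, 0, 400, 0, 400, ra, rb⟩ :=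
    ⟨_, rfl⟩
  have bH0 : b.H0 = σ.x.H0 := by rw [hb]
  have bH1 : b.H1 = σ.x.H1 := by rw [hb]
  have bT0 : b.T0 = σ.x.T0 := by rw [hb]
  have bT1 : b.T1 = σ.x.T1 := by rw [hb]
  have bS0 : b.S0 = σ.x.S0 := by rw [hb]
  have bS1 : b.S1 = σ.x.S1 := by rw [hb]
  have bA0 : b.A0 = 0 := by rw [hb]
  have bA1 : b.A1 = 400 := by rw [hb]
  have bB0 : b.B0 = 0 := by rw [hb]
  have bB1 : b.B1 = 400 := by rw [hb]
  have bC0 : b.C0 = 0 := by rw [hb]
  have bC1 : b.C1 = 400 := by rw [hb]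
  have bR0 : b.R0 = ra := by rw [hb]
  have bR1 : b.R1 = rb := by rw [hb]
  have hh1 : ∀ i, b.hi i ≤ 1 := by
    refine hi_le1 b ?_ ?_ ?_ ?_ ?_ ?_ ?_
    · rw [bH1]; exact hH1
    · rw [bT1]; exact hT1
    · rw [bS1]; exact hS1.trans m2
    · rw [bA1]
    · rw [bB1]
    · rw [bC1]
    · rw [bR1]; exact hrb1.trans m2
  have hv : Box b.lo b.hi (vec7 k.h k.t k.s 0 0 0 r) := by
    rw [box7, bH0, bH1, bT0, bT1, bS0, bS1, bA0, bA1, bB0, bB1, bC0, bC1, bR0, bR1]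
    have z : BtC 0 400 0 := ⟨by norm_num, by norm_num⟩
    refine ⟨b0, b1, b2, z, z, z, ?_⟩
    unfold BtC
    rw [hr, hra', hrb']
    constructor
    · linarith [b6.1]
    · linarith [b6.2]
  have hcc := cc_DI (lo := b.lo) (hi := b.hi) b.l0 hh1 hmR.le hmR1 q
  have hD := hcc.le_of_corners (C := 0) (fun c => by
    have n0 : corner b.lo b.hi c 0 = ((bif c 0 then σ.x.H1 else σ.x.H0 : ℕ) : ℝ) / 400 := by
      rw [b.c0, bH0, bH1]; cases c 0 <;> rfl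
    have n1 : corner b.lo b.hi c 1 = ((bif c 1 then σ.x.T1 else σ.x.T0 : ℕ) : ℝ) / 400 := by
      rw [b.c1, bT0, bT1]; cases c 1 <;> rfl
    have n2 : corner b.lo b.hi c 2 = ((bif c 2 then σ.x.S1 else σ.x.S0 : ℕ) : ℝ) / 400 := by
      rw [b.c2, bS0, bS1]; cases c 2 <;> rfl
    have n6 : corner b.lo b.hi c 6 = (((bif c 6 then σ.x.R1 else σ.x.R0) - q * m : ℕ) : ℝ) / 400 := by
      rw [b.c6, bR0, bR1, hra, hrb]; cases c 6 <;> rfl
    rw [n0, n1, n2, n6]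
    have hk := two_sound (two_sound (two_sound (two_sound h (c 0)) (c 1)) (c 2)) (c 6)
    unfold dlc at hk
    rw [frc_eq] at hk
    obtain ⟨j1, j2⟩ := cond_eq_true hk
    have j1 := Nat.le_of_ble_eq_true j1
    have j2 := Nat.le_of_ble_eq_true j2
    obtain ⟨H, hH⟩ : ∃ H, H = (bif c 0 then σ.x.H1 else σ.x.H0) := ⟨_, rfl⟩
    obtain ⟨T, hT⟩ : ∃ T, T = (bif c 1 then σ.x.T1 else σ.x.T0) := ⟨_, rfl⟩
    obtain ⟨S, hS⟩ : ∃ S, S = (bif c 2 then σ.x.S1 else σ.x.S0) := ⟨_, rfl⟩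
    obtain ⟨R, hR⟩ : ∃ R, R = (bif c 6 then σ.x.R1 else σ.x.R0) := ⟨_, rfl⟩
    rw [← hH, ← hT, ← hS, ← hR] at j1 j2
    rw [← hH, ← hT, ← hS, ← hR]
    have hT0 : σ.x.T0 ≤ σ.x.T1 := by
      have : (σ.x.T0 : ℝ) / 400 ≤ (σ.x.T1 : ℝ) / 400 := b1.1.trans b1.2
      have : (σ.x.T0 : ℝ) ≤ σ.x.T1 := by linarith
      exact_mod_cast this
    have hS0 : σ.x.S0 ≤ σ.x.S1 := by
      have : (σ.x.S0 : ℝ) / 400 ≤ (σ.x.S1 : ℝ) / 400 := b2.1.trans b2.2
      have : (σ.x.S0 : ℝ) ≤ σ.x.S1 := by linarith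
      exact_mod_cast this
    have hH0' : σ.x.H0 ≤ σ.x.H1 := by
      have : (σ.x.H0 : ℝ) / 400 ≤ (σ.x.H1 : ℝ) / 400 := b0.1.trans b0.2
      have : (σ.x.H0 : ℝ) ≤ σ.x.H1 := by linarith
      exact_mod_cast this
    have hTb : T ≤ 400 := by
      rw [hT]
      cases c 1
      · exact hT0.trans hT1
      · exact hT1
    have hSb : S ≤ 400 := by
      rw [hS]
      cases c 2
      · exact hS0.trans (hS1.trans m2)
      · exact hS1.trans m2
    have hRb : R - q * m ≤ 400 ∧ q * m ≤ R := by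
      rw [hR]
      cases c 6
      · constructor
        · show σ.x.R0 - q * m ≤ 400
          omega
        · exact hQ0
      · constructor
        · show σ.x.R1 - q * m ≤ 400
          omega
        · exact hQ0.trans hR01
    have hHb : 120 ≤ H := by
      rw [hH]
      cases c 0
      · exact hH0
      · exact hH0.trans hH0'
    have f1 := lk_okq hE (H := H) (T := T) (S := S) (R := R - q * m) (by omega) (by omega) (by omega) (by
      intro e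
      have j1' : 1 ≤ lk E (ky H T S (R - q * m)) := j1
      omega)
    have f2 := w8_le (H + T + S + R) (by omega)
    have f3 : (8 * (lk E (ky H T S (R - q * m)) : ℕ) : ℝ) ≤ (w8 (H + T + S + R) : ℕ) := by
      have j2' : 8 * lk E (ky H T S (R - q * m)) ≤ w8 (H + T + S + R) := j2
      exact_mod_cast j2'
    unfold WI
    have e : (H : ℝ) / 400 + (T : ℝ) / 400 + (S : ℝ) / 400 + (((R - q * m : ℕ) : ℝ) / 400 + q * ((m : ℝ) / 400))
        = ((H + T + S + R : ℕ) : ℝ) / 400 := by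
      push_cast [Nat.cast_sub hRb.2]
      ring
    rw [e]
    linarith) hv
  have hD' : FI k.h k.t k.s r ((m : ℝ) / 400) q - WI k.h k.t k.s r ((m : ℝ) / 400) q ≤ 0 := hD
  have htot' : k.h + k.t + k.s + k.Mi.sum ≤ 37 / 5 := by
    have : ((σ.x.H1 + σ.x.T1 + σ.x.S1 + σ.x.R1 : ℕ) : ℝ) ≤ 2960 := by exact_mod_cast htot
    push_cast at this
    linarith [b0.2, b1.2, b2.2, b6.2]
  have hMi0 : 0 ≤ k.Mi.sum := Multiset.sum_nonneg fun e he => (hc.mi e he).1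
  have hW : WI k.h k.t k.s r ((m : ℝ) / 400) q ≤ What (k.h + k.t + k.s + k.Mi.sum) := by
    unfold WI
    rw [hRr]
    exact Wc_le_What' _ (by linarith [hc.s0, hc.st, hc.th]) htot'
  have hd0 := hc.d0
  unfold Df at hd0
  rw [Multiset.sum_cons, Multiset.sum_cons, Multiset.sum_cons,
    show k.h + (k.t + (k.s + k.Mi.sum)) = k.h + k.t + k.s + k.Mi.sum by ring] at hd0
  linarith

/-! ### the check of a table -/

lemma opt400 {x : ℕ} {k : ℕ → ℕ → Bool} (h : opt x k = true) :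
    ∃ x' ex, k x' ex = true ∧ ∀ s : Multiset ℝ,
      FM ((x : ℝ) / 400 ::ₘ s) = FM (Multiset.replicate ex ((x' : ℝ) / 400) + s) := by
  unfold opt at h
  cases hb : Nat.beq x (nat_lit 0) with
  | true =>
    rw [hb, cond_true] at h
    have hx : x = 0 := Nat.eq_of_beq_eq_true hb
    refine ⟨1, 0, h, fun s => ?_⟩
    rw [hx, Multiset.replicate_zero, zero_add]
    have e : ((0 : ℕ) : ℝ) / 400 = 0 := by norm_num
    rw [e, FM_zero_cons]
  | false =>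
    rw [hb, cond_false] at h
    refine ⟨x, 1, h, fun s => ?_⟩
    rw [Multiset.replicate_one, Multiset.singleton_add]

/-- the value of a corner: `N` = six digits of 32 bits (entries `1, H, T, S, m, R`, multiplicities `1, 1, 1, 1, q, 1`;
if `R = 0` the last type is `1 / 400` with the multiplicity `0`) -/
noncomputable def eN (m q H T S R V N : ℕ) : Bool :=
  opt R fun r' er => CA.upk (nat_lit 6) N fun X =>
    rowOK [(1, 1), (H, 400), (T, 400), (S, 400), (m, 400), (r', 400)] [1, 1, 1, 1, q, er] X V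

lemma eN_sound {m q H T S R V N : ℕ} (hc : eN m q H T S R V N = true) :
    FI ((H : ℝ) / 400) ((T : ℝ) / 400) ((S : ℝ) / 400) ((R : ℝ) / 400) ((m : ℝ) / 400) q ≤ (V : ℝ) / 10 ^ 7 := by
  unfold eN at hc
  obtain ⟨r', er, hc, hr⟩ := opt400 hc
  obtain ⟨X, hX⟩ := CA.upk_sound _ _ _ hc
  have h1 := row_sound _ _ _ _ hX
  refine le_trans (le_of_eq ?_) h1
  unfold FI
  have e1 : (1 ::ₘ (H : ℝ) / 400 ::ₘ (T : ℝ) / 400 ::ₘ (S : ℝ) / 400 ::ₘ (R : ℝ) / 400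
      ::ₘ Multiset.replicate q ((m : ℝ) / 400))
      = (R : ℝ) / 400 ::ₘ (1 ::ₘ (H : ℝ) / 400 ::ₘ (T : ℝ) / 400 ::ₘ (S : ℝ) / 400
      ::ₘ Multiset.replicate q ((m : ℝ) / 400)) := by
    simp only [← Multiset.singleton_add]
    abel
  rw [e1, hr]
  have e4 : ([(1, 1), (H, 400), (T, 400), (S, 400), (m, 400), (r', 400)] : List (ℕ × ℕ)).map
      (fun u => (u.1 : ℝ) / (u.2 : ℝ)) = [1, (H : ℝ) / 400, (T : ℝ) / 400, (S : ℝ) / 400, (m : ℝ) / 400,
        (r' : ℝ) / 400] := by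
    simp
  rw [e4]
  have e5 : mk [1, 1, 1, 1, q, er] [1, (H : ℝ) / 400, (T : ℝ) / 400, (S : ℝ) / 400, (m : ℝ) / 400,
        (r' : ℝ) / 400] = {1} + ({(H : ℝ) / 400} + ({(T : ℝ) / 400} + ({(S : ℝ) / 400}
    + (Multiset.replicate q ((m : ℝ) / 400) + (Multiset.replicate er ((r' : ℝ) / 400) + 0))))) := by
    simp only [Ent.mk_cons, Ent.mk_nil, Multiset.replicate_one]
  rw [e5]
  congr 1
  simp only [← Multiset.singleton_add]
  abel

/-- an entry of the table -/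
noncomputable def eK (m q key v N : ℕ) : Bool :=
  frc (Nat.div key (nat_lit 1073741824)) fun H => frc (Nat.mod (Nat.div key (nat_lit 1048576)) (nat_lit 1024)) fun T =>
  frc (Nat.mod (Nat.div key (nat_lit 1024)) (nat_lit 1024)) fun S => frc (Nat.mod key (nat_lit 1024)) fun R =>
    eN m q H T S R v N

lemma eK_sound {m q key v N : ℕ} (h : eK m q key v N = true) : EP m q key v := by
  unfold eK at h
  rw [frc_eq, frc_eq, frc_eq, frc_eq] at h
  intro H T S R hT hS hR hk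
  have hk' : key = ((H * 1024 + T) * 1024 + S) * 1024 + R := hk
  have e1 : Nat.div key 1073741824 = H := by
    show key / 1073741824 = H
    omega
  have e2 : Nat.mod (Nat.div key 1048576) 1024 = T := by
    show key / 1048576 % 1024 = T
    omega
  have e3 : Nat.mod (Nat.div key 1024) 1024 = S := by
    show key / 1024 % 1024 = S
    omega
  have e4 : Nat.mod key 1024 = R := by
    show key % 1024 = R
    omega
  have h' : eN m q (Nat.div key 1073741824) (Nat.mod (Nat.div key 1048576) 1024) (Nat.mod (Nat.div key 1024) 1024)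
    (Nat.mod key 1024) v N = true := h
  rw [e1, e2, e3, e4] at h'
  exact eN_sound h'

/-- THE CHECK of a table -/
noncomputable def envC (m q : ℕ) (E : ET) : Bool :=
  @ET.rec (fun _ => Bool) true (fun _ k v N _ ihl ihr => cond ihl (cond (eK m q k v N) ihr false) false) E

theorem envC_sound {m q : ℕ} (E : ET) : envC m q E = true → EnvOK m q E := by
  induction E with
  | nil => intro _; trivial
  | node l k v N r ihl ihr =>
    intro h
    have h' : cond (envC m q l) (cond (eK m q k v N) (envC m q r) false) false = true := h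
    obtain ⟨h1, h'⟩ := cond_eq_true h'
    obtain ⟨h2, h3⟩ := cond_eq_true h'
    exact ⟨ihl h1, eK_sound h2, ihr h3⟩

/-- gluing of tables -/
theorem EnvOK.node {m q : ℕ} {l r : ET} {k v N : ℕ} (hl : EnvOK m q l) (h : eK m q k v N = true)
    (hr : EnvOK m q r) : EnvOK m q (.node l k v N r) := ⟨hl, eK_sound h, hr⟩

end C1
end Pool.Agent.Lib.MP_6947cd_al
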