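import Pool.Agent.Lib.MP_6947cd_al.C.ChkS
import Pool.Agent.Lib.MP_6947cd_al.C.Tree
import Pool.Agent.Lib.MP_6947cd_al.C.D

/-!
Problem MP_6947cd_al (Chollet).  CASE C: the top, every root box with its own upper border of the rests of the row `i`.
-/

set_option autoImplicit false
open Finset

namespace Pool.Agent.Lib.MP_6947cd_al
namespace C1

open Ent Fr Fr.WT CC B1 PkA

/-- the root box with the borders `H0 ≤ h ≤ H1`, `T0 ≤ t ≤ T1`, `S0 ≤ s ≤ S1` and `0 ≤ r ≤ R1` (unit `1 / 400`) -/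
def rootSt (R1 : ℕ) (b : ℕ × ℕ × ℕ × ℕ × ℕ × ℕ) : St :=
  ⟨⟨b.1, b.2.1, b.2.2.1, b.2.2.2.1, b.2.2.2.2.1, b.2.2.2.2.2, 0, 400, 0, 400, 0, 400, 0, R1⟩, 3, 3, 3,
    false, false, false⟩

/-- the box `b` contains the cell of width `1 / 20` -/
def inC (i j k : ℕ) (b : ℕ × ℕ × ℕ × ℕ × ℕ × ℕ) : Bool :=
  Nat.ble b.1 (20 * i) && Nat.ble (20 * i + 20) b.2.1 && Nat.ble b.2.2.1 (20 * j) &&
    Nat.ble (20 * j + 20) b.2.2.2.1 && Nat.ble b.2.2.2.2.1 (20 * k) && Nat.ble (20 * k + 20) b.2.2.2.2.2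

/-- the cover check -/
def covR (bs : List (ℕ × ℕ × ℕ × ℕ × ℕ × ℕ)) : Bool :=
  (List.range 14).all fun i => (List.range (i + 1)).all fun j => (List.range (j + 1)).all fun k =>
    bs.any (inC (i + 6) (j + 6) (k + 6))

/-- the cell of a number -/
lemma cell20 {x : ℝ} (h0 : 3 / 10 ≤ x) (h1 : x ≤ 1) :
    ∃ i : ℕ, i < 14 ∧ (((20 * (i + 6) : ℕ) : ℝ) / 400 ≤ x ∧ x ≤ ((20 * (i + 6) + 20 : ℕ) : ℝ) / 400) ∧
      (x < 1 → x < ((20 * (i + 6) + 20 : ℕ) : ℝ) / 400) ∧ (x = 1 → i = 13) := by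
  rcases h1.eq_or_lt with h | h
  · refine ⟨13, by norm_num, ⟨?_, ?_⟩, fun h2 => ?_, fun _ => rfl⟩
    · rw [h]; norm_num
    · rw [h]; norm_num
    · linarith
  · obtain ⟨m, hm⟩ : ∃ m : ℕ, m = ⌊20 * x⌋₊ := ⟨_, rfl⟩
    have h2 : (m : ℝ) ≤ 20 * x := by rw [hm]; exact Nat.floor_le (by linarith)
    have h3 : 20 * x < m + 1 := by rw [hm]; exact Nat.lt_floor_add_one _
    have h4 : 6 ≤ m := by
      rw [hm]
      exact Nat.le_floor (by push_cast; linarith)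
    have h5 : m < 20 := by
      have : (m : ℝ) < 20 := by linarith
      exact_mod_cast this
    obtain ⟨i, rfl⟩ := Nat.exists_eq_add_of_le' h4
    refine ⟨i, by omega, ⟨?_, ?_⟩, fun _ => ?_, fun h6 => ?_⟩
    · push_cast at h2 ⊢; linarith
    · push_cast at h3 ⊢; linarith
    · push_cast at h3 ⊢; linarith
    · linarith

lemma cell_le {x y : ℝ} {i j : ℕ} (hxy : y ≤ x) (hx : x < 1 → x < ((20 * (i + 6) + 20 : ℕ) : ℝ) / 400)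
    (hx1 : x = 1 → i = 13) (hj : j < 14) (hx2 : x ≤ 1) (hy : ((20 * (j + 6) : ℕ) : ℝ) / 400 ≤ y) : j ≤ i := by
  rcases hx2.eq_or_lt with h | h
  · rw [hx1 h]; omega
  · have h1 := hx h
    have h2 : ((20 * (j + 6) : ℕ) : ℝ) < ((20 * (i + 6) + 20 : ℕ) : ℝ) := by linarith
    have h3 : 20 * (j + 6) < 20 * (i + 6) + 20 := by exact_mod_cast h2
    omega

/-- `(h, t, s)` in the box -/
def InB (b : ℕ × ℕ × ℕ × ℕ × ℕ × ℕ) (h t s : ℝ) : Prop :=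
  ((b.1 : ℝ) / 400 ≤ h ∧ h ≤ (b.2.1 : ℝ) / 400) ∧ ((b.2.2.1 : ℝ) / 400 ≤ t ∧ t ≤ (b.2.2.2.1 : ℝ) / 400) ∧
    ((b.2.2.2.2.1 : ℝ) / 400 ≤ s ∧ s ≤ (b.2.2.2.2.2 : ℝ) / 400)

/-- the boxes cover all the configurations -/
theorem cov_box {bs : List (ℕ × ℕ × ℕ × ℕ × ℕ × ℕ)} (hc : covR bs = true) {h t s : ℝ} (h1 : h ≤ 1) (hth : t ≤ h)
    (hst : s ≤ t) (hs0 : 3 / 10 ≤ s) : ∃ b ∈ bs, InB b h t s := by
  have t1 : t ≤ 1 := hth.trans h1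
  have s1 : s ≤ 1 := hst.trans t1
  have t0 : 3 / 10 ≤ t := hs0.trans hst
  have h0 : 3 / 10 ≤ h := t0.trans hth
  obtain ⟨i, hi, hib, hi1, hi2⟩ := cell20 h0 h1
  obtain ⟨j, hj, hjb, hj1, hj2⟩ := cell20 t0 t1
  obtain ⟨k, hk, hkb, -, -⟩ := cell20 hs0 s1
  have hji : j ≤ i := cell_le hth hi1 hi2 hj h1 hjb.1
  have hkj : k ≤ j := cell_le hst hj1 hj2 hk t1 hkb.1
  have h1 := List.all_eq_true.mp hc i (List.mem_range.mpr hi)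
  have h2 := List.all_eq_true.mp h1 j (List.mem_range.mpr (by omega))
  have h3 := List.all_eq_true.mp h2 k (List.mem_range.mpr (by omega))
  obtain ⟨b, hb, h4⟩ := List.any_eq_true.mp h3
  unfold inC at h4
  simp only [Bool.and_eq_true] at h4
  obtain ⟨⟨⟨⟨⟨b0, b1⟩, b2⟩, b3⟩, b4⟩, b5⟩ := h4
  have b0 : b.1 ≤ 20 * (i + 6) := Nat.le_of_ble_eq_true b0
  have b1 : 20 * (i + 6) + 20 ≤ b.2.1 := Nat.le_of_ble_eq_true b1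
  have b2 : b.2.2.1 ≤ 20 * (j + 6) := Nat.le_of_ble_eq_true b2
  have b3 : 20 * (j + 6) + 20 ≤ b.2.2.2.1 := Nat.le_of_ble_eq_true b3
  have b4 : b.2.2.2.2.1 ≤ 20 * (k + 6) := Nat.le_of_ble_eq_true b4
  have b5 : 20 * (k + 6) + 20 ≤ b.2.2.2.2.2 := Nat.le_of_ble_eq_true b5
  have lo : ∀ {u v : ℕ} {x : ℝ}, u ≤ v → (v : ℝ) / 400 ≤ x → (u : ℝ) / 400 ≤ x := by
    intro u v x huv hv
    have : (u : ℝ) ≤ v := by exact_mod_cast huv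
    linarith
  have up : ∀ {u v : ℕ} {x : ℝ}, u ≤ v → x ≤ (u : ℝ) / 400 → x ≤ (v : ℝ) / 400 := by
    intro u v x huv hv
    have : (u : ℝ) ≤ v := by exact_mod_cast huv
    linarith
  exact ⟨b, hb, ⟨lo b0 hib.1, up b1 hib.2⟩, ⟨lo b2 hjb.1, up b3 hjb.2⟩, ⟨lo b4 hkb.1, up b5 hkb.2⟩⟩

/-- the bound of the rests of the row `i` on a box -/
def TailOf (b : ℕ × ℕ × ℕ × ℕ × ℕ × ℕ) (R1 : ℕ) : Prop :=
  ∀ (h t s g1 g2 g3 : ℝ) (Mi : Multiset ℝ) (M1 M2 M3 : Multiset (ℝ × ℝ))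
    (G0 G1 G2 G3 p1 p2 p3 ρ1 ρ2 ρ3 : ℝ), Cfg h t s g1 g2 g3 Mi M1 M2 M3 G0 G1 G2 G3 p1 p2 p3 ρ1 ρ2 ρ3 →
    InB b h t s → Mi.sum ≤ (R1 : ℝ) / 400

/-- the tail from the table check of the row `i` -/
theorem tailOf_chk {l : List TF.Fam} (hl : TF.EnvF l) {H0 H1 T0 T1 S0 S1 r : ℕ} {bs : List SStar.TlB}
    (hb : cond (SStar.neL bs) (SStar.tailC l H0 H1 T0 T1 S1 r bs S0) false = true) :
    TailOf (H0, H1, T0, T1, S0, S1) r :=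
  fun _ _ _ _ _ _ _ _ _ _ _ _ _ _ _ _ _ _ _ _ c hB =>
    (SStar.tailC_sound hl hb c hB.1.1 hB.1.2 hB.2.1.1 hB.2.1.2 hB.2.2.1 hB.2.2.2).le

/-- one root -/
lemma root_none {b : ℕ × ℕ × ℕ × ℕ × ℕ × ℕ} {R1 : ℕ} (hd : Dead (rootSt R1 b)) {h t s g1 g2 g3 : ℝ} {Mi : Multiset ℝ}
    {M1 M2 M3 : Multiset (ℝ × ℝ)} {G0 G1 G2 G3 p1 p2 p3 ρ1 ρ2 ρ3 : ℝ}
    (c : Cfg h t s g1 g2 g3 Mi M1 M2 M3 G0 G1 G2 G3 p1 p2 p3 ρ1 ρ2 ρ3) (hB : InB b h t s)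
    (hR : Mi.sum ≤ (R1 : ℝ) / 400) : False := by
  have R0 : 0 ≤ Mi.sum := Multiset.sum_nonneg fun x hx => (c.mi x hx).1
  have z4 : ∀ {x : ℝ}, 0 ≤ x ∧ x ≤ 1 → BtC 0 400 x := by
    rintro x ⟨x0, x1⟩
    refine ⟨?_, ?_⟩
    · rw [Nat.cast_zero, zero_div]; exact x0
    · push_cast; linarith
  have n3 : ∀ {n : ℕ} {p : Prop}, n = 3 → n = 0 → p := by
    intro n p h1 h2
    omega
  have n3' : ∀ {n : ℕ} {p : Prop}, n = 3 → n = 1 → p := by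
    intro n p h1 h2
    omega
  refine hd _ _ _ _ _ _ _ _ _ _ _ _ _ _ _ _ _ _ _ _ c ⟨box7.mpr ⟨hB.1, hB.2.1, hB.2.2, z4 c.g1m, z4 c.g2m,
    z4 c.g3m, ?_⟩, n3 rfl, n3' rfl, n3 rfl, n3' rfl, n3 rfl, n3' rfl, fun e => Bool.noConfusion e,
    fun e => Bool.noConfusion e, fun e => Bool.noConfusion e⟩
  refine ⟨?_, hR⟩
  show (((0 : ℕ) : ℝ)) / 400 ≤ Mi.sum
  rw [Nat.cast_zero, zero_div]
  exact R0

/-- **CASE C** from the root boxes, each with its own border of the rests of the row `i`. -/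
theorem noCfg_of2 {bs : List ((ℕ × ℕ × ℕ × ℕ × ℕ × ℕ) × ℕ)} (hc : covR (bs.map Prod.fst) = true)
    (hd : ∀ b ∈ bs, Dead (rootSt b.2 b.1) ∧ TailOf b.1 b.2) : NoCfg := by
  intro h t s g1 g2 g3 Mi M1 M2 M3 G0 G1 G2 G3 p1 p2 p3 ρ1 ρ2 ρ3 c
  obtain ⟨b, hb, hB⟩ := cov_box hc c.h1 c.th c.st c.s0
  obtain ⟨q, hq, rfl⟩ := List.mem_map.mp hb
  obtain ⟨h1, h2⟩ := hd q hq
  exact root_none h1 c hB (h2 _ _ _ _ _ _ _ _ _ _ _ _ _ _ _ _ _ _ _ _ c hB)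

/-- the result for the main theorem -/
theorem specC_of2 {bs : List ((ℕ × ℕ × ℕ × ℕ × ℕ × ℕ) × ℕ)} (hc : covR (bs.map Prod.fst) = true)
    (hd : ∀ b ∈ bs, Dead (rootSt b.2 b.1) ∧ TailOf b.1 b.2) : LL.SpecC What :=
  specDC (noCfg_of2 hc hd)

end C1
end Pool.Agent.Lib.MP_6947cd_al
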