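import Pool.Agent.Lib.MP_6947cd_al.C.Leaf
import Pool.Agent.Lib.MP_6947cd_al.C.ChkRow
import Pool.Agent.Lib.MP_6947cd_al.C.TopC2
import Pool.Agent.Lib.MP_6947cd_al.Y.S1
import Pool.Agent.Lib.MP_6947cd_al.Y.S4
import Pool.Agent.Lib.MP_6947cd_al.Y.S5
import Pool.Agent.Lib.MP_6947cd_al.Y.S6
import Pool.Agent.Lib.MP_6947cd_al.Y.R4

/-!
Problem MP_6947cd_al (Chollet).  CASE C: THE CHECK OF A TREE of leaves, with the tables as environments.
-/

set_option autoImplicit false
open Finset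

namespace Pool.Agent.Lib.MP_6947cd_al
namespace C1

open Ent Ent.Pk Fr Fr.WT CC B1 B2 PkA

theorem spSC : SpS := ⟨B1.specS2, B1.specS3, B1.specS4, B1.specS5, B1.specS6, B1.specR7⟩

/-- the environment: library of pairs, tables of the rows `h, t, s`, table of the row `i` -/
structure EC (l : List TF.Fam) (E : ET) : Prop where
  lib : CB.LibIIC
  fam : TF.EnvF l
  row : EnvOK 400 0 E

/-- THE CHECK of a tree -/
noncomputable def chkT (l : List TF.Fam) (E : ET) (refs : List St) (T : Tr Lf) (σ : St) : Bool :=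
  T.chk (leafC E (chkRow l)) (fun _ => dleC E (nat_lit 400) (nat_lit 0)) refs σ

/-- **SOUNDNESS.** -/
theorem chkT_sound {l : List TF.Fam} {E : ET} (h : EC l E) {refs : List St} (hr : ∀ τ ∈ refs, Dead τ) {T : Tr Lf}
    {σ : St} (hc : chkT l E refs T σ = true) : Dead σ :=
  treeC specR4 specS2 specS1 specR7 h.lib h.row
    (fun _ _ _ _ _ _ _ _ _ _ _ _ _ _ hc => chkRow_sound spSC h.fam hc) hr hc

/-- without references -/
theorem chkT_sound0 {l : List TF.Fam} {E : ET} (h : EC l E) {T : Tr Lf} {σ : St}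
    (hc : chkT l E [] T σ = true) : Dead σ :=
  chkT_sound h (fun _ hτ => absurd hτ List.not_mem_nil) hc

/-- the tail of a root -/
theorem tailT_sound {l : List TF.Fam} {E : ET} (h : EC l E) {H0 H1 T0 T1 S0 S1 r : ℕ} {bs : List SStar.TlB}
    (hb : cond (SStar.neL bs) (SStar.tailC l H0 H1 T0 T1 S1 r bs S0) false = true) :
    TailOf (H0, H1, T0, T1, S0, S1) r := tailOf_chk h.fam hb

end C1
end Pool.Agent.Lib.MP_6947cd_al
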