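import Pool.Agent.Lib.MP_6947cd_al.C.LeafR

/-!
Problem MP_6947cd_al (Chollet).  CASE C: the thresholds of the payers.
-/

set_option autoImplicit false
open Finset

namespace Pool.Agent.Lib.MP_6947cd_al
namespace C1

open Ent Fr Fr.WT CC B1

/-- one payer: the defect is above `-d` -/
lemma thr_core {a D dv p ρ ρ' M d : ℝ} (h : Payv a D dv p ρ) (ha : 0 < a) (ha1 : a ≤ 1) (hρ : ρ ≤ ρ')
    (hM : max D (1 / 1000) ≤ M) (hd : Kf a ρ' * M ≤ d) : -d < dv := by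
  have hM0 : 0 < M := lt_of_lt_of_le (lt_of_lt_of_le (by norm_num) (le_max_right _ _)) hM
  have hρ0 : 0 ≤ ρ' := h.2.2.1.trans hρ
  have hK : 0 < Kf a ρ' := by
    unfold Kf
    apply div_pos
    · nlinarith
    · positivity
  have hKM := mul_pos hK hM0
  rcases le_or_gt dv 0 with hd0 | hd0
  · have h1 := pay_one h ha ha1 hρ hM hd0
    have h2 : p * (Kf a ρ' * M) < 1 * (Kf a ρ' * M) := mul_lt_mul_of_pos_right h.2.1 hKM
    linarith
  · linarith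

section

variable {h t s g1 g2 g3 : ℝ} {Mi : Multiset ℝ} {M1 M2 M3 : Multiset (ℝ × ℝ)}
  {G0 G1 G2 G3 p1 p2 p3 ρ1 ρ2 ρ3 : ℝ}

/-- the bounds of rho -/
theorem rho_ok (c : Cfg h t s g1 g2 g3 Mi M1 M2 M3 G0 G1 G2 G3 p1 p2 p3 ρ1 ρ2 ρ3)
    (hMi0 : 0 ≤ Mi.sum) (u12 u13 u21 u23 u31 u32 : Bool)
    (v12 : 0 < Df G2 (t ::ₘ g1 ::ₘ g3 ::ₘ sn M2) → 3 / 10 ≤ g1 → u12 = true)
    (v13 : 0 < Df G3 (s ::ₘ g2 ::ₘ g3 ::ₘ sn M3) → 3 / 10 ≤ g2 → u13 = true)
    (v21 : 0 < Df G1 (h ::ₘ g1 ::ₘ g2 ::ₘ sn M1) → 3 / 10 ≤ g1 → u21 = true)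
    (v23 : 0 < Df G3 (s ::ₘ g2 ::ₘ g3 ::ₘ sn M3) → 3 / 10 ≤ g3 → u23 = true)
    (v31 : 0 < Df G1 (h ::ₘ g1 ::ₘ g2 ::ₘ sn M1) → 3 / 10 ≤ g2 → u31 = true)
    (v32 : 0 < Df G2 (t ::ₘ g1 ::ₘ g3 ::ₘ sn M2) → 3 / 10 ≤ g3 → u32 = true) :
    ρ1 ≤ fl u12 t + fl u13 s + Mi.sum ∧ ρ2 ≤ fl u21 h + fl u23 s + Mi.sum ∧
    ρ3 ≤ fl u31 h + fl u32 t + Mi.sum := by
  have hth := c.th
  have hst := c.st
  have hs0 := c.s0
  have hfp : ∀ b : Bool, ∀ x : ℝ, 0 ≤ x → 0 ≤ fl b x := by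
    intro b x hx
    cases b with
    | false => exact le_rfl
    | true => exact hx
  have rb : ∀ (P Q : Prop) (x : ℝ) (u : Bool), [Decidable (P ∧ Q)] → 0 ≤ x → (P → Q → u = true) →
      (if P ∧ Q then x else 0) ≤ fl u x := by
    intro P Q x u _ hx hu
    split_ifs with hp
    · rw [hu hp.1 hp.2]
      exact le_rfl
    · exact hfp u x hx
  have rc : ∀ (P : Prop) (inst : Decidable P), (@ite ℝ P inst Mi.sum 0) ≤ Mi.sum := by
    intro P inst
    split_ifs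
    · exact le_rfl
    · exact hMi0
  refine ⟨?_, ?_, ?_⟩
  · refine c.r1.trans ?_
    unfold Rho
    exact add_le_add (add_le_add (rb _ _ _ _ (by linarith) v12) (rb _ _ _ _ (by linarith) v13)) (rc _ _)
  · refine c.r2.trans ?_
    unfold Rho
    exact add_le_add (add_le_add (rb _ _ _ _ (by linarith) v21) (rb _ _ _ _ (by linarith) v23)) (rc _ _)
  · refine c.r3.trans ?_
    unfold Rho
    exact add_le_add (add_le_add (rb _ _ _ _ (by linarith) v31) (rb _ _ _ _ (by linarith) v32)) (rc _ _)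

/-- the bound of the defect of the row `i` -/
theorem M_ok (hR4 : SpecR4) (c : Cfg h t s g1 g2 g3 Mi M1 M2 M3 G0 G1 G2 G3 p1 p2 p3 ρ1 ρ2 ρ3)
    {m : ℝ} {q : ℕ} {sa sb : ℝ} (sg : Seg m q sa sb Mi) {lo hi : Fin 7 → ℝ}
    (hlh : ∀ i, lo i < hi i) (hl0 : ∀ i, 0 ≤ lo i) (hh1 : ∀ i, hi i ≤ 1)
    (hv : Box lo hi (vec7 h t s g1 g2 g3 (Mi.sum - q * m)))
    (l0 : 3 / 10 ≤ lo 0) (toti : h + t + s + Mi.sum ≤ 37 / 5)
    {Mc : (Fin 7 → Bool) → ℝ}
    (hMc : ∀ e : Fin 7 → Bool, max (FI (corner lo hi e 0) (corner lo hi e 1) (corner lo hi e 2) (corner lo hi e 6) m q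
      - WI (corner lo hi e 0) (corner lo hi e 1) (corner lo hi e 2) (corner lo hi e 6) m q) (1 / 1000) ≤ Mc e) :
    max (Df G0 (h ::ₘ t ::ₘ s ::ₘ Mi)) (1 / 1000) ≤ Ip lo hi Mc (vec7 h t s g1 g2 g3 (Mi.sum - q * m)) := by
  have bx0 := hv 0
  have bx1 := hv 1
  have bx2 := hv 2
  simp only [vec7, Matrix.cons_val_zero, Matrix.cons_val_one, Matrix.cons_val] at bx0 bx1 bx2
  have m0 := sg.m0
  have m1 := sg.m1
  have hth := c.th
  have hst := c.st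
  have hs0 := c.s0
  have hh := c.h1
  obtain ⟨R, hR⟩ : ∃ R, R = Mi.sum := ⟨_, rfl⟩
  obtain ⟨r, hr⟩ : ∃ r, r = R - q * m := ⟨_, rfl⟩
  have hR0 : 0 ≤ R := by
    rw [hR]
    exact Multiset.sum_nonneg fun e he => (sg.e e he).1
  have e0 : ∀ M : Multiset ℝ, (1 : ℝ) ::ₘ h ::ₘ t ::ₘ s ::ₘ M = (1 ::ₘ h ::ₘ t ::ₘ s ::ₘ 0) + M := by
    intro M
    simp only [Multiset.cons_add, zero_add]
  obtain ⟨k1, -⟩ := hR4 (1 ::ₘ h ::ₘ t ::ₘ s ::ₘ 0) Mi m q (by simp) (by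
      intro e he
      simp only [Multiset.mem_cons, Multiset.notMem_zero, or_false] at he
      rcases he with rfl | rfl | rfl | rfl
      · exact ⟨zero_le_one, le_rfl⟩
      · exact ⟨by linarith, by linarith⟩
      · exact ⟨by linarith, by linarith⟩
      · exact ⟨by linarith, by linarith⟩) m0 m1 sg.e (sg.qa.trans sg.aS) (sg.Sb.trans sg.bq)
  rw [← e0, ← e0, ← hR, ← hr] at k1
  rw [← hR, ← hr] at hv ⊢
  rw [← hR] at toti
  have hRr : r + q * m = R := by rw [hr]; ring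
  have hF : G0 ≤ FI h t s r m q := c.v0.trans k1
  have hWI : WI h t s r m q ≤ What (h + t + s + R) := by
    unfold WI
    rw [hRr]
    exact Wc_le_What _ (by linarith) toti
  have hDle : Df G0 (h ::ₘ t ::ₘ s ::ₘ Mi) ≤ FI h t s r m q - WI h t s r m q := by
    unfold Df
    rw [Multiset.sum_cons, Multiset.sum_cons, Multiset.sum_cons, ← hR,
      show h + (t + (s + R)) = h + t + s + R by ring]
    linarith
  have := ((cc_DI (lo := lo) (hi := hi) hl0 hh1 m0.le m1 q).max_const (1 / 1000)).le_Ip hlh hMc hv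
  have v0 : vec7 h t s g1 g2 g3 r 0 = h := rfl
  have v1 : vec7 h t s g1 g2 g3 r 1 = t := rfl
  have v2 : vec7 h t s g1 g2 g3 r 2 = s := rfl
  have v6 : vec7 h t s g1 g2 g3 r 6 = r := rfl
  rw [v0, v1, v2, v6] at this
  exact (max_le_max hDle le_rfl).trans this

end

/-- THE THRESHOLD of a payer on a box -/
theorem thr_box {lo hi : Fin 7 → ℝ} (hlh : ∀ i, lo i < hi i) (hl0 : ∀ i, 0 ≤ lo i) {v : Fin 7 → ℝ}
    (hv : Box lo hi v) {D dv p ρ d m : ℝ} {q : ℕ} (hqm : 0 ≤ (q : ℝ) * m) (j a b : Fin 7) (ua ub : Bool)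
    (ha : a ≠ j) (hb : b ≠ j) (h6 : (6 : Fin 7) ≠ j) (hj : 0 < lo j) (hj1 : v j ≤ 1)
    (hP : Payv (v j) D dv p ρ) (hρ : ρ ≤ fl ua (v a) + fl ub (v b) + (v 6 + q * m))
    {K Mc : (Fin 7 → Bool) → ℝ} {E : Fin 7 → ℝ} (hE : ∀ i, 0 ≤ E i)
    (hKM : ∀ i, ∀ e e' : Fin 7 → Bool,
      -((K (Function.update e i true) - K (Function.update e i false))
        * (Mc (Function.update e' i true) - Mc (Function.update e' i false))) ≤ 4 * E i)
    (hK : ∀ e, Kf (corner lo hi e j) (fl ua (corner lo hi e a) + fl ub (corner lo hi e b)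
      + (corner lo hi e 6 + q * m)) ≤ K e)
    (hM : max D (1 / 1000) ≤ Ip lo hi Mc v) (hd : ∀ e, K e * Mc e + ∑ i, E i ≤ d) : -d < dv := by
  have hfl : ∀ b : Bool, ∀ j : Fin 7, Ma fun v : Fin 7 → ℝ => fl b (v j) := by
    intro b j
    cases b with
    | false => exact Ma.const 0
    | true => exact Ma.coord j
  have hfp : ∀ b : Bool, ∀ x : ℝ, 0 ≤ x → 0 ≤ fl b x := by
    intro b x hx
    cases b with
    | false => exact le_rfl
    | true => exact hx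
  have h1 := cc_Kf (lo := lo) (hi := hi) j hj
    (ρ := fun v => fl ua (v a) + fl ub (v b) + (v 6 + q * m))
    (((hfl ua a).add (hfl ub b)).add (ma_R m q)) (by
      intro v u
      rw [Function.update_of_ne ha, Function.update_of_ne hb, Function.update_of_ne h6]) (by
      intro v hv
      have x1 := hfp ua (v a) ((hl0 a).trans (hv a).1)
      have x2 := hfp ub (v b) ((hl0 b).trans (hv b).1)
      have x3 := (hl0 6).trans (hv 6).1
      linarith)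
  have h2 : Kf (v j) (fl ua (v a) + fl ub (v b) + (v 6 + q * m)) ≤ Ip lo hi K v := h1.le_Ip hlh hK hv
  have h3 := prod_le hlh (Ip_ma lo hi K) (Ip_ma lo hi Mc) (Cc.const (lo := lo) (hi := hi) 0) hE
    (fun i e e' => by
      rw [Ip_corner hlh, Ip_corner hlh, Ip_corner hlh, Ip_corner hlh]
      exact hKM i e e')
    (C := d - ∑ i, E i) (fun e => by
      rw [Ip_corner hlh, Ip_corner hlh]
      have := hd e
      linarith) hv
  have h4 : Ip lo hi K v * Ip lo hi Mc v ≤ d := by linarith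
  have hM0 : 0 ≤ Ip lo hi Mc v := le_trans (le_trans (by norm_num) (le_max_right _ _)) hM
  exact thr_core hP (hj.trans_le (hv j).1) hj1 hρ hM ((mul_le_mul_of_nonneg_right h2 hM0).trans h4)

end C1
end Pool.Agent.Lib.MP_6947cd_al
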