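import Pool.Agent.Lib.MP_6947cd_al.C.Alt
import Pool.Agent.Lib.MP_6947cd_al.C.Thr
import Pool.Agent.Lib.MP_6947cd_al.C.KnC

/-!
Problem MP_6947cd_al (Chollet).  CASE C: a row of a leaf, from the integer data to the real form.
-/

set_option autoImplicit false
open Finset

namespace Pool.Agent.Lib.MP_6947cd_al
namespace C1

open Ent Ent.Pk Fr Fr.WT CC B1 B2 PkA

/-! ### linear combinations of piecewise linear functions -/

lemma ipl_cons' (a va k v : ℝ) (ks vs : List ℝ) (u : ℝ) : ipl a va (k :: ks) (v :: vs) u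
    = if u ≤ k then va + (v - va) / (k - a) * (u - a) else ipl k v ks vs u := rfl

lemma ipl_lin2 (p q : ℝ) (ks : List ℝ) : ∀ (vs ws : List ℝ) (a va wa u : ℝ), vs.length = ks.length →
    ws.length = ks.length → ipl a (p * va + q * wa) ks (List.zipWith (fun v w => p * v + q * w) vs ws) u
      = p * ipl a va ks vs u + q * ipl a wa ks ws u := by
  induction ks with
  | nil =>
    intro vs ws a va wa u h1 h2
    have := List.eq_nil_of_length_eq_zero h1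
    subst this
    have := List.eq_nil_of_length_eq_zero h2
    subst this
    rfl
  | cons k ks ih =>
    intro vs ws a va wa u h1 h2
    cases vs with
    | nil => simp at h1
    | cons v vs =>
      cases ws with
      | nil => simp at h2
      | cons w ws =>
        rw [List.zipWith_cons_cons, ipl_cons', ipl_cons', ipl_cons', ih vs ws k v w u (by simpa using h1) (by simpa using h2)]
        split_ifs
        · ring
        · rfl

/-- the prices times `P`, plus the negative parts -/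
noncomputable def rsL (P : ℕ) (Ps : List ℕ) : List ℕ → List ℕ :=
  @List.rec ℕ (fun _ => List ℕ → List ℕ) (fun _ => [])
    (fun p _ ih Om => @List.rec ℕ (fun _ => List ℕ) (Nat.mul P p :: ih [])
      (fun o Om' _ => Nat.add (Nat.mul P p) o :: ih Om') Om) Ps

lemma rsL_nil (P : ℕ) (Om : List ℕ) : rsL P [] Om = [] := rfl
lemma rsL_cons0 (P p : ℕ) (Ps : List ℕ) : rsL P (p :: Ps) [] = (P * p) :: rsL P Ps [] := rfl
lemma rsL_cons (P p o : ℕ) (Ps Om : List ℕ) : rsL P (p :: Ps) (o :: Om) = (P * p + o) :: rsL P Ps Om := rfl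

lemma rsL_len (P : ℕ) (Ps : List ℕ) : ∀ Om, (rsL P Ps Om).length = Ps.length := by
  induction Ps with
  | nil => intro Om; rfl
  | cons p Ps ih =>
    intro Om
    cases Om with
    | nil => rw [rsL_cons0, List.length_cons, List.length_cons, ih]
    | cons o Om => rw [rsL_cons, List.length_cons, List.length_cons, ih]

lemma rsL_map (P : ℕ) (Ps : List ℕ) : ∀ Om : List ℕ, Om.length = Ps.length →
    (rsL P Ps Om).map (fun v : ℕ => (v : ℝ) / 40000000)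
      = List.zipWith (fun v w => (P : ℝ) / 3125 * v + 1 * w) (Ps.map fun v : ℕ => (v : ℝ) / 12800)
        (Om.map fun v : ℕ => (v : ℝ) / 40000000) := by
  induction Ps with
  | nil => intro Om _; rfl
  | cons p Ps ih =>
    intro Om h
    cases Om with
    | nil => simp at h
    | cons o Om =>
      rw [rsL_cons, List.map_cons, List.map_cons, List.map_cons, List.zipWith_cons_cons, ih Om (by simpa using h)]
      congr 1
      push_cast
      ring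

lemma rsL_map0 (P : ℕ) (Ps : List ℕ) : (rsL P Ps []).map (fun v : ℕ => (v : ℝ) / 40000000)
      = List.zipWith (fun v w => (P : ℝ) / 3125 * v + 0 * w) (Ps.map fun v : ℕ => (v : ℝ) / 12800)
        (Ps.map fun v : ℕ => (v : ℝ) / 12800) := by
  induction Ps with
  | nil => rfl
  | cons p Ps ih =>
    rw [rsL_cons0, List.map_cons, List.map_cons, List.zipWith_cons_cons, ih]
    congr 1
    push_cast
    ring

lemma nF_rs {P : ℕ} {ks Ps Om : List ℕ} (h1 : Ps.length = ks.length) (h2 : Om.length = ks.length) (u : ℝ) :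
    nF 40000000 ks (rsL P Ps Om) u = (P : ℝ) / 3125 * nF 12800 ks Ps u + nF 40000000 ks Om u := by
  unfold nF
  rw [rsL_map P Ps Om (by rw [h1, h2])]
  have := ipl_lin2 ((P : ℝ) / 3125) 1 (kR ks) (Ps.map fun v : ℕ => (v : ℝ) / 12800)
    (Om.map fun v : ℕ => (v : ℝ) / 40000000) 0 0 0 u (by rw [List.length_map, kR_length, h1])
    (by rw [List.length_map, kR_length, h2])
  rw [mul_zero, mul_zero, add_zero, one_mul] at this
  exact this

lemma nF_rs0 {P : ℕ} {ks Ps : List ℕ} (h1 : Ps.length = ks.length) (u : ℝ) :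
    nF 40000000 ks (rsL P Ps []) u = (P : ℝ) / 3125 * nF 12800 ks Ps u := by
  unfold nF
  rw [rsL_map0 P Ps]
  have := ipl_lin2 ((P : ℝ) / 3125) 0 (kR ks) (Ps.map fun v : ℕ => (v : ℝ) / 12800)
    (Ps.map fun v : ℕ => (v : ℝ) / 12800) 0 0 0 u (by rw [List.length_map, kR_length, h1])
    (by rw [List.length_map, kR_length, h1])
  rw [mul_zero, mul_zero, add_zero, zero_mul, add_zero] at this
  exact this

/-! ### the majorant of the omitted entries -/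

/-- the values at the nodes `i / 20`, unit `1 / (4 * 10 ^ 7)`, `A` times -/
def omN (A i : ℕ) : ℕ := Nat.mul A (Nat.add (Nat.mul (nat_lit 430000) i) (Nat.mul (nat_lit 19500) (Nat.mul i i)))

lemma omN_ok (A i : ℕ) : (A : ℝ) * omg ((i : ℝ) / 20) ≤ (omN A i : ℕ) / 40000000 := by
  have e : omN A i = A * (430000 * i + 19500 * (i * i)) := rfl
  rw [e]
  unfold omg
  push_cast
  apply le_of_eq
  ring

def omC (A : ℕ) (ks Os : List ℕ) : Bool := ppOK (omN A) (nat_lit 20) (nat_lit 0) (nat_lit 0) ks Os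

lemma omC_sound {A : ℕ} {ks Os : List ℕ} (h : omC A ks Os = true) : Os.length = ks.length ∧
    ∀ t, 0 ≤ t → t ≤ top 0 (kR ks) → (A : ℝ) * omg t ≤ nF 40000000 ks Os t := by
  refine ⟨ppOK_len _ _ _ _ _ _ h, fun t h0 h1 => ?_⟩
  have := maj (c := 40000000) (by norm_num) ((CG.omg 20).smul (Nat.cast_nonneg A)) (g := omN A)
    (fun i _ => omN_ok A i) ks Os 0 0 (by norm_num) h t (by simpa using h0) (by simpa using h1)
  simpa [nF] using this

/-! ### monotone prices -/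

/-- nondecreasing list -/
noncomputable def moC : List ℕ → ℕ → Bool :=
  @List.rec ℕ (fun _ => ℕ → Bool) (fun _ => true) (fun p _ ih a => cond (Nat.ble a p) (ih p) false)

lemma moC_sound (Ps : List ℕ) : ∀ a : ℕ, moC Ps a = true → Mo ((a : ℝ) / 12800) (Ps.map fun v : ℕ => (v : ℝ) / 12800) := by
  induction Ps with
  | nil => intro a _; exact trivial
  | cons p Ps ih =>
    intro a h
    have e : moC (p :: Ps) a = cond (Nat.ble a p) (moC Ps p) false := rfl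
    rw [e] at h
    obtain ⟨h1, h2⟩ := cond_eq_true h
    refine ⟨?_, ih p h2⟩
    have : (a : ℝ) ≤ p := by exact_mod_cast Nat.le_of_ble_eq_true h1
    exact div_le_div_of_nonneg_right this (by norm_num)

/-! ### the result of a row -/

/-- everything which the leaf needs from a row -/
structure RowD (ks : List ℝ) (φ : ℝ → ℝ) (A β a y z G : ℝ) (M : Multiset (ℝ × ℝ)) (a0 a1 y0 y1 z0 z1 : ℝ)
    (R : Bool → Bool → Bool → ℝ) : Prop where
  aff : Aff φ 0 ks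
  zr : φ 0 = 0
  tot : β ≠ 0 → a + y + z + (sn M).sum ≤ 16
  rd : ∃ (ns : List ℕ) (fs : List Bool) (N : Multiset ℝ), Rd ks (1 ::ₘ a ::ₘ y ::ₘ z ::ₘ 0) (sn M) ns fs N ∧
    (∀ e ∈ N, 0 ≤ e ∧ e ≤ 1) ∧ ∃ cf : Af, G ≤ max (FM (1 ::ₘ a ::ₘ y ::ₘ z ::ₘ N)) (cf.val a y z) ∧
      ∀ ba bb bc : Bool, B2.UJ A β cf φ (edg a0 a1 ba) (edg y0 y1 bb) (edg z0 z1 bc) N ≤ R ba bb bc

lemma UJ_div (A β : ℝ) (c : Af) (φ : ℝ → ℝ) (b g y : ℝ) (M : Multiset ℝ) :
    B2.UJ (A / 1000) (β / 1000) c (fun u => φ u / 1000) b g y M = B2.UJ A β c φ b g y M / 1000 := by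
  unfold B2.UJ
  rw [show (M.map fun u => φ u / 1000).sum = (M.map φ).sum / 1000 by
    rw [Multiset.sum_map_div]]
  ring

lemma aff_div {φ : ℝ → ℝ} (ks : List ℝ) : ∀ a, Aff φ a ks → Aff (fun u => φ u / 1000) a ks := by
  induction ks with
  | nil => intro a _; exact trivial
  | cons k ks ih =>
    intro a h
    obtain ⟨⟨p, q, hp⟩, h⟩ := h
    exact ⟨⟨p / 1000, q / 1000, fun x hx hx' => by beta_reduce; rw [hp x hx hx']; ring⟩, ih k h⟩

/-- the function of the rests of a row -/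
noncomputable def phR (ks Os Rs : List ℕ) : ℝ → ℝ := fun u => phF ks Os Rs u / 1000

/-- the sum of the rests of the row `i` bounds every rest -/
lemma fst_le {a : ℝ} {Mi : Multiset ℝ} {M : Multiset (ℝ × ℝ)} (h : Prs a Mi M) (h0 : ∀ x ∈ Mi, 0 ≤ x)
    {w : ℝ × ℝ} (hw : w ∈ M) : 0 ≤ w.1 ∧ w.1 ≤ Mi.sum := by
  have h1 : w.1 ∈ Mi := by
    rw [← h.1]
    exact Multiset.mem_map_of_mem _ hw
  refine ⟨h0 _ h1, ?_⟩
  obtain ⟨N, hN⟩ := Multiset.exists_cons_of_mem h1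
  rw [hN, Multiset.sum_cons]
  have : 0 ≤ N.sum := Multiset.sum_nonneg fun x hx => h0 x (by rw [hN]; exact Multiset.mem_cons_of_mem hx)
  linarith

/-- the linear bound of the omitted entries in zone 2: `C k ≥ O - R` at every knot -/
noncomputable def czC (C : ℕ) : List ℕ → List ℕ → List ℕ → Bool :=
  @List.rec ℕ (fun _ => List ℕ → List ℕ → Bool) (fun _ _ => true)
    (fun k _ ih Os Rs => @List.rec ℕ (fun _ => Bool) false (fun o Os' _ =>
      @List.rec ℕ (fun _ => Bool) false (fun r Rs' _ =>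
        cond (Nat.ble o (Nat.add (Nat.mul C k) r)) (ih Os' Rs') false) Rs) Os)

lemma czC_sound (C : ℕ) (ks : List ℕ) : ∀ Os Rs : List ℕ, czC C ks Os Rs = true →
    ∀ n (hn : n < ks.length), Os.getD n 0 ≤ C * ks[n] + Rs.getD n 0 := by
  induction ks with
  | nil => intro Os Rs _ n hn; exact absurd hn (by simp)
  | cons k ks ih =>
    intro Os Rs h n hn
    cases Os with
    | nil => exact absurd h (by simp [czC])
    | cons o Os =>
      cases Rs with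
      | nil => exact absurd h (by simp [czC])
      | cons r Rs =>
        have e : czC C (k :: ks) (o :: Os) (r :: Rs) = cond (Nat.ble o (C * k + r)) (czC C ks Os Rs) false := rfl
        rw [e] at h
        obtain ⟨h1, h2⟩ := cond_eq_true h
        cases n with
        | zero => exact Nat.le_of_ble_eq_true h1
        | succ n => exact ih Os Rs h2 n (by simpa using hn)

lemma nF_knot (hS7 : SpecR7) {c : ℝ} {ks Vs : List ℕ} (h : KnOK ks) (hl : Vs.length = ks.length) {n : ℕ}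
    (hn : n < ks.length) : nF c ks Vs ((ks[n] : ℕ) / 200) = ((Vs.getD n 0 : ℕ) : ℝ) / c := by
  obtain ⟨-, -, h3⟩ := nF_facts hS7 c ks Vs h hl
  have h5 := congrArg (fun l : List ℝ => l[n]?) h3
  have hn2 : n < Vs.length := by rw [hl]; exact hn
  simp only [List.getElem?_map] at h5
  rw [List.getElem?_eq_getElem hn2] at h5
  have h6 : (kR ks)[n]? = some (((ks[n] : ℕ) : ℝ) / 200) := by
    unfold kR
    rw [List.getElem?_map, List.getElem?_eq_getElem hn]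
    rfl
  rw [h6] at h5
  simp only [Option.map_some, Option.some.injEq] at h5
  rw [h5, List.getD_eq_getElem _ _ hn2]

/-- A USED ROW, from the integer data; either `S1 = S` (no zone 2), or zone 2 -/
theorem row_res {ks Ps Os Rs : List ℕ} {ts : List (ℕ × ℕ × ℕ)} {capt : ℕ × ℕ × ℕ} {lb S1 S C d A β R1 sm : ℕ}
    {X0 X1 Y0 Y1 Z0 Z1 : ℕ} {c : Bool → Af} {γ : Bool → ℝ → ℝ} {rs : List ℕ} {bad : Bool}
    (hS2 : SpecS2) (hS1 : SpecS1) (hS7 : SpecR7)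
    (kn : knC X0 sm ks Ps ts capt = true) (mo : moC Ps 0 = true)
    (lO : Os.length = ks.length) (lR : Rs.length = ks.length)
    (hX0 : 120 ≤ X0) (hX1 : X1 ≤ 400) (hY1 : Y1 ≤ 400) (hZ1 : Z1 ≤ 400)
    (tot : X1 + Y1 + Z1 + 2 * S ≤ 6400) (hSS : S1 ≤ S)
    (hR : RowOK ks Ps lb S1 (32 * R1) d A β c γ (phF ks Os Rs) ((X0 : ℝ) / 400) ((X1 : ℝ) / 400) ((Y0 : ℝ) / 400)
      ((Y1 : ℝ) / 400) ((Z0 : ℝ) / 400) ((Z1 : ℝ) / 400) fun i => ((rs.getD i 0 : ℕ) : ℝ) / 40000000)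
    (hZ : S1 = S ∨ (czC C ks Os Rs = true ∧ ZoneOK (lstC 0 ks) S1 S A β ((C : ℝ) / 200000) (v2 bad)
      ((X0 : ℝ) / 400) ((X1 : ℝ) / 400) ((Y0 : ℝ) / 400) ((Y1 : ℝ) / 400) ((Z0 : ℝ) / 400) ((Z1 : ℝ) / 400)
      fun i => ((rs.getD i 0 : ℕ) : ℝ) / 40000000))
    (hT : StarOK (lstC 0 ks) S d (!bad) ((X0 : ℝ) / 400) ((X1 : ℝ) / 400) ((Y0 : ℝ) / 400)
      ((Y1 : ℝ) / 400) ((Z0 : ℝ) / 400) ((Z1 : ℝ) / 400))
    (hA : AltOK ks bad c γ ((X0 : ℝ) / 400) ((X1 : ℝ) / 400) ((Y0 : ℝ) / 400)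
      ((Y1 : ℝ) / 400) ((Z0 : ℝ) / 400) ((Z1 : ℝ) / 400))
    {a y z G : ℝ} {M : Multiset (ℝ × ℝ)} {Mi : Multiset ℝ}
    (ha0 : (X0 : ℝ) / 400 ≤ a) (ha1 : a ≤ (X1 : ℝ) / 400) (hy0 : (Y0 : ℝ) / 400 ≤ y) (hy1 : y ≤ (Y1 : ℝ) / 400)
    (hz0 : (Z0 : ℝ) / 400 ≤ z) (hz1 : z ≤ (Z1 : ℝ) / 400)
    (hv : Val G (a ::ₘ y ::ₘ z ::ₘ sn M)) (hP : Prs a Mi M) (hMi : ∀ x ∈ Mi, 0 ≤ x ∧ x ≤ (sm : ℝ) / 400)
    (hRs : Mi.sum ≤ (R1 : ℝ) / 400)
    (hbad : bad = true → 0 < Df G (a ::ₘ y ::ₘ z ::ₘ sn M))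
    (hd : -((d : ℝ) / 10 ^ 7) < Df G (a ::ₘ y ::ₘ z ::ₘ sn M)) (hlb : (lb : ℝ) / 200 ≤ (sn M).sum) :
    RowD (kR ks) (phR ks Os Rs) (A / 1000) (β / 1000) a y z G M ((X0 : ℝ) / 400) ((X1 : ℝ) / 400) ((Y0 : ℝ) / 400)
      ((Y1 : ℝ) / 400) ((Z0 : ℝ) / 400) ((Z1 : ℝ) / 400)
      (fun ba bb bc => ((rs.getD (ix ba bb bc) 0 : ℕ) : ℝ) / 40000000000) ∧
    ∀ w ∈ M, 0 ≤ w.1 ∧ w.2 ≤ top 0 (kR ks) ∧ nF 12800 ks Ps w.2 ≤ w.1 := by
  have hkn := knC_knOK kn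
  have cst : ∀ n : ℕ, n ≤ 400 → (n : ℝ) / 400 ≤ 1 := fun n hn => by
    have : (n : ℝ) ≤ 400 := by exact_mod_cast hn
    linarith
  have hX1' := cst X1 hX1
  have hk : ∀ w ∈ M, 0 ≤ w.1 ∧ w.2 ≤ top 0 (kR ks) ∧ nF 12800 ks Ps w.2 ≤ w.1 := by
    intro w hw
    obtain ⟨h1, h2, h3⟩ := hP.2 w hw
    have h4 : w.1 ∈ Mi := by
      rw [← hP.1]
      exact Multiset.mem_map_of_mem _ hw
    exact ⟨(hMi _ h4).1, knC_sound kn ha0 (ha1.trans hX1') (hMi _ h4).1 (hMi _ h4).2 h1 h2 h3⟩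
  have hM : ∀ e ∈ sn M, 0 ≤ e ∧ e ≤ top 0 (kR ks) := by
    intro e he
    obtain ⟨w, hw, rfl⟩ := Multiset.mem_map.mp he
    exact ⟨(hP.2 w hw).1, (hk w hw).2.1⟩
  obtain ⟨p1, p2⟩ := phF_facts hS7 ks Os Rs hkn lO lR
  have la : (3 : ℝ) / 10 ≤ (X0 : ℝ) / 400 := by
    have : (120 : ℝ) ≤ X0 := by exact_mod_cast hX0
    linarith
  have htot : (X1 : ℝ) / 400 + (Y1 : ℝ) / 400 + (Z1 : ℝ) / 400 + (S : ℝ) / 200 ≤ 16 := by
    have : (X1 : ℝ) + Y1 + Z1 + 2 * S ≤ 6400 := by exact_mod_cast tot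
    linarith
  have hSS' : (S1 : ℝ) ≤ S := by exact_mod_cast hSS
  have q1 := row_star (top_kR0 ks).le hT ha0 ha1 hy0 hy1 hz0 hz1 hv hM hbad hd
  have main : ∃ ns fs N, Rd (kR ks) (1 ::ₘ a ::ₘ y ::ₘ z ::ₘ 0) (sn M) ns fs N ∧
      (∀ e ∈ N, 0 ≤ e ∧ e ≤ 1) ∧ ∃ cf : Af, G ≤ max (FM (1 ::ₘ a ::ₘ y ::ₘ z ::ₘ N)) (cf.val a y z) ∧
        ∀ ba bb bc : Bool, B2.UJ A β cf (phF ks Os Rs) (edg ((X0 : ℝ) / 400) ((X1 : ℝ) / 400) ba)
          (edg ((Y0 : ℝ) / 400) ((Y1 : ℝ) / 400) bb) (edg ((Z0 : ℝ) / 400) ((Z1 : ℝ) / 400) bc) N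
          ≤ ((rs.getD (ix ba bb bc) 0 : ℕ) : ℝ) / 40000000 := by
    have core : (sn M).sum ≤ (S1 : ℝ) / 200 → _ := fun h1 =>
      row_core (R := (R1 : ℝ) / 400) hS2 hS1 hS7 hkn (knC_len kn) (by simpa using moC_sound Ps 0 mo) la hX1'
        (by positivity) (cst Y1 hY1) (by positivity) (cst Z1 hZ1) (by linarith) hR hA ha0 ha1 hy0 hy1 hz0 hz1 hv hP
        (fun w hw => (hk w hw).2) hRs (by push_cast; linarith) hbad hd h1 hlb
    rcases le_or_gt (sn M).sum ((S1 : ℝ) / 200) with h1 | h1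
    · exact core h1
    · rcases hZ with h2 | ⟨h2, h3⟩
      · rw [← h2] at q1
        exact core q1.le
      · refine row_zone hS2 hkn (top_kR0 ks).le p1 p2 ?_ la hX1' (by positivity) (cst Y1 hY1) (by positivity)
          (cst Z1 hZ1) h3 hA ha0 ha1 hy0 hy1 hz0 hz1 hv hM hbad h1.le q1.le
        intro k hk
        obtain ⟨n, hn, rfl⟩ := List.mem_iff_getElem.mp hk
        have hn' : n < ks.length := by rwa [kR_length] at hn
        have e1 : (kR ks)[n] = ((ks[n] : ℕ) : ℝ) / 200 := List.getElem_map _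
        rw [e1]
        unfold phF
        rw [nF_knot hS7 hkn lO hn', nF_knot hS7 hkn lR hn']
        have h4 := czC_sound C ks Os Rs h2 n hn'
        have h5 : ((Os.getD n 0 : ℕ) : ℝ) ≤ C * (ks[n] : ℕ) + (Rs.getD n 0 : ℕ) := by exact_mod_cast h4
        linarith
  obtain ⟨ns, fs, N, rd, hN, cf, q2, q3⟩ := main
  refine ⟨⟨aff_div _ _ p1, ?_, fun _ => by linarith, ns, fs, N, rd, hN, cf, q2, ?_⟩, hk⟩
  · show phF ks Os Rs 0 / 1000 = 0
    rw [p2, zero_div]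
  · intro ba bb bc
    have := q3 ba bb bc
    have e : B2.UJ ((A : ℝ) / 1000) ((β : ℝ) / 1000) cf (phR ks Os Rs) (edg ((X0 : ℝ) / 400) ((X1 : ℝ) / 400) ba)
      (edg ((Y0 : ℝ) / 400) ((Y1 : ℝ) / 400) bb) (edg ((Z0 : ℝ) / 400) ((Z1 : ℝ) / 400) bc) N
      = B2.UJ A β cf (phF ks Os Rs) (edg ((X0 : ℝ) / 400) ((X1 : ℝ) / 400) ba)
      (edg ((Y0 : ℝ) / 400) ((Y1 : ℝ) / 400) bb) (edg ((Z0 : ℝ) / 400) ((Z1 : ℝ) / 400) bc) N / 1000 :=
      UJ_div _ _ _ _ _ _ _ _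
    rw [e]
    linarith

/-- an unused row -/
theorem row_none (hS2 : SpecS2) {a y z G : ℝ} {M : Multiset (ℝ × ℝ)} {Mi : Multiset ℝ} (hP : Prs a Mi M) (ha0 : 0 ≤ a) (ha1 : a ≤ 1)
    (hy0 : 0 ≤ y) (hy1 : y ≤ 1) (hz0 : 0 ≤ z) (hz1 : z ≤ 1) (a0 a1 y0 y1 z0 z1 : ℝ) :
    RowD [1] (fun _ => 0) 0 0 a y z G M a0 a1 y0 y1 z0 z1 (fun _ _ _ => 0) := by
  have hinc : Inc 0 [(1 : ℝ)] := ⟨one_pos, le_rfl⟩
  obtain ⟨ns, fs, N, rd⟩ := rd_of [1] hinc (1 ::ₘ a ::ₘ y ::ₘ z ::ₘ 0) (sn M) (by simp) (by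
    intro e he
    simp only [Multiset.mem_cons, Multiset.notMem_zero, or_false] at he
    rcases he with rfl | rfl | rfl | rfl
    · exact ⟨zero_le_one, le_rfl⟩
    · exact ⟨ha0, ha1⟩
    · exact ⟨hy0, hy1⟩
    · exact ⟨hz0, hz1⟩) (by
    intro e he
    obtain ⟨w, hw, rfl⟩ := Multiset.mem_map.mp he
    obtain ⟨h1, h2, -⟩ := hP.2 w hw
    exact ⟨h1, h2⟩)
  refine ⟨aff_zero _ _, rfl, fun h => absurd rfl h, ns, fs, N, rd, ?_, cAf |G|, ?_, ?_⟩
  · exact (hS2 [1] 0 ns fs N le_rfl hinc rd.red).2.2.1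
  · rw [cAf_val]
    exact (le_abs_self G).trans (le_max_right _ _)
  · intro ba bb bc
    unfold B2.UJ
    rw [Multiset.map_const', Multiset.sum_replicate, smul_zero]
    simp

end C1
end Pool.Agent.Lib.MP_6947cd_al
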