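import Pool.Agent.Lib.MP_6947cd_al.C.RowI

/-!
Problem MP_6947cd_al (Chollet).  CASE C: boxes of configurations.
-/

set_option autoImplicit false
open Finset

namespace Pool.Agent.Lib.MP_6947cd_al
namespace C1

open Ent Fr Fr.WT CC B1

/-- A BOX of configurations, borders in units of `1 / 400` (the last coordinate is the sum of the rests of the row
`i`).  `s1 s2 s3`: `0` = the vertex is bad, `1` = it is a payer, other values: unknown; `n1 n2 n3`: the entry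
`g1`, `g2`, `g3` is known to be below `3 / 10`. -/
structure St where
  x : Bx
  s1 : ℕ
  s2 : ℕ
  s3 : ℕ
  n1 : Bool
  n2 : Bool
  n3 : Bool

/-- the configuration lies in the box; `D1`, `D2`, `D3` = the defects of the three vertices -/
structure In (σ : St) (h t s g1 g2 g3 : ℝ) (Mi : Multiset ℝ) (D1 D2 D3 : ℝ) : Prop where
  box : Box σ.x.lo σ.x.hi (vec7 h t s g1 g2 g3 Mi.sum)
  b1 : σ.s1 = 0 → 0 < D1
  q1 : σ.s1 = 1 → D1 ≤ 0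
  b2 : σ.s2 = 0 → 0 < D2
  q2 : σ.s2 = 1 → D2 ≤ 0
  b3 : σ.s3 = 0 → 0 < D3
  q3 : σ.s3 = 1 → D3 ≤ 0
  n1 : σ.n1 = true → g1 < 3 / 10
  n2 : σ.n2 = true → g2 < 3 / 10
  n3 : σ.n3 = true → g3 < 3 / 10

/-- NO CONFIGURATION in the box -/
def Dead (σ : St) : Prop := ∀ (h t s g1 g2 g3 : ℝ) (Mi : Multiset ℝ) (M1 M2 M3 : Multiset (ℝ × ℝ))
  (G0 G1 G2 G3 p1 p2 p3 ρ1 ρ2 ρ3 : ℝ), Cfg h t s g1 g2 g3 Mi M1 M2 M3 G0 G1 G2 G3 p1 p2 p3 ρ1 ρ2 ρ3 →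
  In σ h t s g1 g2 g3 Mi (Df G1 (h ::ₘ g1 ::ₘ g2 ::ₘ sn M1)) (Df G2 (t ::ₘ g1 ::ₘ g3 ::ₘ sn M2))
    (Df G3 (s ::ₘ g2 ::ₘ g3 ::ₘ sn M3)) → False

end C1
end Pool.Agent.Lib.MP_6947cd_al
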