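import Pool.Agent.Lib.MP_6947cd_al.C.SN
import Pool.Agent.Lib.MP_6947cd_al.C.St
import Pool.Agent.Lib.MP_6947cd_al.C.RowN

/-!
Problem MP_6947cd_al (Chollet).  CASE C: the leaf, from the tables of corner values.
-/

set_option autoImplicit false
open Finset

namespace Pool.Agent.Lib.MP_6947cd_al
namespace C1

open Ent Ent.Pk Fr Fr.WT CC B1 B2 PkA

/-- the tables of the leaf bound the pieces of the function -/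
structure TabOK (x : Bx) (w3 w7 w8 : ℕ) (P : SP) (l1 l2 l3 l4 : List Ln) (Vk Vl : Bool → Bool → Bool → ℝ)
    (rs1 rs2 rs3 a1 a2 a3 a4 b1 b2 b3 : List ℕ) : Prop where
  a1 : ∀ a b c : Bool, pcR w3 w7 P.αk P.k l1 (Vk a b c) (en x.H0 x.H1 a) (en x.T0 x.T1 b) (en x.A0 x.A1 c)
    ≤ ((a1.getD (ix a b c) 0 : ℕ) - (offs : ℕ) + 16 * w7 * 10 ^ 13) / 8000000000000
  a2 : ∀ a b c : Bool, pcR w3 w8 P.αl P.l l2 (Vl a b c) (en x.H0 x.H1 a) (en x.S0 x.S1 b) (en x.B0 x.B1 c)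
    ≤ ((a2.getD (ix a b c) 0 : ℕ) - (offs : ℕ) + 16 * w8 * 10 ^ 13) / 8000000000000
  a3 : ∀ a b c : Bool, lsV l3 (en x.T0 x.T1 a) (en x.S0 x.S1 b) (en x.C0 x.C1 c) / 8000000000000
    ≤ ((a3.getD (ix a b c) 0 : ℕ) - (offs : ℕ)) / 8000000000000
  a4 : ∀ a b c : Bool, lsV l4 (en x.A0 x.A1 a) (en x.B0 x.B1 b) (en x.C0 x.C1 c) / 8000000000000
    ≤ ((a4.getD (ix a b c) 0 : ℕ) - (offs : ℕ)) / 8000000000000
  b1 : ∀ a b c : Bool, ((rs1.getD (ix a b c) 0 : ℕ) : ℝ) / 40000000 ≤ (b1.getD (ix a b c) 0 : ℕ) / 8000000000000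
  b2 : ∀ a b c : Bool, ((rs2.getD (ix a b c) 0 : ℕ) : ℝ) / 40000000
    + w8 * L3 (cA P.L8) (cB P.L8) (en x.T0 x.T1 a) (en x.A0 x.A1 b) (en x.C0 x.C1 c)
    ≤ (b2.getD (ix a b c) 0 : ℕ) / 8000000000000
  b3 : ∀ a b c : Bool, ((rs3.getD (ix a b c) 0 : ℕ) : ℝ) / 40000000
    + w7 * L3 (cA P.L7) (cB P.L7) (en x.S0 x.S1 a) (en x.B0 x.B1 b) (en x.C0 x.C1 c)
    ≤ (b3.getD (ix a b c) 0 : ℕ) / 8000000000000

/-- the conditions of the function of the special entries -/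
structure SPOK (x : Bx) (w3 : ℕ) (P : SP) (Vk Vl : Bool → Bool → Bool → ℝ) : Prop where
  md : P.md = 0
  αk : 0 ≤ P.αk
  αl : 0 ≤ P.αl
  uk : w3 ≠ 0 → UOk x.lo x.hi 1 3 Vk
  ul : w3 ≠ 0 → UOk x.lo x.hi 2 4 Vl
  L : P.k.L ≤ 10
  L' : P.l.L ≤ 10
  um : 0 ≤ P.k.um
  um' : 0 ≤ P.l.um
  lk : P.k.L ≤ 3 ∨ (P.k.L : ℝ) / 10 ≤ x.lo 1 ∨ (P.k.L : ℝ) / 10 ≤ x.lo 3
  ll : P.l.L ≤ 3 ∨ (P.l.L : ℝ) / 10 ≤ x.lo 2 ∨ (P.l.L : ℝ) / 10 ≤ x.lo 4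
  L7 : P.L7 ≤ 10
  L8 : P.L8 ≤ 10
  l7 : P.L7 ≤ 3 ∨ (P.L7 : ℝ) / 10 ≤ x.lo 2 ∨ (P.L7 : ℝ) / 10 ≤ x.lo 4 ∨ (P.L7 : ℝ) / 10 ≤ x.lo 5
  l8 : P.L8 ≤ 3 ∨ (P.L8 : ℝ) / 10 ≤ x.lo 1 ∨ (P.L8 : ℝ) / 10 ≤ x.lo 3 ∨ (P.L8 : ℝ) / 10 ≤ x.lo 5
  psi : w3 ≠ 0 → PsiOk P.ψ P.αk P.αl
  vk : w3 ≠ 0 → P.αk ≠ 0 → ∀ a b c, 1 / 10000 ≤ Vk a b c
  vl : w3 ≠ 0 → P.αl ≠ 0 → ∀ a b c, 1 / 10000 ≤ Vl a b c

/-- the row `i` and the payments -/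
structure RiOK (x : Bx) (w3 lam c1 c2 c3 Pt o1 o2 : ℕ) (b1 b2 b3 u12 u13 u21 u23 u31 u32 : Bool)
    (Li Ml Φl : List ℕ) : Prop where
  M : ∀ e : Fin 7 → Bool, max (FI (corner x.lo x.hi e 0) (corner x.lo x.hi e 1) (corner x.lo x.hi e 2)
    (corner x.lo x.hi e 6) 1 0 - WI (corner x.lo x.hi e 0) (corner x.lo x.hi e 1) (corner x.lo x.hi e 2)
    (corner x.lo x.hi e 6) 1 0) (1 / 1000) ≤ at4 Ml e / 80000000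
  k1 : b1 = false → ∀ e : Fin 7 → Bool, (c1 : ℝ) / 1000 * Kf (corner x.lo x.hi e 0) (fl u12 (corner x.lo x.hi e 1)
    + fl u13 (corner x.lo x.hi e 2) + (corner x.lo x.hi e 6 + (0 : ℕ) * 1)) ≤ at4 Φl e / 100000000
  k2 : b2 = false → ∀ e : Fin 7 → Bool, (c2 : ℝ) / 1000 * Kf (corner x.lo x.hi e 1) (fl u21 (corner x.lo x.hi e 0)
    + fl u23 (corner x.lo x.hi e 2) + (corner x.lo x.hi e 6 + (0 : ℕ) * 1)) ≤ at4 Φl e / 100000000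
  k3 : b3 = false → ∀ e : Fin 7 → Bool, (c3 : ℝ) / 1000 * Kf (corner x.lo x.hi e 2) (fl u31 (corner x.lo x.hi e 0)
    + fl u32 (corner x.lo x.hi e 1) + (corner x.lo x.hi e 6 + (0 : ℕ) * 1)) ≤ at4 Φl e / 100000000
  I : ∀ e : Fin 7 → Bool, at4 Φl e / 100000 * (at4 Ml e / 80000000) + ((1000 + lam)
    * FI (corner x.lo x.hi e 0) (corner x.lo x.hi e 1) (corner x.lo x.hi e 2) (corner x.lo x.hi e 6) 1 0
    - lam * WI (corner x.lo x.hi e 0) (corner x.lo x.hi e 1) (corner x.lo x.hi e 2) (corner x.lo x.hi e 6) 1 0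
    + (1000 - w3) * omg (corner x.lo x.hi e 6) + Pt / 25000 * corner x.lo x.hi e 6)
    ≤ ((Li.getD (ix (e 0) (e 1) (e 2)) 0 : ℕ) - (offs : ℕ) + 16 * w3 * 10 ^ 13) / 8000000000000
      - G0R w3 o1 o2 (corner x.lo x.hi e 0) (corner x.lo x.hi e 1) (corner x.lo x.hi e 2)

/-- the last inequality at the corners -/
def CmpOK (x : Bx) (wA rhs : ℕ) (Li a1 a2 a3 a4 b1 b2 b3 : List ℕ) : Prop := ∀ e0 e1 e2 e3 e4 e5 : Bool,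
  (wA ≠ 0 → 20 ≤ Qn (cv x.H0 x.H1 e0) (cv x.T0 x.T1 e1) (cv x.S0 x.S1 e2) (cv x.A0 x.A1 e3) (cv x.B0 x.B1 e4)
    (cv x.C0 x.C1 e5)) ∧
  ((Li.getD (ix e0 e1 e2) 0 : ℕ) : ℝ) + (a1.getD (ix e0 e1 e3) 0 : ℕ) + (a2.getD (ix e0 e2 e4) 0 : ℕ)
    + (b1.getD (ix e0 e3 e4) 0 : ℕ) + ((a3.getD (ix e1 e2 e5) 0 : ℕ) + (a4.getD (ix e3 e4 e5) 0 : ℕ))
    + ((b2.getD (ix e1 e3 e5) 0 : ℕ) + (b3.getD (ix e2 e4 e5) 0 : ℕ))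
    ≤ rhs + 16 * wA * (10 ^ 12 * Real.log (((Qn (cv x.H0 x.H1 e0) (cv x.T0 x.T1 e1) (cv x.S0 x.S1 e2)
      (cv x.A0 x.A1 e3) (cv x.B0 x.B1 e4) (cv x.C0 x.C1 e5) : ℕ) : ℝ) / 160000) + 10 ^ 13)

lemma Bx.q0 (b : Bx) (e : Fin 7 → Bool) : corner b.lo b.hi e 0 = ((cv b.H0 b.H1 (e 0) : ℕ) : ℝ) / 400 := b.c0 e
lemma Bx.q1 (b : Bx) (e : Fin 7 → Bool) : corner b.lo b.hi e 1 = ((cv b.T0 b.T1 (e 1) : ℕ) : ℝ) / 400 := b.c1 e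
lemma Bx.q2 (b : Bx) (e : Fin 7 → Bool) : corner b.lo b.hi e 2 = ((cv b.S0 b.S1 (e 2) : ℕ) : ℝ) / 400 := b.c2 e
lemma Bx.q3 (b : Bx) (e : Fin 7 → Bool) : corner b.lo b.hi e 3 = ((cv b.A0 b.A1 (e 3) : ℕ) : ℝ) / 400 := b.c3 e
lemma Bx.q4 (b : Bx) (e : Fin 7 → Bool) : corner b.lo b.hi e 4 = ((cv b.B0 b.B1 (e 4) : ℕ) : ℝ) / 400 := b.c4 e
lemma Bx.q5 (b : Bx) (e : Fin 7 → Bool) : corner b.lo b.hi e 5 = ((cv b.C0 b.C1 (e 5) : ℕ) : ℝ) / 400 := b.c5 e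

/-- the permanent is positive on the box -/
lemma S4_pos {x : Bx} (hx : x.Ok) (h : ∀ e0 e1 e2 e3 e4 e5 : Bool, 20 ≤ Qn (cv x.H0 x.H1 e0) (cv x.T0 x.T1 e1)
    (cv x.S0 x.S1 e2) (cv x.A0 x.A1 e3) (cv x.B0 x.B1 e4) (cv x.C0 x.C1 e5)) {v : Fin 7 → ℝ}
    (hv : Box x.lo x.hi v) : 0 < S4f 0 v := by
  have h1 : Cc x.lo x.hi fun v => -S4f 0 v := (ma_S4f 0).neg.cc
  have h2 := h1.le_of_corners (C := -(1 / 8000)) (fun e => by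
    have h3 := h (e 0) (e 1) (e 2) (e 3) (e 4) (e 5)
    beta_reduce
    rw [Qn_eq h3 (x.q0 e) (x.q1 e) (x.q2 e) (x.q3 e) (x.q4 e) (x.q5 e)]
    have : (20 : ℝ) ≤ (Qn (cv x.H0 x.H1 (e 0)) (cv x.T0 x.T1 (e 1)) (cv x.S0 x.S1 (e 2)) (cv x.A0 x.A1 (e 3))
      (cv x.B0 x.B1 (e 4)) (cv x.C0 x.C1 (e 5)) : ℕ) := by exact_mod_cast h3
    linarith) hv
  beta_reduce at h2
  linarith

/-- THE LEAF, from the tables -/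
theorem leaf_fin (hR4 : SpecR4) {x : Bx} (hx : x.Ok) {h t s g1 g2 g3 : ℝ} {Mi : Multiset ℝ}
    {M1 M2 M3 : Multiset (ℝ × ℝ)} {G0 G1 G2 G3 p1 p2 p3 ρ1 ρ2 ρ3 : ℝ}
    (c : Cfg h t s g1 g2 g3 Mi M1 M2 M3 G0 G1 G2 G3 p1 p2 p3 ρ1 ρ2 ρ3)
    (hv : Box x.lo x.hi (vec7 h t s g1 g2 g3 Mi.sum))
    {w3 w7 w8 wA lam c1 c2 c3 Pt P1 P2 P3 Sl o1 o2 : ℕ} (hw : w3 + w7 + w8 + wA = 1000)
    (hPt : Pt = 8 * (P1 + P2 + P3) + 25 * Sl)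
    {ks1 ks2 ks3 : List ℝ} {φ1 φ2 φ3 : ℝ → ℝ} {rs1 rs2 rs3 : List ℕ}
    (r1 : RowD ks1 φ1 1 ((c1 : ℝ) / 1000) h g1 g2 G1 M1 ((x.H0 : ℝ) / 400) ((x.H1 : ℝ) / 400) ((x.A0 : ℝ) / 400)
      ((x.A1 : ℝ) / 400) ((x.B0 : ℝ) / 400) ((x.B1 : ℝ) / 400)
      (fun a b c => ((rs1.getD (ix a b c) 0 : ℕ) : ℝ) / 40000000000))
    (r2 : RowD ks2 φ2 ((w7 : ℝ) / 1000 + wA / 1000) ((c2 : ℝ) / 1000) t g1 g3 G2 M2 ((x.T0 : ℝ) / 400)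
      ((x.T1 : ℝ) / 400) ((x.A0 : ℝ) / 400) ((x.A1 : ℝ) / 400) ((x.C0 : ℝ) / 400) ((x.C1 : ℝ) / 400)
      (fun a b c => ((rs2.getD (ix a b c) 0 : ℕ) : ℝ) / 40000000000))
    (r3 : RowD ks3 φ3 ((w8 : ℝ) / 1000 + wA / 1000) ((c3 : ℝ) / 1000) s g2 g3 G3 M3 ((x.S0 : ℝ) / 400)
      ((x.S1 : ℝ) / 400) ((x.B0 : ℝ) / 400) ((x.B1 : ℝ) / 400) ((x.C0 : ℝ) / 400) ((x.C1 : ℝ) / 400)
      (fun a b c => ((rs3.getD (ix a b c) 0 : ℕ) : ℝ) / 40000000000))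
    {π : ℝ → ℝ → ℝ}
    (f1 : ∀ z ∈ M1, (w3 : ℝ) / 1000 * π z.1 z.2 + (1 - (w3 : ℝ) / 1000) * omg z.2
      ≤ φ1 z.2 + ((P1 : ℝ) / 3125000 + Sl / 1000000) * z.1)
    (f2 : ∀ z ∈ M2, ((w7 : ℝ) / 1000 + wA / 1000) * omg z.2 ≤ φ2 z.2 + (P2 : ℝ) / 3125000 * z.1)
    (f3 : ∀ z ∈ M3, ((w8 : ℝ) / 1000 + wA / 1000) * omg z.2 ≤ φ3 z.2 + (P3 : ℝ) / 3125000 * z.1)
    (hπ : w3 ≠ 0 → ∀ z ∈ M1, ∀ c u, 0 ≤ u → u ≤ 1 → PGeo h (Real.sqrt (1 - h)) z.1 z.2 c u →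
      omg z.1 + omg z.2 - omg (min u (max z.1 z.2)) ≤ π z.1 z.2)
    (u12 u13 u21 u23 u31 u32 b1 b2 b3 : Bool)
    (v12 : 0 < Df G2 (t ::ₘ g1 ::ₘ g3 ::ₘ sn M2) → 3 / 10 ≤ g1 → u12 = true)
    (v13 : 0 < Df G3 (s ::ₘ g2 ::ₘ g3 ::ₘ sn M3) → 3 / 10 ≤ g2 → u13 = true)
    (v21 : 0 < Df G1 (h ::ₘ g1 ::ₘ g2 ::ₘ sn M1) → 3 / 10 ≤ g1 → u21 = true)
    (v23 : 0 < Df G3 (s ::ₘ g2 ::ₘ g3 ::ₘ sn M3) → 3 / 10 ≤ g3 → u23 = true)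
    (v31 : 0 < Df G1 (h ::ₘ g1 ::ₘ g2 ::ₘ sn M1) → 3 / 10 ≤ g2 → u31 = true)
    (v32 : 0 < Df G2 (t ::ₘ g1 ::ₘ g3 ::ₘ sn M2) → 3 / 10 ≤ g3 → u32 = true)
    (hb1 : b1 = true → 0 < Df G1 (h ::ₘ g1 ::ₘ g2 ::ₘ sn M1))
    (hb2 : b2 = true → 0 < Df G2 (t ::ₘ g1 ::ₘ g3 ::ₘ sn M2))
    (hb3 : b3 = true → 0 < Df G3 (s ::ₘ g2 ::ₘ g3 ::ₘ sn M3))
    {P : SP} {Vk Vl : Bool → Bool → Bool → ℝ} (sp : SPOK x w3 P Vk Vl)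
    (gk : P.k.gb = true → b2 = true) (gl : P.l.gb = true → b3 = true)
    {l1 l2 l3 l4 : List Ln} {Li Ml Φl a1 a2 a3 a4 q1 q2 q3 : List ℕ} {ps rhs : ℕ} (hps : P.ψ = (ps : ℝ) / 10 ^ 7)
    (ri : RiOK x w3 lam c1 c2 c3 Pt o1 o2 b1 b2 b3 u12 u13 u21 u23 u31 u32 Li Ml Φl)
    (tb : TabOK x w3 w7 w8 P l1 l2 l3 l4 Vk Vl rs1 rs2 rs3 a1 a2 a3 a4 q1 q2 q3)
    (cmp : CmpOK x wA rhs Li a1 a2 a3 a4 q1 q2 q3)
    (hr : (rhs : ℝ) + 16 * 10 ^ 16 + (e4 Φl Ml : ℕ) / 4 ≤ 5 * (offs : ℕ) + 800000 * w3 * ps) : False := by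
  obtain ⟨af1, z1, t1, ns1, fs1, N1, rd1, hN1, cf1, gj1, uj1⟩ := r1
  obtain ⟨af2, z2, t2, ns2, fs2, N2, rd2, hN2, cf2, gj2, uj2⟩ := r2
  obtain ⟨af3, z3, t3, ns3, fs3, N3, rd3, hN3, cf3, gj3, uj3⟩ := r3
  have hwR : (w3 : ℝ) + w7 + w8 + wA = 1000 := by exact_mod_cast hw
  have hth := c.th
  have hst := c.st
  have hs0 := c.s0
  have hh1 := c.h1
  have hMi0 : 0 ≤ Mi.sum := Multiset.sum_nonneg fun e he => (c.mi e he).1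
  have bx6 := hv 6
  have v6 : vec7 h t s g1 g2 g3 Mi.sum 6 = Mi.sum := rfl
  have hMi1 : Mi.sum ≤ 1 := by
    rw [v6] at bx6
    exact bx6.2.trans (hx.h1 6)
  have ev : Mi.sum - ((0 : ℕ) : ℝ) * 1 = Mi.sum := by simp
  have l0' : ∀ n : ℕ, 120 ≤ n → (3 : ℝ) / 10 ≤ (n : ℝ) / 400 := fun n hn => by
    have : (120 : ℝ) ≤ n := by exact_mod_cast hn
    linarith
  have sg : Seg (1 : ℝ) 0 0 1 Mi := ⟨one_pos, le_rfl, by simp, by simp, hMi0, hMi1, fun e he =>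
    ⟨(c.mi e he).1, (c.mi e he).2.trans (by linarith)⟩⟩
  have hA : w3 ≠ 0 → ((w3 : ℝ) / 1000 ≠ 0) := fun h => by
    have : (w3 : ℝ) ≠ 0 := by exact_mod_cast h
    exact div_ne_zero this (by norm_num)
  have hA' : (w3 : ℝ) / 1000 ≠ 0 → w3 ≠ 0 := fun h h0 => h (by rw [h0]; simp)
  have hAA' : (wA : ℝ) / 1000 ≠ 0 → wA ≠ 0 := fun h h0 => h (by rw [h0]; simp)
  have ipos : ∀ {V : Bool → Bool → Bool → ℝ} {i j k : Fin 7}, (∀ a b c, 1 / 10000 ≤ V a b c) → ∀ v, Box x.lo x.hi v →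
      0 < Ip x.lo x.hi (fun e => V (e i) (e j) (e k)) v := by
    intro V i j k hV v hv
    have := Ma.Ip_le hx.lh (f := fun e : Fin 7 → Bool => V (e i) (e j) (e k)) (C := 1 / 10000)
      (fun e => hV _ _ _) hv
    linarith
  have hQ : wA ≠ 0 → ∀ v, Box x.lo x.hi v → 0 < S4f 0 v := fun hne v hv =>
    S4_pos hx (fun e0 e1 e2 e3 e4 e5 => (cmp e0 e1 e2 e3 e4 e5).1 hne) hv
  have b := SP.bound P (w := wtR w3 w7 w8 wA lam c1 c2 c3) c hv (fun hne => sp.uk (hA' hne)) (fun hne => sp.ul (hA' hne))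
    sp.L sp.L' sp.um sp.um' sp.lk sp.ll sp.L7 sp.L8 sp.l7 sp.l8 (fun h => hb2 (gk h)) (fun h => hb3 (gl h))
    (fun hne => sp.psi (hA' hne)) (fun hne hα => ipos (sp.vk (hA' hne) hα) _ hv)
    (fun hne hα => ipos (sp.vl (hA' hne) hα) _ hv)
    (fun hne => by
      rw [sp.md]
      exact hQ (hAA' hne) _ hv)
    (cutR o1 o2 l1 l2 l3 l4) (π := π) (fun hne => hπ (hA' hne))
  obtain ⟨X, L7, L8, S4, h3, h7, h8, hA4, hSv⟩ := b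
  have hcc := SP.cc (lo := x.lo) (hi := x.hi) P (w := wtR w3 w7 w8 wA lam c1 c2 c3) (wtR_ok hw)
    (Uk := Ip x.lo x.hi fun e => Vk (e 0) (e 1) (e 3)) (Ul := Ip x.lo x.hi fun e => Vl (e 0) (e 2) (e 4))
    (cut := cutR o1 o2 l1 l2 l3 l4) (Ip_ma _ _ _) (Ip_ma _ _ _) (ma_cutR o1 o2 l1 l2 l3 l4) sp.αk sp.αl
    (lt_of_lt_of_le (by norm_num) (l0' x.H0 hx.H0)) (lt_of_lt_of_le (by norm_num) (l0' x.T0 hx.T0))
    (lt_of_lt_of_le (by norm_num) (l0' x.S0 hx.S0)) (x.l0 3) (x.l0 4)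
    (fun hne v hv => ipos (sp.vk (hA' (left_ne_zero_of_mul hne)) (right_ne_zero_of_mul hne)) v hv)
    (fun hne v hv => ipos (sp.vl (hA' (left_ne_zero_of_mul hne)) (right_ne_zero_of_mul hne)) v hv)
    (fun hne v hv => by
      rw [sp.md]
      exact hQ (hAA' hne) v hv)
  rw [← ev] at hv hSv
  have hcut := cutR_nonneg o1 o2 l1 l2 l3 l4 (r := Mi.sum - ((0 : ℕ) : ℝ) * 1) hth hst (by linarith) hh1 c.g1m.1
    c.g1m.2 c.g2m.1 c.g2m.2 c.g3m.1 c.g3m.2 c.tr1 c.tr2 c.tr3 c.tr4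
  have hE : ∀ i, 0 ≤ eV Φl Ml i / (4 * 8000000000000000) := fun i => div_nonneg (eV_nonneg _ _ i) (by norm_num)
  have hsE : ∑ i, eV Φl Ml i / (4 * 8000000000000000) = (e4 Φl Ml : ℕ) / (4 * 8000000000000000) := by
    rw [← Finset.sum_div, sum_eV]
  refine leaf_realC hR4 c rd1 rd2 rd3 hN1 hN2 hN3 sg hx.lh x.l0 hx.h1 hv (l0' x.H0 hx.H0) (l0' x.T0 hx.T0)
    (l0' x.S0 hx.S0) (w := wtR w3 w7 w8 wA lam c1 c2 c3) (wtR_ok hw) (by linarith) t1 t2 t3 u12 u13 u21 u23 u31 u32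
    b1 b2 b3 v12 v13 v21 v23 v31 v32 hb1 hb2 hb3
    (Mc := fun e => at4 Ml e / 80000000) (Φc := fun e => at4 Φl e / 100000000)
    (E := fun i => eV Φl Ml i / (4 * 8000000000000000)) hE ?_ ri.M ?_ ri.k1 ri.k2 ri.k3 af1 af2 af3 z1 z2 z3
    (π := π) (P1 := (P1 : ℝ) / 3125000 + Sl / 1000000) (P2 := (P2 : ℝ) / 3125000) (P3 := (P3 : ℝ) / 3125000)
    (ξ1 := 0) (ξ2 := 0) (ξ3 := 0) ?_ ?_ ?_ (X := X) (L7 := L7) (L8 := L8) (S4 := S4)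
    (cut := cutR o1 o2 l1 l2 l3 l4 (vec7 h t s g1 g2 g3 (Mi.sum - ((0 : ℕ) : ℝ) * 1))) ?_ h3 h7 h8 hA4 hcc hSv
    (Li := fun a b c => (((Li.getD (ix a b c) 0 : ℕ) - (offs : ℕ) + 16 * w3 * 10 ^ 13) / 8000000000000
      - G0R w3 o1 o2 (en x.H0 x.H1 a) (en x.T0 x.T1 b) (en x.S0 x.S1 c)) / 1000)
    (R1 := fun a b c => ((rs1.getD (ix a b c) 0 : ℕ) : ℝ) / 40000000000)
    (R2 := fun a b c => ((rs2.getD (ix a b c) 0 : ℕ) : ℝ) / 40000000000)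
    (R3 := fun a b c => ((rs3.getD (ix a b c) 0 : ℕ) : ℝ) / 40000000000)
    ?_ ⟨cf1, gj1, uj1⟩ ⟨cf2, gj2, uj2⟩ ⟨cf3, gj3, uj3⟩ ?_
  · intro i e e'
    have := eV_sound Φl Ml i e e'
    have e1 : -((at4 Φl (Function.update e i true) / 100000000 - at4 Φl (Function.update e i false) / 100000000)
        * (at4 Ml (Function.update e' i true) / 80000000 - at4 Ml (Function.update e' i false) / 80000000))
      = -((at4 Φl (Function.update e i true) - at4 Φl (Function.update e i false))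
        * (at4 Ml (Function.update e' i true) - at4 Ml (Function.update e' i false))) / 8000000000000000 := by ring
    have e2 : 4 * (eV Φl Ml i / (4 * 8000000000000000)) = eV Φl Ml i / 8000000000000000 := by ring
    beta_reduce
    rw [e1, e2]
    exact div_le_div_of_nonneg_right this (by norm_num)
  · intro e
    exact div_nonneg (Nat.cast_nonneg _) (by norm_num)
  · intro z hz
    have := f1 z hz
    rw [zero_mul, add_zero]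
    exact this
  · intro z hz
    have := f2 z hz
    rw [zero_mul, add_zero]
    exact this
  · intro z hz
    have := f3 z hz
    rw [zero_mul, add_zero]
    exact this
  · rw [zero_mul, zero_mul, zero_mul, add_zero, add_zero, add_zero]
    exact hcut
  · intro e
    have h1 := ri.I e
    rw [le_div_iff₀ (by norm_num)]
    rw [← x.c0 e, ← x.c1 e, ← x.c2 e]
    refine le_trans (le_of_eq ?_) h1
    unfold RI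
    have hPt' : (Pt : ℝ) = 8 * (P1 + P2 + P3) + 25 * Sl := by exact_mod_cast hPt
    rw [hPt']
    show (at4 Φl e / 100000000 * (at4 Ml e / 80000000) + ((1 + (lam : ℝ) / 1000) * _ - (lam : ℝ) / 1000 * _
      + (1 - (w3 : ℝ) / 1000) * _ + _ * _)) * 1000 = _
    unfold omg
    push_cast
    ring
  · intro e
    have hc := (cmp (e 0) (e 1) (e 2) (e 3) (e 4) (e 5)).2
    have hs := S_split P w3 w7 w8 wA lam c1 c2 c3 o1 o2 l1 l2 l3 l4 (Ip x.lo x.hi fun e => Vk (e 0) (e 1) (e 3))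
      (Ip x.lo x.hi fun e => Vl (e 0) (e 2) (e 4)) (corner x.lo x.hi e)
    rw [Ip_corner hx.lh, Ip_corner hx.lh] at hs
    have hlogQ : (wA : ℝ) * (2 * Real.log (S4f P.md (corner x.lo x.hi e))) = wA * (2 * Real.log
        (((Qn (cv x.H0 x.H1 (e 0)) (cv x.T0 x.T1 (e 1)) (cv x.S0 x.S1 (e 2)) (cv x.A0 x.A1 (e 3))
        (cv x.B0 x.B1 (e 4)) (cv x.C0 x.C1 (e 5)) : ℕ) : ℝ) / 160000)) := by
      by_cases h0 : wA = 0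
      · rw [h0, Nat.cast_zero, zero_mul, zero_mul]
      · have := (cmp (e 0) (e 1) (e 2) (e 3) (e 4) (e 5)).1 h0
        rw [sp.md, Qn_eq this (x.q0 e) (x.q1 e) (x.q2 e) (x.q3 e) (x.q4 e) (x.q5 e)]
    rw [hlogQ, hps] at hs
    have k1 := tb.a1 (e 0) (e 1) (e 3)
    have k2 := tb.a2 (e 0) (e 2) (e 4)
    have k3 := tb.a3 (e 1) (e 2) (e 5)
    have k4 := tb.a4 (e 3) (e 4) (e 5)
    have k5 := tb.b1 (e 0) (e 3) (e 4)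
    have k6 := tb.b2 (e 1) (e 3) (e 5)
    have k7 := tb.b3 (e 2) (e 4) (e 5)
    rw [← x.c0 e, ← x.c1 e, ← x.c3 e] at k1
    rw [← x.c0 e, ← x.c2 e, ← x.c4 e] at k2
    rw [← x.c1 e, ← x.c2 e, ← x.c5 e] at k3
    rw [← x.c3 e, ← x.c4 e, ← x.c5 e] at k4
    rw [← x.c1 e, ← x.c3 e, ← x.c5 e] at k6
    rw [← x.c2 e, ← x.c4 e, ← x.c5 e] at k7
    beta_reduce
    rw [hsE]
    rw [← x.c0 e, ← x.c1 e, ← x.c2 e]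
    obtain ⟨LL, hLL⟩ : ∃ LL, LL = Real.log (((Qn (cv x.H0 x.H1 (e 0)) (cv x.T0 x.T1 (e 1)) (cv x.S0 x.S1 (e 2))
      (cv x.A0 x.A1 (e 3)) (cv x.B0 x.B1 (e 4)) (cv x.C0 x.C1 (e 5)) : ℕ) : ℝ) / 160000) := ⟨_, rfl⟩
    rw [← hLL] at hc hs
    obtain ⟨SS, hSS⟩ : ∃ SS, SS = P.S (wtR w3 w7 w8 wA lam c1 c2 c3) (Ip x.lo x.hi fun e => Vk (e 0) (e 1) (e 3))
      (Ip x.lo x.hi fun e => Vl (e 0) (e 2) (e 4)) (cutR o1 o2 l1 l2 l3 l4) (corner x.lo x.hi e) := ⟨_, rfl⟩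
    rw [← hSS] at hs ⊢
    generalize G0R w3 o1 o2 (corner x.lo x.hi e 0) (corner x.lo x.hi e 1) (corner x.lo x.hi e 2) = zG at hs ⊢
    generalize pcR w3 w7 P.αk P.k l1 (Vk (e 0) (e 1) (e 3)) (corner x.lo x.hi e 0) (corner x.lo x.hi e 1)
      (corner x.lo x.hi e 3) = zk at hs k1
    generalize pcR w3 w8 P.αl P.l l2 (Vl (e 0) (e 2) (e 4)) (corner x.lo x.hi e 0) (corner x.lo x.hi e 2)
      (corner x.lo x.hi e 4) = zl at hs k2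
    generalize lsV l3 (corner x.lo x.hi e 1) (corner x.lo x.hi e 2) (corner x.lo x.hi e 5) = z3' at hs k3
    generalize lsV l4 (corner x.lo x.hi e 3) (corner x.lo x.hi e 4) (corner x.lo x.hi e 5) = z4' at hs k4
    generalize L3 (cA P.L7) (cB P.L7) (corner x.lo x.hi e 2) (corner x.lo x.hi e 4) (corner x.lo x.hi e 5) = z7' at hs k7
    generalize L3 (cA P.L8) (cB P.L8) (corner x.lo x.hi e 1) (corner x.lo x.hi e 3) (corner x.lo x.hi e 5) = z8' at hs k6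
    generalize ((Li.getD (ix (e 0) (e 1) (e 2)) 0 : ℕ) : ℝ) = yI at hc ⊢
    generalize ((a1.getD (ix (e 0) (e 1) (e 3)) 0 : ℕ) : ℝ) = y1 at hc k1
    generalize ((a2.getD (ix (e 0) (e 2) (e 4)) 0 : ℕ) : ℝ) = y2 at hc k2
    generalize ((a3.getD (ix (e 1) (e 2) (e 5)) 0 : ℕ) : ℝ) = y3 at hc k3
    generalize ((a4.getD (ix (e 3) (e 4) (e 5)) 0 : ℕ) : ℝ) = y4 at hc k4
    generalize ((q1.getD (ix (e 0) (e 3) (e 4)) 0 : ℕ) : ℝ) = y5 at hc k5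
    generalize ((q2.getD (ix (e 1) (e 3) (e 5)) 0 : ℕ) : ℝ) = y6 at hc k6
    generalize ((q3.getD (ix (e 2) (e 4) (e 5)) 0 : ℕ) : ℝ) = y7 at hc k7
    generalize ((rs1.getD (ix (e 0) (e 3) (e 4)) 0 : ℕ) : ℝ) = r1' at k5 ⊢
    generalize ((rs2.getD (ix (e 1) (e 3) (e 5)) 0 : ℕ) : ℝ) = r2' at k6 ⊢
    generalize ((rs3.getD (ix (e 2) (e 4) (e 5)) 0 : ℕ) : ℝ) = r3' at k7 ⊢
    generalize ((offs : ℕ) : ℝ) = oo at k1 k2 k3 k4 hr ⊢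
    generalize ((e4 Φl Ml : ℕ) : ℝ) = ee at hr ⊢
    rw [le_div_iff₀ (by norm_num)] at k1 k2 k6 k7 k5
    rw [div_le_div_iff_of_pos_right (by norm_num)] at k3 k4
    generalize (w3 : ℝ) = W3 at *
    generalize (w7 : ℝ) = W7 at *
    generalize (w8 : ℝ) = W8 at *
    generalize (wA : ℝ) = WA at *
    generalize (ps : ℝ) = PS at *
    generalize (rhs : ℝ) = RH at *
    clear hE hsE hcc hcut h3 h7 h8 hA4 hSv tb ri sp sg cmp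
    have g1 : (8000000000000 : ℝ) * (((yI - oo + 16 * W3 * 10 ^ 13) / 8000000000000 - zG) + r1' / 40000000 + r2' / 40000000
        + r3' / 40000000 + 1000 * SS) ≤ -(ee / 4) := by
      rw [hs]
      linarith
    linarith

end C1
end Pool.Agent.Lib.MP_6947cd_al
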