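import Pool.Agent.Lib.MP_6947cd_al.C.LeafN

/-!
Problem MP_6947cd_al (Chollet).  CASE C: the check of a leaf and its soundness (the tables of the rows are a
hypothesis).
-/

set_option autoImplicit false
open Finset

namespace Pool.Agent.Lib.MP_6947cd_al
namespace C1

open Ent Ent.Pk Fr Fr.WT CC B1 B2 PkA

/-! ### the check -/

/-- the flags of a leaf -/
structure Fg where
  b1 : Bool
  b2 : Bool
  b3 : Bool
  u12 : Bool
  u13 : Bool
  u21 : Bool
  u23 : Bool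
  u31 : Bool
  u32 : Bool
  q2 : Bool
  q3 : Bool

/-- a row is used -/
def nz (a b c : ℕ) : Bool := cond (Nat.beq (Nat.add (Nat.add a b) c) (nat_lit 0)) false true

/-- the flags -/
def fgF (L : Lf) (σ : St) : Fg :=
  ⟨isB σ.s1, isB σ.s2, isB σ.s3, uF σ.s2 σ.n1 σ.x.A1, uF σ.s3 σ.n2 σ.x.B1, uF σ.s1 σ.n1 σ.x.A1,
    uF σ.s3 σ.n3 σ.x.C1, uF σ.s1 σ.n2 σ.x.B1, uF σ.s2 σ.n3 σ.x.C1, nz L.w7 L.wA L.c2, nz L.w8 L.wA L.c3⟩

/-- forced flags -/
def frG (g : Fg) (k : Fg → Bool) : Bool :=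
  fB g.b1 fun b1 => fB g.b2 fun b2 => fB g.b3 fun b3 => fB g.u12 fun u12 => fB g.u13 fun u13 =>
  fB g.u21 fun u21 => fB g.u23 fun u23 => fB g.u31 fun u31 => fB g.u32 fun u32 => fB g.q2 fun q2 =>
  fB g.q3 fun q3 => k ⟨b1, b2, b3, u12, u13, u21, u23, u31, u32, q2, q3⟩

lemma frG_eq (g : Fg) (k : Fg → Bool) : frG g k = k g := by
  unfold frG
  simp only [fB_eq]

/-- implication -/
def imB (a b : Bool) : Bool := cond a b true

lemma imB_sound {a b : Bool} (h : imB a b = true) (ha : a = true) : b = true := by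
  subst ha
  exact h

/-- the integer part of the rows -/
noncomputable def rowsC (L : Lf) (x : Bx) (g : Fg) (sm : ℕ) : Bool :=
  cond (rwC L.r1 g.b1 sm x.H0 x.H1 x.A0 x.A1 x.B0 x.B1) (cond (opC L.w3 L.Sl sm x.H0 x.H1 L.r1 L.cells)
    (cond (imB g.q2 (cond (rwC L.r2 g.b2 sm x.T0 x.T1 x.A0 x.A1 x.C0 x.C1)
      (cond (omC (Nat.add L.w7 L.wA) L.r2.kn.ks L.r2.Op) (nilC L.r2.Om) false) false))
      (imB g.q3 (cond (rwC L.r3 g.b3 sm x.S0 x.S1 x.B0 x.B1 x.C0 x.C1)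
        (cond (omC (Nat.add L.w8 L.wA) L.r3.kn.ks L.r3.Op) (nilC L.r3.Om) false) false)) false) false) false

/-- the tables of the last inequality -/
noncomputable def tabs (L : Lf) (x : Bx) (g : Fg) (rhs s : ℕ) (Li : List ℕ) : Bool :=
  frc (cAn L.k.L) fun ka => frc (cBn L.k.L) fun kb => frc (tc0 L.k.um) fun k0 => frc (tc1 L.k.um) fun k1 =>
  frc (cAn L.l.L) fun la => frc (cBn L.l.L) fun lb => frc (tc0 L.l.um) fun l0 => frc (tc1 L.l.um) fun l1 =>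
  frc (cAn L.L7) fun a7 => frc (cBn L.L7) fun b7 => frc (cAn L.L8) fun a8 => frc (cBn L.L8) fun b8 =>
  tab3 (fun a b c => pcm L.w3 L.w7 ka kb k0 k1 L.k.gb L.k.kf L.k.mf L.X2 s L.l1 (gt L.k.V (ix a b c))
    (cv x.H0 x.H1 a) (cv x.T0 x.T1 b) (cv x.A0 x.A1 c)) fun t1 =>
  tab3 (fun a b c => pcm L.w3 L.w8 la lb l0 l1 L.l.gb L.l.kf L.l.mf L.X3 s L.l2 (gt L.l.V (ix a b c))
    (cv x.H0 x.H1 a) (cv x.S0 x.S1 b) (cv x.B0 x.B1 c)) fun t2 =>
  tab3 (fun a b c => lnF L.l3 (cv x.T0 x.T1 a) (cv x.S0 x.S1 b) (cv x.C0 x.C1 c)) fun t3 =>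
  tab3 (fun a b c => lnF L.l4 (cv x.A0 x.A1 a) (cv x.B0 x.B1 b) (cv x.C0 x.C1 c)) fun t4 =>
  tab3 (fun a b c => Nat.mul (nat_lit 200000) (gt L.r1.R (ix a b c))) fun t5 =>
  tab3 (fun a b c => rwF L.w8 a8 b8 (cond g.q2 L.r2.R []) (ix a b c) (cv x.T0 x.T1 a) (cv x.A0 x.A1 b)
    (cv x.C0 x.C1 c)) fun t6 =>
  tab3 (fun a b c => rwF L.w7 a7 b7 (cond g.q3 L.r3.R []) (ix a b c) (cv x.S0 x.S1 a) (cv x.B0 x.B1 b)
    (cv x.C0 x.C1 c)) fun t7 =>
  all6 L.wA rhs x Li t1 t2 t3 t4 t5 t6 t7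

/-- the thresholds and the last inequality -/
noncomputable def finC (L : Lf) (x : Bx) (g : Fg) (Li Ml Φl K1 K2 K3 : List ℕ) : Bool :=
  cond (cond g.b1 true (thrC K1 Ml L.r1.d)) (cond (cond g.q2 (cond g.b2 true (thrC K2 Ml L.r2.d)) true)
    (cond (cond g.q3 (cond g.b3 true (thrC K3 Ml L.r3.d)) true)
      (frc (Nat.add (nat_lit 160000000000000000) (Nat.div (Nat.add (e4 Φl Ml) (nat_lit 3)) (nat_lit 4))) fun m =>
        frc (Nat.add (Nat.mul (nat_lit 5) offs) (Nat.mul (Nat.mul (nat_lit 800000) L.w3) L.ps)) fun p =>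
          cond (Nat.ble m p) (frc (Nat.sub p m) fun rhs => frc (Nat.add (Nat.add L.X1 L.X2) L.X3) fun s =>
            tabs L x g rhs s Li) false) false) false) false

/-- everything after the flags -/
noncomputable def leafG (E : ET) (L : Lf) (x : Bx) (g : Fg) : Bool :=
  cond (imB L.k.gb g.b2) (cond (imB L.l.gb g.b3) (cond (spC L x)
    (tab4 (fF E x) fun Fl => cond (allP Fl) (frc (mnF x.S1 x.R1) fun sm => cond (rowsC L x g sm)
      (frc (Nat.add (Nat.mul (nat_lit 8) (Nat.add (Nat.add L.r1.P L.r2.P) L.r3.P)) (Nat.mul (nat_lit 25) L.Sl)) fun Pt =>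
      rowI L.w3 L.lam L.c1 L.c2 L.c3 Pt L.o1 L.o2 (cond g.b1 false true) (cond g.q2 (cond g.b2 false true) false)
        (cond g.q3 (cond g.b3 false true) false) g.u12 g.u13 g.u21 g.u23 g.u31 g.u32 x Fl
        fun Li Ml Φl K1 K2 K3 => finC L x g Li Ml Φl K1 K2 K3) false) false) false) false) false

/-- THE CHECK of a leaf, without the tables of the rows -/
noncomputable def leafM (E : ET) (L : Lf) (σ : St) : Bool :=
  cond σ.x.ok (cond (Nat.beq (Nat.add (Nat.add (Nat.add L.w3 L.w7) L.w8) L.wA) (nat_lit 1000))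
    (frG (fgF L σ) fun g => leafG E L σ.x g) false) false

/-! ### soundness of the parts -/

lemma tabs_sound {L : Lf} {x : Bx} (hx : x.Ok) {g : Fg} {rhs s : ℕ} {Li : List ℕ} (hs : s = L.X1 + L.X2 + L.X3)
    (hs1 : 1 ≤ L.X1 + L.X2 + L.X3)
    (hk : L.w3 * L.X2 ≠ 0 → ∀ a b c, 1000123 ≤ L.k.V.getD (ix a b c) 0)
    (hl : L.w3 * L.X3 ≠ 0 → ∀ a b c, 1000123 ≤ L.l.V.getD (ix a b c) 0)
    (h : tabs L x g rhs s Li = true) :
    ∃ a1 a2 a3 a4 b1 b2 b3, TabOK x L.w3 L.w7 L.w8 (spL L) L.l1 L.l2 L.l3 L.l4 (vF L.k.V) (vF L.l.V)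
      L.r1.R (cond g.q2 L.r2.R []) (cond g.q3 L.r3.R []) a1 a2 a3 a4 b1 b2 b3 ∧
      CmpOK x L.wA rhs Li a1 a2 a3 a4 b1 b2 b3 := by
  unfold tabs at h
  simp only [frc_eq] at h
  obtain ⟨a1, h, h1⟩ := tab3_sound h
  obtain ⟨a2, h, h2⟩ := tab3_sound h
  obtain ⟨a3, h, h3⟩ := tab3_sound h
  obtain ⟨a4, h, h4⟩ := tab3_sound h
  obtain ⟨b1, h, h5⟩ := tab3_sound h
  obtain ⟨b2, h, h6⟩ := tab3_sound h
  obtain ⟨b3, h, h7⟩ := tab3_sound h
  have hs' : 0 < s := by omega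
  refine ⟨a1, a2, a3, a4, b1, b2, b3, ⟨?_, ?_, ?_, ?_, ?_, ?_, ?_⟩, ?_⟩
  · intro a b c
    rw [h1, gt_eq, en_eq, en_eq, en_eq]
    have c0 := (cvR x.H0 x.H1 a hx.H.le).1
    have c1 := hx.H0
    have := pcm_le (spL L).k L.k.um rfl (w := L.w3) (wq := L.w7) (X := L.X2) (s := s) hs' L.l1
      (V := L.k.V.getD (ix a b c) 0) (H := cv x.H0 x.H1 a) (A := cv x.T0 x.T1 b) (B := cv x.A0 x.A1 c)
      (by omega) (fun hne => hk hne a b c)
    rw [hs] at this ⊢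
    exact this
  · intro a b c
    rw [h2, gt_eq, en_eq, en_eq, en_eq]
    have c0 := (cvR x.H0 x.H1 a hx.H.le).1
    have c1 := hx.H0
    have := pcm_le (spL L).l L.l.um rfl (w := L.w3) (wq := L.w8) (X := L.X3) (s := s) hs' L.l2
      (V := L.l.V.getD (ix a b c) 0) (H := cv x.H0 x.H1 a) (A := cv x.S0 x.S1 b) (B := cv x.B0 x.B1 c)
      (by omega) (fun hne => hl hne a b c)
    rw [hs] at this ⊢
    exact this
  · intro a b c
    rw [h3, en_eq, en_eq, en_eq]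
    exact lnF_le _ _ _ _
  · intro a b c
    rw [h4, en_eq, en_eq, en_eq]
    exact lnF_le _ _ _ _
  · intro a b c
    rw [h5, gt_eq]
    generalize L.r1.R.getD (ix a b c) 0 = r
    have e : Nat.mul 200000 r = 200000 * r := rfl
    rw [e]
    push_cast
    linarith
  · intro a b c
    rw [h6, en_eq, en_eq, en_eq]
    unfold rwF
    rw [gt_eq]
    generalize (cond g.q2 L.r2.R []).getD (ix a b c) 0 = r
    have e1 : (spL L).L8 = L.L8 := rfl
    rw [e1, L32_eq]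
    generalize L32 (cAn L.L8) (cBn L.L8) (cv x.T0 x.T1 a) (cv x.A0 x.A1 b) (cv x.C0 x.C1 c) = l
    have e : Nat.add (Nat.mul 200000 r) (Nat.mul 25000 (Nat.mul L.w8 l)) = 200000 * r + 25000 * (L.w8 * l) := rfl
    rw [e]
    push_cast
    refine le_of_eq ?_
    ring
  · intro a b c
    rw [h7, en_eq, en_eq, en_eq]
    unfold rwF
    rw [gt_eq]
    generalize (cond g.q3 L.r3.R []).getD (ix a b c) 0 = r
    have e1 : (spL L).L7 = L.L7 := rfl
    rw [e1, L32_eq]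
    generalize L32 (cAn L.L7) (cBn L.L7) (cv x.S0 x.S1 a) (cv x.B0 x.B1 b) (cv x.C0 x.C1 c) = l
    have e : Nat.add (Nat.mul 200000 r) (Nat.mul 25000 (Nat.mul L.w7 l)) = 200000 * r + 25000 * (L.w7 * l) := rfl
    rw [e]
    push_cast
    refine le_of_eq ?_
    ring
  · intro e0 e1 e2 e3 e4 e5
    exact all6_sound h e0 e1 e2 e3 e4 e5

lemma finC_sound {L : Lf} {x : Bx} {g : Fg} {Li Ml Φl K1 K2 K3 : List ℕ} (h : finC L x g Li Ml Φl K1 K2 K3 = true) :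
    (g.b1 = false → thrC K1 Ml L.r1.d = true) ∧ (g.q2 = true → g.b2 = false → thrC K2 Ml L.r2.d = true) ∧
    (g.q3 = true → g.b3 = false → thrC K3 Ml L.r3.d = true) ∧ ∃ rhs : ℕ, tabs L x g rhs (L.X1 + L.X2 + L.X3) Li = true ∧
      (rhs : ℝ) + 16 * 10 ^ 16 + (e4 Φl Ml : ℕ) / 4 ≤ 5 * (offs : ℕ) + 800000 * L.w3 * L.ps := by
  unfold finC at h
  obtain ⟨h1, h⟩ := cond_eq_true h
  obtain ⟨h2, h⟩ := cond_eq_true h
  obtain ⟨h3, h⟩ := cond_eq_true h
  rw [frc_eq, frc_eq] at h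
  obtain ⟨h4, h⟩ := cond_eq_true h
  rw [frc_eq, frc_eq] at h
  refine ⟨fun hb => ?_, fun hq hb => ?_, fun hq hb => ?_, _, h, ?_⟩
  · rw [hb] at h1
    exact h1
  · rw [hq, hb] at h2
    exact h2
  · rw [hq, hb] at h3
    exact h3
  · have h5 := Nat.le_of_ble_eq_true h4
    have h6 := div_c4 (e4 Φl Ml)
    clear h h1 h2 h3 h4
    have e0 : Nat.div (Nat.add (e4 Φl Ml) 3) 4 = (e4 Φl Ml + 3) / 4 := rfl
    rw [e0] at h5 ⊢
    generalize e4 Φl Ml = f at h5 h6 ⊢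
    generalize (f + 3) / 4 = q at h5 h6 ⊢
    generalize offs = o at h5 ⊢
    generalize hp : Nat.add (Nat.mul 5 o) (Nat.mul (Nat.mul 800000 L.w3) L.ps) = p at h5 ⊢
    generalize hm : Nat.add 160000000000000000 q = m at h5 ⊢
    have hp' : 5 * o + 800000 * L.w3 * L.ps = p := hp
    have hm' : 160000000000000000 + q = m := hm
    have hp2 : 5 * (o : ℝ) + 800000 * L.w3 * L.ps = p := by exact_mod_cast hp'
    have hm2 : 160000000000000000 + (q : ℝ) = m := by exact_mod_cast hm'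
    have e : Nat.sub p m = p - m := rfl
    rw [e, Nat.cast_sub h5]
    clear hp hm hp' hm' h5 e e0
    push_cast at h6
    linarith

/-! ### the payers -/

/-- the factor of a payer at the corners, from the table -/
lemma k_ok {c : ℕ} {q b : Bool} {K Φl : List ℕ} {f : (Fin 7 → Bool) → ℝ} (hq : q = false → c = 0)
    (h1 : cond q (cond b false true) false = true → ∀ e : Fin 7 → Bool, f e ≤ at4 K e / 100000)
    (h2 : ∀ e : Fin 7 → Bool, c * at4 K e ≤ at4 Φl e) (hb : b = false) (e : Fin 7 → Bool) :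
    (c : ℝ) / 1000 * f e ≤ at4 Φl e / 100000000 := by
  cases q with
  | false =>
    rw [hq rfl, Nat.cast_zero, zero_div, zero_mul]
    have : 0 ≤ at4 Φl e := by
      unfold at4
      positivity
    positivity
  | true =>
    have h3 := h1 (by rw [hb]; rfl) e
    have h4 := h2 e
    have h5 := mul_le_mul_of_nonneg_left h3 (show (0 : ℝ) ≤ (c : ℝ) / 1000 by positivity)
    refine h5.trans ?_
    have : (c : ℝ) / 1000 * (at4 K e / 100000) = (c * at4 K e) / 100000000 := by ring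
    rw [this]
    linarith

lemma nz_false {a b c : ℕ} (h : nz a b c = false) : a = 0 ∧ b = 0 ∧ c = 0 := by
  unfold nz at h
  cases hb : Nat.beq (Nat.add (Nat.add a b) c) (nat_lit 0) with
  | false => rw [hb] at h; exact absurd h (by simp)
  | true =>
    have h1 : a + b + c = 0 := Nat.eq_of_beq_eq_true hb
    omega

end C1
end Pool.Agent.Lib.MP_6947cd_al
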