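import Pool.Agent.Lib.MP_6947cd_al.C.LeafD
import Pool.Agent.Lib.MP_6947cd_al.C.Tree

/-!
Problem MP_6947cd_al (Chollet).  CASE C: the check of a leaf (everything but the tables of the rows).
-/

set_option autoImplicit false
open Finset

namespace Pool.Agent.Lib.MP_6947cd_al
namespace C1

open Ent Ent.Pk Fr Fr.WT CC B1 B2 PkA

/-! ### the row `i` from the table -/

noncomputable def fF (E : ET) (x : Bx) (a b c d : Bool) : ℕ :=
  lk E (ky (cv x.H0 x.H1 a) (cv x.T0 x.T1 b) (cv x.S0 x.S1 c) (cv x.R0 x.R1 d))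

noncomputable def allP (l : List ℕ) : Bool :=
  allB fun a => allB fun b => allB fun c => allB fun d => Nat.ble (nat_lit 1) (gt l (i4 a b c d))

lemma allP_sound {l : List ℕ} (h : allP l = true) (a b c d : Bool) : 1 ≤ l.getD (i4 a b c d) 0 := by
  have h1 := allB_sound (allB_sound (allB_sound (allB_sound h a) b) c) d
  rw [gt_eq] at h1
  exact Nat.le_of_ble_eq_true h1

lemma flOk_of {E : ET} (hE : EnvOK 400 0 E) {x : Bx} (hx : x.Ok) {Fl : List ℕ}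
    (h : ∀ a b c d, Fl.getD (i4 a b c d) 0 = fF E x a b c d) (hp : allP Fl = true) : FlOk x Fl := by
  intro a b c d
  have h1 := allP_sound hp a b c d
  rw [h] at h1 ⊢
  have t := (cvR x.T0 x.T1 b hx.T.le).2
  have s := (cvR x.S0 x.S1 c hx.S.le).2
  have r := (cvR x.R0 x.R1 d hx.R.le).2
  have t1 := hx.T1
  have s1 := hx.S1
  have r1 := hx.R1
  have := lk_ok (m := 400) hE (H := cv x.H0 x.H1 a) (T := cv x.T0 x.T1 b) (S := cv x.S0 x.S1 c) (R := cv x.R0 x.R1 d)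
    (by omega) (by omega) (by omega) (by
      intro h0
      unfold fF at h1
      rw [h0] at h1
      omega)
  rw [en_eq, en_eq, en_eq, en_eq]
  exact this

/-! ### small checks -/

noncomputable def nilC (l : List ℕ) : Bool := @List.rec ℕ (fun _ => Bool) true (fun _ _ _ => false) l

lemma nilC_sound {l : List ℕ} (h : nilC l = true) : l = [] := by
  cases l with
  | nil => rfl
  | cons a l => exact absurd h (by simp [nilC])

/-- equal lengths -/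
noncomputable def lenC : List ℕ → List ℕ → Bool :=
  @List.rec ℕ (fun _ => List ℕ → Bool) (fun l => nilC l)
    (fun _ _ ih l => @List.rec ℕ (fun _ => Bool) false (fun _ l' _ => ih l') l)

lemma lenC_sound (ks : List ℕ) : ∀ l, lenC ks l = true → l.length = ks.length := by
  induction ks with
  | nil => intro l h; rw [nilC_sound h]
  | cons k ks ih =>
    intro l h
    cases l with
    | nil => exact absurd h (by simp [lenC])
    | cons a l =>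
      have e : lenC (k :: ks) (a :: l) = lenC ks l := rfl
      rw [e] at h
      rw [List.length_cons, List.length_cons, ih l h]

lemma nF_th {ks Vs : List ℕ} (h : Vs.length = ks.length) (u : ℝ) :
    nF 40000000000 ks Vs u = nF 40000000 ks Vs u / 1000 := by
  unfold nF
  have := ipl_lin2 (1 / 1000) 0 (kR ks) (Vs.map fun v : ℕ => (v : ℝ) / 40000000)
    (Vs.map fun v : ℕ => (v : ℝ) / 40000000) 0 0 0 u (by rw [List.length_map, kR_length, h])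
    (by rw [List.length_map, kR_length, h])
  have e : List.zipWith (fun v w : ℝ => 1 / 1000 * v + 0 * w) (Vs.map fun v : ℕ => (v : ℝ) / 40000000)
      (Vs.map fun v : ℕ => (v : ℝ) / 40000000) = Vs.map fun v : ℕ => (v : ℝ) / 40000000000 := by
    clear this h
    induction Vs with
    | nil => rfl
    | cons v Vs ih =>
      rw [List.map_cons, List.map_cons, List.zipWith_cons_cons, ih]
      congr 1
      ring
  rw [e, mul_zero, mul_zero, add_zero, zero_mul, add_zero] at this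
  rw [this]
  ring

lemma geo_of {h x y c u : ℝ} (g : PGeo h (Real.sqrt (1 - h)) x y c u) (h0 : 0 ≤ h) (h1 : h ≤ 1) (hx : 0 ≤ x)
    (hy : 0 ≤ y) (hy1 : y ≤ 1) (hu : 0 ≤ u) : PQ.Geo h x y c u :=
  ⟨h0, h1, hx, hy, hy1, hu, g.1, g.2.1, by rw [g.2.2]; ring⟩

/-! ### the rows `k`, `l` -/

/-- a row which may be absent (`q = false`) -/
theorem row_v (hS2 : SpecS2) (hS1 : SpecS1) (hS7 : SpecR7) (q : Bool) {r : Rw} {A β : ℕ} {bad : Bool}
    {sm X0 X1 Y0 Y1 Z0 Z1 R1 : ℕ} (hq : q = false → A = 0 ∧ β = 0)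
    (hc : q = true → rwC r bad sm X0 X1 Y0 Y1 Z0 Z1 = true ∧ omC A r.kn.ks r.Op = true ∧ r.Om = [])
    (ok : q = true → RwOK r A β bad X0 X1 Y0 Y1 Z0 Z1 R1)
    (hX0 : 120 ≤ X0) (hX : X0 < X1) (hX1 : X1 ≤ 400) (hY : Y0 < Y1) (hY1 : Y1 ≤ 400) (hZ : Z0 < Z1) (hZ1 : Z1 ≤ 400)
    {a y z G : ℝ} {M : Multiset (ℝ × ℝ)} {Mi : Multiset ℝ}
    (ha : (X0 : ℝ) / 400 ≤ a ∧ a ≤ (X1 : ℝ) / 400) (hy : (Y0 : ℝ) / 400 ≤ y ∧ y ≤ (Y1 : ℝ) / 400)
    (hz : (Z0 : ℝ) / 400 ≤ z ∧ z ≤ (Z1 : ℝ) / 400)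
    (hv : Val G (a ::ₘ y ::ₘ z ::ₘ sn M)) (hP : Prs a Mi M) (hMi : ∀ x ∈ Mi, 0 ≤ x ∧ x ≤ (sm : ℝ) / 400)
    (hRs : Mi.sum ≤ (R1 : ℝ) / 400)
    (hbad : bad = true → 0 < Df G (a ::ₘ y ::ₘ z ::ₘ sn M))
    (hd : q = true → -((r.d : ℝ) / 10 ^ 7) < Df G (a ::ₘ y ::ₘ z ::ₘ sn M)) :
    ∃ (ks : List ℝ) (φ : ℝ → ℝ), RowD ks φ (A / 1000) (β / 1000) a y z G M
      ((X0 : ℝ) / 400) ((X1 : ℝ) / 400) ((Y0 : ℝ) / 400) ((Y1 : ℝ) / 400) ((Z0 : ℝ) / 400) ((Z1 : ℝ) / 400)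
      (fun ba bb bc => (((cond q r.R []).getD (ix ba bb bc) 0 : ℕ) : ℝ) / 40000000000) ∧
    ∀ w ∈ M, ((A : ℝ) / 1000) * omg w.2 ≤ φ w.2 + (r.P : ℝ) / 3125000 * w.1 := by
  cases q with
  | true =>
    obtain ⟨c1, c2, c3⟩ := hc rfl
    obtain ⟨lO, hO⟩ := omC_sound c2
    obtain ⟨k1, k2⟩ := row_fin hS2 hS1 hS7 c1 lO (ok rfl) hX0 hX hX1 hY hY1 hZ hZ1 ha hy hz hv hP hMi hRs hbad (hd rfl)
    refine ⟨_, _, k1, fun w hw => ?_⟩
    obtain ⟨w1, w2, w3⟩ := k2 w hw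
    have h1 := hO w.2 (hP.2 w hw).1 w2
    have lPs := knC_len (rwC_sound hS7 c1 hX hY hZ).1
    show (A : ℝ) / 1000 * omg w.2 ≤ (nF 40000000 r.kn.ks r.Op w.2 - nF 40000000 r.kn.ks (rsL r.P r.kn.Ps r.Om) w.2) / 1000
      + (r.P : ℝ) / 3125000 * w.1
    rw [c3, nF_rs0 lPs]
    have h2 := mul_le_mul_of_nonneg_left w3 (show (0 : ℝ) ≤ (r.P : ℝ) / 3125000 by positivity)
    linarith
  | false =>
    obtain ⟨hA, hβ⟩ := hq rfl
    have c4 : ∀ n : ℕ, n ≤ 400 → (n : ℝ) / 400 ≤ 1 := fun n hn => by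
      have : (n : ℝ) ≤ 400 := by exact_mod_cast hn
      linarith
    have p4 : ∀ n : ℕ, (0 : ℝ) ≤ (n : ℝ) / 400 := fun n => by positivity
    have k := row_none (G := G) hS2 hP ((p4 _).trans ha.1) (ha.2.trans (c4 _ hX1)) ((p4 _).trans hy.1) (hy.2.trans (c4 _ hY1))
      ((p4 _).trans hz.1) (hz.2.trans (c4 _ hZ1)) ((X0 : ℝ) / 400) ((X1 : ℝ) / 400) ((Y0 : ℝ) / 400)
      ((Y1 : ℝ) / 400) ((Z0 : ℝ) / 400) ((Z1 : ℝ) / 400)
    refine ⟨[1], fun _ => 0, ?_, fun w hw => ?_⟩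
    · have e : (fun ba bb bc : Bool => (((cond false r.R []).getD (ix ba bb bc) 0 : ℕ) : ℝ) / 40000000000)
          = fun _ _ _ => 0 := by
        funext ba bb bc
        simp
      rw [e, hA, hβ]
      simpa using k
    · have h1 := (fst_le hP (fun x hx => (hMi x hx).1) hw).1
      rw [hA]
      have : 0 ≤ (r.P : ℝ) / 3125000 * w.1 := mul_nonneg (by positivity) h1
      simpa using this

/-! ### the row `j` -/

/-- omitted entries of the row `j` -/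
noncomputable def opC (w3 Sl sm H0 H1 : ℕ) (r : Rw) (cells : List (ℕ × List (ℕ × ℕ × ℕ))) : Bool :=
  cond (Nat.beq w3 (nat_lit 0)) (cond (omC (nat_lit 1000) r.kn.ks r.Op) (nilC r.Om) false)
    (cond (lenC r.kn.ks r.Op) (cond (lenC r.kn.ks r.Om) (pairS w3 Sl sm H0 H1 r.kn.ks r.Op r.Om cells) false) false)

lemma opC_len {w3 Sl sm H0 H1 : ℕ} {r : Rw} {cells : List (ℕ × List (ℕ × ℕ × ℕ))}
    (h : opC w3 Sl sm H0 H1 r cells = true) : r.Op.length = r.kn.ks.length := by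
  unfold opC at h
  cases hw : Nat.beq w3 (nat_lit 0) with
  | true =>
    rw [hw, cond_true] at h
    obtain ⟨h1, -⟩ := cond_eq_true h
    exact (omC_sound h1).1
  | false =>
    rw [hw, cond_false] at h
    obtain ⟨h1, -⟩ := cond_eq_true h
    exact lenC_sound _ _ h1

/-- the omitted entries of the row `j` -/
theorem opC_sound (hLib : CB.LibIIC) {w3 Sl sm H0 H1 : ℕ} {r : Rw} {cells : List (ℕ × List (ℕ × ℕ × ℕ))}
    (hc : opC w3 Sl sm H0 H1 r cells = true) (lPs : r.kn.Ps.length = r.kn.ks.length) {h : ℝ}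
    (h0 : (H0 : ℝ) / 400 ≤ h) (h1 : h ≤ (H1 : ℝ) / 400) (hh0 : 0 ≤ h) (hh1 : h ≤ 1) {M : Multiset (ℝ × ℝ)}
    {Mi : Multiset ℝ}
    (hP : Prs h Mi M) (hMi : ∀ x ∈ Mi, 0 ≤ x ∧ x ≤ (sm : ℝ) / 400)
    (hk : ∀ w ∈ M, 0 ≤ w.1 ∧ w.2 ≤ top 0 (kR r.kn.ks) ∧ nF 12800 r.kn.ks r.kn.Ps w.2 ≤ w.1) :
    ∃ π : ℝ → ℝ → ℝ, (∀ w ∈ M, (w3 : ℝ) / 1000 * π w.1 w.2 + (1 - (w3 : ℝ) / 1000) * omg w.2
      ≤ phR r.kn.ks r.Op (rsL r.P r.kn.Ps r.Om) w.2 + ((r.P : ℝ) / 3125000 + Sl / 1000000) * w.1) ∧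
      (w3 ≠ 0 → ∀ w ∈ M, ∀ c u, 0 ≤ u → u ≤ 1 → PGeo h (Real.sqrt (1 - h)) w.1 w.2 c u →
        omg w.1 + omg w.2 - omg (min u (max w.1 w.2)) ≤ π w.1 w.2) := by
  have lO := opC_len hc
  unfold opC at hc
  cases hw : Nat.beq w3 (nat_lit 0) with
  | true =>
    have h3 : w3 = 0 := Nat.eq_of_beq_eq_true hw
    rw [hw, cond_true] at hc
    obtain ⟨c1, c2⟩ := cond_eq_true hc
    refine ⟨fun _ _ => 0, fun w hw => ?_, fun h => absurd h3 h⟩
    obtain ⟨w1, w2, w3'⟩ := hk w hw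
    have g1 := (omC_sound c1).2 w.2 (hP.2 w hw).1 w2
    rw [nilC_sound c2]
    show (w3 : ℝ) / 1000 * 0 + (1 - (w3 : ℝ) / 1000) * omg w.2 ≤ (nF 40000000 r.kn.ks r.Op w.2
      - nF 40000000 r.kn.ks (rsL r.P r.kn.Ps []) w.2) / 1000 + ((r.P : ℝ) / 3125000 + Sl / 1000000) * w.1
    rw [nF_rs0 lPs, h3]
    have g2 := mul_le_mul_of_nonneg_left w3' (show (0 : ℝ) ≤ (r.P : ℝ) / 3125000 by positivity)
    have g3 : 0 ≤ (Sl : ℝ) / 1000000 * w.1 := mul_nonneg (by positivity) w1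
    push_cast at g1 ⊢
    linarith
  | false =>
    rw [hw, cond_false] at hc
    obtain ⟨c1, hc⟩ := cond_eq_true hc
    obtain ⟨c2, c3⟩ := cond_eq_true hc
    have lM := lenC_sound _ _ c2
    have h3 : w3 ≠ 0 := fun h => by rw [h] at hw; exact absurd hw (by simp)
    have h3' : (0 : ℝ) < (w3 : ℝ) / 1000 := by
      have : (0 : ℝ) < w3 := by exact_mod_cast Nat.pos_of_ne_zero h3
      positivity
    refine ⟨fun x y => (phR r.kn.ks r.Op (rsL r.P r.kn.Ps r.Om) y + ((r.P : ℝ) / 3125000 + Sl / 1000000) * x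
      - (1 - (w3 : ℝ) / 1000) * omg y) / ((w3 : ℝ) / 1000), fun w hw => ?_, fun _ w hw c u hu0 hu1 hg => ?_⟩
    · beta_reduce
      rw [mul_div_cancel₀ _ h3'.ne']
      linarith
    · obtain ⟨w1, w2, w3'⟩ := hk w hw
      obtain ⟨y0, y1, -⟩ := hP.2 w hw
      have g := geo_of hg hh0 hh1 w1 y0 y1 hu0
      have hwM : w.1 ∈ Mi := by
        rw [← hP.1]
        exact Multiset.mem_map_of_mem _ hw
      have k := pair_priceS hLib c3 h0 h1 w1 (hMi _ hwM).2 y0 y1 w2 g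
      beta_reduce
      rw [le_div_iff₀ h3']
      have e1 : phR r.kn.ks r.Op (rsL r.P r.kn.Ps r.Om) w.2 = (nF 40000000 r.kn.ks r.Op w.2
        - nF 40000000 r.kn.ks (rsL r.P r.kn.Ps r.Om) w.2) / 1000 := rfl
      rw [nF_th lO, nF_th lM] at k
      rw [e1, nF_rs lPs lM]
      have g2 := mul_le_mul_of_nonneg_left w3' (show (0 : ℝ) ≤ (r.P : ℝ) / 3125000 by positivity)
      have e2 : (1000 - (w3 : ℝ)) / 1000 = 1 - (w3 : ℝ) / 1000 := by ring
      rw [e2] at k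
      generalize (w3 : ℝ) / 1000 = W at k ⊢
      nlinarith

/-! ### the function of the special entries -/

/-- the parameters of the function of the special entries -/
noncomputable def spL (L : Lf) : SP :=
  ⟨⟨L.k.L, L.k.gb, L.k.kf, L.k.mf, (L.k.um : ℝ) / 400⟩, ⟨L.l.L, L.l.gb, L.l.kf, L.l.mf, (L.l.um : ℝ) / 400⟩,
    (L.ps : ℝ) / 10 ^ 7, (L.X2 : ℝ) / ((L.X1 + L.X2 + L.X3 : ℕ) : ℝ), (L.X3 : ℝ) / ((L.X1 + L.X2 + L.X3 : ℕ) : ℝ),
    L.L7, L.L8, 0⟩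

/-- the conditions -/
noncomputable def spC (L : Lf) (x : Bx) : Bool :=
  cond (lvC L.k.L x.T0 x.A0) (cond (lvC L.l.L x.S0 x.B0) (cond (lvD L.L7 x.S0 x.B0 x.C0)
    (cond (lvD L.L8 x.T0 x.A0 x.C0) (cond (Nat.ble (nat_lit 1) (Nat.add (Nat.add L.X1 L.X2) L.X3))
      (cond (Nat.beq L.w3 (nat_lit 0)) true (cond (pdC L.k x.H0 x.H1 x.T0 x.T1 x.A0 x.A1)
        (cond (pdC L.l x.H0 x.H1 x.S0 x.S1 x.B0 x.B1) (cond (psC L.X1 L.X2 L.X3 L.ps)
          (cond (cond (Nat.beq L.X2 (nat_lit 0)) true (pvC L.k.V))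
            (cond (Nat.beq L.X3 (nat_lit 0)) true (pvC L.l.V)) false) false) false) false)) false)
      false) false) false) false

lemma vF_pos {V : List ℕ} (h : pvC V = true) (a b c : Bool) : 1 / 10000 ≤ vF V a b c := by
  have h1 := pvC_sound h a b c
  have h2 : (1000123 : ℝ) ≤ (V.getD (ix a b c) 0 : ℕ) := by exact_mod_cast h1
  unfold vF
  rw [le_div_iff₀ (by norm_num)]
  linarith

theorem spC_sound {L : Lf} {x : Bx} (hx : x.Ok) (h : spC L x = true) :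
    SPOK x L.w3 (spL L) (vF L.k.V) (vF L.l.V) ∧ 1 ≤ L.X1 + L.X2 + L.X3 ∧
    (L.w3 * L.X2 ≠ 0 → ∀ a b c, 1000123 ≤ L.k.V.getD (ix a b c) 0) ∧
    (L.w3 * L.X3 ≠ 0 → ∀ a b c, 1000123 ≤ L.l.V.getD (ix a b c) 0) := by
  unfold spC at h
  obtain ⟨c1, h⟩ := cond_eq_true h
  obtain ⟨c2, h⟩ := cond_eq_true h
  obtain ⟨c3, h⟩ := cond_eq_true h
  obtain ⟨c4, h⟩ := cond_eq_true h
  obtain ⟨c5, h⟩ := cond_eq_true h
  obtain ⟨a1, a2⟩ := lvC_sound c1
  obtain ⟨b1, b2⟩ := lvC_sound c2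
  obtain ⟨d1, d2⟩ := lvD_sound c3
  obtain ⟨e1, e2⟩ := lvD_sound c4
  have lt := hx.lh
  have key : L.w3 ≠ 0 → pdC L.k x.H0 x.H1 x.T0 x.T1 x.A0 x.A1 = true ∧ pdC L.l x.H0 x.H1 x.S0 x.S1 x.B0 x.B1 = true ∧
      psC L.X1 L.X2 L.X3 L.ps = true ∧ (L.X2 ≠ 0 → pvC L.k.V = true) ∧ (L.X3 ≠ 0 → pvC L.l.V = true) := by
    intro hne
    rcases cond_or h with h | h
    · exact absurd (Nat.eq_of_beq_eq_true h) hne
    · obtain ⟨c6, h⟩ := cond_eq_true h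
      obtain ⟨c7, h⟩ := cond_eq_true h
      obtain ⟨c8, h⟩ := cond_eq_true h
      obtain ⟨c9, h⟩ := cond_eq_true h
      refine ⟨c6, c7, c8, fun hn => ?_, fun hn => ?_⟩
      · rcases cond_or c9 with h | h
        · exact absurd (Nat.eq_of_beq_eq_true h) hn
        · exact h
      · rcases cond_or h with h | h
        · exact absurd (Nat.eq_of_beq_eq_true h) hn
        · exact h
  have hX : ∀ X s : ℕ, (X : ℝ) / (s : ℝ) ≠ 0 → X ≠ 0 := fun X s h h0 => h (by rw [h0]; simp)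
  have uL : ∀ (V : List ℕ) (j k : Fin 7), UOk x.lo x.hi j k (UC.fn (v8 V)) → UOk x.lo x.hi j k (vF V) := by
    intro V j k h
    rw [← v8_fn]
    exact h
  refine ⟨⟨rfl, by unfold spL; positivity, by unfold spL; positivity, fun hne => ?_, fun hne => ?_, a1, b1,
    by unfold spL; positivity, by unfold spL; positivity, a2, b2, d1, e1, d2, e2, fun hne => psC_sound (key hne).2.2.1,
    fun hne hα => vF_pos ((key hne).2.2.2.1 (hX _ _ hα)), fun hne hα => vF_pos ((key hne).2.2.2.2 (hX _ _ hα))⟩,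
    Nat.le_of_ble_eq_true c5, fun hne => pvC_sound ((key (left_ne_zero_of_mul hne)).2.2.2.1 (right_ne_zero_of_mul hne)),
    fun hne => pvC_sound ((key (left_ne_zero_of_mul hne)).2.2.2.2 (right_ne_zero_of_mul hne))⟩
  · exact uL _ _ _ (UOk_of_chk (key hne).1 lt (by decide) (by decide) rfl rfl rfl rfl rfl rfl)
  · exact uL _ _ _ (UOk_of_chk (key hne).2.1 lt (by decide) (by decide) rfl rfl rfl rfl rfl rfl)

end C1
end Pool.Agent.Lib.MP_6947cd_al
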