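import Pool.Agent.Lib.MP_6947cd_al.C.LeafM

/-!
Problem MP_6947cd_al (Chollet).  CASE C: soundness of the check of a leaf.
-/

set_option autoImplicit false
open Finset

namespace Pool.Agent.Lib.MP_6947cd_al
namespace C1

open Ent Ent.Pk Fr Fr.WT CC B1 B2 PkA

/-- THE LEAF -/
theorem leafM_sound (hR4 : SpecR4) (hS2 : SpecS2) (hS1 : SpecS1) (hS7 : SpecR7) (hLib : CB.LibIIC) {E : ET}
    (hE : EnvOK 400 0 E) {L : Lf} {σ : St} (hc : leafM E L σ = true)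
    (k1 : RwOK L.r1 1000 L.c1 (isB σ.s1) σ.x.H0 σ.x.H1 σ.x.A0 σ.x.A1 σ.x.B0 σ.x.B1 σ.x.R1)
    (k2 : nz L.w7 L.wA L.c2 = true →
      RwOK L.r2 (L.w7 + L.wA) L.c2 (isB σ.s2) σ.x.T0 σ.x.T1 σ.x.A0 σ.x.A1 σ.x.C0 σ.x.C1 σ.x.R1)
    (k3 : nz L.w8 L.wA L.c3 = true →
      RwOK L.r3 (L.w8 + L.wA) L.c3 (isB σ.s3) σ.x.S0 σ.x.S1 σ.x.B0 σ.x.B1 σ.x.C0 σ.x.C1 σ.x.R1) : Dead σ := by
  unfold leafM at hc
  obtain ⟨hx, hc⟩ := cond_eq_true hc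
  obtain ⟨hw, hc⟩ := cond_eq_true hc
  rw [frG_eq] at hc
  have hx := Bx.ok_sound hx
  have hw : L.w3 + L.w7 + L.w8 + L.wA = 1000 := Nat.eq_of_beq_eq_true hw
  obtain ⟨g, hg⟩ : ∃ g, g = fgF L σ := ⟨_, rfl⟩
  rw [← hg] at hc
  unfold leafG at hc
  obtain ⟨i2, hc⟩ := cond_eq_true hc
  obtain ⟨i3, hc⟩ := cond_eq_true hc
  obtain ⟨sp, hc⟩ := cond_eq_true hc
  obtain ⟨Fl, hc, hFl⟩ := tab4_sound hc
  obtain ⟨hP, hc⟩ := cond_eq_true hc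
  rw [frc_eq] at hc
  obtain ⟨rw', hc⟩ := cond_eq_true hc
  rw [frc_eq] at hc
  have hFO := flOk_of hE hx hFl hP
  obtain ⟨Li, Ml, Φl, K1, K2, K3, hf, hM, hK1, hK2, hK3, hΦ, hI⟩ := rowI_sound hc hx hFO (by omega)
  obtain ⟨t1, t2, t3, rhs, htab, hr⟩ := finC_sound hf
  obtain ⟨spo, hs1, hvk, hvl⟩ := spC_sound hx sp
  obtain ⟨a1, a2, a3, a4, q1, q2, q3, tb, cmp⟩ := tabs_sound hx rfl hs1 hvk hvl htab
  unfold rowsC at rw'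
  obtain ⟨c1, rw'⟩ := cond_eq_true rw'
  obtain ⟨c2, rw'⟩ := cond_eq_true rw'
  obtain ⟨c3, c4⟩ := cond_eq_true rw'
  intro h t s g1 g2 g3 Mi M1 M2 M3 G0 G1 G2 G3 p1 p2 p3 ρ1 ρ2 ρ3 c i
  -- the flags
  have gb1 : g.b1 = isB σ.s1 := by rw [hg]; rfl
  have gb2 : g.b2 = isB σ.s2 := by rw [hg]; rfl
  have gb3 : g.b3 = isB σ.s3 := by rw [hg]; rfl
  have gq2 : g.q2 = nz L.w7 L.wA L.c2 := by rw [hg]; rfl
  have gq3 : g.q3 = nz L.w8 L.wA L.c3 := by rw [hg]; rfl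
  have hb1 : g.b1 = true → 0 < Df G1 (h ::ₘ g1 ::ₘ g2 ::ₘ sn M1) := fun hb =>
    i.b1 (Nat.eq_of_beq_eq_true (gb1.symm.trans hb))
  have hb2 : g.b2 = true → 0 < Df G2 (t ::ₘ g1 ::ₘ g3 ::ₘ sn M2) := fun hb =>
    i.b2 (Nat.eq_of_beq_eq_true (gb2.symm.trans hb))
  have hb3 : g.b3 = true → 0 < Df G3 (s ::ₘ g2 ::ₘ g3 ::ₘ sn M3) := fun hb =>
    i.b3 (Nat.eq_of_beq_eq_true (gb3.symm.trans hb))
  -- the box
  have bh : (σ.x.H0 : ℝ) / 400 ≤ h ∧ h ≤ (σ.x.H1 : ℝ) / 400 := i.box 0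
  have bt : (σ.x.T0 : ℝ) / 400 ≤ t ∧ t ≤ (σ.x.T1 : ℝ) / 400 := i.box 1
  have bs : (σ.x.S0 : ℝ) / 400 ≤ s ∧ s ≤ (σ.x.S1 : ℝ) / 400 := i.box 2
  have ba : (σ.x.A0 : ℝ) / 400 ≤ g1 ∧ g1 ≤ (σ.x.A1 : ℝ) / 400 := i.box 3
  have bb : (σ.x.B0 : ℝ) / 400 ≤ g2 ∧ g2 ≤ (σ.x.B1 : ℝ) / 400 := i.box 4
  have bc : (σ.x.C0 : ℝ) / 400 ≤ g3 ∧ g3 ≤ (σ.x.C1 : ℝ) / 400 := i.box 5
  have br : (σ.x.R0 : ℝ) / 400 ≤ Mi.sum ∧ Mi.sum ≤ (σ.x.R1 : ℝ) / 400 := i.box 6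
  have v12 : 0 < Df G2 (t ::ₘ g1 ::ₘ g3 ::ₘ sn M2) → 3 / 10 ≤ g1 → g.u12 = true := fun hD hg' => by
    rw [hg]; exact uF_sound i.q2 i.n1 ba.2 hD hg'
  have v13 : 0 < Df G3 (s ::ₘ g2 ::ₘ g3 ::ₘ sn M3) → 3 / 10 ≤ g2 → g.u13 = true := fun hD hg' => by
    rw [hg]; exact uF_sound i.q3 i.n2 bb.2 hD hg'
  have v21 : 0 < Df G1 (h ::ₘ g1 ::ₘ g2 ::ₘ sn M1) → 3 / 10 ≤ g1 → g.u21 = true := fun hD hg' => by
    rw [hg]; exact uF_sound i.q1 i.n1 ba.2 hD hg'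
  have v23 : 0 < Df G3 (s ::ₘ g2 ::ₘ g3 ::ₘ sn M3) → 3 / 10 ≤ g3 → g.u23 = true := fun hD hg' => by
    rw [hg]; exact uF_sound i.q3 i.n3 bc.2 hD hg'
  have v31 : 0 < Df G1 (h ::ₘ g1 ::ₘ g2 ::ₘ sn M1) → 3 / 10 ≤ g2 → g.u31 = true := fun hD hg' => by
    rw [hg]; exact uF_sound i.q1 i.n2 bb.2 hD hg'
  have v32 : 0 < Df G2 (t ::ₘ g1 ::ₘ g3 ::ₘ sn M2) → 3 / 10 ≤ g3 → g.u32 = true := fun hD hg' => by
    rw [hg]; exact uF_sound i.q2 i.n3 bc.2 hD hg'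
  -- the rests
  have hth := c.th
  have hst := c.st
  have hs0 := c.s0
  have hh1 := c.h1
  have hMi0 : 0 ≤ Mi.sum := Multiset.sum_nonneg fun e he => (c.mi e he).1
  have r400 : (σ.x.R1 : ℝ) / 400 ≤ 1 := hx.h1 6
  have hMi1 : Mi.sum ≤ 1 := br.2.trans r400
  have sg : Seg (1 : ℝ) 0 0 1 Mi := ⟨one_pos, le_rfl, by simp, by simp, hMi0, hMi1, fun e he =>
    ⟨(c.mi e he).1, (c.mi e he).2.trans (by linarith)⟩⟩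
  have ev : Mi.sum - ((0 : ℕ) : ℝ) * 1 = Mi.sum := by simp
  have hbox : Box σ.x.lo σ.x.hi (vec7 h t s g1 g2 g3 (Mi.sum - ((0 : ℕ) : ℝ) * 1)) := by
    rw [ev]; exact i.box
  have l0' : ∀ n : ℕ, 120 ≤ n → (3 : ℝ) / 10 ≤ (n : ℝ) / 400 := fun n hn => by
    have : (120 : ℝ) ≤ n := by exact_mod_cast hn
    linarith
  have hMok := M_ok hR4 c sg hx.lh σ.x.l0 hx.h1 hbox (l0' σ.x.H0 hx.H0) (by linarith)
    (Mc := fun e => at4 Ml e / 80000000) hM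
  obtain ⟨rr1, rr2, rr3⟩ := rho_ok c hMi0 g.u12 g.u13 g.u21 g.u23 g.u31 g.u32 v12 v13 v21 v23 v31 v32
  have z1 : ∀ x : ℝ, x + ((0 : ℕ) : ℝ) * 1 = x := fun x => by simp
  have d1 : -((L.r1.d : ℝ) / 10 ^ 7) < Df G1 (h ::ₘ g1 ::ₘ g2 ::ₘ sn M1) := by
    cases hb : g.b1 with
    | true =>
      have := hb1 hb
      have h2 : (0 : ℝ) ≤ (L.r1.d : ℝ) / 10 ^ 7 := by positivity
      linarith
    | false =>
      exact thr_box hx.lh σ.x.l0 hbox (m := 1) (q := 0) (by simp) 0 1 2 g.u12 g.u13 (by decide) (by decide) (by decide)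
        (lt_of_lt_of_le (by norm_num) (l0' σ.x.H0 hx.H0)) hh1 c.y1 (by rw [ev]; exact rr1.trans (le_of_eq (by rw [z1]; rfl)))
        (K := fun e => at4 K1 e / 100000) (eV4_nonneg K1 Ml) (eV4_sound K1 Ml)
        (hK1 (by rw [hb]; rfl)) hMok (thrC_sound (t1 hb))
  have d2 : g.q2 = true → -((L.r2.d : ℝ) / 10 ^ 7) < Df G2 (t ::ₘ g1 ::ₘ g3 ::ₘ sn M2) := by
    intro hq
    cases hb : g.b2 with
    | true =>
      have := hb2 hb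
      have h2 : (0 : ℝ) ≤ (L.r2.d : ℝ) / 10 ^ 7 := by positivity
      linarith
    | false =>
      exact thr_box hx.lh σ.x.l0 hbox (m := 1) (q := 0) (by simp) 1 0 2 g.u21 g.u23 (by decide) (by decide) (by decide)
        (lt_of_lt_of_le (by norm_num) (l0' σ.x.T0 hx.T0)) (hth.trans hh1) c.y2
        (by rw [ev]; exact rr2.trans (le_of_eq (by rw [z1]; rfl)))
        (K := fun e => at4 K2 e / 100000) (eV4_nonneg K2 Ml) (eV4_sound K2 Ml)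
        (hK2 (by rw [hb, hq]; rfl)) hMok (thrC_sound (t2 hq hb))
  have d3 : g.q3 = true → -((L.r3.d : ℝ) / 10 ^ 7) < Df G3 (s ::ₘ g2 ::ₘ g3 ::ₘ sn M3) := by
    intro hq
    cases hb : g.b3 with
    | true =>
      have := hb3 hb
      have h2 : (0 : ℝ) ≤ (L.r3.d : ℝ) / 10 ^ 7 := by positivity
      linarith
    | false =>
      exact thr_box hx.lh σ.x.l0 hbox (m := 1) (q := 0) (by simp) 2 0 1 g.u31 g.u32 (by decide) (by decide) (by decide)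
        (lt_of_lt_of_le (by norm_num) (l0' σ.x.S0 hx.S0)) ((hst.trans hth).trans hh1) c.y3
        (by rw [ev]; exact rr3.trans (le_of_eq (by rw [z1]; rfl)))
        (K := fun e => at4 K3 e / 100000) (eV4_nonneg K3 Ml) (eV4_sound K3 Ml)
        (hK3 (by rw [hb, hq]; rfl)) hMok (thrC_sound (t3 hq hb))
  -- the rows
  have hsm : ∀ x ∈ Mi, 0 ≤ x ∧ x ≤ ((mnF σ.x.S1 σ.x.R1 : ℕ) : ℝ) / 400 := by
    intro x hxM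
    have m1 := c.mi x hxM
    refine ⟨m1.1, ?_⟩
    rcases mnF_cases σ.x.S1 σ.x.R1 with he | he
    · rw [he]
      exact m1.2.trans bs.2
    · rw [he]
      exact (Multiset.single_le_sum (fun y hy => (c.mi y hy).1) x hxM).trans br.2
  rw [← gb1] at k1
  rw [← gb2, ← gq2] at k2
  rw [← gb3, ← gq3] at k3
  obtain ⟨w1, w1'⟩ := row_fin hS2 hS1 hS7 c1 (opC_len c2) k1 hx.H0 hx.H hx.H1 hx.A hx.A1 hx.B hx.B1 bh ba bb c.v1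
    c.m1 hsm br.2 hb1 d1
  have lP1 := knC_len (rwC_sound hS7 c1 hx.H hx.A hx.B).1
  obtain ⟨π, e1, e2⟩ := opC_sound hLib c2 lP1 bh.1 bh.2 (by linarith) hh1 c.m1 hsm w1'
  have cq2 : g.q2 = true → rwC L.r2 g.b2 (mnF σ.x.S1 σ.x.R1) σ.x.T0 σ.x.T1 σ.x.A0 σ.x.A1 σ.x.C0 σ.x.C1 = true ∧
      omC (L.w7 + L.wA) L.r2.kn.ks L.r2.Op = true ∧ L.r2.Om = [] := by
    intro hq
    obtain ⟨m1, m2⟩ := cond_eq_true (imB_sound c3 hq)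
    obtain ⟨m3, m4⟩ := cond_eq_true m2
    exact ⟨m1, m3, nilC_sound m4⟩
  have cq3 : g.q3 = true → rwC L.r3 g.b3 (mnF σ.x.S1 σ.x.R1) σ.x.S0 σ.x.S1 σ.x.B0 σ.x.B1 σ.x.C0 σ.x.C1 = true ∧
      omC (L.w8 + L.wA) L.r3.kn.ks L.r3.Op = true ∧ L.r3.Om = [] := by
    intro hq
    obtain ⟨m1, m2⟩ := cond_eq_true (imB_sound c4 hq)
    obtain ⟨m3, m4⟩ := cond_eq_true m2
    exact ⟨m1, m3, nilC_sound m4⟩
  have z2 : g.q2 = false → L.w7 + L.wA = 0 ∧ L.c2 = 0 := by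
    intro hq
    obtain ⟨y1, y2, y3⟩ := nz_false (gq2.symm.trans hq)
    exact ⟨by omega, y3⟩
  have z3 : g.q3 = false → L.w8 + L.wA = 0 ∧ L.c3 = 0 := by
    intro hq
    obtain ⟨y1, y2, y3⟩ := nz_false (gq3.symm.trans hq)
    exact ⟨by omega, y3⟩
  obtain ⟨ks2, φ2, w2, f2⟩ := row_v hS2 hS1 hS7 g.q2 z2 cq2 k2 hx.T0 hx.T hx.T1 hx.A hx.A1 hx.C hx.C1 bt ba bc c.v2
    c.m2 hsm br.2 hb2 d2
  obtain ⟨ks3, φ3, w3, f3⟩ := row_v hS2 hS1 hS7 g.q3 z3 cq3 k3 hx.S0 hx.S hx.S1 hx.B hx.B1 hx.C hx.C1 bs bb bc c.v3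
    c.m3 hsm br.2 hb3 d3
  have A1 : ((1000 : ℕ) : ℝ) / 1000 = 1 := by norm_num
  have A2 : ((L.w7 + L.wA : ℕ) : ℝ) / 1000 = (L.w7 : ℝ) / 1000 + L.wA / 1000 := by push_cast; ring
  have A3 : ((L.w8 + L.wA : ℕ) : ℝ) / 1000 = (L.w8 : ℝ) / 1000 + L.wA / 1000 := by push_cast; ring
  rw [A1] at w1
  rw [A2] at w2 f2
  rw [A3] at w3 f3
  refine leaf_fin hR4 hx c i.box hw (P1 := L.r1.P) (P2 := L.r2.P) (P3 := L.r3.P) (Sl := L.Sl) rfl w1 w2 w3 e1 f2 f3 e2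
    g.u12 g.u13 g.u21 g.u23 g.u31 g.u32 g.b1 g.b2 g.b3 v12 v13 v21 v23 v31 v32 hb1 hb2 hb3 spo
    (fun hh => imB_sound i2 hh) (fun hh => imB_sound i3 hh) rfl ⟨hM, ?_, ?_, ?_, hI⟩ tb cmp hr
  · exact k_ok (q := true) (fun h => absurd h (by simp)) hK1 (fun e => (hΦ e).1)
  · exact k_ok (fun h => (z2 h).2) hK2 (fun e => (hΦ e).2.1)
  · exact k_ok (fun h => (z3 h).2) hK3 (fun e => (hΦ e).2.2)

end C1
end Pool.Agent.Lib.MP_6947cd_al
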