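import Pool.Agent.Lib.MP_6947cd_al.L.PairLAll
import Pool.Agent.Lib.MP_6947cd_al.L.PairLCAll
import Pool.Agent.Lib.MP_6947cd_al.Z.LibD
import Pool.Agent.Lib.MP_6947cd_al.C.PairC

/-!
Problem MP_6947cd_al (Chollet).  The pair inequalities of the whole library.
-/

set_option autoImplicit false

namespace Pool.Agent.Lib.MP_6947cd_al
namespace CB

open CA

theorem libII : LibII := by
  unfold LibII
  unfold LIB
  repeat rw [List.forall_mem_cons]
  exact ⟨II_xL100_20, II_xL100_40, II_xL100_60, II_xL110_20, II_xL110_40, II_xL110_60, II_xL120_20,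
    II_xL120_40, II_xL120_60, II_xL130_20, II_xL130_40, II_xL130_60, II_xL140_20, II_xL140_40,
    II_xL140_60, II_xL150_20, II_xL150_40, II_xL150_60, II_xL160_20, II_xL160_40, II_xL160_60,
    II_xL170_20, II_xL170_40, II_xL170_60, II_xL180_20, II_xL180_40, II_xL180_60, II_xL190_20,
    II_xL190_40, II_xL190_60, fun _ h => absurd h List.not_mem_nil⟩

theorem libIIC : LibIIC := by
  unfold LibIIC
  unfold LIBC
  repeat rw [List.forall_mem_cons]
  exact ⟨II_xL100_20, II_xL100_40, II_xL100_60, II_xL110_20, II_xL110_40, II_xL110_60, II_xL120_20,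
    II_xL120_40, II_xL120_60, II_xL130_20, II_xL130_40, II_xL130_60, II_xL140_20, II_xL140_40,
    II_xL140_60, II_xL150_20, II_xL150_40, II_xL150_60, II_xL160_20, II_xL160_40, II_xL160_60,
    II_xL170_20, II_xL170_40, II_xL170_60, II_xL180_20, II_xL180_40, II_xL180_60, II_xL190_20,
    II_xL190_40, II_xL190_60, II_xC130_80, II_xC130_110, II_xC140_80, II_xC140_110, II_xC150_80,
    II_xC150_110, II_xC160_80, II_xC160_110, II_xC170_80, II_xC170_110, II_xC180_80, II_xC180_110,
    II_xC190_80, II_xC190_110, fun _ h => absurd h List.not_mem_nil⟩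

end CB
end Pool.Agent.Lib.MP_6947cd_al
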