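import Pool.Agent.Lib.MP_6947cd_al.C.Defs
import Pool.Agent.Lib.MP_6947cd_al.L.Pair2

/-!
Problem MP_6947cd_al (Chollet).  CASE C: the polynomial losses.
-/

set_option autoImplicit false
open scoped Matrix ComplexOrder
open Matrix Finset

namespace Pool.Agent.Lib.MP_6947cd_al
namespace C1

open Ent Fr

section Row
variable {κ : Type} [Fintype κ] [DecidableEq κ]

lemma lp_eq (A B q : ℝ) : lp A B q = A * q + B / 2 * q ^ 2 := rfl

/-- a property of all the levels -/
lemma lf_casesP (p : ℝ) (P : (ℝ → ℝ) → Prop)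
    (h : ∀ a A B : ℝ, 0 < a → 0 ≤ A → 0 ≤ B → TwoHyp a A B → a ≤ p → P (lp A B))
    (h0 : P omg) : P (lf p) := by
  by_cases h1 : 10 / 10 ≤ p
  · have e : lf p = lp (161 / 1000) (240 / 1000) := by funext s; unfold lf; rw [if_pos h1]
    rw [e]
    exact h _ _ _ (by norm_num) (by norm_num) (by norm_num) two10 h1
  by_cases h2 : 9 / 10 ≤ p
  · have e : lf p = lp (169 / 1000) (260 / 1000) := by funext s; unfold lf; rw [if_neg h1, if_pos h2]
    rw [e]
    exact h _ _ _ (by norm_num) (by norm_num) (by norm_num) two09 h2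
  by_cases h3 : 8 / 10 ≤ p
  · have e : lf p = lp (178 / 1000) (285 / 1000) := by
      funext s; unfold lf; rw [if_neg h1, if_neg h2, if_pos h3]
    rw [e]
    exact h _ _ _ (by norm_num) (by norm_num) (by norm_num) two08 h3
  by_cases h4 : 7 / 10 ≤ p
  · have e : lf p = lp (186 / 1000) (310 / 1000) := by
      funext s; unfold lf; rw [if_neg h1, if_neg h2, if_neg h3, if_pos h4]
    rw [e]
    exact h _ _ _ (by norm_num) (by norm_num) (by norm_num) two07 h4
  by_cases h5 : 6 / 10 ≤ p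
  · have e : lf p = lp (194 / 1000) (330 / 1000) := by
      funext s; unfold lf; rw [if_neg h1, if_neg h2, if_neg h3, if_neg h4, if_pos h5]
    rw [e]
    exact h _ _ _ (by norm_num) (by norm_num) (by norm_num) two06 h5
  by_cases h6 : 5 / 10 ≤ p
  · have e : lf p = lp (202 / 1000) (340 / 1000) := by
      funext s; unfold lf; rw [if_neg h1, if_neg h2, if_neg h3, if_neg h4, if_neg h5, if_pos h6]
    rw [e]
    exact h _ _ _ (by norm_num) (by norm_num) (by norm_num) two05 h6
  by_cases h7 : 4 / 10 ≤ p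
  · have e : lf p = lp (208 / 1000) (345 / 1000) := by
      funext s; unfold lf; rw [if_neg h1, if_neg h2, if_neg h3, if_neg h4, if_neg h5, if_neg h6, if_pos h7]
    rw [e]
    exact h _ _ _ (by norm_num) (by norm_num) (by norm_num) two04 h7
  have e : lf p = omg := by
    funext s
    unfold lf; rw [if_neg h1, if_neg h2, if_neg h3, if_neg h4, if_neg h5, if_neg h6, if_neg h7]
  rw [e]
  exact h0

/-- removing the entries of `V` in the presence of a larger entry `p` outside `V`, `F` -/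
theorem F_restL (b : κ → ℝ) (hb0 : ∀ j, 0 ≤ b j) (hb1 : ∀ j, b j ≤ 1) (k p : κ) (hkp : k ≠ p)
    (hk : b k = 1) (V : Finset κ) (hkV : k ∉ V) (hpV : p ∉ V) (hV : ∀ q ∈ V, b q ≤ b p) :
    F b ≤ F (rest b V) + ∑ q ∈ V, lf (b p) (b q) := by
  refine lf_casesP (b p) (fun f => F b ≤ F (rest b V) + ∑ q ∈ V, f (b q)) ?_ ?_
  · intro a A B ha hA hB H hap
    exact F_restV b hb0 hb1 k p hkp hk a A B ha hap hA hB H V hkV hpV hV
  · exact RF.base.rest_le b hb0 hb1 k hk V hkV

/-- the additive part and the polynomial losses: `gtr q ≤ lf p q + d`, `2 d ≤ omg p - gtr p` -/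
lemma gtr_level (p : ℝ) (hp : 0 ≤ p) : ∃ d : ℝ, 0 ≤ d ∧ gtr (3 / 20) (9 / 20) p + 2 * d ≤ omg p ∧
    ∀ q, 0 ≤ q → q ≤ 1 → gtr (3 / 20) (9 / 20) q ≤ lf p q + d := by
  have hg : ∀ q : ℝ, gtr (3 / 20) (9 / 20) q = 43 / 200 * min q (9 / 20) + 3 / 20 * (min q (9 / 20)) ^ 2 :=
    fun q => rfl
  have hgp : gtr (3 / 20) (9 / 20) p ≤ 1017 / 8000 := by
    rw [hg]
    have h1 : min p (9 / 20) ≤ 9 / 20 := min_le_right _ _
    have h2 : 0 ≤ min p (9 / 20) := le_min hp (by norm_num)
    nlinarith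
  -- one level
  have key : ∀ A B d : ℝ, 0 ≤ A → 0 ≤ B → (∀ m : ℝ, 0 ≤ m → m ≤ 9 / 20 → 43 / 200 * m + 3 / 20 * m ^ 2 ≤ A * m + B / 2 * m ^ 2 + d) →
      ∀ q, 0 ≤ q → q ≤ 1 → gtr (3 / 20) (9 / 20) q ≤ lp A B q + d := by
    intro A B d hA hB h q h0 h1
    have m0 : 0 ≤ min q (9 / 20) := le_min h0 (by norm_num)
    have m1 : min q (9 / 20) ≤ 9 / 20 := min_le_right _ _
    have m2 : min q (9 / 20) ≤ q := min_le_left _ _
    have := h _ m0 m1
    rw [hg, lp_eq]
    have h3 := mul_le_mul_of_nonneg_left m2 hA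
    have h4 : (min q (9 / 20)) ^ 2 ≤ q ^ 2 := by nlinarith
    have h5 := mul_le_mul_of_nonneg_left h4 (show 0 ≤ B / 2 by positivity)
    linarith
  by_cases h1 : 10 / 10 ≤ p
  · refine ⟨31 / 1000, by norm_num, ?_, ?_⟩
    · unfold omg; nlinarith
    · have e : lf p = lp (161 / 1000) (240 / 1000) := by funext s; unfold lf; rw [if_pos h1]
      rw [e]
      refine key _ _ _ (by norm_num) (by norm_num) fun m h0 h1 => ?_
      nlinarith
  by_cases h2 : 9 / 10 ≤ p
  · refine ⟨26 / 1000, by norm_num, ?_, ?_⟩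
    · unfold omg; nlinarith
    · have e : lf p = lp (169 / 1000) (260 / 1000) := by funext s; unfold lf; rw [if_neg h1, if_pos h2]
      rw [e]
      refine key _ _ _ (by norm_num) (by norm_num) fun m h0 h1 => ?_
      nlinarith
  by_cases h3 : 8 / 10 ≤ p
  · refine ⟨19 / 1000, by norm_num, ?_, ?_⟩
    · unfold omg; nlinarith
    · have e : lf p = lp (178 / 1000) (285 / 1000) := by
        funext s; unfold lf; rw [if_neg h1, if_neg h2, if_pos h3]
      rw [e]
      refine key _ _ _ (by norm_num) (by norm_num) fun m h0 h1 => ?_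
      nlinarith
  by_cases h4 : 7 / 10 ≤ p
  · refine ⟨13 / 1000, by norm_num, ?_, ?_⟩
    · unfold omg; nlinarith
    · have e : lf p = lp (186 / 1000) (310 / 1000) := by
        funext s; unfold lf; rw [if_neg h1, if_neg h2, if_neg h3, if_pos h4]
      rw [e]
      refine key _ _ _ (by norm_num) (by norm_num) fun m h0 h1 => ?_
      nlinarith
  by_cases h5 : 6 / 10 ≤ p
  · refine ⟨8 / 1000, by norm_num, ?_, ?_⟩
    · unfold omg; nlinarith
    · have e : lf p = lp (194 / 1000) (330 / 1000) := by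
        funext s; unfold lf; rw [if_neg h1, if_neg h2, if_neg h3, if_neg h4, if_pos h5]
      rw [e]
      refine key _ _ _ (by norm_num) (by norm_num) fun m h0 h1 => ?_
      nlinarith
  by_cases h6 : 5 / 10 ≤ p
  · refine ⟨3 / 1000, by norm_num, ?_, ?_⟩
    · unfold omg; nlinarith
    · have e : lf p = lp (202 / 1000) (340 / 1000) := by
        funext s; unfold lf; rw [if_neg h1, if_neg h2, if_neg h3, if_neg h4, if_neg h5, if_pos h6]
      rw [e]
      refine key _ _ _ (by norm_num) (by norm_num) fun m h0 h1 => ?_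
      nlinarith [sq_nonneg (m - 13 / 40)]
  by_cases h7 : 4 / 10 ≤ p
  · refine ⟨1 / 1000, by norm_num, ?_, ?_⟩
    · rw [hg]
      have h1 : min p (9 / 20) ≤ p := min_le_left _ _
      have h1' : min p (9 / 20) ≤ 9 / 20 := min_le_right _ _
      have h2 : 4 / 10 ≤ min p (9 / 20) := le_min h7 (by norm_num)
      unfold omg
      nlinarith
    · have e : lf p = lp (208 / 1000) (345 / 1000) := by
        funext s; unfold lf; rw [if_neg h1, if_neg h2, if_neg h3, if_neg h4, if_neg h5, if_neg h6, if_pos h7]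
      rw [e]
      refine key _ _ _ (by norm_num) (by norm_num) fun m h0 h1 => ?_
      nlinarith [sq_nonneg (m - 7 / 45)]
  have e : lf p = omg := by
    funext s
    unfold lf; rw [if_neg h1, if_neg h2, if_neg h3, if_neg h4, if_neg h5, if_neg h6, if_neg h7]
  refine ⟨0, le_rfl, ?_, ?_⟩
  · rw [hg]
    have h1 : min p (9 / 20) ≤ p := min_le_left _ _
    have h2 : 0 ≤ min p (9 / 20) := le_min hp (by norm_num)
    unfold omg
    nlinarith
  · intro q h0 h1
    rw [e, hg]
    have h1 : min q (9 / 20) ≤ q := min_le_left _ _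
    have h2 : 0 ≤ min q (9 / 20) := le_min h0 (by norm_num)
    unfold omg
    nlinarith

/-- THE LOSS OF UP TO THREE ENTRIES, polynomial form, `p ∈ U` being a largest one. -/
theorem GG_restP (b : κ → ℝ) (hb0 : ∀ j, 0 ≤ b j) (hb1 : ∀ j, b j ≤ 1) (k p : κ)
    (hk : b k = 1) (U : Finset κ) (hkU : k ∉ U) (hpU : p ∈ U) (hU : ∀ q ∈ U, b q ≤ b p)
    (hc : (U.erase p).card ≤ 2) :
    GG.G κ b ≤ GG.G κ (rest b U) + (omg (b p) + ∑ q ∈ U.erase p, lf (b p) (b q)) := by
  have hkp : k ≠ p := fun h => hkU (h ▸ hpU)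
  refine max_le ?_ ?_
  · have h1 := F_restL b hb0 hb1 k p hkp hk (U.erase p) (fun h => hkU (Finset.mem_of_mem_erase h))
      (Finset.notMem_erase p U) (fun q hq => hU q (Finset.mem_of_mem_erase hq))
    have r0 : ∀ j, 0 ≤ rest b (U.erase p) j := fun j => by
      unfold rest; split_ifs; exacts [le_rfl, hb0 j]
    have r1 : ∀ j, rest b (U.erase p) j ≤ 1 := fun j => by
      unfold rest; split_ifs; exacts [zero_le_one, hb1 j]
    have ek : rest b (U.erase p) k = 1 := by
      unfold rest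
      rw [if_neg (fun h => hkU (Finset.mem_of_mem_erase h)), hk]
    have h2 := RF.base.rest_le (rest b (U.erase p)) r0 r1 k ek {p} (by simpa using hkp)
    have e : rest (rest b (U.erase p)) {p} = rest b U := by
      funext j
      unfold rest
      by_cases h : j = p
      · simp [h, hpU]
      · simp [h]
    have ep : rest b (U.erase p) p = b p := by
      unfold rest
      rw [if_neg (Finset.notMem_erase p U)]
    rw [e, Finset.sum_singleton, ep] at h2
    have h3 : F (rest b U) ≤ GG.G κ (rest b U) := F_le_GG _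
    have h4 : F b ≤ GG.G κ (rest b U) + (omg (b p) + ∑ q ∈ U.erase p, lf (b p) (b q)) := by
      have h2' : F (rest b (U.erase p)) ≤ F (rest b U) + omg (b p) := h2
      linarith
    exact h4
  · set X := ∑ j, gtr (3 / 20) (9 / 20) (rest b U j) - gtr (3 / 20) (9 / 20) 1 with hX
    have h3 : phi (6 / 125) (1 / 2) X ≤ GG.G κ (rest b U) := le_max_right _ _
    have hsum : ∑ j, gtr (3 / 20) (9 / 20) (b j) = ∑ j, gtr (3 / 20) (9 / 20) (rest b U j)
        + ∑ q ∈ U, gtr (3 / 20) (9 / 20) (b q) := by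
      have e1 : ∀ j, gtr (3 / 20) (9 / 20) (b j) = gtr (3 / 20) (9 / 20) (rest b U j)
          + (if j ∈ U then gtr (3 / 20) (9 / 20) (b j) else 0) := by
        intro j
        unfold rest
        split_ifs
        · rw [gtr_zero _ _ (by norm_num), zero_add]
        · rw [add_zero]
      rw [Finset.sum_congr rfl fun j _ => e1 j, Finset.sum_add_distrib]
      congr 1
      rw [Finset.sum_ite_mem, Finset.univ_inter]
    obtain ⟨d, d0, d1, d2⟩ := gtr_level (b p) (hb0 p)
    have h5 : ∑ q ∈ U, gtr (3 / 20) (9 / 20) (b q) ≤ omg (b p) + ∑ q ∈ U.erase p, lf (b p) (b q) := by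
      rw [← Finset.add_sum_erase _ _ hpU]
      have h6 : ∑ q ∈ U.erase p, gtr (3 / 20) (9 / 20) (b q) ≤ ∑ q ∈ U.erase p, (lf (b p) (b q) + d) :=
        Finset.sum_le_sum fun q _ => d2 _ (hb0 q) (hb1 q)
      rw [Finset.sum_add_distrib, Finset.sum_const, nsmul_eq_mul] at h6
      have h7 : ((U.erase p).card : ℝ) * d ≤ 2 * d :=
        mul_le_mul_of_nonneg_right (by exact_mod_cast hc) d0
      linarith
    have hU0 : 0 ≤ ∑ q ∈ U, gtr (3 / 20) (9 / 20) (b q) := Finset.sum_nonneg fun q _ => by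
      have := (gtr_mono (3 / 20) (9 / 20) (by norm_num) (by norm_num) (by norm_num) 0 (b q) le_rfl
        (hb0 q) (hb1 q)).1
      rwa [gtr_zero _ _ (by norm_num)] at this
    have h6 := (phi_mono (6 / 125) (1 / 2) X (X + ∑ q ∈ U, gtr (3 / 20) (9 / 20) (b q)) (by linarith)).2
    have h7 : phi (6 / 125) (1 / 2) (∑ j, gtr (3 / 20) (9 / 20) (b j) - gtr (3 / 20) (9 / 20) 1)
        ≤ GG.G κ (rest b U) + (omg (b p) + ∑ q ∈ U.erase p, lf (b p) (b q)) := by
      have e : ∑ j, gtr (3 / 20) (9 / 20) (b j) - gtr (3 / 20) (9 / 20) 1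
          = X + ∑ q ∈ U, gtr (3 / 20) (9 / 20) (b q) := by rw [hsum, hX]; ring
      rw [e]
      linarith
    exact h7

/-- the loss of two entries of a BAD row, one of them being replaced -/
theorem GG_lose2F (b : κ → ℝ) (hb0 : ∀ j, 0 ≤ b j) (hb1 : ∀ j, b j ≤ 1) (i p q : κ) (hip : i ≠ p)
    (hiq : i ≠ q) (hpq : p ≠ q) (hi : b i = 1) (hqp : b q ≤ b p) (w : ℝ) (hw0 : 0 ≤ w)
    (hw : w ≤ b p) (hF : GG.G κ b = F b) :
    GG.G κ b ≤ GG.G κ (fun l => if l = p then w else if l = q then 0 else b l)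
      + (lf (b p) (b q) + omg (b p) - omg w) := by
  set b' : κ → ℝ := fun l => if l = p then w else if l = q then 0 else b l with hb'
  have h1 := F_restL b hb0 hb1 i p hip hi {q} (by simpa using hiq) (by simpa using hpq)
    (fun l hl => by rw [Finset.mem_singleton.mp hl]; exact hqp)
  rw [Finset.sum_singleton] at h1
  have r0 : ∀ j, 0 ≤ rest b {q} j := fun j => by unfold rest; split_ifs; exacts [le_rfl, hb0 j]
  have r1 : ∀ j, rest b {q} j ≤ 1 := fun j => by unfold rest; split_ifs; exacts [zero_le_one, hb1 j]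
  have h3 := RF.base.sub_le κ (rest b {q}) b'
    (fun l => by
      simp only [hb']
      split_ifs
      · exact hw0
      · exact le_rfl
      · exact hb0 _)
    (fun l => by
      simp only [hb']
      unfold rest
      split_ifs with h4 h5 h6 h7 <;> simp_all) r1 i
    (by simp only [hb']; rw [if_neg hip, if_neg hiq]; exact hi)
  have h4 : ∑ l, (omg (rest b {q} l) - omg (b' l)) = omg (b p) - omg w := by
    rw [Finset.sum_eq_single p]
    · simp [hb', rest, hpq]
    · intro l _ hl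
      by_cases h : l = q
      · simp [hb', rest, h, Ne.symm hpq]
      · simp [hb', rest, h, hl]
    · intro h; exact absurd (Finset.mem_univ p) h
  rw [h4] at h3
  have h3' : F (rest b {q}) ≤ F b' + (omg (b p) - omg w) := by
    have : RF.base.G κ (rest b {q}) ≤ RF.base.G κ b' + (omg (b p) - omg w) := by linarith
    exact this
  have h5 : F b' ≤ GG.G κ b' := F_le_GG _
  rw [hF]
  linarith

end Row

end C1
end Pool.Agent.Lib.MP_6947cd_al
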