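import Pool.Agent.Lib.MP_6947cd_al.C.NR

/-!
Problem MP_6947cd_al (Chollet).  CASE C: the merging inequality with the losses of bad and good vertices.
-/

set_option autoImplicit false
open scoped Matrix ComplexOrder
open Finset

namespace Pool.Agent.Lib.MP_6947cd_al
namespace C1

open Ent Fr Fr.LL B1 B1.DM

section
variable {n : ℕ} {A : Matrix (Fin n) (Fin n) ℂ}

lemma lm2_comm (b : Prop) [Decidable b] (s t : ℝ) : lm2 b s t = lm2 b t s := by
  unfold lm2
  rw [max_comm, min_comm]

/-- the level losses of the two definitions -/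
lemma lv_le_lf (M s : ℝ) : Fr.lv M s ≤ max (lf M s) (gtr (3 / 20) (9 / 20) s) := by
  unfold Fr.lv lf Fr.l1 lp
  split_ifs <;> first | exact le_rfl | exact le_max_left _ _

/-- the loss of the vertex `v` when `i` and `j` are merged -/
theorem lossM (hce : CEG GG A) (v i j : Fin n) (hvi : v ≠ i) (hvj : v ≠ j) (b : Prop) [Decidable b]
    (hb : b → GG.G (Fin n) (row A v) = F (row A v)) :
    ∀ p q : Fin n, ({p, q} : Finset (Fin n)) = {i, j} → p ≠ q →
      row A v q ≤ row A v p → ∀ w : ℝ, 0 ≤ w → w ≤ row A v p →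
      GG.G (Fin n) (row A v)
        ≤ GG.G (Fin n) (fun l => if l = p then w else if l = q then 0 else row A v l)
          + (lm2 b (row A i v) (row A j v) - omg w) := by
  intro p q hpq hne hqp w hw0 hwp
  have hp : p = i ∨ p = j := by
    have : p ∈ ({i, j} : Finset (Fin n)) := by rw [← hpq]; simp
    simpa using this
  have hq : q = i ∨ q = j := by
    have : q ∈ ({i, j} : Finset (Fin n)) := by rw [← hpq]; simp
    simpa using this
  have hvp : v ≠ p := by rcases hp with h | h <;> rw [h] <;> assumption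
  have hvq : v ≠ q := by rcases hq with h | h <;> rw [h] <;> assumption
  have e : lm2 b (row A i v) (row A j v) = lm2 b (row A v p) (row A v q) := by
    rw [row_symm A hce.psd i v, row_symm A hce.psd j v]
    rcases hp with h | h <;> rcases hq with h' | h'
    · exact absurd (h.trans h'.symm) hne
    · rw [h, h']
    · rw [h, h', lm2_comm]
    · exact absurd (h.trans h'.symm) hne
  rw [e]
  unfold lm2
  rw [max_eq_left hqp, min_eq_right hqp]
  by_cases h : b
  · rw [if_pos h]
    have h1 := GG_lose2F (row A v) (row_nonneg A v) (row_le_one A hce.psd hce.diag v) v p q hvp hvq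
      hne (row_diag A hce.diag v) hqp w hw0 hwp (hb h)
    linarith
  · rw [if_neg h]
    have h1 := GG_lose2 (row A v) (row_nonneg A v) (row_le_one A hce.psd hce.diag v) v p q hvp hvq
      hne (row_diag A hce.diag v) hqp w hw0 hwp
    unfold Fr.lo2 at h1
    rw [max_eq_left hqp, min_eq_right hqp] at h1
    have h2 := lv_le_lf (row A v p) (row A v q)
    linarith

/-- THE MERGING INEQUALITY, case C -/
theorem n3P (hce : CEG GG A) (i j k l : Fin n) (hij : i ≠ j) (hik : i ≠ k) (hil : i ≠ l)
    (hjk : j ≠ k) (hjl : j ≠ l) (hkl : k ≠ l) (r : ℝ) (hr : r ^ 2 = 1 - row A i j) (uk ul vk vl : ℝ)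
    (huk0 : 0 ≤ uk) (hul0 : 0 ≤ ul)
    (hk1 : 2 * (1 + row A i j) * uk
      ≤ max 0 ((2 - r) * row A i k + (2 + r) * row A j k - (1 - row A i j)))
    (hvk0 : 0 ≤ vk) (hvku : vk ≤ uk) (hk2 : vk ≤ max (row A i k) (row A j k))
    (hl1 : 2 * (1 + row A i j) * ul
      ≤ max 0 ((2 - r) * row A i l + (2 + r) * row A j l - (1 - row A i j)))
    (hvl0 : 0 ≤ vl) (hvlu : vl ≤ ul) (hl2 : vl ≤ max (row A i l) (row A j l)) (π : ℝ → ℝ → ℝ)
    (hπ : ∀ m ∈ C4 i j k l, ∀ c u, 0 ≤ u → u ≤ 1 → PGeo (row A i j) r (row A i m) (row A j m) c u →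
      omg (row A i m) + omg (row A j m) - omg (min u (max (row A i m) (row A j m)))
        ≤ π (row A i m) (row A j m))
    (bk bl : Prop) [Decidable bk] [Decidable bl]
    (hbk : bk → GG.G (Fin n) (row A k) = F (row A k))
    (hbl : bl → GG.G (Fin n) (row A l) = F (row A l)) :
    2 * Real.log (1 + row A i j) + FM (1 ::ₘ uk ::ₘ ul ::ₘ 0) + omg vk + omg vl
      < GG.G (Fin n) (row A i) + GG.G (Fin n) (row A j) + ∑ m ∈ C4 i j k l, π (row A i m) (row A j m)
        + lm2 bk (row A i k) (row A j k) + lm2 bl (row A i l) (row A j l) := by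
  have hr0 := row_nonneg A i j
  have hr1 := row_le_one A hce.psd hce.diag i j
  set x := row A i j with hx
  have hr1' : r ≤ 1 := by nlinarith
  have hr2' : -1 ≤ r := by nlinarith
  have hnorm : ‖A i j‖ = Real.sqrt x := by
    rw [hx]
    unfold row
    rw [Real.sqrt_sq (norm_nonneg _)]
  have hxx := Real.sq_sqrt hr0
  set α := Real.sqrt ((1 - r) / (2 * (1 + x))) with hα
  set β := Real.sqrt ((1 + r) / (2 * (1 + x))) with hβ
  have hα2 : α ^ 2 = (1 - r) / (2 * (1 + x)) :=
    Real.sq_sqrt (div_nonneg (by linarith) (by linarith))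
  have hβ2 : β ^ 2 = (1 + r) / (2 * (1 + x)) :=
    Real.sq_sqrt (div_nonneg (by linarith) (by linarith))
  have hP : 0 < 1 + x := by linarith
  have hαβ : α * β = Real.sqrt x / (2 * (1 + x)) := by
    have h1 : (α * β) ^ 2 = (Real.sqrt x / (2 * (1 + x))) ^ 2 := by
      rw [mul_pow, hα2, hβ2, div_mul_div_comm, div_pow, hxx]
      have : (1 - r) * (1 + r) = x := by nlinarith
      rw [this, ← pow_two]
    have h2 : 0 ≤ α * β := mul_nonneg (Real.sqrt_nonneg _) (Real.sqrt_nonneg _)
    have h3 : 0 ≤ Real.sqrt x / (2 * (1 + x)) := div_nonneg (Real.sqrt_nonneg _) (by linarith)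
    exact (pow_left_inj₀ h2 h3 two_ne_zero).mp h1
  have hlossk := lossM hce k i j hik.symm hjk.symm bk hbk
  have hlossl := lossM hce l i j hil.symm hjl.symm bl hbl
  obtain ⟨u, c, h4, h5⟩ := hce.nr3g i j hij α β
    (by rw [hα2, hβ2, ← hx]; field_simp; ring) (by rw [hαβ, hnorm])
    (fun v w => (if v = k then lm2 bk (row A i k) (row A j k) else if v = l then
      lm2 bl (row A i l) (row A j l) else omg (row A i v) + omg (row A j v)) - omg w)
    (fun v hvi hvj p q hpq hne hqp w hw0 hwp => by
      by_cases h1 : v = k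
      · rw [if_pos h1]
        subst h1
        exact hlossk p q hpq hne hqp w hw0 hwp
      · rw [if_neg h1]
        by_cases h2 : v = l
        · rw [if_pos h2]
          subst h2
          exact hlossl p q hpq hne hqp w hw0 hwp
        · rw [if_neg h2]
          have hp : p = i ∨ p = j := by
            have : p ∈ ({i, j} : Finset (Fin n)) := by rw [← hpq]; simp
            simpa using this
          have hq : q = i ∨ q = j := by
            have : q ∈ ({i, j} : Finset (Fin n)) := by rw [← hpq]; simp
            simpa using this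
          have hvp : v ≠ p := by rcases hp with h | h <;> rw [h] <;> assumption
          have hvq : v ≠ q := by rcases hq with h | h <;> rw [h] <;> assumption
          have h6 := GG_lose2 (row A v) (row_nonneg A v) (row_le_one A hce.psd hce.diag v) v p q hvp hvq
            hne (row_diag A hce.diag v) hqp w hw0 hwp
          have h7 := lo2_le_omg (row_nonneg A v p) (row_le_one A hce.psd hce.diag v p)
            (row_nonneg A v q)
          have e : omg (row A v p) + omg (row A v q) = omg (row A i v) + omg (row A j v) := by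
            rw [row_symm A hce.psd i v, row_symm A hce.psd j v]
            rcases hp with h | h <;> rcases hq with h' | h'
            · exact absurd (h.trans h'.symm) hne
            · rw [h, h']
            · rw [h, h']; ring
            · exact absurd (h.trans h'.symm) hne
          linarith)
  have hG : ∀ v, v ≠ i → v ≠ j → 0 ≤ u v ∧ u v ≤ 1 ∧ PGeo x r (row A i v) (row A j v) (c v) (u v) := by
    intro v hvi hvj
    obtain ⟨e1, e2, e3, e4, e5⟩ := h4 v hvi hvj
    refine ⟨e1, e2, e4, ?_, ?_⟩
    · rw [hnorm] at e5; exact e5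
    · rw [e3, hα2, hβ2, hαβ]
      field_simp
  have hlow : ∀ v, v ≠ i → v ≠ j → ∀ U, 2 * (1 + x) * U
      ≤ max 0 ((2 - r) * row A i v + (2 + r) * row A j v - (1 - x)) → U ≤ u v := by
    intro v hvi hvj U hU
    obtain ⟨e3, _, _, e1, e2⟩ := hG v hvi hvj
    have h6 : 2 * (1 + x) * U ≤ 2 * (1 + x) * u v := by
      refine hU.trans (max_le (mul_nonneg (by linarith) e3) ?_)
      rw [e2]; linarith
    exact le_of_mul_le_mul_left h6 (by linarith)
  have huk := hlow k hik.symm hjk.symm uk hk1
  have hul := hlow l hil.symm hjl.symm ul hl1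
  -- the merged row
  have hv : FM (1 ::ₘ uk ::ₘ ul ::ₘ 0) ≤ GG.G (Fin n) (CEG.vrow i j u) := by
    refine le_trans ?_ (F_le_GG _)
    rw [F_eq_FM, map_row4 i j k l hij hik hil hjk hjl hkl]
    have v1 : CEG.vrow i j u i = 1 := by unfold CEG.vrow; rw [if_pos rfl]
    have v2 : CEG.vrow i j u j = 0 := by unfold CEG.vrow; rw [if_neg hij.symm, if_pos rfl]
    have v3 : CEG.vrow i j u k = u k := by
      unfold CEG.vrow; rw [if_neg hik.symm, if_neg hjk.symm]
    have v4 : CEG.vrow i j u l = u l := by
      unfold CEG.vrow; rw [if_neg hil.symm, if_neg hjl.symm]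
    rw [v1, v2, v3, v4, Multiset.cons_swap 1 0, FM_zero_cons]
    refine B2.FM_two_ge huk0 huk hul0 hul ?_
    intro e he
    obtain ⟨m, hm, rfl⟩ := Multiset.mem_map.mp he
    obtain ⟨m1, m2, _⟩ := mem_C4.mp (show m ∈ C4 i j k l from hm)
    unfold CEG.vrow
    rw [if_neg m1, if_neg m2]
    exact (hG m m1 m2).1
  rw [sum_c2' i j k l hik hjk hil hjl hkl] at h5
  simp only [if_true, if_neg hkl.symm] at h5
  have hm1 : omg vk ≤ omg (min (u k) (max (row A i k) (row A j k))) := by
    have h6 : vk ≤ min (u k) (max (row A i k) (row A j k)) := le_min (hvku.trans huk) hk2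
    unfold omg
    nlinarith
  have hm2 : omg vl ≤ omg (min (u l) (max (row A i l) (row A j l))) := by
    have h6 : vl ≤ min (u l) (max (row A i l) (row A j l)) := le_min (hvlu.trans hul) hl2
    unfold omg
    nlinarith
  have hs : ∑ m ∈ C4 i j k l, ((if m = k then lm2 bk (row A i k) (row A j k) else if m = l then
      lm2 bl (row A i l) (row A j l) else omg (row A i m) + omg (row A j m))
        - omg (min (u m) (max (row A i m) (row A j m))))
      ≤ ∑ m ∈ C4 i j k l, π (row A i m) (row A j m) := by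
    refine Finset.sum_le_sum fun m hm => ?_
    obtain ⟨m1, m2, m3, m4⟩ := mem_C4.mp hm
    rw [if_neg m3, if_neg m4]
    obtain ⟨g0, g1, g2⟩ := hG m m1 m2
    exact hπ m hm (c m) (u m) g0 g1 g2
  linarith

end

end C1
end Pool.Agent.Lib.MP_6947cd_al
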