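import Pool.Agent.Lib.MP_6947cd_al.C.Defs
import Pool.Agent.Lib.MP_6947cd_al.T.Geo

/-!
Problem MP_6947cd_al (Chollet).  CASE C: lower bound for the permanent of order four of a correlation matrix.
-/

set_option autoImplicit false
open scoped Matrix ComplexOrder
open Matrix Finset

namespace Pool.Agent.Lib.MP_6947cd_al
namespace C1

open Ent Fr

/-- expansion of a permanent of order four -/
theorem permanent_fin_four (M : Matrix (Fin 4) (Fin 4) ℂ) :
    M.permanent = ∑ p : Fin 4, M p 0 *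
      (Matrix.of fun a b : Fin 3 => M (Equiv.swap 0 p a.succ) b.succ).permanent := by
  unfold permanent
  rw [← (Equiv.Perm.decomposeFin (n := 3)).symm.sum_comp, Fintype.sum_prod_type]
  refine Finset.sum_congr rfl fun p _ => ?_
  rw [Finset.mul_sum]
  refine Finset.sum_congr rfl fun e _ => ?_
  rw [Fin.prod_univ_succ]
  simp only [Equiv.Perm.decomposeFin_symm_apply_zero,
    Equiv.Perm.decomposeFin_symm_apply_succ, Matrix.of_apply]

/-- Fischer's inequality for a correlation matrix of order four -/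
theorem det_le_three (B : Matrix (Fin 4) (Fin 4) ℂ) (hB : B.PosSemidef) (hd : ∀ i, B i i = 1) :
    B.det.re ≤ ((B.submatrix ![0, 1, 2] ![0, 1, 2]).det).re := by
  have hT : (B.submatrix ![0, 1, 2] ![0, 1, 2]).PosSemidef := hB.submatrix _
  have hT0 := (Complex.le_def.mp hT.det_nonneg).1
  by_cases h0 : B.det = 0
  · rw [h0]
    simpa using hT0
  have hP : B.PosDef := hB.posDef_iff_det_ne_zero.mpr h0
  let e : Fin 3 ⊕ Fin 1 ≃ Fin 4 := finSumFinEquiv
  have hBe : (B.submatrix e e).PosDef := hP.submatrix e.injective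
  set T := (B.submatrix e e).toBlocks₁₁ with hTd
  set V := (B.submatrix e e).toBlocks₁₂ with hVd
  set U := (B.submatrix e e).toBlocks₂₁ with hUd
  set D := (B.submatrix e e).toBlocks₂₂ with hDd
  have hblk : B.submatrix e e = fromBlocks T V U D := (fromBlocks_toBlocks _).symm
  have hTP : T.PosDef := by
    have : T = (B.submatrix e e).submatrix Sum.inl Sum.inl := by
      ext i j; rfl
    rw [this]
    exact hBe.submatrix Sum.inl_injective
  have hUV : U = Vᴴ := by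
    ext i j
    show B (e (Sum.inr i)) (e (Sum.inl j)) = star (B (e (Sum.inl j)) (e (Sum.inr i)))
    exact herm_of B hB _ _
  have hTe : T = B.submatrix ![0, 1, 2] ![0, 1, 2] := by
    ext i j
    fin_cases i <;> fin_cases j <;> rfl
  have : Invertible T := hTP.isUnit.invertible
  have hdet : B.det = T.det * (D - U * ⅟T * V).det := by
    rw [← det_submatrix_equiv_self e B, hblk, det_fromBlocks₁₁]
  have hps : (U * ⅟T * V).PosSemidef := by
    rw [hUV, invOf_eq_nonsing_inv]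
    exact (hTP.inv.posSemidef).conjTranspose_mul_mul_same V
  have h1 : (D - U * ⅟T * V).det = 1 - (U * ⅟T * V) 0 0 := by
    rw [det_fin_one, Matrix.sub_apply]
    congr 1
    exact hd _
  have h2 : 0 ≤ (U * ⅟T * V) 0 0 := hps.diag_nonneg
  have h3 : 0 ≤ T.det := hTP.posSemidef.det_nonneg
  rw [hdet, h1, ← hTe]
  have h4 := Complex.le_def.mp h2
  have h5 := Complex.le_def.mp h3
  simp only [Complex.zero_re, Complex.zero_im] at h4 h5
  rw [Complex.mul_re, Complex.sub_re, Complex.sub_im, ← h4.2, ← h5.2]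
  simp only [Complex.one_re, Complex.one_im]
  nlinarith [h4.1, h5.1]

/-- the even permutations of order four -/
theorem per_add_det (M : Matrix (Fin 4) (Fin 4) ℂ) (hd : ∀ i, M i i = 1) :
    M.permanent + M.det = 2 * (1 + M 0 1 * M 1 0 * (M 2 3 * M 3 2) + M 0 2 * M 2 0 * (M 1 3 * M 3 1)
      + M 0 3 * M 3 0 * (M 1 2 * M 2 1)
      + (M 0 1 * M 1 2 * M 2 0 + M 0 2 * M 2 1 * M 1 0)
      + (M 0 1 * M 1 3 * M 3 0 + M 0 3 * M 3 1 * M 1 0)
      + (M 0 2 * M 2 3 * M 3 0 + M 0 3 * M 3 2 * M 2 0)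
      + (M 1 2 * M 2 3 * M 3 1 + M 1 3 * M 3 2 * M 2 1)) := by
  rw [permanent_fin_four, det_succ_column_zero]
  simp only [Fin.sum_univ_four, permanent_fin_three, det_fin_three, Matrix.of_apply, submatrix_apply]
  have s0 : ∀ a : Fin 4, Equiv.swap (0 : Fin 4) 0 a = a := by decide
  have h10 : Equiv.swap (0 : Fin 4) 1 (Fin.succ (0 : Fin 3)) = 0 := by decide
  have h11 : Equiv.swap (0 : Fin 4) 1 (Fin.succ (1 : Fin 3)) = 2 := by decide
  have h12 : Equiv.swap (0 : Fin 4) 1 (Fin.succ (2 : Fin 3)) = 3 := by decide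
  have h20 : Equiv.swap (0 : Fin 4) 2 (Fin.succ (0 : Fin 3)) = 1 := by decide
  have h21 : Equiv.swap (0 : Fin 4) 2 (Fin.succ (1 : Fin 3)) = 0 := by decide
  have h22 : Equiv.swap (0 : Fin 4) 2 (Fin.succ (2 : Fin 3)) = 3 := by decide
  have h30 : Equiv.swap (0 : Fin 4) 3 (Fin.succ (0 : Fin 3)) = 1 := by decide
  have h31 : Equiv.swap (0 : Fin 4) 3 (Fin.succ (1 : Fin 3)) = 2 := by decide
  have h32 : Equiv.swap (0 : Fin 4) 3 (Fin.succ (2 : Fin 3)) = 0 := by decide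
  have a0 : ∀ a : Fin 3, (0 : Fin 4).succAbove a = a.succ := by decide
  have a10 : (1 : Fin 4).succAbove (0 : Fin 3) = 0 := by decide
  have a11 : (1 : Fin 4).succAbove (1 : Fin 3) = 2 := by decide
  have a12 : (1 : Fin 4).succAbove (2 : Fin 3) = 3 := by decide
  have a20 : (2 : Fin 4).succAbove (0 : Fin 3) = 0 := by decide
  have a21 : (2 : Fin 4).succAbove (1 : Fin 3) = 1 := by decide
  have a22 : (2 : Fin 4).succAbove (2 : Fin 3) = 3 := by decide
  have a30 : (3 : Fin 4).succAbove (0 : Fin 3) = 0 := by decide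
  have a31 : (3 : Fin 4).succAbove (1 : Fin 3) = 1 := by decide
  have a32 : (3 : Fin 4).succAbove (2 : Fin 3) = 2 := by decide
  simp only [s0, h10, h11, h12, h20, h21, h22, h30, h31, h32, a0, a10, a11, a12, a20, a21, a22, a30, a31, a32]
  have b0 : Fin.succ (0 : Fin 3) = 1 := by decide
  have b1 : Fin.succ (1 : Fin 3) = 2 := by decide
  have b2 : Fin.succ (2 : Fin 3) = 3 := by decide
  have v0 : ((0 : Fin 4) : ℕ) = 0 := rfl
  have v1 : ((1 : Fin 4) : ℕ) = 1 := rfl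
  have v2 : ((2 : Fin 4) : ℕ) = 2 := rfl
  have v3 : ((3 : Fin 4) : ℕ) = 3 := rfl
  simp only [b0, b1, b2, v0, v1, v2, v3, hd]
  ring

/-- the permanent of order four of a correlation matrix -/
theorem per_four_ge (B : Matrix (Fin 4) (Fin 4) ℂ) (hB : B.PosSemidef) (hd : ∀ i, B i i = 1) :
    4 * (‖B 0 1‖ ^ 2 + ‖B 0 2‖ ^ 2 + ‖B 0 3‖ ^ 2 + ‖B 1 2‖ ^ 2 + ‖B 1 3‖ ^ 2 + ‖B 2 3‖ ^ 2) - 6
      + 2 * (‖B 0 1‖ ^ 2 * ‖B 2 3‖ ^ 2 + ‖B 0 2‖ ^ 2 * ‖B 1 3‖ ^ 2 + ‖B 0 3‖ ^ 2 * ‖B 1 2‖ ^ 2)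
      ≤ B.permanent.re := by
  have key := per_add_det B hd
  have hle := det_le_three B hB hd
  have t1 := tri_det B hB hd 0 1 2
  have t2 := tri_det B hB hd 0 1 3
  have t3 := tri_det B hB hd 0 2 3
  have t4 := tri_det B hB hd 1 2 3
  -- the determinant of the triple 0 1 2
  have h3 : ((B.submatrix ![0, 1, 2] ![0, 1, 2]).det).re
      = 1 - ‖B 0 1‖ ^ 2 - ‖B 0 2‖ ^ 2 - ‖B 1 2‖ ^ 2 + 2 * (B 0 1 * B 1 2 * B 2 0).re := by
    rw [det_fin_three]
    simp only [submatrix_apply, Matrix.cons_val, hd]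
    have e1 : B 1 0 = star (B 0 1) := herm_of B hB 0 1
    have e2 : B 2 1 = star (B 1 2) := herm_of B hB 1 2
    have e3 : B 0 2 = star (B 2 0) := herm_of B hB 2 0
    have n1 := mul_star_self' (B 0 1)
    have n2 := mul_star_self' (B 1 2)
    have n3 := mul_star_self' (B 2 0)
    have hnk : ‖B 0 2‖ = ‖B 2 0‖ := by rw [e3, norm_star]
    rw [hnk]
    have h2 : (1 : ℂ) * 1 * 1 - 1 * B 1 2 * B 2 1 - B 0 1 * B 1 0 * 1 + B 0 1 * B 1 2 * B 2 0
        + B 0 2 * B 1 0 * B 2 1 - B 0 2 * 1 * B 2 0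
        = 1 - ((‖B 0 1‖ ^ 2 : ℝ) : ℂ) - ((‖B 2 0‖ ^ 2 : ℝ) : ℂ) - ((‖B 1 2‖ ^ 2 : ℝ) : ℂ)
          + B 0 1 * B 1 2 * B 2 0 + star (B 0 1 * B 1 2 * B 2 0) := by
      rw [e1, e2, e3, ← n1, ← n2, ← n3, star_mul', star_mul']
      ring
    rw [h2]
    simp only [Complex.add_re, Complex.sub_re, Complex.one_re, Complex.ofReal_re, Complex.star_def,
      Complex.conj_re]
    ring
  have m : ∀ i j : Fin 4, B i j * B j i = ((‖B i j‖ ^ 2 : ℝ) : ℂ) := fun i j => by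
    rw [herm_of B hB i j, mul_star_self']
  have c : ∀ i j k : Fin 4, B i j * B j k * B k i + B i k * B k j * B j i
      = ((2 * (B i j * B j k * B k i).re : ℝ) : ℂ) := fun i j k => by
    have e1 : B j i = star (B i j) := herm_of B hB i j
    have e2 : B k j = star (B j k) := herm_of B hB j k
    have e3 : B i k = star (B k i) := herm_of B hB k i
    have e4 : B i k * B k j * B j i = (starRingEnd ℂ) (B i j * B j k * B k i) := by
      rw [e1, e2, e3, map_mul, map_mul, Complex.star_def]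
      ring
    rw [e4, Complex.add_conj]
  rw [m, m, m, m, m, m, c, c, c, c] at key
  have key2 := congrArg Complex.re key
  rw [Complex.add_re, show (2 * (1 + ((‖B 0 1‖ ^ 2 : ℝ) : ℂ) * ((‖B 2 3‖ ^ 2 : ℝ) : ℂ)
      + ((‖B 0 2‖ ^ 2 : ℝ) : ℂ) * ((‖B 1 3‖ ^ 2 : ℝ) : ℂ) + ((‖B 0 3‖ ^ 2 : ℝ) : ℂ) * ((‖B 1 2‖ ^ 2 : ℝ) : ℂ)
      + ((2 * (B 0 1 * B 1 2 * B 2 0).re : ℝ) : ℂ) + ((2 * (B 0 1 * B 1 3 * B 3 0).re : ℝ) : ℂ)
      + ((2 * (B 0 2 * B 2 3 * B 3 0).re : ℝ) : ℂ) + ((2 * (B 1 2 * B 2 3 * B 3 1).re : ℝ) : ℂ)) : ℂ)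
      = ((2 * (1 + ‖B 0 1‖ ^ 2 * ‖B 2 3‖ ^ 2 + ‖B 0 2‖ ^ 2 * ‖B 1 3‖ ^ 2 + ‖B 0 3‖ ^ 2 * ‖B 1 2‖ ^ 2
        + 2 * (B 0 1 * B 1 2 * B 2 0).re + 2 * (B 0 1 * B 1 3 * B 3 0).re
        + 2 * (B 0 2 * B 2 3 * B 3 0).re + 2 * (B 1 2 * B 2 3 * B 3 1).re) : ℝ) : ℂ) by push_cast; ring,
    Complex.ofReal_re] at key2
  rw [h3] at hle
  linarith

/-- THE PERMANENT OF ORDER FOUR. -/
theorem specS4 : SpecS4 := by
  intro n A hA hd i j k l hij hik hil hjk hjl hkl
  classical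
  set e := e4 i j k l hij hik hil hjk hjl hkl with he
  have e0 : ((e 0 : ↥({i, j, k, l} : Finset (Fin n))) : Fin n) = i := rfl
  have e1 : ((e 1 : ↥({i, j, k, l} : Finset (Fin n))) : Fin n) = j := rfl
  have e2 : ((e 2 : ↥({i, j, k, l} : Finset (Fin n))) : Fin n) = k := rfl
  have e3' : ((e 3 : ↥({i, j, k, l} : Finset (Fin n))) : Fin n) = l := rfl
  have h := per_four_ge (A.submatrix (fun a => (e a : Fin n)) (fun a => (e a : Fin n))) (hA.submatrix _)
    (fun a => hd _)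
  have hBS : (A.submatrix (fun a => (e a : Fin n)) (fun a => (e a : Fin n))).permanent.re
      = S A {i, j, k, l} := by
    unfold S
    rw [← CholB.permanent_reindex e]
    rfl
  rw [hBS] at h
  simp only [submatrix_apply, e0, e1, e2, e3', norm_sq_row] at h
  linarith

end C1
end Pool.Agent.Lib.MP_6947cd_al
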