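import Pool.Agent.Lib.MP_6947cd_al.C.Loss
import Pool.Agent.Lib.MP_6947cd_al.C.S4
import Pool.Agent.Lib.MP_6947cd_al.Z.D
import Pool.Agent.Lib.MP_6947cd_al.Z.SFun

/-!
Problem MP_6947cd_al (Chollet).  CASE C: sums over the remaining vertices, products of permanents, the inequalities
`NR_U` with the polynomial losses.
-/

set_option autoImplicit false
open scoped Matrix ComplexOrder
open Finset

namespace Pool.Agent.Lib.MP_6947cd_al
namespace C1

open Ent Fr Fr.LL B1 B1.DM

section Ms
variable {κ : Type} [Fintype κ] [DecidableEq κ]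

/-- the vertices outside `{a, b, c, d}` -/
def C4 (a b c d : κ) : Finset κ := ({a, b, c, d} : Finset κ)ᶜ

lemma mem_C4 {a b c d l : κ} : l ∈ C4 a b c d ↔ l ≠ a ∧ l ≠ b ∧ l ≠ c ∧ l ≠ d := by
  unfold C4
  simp

lemma C3_eq (a b c d : κ) (had : a ≠ d) (hbd : b ≠ d) (hcd : c ≠ d) :
    C3 a b c = insert d (C4 a b c d) := by
  ext l
  simp only [Finset.mem_insert, mem_C3, mem_C4]
  constructor
  · intro h
    by_cases h1 : l = d
    · exact Or.inl h1
    · exact Or.inr ⟨h.1, h.2.1, h.2.2, h1⟩
  · rintro (rfl | h)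
    · exact ⟨had.symm, hbd.symm, hcd.symm⟩
    · exact ⟨h.1, h.2.1, h.2.2.1⟩

lemma notMem_C4 (a b c d : κ) : d ∉ C4 a b c d := by
  rw [mem_C4]; tauto

lemma map_row4 (a b c d : κ) (hab : a ≠ b) (hac : a ≠ c) (had : a ≠ d) (hbc : b ≠ c) (hbd : b ≠ d)
    (hcd : c ≠ d) (f : κ → ℝ) : (Finset.univ : Finset κ).val.map f
      = f a ::ₘ f b ::ₘ f c ::ₘ f d ::ₘ (C4 a b c d).val.map f := by
  rw [map_row a b c hab hac hbc, C3_eq a b c d had hbd hcd,
    Finset.insert_val_of_notMem (notMem_C4 a b c d), Multiset.map_cons]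

lemma sum_row4 (a b c d : κ) (hab : a ≠ b) (hac : a ≠ c) (had : a ≠ d) (hbc : b ≠ c) (hbd : b ≠ d)
    (hcd : c ≠ d) (f : κ → ℝ) : ∑ l ∈ Finset.univ.erase a, f l
      = f b + (f c + (f d + ∑ l ∈ C4 a b c d, f l)) := by
  rw [sum_row a b c hab hac hbc, C3_eq a b c d had hbd hcd, Finset.sum_insert (notMem_C4 a b c d)]

lemma sum_c3 (a b c d : κ) (had : a ≠ d) (hbd : b ≠ d) (hcd : c ≠ d) (f : κ → ℝ) :
    ∑ l ∈ ({a, b, c} : Finset κ)ᶜ, f l = f d + ∑ l ∈ C4 a b c d, f l := by
  have h : ({a, b, c} : Finset κ)ᶜ = C3 a b c := rfl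
  rw [h, C3_eq a b c d had hbd hcd, Finset.sum_insert (notMem_C4 a b c d)]

lemma sum_c2' (a b c d : κ) (hac : a ≠ c) (hbc : b ≠ c) (had : a ≠ d) (hbd : b ≠ d)
    (hcd : c ≠ d) (f : κ → ℝ) :
    ∑ l ∈ ({a, b} : Finset κ)ᶜ, f l = f c + (f d + ∑ l ∈ C4 a b c d, f l) := by
  rw [B2.DM.sum_c2 a b c hac hbc, C3_eq a b c d had hbd hcd, Finset.sum_insert (notMem_C4 a b c d)]

end Ms

section SS
variable {n : ℕ} {A : Matrix (Fin n) (Fin n) ℂ}

/-- Lieb's inequality inside a principal submatrix -/
theorem S_mul_le (hA : A.PosSemidef) (K L : Finset (Fin n)) (hKL : Disjoint K L) :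
    S A K * S A L ≤ S A (K ∪ L) := by
  classical
  obtain ⟨U, hU⟩ : ∃ U : Finset (Fin n), U = K ∪ L := ⟨_, rfl⟩
  have hAU : (A.submatrix (fun i : U => (i : Fin n)) (fun i : U => (i : Fin n))).PosSemidef :=
    hA.submatrix _
  have h2 := Lieb.lieb (fun x : U => (x : Fin n) ∈ K)
    (A.submatrix (fun i : U => (i : Fin n)) (fun i : U => (i : Fin n))) hAU
  let e1 : K ≃ {x : U // (x : Fin n) ∈ K} :=
    { toFun := fun a => ⟨⟨a.1, by rw [hU]; exact Finset.mem_union_left _ a.2⟩, a.2⟩
      invFun := fun x => ⟨x.1.1, x.2⟩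
      left_inv := fun a => rfl
      right_inv := fun x => rfl }
  let e2 : L ≃ {x : U // ¬ (x : Fin n) ∈ K} :=
    { toFun := fun a => ⟨⟨a.1, by rw [hU]; exact Finset.mem_union_right _ a.2⟩,
        fun h => (Finset.disjoint_left.1 hKL h) a.2⟩
      invFun := fun x => ⟨x.1.1, (Finset.mem_union.1 (by rw [← hU]; exact x.1.2)).resolve_left x.2⟩
      left_inv := fun a => rfl
      right_inv := fun x => rfl }
  rw [← CholB.permanent_reindex e1, ← CholB.permanent_reindex e2] at h2
  rw [← hU]
  refine le_trans (le_of_eq ?_) (le_trans h2 (le_of_eq ?_))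
  · unfold S
    congr!
  · unfold S
    congr!

theorem S_mono (hA : A.PosSemidef) (hd : ∀ i, A i i = 1) (K U : Finset (Fin n)) (h : K ⊆ U) :
    S A K ≤ S A U := by
  have h1 := S_mul_le hA K (U \ K) Finset.disjoint_sdiff
  rw [Finset.union_sdiff_of_subset h] at h1
  have h2 := one_le_S A hA hd (U \ K)
  have h3 := one_le_S A hA hd K
  nlinarith

end SS

section NR
variable {n : ℕ} {A : Matrix (Fin n) (Fin n) ℂ}

/-- the polynomial loss at the vertex `m`, `p` the largest entry of `U` -/
theorem lossP (hce : CEG GG A) (U : Finset (Fin n)) (m p : Fin n) (hmU : m ∉ U) (hpU : p ∈ U)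
    (hU : ∀ q ∈ U, row A m q ≤ row A m p) (hc : (U.erase p).card ≤ 2) :
    GG.G (Fin n) (row A m) ≤ GG.G (Fin n) (rest (row A m) U)
      + (omg (row A m p) + ∑ q ∈ U.erase p, lf (row A m p) (row A m q)) :=
  GG_restP (row A m) (row_nonneg A m) (row_le_one A hce.psd hce.diag m) m p (row_diag A hce.diag m) U
    hmU hpU hU hc

/-- the loss of two entries -/
theorem loss2P (hce : CEG GG A) (m a b : Fin n) (hma : m ≠ a) (hmb : m ≠ b) (hab : a ≠ b) :
    GG.G (Fin n) (row A m) ≤ GG.G (Fin n) (rest (row A m) {a, b})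
      + C1.lo2 (row A m a) (row A m b) := by
  have hm : m ∉ ({a, b} : Finset (Fin n)) := by simp [hma, hmb]
  unfold C1.lo2
  rcases le_total (row A m b) (row A m a) with h | h
  · have h1 := lossP hce {a, b} m a hm (by simp) (fun q hq => by
      rcases Finset.mem_insert.mp hq with rfl | hq
      · exact le_rfl
      · rw [Finset.mem_singleton.mp hq]; exact h) (by
        have : ({a, b} : Finset (Fin n)).erase a = {b} := by
          ext x; simp only [Finset.mem_erase, Finset.mem_insert, Finset.mem_singleton]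
          constructor
          · rintro ⟨h1, h2 | h2⟩
            · exact absurd h2 h1
            · exact h2
          · rintro rfl
            exact ⟨hab.symm, Or.inr rfl⟩
        rw [this, Finset.card_singleton]; norm_num)
    have e : ({a, b} : Finset (Fin n)).erase a = {b} := by
      ext x; simp only [Finset.mem_erase, Finset.mem_insert, Finset.mem_singleton]
      constructor
      · rintro ⟨h1, h2 | h2⟩
        · exact absurd h2 h1
        · exact h2
      · rintro rfl
        exact ⟨hab.symm, Or.inr rfl⟩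
    rw [e, Finset.sum_singleton] at h1
    rw [max_eq_left h, min_eq_right h]
    linarith
  · have e : ({a, b} : Finset (Fin n)).erase b = {a} := by
      ext x; simp only [Finset.mem_erase, Finset.mem_insert, Finset.mem_singleton]
      constructor
      · rintro ⟨h1, h2 | h2⟩
        · exact h2
        · exact absurd h2 h1
      · rintro rfl
        exact ⟨hab, Or.inl rfl⟩
    have h1 := lossP hce {a, b} m b hm (by simp) (fun q hq => by
      rcases Finset.mem_insert.mp hq with rfl | hq
      · exact h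
      · rw [Finset.mem_singleton.mp hq]) (by
        rw [e, Finset.card_singleton]; norm_num)
    rw [e, Finset.sum_singleton] at h1
    rw [max_eq_right h, min_eq_left h]
    linarith

/-- the loss of three entries -/
theorem loss3P (hce : CEG GG A) (m a b c : Fin n) (hma : m ≠ a) (hmb : m ≠ b) (hmc : m ≠ c)
    (hab : a ≠ b) (hac : a ≠ c) (hbc : b ≠ c) (L : ℝ)
    (hL : LB3 (row A m a) (row A m b) (row A m c) L) :
    GG.G (Fin n) (row A m) ≤ GG.G (Fin n) (rest (row A m) {a, b, c}) + L := by
  have hm : m ∉ ({a, b, c} : Finset (Fin n)) := by simp [hma, hmb, hmc]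
  have e1 : ({a, b, c} : Finset (Fin n)).erase a = {b, c} := by
    ext x; simp only [Finset.mem_erase, Finset.mem_insert, Finset.mem_singleton]
    constructor
    · rintro ⟨h1, h2 | h2⟩
      · exact absurd h2 h1
      · exact h2
    · intro h
      refine ⟨?_, Or.inr h⟩
      rcases h with rfl | rfl
      · exact hab.symm
      · exact hac.symm
  have e2 : ({a, b, c} : Finset (Fin n)).erase b = {a, c} := by
    ext x; simp only [Finset.mem_erase, Finset.mem_insert, Finset.mem_singleton]
    constructor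
    · rintro ⟨h1, h2 | h2 | h2⟩
      · exact Or.inl h2
      · exact absurd h2 h1
      · exact Or.inr h2
    · rintro (rfl | rfl)
      · exact ⟨hab, Or.inl rfl⟩
      · exact ⟨hbc.symm, Or.inr (Or.inr rfl)⟩
  have e3 : ({a, b, c} : Finset (Fin n)).erase c = {a, b} := by
    ext x; simp only [Finset.mem_erase, Finset.mem_insert, Finset.mem_singleton]
    constructor
    · rintro ⟨h1, h2 | h2 | h2⟩
      · exact Or.inl h2
      · exact Or.inr h2
      · exact absurd h2 h1
    · rintro (rfl | rfl)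
      · exact ⟨hac, Or.inl rfl⟩
      · exact ⟨hbc, Or.inr (Or.inl rfl)⟩
  have hmem : ∀ q ∈ ({a, b, c} : Finset (Fin n)), q = a ∨ q = b ∨ q = c := by
    intro q hq
    simpa using hq
  rcases hL with ⟨h1, h2, h3⟩ | ⟨h1, h2, h3⟩ | ⟨h1, h2, h3⟩
  · have h4 := lossP hce {a, b, c} m a hm (by simp) (fun q hq => by
      rcases hmem q hq with rfl | rfl | rfl
      · exact le_rfl
      · exact h1
      · exact h2) (by rw [e1]; exact Finset.card_le_two)
    rw [e1, Finset.sum_pair hbc] at h4
    linarith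
  · have h4 := lossP hce {a, b, c} m b hm (by simp) (fun q hq => by
      rcases hmem q hq with rfl | rfl | rfl
      · exact h1
      · exact le_rfl
      · exact h2) (by rw [e2]; exact Finset.card_le_two)
    rw [e2, Finset.sum_pair hac] at h4
    linarith
  · have h4 := lossP hce {a, b, c} m c hm (by simp) (fun q hq => by
      rcases hmem q hq with rfl | rfl | rfl
      · exact h1
      · exact h2
      · exact le_rfl) (by rw [e3]; exact Finset.card_le_two)
    rw [e3, Finset.sum_pair hab] at h4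
    linarith

/-- `NR_ab` with the polynomial losses at `c`, `d` -/
theorem nr2P (hce : CEG GG A) (a b c d : Fin n) (hab : a ≠ b) (hac : a ≠ c) (had : a ≠ d)
    (hbc : b ≠ c) (hbd : b ≠ d) (hcd : c ≠ d) :
    2 * Real.log (1 + row A a b) < (GG.G (Fin n) (row A a) + ∑ l ∈ C4 a b c d, omg (row A a l))
      + (GG.G (Fin n) (row A b) + ∑ l ∈ C4 a b c d, omg (row A b l))
      + C1.lo2 (row A a c) (row A b c) + C1.lo2 (row A a d) (row A b d) := by
  have hs := fun x y => row_symm A hce.psd x y
  have h1 := hce.nr_gen {a, b} (Finset.insert_nonempty a {b})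
    (fun l => if l = c ∨ l = d then C1.lo2 (row A a l) (row A b l) else omg (row A a l) + omg (row A b l))
    (fun l hl => by
      have hl' : l ≠ a ∧ l ≠ b := by simpa using hl
      split_ifs with h
      · have h2 := loss2P hce l a b hl'.1 hl'.2 hab
        rw [hs l a, hs l b] at h2
        exact h2
      · have h2 := hce.loss {a, b} l hl
        rwa [Finset.sum_pair hab] at h2)
  rw [Finset.sum_pair hab, S_two A hce.psd hce.diag a b hab,
    sum_c2' a b c d hac hbc had hbd hcd, if_pos (Or.inl rfl), if_pos (Or.inr rfl)] at h1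
  have e : ∑ l ∈ C4 a b c d, (if l = c ∨ l = d then C1.lo2 (row A a l) (row A b l)
      else omg (row A a l) + omg (row A b l))
      = ∑ l ∈ C4 a b c d, omg (row A a l) + ∑ l ∈ C4 a b c d, omg (row A b l) := by
    rw [← Finset.sum_add_distrib]
    refine Finset.sum_congr rfl fun l hl => ?_
    have := mem_C4.mp hl
    rw [if_neg (by tauto)]
  rw [e] at h1
  linarith

/-- `NR_abc` with the polynomial loss at `d` -/
theorem nr3P (hce : CEG GG A) (a b c d : Fin n) (hab : a ≠ b) (hac : a ≠ c) (had : a ≠ d)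
    (hbc : b ≠ c) (hbd : b ≠ d) (hcd : c ≠ d) (L : ℝ)
    (hL : LB3 (row A a d) (row A b d) (row A c d) L) (hpos : 0 < row A a b + row A a c + row A b c) :
    2 * Real.log (2 * (row A a b + row A a c + row A b c))
      < (GG.G (Fin n) (row A a) + ∑ l ∈ C4 a b c d, omg (row A a l))
      + (GG.G (Fin n) (row A b) + ∑ l ∈ C4 a b c d, omg (row A b l))
      + (GG.G (Fin n) (row A c) + ∑ l ∈ C4 a b c d, omg (row A c l)) + L := by
  have hs := fun x y => row_symm A hce.psd x y
  have h1 := hce.nr_gen {a, b, c} (Finset.insert_nonempty a {b, c})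
    (fun l => if l = d then L else omg (row A a l) + (omg (row A b l) + omg (row A c l)))
    (fun l hl => by
      have hl' : l ≠ a ∧ l ≠ b ∧ l ≠ c := by simpa using hl
      split_ifs with h
      · rw [h]
        refine loss3P hce d a b c had.symm hbd.symm hcd.symm hab hac hbc L ?_
        rw [hs d a, hs d b, hs d c]
        exact hL
      · have h2 := hce.loss {a, b, c} l hl
        rwa [Finset.sum_insert (by simp [hab, hac]), Finset.sum_pair hbc] at h2)
  rw [Finset.sum_insert (by simp [hab, hac]), Finset.sum_pair hbc,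
    sum_c3 a b c d had hbd hcd, if_pos rfl] at h1
  have e : ∑ l ∈ C4 a b c d, (if l = d then L
      else omg (row A a l) + (omg (row A b l) + omg (row A c l)))
      = ∑ l ∈ C4 a b c d, omg (row A a l) + (∑ l ∈ C4 a b c d, omg (row A b l)
        + ∑ l ∈ C4 a b c d, omg (row A c l)) := by
    rw [← Finset.sum_add_distrib, ← Finset.sum_add_distrib]
    refine Finset.sum_congr rfl fun l hl => ?_
    have := mem_C4.mp hl
    rw [if_neg (by tauto)]
  rw [e] at h1
  have h2 := (S_three_ge A hce.psd hce.diag a b c hab hac hbc).1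
  have h3 : Real.log (2 * (row A a b + row A a c + row A b c)) ≤ Real.log (S A {a, b, c}) :=
    Real.log_le_log (by linarith) h2
  linarith

/-- `NR_abcd` -/
theorem nr4P (hce : CEG GG A) (a b c d : Fin n) (hab : a ≠ b) (hac : a ≠ c) (had : a ≠ d)
    (hbc : b ≠ c) (hbd : b ≠ d) (hcd : c ≠ d) (s : ℝ) (hs0 : 0 < s) (hs : s ≤ S A {a, b, c, d}) :
    2 * Real.log s
      < (GG.G (Fin n) (row A a) + ∑ l ∈ C4 a b c d, omg (row A a l))
      + (GG.G (Fin n) (row A b) + ∑ l ∈ C4 a b c d, omg (row A b l))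
      + (GG.G (Fin n) (row A c) + ∑ l ∈ C4 a b c d, omg (row A c l))
      + (GG.G (Fin n) (row A d) + ∑ l ∈ C4 a b c d, omg (row A d l)) := by
  have h1 := hce.nr {a, b, c, d} (Finset.insert_nonempty a {b, c, d})
  rw [Finset.sum_insert (by simp [hab, hac, had]), Finset.sum_insert (by simp [hbc, hbd]),
    Finset.sum_pair hcd] at h1
  change _ < GG.G (Fin n) (row A a) + ∑ l ∈ C4 a b c d, omg (row A a l)
      + (GG.G (Fin n) (row A b) + ∑ l ∈ C4 a b c d, omg (row A b l)
        + (GG.G (Fin n) (row A c) + ∑ l ∈ C4 a b c d, omg (row A c l)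
          + (GG.G (Fin n) (row A d) + ∑ l ∈ C4 a b c d, omg (row A d l)))) at h1
  have h3 : Real.log s ≤ Real.log (S A {a, b, c, d}) := Real.log_le_log hs0 hs
  linarith

end NR

end C1
end Pool.Agent.Lib.MP_6947cd_al
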