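import Pool.Agent.Lib.MP_6947cd_al.C.SFunC
import Pool.Agent.Lib.MP_6947cd_al.Y.LeafN
import Pool.Agent.Lib.MP_6947cd_al.L.Psi

/-!
Problem MP_6947cd_al (Chollet).  CASE C: arithmetic of the check of a leaf (row value, logarithms, losses, psi).
-/

set_option autoImplicit false
open Finset

namespace Pool.Agent.Lib.MP_6947cd_al
namespace C1

open Ent Ent.Pk Fr Fr.WT CC B1 PkA

/-! ### the row value -/

/-- eight times the lower bound of the row value, unit `1e-7`, at the total `tt / 400` -/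
def w8 (tt : ℕ) : ℕ :=
  frc (Nat.div tt (nat_lit 8)) fun q => frc (cond (Nat.ble q (nat_lit 369)) q (nat_lit 369)) fun k =>
    frc (Nat.sub tt (Nat.mul (nat_lit 8) k)) fun r =>
      Nat.add (Nat.mul (nat_lit 8) (yn k)) (Nat.mul r (Nat.sub (yn (Nat.succ k)) (yn k)))

theorem w8_le (tt : ℕ) (h : 120 ≤ tt) : (w8 tt : ℝ) / 80000000 ≤ Wc ((tt : ℝ) / 400) := by
  have e : w8 tt = 8 * yn (cond (Nat.ble (tt / 8) 369) (tt / 8) 369)
      + (tt - 8 * (cond (Nat.ble (tt / 8) 369) (tt / 8) 369)) * (yn ((cond (Nat.ble (tt / 8) 369) (tt / 8) 369) + 1)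
        - yn (cond (Nat.ble (tt / 8) 369) (tt / 8) 369)) := by
    unfold w8
    rw [frc_eq, frc_eq, frc_eq]
    rfl
  obtain ⟨k, hk⟩ : ∃ k, k = cond (Nat.ble (tt / 8) 369) (tt / 8) 369 := ⟨_, rfl⟩
  rw [← hk] at e
  have hk1 : 15 ≤ k ∧ k ≤ 369 ∧ 8 * k ≤ tt ∧ (k < 369 → tt < 8 * k + 8) := by
    rw [hk]
    cases hb : Nat.ble (tt / 8) 369 with
    | true =>
      have := Nat.le_of_ble_eq_true hb
      rw [cond_true]
      omega
    | false =>
      have : ¬ tt / 8 ≤ 369 := fun h' => by rw [Nat.ble_eq_true_of_le h'] at hb; exact absurd hb (by simp)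
      rw [cond_false]
      omega
  obtain ⟨k1, k2, k3, k4⟩ := hk1
  have hmono : yn k ≤ yn (k + 1) := by
    obtain ⟨i, rfl⟩ := Nat.exists_eq_add_of_le k1
    have h3 := List.all_eq_true.mp yn_mono i (List.mem_range.mpr (by omega))
    have h4 := Nat.le_of_ble_eq_true h3
    rwa [show 15 + i + 1 = 16 + i by omega]
  have e2 : (w8 tt : ℝ) / 80000000 = lineW k ((tt : ℝ) / 400) := by
    rw [e]
    unfold lineW yr
    push_cast [Nat.cast_sub hmono, Nat.cast_sub k3]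
    ring
  rw [e2]
  have hs : (k : ℝ) / 50 ≤ (tt : ℝ) / 400 := by
    have : (8 : ℝ) * k ≤ tt := by exact_mod_cast k3
    linarith
  rcases Nat.lt_or_ge k 369 with h5 | h5
  · refine line_le_Wc k k1 k2 _ hs ?_
    have : (tt : ℝ) < 8 * k + 8 := by exact_mod_cast k4 h5
    linarith
  · have h6 : k = 369 := by omega
    subst h6
    exact line_ext _ (by exact_mod_cast hs)

/-! ### logarithms -/

/-- lower bound of `10 ^ 12 * log (a / b)`, plus `10 ^ 13` -/
def lgOff (a b : ℕ) : ℕ :=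
  frc (Nat.log2 (Nat.div (Nat.mul a (nat_lit 1048576)) b)) fun sf =>
    frc (Nat.succ (Nat.div (Nat.mul (Nat.pow (nat_lit 2) (Nat.add (nat_lit 5) sf)) b) a)) fun n =>
      Nat.sub (Nat.add (Nat.mul (Nat.sub sf (nat_lit 7)) (nat_lit 693147180300)) (nat_lit 10000000000000)) (lgU n)

theorem lgOff_le (a b : ℕ) (ha : 0 < a) (hb : 0 < b) (h : b ≤ 8192 * a) :
    (lgOff a b : ℝ) ≤ 10 ^ 12 * Real.log ((a : ℝ) / b) + 10 ^ 13 := by
  have ha' : (0 : ℝ) < a := by exact_mod_cast ha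
  have hb' : (0 : ℝ) < b := by exact_mod_cast hb
  obtain ⟨A, hA⟩ : ∃ A, A = a * 1048576 / b := ⟨_, rfl⟩
  obtain ⟨sf, hsf⟩ : ∃ sf, sf = Nat.log2 A := ⟨_, rfl⟩
  obtain ⟨n, hn⟩ : ∃ n, n = 2 ^ (5 + sf) * b / a + 1 := ⟨_, rfl⟩
  have hA128 : 128 ≤ A := by
    rw [hA, Nat.le_div_iff_mul_le hb]
    calc 128 * b ≤ 128 * (8192 * a) := Nat.mul_le_mul_left _ h
      _ = a * 1048576 := by ring
  have hAne : A ≠ 0 := by omega
  have h1 : 2 ^ sf ≤ A := by rw [hsf]; exact Nat.log2_self_le hAne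
  have h2 : A < 2 ^ (sf + 1) := by rw [hsf]; exact Nat.lt_log2_self
  have hsf7 : 7 ≤ sf := by
    by_contra hc
    have h3 : 2 ^ (sf + 1) ≤ 2 ^ 7 := Nat.pow_le_pow_right (by norm_num) (by omega)
    have h4 := lt_of_lt_of_le h2 h3
    norm_num at h4
    omega
  -- real bounds
  have hA1 : 2 ^ sf * b ≤ a * 1048576 := by
    rw [hA, Nat.le_div_iff_mul_le hb] at h1
    exact h1
  have hA2 : a * 1048576 < 2 ^ (sf + 1) * b := by
    rw [hA, Nat.div_lt_iff_lt_mul hb] at h2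
    exact h2
  -- bounds of `n`
  have n1 : 65536 ≤ n := by
    have : 65536 ≤ 2 ^ (5 + sf) * b / a := by
      rw [Nat.le_div_iff_mul_le ha]
      have e : 2 ^ (5 + sf) * b = 2 ^ 4 * (2 ^ (sf + 1) * b) := by rw [pow_add, pow_succ]; ring
      rw [e]
      omega
    omega
  have n2 : n < 67108864 := by
    have : 2 ^ (5 + sf) * b / a ≤ 33554432 := by
      apply Nat.div_le_of_le_mul
      have e : 2 ^ (5 + sf) * b = 2 ^ 5 * (2 ^ sf * b) := by rw [pow_add]; ring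
      rw [e]
      omega
    omega
  have hlg := lgU_ge n n1 n2
  have e : lgOff a b = (sf - 7) * 693147180300 + 10000000000000 - lgU n := by
    unfold lgOff
    rw [frc_eq, frc_eq, hn, hsf, hA]
    rfl
  -- `b / a ≤ n / 2 ^ (5 + sf)`
  have hP : (0 : ℝ) < 2 ^ (5 + sf) := by positivity
  have hba : (2 : ℝ) ^ (5 + sf) * b / a ≤ n := by
    have h5 := div_up (2 ^ (5 + sf) * b) a ha
    rw [hn]
    push_cast at h5 ⊢
    exact h5
  have hlog : Real.log ((2 : ℝ) ^ (5 + sf) * b / a / 4096) ≤ Real.log ((n : ℝ) / 4096) := by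
    refine Real.log_le_log (by positivity) ?_
    exact div_le_div_of_nonneg_right hba (by norm_num)
  have e3 : Real.log ((2 : ℝ) ^ (5 + sf) * b / a / 4096) = ((sf : ℝ) - 7) * Real.log 2 - Real.log ((a : ℝ) / b) := by
    have e4 : (2 : ℝ) ^ (5 + sf) * b / a / 4096 = 2 ^ (5 + sf) / 2 ^ 12 / ((a : ℝ) / b) := by
      rw [div_div_eq_mul_div]
      field_simp
      norm_num
    rw [e4, Real.log_div (by positivity) (by positivity), Real.log_div (by positivity) (by positivity),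
      Real.log_pow, Real.log_pow]
    push_cast
    ring
  have g1 := Real.log_two_gt_d9
  have g2 := Real.log_two_lt_d9
  have hsf' : (7 : ℝ) ≤ sf := by exact_mod_cast hsf7
  rw [e]
  rcases le_total (lgU n) ((sf - 7) * 693147180300 + 10000000000000) with h8 | h8
  · rw [Nat.cast_sub h8]
    push_cast [Nat.cast_sub hsf7]
    rw [e3] at hlog
    nlinarith
  · rw [Nat.sub_eq_zero_of_le h8]
    push_cast
    -- `log (a / b) ≥ - 10`
    have h9 : Real.log ((1 : ℝ) / 8192) ≤ Real.log ((a : ℝ) / b) := by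
      refine Real.log_le_log (by norm_num) ?_
      rw [div_le_div_iff₀ (by norm_num) hb']
      have : (b : ℝ) ≤ 8192 * a := by exact_mod_cast h
      linarith
    have h10 : Real.log ((1 : ℝ) / 8192) = -(13 * Real.log 2) := by
      rw [show (1 : ℝ) / 8192 = (2 ^ 13)⁻¹ by norm_num, Real.log_inv, Real.log_pow]
      norm_num
    rw [h10] at h9
    nlinarith

/-! ### losses, unit `1 / (32 * 10 ^ 7)`, borders in units of `1 / 400` -/

/-- quadratic loss -/
def q32 (a b A : ℕ) : ℕ := Nat.add (Nat.mul (Nat.mul (nat_lit 800) a) A) (Nat.mul b (Nat.mul A A))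

/-- the loss of one entry -/
def o32 (A : ℕ) : ℕ := q32 (nat_lit 215) (nat_lit 390) A

def k32 (kf : Bool) (A : ℕ) : ℕ :=
  cond kf (nat_lit 40680000) (Nat.add (Nat.mul (nat_lit 172000) A) (Nat.mul (nat_lit 300) (Nat.mul A A)))

lemma q32_eq (L A : ℕ) : qL (cA L) (cB L) ((A : ℝ) / 400) = (q32 (cAn L) (cBn L) A : ℕ) / 320000000 := by
  have e : q32 (cAn L) (cBn L) A = 800 * cAn L * A + cBn L * (A * A) := rfl
  rw [e]
  unfold qL cA cB
  push_cast
  ring

lemma o32_eq (A : ℕ) : omg ((A : ℝ) / 400) = (o32 A : ℕ) / 320000000 := by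
  have e : o32 A = 800 * 215 * A + 390 * (A * A) := rfl
  rw [e]
  unfold omg
  push_cast
  ring

lemma k32_eq (kf : Bool) (A : ℕ) : kL kf ((A : ℝ) / 400) = (k32 kf A : ℕ) / 320000000 := by
  cases kf with
  | true =>
    have e : k32 true A = 40680000 := rfl
    rw [e]
    simp only [kL, cond_true]
    norm_num
  | false =>
    have e : k32 false A = 172000 * A + 300 * (A * A) := rfl
    rw [e]
    simp only [kL, cond_false]
    push_cast
    ring

lemma mx_eq (a b : ℕ) : mx a b = max a b := by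
  apply le_antisymm
  · unfold mx
    cases h : Nat.ble a b with
    | true => exact le_max_right _ _
    | false => exact le_max_left _ _
  · exact max_le (le_mx_left a b) (le_mx_right a b)

/-- losses of two merged entries -/
def LO32 (a b : ℕ) (gb kf : Bool) (A B : ℕ) : ℕ :=
  frc (o32 A) fun oA => frc (o32 B) fun oB =>
    frc (mx (Nat.add (q32 a b A) oB) (Nat.add (q32 a b B) oA)) fun m =>
      cond gb m (mx m (mx (Nat.add (k32 kf A) oB) (Nat.add (k32 kf B) oA)))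

def LM32 (a b : ℕ) (gb kf mf : Bool) (A B : ℕ) : ℕ :=
  frc (cond mf A B) fun C => cond gb (q32 a b C) (mx (q32 a b C) (k32 kf C))

lemma max_div (x y : ℕ) {d : ℝ} (hd : 0 ≤ d) : max ((x : ℝ) / d) ((y : ℝ) / d) = ((max x y : ℕ) : ℝ) / d := by
  rw [Nat.cast_max]
  exact (monotone_id.div_const hd).map_max.symm

lemma LO32_eq (L : ℕ) (gb kf : Bool) (A B : ℕ) : LOc (cA L) (cB L) gb kf ((A : ℝ) / 400) ((B : ℝ) / 400)
    = (LO32 (cAn L) (cBn L) gb kf A B : ℕ) / 320000000 := by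
  have hd : (0 : ℝ) ≤ 320000000 := by norm_num
  unfold LOc
  rw [q32_eq, q32_eq, o32_eq, o32_eq, k32_eq, k32_eq, ← add_div, ← add_div, ← add_div, ← add_div,
    ← Nat.cast_add, ← Nat.cast_add, ← Nat.cast_add, ← Nat.cast_add, max_div _ _ hd, max_div _ _ hd]
  unfold LO32
  rw [frc_eq, frc_eq, frc_eq, mx_eq, mx_eq, mx_eq]
  cases gb with
  | true =>
    rw [cond_true, cond_true, max_div _ _ hd, max_eq_left (le_max_left _ _)]
    rfl
  | false =>
    rw [cond_false, cond_false, max_div _ _ hd]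
    rfl

lemma LM32_eq (L : ℕ) (gb kf mf : Bool) (A B : ℕ) : LMc (cA L) (cB L) gb kf mf ((A : ℝ) / 400) ((B : ℝ) / 400)
    = (LM32 (cAn L) (cBn L) gb kf mf A B : ℕ) / 320000000 := by
  have hd : (0 : ℝ) ≤ 320000000 := by norm_num
  unfold LMc
  rw [q32_eq, q32_eq, k32_eq, k32_eq, max_div _ _ hd, max_div _ _ hd]
  unfold LM32
  rw [frc_eq, mx_eq]
  cases mf <;> cases gb <;> rfl

/-- three entries -/
def L32 (a b A B C : ℕ) : ℕ :=
  frc (q32 a b A) fun qA => frc (q32 a b B) fun qB => frc (q32 a b C) fun qC =>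
    mx (Nat.add (o32 A) (Nat.add qB qC)) (mx (Nat.add (o32 B) (Nat.add qA qC)) (Nat.add (o32 C) (Nat.add qA qB)))

lemma L32_eq (L A B C : ℕ) : L3 (cA L) (cB L) ((A : ℝ) / 400) ((B : ℝ) / 400) ((C : ℝ) / 400)
    = (L32 (cAn L) (cBn L) A B C : ℕ) / 320000000 := by
  have hd : (0 : ℝ) ≤ 320000000 := by norm_num
  unfold L3
  rw [q32_eq, q32_eq, q32_eq, o32_eq, o32_eq, o32_eq, ← add_div, ← add_div, ← add_div, ← add_div, ← add_div,
    ← add_div, ← Nat.cast_add, ← Nat.cast_add, ← Nat.cast_add, ← Nat.cast_add, ← Nat.cast_add, ← Nat.cast_add,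
    max_div _ _ hd, max_div _ _ hd]
  unfold L32
  rw [frc_eq, frc_eq, frc_eq, mx_eq, mx_eq]
  rfl

/-- the loss of the merged entries minus the merged entry, unit `1 / (8 * 10 ^ 12)`; `c0`, `c1` = the tangent,
`V` = the merged entry in units of `10 ^ -6`, plus `10 ^ 6` -/
def X12 (a b c0 c1 : ℕ) (gb kf mf : Bool) (V A B : ℕ) : ℕ :=
  mx (Nat.sub (Nat.add (Nat.mul (nat_lit 25000) (LO32 a b gb kf A B)) c0) (Nat.mul c1 V))
    (Nat.mul (nat_lit 25000) (LM32 a b gb kf mf A B))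

/-- the coefficients of the tangent -/
def tc1 (um : ℕ) : ℕ := Nat.mul (nat_lit 8) (Nat.add (nat_lit 215000) (Nat.mul (nat_lit 975) um))
def tc0 (um : ℕ) : ℕ := Nat.add (Nat.mul (tc1 um) (nat_lit 1000000)) (Nat.mul (nat_lit 9750000) (Nat.mul um um))

lemma X12_le (P : MP) (um : ℕ) (hum : P.um = (um : ℝ) / 400) (V A B : ℕ) :
    P.X (((V : ℝ) - 1000000) / 1000000) ((A : ℝ) / 400) ((B : ℝ) / 400)
      ≤ (X12 (cAn P.L) (cBn P.L) (tc0 um) (tc1 um) P.gb P.kf P.mf V A B : ℕ) / 8000000000000 := by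
  unfold MP.X
  rw [LO32_eq, LM32_eq]
  obtain ⟨LO, hLO⟩ : ∃ LO, LO = LO32 (cAn P.L) (cBn P.L) P.gb P.kf A B := ⟨_, rfl⟩
  obtain ⟨LM, hLM⟩ : ∃ LM, LM = LM32 (cAn P.L) (cBn P.L) P.gb P.kf P.mf A B := ⟨_, rfl⟩
  unfold X12
  rw [← hLO, ← hLM, mx_eq]
  refine max_le ?_ ?_
  · have h1 : (25000 * LO + tc0 um - tc1 um * V : ℕ) ≤
        max (Nat.sub (Nat.add (Nat.mul 25000 LO) (tc0 um)) (Nat.mul (tc1 um) V)) (Nat.mul 25000 LM) :=
      le_max_left _ _
    have h2 : ((25000 * LO + tc0 um : ℕ) : ℝ) ≤ ((25000 * LO + tc0 um - tc1 um * V : ℕ) : ℝ) + (tc1 um * V : ℕ) := by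
      exact_mod_cast le_tsub_add
    have h3 : ((25000 * LO + tc0 um - tc1 um * V : ℕ) : ℝ) ≤
        ((max (Nat.sub (Nat.add (Nat.mul 25000 LO) (tc0 um)) (Nat.mul (tc1 um) V)) (Nat.mul 25000 LM) : ℕ) : ℝ) := by
      exact_mod_cast h1
    rw [le_div_iff₀ (by norm_num)]
    refine le_trans ?_ h3
    have e0 : tc0 um = tc1 um * 1000000 + 9750000 * (um * um) := rfl
    have e1 : tc1 um = 8 * (215000 + 975 * um) := rfl
    rw [e0, e1] at h2
    rw [e0, e1]
    push_cast at h2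
    unfold tau omg
    rw [hum]
    refine le_trans (le_of_eq ?_) (sub_le_iff_le_add.mpr h2)
    ring
  · have h1 : Nat.mul 25000 LM ≤
        max (Nat.sub (Nat.add (Nat.mul 25000 LO) (tc0 um)) (Nat.mul (tc1 um) V)) (Nat.mul 25000 LM) :=
      le_max_right _ _
    have h3 : ((25000 * LM : ℕ) : ℝ) ≤
        ((max (Nat.sub (Nat.add (Nat.mul 25000 LO) (tc0 um)) (Nat.mul (tc1 um) V)) (Nat.mul 25000 LM) : ℕ) : ℝ) := by
      exact_mod_cast h1
    rw [le_div_iff₀ (by norm_num)]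
    refine le_trans (le_of_eq ?_) h3
    push_cast
    ring

end C1
end Pool.Agent.Lib.MP_6947cd_al
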