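import Pool.Agent.Lib.MP_6947cd_al.Y.TW
import Pool.Agent.Lib.MP_6947cd_al.Y.SideR
import Pool.Agent.Lib.MP_6947cd_al.L.Fill
import Pool.Agent.Lib.MP_6947cd_al.L.WConc2

/-!
Problem MP_6947cd_al (Chollet).  PACKED TABLES of rows with arbitrary special entries: replacement of the digits which
are not valid by a true bound, and chords between two tables.
-/

set_option autoImplicit false
open Finset

namespace Pool.Agent.Lib.MP_6947cd_al
namespace PkA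

open Ent Ent.Pk Fr Fr.WT B1

/-- `X`: digits row bound `+ 2 ^ 32` row value (unit `1e-7`), row bound `0` = not valid; special entries `S` -/
structure Tv (rd ks : List ℕ) (S : Multiset ℝ) (X : ℕ) : Prop where
  hF : ∀ i < prd rd, 1 ≤ dg (loT (prd rd) X) i →
    FM (1 ::ₘ (S + Ent.mk (CA.dig rd i) (kR ks))) ≤ (dg (loT (prd rd) X) i : ℝ) / 10 ^ 7
  hw : ∀ i < prd rd, 1 ≤ dg (loT (prd rd) X) i →
    (dg (hiT (prd rd) X) i : ℝ) / 10 ^ 7 ≤ WD.Wd (S.sum + (Ent.mk (CA.dig rd i) (kR ks)).sum)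

/-- all digits are valid; unit `1 / (s * 10 ^ 7)`, digits at most `bd` -/
structure Tb (rd ks : List ℕ) (s bd : ℕ) (S : Multiset ℝ) (T W : ℕ) : Prop where
  hT : T < 2 ^ (64 * prd rd)
  hW : W < 2 ^ (64 * prd rd)
  dT : ∀ i < prd rd, dg T i ≤ bd
  dW : ∀ i < prd rd, dg W i ≤ bd
  hF : ∀ i < prd rd, FM (1 ::ₘ (S + Ent.mk (CA.dig rd i) (kR ks))) ≤ (dg T i : ℝ) / (s * 10 ^ 7)
  hw : ∀ i < prd rd, (dg W i : ℝ) / (s * 10 ^ 7) ≤ WD.Wd (S.sum + (Ent.mk (CA.dig rd i) (kR ks)).sum)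

/-! ### digits -/

lemma dg_pk (f : ℕ → ℕ) (N : ℕ) (h : ∀ i < N, f i < 2 ^ 64) (i : ℕ) (hi : i < N) : dg (pk f N) i = f i := by
  refine Nat.eq_of_testBit_eq fun j => ?_
  rw [testBit_dg]
  rcases Nat.lt_or_ge j 64 with h1 | h1
  · rw [testBit_pk f N h i j hi h1, decide_eq_true h1, Bool.true_and]
  · rw [decide_eq_false (by omega), Bool.false_and]
    exact (Nat.testBit_lt_two_pow (lt_of_lt_of_le (h i hi) (Nat.pow_le_pow_right (by norm_num) h1))).symm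

lemma dg_land (A B i : ℕ) : dg (Nat.land A B) i = Nat.land (dg A i) (dg B i) := by
  refine Nat.eq_of_testBit_eq fun j => ?_
  have e1 : ∀ a b : ℕ, Nat.land a b = a &&& b := fun _ _ => rfl
  rw [e1, e1, testBit_dg, Nat.testBit_and, Nat.testBit_and, testBit_dg, testBit_dg]
  cases decide (j < 64) <;> simp

lemma eq_pk {X N : ℕ} (h : X < 2 ^ (64 * N)) (f : ℕ → ℕ) (hf : ∀ i < N, dg X i = f i) : X = pk f N := by
  rw [← pk_dg N X h]
  exact pk_congr _ _ _ hf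

lemma one_pk (N : ℕ) : one N = pk (fun _ => 1) N := one_eq N

lemma m32_pk (N : ℕ) : Nat.mul 4294967295 (one N) = pk (fun _ => 4294967295) N := const_eq _ _

/-! ### the sentinel -/

/-- indicator of the valid digits -/
def vld (ONE X : ℕ) : ℕ :=
  Nat.land (Nat.shiftRight (Nat.add (Nat.land X (Nat.mul (nat_lit 4294967295) ONE))
    (Nat.mul (nat_lit 4294967295) ONE)) (nat_lit 32)) ONE

/-- row bounds, `sen` where not valid -/
def senT (ONE sen X : ℕ) : ℕ :=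
  Nat.add (Nat.land X (Nat.mul (nat_lit 4294967295) ONE)) (Nat.mul sen (Nat.sub ONE (vld ONE X)))

/-- row values, `0` where not valid -/
def senW (ONE X : ℕ) : ℕ :=
  Nat.land (Nat.land (Nat.shiftRight X (nat_lit 32)) (Nat.mul (nat_lit 4294967295) ONE))
    (Nat.mul (nat_lit 4294967295) (vld ONE X))

lemma vld_pk (N X : ℕ) : vld (one N) X = pk (fun i => if 1 ≤ dg (loT N X) i then 1 else 0) N := by
  have hle : vld (one N) X ≤ one N := Nat.and_le_right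
  have h1 : one N < 2 ^ (64 * N) := by
    rw [one_pk]
    exact pk_lt _ N fun _ _ => by norm_num
  refine eq_pk (lt_of_le_of_lt hle h1) _ fun i hi => ?_
  unfold vld
  rw [dg_land]
  have hL : Nat.land X (Nat.mul 4294967295 (one N)) = pk (dg (loT N X)) N := by
    have := pk_dg N (loT N X) (lo_lt N X)
    exact this.symm
  have h32 : ∀ j < N, dg (loT N X) j < 2 ^ 32 := fun j hj => by
    rw [dg_lo _ _ _ hj]
    exact land32_lt _
  have hA : Nat.add (Nat.land X (Nat.mul 4294967295 (one N))) (Nat.mul 4294967295 (one N))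
      = pk (fun j => dg (loT N X) j + 4294967295) N := by
    rw [hL, m32_pk]
    exact pk_add _ _ _
  rw [hA]
  have hone : dg (one N) i = 1 := by
    rw [one_pk, dg_pk _ _ (fun _ _ => by norm_num) i hi]
  rw [hone]
  have hb : Nat.land (dg (Nat.shiftRight (pk (fun j => dg (loT N X) j + 4294967295) N) 32) i) 1
      = if (dg (loT N X) i + 4294967295).testBit 32 then 1 else 0 := by
    have e1 : ∀ a : ℕ, Nat.land a 1 = a % 2 := fun a => Nat.and_one_is_mod a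
    rw [e1]
    have e2 : dg (Nat.shiftRight (pk (fun j => dg (loT N X) j + 4294967295) N) 32) i % 2
        = if (dg (Nat.shiftRight (pk (fun j => dg (loT N X) j + 4294967295) N) 32) i).testBit 0 then 1 else 0 := by
      rw [Nat.testBit_zero]
      rcases Nat.mod_two_eq_zero_or_one
        (dg (Nat.shiftRight (pk (fun j => dg (loT N X) j + 4294967295) N) 32) i) with h | h <;> rw [h] <;> simp
    rw [e2, testBit_dg]
    have e3 : ∀ Y : ℕ, (Nat.shiftRight Y 32).testBit (64 * i + 0) = Y.testBit (64 * i + 32) := by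
      intro Y
      show (Y >>> 32).testBit (64 * i + 0) = _
      rw [Nat.testBit_shiftRight]
      congr 1
      omega
    rw [e3, testBit_pk _ N (fun j hj => by have := h32 j hj; omega) i 32 hi (by norm_num)]
    simp
  rw [hb]
  have ht := h32 i hi
  by_cases hv : 1 ≤ dg (loT N X) i
  · rw [if_pos hv, if_pos]
    rw [Nat.testBit_eq_decide_div_mod_eq]
    have : (dg (loT N X) i + 4294967295) / 2 ^ 32 = 1 := by omega
    rw [this]
    rfl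
  · rw [if_neg hv, if_neg]
    have h0 : dg (loT N X) i = 0 := by omega
    rw [h0]
    decide

lemma vld_le (N X : ℕ) : ∀ i < N, (if 1 ≤ dg (loT N X) i then 1 else 0) ≤ 1 := by
  intro i _
  split <;> omega

/-- the digits with the sentinel -/
lemma senT_dg (N X sen : ℕ) (hs : sen < 2 ^ 32) :
    senT (one N) sen X < 2 ^ (64 * N) ∧ ∀ i < N, dg (senT (one N) sen X) i
      = if 1 ≤ dg (loT N X) i then dg (loT N X) i else sen := by
  have hL : Nat.land X (Nat.mul 4294967295 (one N)) = pk (dg (loT N X)) N := (pk_dg N (loT N X) (lo_lt N X)).symm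
  have h32 : ∀ j < N, dg (loT N X) j < 2 ^ 32 := fun j hj => by
    rw [dg_lo _ _ _ hj]
    exact land32_lt _
  have e : senT (one N) sen X
      = pk (fun i => dg (loT N X) i + sen * (1 - if 1 ≤ dg (loT N X) i then 1 else 0)) N := by
    unfold senT
    rw [hL, vld_pk, one_pk]
    show pk (dg (loT N X)) N + sen * (pk (fun _ => 1) N - _) = _
    rw [pk_sub _ _ _ (vld_le N X), pk_mul, pk_add]
  have hb : ∀ i < N, dg (loT N X) i + sen * (1 - if 1 ≤ dg (loT N X) i then 1 else 0) < 2 ^ 64 := by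
    intro i hi
    have h1 := h32 i hi
    have h2 : sen * (1 - if 1 ≤ dg (loT N X) i then 1 else 0) ≤ sen * 1 := Nat.mul_le_mul_left _ (Nat.sub_le _ _)
    omega
  rw [e]
  refine ⟨pk_lt _ _ hb, fun i hi => ?_⟩
  rw [dg_pk _ _ hb i hi]
  by_cases hv : 1 ≤ dg (loT N X) i
  · simp [hv]
  · have h0 : dg (loT N X) i = 0 := by omega
    simp [h0]

lemma senW_dg (N X : ℕ) :
    senW (one N) X < 2 ^ (64 * N) ∧ ∀ i < N, dg (senW (one N) X) i
      = if 1 ≤ dg (loT N X) i then dg (hiT N X) i else 0 := by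
  have e0 : senW (one N) X = Nat.land (hiT N X) (Nat.mul 4294967295 (vld (one N) X)) := rfl
  refine ⟨lt_of_le_of_lt (by rw [e0]; exact Nat.and_le_left) (hi_lt N X), fun i hi => ?_⟩
  rw [e0, dg_land, vld_pk]
  have e1 : Nat.mul 4294967295 (pk (fun i => if 1 ≤ dg (loT N X) i then 1 else 0) N)
      = pk (fun i => 4294967295 * if 1 ≤ dg (loT N X) i then 1 else 0) N := pk_mul _ _ _
  rw [e1, dg_pk _ _ (fun i hi => by have := vld_le N X i hi; omega) i hi]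
  have h32 : dg (hiT N X) i < 2 ^ 32 := by
    rw [dg_hi _ _ _ hi]
    exact dgs_lt _ _
  by_cases hv : 1 ≤ dg (loT N X) i
  · rw [if_pos hv, if_pos hv, Nat.mul_one]
    show dg (hiT N X) i &&& (2 ^ 32 - 1) = _
    rw [Nat.and_two_pow_sub_one_eq_mod, Nat.mod_eq_of_lt h32]
  · rw [if_neg hv, if_neg hv, Nat.mul_zero]
    exact Nat.and_zero _

theorem yd_mono : ((List.range 785).all fun i => Nat.ble (WD.yd (15 + i)) (WD.yd (16 + i))) = true := by decide +kernel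

lemma yr'_nonneg (k : ℕ) : 0 ≤ WD.yr' k := by
  unfold WD.yr'
  positivity

lemma yr'_mono (k : ℕ) (h : 15 ≤ k) (h' : k ≤ 799) : WD.yr' k ≤ WD.yr' (k + 1) := by
  obtain ⟨i, rfl⟩ := Nat.exists_eq_add_of_le h
  have h3 := List.all_eq_true.mp yd_mono i (List.mem_range.mpr (by omega))
  have h4 := Nat.le_of_ble_eq_true h3
  rw [show 16 + i = 15 + i + 1 by omega] at h4
  unfold WD.yr'
  have : (WD.yd (15 + i) : ℝ) ≤ WD.yd (15 + i + 1) := by exact_mod_cast h4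
  linarith

lemma lineD_nonneg (k : ℕ) (h : 15 ≤ k) (h' : k ≤ 799) (s : ℝ) (hs : (k : ℝ) / 50 ≤ s) : 0 ≤ WD.lineD k s := by
  have h1 := yr'_nonneg k
  have h2 := yr'_mono k h h'
  unfold WD.lineD
  have := mul_nonneg (show 0 ≤ 50 * s - k by linarith) (sub_nonneg.mpr h2)
  linarith

lemma Wd_nonneg {s : ℝ} (h1 : 3 / 10 ≤ s) : 0 ≤ WD.Wd s := by
  rcases le_total s 16 with h | h
  · obtain ⟨k, hk⟩ : ∃ k : ℕ, k = ⌊50 * s⌋₊ := ⟨_, rfl⟩
    have h50 : (0 : ℝ) ≤ 50 * s := by linarith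
    have hk1 : (k : ℝ) ≤ 50 * s := by rw [hk]; exact Nat.floor_le h50
    have hk2 : 50 * s < k + 1 := by rw [hk]; exact Nat.lt_floor_add_one _
    have hk15 : 15 ≤ k := by
      rw [hk]
      exact Nat.le_floor (by push_cast; linarith)
    have hk8 : k ≤ 800 := by
      have : (k : ℝ) ≤ 800 := by linarith
      exact_mod_cast this
    rcases Nat.lt_or_ge k 800 with h8 | h8
    · rw [WD.Wd_piece k hk15 (by omega) s (by linarith) (by linarith)]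
      exact lineD_nonneg k hk15 (by omega) s (by linarith)
    · have e8 : k = 800 := by omega
      have es : s = 16 := by
        rw [e8] at hk1
        push_cast at hk1
        linarith
      rw [WD.Wd_piece 799 (by norm_num) le_rfl s (by rw [es]; norm_num) (by rw [es]; norm_num)]
      exact lineD_nonneg 799 (by norm_num) le_rfl s (by rw [es]; norm_num)
  · unfold WD.Wd
    refine (Finset.le_inf'_iff _ _).mpr fun m hm => ?_
    obtain ⟨m1, m2⟩ := Finset.mem_Icc.mp hm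
    refine lineD_nonneg m m1 m2 s ?_
    have : (m : ℝ) ≤ 799 := by exact_mod_cast m2
    linarith

/-- the entries of a table -/
lemma mk01 (ks : List ℕ) (hk : ∀ k ∈ ks, k ≤ 200) (ns : List ℕ) : ∀ z ∈ Ent.mk ns (kR ks), 0 ≤ z ∧ z ≤ 1 := by
  induction ks generalizing ns with
  | nil =>
    intro z hz
    cases ns <;> simp [kR, Ent.mk] at hz
  | cons k ks ih =>
    intro z hz
    cases ns with
    | nil => simp [Ent.mk] at hz
    | cons n ns =>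
      have e : Ent.mk (n :: ns) (kR (k :: ks)) = Multiset.replicate n ((k : ℝ) / 200) + Ent.mk ns (kR ks) := rfl
      rw [e, Multiset.mem_add] at hz
      rcases hz with hz | hz
      · rw [Multiset.eq_of_mem_replicate hz]
        have : (k : ℝ) ≤ 200 := by exact_mod_cast hk k List.mem_cons_self
        exact ⟨by positivity, by linarith⟩
      · exact ih (fun k hk' => hk k (List.mem_cons_of_mem _ hk')) ns z hz

lemma mk_card (ks : List ℕ) : ∀ ns : List ℕ, (Ent.mk ns (kR ks)).card ≤ ns.sum := by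
  induction ks with
  | nil => intro ns; cases ns <;> simp [kR, Ent.mk]
  | cons k ks ih =>
    intro ns
    cases ns with
    | nil => simp [Ent.mk]
    | cons n ns =>
      have e : Ent.mk (n :: ns) (kR (k :: ks)) = Multiset.replicate n ((k : ℝ) / 200) + Ent.mk ns (kR ks) := rfl
      rw [e, Multiset.card_add, Multiset.card_replicate, List.sum_cons]
      have := ih ns
      omega

lemma dig_sum (rd : List ℕ) (i : ℕ) (hi : i < prd rd) : (CA.dig rd i).sum ≤ rd.sum := by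
  have h := dig_lt rd i hi
  clear hi
  generalize CA.dig rd i = ns at h
  induction h with
  | nil => simp
  | cons h1 _ ih =>
    rw [List.sum_cons, List.sum_cons]
    omega

/-- FROM VALID DIGITS TO A FULL TABLE. -/
theorem Tb.of_tv {rd ks : List ℕ} {S : Multiset ℝ} {X sen : ℕ} (h : Tv rd ks S X)
    (hS : ∀ z ∈ S, 0 ≤ z ∧ z ≤ 1) (hk : ∀ k ∈ ks, k ≤ 200) (h30 : 3 / 10 ≤ S.sum)
    (h1 : 10000000 * (rd.sum + S.card + 1) ≤ sen) (h2 : sen < 2 ^ 32) :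
    Tb rd ks 1 (2 ^ 32) S (senT (one (prd rd)) sen X) (senW (one (prd rd)) X) := by
  obtain ⟨a1, a2⟩ := senT_dg (prd rd) X sen h2
  obtain ⟨b1, b2⟩ := senW_dg (prd rd) X
  have hm := fun i => mk01 ks hk (CA.dig rd i)
  refine ⟨a1, b1, fun i hi => ?_, fun i hi => ?_, fun i hi => ?_, fun i hi => ?_⟩
  · rw [a2 i hi]
    split
    · rw [dg_lo _ _ _ hi]
      exact (land32_lt _).le
    · exact h2.le
  · rw [b2 i hi]
    split
    · rw [dg_hi _ _ _ hi]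
      exact (dgs_lt _ _).le
    · omega
  · rw [a2 i hi, Nat.cast_one, one_mul]
    by_cases hv : 1 ≤ dg (loT (prd rd) X) i
    · rw [if_pos hv]
      exact h.hF i hi hv
    · rw [if_neg hv]
      refine (Fl.FM_card (S + Ent.mk (CA.dig rd i) (kR ks)) fun z hz => ?_).trans ?_
      · rcases Multiset.mem_add.mp hz with hz | hz
        · exact hS z hz
        · exact hm i z hz
      · rw [le_div_iff₀ (by positivity), Multiset.card_add]
        have c1 := mk_card ks (CA.dig rd i)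
        have c2 := dig_sum rd i hi
        have c3 : ((S.card + (Ent.mk (CA.dig rd i) (kR ks)).card : ℕ) + 1) * 10 ^ 7 ≤ sen := by
          refine le_trans ?_ h1
          rw [Nat.mul_comm]
          have : (10 : ℕ) ^ 7 = 10000000 := by norm_num
          rw [this]
          refine Nat.mul_le_mul_left _ ?_
          omega
        exact_mod_cast c3
  · rw [b2 i hi, Nat.cast_one, one_mul]
    by_cases hv : 1 ≤ dg (loT (prd rd) X) i
    · rw [if_pos hv]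
      exact h.hw i hi hv
    · rw [if_neg hv, Nat.cast_zero, zero_div]
      refine Wd_nonneg ?_
      have : 0 ≤ (Ent.mk (CA.dig rd i) (kR ks)).sum := Multiset.sum_nonneg fun z hz => (hm i z hz).1
      linarith

/-! ### chords -/

/-- chord -/
def chd (c l T0 T1 : ℕ) : ℕ := Nat.add (Nat.mul l T0) (Nat.mul (Nat.sub c l) T1)

lemma chd_dg {N c l T0 T1 bd : ℕ} (hl : l ≤ c) (h0 : T0 < 2 ^ (64 * N)) (h1 : T1 < 2 ^ (64 * N))
    (d0 : ∀ i < N, dg T0 i ≤ bd) (d1 : ∀ i < N, dg T1 i ≤ bd) (hb : c * bd < 2 ^ 64) :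
    chd c l T0 T1 < 2 ^ (64 * N) ∧ ∀ i < N, dg (chd c l T0 T1) i = l * dg T0 i + (c - l) * dg T1 i ∧
      l * dg T0 i + (c - l) * dg T1 i ≤ c * bd := by
  have hd : ∀ i < N, l * dg T0 i + (c - l) * dg T1 i ≤ c * bd := by
    intro i hi
    have e1 := Nat.mul_le_mul_left l (d0 i hi)
    have e2 := Nat.mul_le_mul_left (c - l) (d1 i hi)
    have e3 : l * bd + (c - l) * bd = c * bd := by rw [← Nat.add_mul]; congr 1; omega
    omega
  have e : chd c l T0 T1 = pk (fun i => l * dg T0 i + (c - l) * dg T1 i) N := by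
    show l * T0 + (c - l) * T1 = _
    conv_lhs => rw [← pk_dg N T0 h0, ← pk_dg N T1 h1]
    rw [pk_mul, pk_mul, pk_add]
  have hlt : ∀ i < N, l * dg T0 i + (c - l) * dg T1 i < 2 ^ 64 := fun i hi => lt_of_le_of_lt (hd i hi) hb
  rw [e]
  exact ⟨pk_lt _ _ hlt, fun i hi => ⟨dg_pk _ _ hlt i hi, hd i hi⟩⟩

/-- THE CHORD of two tables. -/
theorem Tb.chord {rd ks : List ℕ} {s bd : ℕ} {S : Multiset ℝ} {u0 u1 u : ℝ} {T0 T1 W0 W1 c l : ℕ}
    (h0 : Tb rd ks s bd (u0 ::ₘ S) T0 W0) (h1 : Tb rd ks s bd (u1 ::ₘ S) T1 W1) (hs : 0 < s) (hl : l ≤ c)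
    (hc : 0 < c) (hu : (c : ℝ) * u = l * u0 + (c - l) * u1) (hu0 : 0 ≤ u0 ∧ u0 ≤ 1) (hu1 : 0 ≤ u1 ∧ u1 ≤ 1)
    (hS : ∀ z ∈ S, 0 ≤ z ∧ z ≤ 1) (hk : ∀ k ∈ ks, k ≤ 200) (hb : c * bd < 2 ^ 64) :
    Tb rd ks (c * s) (c * bd) (u ::ₘ S) (chd c l T0 T1) (chd c l W0 W1) := by
  obtain ⟨a1, a2⟩ := chd_dg hl h0.hT h1.hT h0.dT h1.dT hb
  obtain ⟨b1, b2⟩ := chd_dg hl h0.hW h1.hW h0.dW h1.dW hb
  have hcR : (0 : ℝ) < c := by exact_mod_cast hc
  have hsR : (0 : ℝ) < s := by exact_mod_cast hs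
  have hlR : (l : ℝ) ≤ c := by exact_mod_cast hl
  have hp : (0 : ℝ) ≤ (l : ℝ) / c := by positivity
  have hq : (0 : ℝ) ≤ ((c : ℝ) - l) / c := div_nonneg (by linarith) hcR.le
  have hpq : (l : ℝ) / c + ((c : ℝ) - l) / c = 1 := by
    rw [← add_div]
    rw [div_eq_one_iff_eq hcR.ne']
    ring
  have eu : u = (l : ℝ) / c * u0 + ((c : ℝ) - l) / c * u1 := by
    field_simp
    linarith
  refine ⟨a1, b1, fun i hi => ?_, fun i hi => ?_, fun i hi => ?_, fun i hi => ?_⟩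
  · rw [(a2 i hi).1]
    exact (a2 i hi).2
  · rw [(b2 i hi).1]
    exact (b2 i hi).2
  · have hmem : ∀ z ∈ 1 ::ₘ (S + Ent.mk (CA.dig rd i) (kR ks)), 0 ≤ z ∧ z ≤ 1 := by
      intro z hz
      rcases Multiset.mem_cons.mp hz with rfl | hz
      · exact ⟨zero_le_one, le_rfl⟩
      · rcases Multiset.mem_add.mp hz with hz | hz
        · exact hS z hz
        · exact mk01 ks hk _ z hz
    have hcv := FM_convexOn (1 ::ₘ (S + Ent.mk (CA.dig rd i) (kR ks))) (Multiset.mem_cons_self _ _) hmem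
    have h2 := hcv.2 (show u0 ∈ Set.Icc (0 : ℝ) 1 from hu0) (show u1 ∈ Set.Icc (0 : ℝ) 1 from hu1) hp hq hpq
    simp only [smul_eq_mul] at h2
    rw [← eu] at h2
    have e : ∀ w : ℝ, FM (1 ::ₘ (w ::ₘ S + Ent.mk (CA.dig rd i) (kR ks)))
        = FM (w ::ₘ (1 ::ₘ (S + Ent.mk (CA.dig rd i) (kR ks)))) := by
      intro w
      rw [Multiset.cons_add, Multiset.cons_swap]
    have f0 := h0.hF i hi
    have f1 := h1.hF i hi
    rw [e] at f0 f1 ⊢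
    rw [(a2 i hi).1]
    refine h2.trans ((add_le_add (mul_le_mul_of_nonneg_left f0 hp) (mul_le_mul_of_nonneg_left f1 hq)).trans
      (le_of_eq ?_))
    push_cast [Nat.cast_sub hl]
    field_simp
  · have h2 := WD.Wd_concave.2 (Set.mem_univ ((u0 ::ₘ S).sum + (Ent.mk (CA.dig rd i) (kR ks)).sum))
      (Set.mem_univ ((u1 ::ₘ S).sum + (Ent.mk (CA.dig rd i) (kR ks)).sum)) hp hq hpq
    simp only [smul_eq_mul, Multiset.sum_cons] at h2
    have e2 : (l : ℝ) / c * (u0 + S.sum + (Ent.mk (CA.dig rd i) (kR ks)).sum)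
        + ((c : ℝ) - l) / c * (u1 + S.sum + (Ent.mk (CA.dig rd i) (kR ks)).sum)
        = u + S.sum + (Ent.mk (CA.dig rd i) (kR ks)).sum := by
      rw [eu]
      have : ((c : ℝ) - l) / c = 1 - (l : ℝ) / c := by linarith
      rw [this]
      ring
    rw [e2] at h2
    have f0 := h0.hw i hi
    have f1 := h1.hw i hi
    rw [Multiset.sum_cons] at f0 f1 ⊢
    refine le_trans ?_ h2
    refine le_trans (le_of_eq ?_) (add_le_add (mul_le_mul_of_nonneg_left f0 hp) (mul_le_mul_of_nonneg_left f1 hq))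
    rw [(b2 i hi).1]
    push_cast [Nat.cast_sub hl]
    field_simp

lemma Tb.perm {rd ks : List ℕ} {s bd : ℕ} {S S' : Multiset ℝ} {T W : ℕ} (h : Tb rd ks s bd S T W) (e : S = S') :
    Tb rd ks s bd S' T W := e ▸ h

/-! ### the eight corners -/

/-- the three special entries at a corner -/
def Sp (a y z : ℝ) : Multiset ℝ := a ::ₘ y ::ₘ z ::ₘ 0

lemma Sp_rot (a y z : ℝ) : Sp a y z = Sp y z a := by
  unfold Sp
  rw [Multiset.cons_swap a y, Multiset.cons_swap a z]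

lemma Sp_sum (a y z : ℝ) : (Sp a y z).sum = a + y + z := by
  simp [Sp]
  ring

/-- an end of an interval -/
def ed {α : Type} (a b : α) (c : Bool) : α := bif c then b else a

/-- eight tables, index `ix ba bb bc` -/
def G8 (rd ks : List ℕ) (s bd : ℕ) (a0 a1 y0 y1 z0 z1 : ℝ) (tabs : List (ℕ × ℕ)) : Prop :=
  tabs.length = 8 ∧ ∀ ba bb bc : Bool, Tb rd ks s bd (Sp (ed a0 a1 ba) (ed y0 y1 bb) (ed z0 z1 bc))
    (tabs.getD (ix ba bb bc) (0, 0)).1 (tabs.getD (ix ba bb bc) (0, 0)).2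

/-- a stage: chords in the first coordinate, which becomes the last one -/
def st8 (c l0 l1 x0 x1 x2 x3 x4 x5 x6 x7 : ℕ) (k : ℕ → ℕ → ℕ → ℕ → ℕ → ℕ → ℕ → ℕ → Bool) : Bool :=
  frc (chd c l0 x0 x1) fun y0 => frc (chd c l0 x2 x3) fun y1 => frc (chd c l0 x4 x5) fun y2 =>
  frc (chd c l0 x6 x7) fun y3 => frc (chd c l1 x0 x1) fun y4 => frc (chd c l1 x2 x3) fun y5 =>
  frc (chd c l1 x4 x5) fun y6 => frc (chd c l1 x6 x7) fun y7 => k y0 y1 y2 y3 y4 y5 y6 y7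

lemma st8_eq (c l0 l1 x0 x1 x2 x3 x4 x5 x6 x7 : ℕ) (k : ℕ → ℕ → ℕ → ℕ → ℕ → ℕ → ℕ → ℕ → Bool) :
    st8 c l0 l1 x0 x1 x2 x3 x4 x5 x6 x7 k = k (chd c l0 x0 x1) (chd c l0 x2 x3) (chd c l0 x4 x5) (chd c l0 x6 x7)
      (chd c l1 x0 x1) (chd c l1 x2 x3) (chd c l1 x4 x5) (chd c l1 x6 x7) := by
  unfold st8
  simp only [frc_eq]

/-- THE STAGE is correct. -/
theorem st8_sound {rd ks : List ℕ} {s bd : ℕ} {a0 a1 y0 y1 z0 z1 a0' a1' : ℝ}
    {x0 x1 x2 x3 x4 x5 x6 x7 w0 w1 w2 w3 w4' w5 w6 w7 c l0 l1 : ℕ}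
    (h : G8 rd ks s bd a0 a1 y0 y1 z0 z1 [(x0, w0), (x1, w1), (x2, w2), (x3, w3), (x4, w4'), (x5, w5), (x6, w6), (x7, w7)])
    (hs : 0 < s) (hl0 : l0 ≤ c) (hl1 : l1 ≤ c) (hc : 0 < c)
    (e0 : (c : ℝ) * a0' = l0 * a0 + (c - l0) * a1) (e1 : (c : ℝ) * a1' = l1 * a0 + (c - l1) * a1)
    (ha0 : 0 ≤ a0 ∧ a0 ≤ 1) (ha1 : 0 ≤ a1 ∧ a1 ≤ 1) (hy0 : 0 ≤ y0 ∧ y0 ≤ 1) (hy1 : 0 ≤ y1 ∧ y1 ≤ 1)
    (hz0 : 0 ≤ z0 ∧ z0 ≤ 1) (hz1 : 0 ≤ z1 ∧ z1 ≤ 1) (hk : ∀ k ∈ ks, k ≤ 200) (hb : c * bd < 2 ^ 64) :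
    G8 rd ks (c * s) (c * bd) y0 y1 z0 z1 a0' a1'
      [(chd c l0 x0 x1, chd c l0 w0 w1), (chd c l0 x2 x3, chd c l0 w2 w3), (chd c l0 x4 x5, chd c l0 w4' w5),
       (chd c l0 x6 x7, chd c l0 w6 w7), (chd c l1 x0 x1, chd c l1 w0 w1), (chd c l1 x2 x3, chd c l1 w2 w3),
       (chd c l1 x4 x5, chd c l1 w4' w5), (chd c l1 x6 x7, chd c l1 w6 w7)] := by
  obtain ⟨-, h⟩ := h
  refine ⟨rfl, fun bb bc ba => ?_⟩
  have hS : ∀ z ∈ (ed y0 y1 bb) ::ₘ (ed z0 z1 bc) ::ₘ (0 : Multiset ℝ), 0 ≤ z ∧ z ≤ 1 := by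
    intro z hz
    simp only [Multiset.mem_cons, Multiset.notMem_zero, or_false] at hz
    rcases hz with rfl | rfl
    · cases bb
      · exact hy0
      · exact hy1
    · cases bc
      · exact hz0
      · exact hz1
  have g0 := h false bb bc
  have g1 := h true bb bc
  have key : ∀ (l : ℕ) (u : ℝ), l ≤ c → (c : ℝ) * u = l * a0 + (c - l) * a1 → ∀ T0 W0 T1 W1,
      Tb rd ks s bd (Sp a0 (ed y0 y1 bb) (ed z0 z1 bc)) T0 W0 →
      Tb rd ks s bd (Sp a1 (ed y0 y1 bb) (ed z0 z1 bc)) T1 W1 →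
      Tb rd ks (c * s) (c * bd) (Sp (ed y0 y1 bb) (ed z0 z1 bc) u) (chd c l T0 T1) (chd c l W0 W1) :=
    fun l u hl hu T0 W0 T1 W1 k0 k1 =>
      (Tb.chord k0 k1 hs hl hc hu ha0 ha1 hS hk hb).perm (Sp_rot u (ed y0 y1 bb) (ed z0 z1 bc))
  cases bb <;> cases bc <;> cases ba <;>
    first
      | exact key l0 a0' hl0 e0 _ _ _ _ g0 g1
      | exact key l1 a1' hl1 e1 _ _ _ _ g0 g1

/-- three stages -/
def c24 (ca la0 la1 cy ly0 ly1 cz lz0 lz1 x0 x1 x2 x3 x4 x5 x6 x7 : ℕ)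
    (k : ℕ → ℕ → ℕ → ℕ → ℕ → ℕ → ℕ → ℕ → Bool) : Bool :=
  st8 ca la0 la1 x0 x1 x2 x3 x4 x5 x6 x7 fun y0 y1 y2 y3 y4 y5 y6 y7 =>
  st8 cy ly0 ly1 y0 y1 y2 y3 y4 y5 y6 y7 fun z0 z1 z2 z3 z4 z5 z6 z7 =>
  st8 cz lz0 lz1 z0 z1 z2 z3 z4 z5 z6 z7 k

/-- THE CORNERS OF A BOX from the corners of a cell of the grid. -/
theorem c24_sound {rd ks : List ℕ} {s bd : ℕ} {a0 a1 y0 y1 z0 z1 a0' a1' y0' y1' z0' z1' : ℝ}
    {x0 x1 x2 x3 x4 x5 x6 x7 w0 w1 w2 w3 w4' w5 w6 w7 ca la0 la1 cy ly0 ly1 cz lz0 lz1 : ℕ}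
    (h : G8 rd ks s bd a0 a1 y0 y1 z0 z1 [(x0, w0), (x1, w1), (x2, w2), (x3, w3), (x4, w4'), (x5, w5), (x6, w6), (x7, w7)])
    (hs : 0 < s) (ha0l : la0 ≤ ca) (ha1l : la1 ≤ ca) (hca : 0 < ca) (hy0l : ly0 ≤ cy) (hy1l : ly1 ≤ cy)
    (hcy : 0 < cy) (hz0l : lz0 ≤ cz) (hz1l : lz1 ≤ cz) (hcz : 0 < cz)
    (ea0 : (ca : ℝ) * a0' = la0 * a0 + (ca - la0) * a1) (ea1 : (ca : ℝ) * a1' = la1 * a0 + (ca - la1) * a1)
    (ey0 : (cy : ℝ) * y0' = ly0 * y0 + (cy - ly0) * y1) (ey1 : (cy : ℝ) * y1' = ly1 * y0 + (cy - ly1) * y1)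
    (ez0 : (cz : ℝ) * z0' = lz0 * z0 + (cz - lz0) * z1) (ez1 : (cz : ℝ) * z1' = lz1 * z0 + (cz - lz1) * z1)
    (ha0 : 0 ≤ a0 ∧ a0 ≤ 1) (ha1 : 0 ≤ a1 ∧ a1 ≤ 1) (hy0 : 0 ≤ y0 ∧ y0 ≤ 1) (hy1 : 0 ≤ y1 ∧ y1 ≤ 1)
    (hz0 : 0 ≤ z0 ∧ z0 ≤ 1) (hz1 : 0 ≤ z1 ∧ z1 ≤ 1) (hk : ∀ k ∈ ks, k ≤ 200)
    (hb : ca * (cy * (cz * bd)) < 2 ^ 64) {k : List (ℕ × ℕ) → Bool}
    (hkk : c24 ca la0 la1 cy ly0 ly1 cz lz0 lz1 x0 x1 x2 x3 x4 x5 x6 x7 (fun t0 t1 t2 t3 t4 t5 t6 t7 =>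
      c24 ca la0 la1 cy ly0 ly1 cz lz0 lz1 w0 w1 w2 w3 w4' w5 w6 w7 fun v0 v1 v2 v3 v4 v5 v6 v7 =>
        k [(t0, v0), (t1, v1), (t2, v2), (t3, v3), (t4, v4), (t5, v5), (t6, v6), (t7, v7)]) = true) :
    ∃ tabs, k tabs = true ∧ G8 rd ks (ca * (cy * (cz * s))) (ca * (cy * (cz * bd))) a0' a1' y0' y1' z0' z1' tabs := by
  unfold c24 at hkk
  simp only [st8_eq] at hkk
  refine ⟨_, hkk, ?_⟩
  have p0 : ∀ u : ℕ, ∀ v w : ℝ, ∀ l c : ℕ, 0 < c → l ≤ c → 0 ≤ v ∧ v ≤ 1 → 0 ≤ w ∧ w ≤ 1 → ∀ x : ℝ,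
      (c : ℝ) * x = l * v + (c - l) * w → 0 ≤ x ∧ x ≤ 1 := by
    intro _ v w l c hc hl hv hw x hx
    have hcR : (0 : ℝ) < c := by exact_mod_cast hc
    have hlR : (l : ℝ) ≤ c := by exact_mod_cast hl
    have hl0 : (0 : ℝ) ≤ l := Nat.cast_nonneg _
    constructor
    · by_contra hcon
      push Not at hcon
      have h1 := mul_neg_of_pos_of_neg hcR hcon
      have h2 := mul_nonneg hl0 hv.1
      have h3 := mul_nonneg (sub_nonneg.mpr hlR) hw.1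
      linarith
    · by_contra hcon
      push Not at hcon
      have h1 := mul_lt_mul_of_pos_left hcon hcR
      have h2 := mul_le_mul_of_nonneg_left hv.2 hl0
      have h3 := mul_le_mul_of_nonneg_left hw.2 (sub_nonneg.mpr hlR)
      linarith
  have ca1 : 1 ≤ ca := hca
  have cy1 : 1 ≤ cy := hcy
  have cz1 : 1 ≤ cz := hcz
  have b1 : ca * bd < 2 ^ 64 := by
    refine lt_of_le_of_lt (Nat.mul_le_mul_left ca ?_) hb
    calc bd = 1 * (1 * bd) := by ring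
      _ ≤ cy * (cz * bd) := Nat.mul_le_mul cy1 (Nat.mul_le_mul_right _ cz1)
  have b2 : cy * (ca * bd) < 2 ^ 64 := by
    refine lt_of_le_of_lt ?_ hb
    calc cy * (ca * bd) = ca * (cy * (1 * bd)) := by ring
      _ ≤ ca * (cy * (cz * bd)) := Nat.mul_le_mul_left _ (Nat.mul_le_mul_left _ (Nat.mul_le_mul_right _ cz1))
  have b3 : cz * (cy * (ca * bd)) < 2 ^ 64 := by
    refine lt_of_le_of_lt (le_of_eq ?_) hb
    ring
  have g1 := st8_sound h hs ha0l ha1l hca ea0 ea1 ha0 ha1 hy0 hy1 hz0 hz1 hk b1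
  have q0 := p0 0 _ _ _ _ hca ha0l ha0 ha1 _ ea0
  have q1 := p0 0 _ _ _ _ hca ha1l ha0 ha1 _ ea1
  have g2 := st8_sound g1 (Nat.mul_pos hca hs) hy0l hy1l hcy ey0 ey1 hy0 hy1 hz0 hz1 q0 q1 hk b2
  have r0 := p0 0 _ _ _ _ hcy hy0l hy0 hy1 _ ey0
  have r1 := p0 0 _ _ _ _ hcy hy1l hy0 hy1 _ ey1
  have g3 := st8_sound g2 (Nat.mul_pos hcy (Nat.mul_pos hca hs)) hz0l hz1l hcz ez0 ez1 hz0 hz1 q0 q1 r0 r1 hk b3
  have es : cz * (cy * (ca * s)) = ca * (cy * (cz * s)) := by ring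
  have eb : cz * (cy * (ca * bd)) = ca * (cy * (cz * bd)) := by ring
  rw [es, eb] at g3
  exact g3

/-! ### lazy programs -/

/-- chord, with shortcuts -/
def chl (c l T0 T1 : ℕ) : ℕ :=
  cond (Nat.beq l (nat_lit 0)) (cond (Nat.beq c (nat_lit 1)) T1 (Nat.mul c T1))
    (cond (Nat.beq l c) (cond (Nat.beq c (nat_lit 1)) T0 (Nat.mul c T0))
      (Nat.add (Nat.mul l T0) (Nat.mul (Nat.sub c l) T1)))

lemma chl_eq (c l T0 T1 : ℕ) : chl c l T0 T1 = chd c l T0 T1 := by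
  unfold chl chd
  have e1 : ∀ a b : ℕ, Nat.mul a b = a * b := fun _ _ => rfl
  have e2 : ∀ a b : ℕ, Nat.add a b = a + b := fun _ _ => rfl
  have e3 : ∀ a b : ℕ, Nat.sub a b = a - b := fun _ _ => rfl
  simp only [e1, e2, e3]
  cases h0 : Nat.beq l (nat_lit 0) with
  | true =>
    have hl : l = 0 := Nat.eq_of_beq_eq_true h0
    subst hl
    cases h1 : Nat.beq c (nat_lit 1) with
    | true =>
      have hc : c = 1 := Nat.eq_of_beq_eq_true h1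
      subst hc
      simp
    | false => simp
  | false =>
    cases h2 : Nat.beq l c with
    | true =>
      have hl : l = c := Nat.eq_of_beq_eq_true h2
      subst hl
      cases h1 : Nat.beq l (nat_lit 1) with
      | true =>
        have hc : l = 1 := Nat.eq_of_beq_eq_true h1
        subst hc
        simp
      | false => simp
    | false => simp

/-- a stage (lazy) -/
def sl8 (c l0 l1 x0 x1 x2 x3 x4 x5 x6 x7 : ℕ) (k : ℕ → ℕ → ℕ → ℕ → ℕ → ℕ → ℕ → ℕ → Bool) : Bool :=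
  k (chl c l0 x0 x1) (chl c l0 x2 x3) (chl c l0 x4 x5) (chl c l0 x6 x7)
    (chl c l1 x0 x1) (chl c l1 x2 x3) (chl c l1 x4 x5) (chl c l1 x6 x7)

lemma sl8_eq (c l0 l1 x0 x1 x2 x3 x4 x5 x6 x7 : ℕ) (k : ℕ → ℕ → ℕ → ℕ → ℕ → ℕ → ℕ → ℕ → Bool) :
    sl8 c l0 l1 x0 x1 x2 x3 x4 x5 x6 x7 k = st8 c l0 l1 x0 x1 x2 x3 x4 x5 x6 x7 k := by
  rw [st8_eq]
  unfold sl8
  simp only [chl_eq]

/-- three stages (lazy) -/
def cl24 (ca la0 la1 cy ly0 ly1 cz lz0 lz1 x0 x1 x2 x3 x4 x5 x6 x7 : ℕ)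
    (k : ℕ → ℕ → ℕ → ℕ → ℕ → ℕ → ℕ → ℕ → Bool) : Bool :=
  sl8 ca la0 la1 x0 x1 x2 x3 x4 x5 x6 x7 fun y0 y1 y2 y3 y4 y5 y6 y7 =>
  sl8 cy ly0 ly1 y0 y1 y2 y3 y4 y5 y6 y7 fun z0 z1 z2 z3 z4 z5 z6 z7 =>
  sl8 cz lz0 lz1 z0 z1 z2 z3 z4 z5 z6 z7 k

lemma cl24_eq (ca la0 la1 cy ly0 ly1 cz lz0 lz1 x0 x1 x2 x3 x4 x5 x6 x7 : ℕ)
    (k : ℕ → ℕ → ℕ → ℕ → ℕ → ℕ → ℕ → ℕ → Bool) : cl24 ca la0 la1 cy ly0 ly1 cz lz0 lz1 x0 x1 x2 x3 x4 x5 x6 x7 k
      = c24 ca la0 la1 cy ly0 ly1 cz lz0 lz1 x0 x1 x2 x3 x4 x5 x6 x7 k := by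
  unfold cl24 c24
  simp only [sl8_eq]

/-! ### four corners: two special entries -/

/-- the two special entries at a corner -/
def Sq (a y : ℝ) : Multiset ℝ := a ::ₘ y ::ₘ 0

/-- four tables, index `ix ba bb false` -/
def G4 (rd ks : List ℕ) (s bd : ℕ) (a0 a1 y0 y1 : ℝ) (tabs : List (ℕ × ℕ)) : Prop :=
  tabs.length = 4 ∧ ∀ ba bb : Bool, Tb rd ks s bd (Sq (ed a0 a1 ba) (ed y0 y1 bb))
    (tabs.getD (ix ba bb false) (0, 0)).1 (tabs.getD (ix ba bb false) (0, 0)).2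

/-- a stage (lazy) -/
def sl4 (c l0 l1 x0 x1 x2 x3 : ℕ) (k : ℕ → ℕ → ℕ → ℕ → Bool) : Bool :=
  k (chl c l0 x0 x1) (chl c l0 x2 x3) (chl c l1 x0 x1) (chl c l1 x2 x3)

/-- two stages (lazy) -/
def cl8 (ca la0 la1 cy ly0 ly1 x0 x1 x2 x3 : ℕ) (k : ℕ → ℕ → ℕ → ℕ → Bool) : Bool :=
  sl4 ca la0 la1 x0 x1 x2 x3 fun y0 y1 y2 y3 => sl4 cy ly0 ly1 y0 y1 y2 y3 k

lemma Sq_rot (a y : ℝ) : Sq a y = Sq y a := by
  unfold Sq
  rw [Multiset.cons_swap a y]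

theorem st4_sound {rd ks : List ℕ} {s bd : ℕ} {a0 a1 y0 y1 a0' a1' : ℝ}
    {x0 x1 x2 x3 w0 w1 w2 w3 c l0 l1 : ℕ}
    (h : G4 rd ks s bd a0 a1 y0 y1 [(x0, w0), (x1, w1), (x2, w2), (x3, w3)])
    (hs : 0 < s) (hl0 : l0 ≤ c) (hl1 : l1 ≤ c) (hc : 0 < c)
    (e0 : (c : ℝ) * a0' = l0 * a0 + (c - l0) * a1) (e1 : (c : ℝ) * a1' = l1 * a0 + (c - l1) * a1)
    (ha0 : 0 ≤ a0 ∧ a0 ≤ 1) (ha1 : 0 ≤ a1 ∧ a1 ≤ 1) (hy0 : 0 ≤ y0 ∧ y0 ≤ 1) (hy1 : 0 ≤ y1 ∧ y1 ≤ 1)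
    (hk : ∀ k ∈ ks, k ≤ 200) (hb : c * bd < 2 ^ 64) :
    G4 rd ks (c * s) (c * bd) y0 y1 a0' a1'
      [(chd c l0 x0 x1, chd c l0 w0 w1), (chd c l0 x2 x3, chd c l0 w2 w3),
       (chd c l1 x0 x1, chd c l1 w0 w1), (chd c l1 x2 x3, chd c l1 w2 w3)] := by
  obtain ⟨-, h⟩ := h
  refine ⟨rfl, fun bb ba => ?_⟩
  have hS : ∀ z ∈ (ed y0 y1 bb) ::ₘ (0 : Multiset ℝ), 0 ≤ z ∧ z ≤ 1 := by
    intro z hz
    simp only [Multiset.mem_cons, Multiset.notMem_zero, or_false] at hz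
    subst hz
    cases bb
    · exact hy0
    · exact hy1
  have g0 := h false bb
  have g1 := h true bb
  have key : ∀ (l : ℕ) (u : ℝ), l ≤ c → (c : ℝ) * u = l * a0 + (c - l) * a1 → ∀ T0 W0 T1 W1,
      Tb rd ks s bd (Sq a0 (ed y0 y1 bb)) T0 W0 →
      Tb rd ks s bd (Sq a1 (ed y0 y1 bb)) T1 W1 →
      Tb rd ks (c * s) (c * bd) (Sq (ed y0 y1 bb) u) (chd c l T0 T1) (chd c l W0 W1) :=
    fun l u hl hu T0 W0 T1 W1 k0 k1 =>
      (Tb.chord k0 k1 hs hl hc hu ha0 ha1 hS hk hb).perm (Sq_rot u (ed y0 y1 bb))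
  cases bb <;> cases ba <;>
    first
      | exact key l0 a0' hl0 e0 _ _ _ _ g0 g1
      | exact key l1 a1' hl1 e1 _ _ _ _ g0 g1

/-- a chord point is in the unit interval -/
lemma chord01 {v w x : ℝ} {l c : ℕ} (hc : 0 < c) (hl : l ≤ c) (hv : 0 ≤ v ∧ v ≤ 1) (hw : 0 ≤ w ∧ w ≤ 1)
    (hx : (c : ℝ) * x = l * v + (c - l) * w) : 0 ≤ x ∧ x ≤ 1 := by
  have hcR : (0 : ℝ) < c := by exact_mod_cast hc
  have hlR : (l : ℝ) ≤ c := by exact_mod_cast hl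
  have hl0 : (0 : ℝ) ≤ l := Nat.cast_nonneg _
  constructor
  · by_contra hcon
    push Not at hcon
    have h1 := mul_neg_of_pos_of_neg hcR hcon
    have h2 := mul_nonneg hl0 hv.1
    have h3 := mul_nonneg (sub_nonneg.mpr hlR) hw.1
    linarith
  · by_contra hcon
    push Not at hcon
    have h1 := mul_lt_mul_of_pos_left hcon hcR
    have h2 := mul_le_mul_of_nonneg_left hv.2 hl0
    have h3 := mul_le_mul_of_nonneg_left hw.2 (sub_nonneg.mpr hlR)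
    linarith

/-- THE CORNERS OF A BOX from the corners of a cell of the grid, two special entries. -/
theorem cl8_sound {rd ks : List ℕ} {s bd : ℕ} {a0 a1 y0 y1 a0' a1' y0' y1' : ℝ}
    {x0 x1 x2 x3 w0 w1 w2 w3 ca la0 la1 cy ly0 ly1 : ℕ}
    (h : G4 rd ks s bd a0 a1 y0 y1 [(x0, w0), (x1, w1), (x2, w2), (x3, w3)])
    (hs : 0 < s) (ha0l : la0 ≤ ca) (ha1l : la1 ≤ ca) (hca : 0 < ca) (hy0l : ly0 ≤ cy) (hy1l : ly1 ≤ cy)
    (hcy : 0 < cy)
    (ea0 : (ca : ℝ) * a0' = la0 * a0 + (ca - la0) * a1) (ea1 : (ca : ℝ) * a1' = la1 * a0 + (ca - la1) * a1)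
    (ey0 : (cy : ℝ) * y0' = ly0 * y0 + (cy - ly0) * y1) (ey1 : (cy : ℝ) * y1' = ly1 * y0 + (cy - ly1) * y1)
    (ha0 : 0 ≤ a0 ∧ a0 ≤ 1) (ha1 : 0 ≤ a1 ∧ a1 ≤ 1) (hy0 : 0 ≤ y0 ∧ y0 ≤ 1) (hy1 : 0 ≤ y1 ∧ y1 ≤ 1)
    (hk : ∀ k ∈ ks, k ≤ 200) (hb : ca * (cy * bd) < 2 ^ 64) {k : List (ℕ × ℕ) → Bool}
    (hkk : cl8 ca la0 la1 cy ly0 ly1 x0 x1 x2 x3 (fun t0 t1 t2 t3 =>
      cl8 ca la0 la1 cy ly0 ly1 w0 w1 w2 w3 fun v0 v1 v2 v3 =>
        k [(t0, v0), (t1, v1), (t2, v2), (t3, v3)]) = true) :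
    ∃ tabs, k tabs = true ∧ G4 rd ks (ca * (cy * s)) (ca * (cy * bd)) a0' a1' y0' y1' tabs := by
  unfold cl8 sl4 at hkk
  simp only [chl_eq] at hkk
  refine ⟨_, hkk, ?_⟩
  have cy1 : 1 ≤ cy := hcy
  have b1 : ca * bd < 2 ^ 64 := by
    refine lt_of_le_of_lt (Nat.mul_le_mul_left ca ?_) hb
    calc bd = 1 * bd := by ring
      _ ≤ cy * bd := Nat.mul_le_mul_right _ cy1
  have b2 : cy * (ca * bd) < 2 ^ 64 := by
    refine lt_of_le_of_lt (le_of_eq ?_) hb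
    ring
  have g1 := st4_sound h hs ha0l ha1l hca ea0 ea1 ha0 ha1 hy0 hy1 hk b1
  have q0 := chord01 hca ha0l ha0 ha1 ea0
  have q1 := chord01 hca ha1l ha0 ha1 ea1
  have g2 := st4_sound g1 (Nat.mul_pos hca hs) hy0l hy1l hcy ey0 ey1 hy0 hy1 q0 q1 hk b2
  have es : cy * (ca * s) = ca * (cy * s) := by ring
  have eb : cy * (ca * bd) = ca * (cy * bd) := by ring
  rw [es, eb] at g2
  exact g2

end PkA
end Pool.Agent.Lib.MP_6947cd_al
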