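import Pool.Agent.Lib.MP_6947cd_al.C.Wlk
import Pool.Agent.Lib.MP_6947cd_al.C.Tb

/-!
Problem MP_6947cd_al (Chollet).  PACKED CHECK of a row with arbitrary special entries: one table for every
corner of the box of the special entries, all digits valid, unit `1 / s`.  Lazy terms only: the kernel evaluates every
closed term once and caches the value.
-/

set_option autoImplicit false
open Finset

namespace Pool.Agent.Lib.MP_6947cd_al
namespace PkA

open Ent Ent.Pk Fr Fr.WT B1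

/-! ### constants of a row -/

/-- the number of digits -/
noncomputable def prN (rd : List ℕ) : ℕ := @List.rec ℕ (fun _ => ℕ) (nat_lit 1) (fun r _ ih => Nat.mul r ih) rd

lemma prN_eq (rd : List ℕ) : prN rd = prd rd := by
  induction rd with
  | nil => rfl
  | cons r rd ih =>
    have e : prN (r :: rd) = Nat.mul r (prN rd) := rfl
    rw [e, ih]
    rfl

/-- all digits `1` -/
noncomputable def ONr (rd : List ℕ) : ℕ := one (prN rd)

/-- all digits `2 ^ 63` -/
noncomputable def HHr (rd : List ℕ) : ℕ := Nat.mul (nat_lit 9223372036854775808) (ONr rd)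

/-- the counting tables -/
noncomputable def cnl (rd : List ℕ) : ℕ → List ℕ :=
  @List.rec ℕ (fun _ => ℕ → List ℕ) (fun _ => [])
    (fun r rd' ih s => Nat.mul (Nat.mul (gm s (nat_lit 1)) (cm r s)) (gm (prN rd') (Nat.mul s r))
      :: ih (Nat.mul s r)) rd

lemma cnl_eq (rd : List ℕ) : ∀ s, cnl rd s = cnts rd s := by
  induction rd with
  | nil => intro s; rfl
  | cons r rd ih =>
    intro s
    have e : cnl (r :: rd) s = Nat.mul (Nat.mul (gm s (nat_lit 1)) (cm r s)) (gm (prN rd) (Nat.mul s r))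
      :: cnl rd (Nat.mul s r) := rfl
    rw [e, ih, prN_eq]
    rfl

/-- linear combination of the digits of the index -/
noncomputable def LNr (cs rd : List ℕ) : ℕ := linC cs (cnl rd (nat_lit 1))

lemma ONr_eq (rd : List ℕ) : ONr rd = pk (fun _ => 1) (prd rd) := by
  unfold ONr
  rw [prN_eq]
  exact one_eq _

lemma HHr_eq (rd : List ℕ) : HHr rd = pk (fun _ => 2 ^ 63) (prd rd) := by
  unfold HHr
  rw [ONr_eq]
  show 9223372036854775808 * pk (fun _ => 1) (prd rd) = _
  rw [pk_mul]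
  refine pk_congr _ _ _ fun i _ => ?_
  norm_num

lemma LNr_eq (cs rd : List ℕ) (h : CntOK rd (cnts rd 1)) :
    LNr cs rd = pk (fun i => Pk.dotN (CA.dig rd i) cs) (prd rd) := by
  unfold LNr
  rw [cnl_eq]
  exact lin_eq rd _ cs h

/-! ### the corners -/

/-- the corners, payers -/
noncomputable def crP (ONE HH K K2 H4 D1 DH GD a4 b4 bR s bd : ℕ) (tabs : List (ℕ × ℕ)) :
    List ℕ → List ℕ → ℕ → ℕ → ℕ → ℕ → (ℕ → ℕ → ℕ → ℕ → Bool) → Bool :=
  @List.rec (ℕ × ℕ) (fun _ => List ℕ → List ℕ → ℕ → ℕ → ℕ → ℕ → (ℕ → ℕ → ℕ → ℕ → Bool) → Bool)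
    (fun _ _ P1 P2 Q1 Q2 k => k P1 P2 Q1 Q2)
    (fun TW _ ih rs ls P1 P2 Q1 Q2 k => @Prod.rec ℕ ℕ (fun _ => Bool) (fun T W =>
      @List.rec ℕ (fun _ => Bool) false (fun r rs' _ => @List.rec ℕ (fun _ => Bool) false (fun lam ls' _ =>
        let r' := Nat.mul s r;
        let lam' := Nat.mul s lam;
        cond (Nat.ble (Nat.add r' bR) (nat_lit 9223372036854775807))
        (cond (Nat.ble lam' bd)
          (let Z := Nat.add (Nat.mul r' ONE) (Nat.mul b4 W);
           let RK := Nat.add K Z;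
           let F := Nat.sub RK (Nat.mul a4 T);
           let HW := Nat.add HH W;
           let R := Nat.sub HW (Nat.add T D1);
           ih rs' ls' (Nat.land (Nat.land P1 F) (Nat.sub RK H4))
            (Nat.land (Nat.land P2 F) (Nat.sub (Nat.add K2 Z) (Nat.mul (Nat.mul a4 lam') ONE)))
            (Nat.land (Nat.land Q1 R) (Nat.sub HW DH))
            (Nat.land (Nat.land Q2 R) (Nat.sub HW (Nat.add GD (Nat.mul lam' ONE)))) k) false) false) ls) rs) TW)
    tabs

/-- the corners, bad vertices -/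
noncomputable def crB (ONE HH K D1 a4 b4 bR s : ℕ) (tabs : List (ℕ × ℕ)) :
    List ℕ → ℕ → ℕ → (ℕ → ℕ → Bool) → Bool :=
  @List.rec (ℕ × ℕ) (fun _ => List ℕ → ℕ → ℕ → (ℕ → ℕ → Bool) → Bool)
    (fun _ P Q k => k P Q)
    (fun TW _ ih rs P Q k => @Prod.rec ℕ ℕ (fun _ => Bool) (fun T W =>
      @List.rec ℕ (fun _ => Bool) false (fun r rs' _ =>
        let r' := Nat.mul s r;
        cond (Nat.ble (Nat.add r' bR) (nat_lit 9223372036854775807))
          (ih rs' (Nat.land P (Nat.sub (Nat.add K (Nat.add (Nat.mul r' ONE) (Nat.mul b4 W))) (Nat.mul a4 T)))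
            (Nat.land Q (Nat.sub (Nat.add HH W) (Nat.add T D1))) k) false) rs) TW) tabs

/-- the corners, richness only -/
noncomputable def crR (HH D1 DH : ℕ) (tabs : List (ℕ × ℕ)) : ℕ → (ℕ → Bool) → Bool :=
  @List.rec (ℕ × ℕ) (fun _ => ℕ → (ℕ → Bool) → Bool)
    (fun Q k => k Q)
    (fun TW _ ih Q k => @Prod.rec ℕ ℕ (fun _ => Bool) (fun T W =>
        let HW := Nat.add HH W;
        ih (Nat.land (Nat.land Q (Nat.sub HW (Nat.add T D1))) (Nat.sub HW DH)) k) TW) tabs

/-- the facts at an index (first alternative: constant `vh`; second alternative, `al = true`: `lam + gam`) -/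
def Line8 (N a4 b4 s vh L : ℕ) (mx om gam : ℕ → ℕ) (al : Bool) (tabs : List (ℕ × ℕ)) (rs ls : List ℕ) (j : ℕ) :
    Prop :=
  j < N ∧ ∀ q < tabs.length,
    a4 * dg (tabs.getD q (0, 0)).1 j + om j + L ≤ s * rs.getD q 0 + b4 * dg (tabs.getD q (0, 0)).2 j + mx j ∧
    a4 * (bif al then s * ls.getD q 0 + gam j else vh) + om j + L
      ≤ s * rs.getD q 0 + b4 * dg (tabs.getD q (0, 0)).2 j + mx j

/-- richness -/
def Rich8 (N d s vh : ℕ) (gam : ℕ → ℕ) (al : Bool) (tabs : List (ℕ × ℕ)) (ls : List ℕ) (j : ℕ) : Prop :=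
  j < N ∧ ∀ q < tabs.length,
    dg (tabs.getD q (0, 0)).1 j + d ≤ dg (tabs.getD q (0, 0)).2 j ∧
    (bif al then s * ls.getD q 0 + gam j else vh) + d ≤ dg (tabs.getD q (0, 0)).2 j

/-- sizes of the tables -/
def Bd8 (N bd : ℕ) (tabs : List (ℕ × ℕ)) : Prop := ∀ q < tabs.length,
  (tabs.getD q (0, 0)).1 < 2 ^ (64 * N) ∧ (tabs.getD q (0, 0)).2 < 2 ^ (64 * N) ∧
  (∀ i < N, dg (tabs.getD q (0, 0)).1 i ≤ bd) ∧ ∀ i < N, dg (tabs.getD q (0, 0)).2 i ≤ bd

lemma Bd8.tail {N bd : ℕ} {t : ℕ × ℕ} {tabs : List (ℕ × ℕ)} (h : Bd8 N bd (t :: tabs)) : Bd8 N bd tabs := by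
  intro q hq
  have := h (q + 1) (by simp; omega)
  simpa using this

lemma mul_one_pk (N c : ℕ) : Nat.mul c (pk (fun _ => 1) N) = pk (fun _ => c) N := by
  show c * pk (fun _ => 1) N = _
  rw [pk_mul]
  simp

lemma hh_lt {N i : ℕ} (h : (pk (fun _ => 2 ^ 63) N).testBit (64 * i + 63) = true) : i < N := by
  by_contra hcon
  push Not at hcon
  have h1 : pk (fun _ => 2 ^ 63) N < 2 ^ (64 * i + 63) := lt_of_lt_of_le (pk_lt _ N fun _ _ => by norm_num)
    (Nat.pow_le_pow_right (by norm_num) (by omega))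
  rw [Nat.testBit_lt_two_pow h1] at h
  exact absurd h (by simp)

/-- the two differences at a corner -/
lemma F_bit (N a4 L : ℕ) (om mx z t : ℕ → ℕ) (h1 : ∀ i < N, z i + mx i < 2 ^ 63)
    (h2 : ∀ i < N, a4 * t i + om i + L ≤ 2 ^ 63) (i : ℕ) (hi : i < N)
    (h : (Nat.sub (Nat.add (pk (fun i => 2 ^ 63 + mx i - (om i + L)) N) (pk z N))
      (Nat.mul a4 (pk t N))).testBit (64 * i + 63) = true) : a4 * t i + om i + L ≤ z i + mx i := by
  have e : Nat.sub (Nat.add (pk (fun i => 2 ^ 63 + mx i - (om i + L)) N) (pk z N)) (Nat.mul a4 (pk t N))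
      = pk (fun i => 2 ^ 63 + mx i - (om i + L) + z i - a4 * t i) N := by
    show pk _ N + pk z N - a4 * pk t N = _
    rw [pk_add, pk_mul, pk_sub]
    intro i hi
    have := h2 i hi
    omega
  rw [e] at h
  have := (bit63 N _ (fun i => z i + mx i) (fun i => a4 * t i + om i + L) h1 h2
    (fun i hi => by have := h2 i hi; omega) i hi).mp h
  exact this

lemma G_bit (N a4 L lam : ℕ) (om mx z gam : ℕ → ℕ) (h1 : ∀ i < N, z i + mx i < 2 ^ 63)
    (h2 : ∀ i < N, a4 * (lam + gam i) + om i + L ≤ 2 ^ 63) (i : ℕ) (hi : i < N)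
    (h : (Nat.sub (Nat.add (pk (fun i => 2 ^ 63 + mx i - (om i + L) - a4 * gam i) N) (pk z N))
      (Nat.mul (Nat.mul a4 lam) (pk (fun _ => 1) N))).testBit (64 * i + 63) = true) :
    a4 * (lam + gam i) + om i + L ≤ z i + mx i := by
  have h2' : ∀ i < N, a4 * lam + a4 * gam i + om i + L ≤ 2 ^ 63 := by
    intro i hi
    have := h2 i hi
    rwa [Nat.mul_add] at this
  have e : Nat.sub (Nat.add (pk (fun i => 2 ^ 63 + mx i - (om i + L) - a4 * gam i) N) (pk z N))
      (Nat.mul (Nat.mul a4 lam) (pk (fun _ => 1) N))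
      = pk (fun i => 2 ^ 63 + mx i - (om i + L) - a4 * gam i + z i - a4 * lam) N := by
    rw [mul_one_pk]
    show pk _ N + pk z N - pk (fun _ => a4 * lam) N = _
    rw [pk_add, pk_sub]
    intro i hi
    have := h2' i hi
    omega
  rw [e] at h
  have := (bit63 N _ (fun i => z i + mx i) (fun i => a4 * lam + a4 * gam i + om i + L) h1 h2'
    (fun i hi => by have := h2' i hi; omega) i hi).mp h
  beta_reduce at this
  rw [Nat.mul_add]
  exact this

lemma W_bit (N : ℕ) (w f : ℕ → ℕ) (h1 : ∀ i < N, w i < 2 ^ 63) (h2 : ∀ i < N, f i ≤ 2 ^ 63) (i : ℕ) (hi : i < N)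
    (h : (Nat.sub (Nat.add (pk (fun _ => 2 ^ 63) N) (pk w N)) (pk f N)).testBit (64 * i + 63) = true) : f i ≤ w i :=
  (cmp_bit N w f h1 h2 i hi).mp h

theorem crP_sound (N a4 b4 vh d L bR s bd : ℕ) (mx om gam : ℕ → ℕ)
    (hR : ∀ i < N, b4 * bd + mx i ≤ bR) (hL : ∀ i < N, a4 * (2 * bd) + om i + L ≤ 2 ^ 63)
    (hg : ∀ i < N, gam i ≤ bd)
    (hv : vh ≤ bd) (hd : 2 * bd + d ≤ 2 ^ 63) (tabs : List (ℕ × ℕ)) : Bd8 N bd tabs → ∀ rs ls P1 P2 Q1 Q2 k,
    crP (pk (fun _ => 1) N) (pk (fun _ => 2 ^ 63) N) (pk (fun i => 2 ^ 63 + mx i - (om i + L)) N)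
      (pk (fun i => 2 ^ 63 + mx i - (om i + L) - a4 * gam i) N) (pk (fun _ => a4 * vh) N) (pk (fun _ => d) N)
      (pk (fun _ => d + vh) N) (pk (fun i => gam i + d) N) a4 b4 bR s bd tabs rs ls P1 P2 Q1 Q2 k = true →
    ∃ P1' P2' Q1' Q2', k P1' P2' Q1' Q2' = true ∧
      (∀ i, P1'.testBit (64 * i + 63) = true → P1.testBit (64 * i + 63) = true ∧ (i < N →
        Line8 N a4 b4 s vh L mx om gam false tabs rs ls i)) ∧
      (∀ i, P2'.testBit (64 * i + 63) = true → P2.testBit (64 * i + 63) = true ∧ (i < N →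
        Line8 N a4 b4 s vh L mx om gam true tabs rs ls i)) ∧
      (∀ i, Q1'.testBit (64 * i + 63) = true → Q1.testBit (64 * i + 63) = true ∧ (i < N →
        Rich8 N d s vh gam false tabs ls i)) ∧
      (∀ i, Q2'.testBit (64 * i + 63) = true → Q2.testBit (64 * i + 63) = true ∧ (i < N →
        Rich8 N d s vh gam true tabs ls i)) := by
  induction tabs with
  | nil =>
    intro _ rs ls P1 P2 Q1 Q2 k h
    exact ⟨P1, P2, Q1, Q2, h, fun i h => ⟨h, fun hi => ⟨hi, fun q hq => absurd hq (by simp)⟩⟩,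
      fun i h => ⟨h, fun hi => ⟨hi, fun q hq => absurd hq (by simp)⟩⟩,
      fun i h => ⟨h, fun hi => ⟨hi, fun q hq => absurd hq (by simp)⟩⟩,
      fun i h => ⟨h, fun hi => ⟨hi, fun q hq => absurd hq (by simp)⟩⟩⟩
  | cons TW tabs ih =>
    obtain ⟨T, W⟩ := TW
    intro hs rs ls P1 P2 Q1 Q2 k h
    cases rs with
    | nil => exact absurd h (by simp [crP])
    | cons r rs =>
      cases ls with
      | nil => exact absurd h (by simp [crP])
      | cons lam ls =>
        obtain ⟨ONE, hO⟩ : ∃ ONE, ONE = pk (fun _ => 1) N := ⟨_, rfl⟩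
        obtain ⟨HH, hH⟩ : ∃ HH, HH = pk (fun _ => 2 ^ 63) N := ⟨_, rfl⟩
        obtain ⟨K, hK⟩ : ∃ K, K = pk (fun i => 2 ^ 63 + mx i - (om i + L)) N := ⟨_, rfl⟩
        obtain ⟨K2, hK2⟩ : ∃ K2, K2 = pk (fun i => 2 ^ 63 + mx i - (om i + L) - a4 * gam i) N := ⟨_, rfl⟩
        obtain ⟨H4, hH4⟩ : ∃ H4, H4 = pk (fun _ => a4 * vh) N := ⟨_, rfl⟩
        obtain ⟨D1, hD1⟩ : ∃ D1, D1 = pk (fun _ => d) N := ⟨_, rfl⟩
        obtain ⟨DH, hDH⟩ : ∃ DH, DH = pk (fun _ => d + vh) N := ⟨_, rfl⟩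
        obtain ⟨GD, hGD⟩ : ∃ GD, GD = pk (fun i => gam i + d) N := ⟨_, rfl⟩
        rw [← hO, ← hH, ← hK, ← hK2, ← hH4, ← hD1, ← hDH, ← hGD] at h
        have e1 : crP ONE HH K K2 H4 D1 DH GD a4 b4 bR s bd ((T, W) :: tabs) (r :: rs) (lam :: ls) P1 P2 Q1 Q2 k
          = cond (Nat.ble (Nat.add (Nat.mul s r) bR) (nat_lit 9223372036854775807))
            (cond (Nat.ble (Nat.mul s lam) bd)
            (crP ONE HH K K2 H4 D1 DH GD a4 b4 bR s bd tabs rs ls
              (Nat.land (Nat.land P1 (Nat.sub (Nat.add K (Nat.add (Nat.mul (Nat.mul s r) ONE) (Nat.mul b4 W)))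
                (Nat.mul a4 T)))
                (Nat.sub (Nat.add K (Nat.add (Nat.mul (Nat.mul s r) ONE) (Nat.mul b4 W))) H4))
              (Nat.land (Nat.land P2 (Nat.sub (Nat.add K (Nat.add (Nat.mul (Nat.mul s r) ONE) (Nat.mul b4 W)))
                (Nat.mul a4 T)))
                (Nat.sub (Nat.add K2 (Nat.add (Nat.mul (Nat.mul s r) ONE) (Nat.mul b4 W)))
                  (Nat.mul (Nat.mul a4 (Nat.mul s lam)) ONE)))
              (Nat.land (Nat.land Q1 (Nat.sub (Nat.add HH W) (Nat.add T D1))) (Nat.sub (Nat.add HH W) DH))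
              (Nat.land (Nat.land Q2 (Nat.sub (Nat.add HH W) (Nat.add T D1)))
                (Nat.sub (Nat.add HH W) (Nat.add GD (Nat.mul (Nat.mul s lam) ONE)))) k) false) false := rfl
        rw [e1] at h
        obtain ⟨h1, h⟩ := cond_eq_true h
        obtain ⟨h2, h⟩ := cond_eq_true h
        have h1 : s * r + bR ≤ 9223372036854775807 := Nat.le_of_ble_eq_true h1
        have h2 : s * lam ≤ bd := Nat.le_of_ble_eq_true h2
        obtain ⟨s1, s2, s3, s4⟩ := hs 0 (by simp)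
        simp only [List.getD_cons_zero] at s1 s2 s3 s4
        rw [hO, hH, hK, hK2, hH4, hD1, hDH, hGD] at h
        obtain ⟨P1'', P2'', Q1'', Q2'', hk', f1, f2, f3, f4⟩ := ih hs.tail rs ls _ _ _ _ k h
        have eT : T = pk (dg T) N := (pk_dg N T s1).symm
        have eW : W = pk (dg W) N := (pk_dg N W s2).symm
        have eZ : Nat.add (Nat.mul (Nat.mul s r) (pk (fun _ => 1) N)) (Nat.mul b4 W)
            = pk (fun i => s * r + b4 * dg W i) N := by
          conv_lhs => rw [eW]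
          rw [mul_one_pk]
          show pk (fun _ => s * r) N + b4 * pk (dg W) N = _
          rw [pk_mul, pk_add]
        have hz : ∀ i < N, (s * r + b4 * dg W i) + mx i < 2 ^ 63 := by
          intro i hi
          have h4 := hR i hi
          have h5 : b4 * dg W i ≤ b4 * bd := Nat.mul_le_mul_left b4 (s4 i hi)
          omega
        have hTT : ∀ i < N, a4 * dg T i + om i + L ≤ 2 ^ 63 := by
          intro i hi
          have := hL i hi
          have h7 : a4 * dg T i ≤ a4 * (2 * bd) := Nat.mul_le_mul_left a4 (by have := s3 i hi; omega)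
          omega
        have hFb : ∀ i < N, (Nat.sub (Nat.add (pk (fun i => 2 ^ 63 + mx i - (om i + L)) N)
            (Nat.add (Nat.mul (Nat.mul s r) (pk (fun _ => 1) N)) (Nat.mul b4 W)))
            (Nat.mul a4 T)).testBit (64 * i + 63) = true → a4 * dg T i + om i + L ≤ s * r + b4 * dg W i + mx i := by
          intro i hi hb
          rw [eZ, eT] at hb
          exact F_bit N a4 L om mx _ (dg T) hz hTT i hi hb
        have hWb : ∀ f : ℕ → ℕ, (∀ i < N, f i ≤ 2 ^ 63) → ∀ i < N,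
            (Nat.sub (Nat.add (pk (fun _ => 2 ^ 63) N) W) (pk f N)).testBit (64 * i + 63) = true →
            f i ≤ dg W i := by
          intro f hf i hi hb
          rw [eW] at hb
          exact W_bit N (dg W) f (fun i hi => by have := s4 i hi; omega) hf i hi hb
        have hTD : Nat.add T (pk (fun _ => d) N) = pk (fun i => dg T i + d) N := by
          conv_lhs => rw [eT]
          show pk _ N + pk _ N = _
          rw [pk_add]
        have hRb : ∀ i < N, (Nat.sub (Nat.add (pk (fun _ => 2 ^ 63) N) W)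
            (Nat.add T (pk (fun _ => d) N))).testBit (64 * i + 63) = true → dg T i + d ≤ dg W i := by
          intro i hi hb
          rw [hTD] at hb
          exact hWb (fun i => dg T i + d) (fun i hi => by have := s3 i hi; show dg T i + d ≤ 2 ^ 63; omega) i hi hb
        refine ⟨P1'', P2'', Q1'', Q2'', hk', ?_, ?_, ?_, ?_⟩
        · intro i hb
          obtain ⟨a1, a2⟩ := f1 i hb
          obtain ⟨b1, b2⟩ := land_bit a1
          obtain ⟨b3, b4'⟩ := land_bit b1
          refine ⟨b3, fun hi => ⟨hi, fun q hq => ?_⟩⟩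
          have a2 := a2 hi
          have c1 := hFb i hi b4'
          have c2 : a4 * vh + om i + L ≤ s * r + b4 * dg W i + mx i := by
            rw [eZ] at b2
            have := F_bit N 1 L om mx (fun i => s * r + b4 * dg W i) (fun _ => a4 * vh) hz (fun i hi => by
              have := hL i hi
              have h7 : a4 * vh ≤ a4 * (2 * bd) := Nat.mul_le_mul_left a4 (by omega)
              omega) i hi (by
                rw [show Nat.mul 1 (pk (fun _ => a4 * vh) N) = pk (fun _ => a4 * vh) N from Nat.one_mul _]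
                exact b2)
            rw [Nat.one_mul] at this
            exact this
          cases q with
          | zero =>
            refine ⟨?_, ?_⟩
            · simp only [List.getD_cons_zero]; omega
            · simp only [List.getD_cons_zero, cond_false]; omega
          | succ q =>
            have hq' : q < tabs.length := by simpa using hq
            have := a2.2 q hq'
            simpa using this
        · intro i hb
          obtain ⟨a1, a2⟩ := f2 i hb
          obtain ⟨b1, b2⟩ := land_bit a1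
          obtain ⟨b3, b4'⟩ := land_bit b1
          refine ⟨b3, fun hi => ⟨hi, fun q hq => ?_⟩⟩
          have a2 := a2 hi
          have c1 := hFb i hi b4'
          have c2 : a4 * (s * lam + gam i) + om i + L ≤ s * r + b4 * dg W i + mx i := by
            rw [eZ] at b2
            exact G_bit N a4 L (s * lam) om mx (fun i => s * r + b4 * dg W i) gam hz (fun i hi => by
              have := hL i hi
              have h7 : a4 * (s * lam + gam i) ≤ a4 * (2 * bd) := Nat.mul_le_mul_left a4 (by have := hg i hi; omega)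
              omega) i hi b2
          cases q with
          | zero =>
            refine ⟨?_, ?_⟩
            · simp only [List.getD_cons_zero]; omega
            · simp only [List.getD_cons_zero, cond_true]; omega
          | succ q =>
            have hq' : q < tabs.length := by simpa using hq
            have := a2.2 q hq'
            simpa using this
        · intro i hb
          obtain ⟨a1, a2⟩ := f3 i hb
          obtain ⟨b1, b2⟩ := land_bit a1
          obtain ⟨b3, b4'⟩ := land_bit b1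
          refine ⟨b3, fun hi => ⟨hi, fun q hq => ?_⟩⟩
          have a2 := a2 hi
          have c1 := hRb i hi b4'
          have c2 : d + vh ≤ dg W i := hWb (fun _ => d + vh) (fun i hi => by show d + vh ≤ 2 ^ 63; omega) i hi b2
          cases q with
          | zero =>
            refine ⟨?_, ?_⟩
            · simp only [List.getD_cons_zero]; omega
            · simp only [List.getD_cons_zero, cond_false]; omega
          | succ q =>
            have hq' : q < tabs.length := by simpa using hq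
            have := a2.2 q hq'
            simpa using this
        · intro i hb
          obtain ⟨a1, a2⟩ := f4 i hb
          obtain ⟨b1, b2⟩ := land_bit a1
          obtain ⟨b3, b4'⟩ := land_bit b1
          refine ⟨b3, fun hi => ⟨hi, fun q hq => ?_⟩⟩
          have a2 := a2 hi
          have c1 := hRb i hi b4'
          have c2 : gam i + d + s * lam ≤ dg W i := by
            rw [mul_one_pk, show Nat.add (pk (fun i => gam i + d) N) (pk (fun _ => Nat.mul s lam) N)
              = pk (fun i => gam i + d + s * lam) N from pk_add _ _ _] at b2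
            exact hWb (fun i => gam i + d + s * lam) (fun i hi => by
              have := hg i hi
              show gam i + d + s * lam ≤ 2 ^ 63
              omega) i hi b2
          cases q with
          | zero =>
            refine ⟨?_, ?_⟩
            · simp only [List.getD_cons_zero]; omega
            · simp only [List.getD_cons_zero, cond_true]; omega
          | succ q =>
            have hq' : q < tabs.length := by simpa using hq
            have := a2.2 q hq'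
            simpa using this

theorem crB_sound (N a4 b4 d L bR s bd : ℕ) (mx om : ℕ → ℕ)
    (hR : ∀ i < N, b4 * bd + mx i ≤ bR) (hL : ∀ i < N, a4 * (2 * bd) + om i + L ≤ 2 ^ 63)
    (hd : 2 * bd + d ≤ 2 ^ 63) (tabs : List (ℕ × ℕ)) : Bd8 N bd tabs → ∀ rs P Q k,
    crB (pk (fun _ => 1) N) (pk (fun _ => 2 ^ 63) N) (pk (fun i => 2 ^ 63 + mx i - (om i + L)) N)
      (pk (fun _ => d) N) a4 b4 bR s tabs rs P Q k = true →
    ∃ P' Q', k P' Q' = true ∧
      (∀ i, P'.testBit (64 * i + 63) = true → P.testBit (64 * i + 63) = true ∧ (i < N →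
        ∀ q < tabs.length, a4 * dg (tabs.getD q (0, 0)).1 i + om i + L
          ≤ s * rs.getD q 0 + b4 * dg (tabs.getD q (0, 0)).2 i + mx i)) ∧
      (∀ i, Q'.testBit (64 * i + 63) = true → Q.testBit (64 * i + 63) = true ∧ (i < N →
        ∀ q < tabs.length, dg (tabs.getD q (0, 0)).1 i + d ≤ dg (tabs.getD q (0, 0)).2 i)) := by
  induction tabs with
  | nil =>
    intro _ rs P Q k h
    exact ⟨P, Q, h, fun i h => ⟨h, fun _ q hq => absurd hq (by simp)⟩,
      fun i h => ⟨h, fun _ q hq => absurd hq (by simp)⟩⟩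
  | cons TW tabs ih =>
    obtain ⟨T, W⟩ := TW
    intro hs rs P Q k h
    cases rs with
    | nil => exact absurd h (by simp [crB])
    | cons r rs =>
      obtain ⟨ONE, hO⟩ : ∃ ONE, ONE = pk (fun _ => 1) N := ⟨_, rfl⟩
      obtain ⟨HH, hH⟩ : ∃ HH, HH = pk (fun _ => 2 ^ 63) N := ⟨_, rfl⟩
      obtain ⟨K, hK⟩ : ∃ K, K = pk (fun i => 2 ^ 63 + mx i - (om i + L)) N := ⟨_, rfl⟩
      obtain ⟨D1, hD1⟩ : ∃ D1, D1 = pk (fun _ => d) N := ⟨_, rfl⟩
      rw [← hO, ← hH, ← hK, ← hD1] at h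
      have e1 : crB ONE HH K D1 a4 b4 bR s ((T, W) :: tabs) (r :: rs) P Q k
        = cond (Nat.ble (Nat.add (Nat.mul s r) bR) (nat_lit 9223372036854775807))
          (crB ONE HH K D1 a4 b4 bR s tabs rs
            (Nat.land P (Nat.sub (Nat.add K (Nat.add (Nat.mul (Nat.mul s r) ONE) (Nat.mul b4 W))) (Nat.mul a4 T)))
            (Nat.land Q (Nat.sub (Nat.add HH W) (Nat.add T D1))) k) false := rfl
      rw [e1] at h
      obtain ⟨h1, h⟩ := cond_eq_true h
      have h1 : s * r + bR ≤ 9223372036854775807 := Nat.le_of_ble_eq_true h1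
      obtain ⟨s1, s2, s3, s4⟩ := hs 0 (by simp)
      simp only [List.getD_cons_zero] at s1 s2 s3 s4
      rw [hO, hH, hK, hD1] at h
      obtain ⟨P'', Q'', hk', f1, f3⟩ := ih hs.tail rs _ _ k h
      have eT : T = pk (dg T) N := (pk_dg N T s1).symm
      have eW : W = pk (dg W) N := (pk_dg N W s2).symm
      have eZ : Nat.add (Nat.mul (Nat.mul s r) (pk (fun _ => 1) N)) (Nat.mul b4 W)
          = pk (fun i => s * r + b4 * dg W i) N := by
        conv_lhs => rw [eW]
        rw [mul_one_pk]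
        show pk (fun _ => s * r) N + b4 * pk (dg W) N = _
        rw [pk_mul, pk_add]
      have hz : ∀ i < N, (s * r + b4 * dg W i) + mx i < 2 ^ 63 := by
        intro i hi
        have h4 := hR i hi
        have h5 : b4 * dg W i ≤ b4 * bd := Nat.mul_le_mul_left b4 (s4 i hi)
        omega
      have hTT : ∀ i < N, a4 * dg T i + om i + L ≤ 2 ^ 63 := by
        intro i hi
        have := hL i hi
        have h7 : a4 * dg T i ≤ a4 * (2 * bd) := Nat.mul_le_mul_left a4 (by have := s3 i hi; omega)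
        omega
      have hTD : Nat.add T (pk (fun _ => d) N) = pk (fun i => dg T i + d) N := by
        conv_lhs => rw [eT]
        show pk _ N + pk _ N = _
        rw [pk_add]
      refine ⟨P'', Q'', hk', ?_, ?_⟩
      · intro i hb
        obtain ⟨a1, a2⟩ := f1 i hb
        obtain ⟨b1, b2⟩ := land_bit a1
        refine ⟨b1, fun hi q hq => ?_⟩
        have a2 := a2 hi
        rw [eZ, eT] at b2
        have c1 := F_bit N a4 L om mx _ (dg T) hz hTT i hi b2
        cases q with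
        | zero => simp only [List.getD_cons_zero]; omega
        | succ q =>
          have hq' : q < tabs.length := by simpa using hq
          have := a2 q hq'
          simpa using this
      · intro i hb
        obtain ⟨a1, a2⟩ := f3 i hb
        obtain ⟨b1, b2⟩ := land_bit a1
        refine ⟨b1, fun hi q hq => ?_⟩
        have a2 := a2 hi
        rw [hTD, eW] at b2
        have c1 := W_bit N (dg W) (fun i => dg T i + d) (fun i hi => by have := s4 i hi; omega)
          (fun i hi => by have := s3 i hi; show dg T i + d ≤ 2 ^ 63; omega) i hi b2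
        cases q with
        | zero => simp only [List.getD_cons_zero]; exact c1
        | succ q =>
          have hq' : q < tabs.length := by simpa using hq
          have := a2 q hq'
          simpa using this

theorem crR_sound (N d vh bd : ℕ) (hv : vh ≤ bd) (hd : 2 * bd + d ≤ 2 ^ 63) (tabs : List (ℕ × ℕ)) :
    Bd8 N bd tabs → ∀ Q k,
    crR (pk (fun _ => 2 ^ 63) N) (pk (fun _ => d) N) (pk (fun _ => d + vh) N) tabs Q k = true →
    ∃ Q', k Q' = true ∧
      (∀ i, Q'.testBit (64 * i + 63) = true → Q.testBit (64 * i + 63) = true ∧ (i < N →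
        ∀ q < tabs.length, dg (tabs.getD q (0, 0)).1 i + d ≤ dg (tabs.getD q (0, 0)).2 i ∧
          vh + d ≤ dg (tabs.getD q (0, 0)).2 i)) := by
  induction tabs with
  | nil =>
    intro _ Q k h
    exact ⟨Q, h, fun i h => ⟨h, fun _ q hq => absurd hq (by simp)⟩⟩
  | cons TW tabs ih =>
    obtain ⟨T, W⟩ := TW
    intro hs Q k h
    have e1 : crR (pk (fun _ => 2 ^ 63) N) (pk (fun _ => d) N) (pk (fun _ => d + vh) N) ((T, W) :: tabs) Q k
      = crR (pk (fun _ => 2 ^ 63) N) (pk (fun _ => d) N) (pk (fun _ => d + vh) N) tabs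
        (Nat.land (Nat.land Q (Nat.sub (Nat.add (pk (fun _ => 2 ^ 63) N) W) (Nat.add T (pk (fun _ => d) N))))
          (Nat.sub (Nat.add (pk (fun _ => 2 ^ 63) N) W) (pk (fun _ => d + vh) N))) k := rfl
    rw [e1] at h
    obtain ⟨Q', hQ, h5⟩ := ih hs.tail _ k h
    obtain ⟨s1, s2, s3, s4⟩ := hs 0 (by simp)
    simp only [List.getD_cons_zero] at s1 s2 s3 s4
    have eT : T = pk (dg T) N := (pk_dg N T s1).symm
    have eW : W = pk (dg W) N := (pk_dg N W s2).symm
    have hTD : Nat.add T (pk (fun _ => d) N) = pk (fun i => dg T i + d) N := by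
      conv_lhs => rw [eT]
      show pk _ N + pk _ N = _
      rw [pk_add]
    refine ⟨Q', hQ, fun i hb => ?_⟩
    obtain ⟨a1, a2⟩ := h5 i hb
    obtain ⟨g1, g2⟩ := land_bit a1
    obtain ⟨g3, g4⟩ := land_bit g1
    refine ⟨g3, fun hi => ?_⟩
    have a2 := a2 hi
    rw [hTD, eW] at g4
    rw [eW] at g2
    have c1 := W_bit N (dg W) (fun i => dg T i + d) (fun i hi => by have := s4 i hi; omega)
      (fun i hi => by have := s3 i hi; show dg T i + d ≤ 2 ^ 63; omega) i hi g4
    have c2 := W_bit N (dg W) (fun _ => d + vh) (fun i hi => by have := s4 i hi; omega)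
      (fun i hi => by show d + vh ≤ 2 ^ 63; omega) i hi g2
    beta_reduce at c1 c2
    intro q hq
    cases q with
    | zero =>
      simp only [List.getD_cons_zero]
      exact ⟨c1, by omega⟩
    | succ q =>
      have hq' : q < tabs.length := by simpa using hq
      have := a2 q hq'
      simpa using this

/-! ### the checks of a row -/

/-- the walk with the constants of the row -/
noncomputable def wlr (rd ks Ps : List ℕ) (T1 p1 lb : ℕ) (Xs : List ℕ) : Bool :=
  wlk (ONr rd) (HHr rd) (Nat.sub (HHr rd) (LNr ks rd)) (Nat.sub (HHr rd) (LNr Ps rd)) (Nat.add (HHr rd) (LNr ks rd))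
    T1 p1 lb (ldot rd Ps (nat_lit 0)) rd ks Ps (nat_lit 0) (nat_lit 64) (nat_lit 0) (nat_lit 0) (nat_lit 0)
    (nat_lit 0) (nat_lit 0) Xs

/-- preconditions -/
noncomputable def preC (rd ks Ps : List ℕ) (T1 p1 : ℕ) : Bool :=
  cond (Nat.ble (Nat.add T1 p1) (nat_lit 1152921504606846976))
  (cond (rmC T1 p1 rd ks Ps)
  (cond (Nat.ble (ldot rd Ps (nat_lit 0)) (nat_lit 4611686018427387903))
    (Nat.ble (ldot rd ks (nat_lit 0)) (nat_lit 4611686018427387903)) false) false) false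

/-- THE CHECK OF A ROW, payers: all the corners, all the cells. -/
noncomputable def rowP (rd ks Ps Os Rs Gs : List ℕ) (a4 b4 vh d s bd O T1 p1 lb : ℕ) (tabs : List (ℕ × ℕ))
    (rs ls : List ℕ) : Bool :=
  cond (preC rd ks Ps T1 p1)
  (let vh' := Nat.mul s vh;
   let d' := Nat.mul s d;
   let O' := Nat.mul s O;
   let bd2 := Nat.mul (nat_lit 2) bd;
  cond (Nat.ble (Nat.add bd2 d') (nat_lit 9223372036854775808))
  (cond (Nat.ble (Nat.mul s (ldot rd Gs (nat_lit 0))) bd) (cond (Nat.ble vh' bd)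
  (cond (Nat.ble (Nat.add (Nat.mul a4 bd2) (Nat.add (Nat.mul s (ldot rd Os (nat_lit 0))) O'))
    (nat_lit 9223372036854775808))
  (let K := Nat.sub (Nat.add (HHr rd) (Nat.mul s (LNr Rs rd))) (Nat.add (Nat.mul s (LNr Os rd)) (Nat.mul O' (ONr rd)));
   let Gam := Nat.mul s (LNr Gs rd);
    crP (ONr rd) (HHr rd) K (Nat.sub K (Nat.mul a4 Gam)) (Nat.mul (Nat.mul a4 vh') (ONr rd)) (Nat.mul d' (ONr rd))
      (Nat.mul (Nat.add d' vh') (ONr rd)) (Nat.add Gam (Nat.mul d' (ONr rd))) a4 b4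
      (Nat.add (Nat.mul b4 bd) (Nat.mul s (ldot rd Rs (nat_lit 0)))) s bd tabs rs ls
      (HHr rd) (HHr rd) (HHr rd) (HHr rd) fun P1 P2 Q1 Q2 => wlr rd ks Ps T1 p1 lb [P1, P2, Q1, Q2])
    false) false) false) false) false

/-- THE CHECK OF A ROW, bad vertices. -/
noncomputable def rowB (rd ks Ps Os Rs : List ℕ) (a4 b4 d s bd O T1 p1 lb : ℕ) (tabs : List (ℕ × ℕ))
    (rs : List ℕ) : Bool :=
  cond (preC rd ks Ps T1 p1)
  (let d' := Nat.mul s d;
   let O' := Nat.mul s O;
   let bd2 := Nat.mul (nat_lit 2) bd;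
  cond (Nat.ble (Nat.add bd2 d') (nat_lit 9223372036854775808))
  (cond (Nat.ble (Nat.add (Nat.mul a4 bd2) (Nat.add (Nat.mul s (ldot rd Os (nat_lit 0))) O'))
    (nat_lit 9223372036854775808))
  (crB (ONr rd) (HHr rd)
      (Nat.sub (Nat.add (HHr rd) (Nat.mul s (LNr Rs rd))) (Nat.add (Nat.mul s (LNr Os rd)) (Nat.mul O' (ONr rd))))
      (Nat.mul d' (ONr rd)) a4 b4
      (Nat.add (Nat.mul b4 bd) (Nat.mul s (ldot rd Rs (nat_lit 0)))) s tabs rs
      (HHr rd) (HHr rd) fun P Q => wlr rd ks Ps T1 p1 lb [P, Q])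
    false) false) false

/-- RICHNESS of all the cells. -/
noncomputable def rowR (rd ks Ps : List ℕ) (vh d s bd T1 p1 lb : ℕ) (tabs : List (ℕ × ℕ)) : Bool :=
  cond (preC rd ks Ps T1 p1)
  (let vh' := Nat.mul s vh;
   let d' := Nat.mul s d;
  cond (Nat.ble (Nat.add (Nat.mul (nat_lit 2) bd) d') (nat_lit 9223372036854775808))
  (cond (Nat.ble vh' bd)
  (crR (HHr rd) (Nat.mul d' (ONr rd)) (Nat.mul (Nat.add d' vh') (ONr rd)) tabs (HHr rd)
    fun Q => wlr rd ks Ps T1 p1 lb [Q]) false) false) false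

lemma preC_sound {rd ks Ps : List ℕ} {T1 p1 : ℕ} (h : preC rd ks Ps T1 p1 = true) :
    T1 + p1 ≤ 1152921504606846976 ∧ Pk.dotN rd Ps < 2 ^ 62 ∧ Pk.dotN rd ks < 2 ^ 62 ∧
    ∀ ns : List ℕ, ns.length = rd.length → Pk.dotN ns ks ≤ T1 → Pk.dotN ns Ps ≤ p1 → Rm2 ns rd := by
  unfold preC at h
  obtain ⟨h1, h⟩ := cond_eq_true h
  obtain ⟨h2, h⟩ := cond_eq_true h
  obtain ⟨h3, h⟩ := cond_eq_true h
  rw [ldot_eq, Nat.zero_add] at h3 h
  have h1 : T1 + p1 ≤ 1152921504606846976 := Nat.le_of_ble_eq_true h1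
  have h3 : Pk.dotN rd Ps ≤ 4611686018427387903 := Nat.le_of_ble_eq_true h3
  have h4 : Pk.dotN rd ks ≤ 4611686018427387903 := Nat.le_of_ble_eq_true h
  exact ⟨h1, by omega, by omega, fun ns hl a b => rmC_sound T1 p1 rd ks Ps ns h2 hl a b⟩

/-- the walk: some set contains all the corners of the cell -/
lemma wlr_sound {rd ks Ps : List ℕ} {T1 p1 lb : ℕ} {Xs : List ℕ} (hcnt : CntOK rd (cnts rd 1))
    (hk : ks.length = rd.length) (hP : Ps.length = rd.length) (hb : T1 + p1 ≤ 1152921504606846976)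
    (hX : Pk.dotN rd Ps < 2 ^ 62) (hR : Pk.dotN rd ks < 2 ^ 62) (h : wlr rd ks Ps T1 p1 lb Xs = true)
    (ns : List ℕ) (fs : List Bool) (hns : CA.OkD rd ns) (hfs : fs.length = rd.length)
    (h1 : Pk.dotN ns ks + lowN 0 ks fs ≤ T1) (h2 : Pk.dotN ns Ps + lowN 0 Ps fs ≤ p1)
    (h3 : lb ≤ Pk.dotN ns ks + uppN ks fs) :
    ∃ P ∈ Xs, ∀ o ∈ coff rd fs, P.testBit (64 * (CA.idx rd ns + o.2) + 63) = true := by
  have hi := idx_lt rd ns hns
  have hd := CA.dig_idx rd ns hns
  unfold wlr at h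
  have e1 : Nat.sub (HHr rd) (LNr ks rd) = pk (fun i => 2 ^ 63 - Pk.dotN (CA.dig rd i) ks) (prd rd) := by
    rw [HHr_eq, LNr_eq _ _ hcnt]
    exact pk_sub _ _ _ fun i hi => by have := dot_le_rd rd ks i hi; omega
  have e2 : Nat.sub (HHr rd) (LNr Ps rd) = pk (fun i => 2 ^ 63 - Pk.dotN (CA.dig rd i) Ps) (prd rd) := by
    rw [HHr_eq, LNr_eq _ _ hcnt]
    exact pk_sub _ _ _ fun i hi => by have := dot_le_rd rd Ps i hi; omega
  have e3 : Nat.add (HHr rd) (LNr ks rd) = pk (fun i => 2 ^ 63 + Pk.dotN (CA.dig rd i) ks) (prd rd) := by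
    rw [HHr_eq, LNr_eq _ _ hcnt]
    exact pk_add _ _ _
  rw [e1, e2, e3, ONr_eq, HHr_eq] at h
  obtain ⟨P, p1', p2⟩ := wlk_sound (prd rd) (fun i => Pk.dotN (CA.dig rd i) ks) (fun i => Pk.dotN (CA.dig rd i) Ps)
    T1 p1 lb _ (fun i hi => lt_of_le_of_lt (dot_le_rd rd ks i hi) hR)
    (fun i hi => lt_of_le_of_lt (dot_le_rd rd Ps i hi) hX) (by omega) (by omega) rd ks Ps 0 1 0 0 0 0 0 Xs h fs hk hP hfs
    (CA.idx rd ns) hi (by rw [hd, Nat.add_zero]; exact h1) (by rw [hd, Nat.add_zero]; exact h2)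
    (by rw [hd, Nat.add_zero]; exact h3)
  refine ⟨P, p1', fun o ho => ?_⟩
  have h5 := coff_offs rd fs 0 1 o ho
  rw [Nat.zero_mul, Nat.one_mul, Nat.zero_add] at h5
  exact p2 _ h5

/-- the constant of the lines -/
lemma K_eq {rd Os Rs : List ℕ} (hcnt : CntOK rd (cnts rd 1)) (s O : ℕ)
    (h : ∀ i < prd rd, s * Pk.dotN (CA.dig rd i) Os + s * O ≤ 2 ^ 63) :
    Nat.sub (Nat.add (HHr rd) (Nat.mul s (LNr Rs rd))) (Nat.add (Nat.mul s (LNr Os rd)) (Nat.mul (Nat.mul s O) (ONr rd)))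
      = pk (fun i => 2 ^ 63 + s * Pk.dotN (CA.dig rd i) Rs - (s * Pk.dotN (CA.dig rd i) Os + s * O)) (prd rd) := by
  rw [HHr_eq, LNr_eq _ _ hcnt, LNr_eq _ _ hcnt, ONr_eq, mul_one_pk]
  show pk _ _ + s * pk _ _ - (s * pk _ _ + pk _ _) = _
  rw [pk_mul, pk_mul, pk_add, pk_add]
  exact pk_sub _ _ _ fun i hi => by
    have := h i hi
    show s * Pk.dotN (CA.dig rd i) Os + s * O ≤ _
    omega

/-- SOUNDNESS of the check of a row, payers. -/
theorem rowP_sound (rd ks Ps Os Rs Gs : List ℕ) (hcnt : CntOK rd (cnts rd 1)) (hk : ks.length = rd.length)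
    (hP : Ps.length = rd.length) (a4 b4 vh d s bd O T1 p1 lb : ℕ) (tabs : List (ℕ × ℕ))
    (rs ls : List ℕ) (hs : Bd8 (prd rd) bd tabs)
    (h : rowP rd ks Ps Os Rs Gs a4 b4 vh d s bd O T1 p1 lb tabs rs ls = true)
    (ns : List ℕ) (fs : List Bool) (hln : ns.length = rd.length) (hfs : fs.length = rd.length)
    (h1 : Pk.dotN ns ks + lowN 0 ks fs ≤ T1) (h2 : Pk.dotN ns Ps + lowN 0 Ps fs ≤ p1)
    (h3 : lb ≤ Pk.dotN ns ks + uppN ks fs) :
    Rm2 ns rd ∧ ∃ al : Bool,
    (∀ o ∈ coff rd fs, Line8 (prd rd) a4 b4 s (s * vh) (s * O) (fun i => s * Pk.dotN (CA.dig rd i) Rs)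
        (fun i => s * Pk.dotN (CA.dig rd i) Os) (fun i => s * Pk.dotN (CA.dig rd i) Gs) al tabs rs ls
        (CA.idx rd ns + o.2)) ∨
    (∀ o ∈ coff rd fs, Rich8 (prd rd) (s * d) s (s * vh) (fun i => s * Pk.dotN (CA.dig rd i) Gs) al tabs ls
        (CA.idx rd ns + o.2)) := by
  unfold rowP at h
  obtain ⟨hp, h⟩ := cond_eq_true h
  obtain ⟨hb, hX, hR, hroom⟩ := preC_sound hp
  have hrm := hroom ns hln (by omega) (by omega)
  refine ⟨hrm, ?_⟩
  obtain ⟨hb1, h⟩ := cond_eq_true h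
  obtain ⟨hb2, h⟩ := cond_eq_true h
  obtain ⟨hb3, h⟩ := cond_eq_true h
  obtain ⟨hb4, h⟩ := cond_eq_true h
  simp only [ldot_eq, Nat.zero_add] at hb2 hb4 h
  have hb1 : 2 * bd + s * d ≤ 9223372036854775808 := Nat.le_of_ble_eq_true hb1
  have hb2 : s * Pk.dotN rd Gs ≤ bd := Nat.le_of_ble_eq_true hb2
  have hb3 : s * vh ≤ bd := Nat.le_of_ble_eq_true hb3
  have hb4 : a4 * (2 * bd) + (s * Pk.dotN rd Os + s * O) ≤ 9223372036854775808 := Nat.le_of_ble_eq_true hb4
  have bR : ∀ i < prd rd, b4 * bd + s * Pk.dotN (CA.dig rd i) Rs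
      ≤ Nat.add (Nat.mul b4 bd) (Nat.mul s (Pk.dotN rd Rs)) := by
    intro i hi
    show _ ≤ b4 * bd + s * Pk.dotN rd Rs
    exact Nat.add_le_add_left (Nat.mul_le_mul_left s (dot_le_rd rd Rs i hi)) _
  have bL : ∀ i < prd rd, a4 * (2 * bd) + s * Pk.dotN (CA.dig rd i) Os + s * O ≤ 2 ^ 63 := by
    intro i hi
    have := Nat.mul_le_mul_left s (dot_le_rd rd Os i hi)
    omega
  have bG : ∀ i < prd rd, s * Pk.dotN (CA.dig rd i) Gs ≤ bd := fun i hi =>
    (Nat.mul_le_mul_left s (dot_le_rd rd Gs i hi)).trans hb2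
  rw [K_eq hcnt s O (fun i hi => by have := bL i hi; omega)] at h
  have eG : Nat.mul s (LNr Gs rd) = pk (fun i => s * Pk.dotN (CA.dig rd i) Gs) (prd rd) := by
    rw [LNr_eq _ _ hcnt]
    exact pk_mul _ _ _
  have eK2 : Nat.sub (pk (fun i => 2 ^ 63 + s * Pk.dotN (CA.dig rd i) Rs - (s * Pk.dotN (CA.dig rd i) Os + s * O))
      (prd rd)) (Nat.mul a4 (pk (fun i => s * Pk.dotN (CA.dig rd i) Gs) (prd rd)))
      = pk (fun i => 2 ^ 63 + s * Pk.dotN (CA.dig rd i) Rs - (s * Pk.dotN (CA.dig rd i) Os + s * O)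
        - a4 * (s * Pk.dotN (CA.dig rd i) Gs)) (prd rd) := by
    show pk _ _ - a4 * pk _ _ = _
    rw [pk_mul]
    exact pk_sub _ _ _ fun i hi => by
      have e1 := bL i hi
      have e2 : a4 * (s * Pk.dotN (CA.dig rd i) Gs) ≤ a4 * (2 * bd) :=
        Nat.mul_le_mul_left a4 (by have := bG i hi; omega)
      omega
  have eGD : Nat.add (pk (fun i => s * Pk.dotN (CA.dig rd i) Gs) (prd rd)) (pk (fun _ => Nat.mul s d) (prd rd))
      = pk (fun i => s * Pk.dotN (CA.dig rd i) Gs + s * d) (prd rd) := pk_add _ _ _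
  simp only [eG, eK2, ONr_eq, HHr_eq, mul_one_pk, eGD] at h
  obtain ⟨P1, P2, Q1, Q2, h, g1, g2, g3, g4⟩ := crP_sound (prd rd) a4 b4 (s * vh) (s * d) (s * O) _ s bd
    (fun i => s * Pk.dotN (CA.dig rd i) Rs) (fun i => s * Pk.dotN (CA.dig rd i) Os)
    (fun i => s * Pk.dotN (CA.dig rd i) Gs) bR bL
    bG hb3 (by omega) tabs hs _ _ _ _ _ _ _ h
  obtain ⟨P, hP1, hP2⟩ := wlr_sound hcnt hk hP hb hX hR h ns fs hrm.okD hfs h1 h2 h3
  simp only [List.mem_cons, List.not_mem_nil, or_false] at hP1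
  rcases hP1 with rfl | rfl | rfl | rfl
  · exact ⟨false, Or.inl fun o ho => (g1 _ (hP2 o ho)).2 (hh_lt (g1 _ (hP2 o ho)).1)⟩
  · exact ⟨true, Or.inl fun o ho => (g2 _ (hP2 o ho)).2 (hh_lt (g2 _ (hP2 o ho)).1)⟩
  · exact ⟨false, Or.inr fun o ho => (g3 _ (hP2 o ho)).2 (hh_lt (g3 _ (hP2 o ho)).1)⟩
  · exact ⟨true, Or.inr fun o ho => (g4 _ (hP2 o ho)).2 (hh_lt (g4 _ (hP2 o ho)).1)⟩

/-- SOUNDNESS of the check of a row, bad vertices. -/
theorem rowB_sound (rd ks Ps Os Rs : List ℕ) (hcnt : CntOK rd (cnts rd 1)) (hk : ks.length = rd.length)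
    (hP : Ps.length = rd.length) (a4 b4 d s bd O T1 p1 lb : ℕ) (tabs : List (ℕ × ℕ))
    (rs : List ℕ) (hs : Bd8 (prd rd) bd tabs)
    (h : rowB rd ks Ps Os Rs a4 b4 d s bd O T1 p1 lb tabs rs = true)
    (ns : List ℕ) (fs : List Bool) (hln : ns.length = rd.length) (hfs : fs.length = rd.length)
    (h1 : Pk.dotN ns ks + lowN 0 ks fs ≤ T1) (h2 : Pk.dotN ns Ps + lowN 0 Ps fs ≤ p1)
    (h3 : lb ≤ Pk.dotN ns ks + uppN ks fs) :
    Rm2 ns rd ∧
    ((∀ o ∈ coff rd fs, ∀ q < tabs.length, a4 * dg (tabs.getD q (0, 0)).1 (CA.idx rd ns + o.2)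
        + s * Pk.dotN (CA.dig rd (CA.idx rd ns + o.2)) Os + s * O
      ≤ s * rs.getD q 0 + b4 * dg (tabs.getD q (0, 0)).2 (CA.idx rd ns + o.2)
        + s * Pk.dotN (CA.dig rd (CA.idx rd ns + o.2)) Rs) ∨
    (∀ o ∈ coff rd fs, ∀ q < tabs.length, dg (tabs.getD q (0, 0)).1 (CA.idx rd ns + o.2) + s * d
      ≤ dg (tabs.getD q (0, 0)).2 (CA.idx rd ns + o.2))) := by
  unfold rowB at h
  obtain ⟨hp, h⟩ := cond_eq_true h
  obtain ⟨hb, hX, hR, hroom⟩ := preC_sound hp
  have hrm := hroom ns hln (by omega) (by omega)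
  refine ⟨hrm, ?_⟩
  obtain ⟨hb1, h⟩ := cond_eq_true h
  obtain ⟨hb4, h⟩ := cond_eq_true h
  simp only [ldot_eq, Nat.zero_add] at hb4 h
  have hb1 : 2 * bd + s * d ≤ 9223372036854775808 := Nat.le_of_ble_eq_true hb1
  have hb4 : a4 * (2 * bd) + (s * Pk.dotN rd Os + s * O) ≤ 9223372036854775808 := Nat.le_of_ble_eq_true hb4
  have bR : ∀ i < prd rd, b4 * bd + s * Pk.dotN (CA.dig rd i) Rs
      ≤ Nat.add (Nat.mul b4 bd) (Nat.mul s (Pk.dotN rd Rs)) := by
    intro i hi
    show _ ≤ b4 * bd + s * Pk.dotN rd Rs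
    exact Nat.add_le_add_left (Nat.mul_le_mul_left s (dot_le_rd rd Rs i hi)) _
  have bL : ∀ i < prd rd, a4 * (2 * bd) + s * Pk.dotN (CA.dig rd i) Os + s * O ≤ 2 ^ 63 := by
    intro i hi
    have := Nat.mul_le_mul_left s (dot_le_rd rd Os i hi)
    omega
  rw [K_eq hcnt s O (fun i hi => by have := bL i hi; omega)] at h
  simp only [ONr_eq, HHr_eq, mul_one_pk] at h
  obtain ⟨P, Q, h, g1, g3⟩ := crB_sound (prd rd) a4 b4 (s * d) (s * O) _ s bd
    (fun i => s * Pk.dotN (CA.dig rd i) Rs) (fun i => s * Pk.dotN (CA.dig rd i) Os) bR bL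
    (by omega) tabs hs _ _ _ _ h
  obtain ⟨X, hP1, hP2⟩ := wlr_sound hcnt hk hP hb hX hR h ns fs hrm.okD hfs h1 h2 h3
  simp only [List.mem_cons, List.not_mem_nil, or_false] at hP1
  rcases hP1 with rfl | rfl
  · exact Or.inl fun o ho => (g1 _ (hP2 o ho)).2 (hh_lt (g1 _ (hP2 o ho)).1)
  · exact Or.inr fun o ho => (g3 _ (hP2 o ho)).2 (hh_lt (g3 _ (hP2 o ho)).1)

/-- SOUNDNESS of the check of richness. -/
theorem rowR_sound (rd ks Ps : List ℕ) (hcnt : CntOK rd (cnts rd 1)) (hk : ks.length = rd.length)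
    (hP : Ps.length = rd.length) (vh d s bd T1 p1 lb : ℕ) (tabs : List (ℕ × ℕ))
    (hs : Bd8 (prd rd) bd tabs) (h : rowR rd ks Ps vh d s bd T1 p1 lb tabs = true)
    (ns : List ℕ) (fs : List Bool) (hln : ns.length = rd.length) (hfs : fs.length = rd.length)
    (h1 : Pk.dotN ns ks + lowN 0 ks fs ≤ T1) (h2 : Pk.dotN ns Ps + lowN 0 Ps fs ≤ p1)
    (h3 : lb ≤ Pk.dotN ns ks + uppN ks fs) :
    Rm2 ns rd ∧ ∀ o ∈ coff rd fs, ∀ q < tabs.length, dg (tabs.getD q (0, 0)).1 (CA.idx rd ns + o.2) + s * d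
      ≤ dg (tabs.getD q (0, 0)).2 (CA.idx rd ns + o.2) ∧
      s * vh + s * d ≤ dg (tabs.getD q (0, 0)).2 (CA.idx rd ns + o.2) := by
  unfold rowR at h
  obtain ⟨hp, h⟩ := cond_eq_true h
  obtain ⟨hb, hX, hR, hroom⟩ := preC_sound hp
  have hrm := hroom ns hln (by omega) (by omega)
  refine ⟨hrm, ?_⟩
  obtain ⟨hb1, h⟩ := cond_eq_true h
  obtain ⟨hb3, h⟩ := cond_eq_true h
  have hb1 : 2 * bd + s * d ≤ 9223372036854775808 := Nat.le_of_ble_eq_true hb1
  have hb3 : s * vh ≤ bd := Nat.le_of_ble_eq_true hb3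
  simp only [ONr_eq, HHr_eq, mul_one_pk] at h
  obtain ⟨Q, h, g⟩ := crR_sound (prd rd) (s * d) (s * vh) bd hb3 (by omega) tabs hs _ _ h
  obtain ⟨X, hP1, hP2⟩ := wlr_sound hcnt hk hP hb hX hR h ns fs hrm.okD hfs h1 h2 h3
  simp only [List.mem_cons, List.not_mem_nil, or_false] at hP1
  subst hP1
  exact fun o ho => (g _ (hP2 o ho)).2 (hh_lt (g _ (hP2 o ho)).1)

end PkA
end Pool.Agent.Lib.MP_6947cd_al
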