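import Pool.Agent.Lib.MP_6947cd_al.Z.RealA
import Pool.Agent.Lib.MP_6947cd_al.Z.Cell2
import Pool.Agent.Lib.MP_6947cd_al.C.Ip
import Pool.Agent.Lib.MP_6947cd_al.C.Comb

/-!
Problem MP_6947cd_al (Chollet).  CASE C: coordinatewise convexity of the parts of the leaf function.

Coordinates: `0 = h`, `1 = t`, `2 = s`, `3 = g1`, `4 = g2`, `5 = g3`, `6 = r` (free rest of the row `i`).
-/

set_option autoImplicit false
open Finset

namespace Pool.Agent.Lib.MP_6947cd_al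
namespace C1

open Ent Fr Fr.WT CC B1

section gen

variable {ι : Type} [DecidableEq ι] {lo hi : ι → ℝ}

/-- three special entries -/
lemma cc3g (h0 : ∀ i, 0 ≤ lo i) (h1 : ∀ i, hi i ≤ 1) {a b c : ι} (hab : a ≠ b) (hac : a ≠ c)
    (hbc : b ≠ c) (N : Multiset ℝ) (hN : ∀ e ∈ N, 0 ≤ e ∧ e ≤ 1) :
    Cc lo hi fun v => FM (1 ::ₘ v a ::ₘ v b ::ₘ v c ::ₘ N) := by
  have := cc_FM h0 h1 [a, b, c] (by simp [hab, hac, hbc]) N hN
  refine this.congr fun v _ => ?_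
  simp only [List.map_cons, List.map_nil]
  rw [← Multiset.cons_coe, ← Multiset.cons_coe, ← Multiset.cons_coe, Multiset.coe_nil,
    Multiset.cons_add, Multiset.cons_add, Multiset.cons_add, zero_add]

/-- four special entries -/
lemma cc4g (h0 : ∀ i, 0 ≤ lo i) (h1 : ∀ i, hi i ≤ 1) {a b c d : ι} (hL : [a, b, c, d].Nodup)
    (N : Multiset ℝ) (hN : ∀ e ∈ N, 0 ≤ e ∧ e ≤ 1) :
    Cc lo hi fun v => FM (1 ::ₘ v a ::ₘ v b ::ₘ v c ::ₘ v d ::ₘ N) := by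
  have := cc_FM h0 h1 [a, b, c, d] hL N hN
  refine this.congr fun v _ => ?_
  simp only [List.map_cons, List.map_nil]
  rw [← Multiset.cons_coe, ← Multiset.cons_coe, ← Multiset.cons_coe, ← Multiset.cons_coe, Multiset.coe_nil,
    Multiset.cons_add, Multiset.cons_add, Multiset.cons_add, Multiset.cons_add, zero_add]

lemma ma3g (a b c : ι) (k : ℝ) : Ma fun v : ι → ℝ => v a + v b + v c + k :=
  (((Ma.coord a).add (Ma.coord b)).add (Ma.coord c)).add (Ma.const k)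

/-- the row functional -/
lemma cc_UJg (h0 : ∀ i, 0 ≤ lo i) (h1 : ∀ i, hi i ≤ 1) {A β : ℝ} (hA : 0 ≤ A) (hβ : 0 ≤ β) (c : B2.Af)
    (φ : ℝ → ℝ) {a b d : ι} (hab : a ≠ b) (had : a ≠ d) (hbd : b ≠ d) (M : Multiset ℝ)
    (hM : ∀ e ∈ M, 0 ≤ e ∧ e ≤ 1) : Cc lo hi fun v => B2.UJ A β c φ (v a) (v b) (v d) M := by
  have hF := cc3g h0 h1 hab had hbd M hM
  have hc : Ma fun v : ι → ℝ => c.val (v a) (v b) (v d) := by
    have := (((Ma.const c.p).add ((Ma.coord a).smul c.pb)).add ((Ma.coord b).smul c.pg)).add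
      ((Ma.coord d).smul c.py)
    exact this
  have h2 := (hF.max (hc.cc (lo := lo) (hi := hi))).smul (add_nonneg hA hβ)
  have h3 := (cc_negWd (lo := lo) (hi := hi) (ma3g a b d M.sum)).smul hβ
  refine ((h2.add h3).add (Cc.const (M.map φ).sum)).congr fun v _ => ?_
  unfold B2.UJ
  ring

end gen

/-- the coefficient of a payer is convex in the entry -/
lemma Kf_convex {ρ a0 a1 : ℝ} (h0 : 0 < a0) (hρ : 0 ≤ ρ) : ConvexOn ℝ (Set.Icc a0 a1) fun a => Kf a ρ := by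
  have e : ∀ a ∈ Set.Icc a0 a1, 4 / 3 * a ^ (-1 : ℤ) + 4 * ρ / 3 * a ^ (-2 : ℤ) - 1 / 3 = Kf a ρ := by
    intro a ha
    have h1 : a ≠ 0 := (h0.trans_le ha.1).ne'
    unfold Kf
    rw [zpow_neg_one, show (-2 : ℤ) = -(2 : ℤ) by norm_num, zpow_neg, zpow_ofNat]
    field_simp
    ring
  have hs : Set.Icc a0 a1 ⊆ Set.Ioi 0 := fun a ha => h0.trans_le ha.1
  have c1 : ConvexOn ℝ (Set.Icc a0 a1) fun a : ℝ => a ^ (-1 : ℤ) :=
    (convexOn_zpow (-1)).subset hs (convex_Icc _ _)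
  have c2 : ConvexOn ℝ (Set.Icc a0 a1) fun a : ℝ => a ^ (-2 : ℤ) :=
    (convexOn_zpow (-2)).subset hs (convex_Icc _ _)
  have := ((c1.smul (show (0 : ℝ) ≤ 4 / 3 by norm_num)).add (c2.smul (show 0 ≤ 4 * ρ / 3 by positivity))).add
    (convexOn_const (-(1 / 3)) (convex_Icc a0 a1))
  refine this.congr fun a ha => ?_
  rw [← e a ha]
  simp only [smul_eq_mul, Pi.add_apply, Pi.smul_apply]
  ring

lemma Kf_affine (a ρ : ℝ) : Kf a ρ = Kf a 0 + 4 / (3 * a ^ 2) * ρ := by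
  unfold Kf
  ring

/-- the coefficient of a payer is convex in every coordinate -/
lemma cc_Kf {ι : Type} [DecidableEq ι] {lo hi : ι → ℝ} (j : ι) (h0 : 0 < lo j) {ρ : (ι → ℝ) → ℝ} (hρ : Ma ρ)
    (hd : ∀ v u, ρ (Function.update v j u) = ρ v) (hp : ∀ v, Box lo hi v → 0 ≤ ρ v) :
    Cc lo hi fun v => Kf (v j) (ρ v) := by
  intro v hv i
  by_cases h : i = j
  · subst h
    refine (Kf_convex (a1 := hi i) h0 (hp v hv)).congr fun u _ => ?_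
    beta_reduce
    rw [Function.update_self, hd]
  · obtain ⟨p, q, h1⟩ := hρ v i
    have e : (fun u => Kf (Function.update v i u j) (ρ (Function.update v i u)))
        = fun u => (Kf (v j) 0 + 4 / (3 * v j ^ 2) * p) + (4 / (3 * v j ^ 2) * q) * u := by
      funext u
      rw [Function.update_of_ne (fun h2 => h h2.symm), Kf_affine, h1]
      ring
    beta_reduce
    rw [e]
    refine ⟨convex_Icc _ _, fun x _ y _ a b _ _ hab => le_of_eq ?_⟩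
    simp only [smul_eq_mul]
    calc _ = (a + b) * (Kf (v j) 0 + 4 / (3 * v j ^ 2) * p) + (4 / (3 * v j ^ 2) * q) * (a * x + b * y) := by
            rw [hab, one_mul]
      _ = _ := by ring

/-- the row `i` -/
noncomputable def FI (h t s r m : ℝ) (q : ℕ) : ℝ := FM (1 ::ₘ h ::ₘ t ::ₘ s ::ₘ r ::ₘ Multiset.replicate q m)

/-- the value at the total -/
noncomputable def WI (h t s r m : ℝ) (q : ℕ) : ℝ := Wc (h + t + s + (r + q * m))

/-- the row `i`, all the terms without the payments -/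
noncomputable def RI (lam w A h t s r m : ℝ) (q : ℕ) : ℝ :=
  (1 + lam) * FI h t s r m q - lam * WI h t s r m q
    + w * (43 / 200 * (r + q * m) + 39 / 200 * (r ^ 2 + q * m ^ 2)) + A * (r + q * m)

section seven

variable {lo hi : Fin 7 → ℝ}

lemma cc_FI (h0 : ∀ i, 0 ≤ lo i) (h1 : ∀ i, hi i ≤ 1) {m : ℝ} (m0 : 0 ≤ m) (m1 : m ≤ 1) (q : ℕ) :
    Cc lo hi fun v => FI (v 0) (v 1) (v 2) (v 6) m q := by
  refine cc4g h0 h1 (by decide) _ ?_
  intro e he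
  rw [Multiset.eq_of_mem_replicate he]
  exact ⟨m0, m1⟩

lemma ma_R (m : ℝ) (q : ℕ) : Ma fun v : Fin 7 → ℝ => v 6 + q * m := (Ma.coord 6).add (Ma.const _)

lemma ma_T (m : ℝ) (q : ℕ) : Ma fun v : Fin 7 → ℝ => v 0 + v 1 + v 2 + (v 6 + q * m) :=
  (((Ma.coord 0).add (Ma.coord 1)).add (Ma.coord 2)).add (ma_R m q)

lemma cc_DI (h0 : ∀ i, 0 ≤ lo i) (h1 : ∀ i, hi i ≤ 1) {m : ℝ} (m0 : 0 ≤ m) (m1 : m ≤ 1) (q : ℕ) :
    Cc lo hi fun v => FI (v 0) (v 1) (v 2) (v 6) m q - WI (v 0) (v 1) (v 2) (v 6) m q := by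
  have := (cc_FI h0 h1 m0 m1 q).add (cc_negWc (lo := lo) (hi := hi) (ma_T m q))
  refine this.congr fun v _ => ?_
  unfold WI
  ring

lemma cc_RI (h0 : ∀ i, 0 ≤ lo i) (h1 : ∀ i, hi i ≤ 1) {lam w A m : ℝ} (hl : 0 ≤ lam) (hw : 0 ≤ w)
    (m0 : 0 ≤ m) (m1 : m ≤ 1) (q : ℕ) : Cc lo hi fun v => RI lam w A (v 0) (v 1) (v 2) (v 6) m q := by
  have s1 := (cc_FI (lo := lo) (hi := hi) h0 h1 m0 m1 q).smul (show 0 ≤ 1 + lam by linarith)
  have s2 := (cc_negWc (lo := lo) (hi := hi) (ma_T m q)).smul hl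
  have s3 := ((Ma.coord (6 : Fin 7)).sq (lo := lo) (hi := hi)).smul (show 0 ≤ w * (39 / 200) by positivity)
  have s4 : Ma fun v : Fin 7 → ℝ => (w * (43 / 200) + A) * (v 6 + q * m) + w * (39 / 200) * (q * m ^ 2) :=
    ((ma_R m q).smul _).add (Ma.const _)
  refine (((s1.add s2).add s3).add s4.cc).congr fun v _ => ?_
  unfold RI WI
  ring

/-- the point -/
noncomputable def vec7 (h t s g1 g2 g3 r : ℝ) : Fin 7 → ℝ := ![h, t, s, g1, g2, g3, r]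

/-- THE CORNERS BOUND THE TOTAL FUNCTION. -/
theorem total_le7 (hlh : ∀ i, lo i < hi i) (h0 : ∀ i, 0 ≤ lo i) (h1 : ∀ i, hi i ≤ 1) {lam w A m : ℝ} {q : ℕ}
    (hl : 0 ≤ lam) (hw : 0 ≤ w) (m0 : 0 ≤ m) (m1 : m ≤ 1)
    {A1 β1 A2 β2 A3 β3 : ℝ} (hA1 : 0 ≤ A1) (hβ1 : 0 ≤ β1) (hA2 : 0 ≤ A2) (hβ2 : 0 ≤ β2) (hA3 : 0 ≤ A3)
    (hβ3 : 0 ≤ β3) (c1 c2 c3 : B2.Af) (φ1 φ2 φ3 : ℝ → ℝ) {S : (Fin 7 → ℝ) → ℝ} (hS : Cc lo hi S)
    {N1 N2 N3 : Multiset ℝ} (hN1 : ∀ e ∈ N1, 0 ≤ e ∧ e ≤ 1) (hN2 : ∀ e ∈ N2, 0 ≤ e ∧ e ≤ 1)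
    (hN3 : ∀ e ∈ N3, 0 ≤ e ∧ e ≤ 1) {Mc Φc : (Fin 7 → Bool) → ℝ} {E : Fin 7 → ℝ} (hE : ∀ i, 0 ≤ E i)
    (hMΦ : ∀ i, ∀ e e' : Fin 7 → Bool,
      -((Φc (Function.update e i true) - Φc (Function.update e i false))
        * (Mc (Function.update e' i true) - Mc (Function.update e' i false))) ≤ 4 * E i)
    (hc : ∀ e : Fin 7 → Bool, Φc e * Mc e
      + (RI lam w A (corner lo hi e 0) (corner lo hi e 1) (corner lo hi e 2) (corner lo hi e 6) m q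
        + B2.UJ A1 β1 c1 φ1 (corner lo hi e 0) (corner lo hi e 3) (corner lo hi e 4) N1
        + B2.UJ A2 β2 c2 φ2 (corner lo hi e 1) (corner lo hi e 3) (corner lo hi e 5) N2
        + B2.UJ A3 β3 c3 φ3 (corner lo hi e 2) (corner lo hi e 4) (corner lo hi e 5) N3
        + S (corner lo hi e)) ≤ -∑ i, E i) {v : Fin 7 → ℝ} (hv : Box lo hi v) :
    Ip lo hi Φc v * Ip lo hi Mc v + (RI lam w A (v 0) (v 1) (v 2) (v 6) m q
      + B2.UJ A1 β1 c1 φ1 (v 0) (v 3) (v 4) N1 + B2.UJ A2 β2 c2 φ2 (v 1) (v 3) (v 5) N2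
      + B2.UJ A3 β3 c3 φ3 (v 2) (v 4) (v 5) N3 + S v) ≤ 0 := by
  have a0 := cc_RI (lo := lo) (hi := hi) h0 h1 (A := A) hl hw m0 m1 q
  have a1 := cc_UJg (lo := lo) (hi := hi) h0 h1 hA1 hβ1 c1 φ1 (a := 0) (b := 3) (d := 4) (by decide) (by decide)
    (by decide) N1 hN1
  have a2 := cc_UJg (lo := lo) (hi := hi) h0 h1 hA2 hβ2 c2 φ2 (a := 1) (b := 3) (d := 5) (by decide) (by decide)
    (by decide) N2 hN2
  have a3 := cc_UJg (lo := lo) (hi := hi) h0 h1 hA3 hβ3 c3 φ3 (a := 2) (b := 4) (d := 5) (by decide) (by decide)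
    (by decide) N3 hN3
  have := prod_le hlh (Ip_ma lo hi Φc) (Ip_ma lo hi Mc) ((((a0.add a1).add a2).add a3).add hS) hE
    (fun i e e' => by
      rw [Ip_corner hlh, Ip_corner hlh, Ip_corner hlh, Ip_corner hlh]
      exact hMΦ i e e')
    (C := -∑ i, E i) (fun e => by
      rw [Ip_corner hlh, Ip_corner hlh]
      exact hc e) hv
  linarith

end seven

end C1
end Pool.Agent.Lib.MP_6947cd_al
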