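import Pool.Agent.Lib.MP_6947cd_al.C.Cut

/-!
Problem MP_6947cd_al (Chollet).  CASE C: the row `i` in the check of a leaf: corners of `(h, t, s, r)`, the factors
`Φ`, `M`, the error of the product, the thresholds of the payers.
-/

set_option autoImplicit false
open Finset

namespace Pool.Agent.Lib.MP_6947cd_al
namespace C1

open Ent Ent.Pk Fr Fr.WT CC B1 PkA

/-! ### maxima -/

def mxf (a b : ℕ) : ℕ := frc a fun x => frc b fun y => cond (Nat.ble x y) y x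

lemma mxf_eq (a b : ℕ) : mxf a b = max a b := by
  unfold mxf
  rw [frc_eq, frc_eq]
  exact mx_eq a b

/-- maximum of eight values -/
def mx8 (f : Bool → Bool → Bool → ℕ) : ℕ :=
  mxf (mxf (mxf (f false false false) (f true false false)) (mxf (f false true false) (f true true false)))
    (mxf (mxf (f false false true) (f true false true)) (mxf (f false true true) (f true true true)))

lemma le_mx8 (f : Bool → Bool → Bool → ℕ) (a b c : Bool) : f a b c ≤ mx8 f := by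
  unfold mx8
  simp only [mxf_eq]
  cases a <;> cases b <;> cases c <;> simp only [le_max_iff, le_refl, true_or, or_true]

/-! ### the error of the product -/

/-- increase along the edges of one direction -/
noncomputable def pU (ι : Bool → Bool → Bool → Bool → ℕ) (l : List ℕ) : ℕ :=
  mx8 fun a b c => Nat.sub (gt l (ι true a b c)) (gt l (ι false a b c))

noncomputable def qU (ι : Bool → Bool → Bool → Bool → ℕ) (l : List ℕ) : ℕ :=
  mx8 fun a b c => Nat.sub (gt l (ι false a b c)) (gt l (ι true a b c))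

/-- the error of one direction, times four -/
noncomputable def eD (ι : Bool → Bool → Bool → Bool → ℕ) (x y : List ℕ) : ℕ :=
  mxf (Nat.mul (pU ι x) (qU ι y)) (Nat.mul (qU ι x) (pU ι y))

def ι0 (x a b c : Bool) : ℕ := i4 x a b c
def ι1 (x a b c : Bool) : ℕ := i4 a x b c
def ι2 (x a b c : Bool) : ℕ := i4 a b x c
def ι3 (x a b c : Bool) : ℕ := i4 a b c x

lemma eD_sound (ι : Bool → Bool → Bool → Bool → ℕ) (x y : List ℕ) (a b c a' b' c' : Bool) :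
    -((((x.getD (ι true a b c) 0 : ℕ) : ℝ) - (x.getD (ι false a b c) 0 : ℕ))
      * (((y.getD (ι true a' b' c') 0 : ℕ) : ℝ) - (y.getD (ι false a' b' c') 0 : ℕ))) ≤ (eD ι x y : ℕ) := by
  obtain ⟨x1, hx1⟩ : ∃ z, z = x.getD (ι true a b c) 0 := ⟨_, rfl⟩
  obtain ⟨x0, hx0⟩ : ∃ z, z = x.getD (ι false a b c) 0 := ⟨_, rfl⟩
  obtain ⟨y1, hy1⟩ : ∃ z, z = y.getD (ι true a' b' c') 0 := ⟨_, rfl⟩
  obtain ⟨y0, hy0⟩ : ∃ z, z = y.getD (ι false a' b' c') 0 := ⟨_, rfl⟩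
  have p1 : x1 - x0 ≤ pU ι x := by
    refine le_trans (le_of_eq ?_) (le_mx8 (fun a b c => Nat.sub (gt x (ι true a b c)) (gt x (ι false a b c))) a b c)
    rw [gt_eq, gt_eq, ← hx1, ← hx0]
    rfl
  have p2 : x0 - x1 ≤ qU ι x := by
    refine le_trans (le_of_eq ?_) (le_mx8 (fun a b c => Nat.sub (gt x (ι false a b c)) (gt x (ι true a b c))) a b c)
    rw [gt_eq, gt_eq, ← hx1, ← hx0]
    rfl
  have p3 : y1 - y0 ≤ pU ι y := by
    refine le_trans (le_of_eq ?_) (le_mx8 (fun a b c => Nat.sub (gt y (ι true a b c)) (gt y (ι false a b c))) a' b' c')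
    rw [gt_eq, gt_eq, ← hy1, ← hy0]
    rfl
  have p4 : y0 - y1 ≤ qU ι y := by
    refine le_trans (le_of_eq ?_) (le_mx8 (fun a b c => Nat.sub (gt y (ι false a b c)) (gt y (ι true a b c))) a' b' c')
    rw [gt_eq, gt_eq, ← hy1, ← hy0]
    rfl
  have h1 : pU ι x * qU ι y ≤ eD ι x y := by
    unfold eD
    rw [mxf_eq]
    exact le_max_left _ _
  have h2 : qU ι x * pU ι y ≤ eD ι x y := by
    unfold eD
    rw [mxf_eq]
    exact le_max_right _ _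
  rw [← hx1, ← hx0, ← hy1, ← hy0]
  rcases le_total x0 x1 with hx | hx
  · rcases le_total y0 y1 with hy | hy
    · have e1 : (0 : ℝ) ≤ (x1 : ℝ) - x0 := sub_nonneg.mpr (by exact_mod_cast hx)
      have e2 : (0 : ℝ) ≤ (y1 : ℝ) - y0 := sub_nonneg.mpr (by exact_mod_cast hy)
      have := mul_nonneg e1 e2
      have h0 : (0 : ℝ) ≤ (eD ι x y : ℕ) := Nat.cast_nonneg _
      linarith
    · have h3 : (x1 - x0) * (y0 - y1) ≤ eD ι x y := (Nat.mul_le_mul p1 p4).trans h1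
      have h4 : (((x1 - x0) * (y0 - y1) : ℕ) : ℝ) ≤ (eD ι x y : ℕ) := by exact_mod_cast h3
      push_cast [Nat.cast_sub hx, Nat.cast_sub hy] at h4
      linarith
  · rcases le_total y0 y1 with hy | hy
    · have h3 : (x0 - x1) * (y1 - y0) ≤ eD ι x y := (Nat.mul_le_mul p2 p3).trans h2
      have h4 : (((x0 - x1) * (y1 - y0) : ℕ) : ℝ) ≤ (eD ι x y : ℕ) := by exact_mod_cast h3
      push_cast [Nat.cast_sub hx, Nat.cast_sub hy] at h4
      linarith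
    · have e1 : (0 : ℝ) ≤ (x0 : ℝ) - x1 := sub_nonneg.mpr (by exact_mod_cast hx)
      have e2 : (0 : ℝ) ≤ (y0 : ℝ) - y1 := sub_nonneg.mpr (by exact_mod_cast hy)
      have := mul_nonneg e1 e2
      have h0 : (0 : ℝ) ≤ (eD ι x y : ℕ) := Nat.cast_nonneg _
      linarith

/-- the value of the corner `e` in a table of sixteen values -/
noncomputable def at4 (l : List ℕ) (e : Fin 7 → Bool) : ℝ := ((l.getD (i4 (e 0) (e 1) (e 2) (e 6)) 0 : ℕ) : ℝ)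

/-- four times the errors of the seven directions -/
noncomputable def eV (x y : List ℕ) : Fin 7 → ℝ :=
  ![(eD ι0 x y : ℕ), (eD ι1 x y : ℕ), (eD ι2 x y : ℕ), 0, 0, 0, (eD ι3 x y : ℕ)]

lemma eV_nonneg (x y : List ℕ) (i : Fin 7) : 0 ≤ eV x y i := by
  unfold eV
  fin_cases i <;> simp

lemma eV_sound (x y : List ℕ) (i : Fin 7) (e e' : Fin 7 → Bool) :
    -((at4 x (Function.update e i true) - at4 x (Function.update e i false))
      * (at4 y (Function.update e' i true) - at4 y (Function.update e' i false))) ≤ eV x y i := by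
  have s0 : ∀ (j : Fin 7) (b : Bool) (f : Fin 7 → Bool), Function.update f j b j = b := fun j b f =>
    Function.update_self ..
  have s1 : ∀ (j k : Fin 7) (b : Bool) (f : Fin 7 → Bool), k ≠ j → Function.update f j b k = f k :=
    fun j k b f h => Function.update_of_ne h ..
  unfold at4
  fin_cases i
  · have := eD_sound ι0 x y (e 1) (e 2) (e 6) (e' 1) (e' 2) (e' 6)
    simpa [eV, ι0, s0, s1] using this
  · have := eD_sound ι1 x y (e 0) (e 2) (e 6) (e' 0) (e' 2) (e' 6)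
    simpa [eV, ι1, s0, s1] using this
  · have := eD_sound ι2 x y (e 0) (e 1) (e 6) (e' 0) (e' 1) (e' 6)
    simpa [eV, ι2, s0, s1] using this
  · simp [eV]
  · simp [eV]
  · simp [eV]
  · have := eD_sound ι3 x y (e 0) (e 1) (e 2) (e' 0) (e' 1) (e' 2)
    simpa [eV, ι3, s0, s1] using this

/-- the sum of the errors, times four -/
noncomputable def e4 (x y : List ℕ) : ℕ :=
  Nat.add (Nat.add (eD ι0 x y) (eD ι1 x y)) (Nat.add (eD ι2 x y) (eD ι3 x y))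

lemma sum_eV (x y : List ℕ) : ∑ i, eV x y i = (e4 x y : ℕ) := by
  have e : e4 x y = eD ι0 x y + eD ι1 x y + (eD ι2 x y + eD ι3 x y) := rfl
  rw [e]
  unfold eV
  rw [Fin.sum_univ_seven]
  simp only [Matrix.cons_val_zero, Matrix.cons_val_one, Matrix.cons_val]
  push_cast
  ring

/-! ### boxes -/

/-- a box, borders in units of `1 / 400`: `h t s g1 g2 g3 r` -/
structure Bx where
  H0 : ℕ
  H1 : ℕ
  T0 : ℕ
  T1 : ℕ
  S0 : ℕ
  S1 : ℕ
  A0 : ℕ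
  A1 : ℕ
  B0 : ℕ
  B1 : ℕ
  C0 : ℕ
  C1 : ℕ
  R0 : ℕ
  R1 : ℕ

noncomputable def Bx.lo (b : Bx) : Fin 7 → ℝ :=
  ![(b.H0 : ℝ) / 400, (b.T0 : ℝ) / 400, (b.S0 : ℝ) / 400, (b.A0 : ℝ) / 400, (b.B0 : ℝ) / 400, (b.C0 : ℝ) / 400,
    (b.R0 : ℝ) / 400]

noncomputable def Bx.hi (b : Bx) : Fin 7 → ℝ :=
  ![(b.H1 : ℝ) / 400, (b.T1 : ℝ) / 400, (b.S1 : ℝ) / 400, (b.A1 : ℝ) / 400, (b.B1 : ℝ) / 400, (b.C1 : ℝ) / 400,
    (b.R1 : ℝ) / 400]

section
variable (b : Bx) (e : Fin 7 → Bool)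

lemma enc (x y : ℕ) (c : Bool) : (bif c then (y : ℝ) / 400 else (x : ℝ) / 400) = en x y c := by
  cases c <;> rfl

lemma Bx.c0 : corner b.lo b.hi e 0 = en b.H0 b.H1 (e 0) := enc _ _ _
lemma Bx.c1 : corner b.lo b.hi e 1 = en b.T0 b.T1 (e 1) := enc _ _ _
lemma Bx.c2 : corner b.lo b.hi e 2 = en b.S0 b.S1 (e 2) := enc _ _ _
lemma Bx.c3 : corner b.lo b.hi e 3 = en b.A0 b.A1 (e 3) := enc _ _ _
lemma Bx.c4 : corner b.lo b.hi e 4 = en b.B0 b.B1 (e 4) := enc _ _ _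
lemma Bx.c5 : corner b.lo b.hi e 5 = en b.C0 b.C1 (e 5) := enc _ _ _
lemma Bx.c6 : corner b.lo b.hi e 6 = en b.R0 b.R1 (e 6) := enc _ _ _

end

/-- the borders are increasing and inside the domain -/
def Bx.ok (b : Bx) : Bool :=
  cond (Nat.ble (Nat.succ b.H0) b.H1) (cond (Nat.ble b.H1 (nat_lit 400)) (cond (Nat.ble (nat_lit 120) b.H0)
  (cond (Nat.ble (Nat.succ b.T0) b.T1) (cond (Nat.ble b.T1 (nat_lit 400)) (cond (Nat.ble (nat_lit 120) b.T0)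
  (cond (Nat.ble (Nat.succ b.S0) b.S1) (cond (Nat.ble b.S1 (nat_lit 400)) (cond (Nat.ble (nat_lit 120) b.S0)
  (cond (Nat.ble (Nat.succ b.A0) b.A1) (cond (Nat.ble b.A1 (nat_lit 400))
  (cond (Nat.ble (Nat.succ b.B0) b.B1) (cond (Nat.ble b.B1 (nat_lit 400))
  (cond (Nat.ble (Nat.succ b.C0) b.C1) (cond (Nat.ble b.C1 (nat_lit 400))
  (cond (Nat.ble (Nat.succ b.R0) b.R1) (Nat.ble b.R1 (nat_lit 400))
    false) false) false) false) false) false) false) false) false) false) false) false) false) false) false) false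

/-- the facts -/
structure Bx.Ok (b : Bx) : Prop where
  H : b.H0 < b.H1
  H1 : b.H1 ≤ 400
  H0 : 120 ≤ b.H0
  T : b.T0 < b.T1
  T1 : b.T1 ≤ 400
  T0 : 120 ≤ b.T0
  S : b.S0 < b.S1
  S1 : b.S1 ≤ 400
  S0 : 120 ≤ b.S0
  A : b.A0 < b.A1
  A1 : b.A1 ≤ 400
  B : b.B0 < b.B1
  B1 : b.B1 ≤ 400
  C : b.C0 < b.C1
  C1 : b.C1 ≤ 400
  R : b.R0 < b.R1
  R1 : b.R1 ≤ 400

lemma Bx.ok_sound {b : Bx} (h : b.ok = true) : b.Ok := by
  unfold Bx.ok at h
  obtain ⟨h1, h⟩ := cond_eq_true h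
  obtain ⟨h2, h⟩ := cond_eq_true h
  obtain ⟨h3, h⟩ := cond_eq_true h
  obtain ⟨h4, h⟩ := cond_eq_true h
  obtain ⟨h5, h⟩ := cond_eq_true h
  obtain ⟨h6, h⟩ := cond_eq_true h
  obtain ⟨h7, h⟩ := cond_eq_true h
  obtain ⟨h8, h⟩ := cond_eq_true h
  obtain ⟨h9, h⟩ := cond_eq_true h
  obtain ⟨h10, h⟩ := cond_eq_true h
  obtain ⟨h11, h⟩ := cond_eq_true h
  obtain ⟨h12, h⟩ := cond_eq_true h
  obtain ⟨h13, h⟩ := cond_eq_true h
  obtain ⟨h14, h⟩ := cond_eq_true h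
  obtain ⟨h15, h⟩ := cond_eq_true h
  obtain ⟨h16, h⟩ := cond_eq_true h
  exact ⟨Nat.le_of_ble_eq_true h1, Nat.le_of_ble_eq_true h2, Nat.le_of_ble_eq_true h3, Nat.le_of_ble_eq_true h4,
    Nat.le_of_ble_eq_true h5, Nat.le_of_ble_eq_true h6, Nat.le_of_ble_eq_true h7, Nat.le_of_ble_eq_true h8,
    Nat.le_of_ble_eq_true h9, Nat.le_of_ble_eq_true h10, Nat.le_of_ble_eq_true h11, Nat.le_of_ble_eq_true h12,
    Nat.le_of_ble_eq_true h13, Nat.le_of_ble_eq_true h14, Nat.le_of_ble_eq_true h15, Nat.le_of_ble_eq_true h16,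
    Nat.le_of_ble_eq_true h⟩

lemma Bx.Ok.lh {b : Bx} (h : b.Ok) : ∀ i, b.lo i < b.hi i := by
  have c : ∀ x y : ℕ, x < y → (x : ℝ) / 400 < (y : ℝ) / 400 := fun x y hxy => by
    have : (x : ℝ) < y := by exact_mod_cast hxy
    linarith
  intro i
  fin_cases i
  · exact c _ _ h.H
  · exact c _ _ h.T
  · exact c _ _ h.S
  · exact c _ _ h.A
  · exact c _ _ h.B
  · exact c _ _ h.C
  · exact c _ _ h.R

lemma Bx.l0 (b : Bx) : ∀ i, 0 ≤ b.lo i := by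
  have c : ∀ x : ℕ, 0 ≤ (x : ℝ) / 400 := fun x => by positivity
  intro i
  fin_cases i <;> exact c _

lemma Bx.Ok.h1 {b : Bx} (h : b.Ok) : ∀ i, b.hi i ≤ 1 := by
  have c : ∀ x : ℕ, x ≤ 400 → (x : ℝ) / 400 ≤ 1 := fun x hx => by
    have : (x : ℝ) ≤ 400 := by exact_mod_cast hx
    linarith
  intro i
  fin_cases i
  · exact c _ h.H1
  · exact c _ h.T1
  · exact c _ h.S1
  · exact c _ h.A1
  · exact c _ h.B1
  · exact c _ h.C1
  · exact c _ h.R1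

/-! ### the row `i` -/

/-- the factor of a payer, unit `1e-5` -/
def K5 (a ρ : ℕ) : ℕ :=
  frc (Nat.mul (nat_lit 3) (Nat.mul a a)) fun D => Nat.div (Nat.add (Nat.mul (nat_lit 100000)
    (Nat.add (Nat.sub (Nat.mul (nat_lit 1600) a) (Nat.mul a a)) (Nat.mul (nat_lit 1600) ρ))) (Nat.pred D)) D

lemma div_ceil (x n : ℕ) (h : 0 < n) : (x : ℝ) ≤ (((x + (n - 1)) / n : ℕ) : ℝ) * n := by
  have h1 : x ≤ ((x + (n - 1)) / n) * n := by
    have h2 := Nat.div_add_mod (x + (n - 1)) n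
    have h3 := Nat.mod_lt (x + (n - 1)) h
    have h4 : n * ((x + (n - 1)) / n) = ((x + (n - 1)) / n) * n := Nat.mul_comm _ _
    omega
  exact_mod_cast h1

lemma K5_le (a ρ : ℕ) (ha : 0 < a) (ha1 : a ≤ 400) : Kf ((a : ℝ) / 400) ((ρ : ℝ) / 400) ≤ (K5 a ρ : ℕ) / 100000 := by
  have e : K5 a ρ = (100000 * (1600 * a - a * a + 1600 * ρ) + (3 * (a * a) - 1)) / (3 * (a * a)) := by
    unfold K5
    rw [frc_eq]
    rfl
  have ha' : (0 : ℝ) < a := by exact_mod_cast ha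
  have hsub : a * a ≤ 1600 * a := Nat.mul_le_mul_right a (by omega)
  have h3 := div_ceil (100000 * (1600 * a - a * a + 1600 * ρ)) (3 * (a * a)) (by positivity)
  rw [e]
  obtain ⟨q, hq⟩ : ∃ q, q = (100000 * (1600 * a - a * a + 1600 * ρ) + (3 * (a * a) - 1)) / (3 * (a * a)) := ⟨_, rfl⟩
  rw [← hq] at h3 ⊢
  push_cast [Nat.cast_sub hsub] at h3
  rw [le_div_iff₀ (by norm_num)]
  unfold Kf
  have e1 : (4 * ((a : ℝ) / 400) - ((a : ℝ) / 400) ^ 2 + 4 * ((ρ : ℝ) / 400)) / (3 * ((a : ℝ) / 400) ^ 2) * 100000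
      = 100000 * (1600 * a - a * a + 1600 * ρ) / (3 * (a * a)) := by
    field_simp
    ring
  refine le_trans (le_of_eq ?_) ((div_le_iff₀ (show (0 : ℝ) < 3 * (a * a) by positivity)).mpr h3)
  rw [← e1]

def flN (u : Bool) (x : ℕ) : ℕ := cond u x (nat_lit 0)

lemma flN_eq (u : Bool) (x : ℕ) : fl u ((x : ℝ) / 400) = (flN u x : ℕ) / 400 := by
  cases u
  · simp [fl, flN]
  · simp [fl, flN]

/-- optional table -/
noncomputable def kl (n : Bool) (f : Bool → Bool → Bool → Bool → ℕ) (k : List ℕ → Bool) : Bool :=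
  cond n (tab4 f k) (k [])

lemma kl_sound {n : Bool} {f : Bool → Bool → Bool → Bool → ℕ} {k : List ℕ → Bool} (h : kl n f k = true) :
    ∃ l, k l = true ∧ (n = true → ∀ a b c d, l.getD (i4 a b c d) 0 = f a b c d) := by
  cases n with
  | true =>
    obtain ⟨l, h1, h2⟩ := tab4_sound (show tab4 f k = true from h)
    exact ⟨l, h1, fun _ => h2⟩
  | false => exact ⟨[], h, fun h => absurd h (by simp)⟩

/-- the term of the row `i` at a corner -/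
def tmI (w3 lam Pt o1 o2 G Φ M F W H T S R : ℕ) : ℕ :=
  Nat.sub
    (Nat.add (Nat.add (Nat.mul Φ M) (Nat.add (Nat.mul (Nat.mul (Nat.add (nat_lit 1000) lam) F) (nat_lit 800000))
      (Nat.add (Nat.mul (Nat.mul (Nat.sub (nat_lit 1000) w3) (o32 R)) (nat_lit 25000))
        (Nat.mul (Nat.mul Pt R) (nat_lit 800000)))))
      (Nat.add offs (Nat.add (Nat.mul o1 H) (Nat.mul o2 T))))
    (Nat.add (Nat.mul (Nat.mul lam W) (nat_lit 100000)) (Nat.add G (Nat.add (Nat.mul o1 T) (Nat.mul o2 S))))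

/-- sixteen times the weighted logarithm -/
noncomputable def gF (w3 H : ℕ) : ℕ :=
  Nat.mul (Nat.mul (nat_lit 16) w3) (lgOff (Nat.add (nat_lit 400) H) (nat_lit 400))

def wF (x : Bx) (a b c d : Bool) : ℕ :=
  w8 (Nat.add (Nat.add (cv x.H0 x.H1 a) (cv x.T0 x.T1 b)) (Nat.add (cv x.S0 x.S1 c) (cv x.R0 x.R1 d)))

noncomputable def mF (Fl Wl : List ℕ) (a b c d : Bool) : ℕ :=
  mxf (Nat.sub (Nat.mul (nat_lit 8) (gt Fl (i4 a b c d))) (gt Wl (i4 a b c d))) (nat_lit 80000)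

def k1F (u12 u13 : Bool) (x : Bx) (a b c d : Bool) : ℕ :=
  K5 (cv x.H0 x.H1 a) (Nat.add (Nat.add (flN u12 (cv x.T0 x.T1 b)) (flN u13 (cv x.S0 x.S1 c))) (cv x.R0 x.R1 d))

def k2F (u21 u23 : Bool) (x : Bx) (a b c d : Bool) : ℕ :=
  K5 (cv x.T0 x.T1 b) (Nat.add (Nat.add (flN u21 (cv x.H0 x.H1 a)) (flN u23 (cv x.S0 x.S1 c))) (cv x.R0 x.R1 d))

def k3F (u31 u32 : Bool) (x : Bx) (a b c d : Bool) : ℕ :=
  K5 (cv x.S0 x.S1 c) (Nat.add (Nat.add (flN u31 (cv x.H0 x.H1 a)) (flN u32 (cv x.T0 x.T1 b))) (cv x.R0 x.R1 d))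

noncomputable def phN (c1 c2 c3 : ℕ) (K1 K2 K3 : List ℕ) (a b c d : Bool) : ℕ :=
  mxf (Nat.mul c1 (gt K1 (i4 a b c d))) (mxf (Nat.mul c2 (gt K2 (i4 a b c d))) (Nat.mul c3 (gt K3 (i4 a b c d))))

/-- the term of a corner -/
noncomputable def tC (w3 lam Pt o1 o2 g0 g1 : ℕ) (x : Bx) (Fl Wl Ml Φl : List ℕ) (a b c d : Bool) : ℕ :=
  tmI w3 lam Pt o1 o2 (cv g0 g1 a) (gt Φl (i4 a b c d)) (gt Ml (i4 a b c d)) (gt Fl (i4 a b c d))
    (gt Wl (i4 a b c d)) (cv x.H0 x.H1 a) (cv x.T0 x.T1 b) (cv x.S0 x.S1 c) (cv x.R0 x.R1 d)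

noncomputable def liF (w3 lam Pt o1 o2 g0 g1 : ℕ) (x : Bx) (Fl Wl Ml Φl : List ℕ) (a b c : Bool) : ℕ :=
  mxf (tC w3 lam Pt o1 o2 g0 g1 x Fl Wl Ml Φl a b c false) (tC w3 lam Pt o1 o2 g0 g1 x Fl Wl Ml Φl a b c true)

/-- the row `i` -/
noncomputable def rowI (w3 lam c1 c2 c3 Pt o1 o2 : ℕ) (n1 n2 n3 u12 u13 u21 u23 u31 u32 : Bool) (x : Bx)
    (Fl : List ℕ) (k : List ℕ → List ℕ → List ℕ → List ℕ → List ℕ → List ℕ → Bool) : Bool :=
  frc (gF w3 x.H0) fun g0 => frc (gF w3 x.H1) fun g1 =>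
  tab4 (wF x) fun Wl => tab4 (mF Fl Wl) fun Ml =>
  kl n1 (k1F u12 u13 x) fun K1 => kl n2 (k2F u21 u23 x) fun K2 => kl n3 (k3F u31 u32 x) fun K3 =>
  tab4 (phN c1 c2 c3 K1 K2 K3) fun Φl => tab3 (liF w3 lam Pt o1 o2 g0 g1 x Fl Wl Ml Φl) fun Li =>
  k Li Ml Φl K1 K2 K3

/-- the values of the row `i` at the corners -/
def FlOk (x : Bx) (Fl : List ℕ) : Prop := ∀ a b c d : Bool,
  FI (en x.H0 x.H1 a) (en x.T0 x.T1 b) (en x.S0 x.S1 c) (en x.R0 x.R1 d) 1 0 ≤ (Fl.getD (i4 a b c d) 0 : ℕ) / 10 ^ 7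

/-- the piece of `h, t, s`, in units of the total weight `1000` -/
noncomputable def G0R (w3 o1 o2 : ℕ) (h t s : ℝ) : ℝ :=
  -(2 * w3 * Real.log (1 + h)) + (400 * o1 * (h - t) + 400 * o2 * (t - s)) / 8000000000000

lemma cvR (x y : ℕ) (c : Bool) : x ≤ y → x ≤ cv x y c ∧ cv x y c ≤ y := by
  intro h
  cases c
  · exact ⟨le_rfl, h⟩
  · exact ⟨h, le_rfl⟩

/-- one corner of the row `i` -/
lemma tmI_le {w3 lam Pt o1 o2 G Φ M F W H T S R : ℕ} (hw : w3 ≤ 1000) {f w : ℝ} (hf : f ≤ (F : ℝ) / 10 ^ 7)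
    (hW : (W : ℝ) / 80000000 ≤ w) (hG : (G : ℝ) ≤ 16 * w3 * (10 ^ 12 * Real.log (1 + (H : ℝ) / 400) + 10 ^ 13)) :
    (Φ : ℝ) / 100000 * ((M : ℝ) / 80000000) + ((1000 + lam) * f - lam * w
      + (1000 - w3) * omg ((R : ℝ) / 400) + Pt / 25000 * ((R : ℝ) / 400))
      ≤ ((tmI w3 lam Pt o1 o2 G Φ M F W H T S R : ℕ) - (offs : ℕ) + 16 * w3 * 10 ^ 13) / 8000000000000
        - G0R w3 o1 o2 ((H : ℝ) / 400) ((T : ℝ) / 400) ((S : ℝ) / 400) := by
  have e : tmI w3 lam Pt o1 o2 G Φ M F W H T S R = Φ * M + ((1000 + lam) * F * 800000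
      + ((1000 - w3) * o32 R * 25000 + Pt * R * 800000)) + (offs + (o1 * H + o2 * T))
      - (lam * W * 100000 + (G + (o1 * T + o2 * S))) := rfl
  obtain ⟨Z, hZ⟩ : ∃ Z, Z = tmI w3 lam Pt o1 o2 G Φ M F W H T S R := ⟨_, rfl⟩
  have h5 : ((Φ * M + ((1000 + lam) * F * 800000
      + ((1000 - w3) * o32 R * 25000 + Pt * R * 800000)) + (offs + (o1 * H + o2 * T)) : ℕ) : ℝ)
      ≤ (Z : ℝ) + (lam * W * 100000 + (G + (o1 * T + o2 * S)) : ℕ) := by
    rw [hZ, e]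
    exact_mod_cast le_tsub_add
  rw [← hZ]
  push_cast [Nat.cast_sub hw] at h5
  have hF := mul_le_mul_of_nonneg_left hf (show (0 : ℝ) ≤ 1000 + lam by positivity)
  have hWW := mul_le_mul_of_nonneg_left hW (show (0 : ℝ) ≤ lam by positivity)
  rw [o32_eq]
  unfold G0R
  obtain ⟨L, hL⟩ : ∃ L, L = Real.log (1 + (H : ℝ) / 400) := ⟨_, rfl⟩
  rw [← hL] at hG ⊢
  obtain ⟨o, ho⟩ : ∃ o, o = o32 R := ⟨_, rfl⟩
  rw [← ho] at h5 ⊢
  rw [le_sub_iff_add_le, le_div_iff₀ (by norm_num)]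
  have k1 : ((Φ : ℝ) / 100000 * ((M : ℝ) / 80000000)) * 8000000000000 = Φ * M := by ring
  have k2 : ((1000 : ℝ) - w3) * ((o : ℝ) / 320000000) * 8000000000000 = (1000 - w3) * o * 25000 := by ring
  have k3 : (Pt : ℝ) / 25000 * ((R : ℝ) / 400) * 8000000000000 = Pt * R * 800000 := by ring
  have k4 : ((1000 : ℝ) + lam) * ((F : ℝ) / 10 ^ 7) * 8000000000000 = (1000 + lam) * F * 800000 := by ring
  have k5 : (lam : ℝ) * ((W : ℝ) / 80000000) * 8000000000000 = lam * W * 100000 := by ring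
  linarith

end C1
end Pool.Agent.Lib.MP_6947cd_al
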