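import Pool.Agent.Lib.MP_6947cd_al.C.RowI

/-!
Problem MP_6947cd_al (Chollet).  CASE C: soundness of the row `i` in the check of a leaf.
-/

set_option autoImplicit false
open Finset

namespace Pool.Agent.Lib.MP_6947cd_al
namespace C1

open Ent Ent.Pk Fr Fr.WT CC B1 PkA

lemma WI_eq (x : Bx) (a b c d : Bool) : WI (en x.H0 x.H1 a) (en x.T0 x.T1 b) (en x.S0 x.S1 c) (en x.R0 x.R1 d) 1 0
    = Wc (((cv x.H0 x.H1 a + cv x.T0 x.T1 b + (cv x.S0 x.S1 c + cv x.R0 x.R1 d) : ℕ) : ℝ) / 400) := by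
  unfold WI
  rw [en_eq, en_eq, en_eq, en_eq]
  congr 1
  push_cast
  ring

lemma wF_le {x : Bx} (hx : x.Ok) (a b c d : Bool) : ((wF x a b c d : ℕ) : ℝ) / 80000000
    ≤ WI (en x.H0 x.H1 a) (en x.T0 x.T1 b) (en x.S0 x.S1 c) (en x.R0 x.R1 d) 1 0 := by
  rw [WI_eq]
  have h1 := (cvR x.H0 x.H1 a hx.H.le).1
  have h2 := hx.H0
  exact w8_le (cv x.H0 x.H1 a + cv x.T0 x.T1 b + (cv x.S0 x.S1 c + cv x.R0 x.R1 d)) (by omega)

lemma mF_le (Fl Wl : List ℕ) (a b c d : Bool) {f w : ℝ} (hf : f ≤ (Fl.getD (i4 a b c d) 0 : ℕ) / 10 ^ 7)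
    (hw : ((Wl.getD (i4 a b c d) 0 : ℕ) : ℝ) / 80000000 ≤ w) :
    max (f - w) (1 / 1000) ≤ ((mF Fl Wl a b c d : ℕ) : ℝ) / 80000000 := by
  unfold mF
  rw [mxf_eq, gt_eq, gt_eq]
  obtain ⟨F, hF⟩ : ∃ F, F = Fl.getD (i4 a b c d) 0 := ⟨_, rfl⟩
  obtain ⟨W, hW⟩ : ∃ W, W = Wl.getD (i4 a b c d) 0 := ⟨_, rfl⟩
  rw [← hF] at hf ⊢
  rw [← hW] at hw ⊢
  have k1 : (8 : ℝ) * F ≤ ((8 * F - W : ℕ) : ℝ) + W := by
    exact_mod_cast (le_tsub_add : 8 * F ≤ 8 * F - W + W)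
  have e : max (Nat.sub (Nat.mul 8 F) W) 80000 = max (8 * F - W) 80000 := rfl
  rw [e, Nat.cast_max, le_div_iff₀ (by norm_num)]
  rcases max_cases (f - w) (1 / 1000 : ℝ) with ⟨h1, -⟩ | ⟨h1, -⟩
  · rw [h1]
    refine le_trans ?_ (le_max_left _ _)
    linarith
  · rw [h1]
    refine le_trans ?_ (le_max_right _ _)
    norm_num

lemma k1F_le {x : Bx} (hx : x.Ok) (u v : Bool) (a b c d : Bool) :
    Kf (en x.H0 x.H1 a) (fl u (en x.T0 x.T1 b) + fl v (en x.S0 x.S1 c) + (en x.R0 x.R1 d + (0 : ℕ) * 1))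
      ≤ ((k1F u v x a b c d : ℕ) : ℝ) / 100000 := by
  have h1 := cvR x.H0 x.H1 a hx.H.le
  have h2 := hx.H0
  have h3 := hx.H1
  have := K5_le (cv x.H0 x.H1 a) (flN u (cv x.T0 x.T1 b) + flN v (cv x.S0 x.S1 c) + cv x.R0 x.R1 d)
    (by omega) (by omega)
  refine le_trans (le_of_eq ?_) this
  rw [en_eq, en_eq, en_eq, en_eq, flN_eq, flN_eq]
  congr 1
  push_cast
  ring

lemma k2F_le {x : Bx} (hx : x.Ok) (u v : Bool) (a b c d : Bool) :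
    Kf (en x.T0 x.T1 b) (fl u (en x.H0 x.H1 a) + fl v (en x.S0 x.S1 c) + (en x.R0 x.R1 d + (0 : ℕ) * 1))
      ≤ ((k2F u v x a b c d : ℕ) : ℝ) / 100000 := by
  have h1 := cvR x.T0 x.T1 b hx.T.le
  have h2 := hx.T0
  have h3 := hx.T1
  have := K5_le (cv x.T0 x.T1 b) (flN u (cv x.H0 x.H1 a) + flN v (cv x.S0 x.S1 c) + cv x.R0 x.R1 d)
    (by omega) (by omega)
  refine le_trans (le_of_eq ?_) this
  rw [en_eq, en_eq, en_eq, en_eq, flN_eq, flN_eq]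
  congr 1
  push_cast
  ring

lemma k3F_le {x : Bx} (hx : x.Ok) (u v : Bool) (a b c d : Bool) :
    Kf (en x.S0 x.S1 c) (fl u (en x.H0 x.H1 a) + fl v (en x.T0 x.T1 b) + (en x.R0 x.R1 d + (0 : ℕ) * 1))
      ≤ ((k3F u v x a b c d : ℕ) : ℝ) / 100000 := by
  have h1 := cvR x.S0 x.S1 c hx.S.le
  have h2 := hx.S0
  have h3 := hx.S1
  have := K5_le (cv x.S0 x.S1 c) (flN u (cv x.H0 x.H1 a) + flN v (cv x.T0 x.T1 b) + cv x.R0 x.R1 d)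
    (by omega) (by omega)
  refine le_trans (le_of_eq ?_) this
  rw [en_eq, en_eq, en_eq, en_eq, flN_eq, flN_eq]
  congr 1
  push_cast
  ring

lemma phN_le (c1 c2 c3 : ℕ) (K1 K2 K3 : List ℕ) (a b c d : Bool) :
    c1 * K1.getD (i4 a b c d) 0 ≤ phN c1 c2 c3 K1 K2 K3 a b c d ∧
    c2 * K2.getD (i4 a b c d) 0 ≤ phN c1 c2 c3 K1 K2 K3 a b c d ∧
    c3 * K3.getD (i4 a b c d) 0 ≤ phN c1 c2 c3 K1 K2 K3 a b c d := by
  unfold phN
  rw [mxf_eq, mxf_eq, gt_eq, gt_eq, gt_eq]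
  exact ⟨le_max_left _ _, (le_max_left _ _).trans (le_max_right _ _), (le_max_right _ _).trans (le_max_right _ _)⟩

lemma gF_le (w3 H : ℕ) : ((gF w3 H : ℕ) : ℝ) ≤ 16 * w3 * (10 ^ 12 * Real.log (1 + (H : ℝ) / 400) + 10 ^ 13) := by
  have h1 := lgOff_le (400 + H) 400 (by omega) (by norm_num) (by omega)
  have e : gF w3 H = 16 * w3 * lgOff (400 + H) 400 := rfl
  have e1 : 1 + (H : ℝ) / 400 = ((400 + H : ℕ) : ℝ) / ((400 : ℕ) : ℝ) := by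
    push_cast
    ring
  rw [e, e1]
  rw [Nat.cast_mul]
  have e2 : ((16 * w3 : ℕ) : ℝ) = 16 * w3 := by push_cast; ring
  rw [e2]
  exact mul_le_mul_of_nonneg_left h1 (by positivity)

lemma cv_gen (f : ℕ → ℕ) (x y : ℕ) (c : Bool) : cv (f x) (f y) c = f (cv x y c) := by
  cases c <;> rfl

/-- THE ROW `i` -/
theorem rowI_sound {w3 lam c1 c2 c3 Pt o1 o2 : ℕ} {n1 n2 n3 u12 u13 u21 u23 u31 u32 : Bool} {x : Bx}
    {Fl : List ℕ} {k : List ℕ → List ℕ → List ℕ → List ℕ → List ℕ → List ℕ → Bool}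
    (h : rowI w3 lam c1 c2 c3 Pt o1 o2 n1 n2 n3 u12 u13 u21 u23 u31 u32 x Fl k = true) (hx : x.Ok)
    (hF : FlOk x Fl) (hw : w3 ≤ 1000) :
    ∃ Li Ml Φl K1 K2 K3, k Li Ml Φl K1 K2 K3 = true ∧
      (∀ e : Fin 7 → Bool, max (FI (corner x.lo x.hi e 0) (corner x.lo x.hi e 1) (corner x.lo x.hi e 2)
        (corner x.lo x.hi e 6) 1 0 - WI (corner x.lo x.hi e 0) (corner x.lo x.hi e 1) (corner x.lo x.hi e 2)
        (corner x.lo x.hi e 6) 1 0) (1 / 1000) ≤ at4 Ml e / 80000000) ∧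
      (n1 = true → ∀ e : Fin 7 → Bool, Kf (corner x.lo x.hi e 0) (fl u12 (corner x.lo x.hi e 1)
        + fl u13 (corner x.lo x.hi e 2) + (corner x.lo x.hi e 6 + (0 : ℕ) * 1)) ≤ at4 K1 e / 100000) ∧
      (n2 = true → ∀ e : Fin 7 → Bool, Kf (corner x.lo x.hi e 1) (fl u21 (corner x.lo x.hi e 0)
        + fl u23 (corner x.lo x.hi e 2) + (corner x.lo x.hi e 6 + (0 : ℕ) * 1)) ≤ at4 K2 e / 100000) ∧
      (n3 = true → ∀ e : Fin 7 → Bool, Kf (corner x.lo x.hi e 2) (fl u31 (corner x.lo x.hi e 0)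
        + fl u32 (corner x.lo x.hi e 1) + (corner x.lo x.hi e 6 + (0 : ℕ) * 1)) ≤ at4 K3 e / 100000) ∧
      (∀ e : Fin 7 → Bool, c1 * at4 K1 e ≤ at4 Φl e ∧ c2 * at4 K2 e ≤ at4 Φl e ∧ c3 * at4 K3 e ≤ at4 Φl e) ∧
      (∀ e : Fin 7 → Bool, at4 Φl e / 100000 * (at4 Ml e / 80000000) + ((1000 + lam)
        * FI (corner x.lo x.hi e 0) (corner x.lo x.hi e 1) (corner x.lo x.hi e 2) (corner x.lo x.hi e 6) 1 0
        - lam * WI (corner x.lo x.hi e 0) (corner x.lo x.hi e 1) (corner x.lo x.hi e 2)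
          (corner x.lo x.hi e 6) 1 0
        + (1000 - w3) * omg (corner x.lo x.hi e 6) + Pt / 25000 * corner x.lo x.hi e 6)
        ≤ ((Li.getD (ix (e 0) (e 1) (e 2)) 0 : ℕ) - (offs : ℕ) + 16 * w3 * 10 ^ 13) / 8000000000000
          - G0R w3 o1 o2 (corner x.lo x.hi e 0) (corner x.lo x.hi e 1) (corner x.lo x.hi e 2)) := by
  unfold rowI at h
  rw [frc_eq, frc_eq] at h
  obtain ⟨Wl, h, hWl⟩ := tab4_sound h
  obtain ⟨Ml, h, hMl⟩ := tab4_sound h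
  obtain ⟨K1, h, hK1⟩ := kl_sound h
  obtain ⟨K2, h, hK2⟩ := kl_sound h
  obtain ⟨K3, h, hK3⟩ := kl_sound h
  obtain ⟨Φl, h, hΦl⟩ := tab4_sound h
  obtain ⟨Li, h, hLi⟩ := tab3_sound h
  have hW : ∀ a b c d : Bool, ((Wl.getD (i4 a b c d) 0 : ℕ) : ℝ) / 80000000
      ≤ WI (en x.H0 x.H1 a) (en x.T0 x.T1 b) (en x.S0 x.S1 c) (en x.R0 x.R1 d) 1 0 := by
    intro a b c d
    rw [hWl]
    exact wF_le hx a b c d
  refine ⟨Li, Ml, Φl, K1, K2, K3, h, ?_, ?_, ?_, ?_, ?_, ?_⟩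
  · intro e
    rw [x.c0, x.c1, x.c2, x.c6]
    unfold at4
    rw [hMl]
    exact mF_le Fl Wl _ _ _ _ (hF _ _ _ _) (hW _ _ _ _)
  · intro hn e
    rw [x.c0, x.c1, x.c2, x.c6]
    unfold at4
    rw [hK1 hn]
    exact k1F_le hx _ _ _ _ _ _
  · intro hn e
    rw [x.c0, x.c1, x.c2, x.c6]
    unfold at4
    rw [hK2 hn]
    exact k2F_le hx _ _ _ _ _ _
  · intro hn e
    rw [x.c0, x.c1, x.c2, x.c6]
    unfold at4
    rw [hK3 hn]
    exact k3F_le hx _ _ _ _ _ _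
  · intro e
    unfold at4
    rw [hΦl]
    obtain ⟨p1, p2, p3⟩ := phN_le c1 c2 c3 K1 K2 K3 (e 0) (e 1) (e 2) (e 6)
    refine ⟨?_, ?_, ?_⟩
    · rw [← Nat.cast_mul]
      exact Nat.cast_le.mpr p1
    · rw [← Nat.cast_mul]
      exact Nat.cast_le.mpr p2
    · rw [← Nat.cast_mul]
      exact Nat.cast_le.mpr p3
  · intro e
    rw [x.c0, x.c1, x.c2, x.c6]
    unfold at4
    have hG : ((cv (gF w3 x.H0) (gF w3 x.H1) (e 0) : ℕ) : ℝ)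
        ≤ 16 * w3 * (10 ^ 12 * Real.log (1 + (cv x.H0 x.H1 (e 0) : ℝ) / 400) + 10 ^ 13) := by
      rw [cv_gen (gF w3)]
      exact gF_le w3 _
    have main : tC w3 lam Pt o1 o2 (gF w3 x.H0) (gF w3 x.H1) x Fl Wl Ml Φl (e 0) (e 1) (e 2) (e 6)
        ≤ Li.getD (ix (e 0) (e 1) (e 2)) 0 := by
      rw [hLi]
      unfold liF
      rw [mxf_eq]
      cases e 6 with
      | true => exact le_max_right _ _
      | false => exact le_max_left _ _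
    unfold tC at main
    rw [gt_eq, gt_eq, gt_eq, gt_eq] at main
    have t1 := tmI_le (lam := lam) (Pt := Pt) (o1 := o1) (o2 := o2) (Φ := Φl.getD (i4 (e 0) (e 1) (e 2) (e 6)) 0)
      (M := Ml.getD (i4 (e 0) (e 1) (e 2) (e 6)) 0) (T := cv x.T0 x.T1 (e 1)) (S := cv x.S0 x.S1 (e 2))
      (R := cv x.R0 x.R1 (e 6)) hw (hF (e 0) (e 1) (e 2) (e 6)) (hW (e 0) (e 1) (e 2) (e 6)) hG
    have t2 := Nat.cast_le (α := ℝ).mpr main
    refine t1.trans (sub_le_sub_right (div_le_div_of_nonneg_right ?_ (by norm_num)) _)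
    linarith

end C1
end Pool.Agent.Lib.MP_6947cd_al
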