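import Pool.Agent.Lib.MP_6947cd_al.Z.PP
import Pool.Agent.Lib.MP_6947cd_al.C.LeafR
import Pool.Agent.Lib.MP_6947cd_al.Y.SideL

/-!
Problem MP_6947cd_al (Chollet).  CASE C: a used row, real form.
-/

set_option autoImplicit false
open Finset

namespace Pool.Agent.Lib.MP_6947cd_al
namespace C1

open Ent Ent.Pk Fr Fr.WT CC B1 B2 PkA

/-- the borders of the special entries -/
def edg (x0 x1 : ℝ) (b : Bool) : ℝ := bif b then x1 else x0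

/-- THE CHECK OF A ROW: on every reduced multiset with the sum between `lb` and `S` and the price at most `p1` the row
functional is bounded at all the corners, or the row is rich. -/
def RowOK (ks Ps : List ℕ) (lb S p1 d : ℕ) (A β : ℝ) (c : Bool → Af) (γ : Bool → ℝ → ℝ) (φ : ℝ → ℝ)
    (a0 a1 y0 y1 z0 z1 : ℝ) (r : ℕ → ℝ) : Prop :=
  ∀ (ns : List ℕ) (fs : List Bool) (N : Multiset ℝ), Red 0 (kR ks) ns fs N →
    Pk.dotN ns ks + lowN 0 ks fs ≤ S → Pk.dotN ns Ps + lowN 0 Ps fs ≤ p1 → lb ≤ Pk.dotN ns ks + uppN ks fs →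
    ∃ al : Bool, (∀ ba bb bc : Bool, VJ A β (c al) (γ al) φ (edg a0 a1 ba) (edg y0 y1 bb) (edg z0 z1 bc) N
      ≤ r (ix ba bb bc)) ∨
    (∀ a y z : ℝ, a0 ≤ a → a ≤ a1 → y0 ≤ y → y ≤ y1 → z0 ≤ z → z ≤ z1 →
      max (FM (1 ::ₘ a ::ₘ y ::ₘ z ::ₘ N)) ((c al).val a y z + (N.map (γ al)).sum)
        + (d : ℝ) / 10 ^ 7 ≤ WD.Wd (a + y + z + N.sum))

/-- ZONE 2: the row functional with the linear bound `Cz` of the omitted entries, sums between `S1` and `S` -/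
def ZoneOK (cap S1 S : ℕ) (A β Cz v a0 a1 y0 y1 z0 z1 : ℝ) (r : ℕ → ℝ) : Prop :=
  ∀ N : Multiset ℝ, (∀ e ∈ N, 0 ≤ e ∧ e ≤ (cap : ℝ) / 200) → (S1 : ℝ) / 200 ≤ N.sum → N.sum ≤ (S : ℝ) / 200 →
    ∀ ba bb bc : Bool, (A + β) * max (FM (1 ::ₘ edg a0 a1 ba ::ₘ edg y0 y1 bb ::ₘ edg z0 z1 bc ::ₘ N)) v
      - β * WD.Wd (edg a0 a1 ba + edg y0 y1 bb + edg z0 z1 bc + N.sum) + Cz * N.sum ≤ r (ix ba bb bc)

/-- a heavy row (sum of the rests at least `S`) is rich -/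
def StarOK (cap S d : ℕ) (pay : Bool) (a0 a1 y0 y1 z0 z1 : ℝ) : Prop :=
  ∀ (a y z : ℝ) (M : Multiset ℝ), a0 ≤ a → a ≤ a1 → y0 ≤ y → y ≤ y1 → z0 ≤ z → z ≤ z1 →
    (∀ e ∈ M, 0 ≤ e ∧ e ≤ (cap : ℝ) / 200) → (S : ℝ) / 200 ≤ M.sum →
    FM (1 ::ₘ a ::ₘ y ::ₘ z ::ₘ M) + (d : ℝ) / 10 ^ 7 ≤ What (a + y + z + M.sum) ∧
    (pay = true → (1 : ℝ) / 2 + (d : ℝ) / 10 ^ 7 ≤ What (a + y + z + M.sum))

/-- the alternatives are majorants -/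
structure AltOK (ks : List ℕ) (bad : Bool) (c : Bool → Af) (γ : Bool → ℝ → ℝ) (a0 a1 y0 y1 z0 z1 : ℝ) : Prop where
  aff : ∀ al, Aff (γ al) 0 (kR ks)
  z : ∀ al, γ al 0 = 0
  v : bad = false → ∀ (al : Bool) (a y z : ℝ) (M : Multiset ℝ), a0 ≤ a → a ≤ a1 → y0 ≤ y → y ≤ y1 →
    z0 ≤ z → z ≤ z1 → (∀ e ∈ M, 0 ≤ e ∧ e ≤ top 0 (kR ks)) →
    Gam (a ::ₘ y ::ₘ z ::ₘ M) ≤ (c al).val a y z + (M.map (γ al)).sum

lemma aff_lin (c : ℝ) (ks : List ℝ) : ∀ a, Aff (fun u => c * u) a ks := by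
  induction ks with
  | nil => intro a; exact trivial
  | cons k ks ih => intro a; exact ⟨⟨c, 0, fun x _ _ => by ring⟩, ih k⟩

lemma Df3 (G a y z : ℝ) (M : Multiset ℝ) : Df G (a ::ₘ y ::ₘ z ::ₘ M) = G - What (a + y + z + M.sum) := by
  unfold Df
  rw [Multiset.sum_cons, Multiset.sum_cons, Multiset.sum_cons,
    show a + (y + (z + M.sum)) = a + y + z + M.sum by ring]

lemma Gam_half (M : Multiset ℝ) : Gam M ≤ 1 / 2 := min_le_right _ _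

/-- the constant alternative of zone 2 -/
noncomputable def v2 (bad : Bool) : ℝ := bif bad then 0 else 1 / 2

/-- REDUCTION of the rests of a row -/
theorem row_pre {ks : List ℕ} {c : Bool → Af} {γ : Bool → ℝ → ℝ} {a0 a1 y0 y1 z0 z1 : ℝ} {bad : Bool}
    (hS2 : SpecS2) (hkn : KnOK ks) (la : 0 ≤ a0) (ua : a1 ≤ 1) (ly : 0 ≤ y0) (uy : y1 ≤ 1) (lz : 0 ≤ z0)
    (uz : z1 ≤ 1) (hA : AltOK ks bad c γ a0 a1 y0 y1 z0 z1) {a y z G : ℝ} {M : Multiset (ℝ × ℝ)}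
    (ha0 : a0 ≤ a) (ha1 : a ≤ a1) (hy0 : y0 ≤ y) (hy1 : y ≤ y1) (hz0 : z0 ≤ z) (hz1 : z ≤ z1)
    (hv : Val G (a ::ₘ y ::ₘ z ::ₘ sn M)) (hM : ∀ e ∈ sn M, 0 ≤ e ∧ e ≤ top 0 (kR ks))
    (hbad : bad = true → 0 < Df G (a ::ₘ y ::ₘ z ::ₘ sn M)) :
    ∃ ns fs N, Rd (kR ks) (1 ::ₘ a ::ₘ y ::ₘ z ::ₘ 0) (sn M) ns fs N ∧ (∀ e ∈ N, 0 ≤ e ∧ e ≤ top 0 (kR ks)) ∧
      (∀ al : Bool, G ≤ max (FM (1 ::ₘ a ::ₘ y ::ₘ z ::ₘ N)) ((c al).val a y z + (N.map (γ al)).sum)) ∧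
      G ≤ max (FM (1 ::ₘ a ::ₘ y ::ₘ z ::ₘ N)) (v2 bad) := by
  have htot : ∀ N : Multiset ℝ, (1 : ℝ) ::ₘ a ::ₘ y ::ₘ z ::ₘ N = (1 ::ₘ a ::ₘ y ::ₘ z ::ₘ 0) + N := by
    intro M
    simp only [Multiset.cons_add, zero_add]
  obtain ⟨ns, fs, N, rd⟩ := rd_of (kR ks) hkn (1 ::ₘ a ::ₘ y ::ₘ z ::ₘ 0) (sn M) (by simp) (by
    intro e he
    simp only [Multiset.mem_cons, Multiset.notMem_zero, or_false] at he
    rcases he with rfl | rfl | rfl | rfl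
    · exact ⟨zero_le_one, le_rfl⟩
    · exact ⟨by linarith, by linarith⟩
    · exact ⟨by linarith, by linarith⟩
    · exact ⟨by linarith, by linarith⟩) hM
  obtain ⟨q1, q2, q3, q4, q5⟩ := hS2 (kR ks) 0 ns fs N le_rfl hkn rd.red
  have h1 : FM (1 ::ₘ a ::ₘ y ::ₘ z ::ₘ sn M) ≤ FM (1 ::ₘ a ::ₘ y ::ₘ z ::ₘ N) := by
    rw [htot, htot N]
    exact rd.F
  refine ⟨ns, fs, N, rd, q3, ?_, ?_⟩
  · intro al
    cases bad with
    | true => exact ((hv.2 (hbad rfl)).trans h1).trans (le_max_left _ _)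
    | false =>
      have h2 := hA.v rfl al a y z (sn M) ha0 ha1 hy0 hy1 hz0 hz1 hM
      rw [rd.f (γ al) (hA.aff al) (hA.z al)] at h2
      exact hv.1.trans (max_le_max h1 h2)
  · cases bad with
    | true => exact ((hv.2 (hbad rfl)).trans h1).trans (le_max_left _ _)
    | false => exact hv.1.trans (max_le_max h1 (Gam_half _))

/-- A ROW after the bound of its sum -/
theorem row_core {ks Ps : List ℕ} {lb S p1 d : ℕ} {A β : ℝ} {c : Bool → Af} {γ : Bool → ℝ → ℝ} {φ : ℝ → ℝ}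
    {a0 a1 y0 y1 z0 z1 : ℝ} {r : ℕ → ℝ} {bad : Bool}
    (hS2 : SpecS2) (hS1 : SpecS1) (hS7 : SpecR7)
    (hkn : KnOK ks) (hl : Ps.length = ks.length) (hMo : Mo 0 (Ps.map fun v : ℕ => (v : ℝ) / 12800))
    (la : 3 / 10 ≤ a0) (ua : a1 ≤ 1) (ly : 0 ≤ y0) (uy : y1 ≤ 1) (lz : 0 ≤ z0) (uz : z1 ≤ 1)
    (tot : a1 + y1 + z1 + (S : ℝ) / 200 ≤ 16)
    (hR : RowOK ks Ps lb S p1 d A β c γ φ a0 a1 y0 y1 z0 z1 r)
    (hA : AltOK ks bad c γ a0 a1 y0 y1 z0 z1)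
    {a y z G R : ℝ} {M : Multiset (ℝ × ℝ)} {Mi : Multiset ℝ}
    (ha0 : a0 ≤ a) (ha1 : a ≤ a1) (hy0 : y0 ≤ y) (hy1 : y ≤ y1) (hz0 : z0 ≤ z) (hz1 : z ≤ z1)
    (hv : Val G (a ::ₘ y ::ₘ z ::ₘ sn M)) (hP : Prs a Mi M)
    (hk : ∀ w ∈ M, w.2 ≤ top 0 (kR ks) ∧ nF 12800 ks Ps w.2 ≤ w.1)
    (hRs : Mi.sum ≤ R) (hp1 : 12800 * R ≤ p1)
    (hbad : bad = true → 0 < Df G (a ::ₘ y ::ₘ z ::ₘ sn M))
    (hd : -((d : ℝ) / 10 ^ 7) < Df G (a ::ₘ y ::ₘ z ::ₘ sn M))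
    (hsum : (sn M).sum ≤ (S : ℝ) / 200) (hlb : (lb : ℝ) / 200 ≤ (sn M).sum) :
    ∃ ns fs N, Rd (kR ks) (1 ::ₘ a ::ₘ y ::ₘ z ::ₘ 0) (sn M) ns fs N ∧
      (∀ e ∈ N, 0 ≤ e ∧ e ≤ 1) ∧ ∃ cf : Af, G ≤ max (FM (1 ::ₘ a ::ₘ y ::ₘ z ::ₘ N)) (cf.val a y z) ∧
        ∀ ba bb bc : Bool, UJ A β cf φ (edg a0 a1 ba) (edg y0 y1 bb) (edg z0 z1 bc) N ≤ r (ix ba bb bc) := by
  have hM : ∀ e ∈ sn M, 0 ≤ e ∧ e ≤ top 0 (kR ks) := by
    intro e he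
    obtain ⟨w, hw, rfl⟩ := Multiset.mem_map.mp he
    exact ⟨(hP.2 w hw).1, (hk w hw).1⟩
  obtain ⟨ns, fs, N, rd, q3, val, -⟩ := row_pre hS2 hkn (by linarith) ua ly uy lz uz hA ha0 ha1 hy0 hy1 hz0 hz1 hv hM hbad
  obtain ⟨q1, q2, -, q4, q5⟩ := hS2 (kR ks) 0 ns fs N le_rfl hkn rd.red
  rw [Df3] at hd
  refine ⟨ns, fs, N, rd, ?_⟩
  have hN : ∀ e ∈ N, 0 ≤ e ∧ e ≤ 1 := fun e he => ⟨(q3 e he).1, (q3 e he).2.trans (S6M.inc_top _ _ hkn)⟩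
  refine ⟨hN, ?_⟩
  -- the filters
  have e3 : (kR ks) = ks.map fun v : ℕ => (v : ℝ) / 200 := rfl
  have f1 : Pk.dotN ns ks + lowN 0 ks fs ≤ S := by
    have e1 := lowS_nat 200 ks 0 fs
    have e2 := dotR_nat ns ks 200
    rw [← e3] at e1 e2
    rw [Nat.cast_zero, zero_div] at e1
    rw [e1, e2, ← rd.s] at q1
    have : ((Pk.dotN ns ks : ℝ) + lowN 0 ks fs) / 200 ≤ (S : ℝ) / 200 := by
      rw [add_div]
      linarith
    have h2 := (div_le_div_iff_of_pos_right (by norm_num : (0 : ℝ) < 200)).mp this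
    have h3 : ((Pk.dotN ns ks + lowN 0 ks fs : ℕ) : ℝ) ≤ S := by
      push_cast
      exact h2
    exact Nat.cast_le.mp h3
  have f3 : lb ≤ Pk.dotN ns ks + uppN ks fs := by
    have e1 := uppS_nat 200 ks fs
    have e2 := dotR_nat ns ks 200
    rw [← e3] at e1 e2
    rw [e1, e2, ← rd.s] at q2
    have : (lb : ℝ) / 200 ≤ ((Pk.dotN ns ks : ℝ) + uppN ks fs) / 200 := by
      rw [add_div]
      linarith
    have h2 := (div_le_div_iff_of_pos_right (by norm_num : (0 : ℝ) < 200)).mp this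
    have h3 : (lb : ℝ) ≤ ((Pk.dotN ns ks + uppN ks fs : ℕ) : ℝ) := by
      push_cast
      exact h2
    exact Nat.cast_le.mp h3
  obtain ⟨n1, n2, n3⟩ := nF_facts hS7 12800 ks Ps hkn hl
  have f2 : Pk.dotN ns Ps + lowN 0 Ps fs ≤ p1 := by
    have e0 := hS1 (kR ks) (Ps.map fun v : ℕ => (v : ℝ) / 12800) 0 0 (nF 12800 ks Ps) ns fs N hkn
      (by simp [kR, hl]) n1 n2 (by
        intro n hn
        have h4 : (kR ks).getD n 0 = (kR ks)[n] := List.getD_eq_getElem _ _ hn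
        have hn2 : n < (Ps.map fun v : ℕ => (v : ℝ) / 12800).length := by
          rw [List.length_map, hl]
          rwa [kR_length] at hn
        rw [h4, List.getD_eq_getElem _ _ hn2]
        have h5 := congrArg (fun l : List ℝ => l[n]?) n3
        simp only [List.getElem?_map] at h5
        rw [List.getElem?_eq_getElem hn] at h5
        have h6 : (Ps.map fun v : ℕ => (v : ℝ) / 12800)[n]? = some (Ps.map fun v : ℕ => (v : ℝ) / 12800)[n] :=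
          List.getElem?_eq_getElem hn2
        rw [List.getElem?_map] at h6
        rw [h6] at h5
        simpa using h5) hMo rd.red
    have e1 := lowS_nat 12800 Ps 0 fs
    have e2 := dotR_nat ns Ps 12800
    rw [Nat.cast_zero, zero_div] at e1
    rw [e1, e2] at e0
    have e3 := rd.f (nF 12800 ks Ps) n1 n2
    have e4 : ((sn M).map (nF 12800 ks Ps)).sum ≤ Mi.sum := by
      rw [sum_snd, ← sum_fst hP]
      exact Multiset.sum_map_le_sum_map _ _ fun w hw => (hk w hw).2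
    have e5 : ((Pk.dotN ns Ps : ℝ) + lowN 0 Ps fs) / 12800 ≤ R := by
      rw [add_div]
      linarith [e0.1]
    have e6 : (((Pk.dotN ns Ps + lowN 0 Ps fs : ℕ)) : ℝ) ≤ p1 := by
      push_cast
      rw [div_le_iff₀ (by norm_num)] at e5
      linarith
    exact_mod_cast e6
  obtain ⟨al, hal⟩ := hR ns fs N rd.red f1 f2 f3
  rcases hal with hl | hr
  · refine ⟨(c al).at (γ al) N, ?_, ?_⟩
    · rw [Af.at_val]
      exact val al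
    · intro ba bb bc
      rw [← VJ_eq]
      exact hl ba bb bc
  · exfalso
    have h1 := hr a y z ha0 ha1 hy0 hy1 hz0 hz1
    have h2 := val al
    have h3 : WD.Wd (a + y + z + N.sum) ≤ What (a + y + z + N.sum) := by
      have h0 : 0 ≤ N.sum := Multiset.sum_nonneg fun e he => (hN e he).1
      have h4 := rd.s
      exact Wd_le_What' _ (by linarith) (by linarith)
    rw [← rd.s] at h1 h3
    linarith

/-- the bound of the sum by the heavy rows -/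
theorem row_star {ks : List ℕ} {S d cap : ℕ} {a0 a1 y0 y1 z0 z1 : ℝ} {bad : Bool}
    (hcap : top 0 (kR ks) ≤ (cap : ℝ) / 200) (hT : StarOK cap S d (!bad) a0 a1 y0 y1 z0 z1)
    {a y z G : ℝ} {M : Multiset (ℝ × ℝ)}
    (ha0 : a0 ≤ a) (ha1 : a ≤ a1) (hy0 : y0 ≤ y) (hy1 : y ≤ y1) (hz0 : z0 ≤ z) (hz1 : z ≤ z1)
    (hv : Val G (a ::ₘ y ::ₘ z ::ₘ sn M)) (hM : ∀ e ∈ sn M, 0 ≤ e ∧ e ≤ top 0 (kR ks))
    (hbad : bad = true → 0 < Df G (a ::ₘ y ::ₘ z ::ₘ sn M))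
    (hd : -((d : ℝ) / 10 ^ 7) < Df G (a ::ₘ y ::ₘ z ::ₘ sn M)) : (sn M).sum < (S : ℝ) / 200 := by
  have hb2 := hbad
  rw [Df3] at hbad hd
  by_contra hcon
  rw [not_lt] at hcon
  obtain ⟨s1, s2⟩ := hT a y z (sn M) ha0 ha1 hy0 hy1 hz0 hz1 (fun e he => ⟨(hM e he).1, (hM e he).2.trans hcap⟩) hcon
  cases bad with
  | true =>
    have h1 := hbad rfl
    have h2 := hv.2 (hb2 rfl)
    linarith
  | false =>
    have s3 := s2 rfl
    have h2 := hv.1.trans (max_le_max le_rfl (Gam_half _))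
    have h3 : max (FM (1 ::ₘ a ::ₘ y ::ₘ z ::ₘ sn M)) (1 / 2) ≤ What (a + y + z + (sn M).sum) - (d : ℝ) / 10 ^ 7 :=
      max_le (by linarith) (by linarith)
    linarith

lemma aff_nonpos {ψ : ℝ → ℝ} (ks : List ℝ) : ∀ a, Inc a ks → Aff ψ a ks → ψ a ≤ 0 → (∀ k ∈ ks, ψ k ≤ 0) →
    ∀ u, a ≤ u → u ≤ top a ks → ψ u ≤ 0 := by
  induction ks with
  | nil =>
    intro a _ _ h0 _ u h1 h2
    have : u = a := le_antisymm h2 h1
    rw [this]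
    exact h0
  | cons k ks ih =>
    intro a hinc haff h0 hk u h1 h2
    obtain ⟨⟨p, q, hp⟩, haff⟩ := haff
    have hkk := hk k List.mem_cons_self
    rcases le_total u k with h | h
    · rw [hp u h1 h]
      rw [hp a le_rfl hinc.1.le] at h0
      rw [hp k hinc.1.le le_rfl] at hkk
      have hak := hinc.1
      have e : (k - a) * (p * u + q) = (k - u) * (p * a + q) + (u - a) * (p * k + q) := by ring
      have h3 : (k - a) * (p * u + q) ≤ 0 := by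
        rw [e]
        have e1 := mul_nonpos_of_nonneg_of_nonpos (sub_nonneg.mpr h) h0
        have e2 := mul_nonpos_of_nonneg_of_nonpos (sub_nonneg.mpr h1) hkk
        linarith
      exact nonpos_of_mul_nonpos_right h3 (by linarith)
    · exact ih k hinc.2 haff hkk (fun k' hk' => hk k' (List.mem_cons_of_mem _ hk')) u h h2

/-- ZONE 2 of a row -/
theorem row_zone {ks : List ℕ} {S1 S cap : ℕ} {A β Cz : ℝ} {c : Bool → Af} {γ : Bool → ℝ → ℝ} {φ : ℝ → ℝ}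
    {a0 a1 y0 y1 z0 z1 : ℝ} {r : ℕ → ℝ} {bad : Bool}
    (hS2 : SpecS2) (hkn : KnOK ks) (hcap : top 0 (kR ks) ≤ (cap : ℝ) / 200)
    (hφ : Aff φ 0 (kR ks)) (hφ0 : φ 0 = 0) (hC : ∀ k ∈ kR ks, φ k ≤ Cz * k)
    (la : 3 / 10 ≤ a0) (ua : a1 ≤ 1) (ly : 0 ≤ y0) (uy : y1 ≤ 1) (lz : 0 ≤ z0) (uz : z1 ≤ 1)
    (hZ : ZoneOK cap S1 S A β Cz (v2 bad) a0 a1 y0 y1 z0 z1 r)
    (hA : AltOK ks bad c γ a0 a1 y0 y1 z0 z1)
    {a y z G : ℝ} {M : Multiset (ℝ × ℝ)}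
    (ha0 : a0 ≤ a) (ha1 : a ≤ a1) (hy0 : y0 ≤ y) (hy1 : y ≤ y1) (hz0 : z0 ≤ z) (hz1 : z ≤ z1)
    (hv : Val G (a ::ₘ y ::ₘ z ::ₘ sn M)) (hM : ∀ e ∈ sn M, 0 ≤ e ∧ e ≤ top 0 (kR ks))
    (hbad : bad = true → 0 < Df G (a ::ₘ y ::ₘ z ::ₘ sn M))
    (hs1 : (S1 : ℝ) / 200 ≤ (sn M).sum) (hs : (sn M).sum ≤ (S : ℝ) / 200) :
    ∃ ns fs N, Rd (kR ks) (1 ::ₘ a ::ₘ y ::ₘ z ::ₘ 0) (sn M) ns fs N ∧
      (∀ e ∈ N, 0 ≤ e ∧ e ≤ 1) ∧ ∃ cf : Af, G ≤ max (FM (1 ::ₘ a ::ₘ y ::ₘ z ::ₘ N)) (cf.val a y z) ∧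
        ∀ ba bb bc : Bool, UJ A β cf φ (edg a0 a1 ba) (edg y0 y1 bb) (edg z0 z1 bc) N ≤ r (ix ba bb bc) := by
  obtain ⟨ns, fs, N, rd, q3, -, val⟩ := row_pre hS2 hkn (by linarith) ua ly uy lz uz hA ha0 ha1 hy0 hy1 hz0 hz1 hv hM hbad
  refine ⟨ns, fs, N, rd, fun e he => ⟨(q3 e he).1, (q3 e he).2.trans (S6M.inc_top _ _ hkn)⟩, cAf (v2 bad), ?_, ?_⟩
  · rw [cAf_val]
    exact val
  · intro ba bb bc
    have h1 := hZ N (fun e he => ⟨(q3 e he).1, (q3 e he).2.trans hcap⟩) (by rw [← rd.s]; exact hs1)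
      (by rw [← rd.s]; exact hs) ba bb bc
    have h2 : (N.map φ).sum ≤ Cz * N.sum := by
      have e : Cz * N.sum = (N.map fun u => Cz * u).sum := by
        rw [Multiset.sum_map_mul_left, Multiset.map_id']
      rw [e]
      refine Multiset.sum_map_le_sum_map _ _ fun e he => ?_
      have hψ : Aff (fun u => φ u - Cz * u) 0 (kR ks) :=
        Aff.sub _ _ hφ (aff_lin Cz _ _)
      have := aff_nonpos (kR ks) 0 hkn hψ (by beta_reduce; rw [hφ0]; simp) (fun k hk => by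
        beta_reduce
        have := hC k hk
        linarith) e (q3 e he).1 (q3 e he).2
      beta_reduce at this
      linarith
    unfold B2.UJ
    rw [cAf_val]
    linarith

end C1
end Pool.Agent.Lib.MP_6947cd_al
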