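import Pool.Agent.Lib.MP_6947cd_al.C.Spec

/-!
Problem MP_6947cd_al (Chollet).  CASE C: the function of the special entries.
-/

set_option autoImplicit false
open Finset

namespace Pool.Agent.Lib.MP_6947cd_al
namespace C1

open Ent Fr Fr.WT CC B1

/-! ### elementary functions -/

/-- tangent of `omg` at `m` -/
noncomputable def tau (m u : ℝ) : ℝ := omg m + (43 / 200 + 39 / 100 * m) * (u - m)

lemma tau_le (m u : ℝ) : tau m u ≤ omg u := by
  unfold tau omg
  nlinarith [sq_nonneg (u - m)]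

lemma tau_mono {m u v : ℝ} (hm : 0 ≤ m) (h : u ≤ v) : tau m u ≤ tau m v := by
  unfold tau
  nlinarith [mul_nonneg (show (0 : ℝ) ≤ 43 / 200 + 39 / 100 * m by positivity) (sub_nonneg.mpr h)]

lemma omg_convex (s : Set ℝ) (hs : Convex ℝ s) : ConvexOn ℝ s fun t => omg t := by
  refine ⟨hs, fun x _ y _ a b ha hb hab => ?_⟩
  simp only [smul_eq_mul]
  unfold omg
  have hb' : b = 1 - a := by linarith
  subst hb'
  nlinarith [mul_nonneg (mul_nonneg ha hb) (sq_nonneg (x - y))]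

/-- quadratic loss -/
noncomputable def qL (a b u : ℝ) : ℝ := a * u + b / 2 * u ^ 2

lemma qL_convex {a b : ℝ} (hb : 0 ≤ b) (s : Set ℝ) (hs : Convex ℝ s) : ConvexOn ℝ s fun t => qL a b t := by
  refine ⟨hs, fun x _ y _ p q hp hq hpq => ?_⟩
  simp only [smul_eq_mul]
  unfold qL
  have hq' : q = 1 - p := by linarith
  subst hq'
  nlinarith [mul_nonneg hb (mul_nonneg (mul_nonneg hp hq) (sq_nonneg (x - y)))]

lemma qL_mono {a b u v : ℝ} (ha : 0 ≤ a) (hb : 0 ≤ b) (hu : 0 ≤ u) (h : u ≤ v) : qL a b u ≤ qL a b v := by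
  unfold qL
  have h1 := mul_le_mul_of_nonneg_left h ha
  have h2 : u ^ 2 ≤ v ^ 2 := by nlinarith
  have h3 := mul_le_mul_of_nonneg_left h2 (show 0 ≤ b / 2 by positivity)
  linarith

/-- majorant of `gtr`: quadratic (`false`) or constant (`true`) -/
noncomputable def kL (f : Bool) (u : ℝ) : ℝ := bif f then 1017 / 8000 else 43 / 200 * u + 3 / 20 * u ^ 2

lemma gtr_le_kL (f : Bool) {u : ℝ} (hu : 0 ≤ u) : gtr (3 / 20) (9 / 20) u ≤ kL f u := by
  have h1 : 0 ≤ min u (9 / 20) := le_min hu (by norm_num)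
  cases f with
  | false =>
    simp only [kL, cond_false]
    unfold gtr
    have h2 : min u (9 / 20) ≤ u := min_le_left _ _
    nlinarith
  | true =>
    simp only [kL, cond_true]
    unfold gtr
    have h2 : min u (9 / 20) ≤ 9 / 20 := min_le_right _ _
    nlinarith

lemma kL_mono (f : Bool) {u v : ℝ} (hu : 0 ≤ u) (h : u ≤ v) : kL f u ≤ kL f v := by
  cases f with
  | false =>
    simp only [kL, cond_false]
    nlinarith
  | true => exact le_rfl

lemma kL_convex (f : Bool) (s : Set ℝ) (hs : Convex ℝ s) : ConvexOn ℝ s fun t => kL f t := by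
  cases f with
  | false =>
    have := qL_convex (a := 43 / 200) (b := 3 / 10) (by norm_num) s hs
    refine this.congr fun u _ => ?_
    simp only [kL, qL, cond_false]
    ring
  | true => exact convexOn_const _ hs

/-! ### the levels of the losses -/

/-- coefficients of the polynomial loss in the presence of an entry `≥ L / 10` (unit `1 / 1000`) -/
def cAn (L : ℕ) : ℕ := [215, 215, 215, 215, 208, 202, 194, 186, 178, 169, 161].getD L 161
def cBn (L : ℕ) : ℕ := [390, 390, 390, 390, 345, 340, 330, 310, 285, 260, 240].getD L 240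
noncomputable def cA (L : ℕ) : ℝ := (cAn L : ℝ) / 1000
noncomputable def cB (L : ℕ) : ℝ := (cBn L : ℝ) / 1000

lemma cA_nonneg (L : ℕ) : 0 ≤ cA L := by unfold cA; positivity
lemma cB_nonneg (L : ℕ) : 0 ≤ cB L := by unfold cB; positivity

lemma lp_le {A B A' B' s : ℝ} (hA : A' ≤ A) (hB : B' ≤ B) (hs : 0 ≤ s) : lp A' B' s ≤ qL A B s := by
  unfold lp qL
  have h1 := mul_le_mul_of_nonneg_right hA hs
  have h2 := mul_le_mul_of_nonneg_right hB (sq_nonneg s)
  linarith

lemma omg_le {A B s : ℝ} (hA : 43 / 200 ≤ A) (hB : 39 / 100 ≤ B) (hs : 0 ≤ s) : omg s ≤ qL A B s := by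
  unfold omg qL
  have h1 := mul_le_mul_of_nonneg_right hA hs
  have h2 := mul_le_mul_of_nonneg_right hB (sq_nonneg s)
  linarith

/-- all the branches -/
lemma lf_cases {M s A B : ℝ} (hs : 0 ≤ s)
    (b10 : 10 / 10 ≤ M → 161 / 1000 ≤ A ∧ 240 / 1000 ≤ B)
    (b9 : M < 10 / 10 → 9 / 10 ≤ M → 169 / 1000 ≤ A ∧ 260 / 1000 ≤ B)
    (b8 : M < 9 / 10 → 8 / 10 ≤ M → 178 / 1000 ≤ A ∧ 285 / 1000 ≤ B)
    (b7 : M < 8 / 10 → 7 / 10 ≤ M → 186 / 1000 ≤ A ∧ 310 / 1000 ≤ B)
    (b6 : M < 7 / 10 → 6 / 10 ≤ M → 194 / 1000 ≤ A ∧ 330 / 1000 ≤ B)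
    (b5 : M < 6 / 10 → 5 / 10 ≤ M → 202 / 1000 ≤ A ∧ 340 / 1000 ≤ B)
    (b4 : M < 5 / 10 → 4 / 10 ≤ M → 208 / 1000 ≤ A ∧ 345 / 1000 ≤ B)
    (b3 : M < 4 / 10 → 43 / 200 ≤ A ∧ 39 / 100 ≤ B) : lf M s ≤ qL A B s := by
  unfold lf
  split_ifs with h10 h9 h8 h7 h6 h5 h4
  · exact lp_le (b10 h10).1 (b10 h10).2 hs
  · exact lp_le (b9 (not_le.mp h10) h9).1 (b9 (not_le.mp h10) h9).2 hs
  · exact lp_le (b8 (not_le.mp h9) h8).1 (b8 (not_le.mp h9) h8).2 hs
  · exact lp_le (b7 (not_le.mp h8) h7).1 (b7 (not_le.mp h8) h7).2 hs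
  · exact lp_le (b6 (not_le.mp h7) h6).1 (b6 (not_le.mp h7) h6).2 hs
  · exact lp_le (b5 (not_le.mp h6) h5).1 (b5 (not_le.mp h6) h5).2 hs
  · exact lp_le (b4 (not_le.mp h5) h4).1 (b4 (not_le.mp h5) h4).2 hs
  · exact omg_le (b3 (not_le.mp h4)).1 (b3 (not_le.mp h4)).2 hs

/-- the loss at a level -/
theorem lf_le {L : ℕ} {M s : ℝ} (hL : L ≤ 10) (h : L ≤ 3 ∨ (L : ℝ) / 10 ≤ M) (hs : 0 ≤ s) :
    lf M s ≤ qL (cA L) (cB L) s := by
  interval_cases L
  · rw [show cA 0 = 215 / 1000 by norm_num [cA, cAn], show cB 0 = 390 / 1000 by norm_num [cB, cBn]]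
    apply lf_cases hs <;> intros <;> constructor <;> norm_num
  · rw [show cA 1 = 215 / 1000 by norm_num [cA, cAn], show cB 1 = 390 / 1000 by norm_num [cB, cBn]]
    apply lf_cases hs <;> intros <;> constructor <;> norm_num
  · rw [show cA 2 = 215 / 1000 by norm_num [cA, cAn], show cB 2 = 390 / 1000 by norm_num [cB, cBn]]
    apply lf_cases hs <;> intros <;> constructor <;> norm_num
  · rw [show cA 3 = 215 / 1000 by norm_num [cA, cAn], show cB 3 = 390 / 1000 by norm_num [cB, cBn]]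
    apply lf_cases hs <;> intros <;> constructor <;> norm_num
  · rw [show cA 4 = 208 / 1000 by norm_num [cA, cAn], show cB 4 = 345 / 1000 by norm_num [cB, cBn]]
    have h' : (4 : ℝ) / 10 ≤ M := by
      rcases h with h | h
      · omega
      · exact_mod_cast h
    apply lf_cases hs <;> intros <;> first | (constructor <;> norm_num; done) | (exfalso; linarith)
  · rw [show cA 5 = 202 / 1000 by norm_num [cA, cAn], show cB 5 = 340 / 1000 by norm_num [cB, cBn]]
    have h' : (5 : ℝ) / 10 ≤ M := by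
      rcases h with h | h
      · omega
      · exact_mod_cast h
    apply lf_cases hs <;> intros <;> first | (constructor <;> norm_num; done) | (exfalso; linarith)
  · rw [show cA 6 = 194 / 1000 by norm_num [cA, cAn], show cB 6 = 330 / 1000 by norm_num [cB, cBn]]
    have h' : (6 : ℝ) / 10 ≤ M := by
      rcases h with h | h
      · omega
      · exact_mod_cast h
    apply lf_cases hs <;> intros <;> first | (constructor <;> norm_num; done) | (exfalso; linarith)
  · rw [show cA 7 = 186 / 1000 by norm_num [cA, cAn], show cB 7 = 310 / 1000 by norm_num [cB, cBn]]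
    have h' : (7 : ℝ) / 10 ≤ M := by
      rcases h with h | h
      · omega
      · exact_mod_cast h
    apply lf_cases hs <;> intros <;> first | (constructor <;> norm_num; done) | (exfalso; linarith)
  · rw [show cA 8 = 178 / 1000 by norm_num [cA, cAn], show cB 8 = 285 / 1000 by norm_num [cB, cBn]]
    have h' : (8 : ℝ) / 10 ≤ M := by
      rcases h with h | h
      · omega
      · exact_mod_cast h
    apply lf_cases hs <;> intros <;> first | (constructor <;> norm_num; done) | (exfalso; linarith)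
  · rw [show cA 9 = 169 / 1000 by norm_num [cA, cAn], show cB 9 = 260 / 1000 by norm_num [cB, cBn]]
    have h' : (9 : ℝ) / 10 ≤ M := by
      rcases h with h | h
      · omega
      · exact_mod_cast h
    apply lf_cases hs <;> intros <;> first | (constructor <;> norm_num; done) | (exfalso; linarith)
  · rw [show cA 10 = 161 / 1000 by norm_num [cA, cAn], show cB 10 = 240 / 1000 by norm_num [cB, cBn]]
    have h' : (10 : ℝ) / 10 ≤ M := by
      rcases h with h | h
      · omega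
      · exact_mod_cast h
    apply lf_cases hs <;> intros <;> first | (constructor <;> norm_num; done) | (exfalso; linarith)

/-! ### the losses of two and three entries -/

/-- merged entries, both -/
noncomputable def LOc (A B : ℝ) (gb kf : Bool) (t g : ℝ) : ℝ :=
  max (max (qL A B t + omg g) (qL A B g + omg t))
    (bif gb then qL A B t + omg g else max (kL kf t + omg g) (kL kf g + omg t))

/-- merged entries, the smaller one; `mf = false`: bounded by `g`, `true`: by `t` -/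
noncomputable def LMc (A B : ℝ) (gb kf mf : Bool) (t g : ℝ) : ℝ :=
  bif mf then (bif gb then qL A B t else max (qL A B t) (kL kf t))
    else (bif gb then qL A B g else max (qL A B g) (kL kf g))

lemma lm2_le (b : Prop) [Decidable b] {A B : ℝ} {gb : Bool} (kf : Bool) {t g : ℝ} (ht : 0 ≤ t) (hg : 0 ≤ g)
    (hlv : lf (max t g) (min t g) ≤ qL A B (min t g)) (hb : gb = true → b) : lm2 b t g ≤ LOc A B gb kf t g := by
  unfold lm2 LOc
  have hm : 0 ≤ min t g := le_min ht hg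
  have h1 := gtr_le_kL kf hm
  cases gb with
  | true =>
    rw [if_pos (hb rfl), cond_true]
    rcases le_total t g with h | h
    · rw [min_eq_left h, max_eq_right h] at hlv ⊢
      exact le_trans (by linarith) ((le_max_left _ _).trans (le_max_left _ _))
    · rw [min_eq_right h, max_eq_left h] at hlv ⊢
      exact le_trans (by linarith) ((le_max_right _ _).trans (le_max_left _ _))
  | false =>
    rw [cond_false]
    have h2 : (if b then lf (max t g) (min t g) else max (lf (max t g) (min t g)) (gtr (3 / 20) (9 / 20) (min t g)))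
        ≤ max (qL A B (min t g)) (kL kf (min t g)) := by
      split_ifs
      · exact hlv.trans (le_max_left _ _)
      · exact max_le_max hlv h1
    rcases le_total t g with h | h
    · rw [min_eq_left h, max_eq_right h] at h2 ⊢
      rcases max_cases (qL A B t) (kL kf t) with ⟨e, -⟩ | ⟨e, -⟩
      · rw [e] at h2
        exact le_trans (by linarith) ((le_max_left _ _).trans (le_max_left _ _))
      · rw [e] at h2
        exact le_trans (by linarith) ((le_max_left _ _).trans (le_max_right _ _))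
    · rw [min_eq_right h, max_eq_left h] at h2 ⊢
      rcases max_cases (qL A B g) (kL kf g) with ⟨e, -⟩ | ⟨e, -⟩
      · rw [e] at h2
        exact le_trans (by linarith) ((le_max_right _ _).trans (le_max_left _ _))
      · rw [e] at h2
        exact le_trans (by linarith) ((le_max_right _ _).trans (le_max_right _ _))

lemma lm2_sub_le (b : Prop) [Decidable b] {A B : ℝ} {gb : Bool} (kf mf : Bool) {t g : ℝ} (hA : 0 ≤ A)
    (hB : 0 ≤ B) (ht : 0 ≤ t) (hg : 0 ≤ g) (hlv : lf (max t g) (min t g) ≤ qL A B (min t g))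
    (hb : gb = true → b) : lm2 b t g - omg (max t g) ≤ LMc A B gb kf mf t g := by
  unfold lm2 LMc
  have hm : 0 ≤ min t g := le_min ht hg
  have h1 := gtr_le_kL kf hm
  cases gb with
  | true =>
    rw [if_pos (hb rfl), cond_true, cond_true]
    cases mf with
    | true =>
      have := qL_mono hA hB hm (min_le_left t g)
      rw [cond_true]
      linarith
    | false =>
      have := qL_mono hA hB hm (min_le_right t g)
      rw [cond_false]
      linarith
  | false =>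
    rw [cond_false, cond_false]
    have h2 : (if b then lf (max t g) (min t g) else max (lf (max t g) (min t g)) (gtr (3 / 20) (9 / 20) (min t g)))
        ≤ max (qL A B (min t g)) (kL kf (min t g)) := by
      split_ifs
      · exact hlv.trans (le_max_left _ _)
      · exact max_le_max hlv h1
    have h3 : ∀ w, min t g ≤ w → max (qL A B (min t g)) (kL kf (min t g))
        ≤ max (qL A B w) (kL kf w) := fun w hw => max_le_max (qL_mono hA hB hm hw) (kL_mono _ hm hw)
    cases mf with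
    | true =>
      have := h3 t (min_le_left _ _)
      rw [cond_true]
      linarith
    | false =>
      have := h3 g (min_le_right _ _)
      rw [cond_false]
      linarith

/-- three entries -/
noncomputable def L3 (A B x y z : ℝ) : ℝ :=
  max (omg x + (qL A B y + qL A B z)) (max (omg y + (qL A B x + qL A B z)) (omg z + (qL A B x + qL A B y)))

lemma LB3_of {L : ℕ} {x y z : ℝ} (hL : L ≤ 10) (hx : 0 ≤ x) (hy : 0 ≤ y) (hz : 0 ≤ z)
    (h : L ≤ 3 ∨ (L : ℝ) / 10 ≤ max x (max y z)) : LB3 x y z (L3 (cA L) (cB L) x y z) := by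
  unfold LB3 L3
  rcases le_total y x with h1 | h1
  · rcases le_total z x with h2 | h2
    · left
      rw [max_eq_left (max_le h1 h2)] at h
      exact ⟨h1, h2, (add_le_add le_rfl (add_le_add (lf_le hL h hy) (lf_le hL h hz))).trans (le_max_left _ _)⟩
    · right; right
      rw [max_eq_right (h1.trans h2), max_eq_right h2] at h
      exact ⟨h2, h1.trans h2, (add_le_add le_rfl (add_le_add (lf_le hL h hx) (lf_le hL h hy))).trans
        ((le_max_right _ _).trans (le_max_right _ _))⟩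
  · rcases le_total z y with h2 | h2
    · right; left
      rw [max_eq_left h2, max_eq_right h1] at h
      exact ⟨h1, h2, (add_le_add le_rfl (add_le_add (lf_le hL h hx) (lf_le hL h hz))).trans
        ((le_max_left _ _).trans (le_max_right _ _))⟩
    · right; right
      rw [max_eq_right h2, max_eq_right (h1.trans h2)] at h
      exact ⟨h1.trans h2, h2, (add_le_add le_rfl (add_le_add (lf_le hL h hx) (lf_le hL h hy))).trans
        ((le_max_right _ _).trans (le_max_right _ _))⟩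

/-! ### the permanent of order four -/

/-- lower bounds of the permanent of order four -/
noncomputable def S4f (md : ℕ) (v : Fin 7 → ℝ) : ℝ :=
  if md = 0 then 4 * (v 0 + v 1 + v 2 + v 3 + v 4 + v 5) - 6 + 2 * (v 0 * v 5 + v 1 * v 4 + v 2 * v 3)
  else if md = 1 then 2 * (v 0 + v 1 + v 3)
  else if md = 2 then 2 * (v 0 + v 2 + v 4)
  else if md = 3 then 2 * (v 1 + v 2 + v 5)
  else if md = 4 then (1 + v 0) * (1 + v 5)
  else if md = 5 then (1 + v 1) * (1 + v 4)
  else (1 + v 2) * (1 + v 3)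

lemma ma_mul2 {i j : Fin 7} (hij : i ≠ j) (a b : ℝ) : Ma fun v : Fin 7 → ℝ => (a + v i) * (b + v j) := by
  have h := Ma.mul_coord (b := a) (c := 1) i (f := fun v : Fin 7 → ℝ => b + v j)
    ((Ma.const b).add (Ma.coord j)) (fun v u => by
      rw [Function.update_of_ne hij.symm])
  refine fun v k => ?_
  obtain ⟨p, q, h1⟩ := h v k
  refine ⟨p, q, fun u => ?_⟩
  rw [← h1 u]
  ring

lemma ma_S4f (md : ℕ) : Ma (S4f md) := by
  have c0 := Ma.coord (0 : Fin 7)
  have c1 := Ma.coord (1 : Fin 7)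
  have c2 := Ma.coord (2 : Fin 7)
  have c3 := Ma.coord (3 : Fin 7)
  have c4 := Ma.coord (4 : Fin 7)
  have c5 := Ma.coord (5 : Fin 7)
  unfold S4f
  by_cases h0 : md = 0
  · simp only [if_pos h0]
    have p := ((((((c0.add c1).add c2).add c3).add c4).add c5).smul 4).add
      (((((ma_mul2 (i := 0) (j := 5) (by decide) 0 0).add (ma_mul2 (i := 1) (j := 4) (by decide) 0 0)).add
        (ma_mul2 (i := 2) (j := 3) (by decide) 0 0)).smul 2).add (Ma.const (-6)))
    refine fun v k => ?_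
    obtain ⟨a, b, h⟩ := p v k
    refine ⟨a, b, fun u => ?_⟩
    rw [← h u]
    beta_reduce
    ring
  simp only [if_neg h0]
  by_cases h1 : md = 1
  · simp only [if_pos h1]
    exact ((c0.add c1).add c3).smul 2
  simp only [if_neg h1]
  by_cases h2 : md = 2
  · simp only [if_pos h2]
    exact ((c0.add c2).add c4).smul 2
  simp only [if_neg h2]
  by_cases h3 : md = 3
  · simp only [if_pos h3]
    exact ((c1.add c2).add c5).smul 2
  simp only [if_neg h3]
  by_cases h4 : md = 4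
  · simp only [if_pos h4]
    exact ma_mul2 (by decide) 1 1
  simp only [if_neg h4]
  by_cases h5 : md = 5
  · simp only [if_pos h5]
    exact ma_mul2 (by decide) 1 1
  simp only [if_neg h5]
  exact ma_mul2 (by decide) 1 1

/-! ### the function -/

/-- parameters of a pair of merged entries -/
structure MP where
  L : ℕ
  gb : Bool
  kf : Bool
  mf : Bool
  um : ℝ

/-- the loss of the merged entries minus the merged entry -/
noncomputable def MP.X (P : MP) (U t g : ℝ) : ℝ :=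
  max (LOc (cA P.L) (cB P.L) P.gb P.kf t g - tau P.um U) (LMc (cA P.L) (cB P.L) P.gb P.kf P.mf t g)

/-- the parameters -/
structure SP where
  k : MP
  l : MP
  ψ : ℝ
  αk : ℝ
  αl : ℝ
  L7 : ℕ
  L8 : ℕ
  md : ℕ

/-- THE FUNCTION of the special entries -/
noncomputable def SP.S (P : SP) (w : Wt) (Uk Ul cut : (Fin 7 → ℝ) → ℝ) (v : Fin 7 → ℝ) : ℝ :=
  w.w3 * (P.k.X (Uk v) (v 1) (v 3) + P.l.X (Ul v) (v 2) (v 4) - P.ψ - P.αk * Real.log (Uk v)
      - P.αl * Real.log (Ul v) - 2 * Real.log (1 + v 0))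
    + w.w7 * (L3 (cA P.L7) (cB P.L7) (v 2) (v 4) (v 5) - 2 * Real.log (2 * (v 0 + v 1 + v 3)))
    + w.w8 * (L3 (cA P.L8) (cB P.L8) (v 1) (v 3) (v 5) - 2 * Real.log (2 * (v 0 + v 2 + v 4)))
    - w.wA * (2 * Real.log (S4f P.md v)) + cut v

section

variable {lo hi : Fin 7 → ℝ}

lemma cc_omg (j : Fin 7) : Cc lo hi fun v => omg (v j) := cc_coord j (omg_convex _ (convex_Icc _ _))

lemma cc_qL (L : ℕ) (j : Fin 7) : Cc lo hi fun v => qL (cA L) (cB L) (v j) :=
  cc_coord j (qL_convex (cB_nonneg L) _ (convex_Icc _ _))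

lemma cc_kL (kf : Bool) (j : Fin 7) : Cc lo hi fun v => kL kf (v j) := cc_coord j (kL_convex _ _ (convex_Icc _ _))

lemma cc_MPX (P : MP) {U : (Fin 7 → ℝ) → ℝ} (hU : Ma U) (a b : Fin 7) :
    Cc lo hi fun v => P.X (U v) (v a) (v b) := by
  have htau : Ma fun v => -tau P.um (U v) := by
    have := ((hU.smul (-(43 / 200 + 39 / 100 * P.um))).add
      (Ma.const (-(omg P.um - (43 / 200 + 39 / 100 * P.um) * P.um))))
    refine fun v i => ?_
    obtain ⟨p, q, h⟩ := this v i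
    refine ⟨p, q, fun u => ?_⟩
    rw [← h u]
    unfold tau
    ring
  have hLO : Cc lo hi fun v : Fin 7 → ℝ => LOc (cA P.L) (cB P.L) P.gb P.kf (v a) (v b) := by
    unfold LOc
    cases P.gb with
    | true =>
      exact (((cc_qL P.L a).add (cc_omg b)).max ((cc_qL P.L b).add (cc_omg a))).max ((cc_qL P.L a).add (cc_omg b))
    | false =>
      exact (((cc_qL P.L a).add (cc_omg b)).max ((cc_qL P.L b).add (cc_omg a))).max
        (((cc_kL P.kf a).add (cc_omg b)).max ((cc_kL P.kf b).add (cc_omg a)))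
  have hLM : Cc lo hi fun v : Fin 7 → ℝ => LMc (cA P.L) (cB P.L) P.gb P.kf P.mf (v a) (v b) := by
    unfold LMc
    cases P.mf with
    | true =>
      cases P.gb with
      | true => exact cc_qL P.L a
      | false => exact (cc_qL P.L a).max (cc_kL P.kf a)
    | false =>
      cases P.gb with
      | true => exact cc_qL P.L b
      | false => exact (cc_qL P.L b).max (cc_kL P.kf b)
  refine ((hLO.add htau.cc).max hLM).congr fun v _ => ?_
  unfold MP.X
  rw [sub_eq_add_neg]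

lemma cc_L3 (L : ℕ) (a b c : Fin 7) : Cc lo hi fun v => L3 (cA L) (cB L) (v a) (v b) (v c) :=
  ((cc_omg a).add ((cc_qL L b).add (cc_qL L c))).max
    (((cc_omg b).add ((cc_qL L a).add (cc_qL L c))).max ((cc_omg c).add ((cc_qL L a).add (cc_qL L b))))

lemma cc_nlog {f : (Fin 7 → ℝ) → ℝ} (hf : Ma f) {α : ℝ} (hα : 0 ≤ α) (h : α ≠ 0 → ∀ v, Box lo hi v → 0 < f v) :
    Cc lo hi fun v => α * -Real.log (f v) := by
  by_cases h0 : α = 0
  · refine (Cc.const (lo := lo) (hi := hi) 0).congr fun v _ => ?_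
    rw [h0, zero_mul]
  · exact (hf.neg_log (h h0)).smul hα

/-- the function is convex in every coordinate -/
theorem SP.cc (P : SP) {w : Wt} (hw : w.Ok) {Uk Ul cut : (Fin 7 → ℝ) → ℝ} (hUk : Ma Uk) (hUl : Ma Ul)
    (hcut : Ma cut) (hαk : 0 ≤ P.αk) (hαl : 0 ≤ P.αl) (l0 : 0 < lo 0) (l1 : 0 < lo 1) (l2 : 0 < lo 2)
    (l3 : 0 ≤ lo 3) (l4 : 0 ≤ lo 4) (pk : w.w3 * P.αk ≠ 0 → ∀ v, Box lo hi v → 0 < Uk v)
    (pl : w.w3 * P.αl ≠ 0 → ∀ v, Box lo hi v → 0 < Ul v)
    (pA : w.wA ≠ 0 → ∀ v, Box lo hi v → 0 < S4f P.md v) : Cc lo hi (P.S w Uk Ul cut) := by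
  have c0 := Ma.coord (0 : Fin 7)
  have c1 := Ma.coord (1 : Fin 7)
  have c2 := Ma.coord (2 : Fin 7)
  have c3 := Ma.coord (3 : Fin 7)
  have c4 := Ma.coord (4 : Fin 7)
  have n0 : Cc lo hi fun v : Fin 7 → ℝ => -Real.log (1 + v 0) := by
    refine ((Ma.const 1).add c0).neg_log fun v hv => ?_
    have b0 := (hv 0).1
    linarith
  have n7 : Cc lo hi fun v : Fin 7 → ℝ => -Real.log (2 * (v 0 + v 1 + v 3)) := by
    refine (((c0.add c1).add c3).smul 2).neg_log fun v hv => ?_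
    have b0 := (hv 0).1
    have b1 := (hv 1).1
    have b3 := (hv 3).1
    linarith
  have n8 : Cc lo hi fun v : Fin 7 → ℝ => -Real.log (2 * (v 0 + v 2 + v 4)) := by
    refine (((c0.add c2).add c4).smul 2).neg_log fun v hv => ?_
    have b0 := (hv 0).1
    have b1 := (hv 2).1
    have b3 := (hv 4).1
    linarith
  have k1 := (cc_MPX (lo := lo) (hi := hi) P.k hUk 1 3).smul hw.w3
  have k2 := (cc_MPX (lo := lo) (hi := hi) P.l hUl 2 4).smul hw.w3
  have k3 := cc_nlog (lo := lo) (hi := hi) hUk (mul_nonneg hw.w3 hαk) pk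
  have k4 := cc_nlog (lo := lo) (hi := hi) hUl (mul_nonneg hw.w3 hαl) pl
  have k5 := n0.smul (show 0 ≤ w.w3 * 2 from mul_nonneg hw.w3 (by norm_num))
  have k6 := (Ma.const (ι := Fin 7) (-(w.w3 * P.ψ))).cc (lo := lo) (hi := hi)
  have s7 := ((cc_L3 (lo := lo) (hi := hi) P.L7 2 4 5).add (n7.smul (show (0 : ℝ) ≤ 2 by norm_num))).smul hw.w7
  have s8 := ((cc_L3 (lo := lo) (hi := hi) P.L8 1 3 5).add (n8.smul (show (0 : ℝ) ≤ 2 by norm_num))).smul hw.w8
  have sA := cc_nlog (lo := lo) (hi := hi) (ma_S4f P.md) (mul_nonneg hw.wA (show (0 : ℝ) ≤ 2 by norm_num))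
    (fun h => pA (fun h0 => h (by rw [h0, zero_mul])))
  refine ((((((((k1.add k2).add k3).add k4).add k5).add k6).add s7).add s8).add (sA.add hcut.cc)).congr
    fun v _ => ?_
  unfold SP.S
  ring

end

/-! ### the bound -/

/-- one merged pair -/
lemma MP.bound (P : MP) (b : Prop) [Decidable b] (hL : P.L ≤ 10) (hum : 0 ≤ P.um) {t g U : ℝ} (ht : 0 ≤ t)
    (hg : 0 ≤ g) (hlv : P.L ≤ 3 ∨ (P.L : ℝ) / 10 ≤ max t g) (hb : P.gb = true → b) :
    lm2 b t g - omg (min (max U 0) (max t g)) ≤ P.X U t g := by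
  have hm : 0 ≤ min t g := le_min ht hg
  have h1 := lf_le (M := max t g) hL hlv hm
  unfold MP.X
  rcases le_total (max U 0) (max t g) with h | h
  · rw [min_eq_left h]
    refine le_trans ?_ (le_max_left _ _)
    have e1 := lm2_le b P.kf ht hg h1 hb
    have e2 := (tau_mono hum (le_max_left U 0)).trans (tau_le P.um (max U 0))
    linarith
  · rw [min_eq_right h]
    exact (lm2_sub_le b P.kf P.mf (cA_nonneg _) (cB_nonneg _) ht hg h1 hb).trans (le_max_right _ _)

/-- lower bound of the merged row -/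
def PsiOk (ψ αk αl : ℝ) : Prop := ∀ u v : ℝ, 0 ≤ u → 0 ≤ v → (αk ≠ 0 → 0 < u) → (αl ≠ 0 → 0 < v) →
  ψ + αk * Real.log u + αl * Real.log v ≤ FM (1 ::ₘ u ::ₘ v ::ₘ 0)

/-- THE BOUND of the function: everything which the real leaf needs. -/
theorem SP.bound (P : SP) {w : Wt} {h t s g1 g2 g3 : ℝ} {Mi : Multiset ℝ}
    {M1 M2 M3 : Multiset (ℝ × ℝ)} {G0 G1 G2 G3 p1 p2 p3 ρ1 ρ2 ρ3 : ℝ}
    (c : Cfg h t s g1 g2 g3 Mi M1 M2 M3 G0 G1 G2 G3 p1 p2 p3 ρ1 ρ2 ρ3) {r : ℝ}
    {lo hi : Fin 7 → ℝ} (hv : Box lo hi (vec7 h t s g1 g2 g3 r))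
    {Vk Vl : Bool → Bool → Bool → ℝ} (hUk : w.w3 ≠ 0 → UOk lo hi 1 3 Vk) (hUl : w.w3 ≠ 0 → UOk lo hi 2 4 Vl)
    (hL : P.k.L ≤ 10) (hL' : P.l.L ≤ 10) (hum : 0 ≤ P.k.um) (hum' : 0 ≤ P.l.um)
    (hlk : P.k.L ≤ 3 ∨ (P.k.L : ℝ) / 10 ≤ lo 1 ∨ (P.k.L : ℝ) / 10 ≤ lo 3)
    (hll : P.l.L ≤ 3 ∨ (P.l.L : ℝ) / 10 ≤ lo 2 ∨ (P.l.L : ℝ) / 10 ≤ lo 4)
    (hL7 : P.L7 ≤ 10) (hL8 : P.L8 ≤ 10)
    (hl7 : P.L7 ≤ 3 ∨ (P.L7 : ℝ) / 10 ≤ lo 2 ∨ (P.L7 : ℝ) / 10 ≤ lo 4 ∨ (P.L7 : ℝ) / 10 ≤ lo 5)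
    (hl8 : P.L8 ≤ 3 ∨ (P.L8 : ℝ) / 10 ≤ lo 1 ∨ (P.L8 : ℝ) / 10 ≤ lo 3 ∨ (P.L8 : ℝ) / 10 ≤ lo 5)
    (hbk : P.k.gb = true → 0 < Df G2 (t ::ₘ g1 ::ₘ g3 ::ₘ sn M2))
    (hbl : P.l.gb = true → 0 < Df G3 (s ::ₘ g2 ::ₘ g3 ::ₘ sn M3))
    (hψ : w.w3 ≠ 0 → PsiOk P.ψ P.αk P.αl)
    (hpk : w.w3 ≠ 0 → P.αk ≠ 0 → 0 < Ip lo hi (fun e => Vk (e 0) (e 1) (e 3)) (vec7 h t s g1 g2 g3 r))
    (hpl : w.w3 ≠ 0 → P.αl ≠ 0 → 0 < Ip lo hi (fun e => Vl (e 0) (e 2) (e 4)) (vec7 h t s g1 g2 g3 r))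
    (hpA : w.wA ≠ 0 → 0 < S4f P.md (vec7 h t s g1 g2 g3 r)) (cutf : (Fin 7 → ℝ) → ℝ)
    {π : ℝ → ℝ → ℝ}
    (hπ : w.w3 ≠ 0 → ∀ z ∈ M1, ∀ c u, 0 ≤ u → u ≤ 1 → PGeo h (Real.sqrt (1 - h)) z.1 z.2 c u →
      omg z.1 + omg z.2 - omg (min u (max z.1 z.2)) ≤ π z.1 z.2) :
    ∃ X L7 L8 S4 : ℝ, (w.w3 ≠ 0 → 0 < G0 + G1 + (X + (M1.map fun z => π z.1 z.2).sum)) ∧
      (w.w7 ≠ 0 → LB3 s g2 g3 L7) ∧ (w.w8 ≠ 0 → LB3 t g1 g3 L8) ∧
      (w.wA ≠ 0 → 0 < S4 ∧ (S4 ≤ 4 * (h + t + s + g1 + g2 + g3) - 6 + 2 * (h * g3 + t * g2 + s * g1)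
        ∨ S4 ≤ 2 * (h + t + g1) ∨ S4 ≤ 2 * (h + s + g2) ∨ S4 ≤ 2 * (t + s + g3)
        ∨ S4 ≤ (1 + h) * (1 + g3) ∨ S4 ≤ (1 + t) * (1 + g2) ∨ S4 ≤ (1 + s) * (1 + g1))) ∧
      w.w3 * X + w.w7 * (L7 - 2 * Real.log (2 * (h + t + g1))) + w.w8 * (L8 - 2 * Real.log (2 * (h + s + g2)))
        - w.wA * (2 * Real.log S4) + cutf (vec7 h t s g1 g2 g3 r)
      ≤ P.S w (Ip lo hi fun e => Vk (e 0) (e 1) (e 3)) (Ip lo hi fun e => Vl (e 0) (e 2) (e 4)) cutf
        (vec7 h t s g1 g2 g3 r) := by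
  have bx1 := hv 1
  have bx2 := hv 2
  have bx3 := hv 3
  have bx4 := hv 4
  have bx5 := hv 5
  obtain ⟨v, hvd⟩ : ∃ v, v = vec7 h t s g1 g2 g3 r := ⟨_, rfl⟩
  rw [← hvd] at hv hpk hpl hpA bx1 bx2 bx3 bx4 bx5 ⊢
  have v0 : v 0 = h := by rw [hvd]; rfl
  have v1 : v 1 = t := by rw [hvd]; rfl
  have v2 : v 2 = s := by rw [hvd]; rfl
  have v3 : v 3 = g1 := by rw [hvd]; rfl
  have v4 : v 4 = g2 := by rw [hvd]; rfl
  have v5 : v 5 = g3 := by rw [hvd]; rfl
  rw [v1] at bx1
  rw [v2] at bx2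
  rw [v3] at bx3
  rw [v4] at bx4
  rw [v5] at bx5
  have hth := c.th
  have hst := c.st
  have hs0 := c.s0
  have hh1 := c.h1
  have hg1 := c.g1m.1
  have hg2 := c.g2m.1
  have hg3 := c.g3m.1
  obtain ⟨Uk, hUkd⟩ : ∃ Uk, Uk = Ip lo hi (fun e => Vk (e 0) (e 1) (e 3)) := ⟨_, rfl⟩
  obtain ⟨Ul, hUld⟩ : ∃ Ul, Ul = Ip lo hi (fun e => Vl (e 0) (e 2) (e 4)) := ⟨_, rfl⟩
  rw [← hUkd] at hpk ⊢
  rw [← hUld] at hpl ⊢
  refine ⟨P.k.X (Uk v) t g1 + P.l.X (Ul v) s g2 - P.ψ - P.αk * Real.log (Uk v) - P.αl * Real.log (Ul v)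
      - 2 * Real.log (1 + h), L3 (cA P.L7) (cB P.L7) s g2 g3, L3 (cA P.L8) (cB P.L8) t g1 g3, S4f P.md v,
    ?_, ?_, ?_, ?_, ?_⟩
  · intro hne
    have u1 := hUk hne v hv
    have u2 := hUl hne v hv
    rw [← hUkd, v0, v1, v3] at u1
    rw [← hUld, v0, v2, v4] at u2
    have hP : 0 < 2 * (1 + h) := by linarith
    have up : ∀ {U B : ℝ}, 2 * (1 + h) * U ≤ B → 2 * (1 + h) * max U 0 ≤ max 0 B := by
      intro U B hUB
      rcases max_cases U 0 with ⟨e, -⟩ | ⟨e, -⟩
      · rw [e]; exact hUB.trans (le_max_right _ _)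
      · rw [e, mul_zero]; exact le_max_left _ _
    have n3 := c.n3 (Real.sqrt (1 - h)) (max (Uk v) 0) (max (Ul v) 0) (min (max (Uk v) 0) (max t g1))
      (min (max (Ul v) 0) (max s g2)) π (Real.sq_sqrt (by linarith)) (le_max_right _ _) (le_max_right _ _)
      (up u1) (le_min (le_max_right _ _) (le_max_of_le_left (by linarith))) (min_le_left _ _) (min_le_right _ _)
      (up u2) (le_min (le_max_right _ _) (le_max_of_le_left (by linarith))) (min_le_left _ _) (min_le_right _ _)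
      (hπ hne)
    have q1 : P.ψ + P.αk * Real.log (Uk v) + P.αl * Real.log (Ul v) ≤ FM (1 ::ₘ max (Uk v) 0 ::ₘ max (Ul v) 0 ::ₘ 0) := by
      have := hψ hne (max (Uk v) 0) (max (Ul v) 0) (le_max_right _ _) (le_max_right _ _)
        (fun hα => lt_max_of_lt_left (hpk hne hα)) (fun hα => lt_max_of_lt_left (hpl hne hα))
      refine le_trans (le_of_eq ?_) this
      have a1 : P.αk * Real.log (Uk v) = P.αk * Real.log (max (Uk v) 0) := by
        by_cases hα : P.αk = 0
        · rw [hα, zero_mul, zero_mul]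
        · rw [max_eq_left (hpk hne hα).le]
      have a2 : P.αl * Real.log (Ul v) = P.αl * Real.log (max (Ul v) 0) := by
        by_cases hα : P.αl = 0
        · rw [hα, zero_mul, zero_mul]
        · rw [max_eq_left (hpl hne hα).le]
      rw [a1, a2]
    have lk : P.k.L ≤ 3 ∨ (P.k.L : ℝ) / 10 ≤ max t g1 := by
      rcases hlk with hq | hq | hq
      · exact Or.inl hq
      · exact Or.inr (le_max_of_le_left (hq.trans bx1.1))
      · exact Or.inr (le_max_of_le_right (hq.trans bx3.1))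
    have ll : P.l.L ≤ 3 ∨ (P.l.L : ℝ) / 10 ≤ max s g2 := by
      rcases hll with hq | hq | hq
      · exact Or.inl hq
      · exact Or.inr (le_max_of_le_left (hq.trans bx2.1))
      · exact Or.inr (le_max_of_le_right (hq.trans bx4.1))
    have q2 : (if 0 < Df G2 (t ::ₘ g1 ::ₘ g3 ::ₘ sn M2) then lm2 True t g1 else lm2 False t g1)
        - omg (min (max (Uk v) 0) (max t g1)) ≤ P.k.X (Uk v) t g1 := by
      split_ifs with hd
      · exact P.k.bound True hL hum (by linarith) hg1 lk (fun _ => trivial)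
      · exact P.k.bound False hL hum (by linarith) hg1 lk (fun hb => hd (hbk hb))
    have q3 : (if 0 < Df G3 (s ::ₘ g2 ::ₘ g3 ::ₘ sn M3) then lm2 True s g2 else lm2 False s g2)
        - omg (min (max (Ul v) 0) (max s g2)) ≤ P.l.X (Ul v) s g2 := by
      split_ifs with hd
      · exact P.l.bound True hL' hum' (by linarith) hg2 ll (fun _ => trivial)
      · exact P.l.bound False hL' hum' (by linarith) hg2 ll (fun hb => hd (hbl hb))
    linarith
  · intro _
    refine LB3_of hL7 (by linarith) hg2 hg3 ?_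
    rcases hl7 with hq | hq | hq | hq
    · exact Or.inl hq
    · exact Or.inr (le_max_of_le_left (hq.trans bx2.1))
    · exact Or.inr (le_max_of_le_right (le_max_of_le_left (hq.trans bx4.1)))
    · exact Or.inr (le_max_of_le_right (le_max_of_le_right (hq.trans bx5.1)))
  · intro _
    refine LB3_of hL8 (by linarith) hg1 hg3 ?_
    rcases hl8 with hq | hq | hq | hq
    · exact Or.inl hq
    · exact Or.inr (le_max_of_le_left (hq.trans bx1.1))
    · exact Or.inr (le_max_of_le_right (le_max_of_le_left (hq.trans bx3.1)))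
    · exact Or.inr (le_max_of_le_right (le_max_of_le_right (hq.trans bx5.1)))
  · intro hne
    refine ⟨hpA hne, ?_⟩
    unfold S4f
    rw [v0, v1, v2, v3, v4, v5]
    split_ifs
    · exact Or.inl le_rfl
    · exact Or.inr (Or.inl le_rfl)
    · exact Or.inr (Or.inr (Or.inl le_rfl))
    · exact Or.inr (Or.inr (Or.inr (Or.inl le_rfl)))
    · exact Or.inr (Or.inr (Or.inr (Or.inr (Or.inl le_rfl))))
    · exact Or.inr (Or.inr (Or.inr (Or.inr (Or.inr (Or.inl le_rfl)))))
    · exact Or.inr (Or.inr (Or.inr (Or.inr (Or.inr (Or.inr le_rfl)))))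
  · unfold SP.S
    rw [v0, v1, v2, v3, v4, v5]

end C1
end Pool.Agent.Lib.MP_6947cd_al
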