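import Pool.Agent.Lib.MP_6947cd_al.C.Spec
import Pool.Agent.Lib.MP_6947cd_al.Z.UCell

/-!
Problem MP_6947cd_al (Chollet).  CASE C: the check of the merged entries (`UOk`), borders in units of `1 / 400`.
-/

set_option autoImplicit false
open Finset

namespace Pool.Agent.Lib.MP_6947cd_al
namespace C1

open Fr CC

/-- THE MERGED ENTRY: check with eight integers (unit `10^-6`) -/
theorem UOk_of_chk {H0 H1 T0 T1 G0 G1 ra rb : ℕ} {V : N3C.V8}
    (hc : UC.chkU 400 2500 H0 H1 T0 T1 G0 G1 ra rb V = true) {lo hi : Fin 7 → ℝ} (hlh : ∀ i, lo i < hi i)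
    {j k : Fin 7} (hj : (0 : Fin 7) ≠ j) (hk : (0 : Fin 7) ≠ k)
    (a0 : lo 0 = (H0 : ℝ) / 400) (a1 : hi 0 = (H1 : ℝ) / 400) (b0 : lo j = (T0 : ℝ) / 400)
    (b1 : hi j = (T1 : ℝ) / 400) (c0 : lo k = (G0 : ℝ) / 400) (c1 : hi k = (G1 : ℝ) / 400) :
    UOk lo hi j k (UC.fn V) := fun _ hv =>
  UC.chkU_sound hc hlh hj hk (by exact_mod_cast a0) (by exact_mod_cast a1) (by exact_mod_cast b0)
    (by exact_mod_cast b1) (by exact_mod_cast c0) (by exact_mod_cast c1) hv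

/-- example: `h ∈ [.85, .9]`, `t ∈ [.5, .55]`, `g ∈ [.6, .7]` -/
example : UC.chkU 400 2500 340 360 200 220 240 280 3162 3873
    ⟨500000, 500000, 500000, 500000, 500000, 500000, 500000, 500000⟩ = true := by decide +kernel

end C1
end Pool.Agent.Lib.MP_6947cd_al
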