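import Pool.Agent.Lib.MP_6947cd_al.C.RowI2
import Pool.Agent.Lib.MP_6947cd_al.C.UOk
import Pool.Agent.Lib.MP_6947cd_al.Z.TriA

/-!
Problem MP_6947cd_al (Chollet).  CASE C: the function of the special entries at the corners, and the check of the
sixty-four corners.
-/

set_option autoImplicit false
open Finset

namespace Pool.Agent.Lib.MP_6947cd_al
namespace C1

open Ent Ent.Pk Fr Fr.WT CC B1 PkA

/-! ### the multi-affine terms -/

/-- order multipliers and lines -/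
noncomputable def cutR (o1 o2 : ℕ) (l1 l2 l3 l4 : List Ln) (v : Fin 7 → ℝ) : ℝ :=
  ((400 * o1 * (v 0 - v 1) + 400 * o2 * (v 1 - v 2)) + lsV l1 (v 0) (v 1) (v 3) + lsV l2 (v 0) (v 2) (v 4)
    + lsV l3 (v 1) (v 2) (v 5) + lsV l4 (v 3) (v 4) (v 5)) / 8000000000000000

lemma ma_cutR (o1 o2 : ℕ) (l1 l2 l3 l4 : List Ln) : Ma (cutR o1 o2 l1 l2 l3 l4) := by
  have c0 := Ma.coord (0 : Fin 7)
  have c1 := Ma.coord (1 : Fin 7)
  have c2 := Ma.coord (2 : Fin 7)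
  have h := ((((((c0.smul (400 * o1)).add (c1.smul (400 * (o2 : ℝ) - 400 * o1))).add (c2.smul (-(400 * (o2 : ℝ))))).add
    (ma_lsV l1 0 1 3)).add (ma_lsV l2 0 2 4)).add ((ma_lsV l3 1 2 5).add (ma_lsV l4 3 4 5))).smul
    (1 / 8000000000000000)
  refine fun v m => ?_
  obtain ⟨a, b, h1⟩ := h v m
  refine ⟨a, b, fun u => ?_⟩
  rw [← h1 u]
  unfold cutR
  ring

lemma tri3_of {a b c : ℝ} (h : Tri a b c) : Tri3 a b c := ⟨h, Tri.comm23 h, Tri.comm23 (Tri.comm12 h)⟩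

lemma cutR_nonneg (o1 o2 : ℕ) (l1 l2 l3 l4 : List Ln) {h t s g1 g2 g3 r : ℝ} (hth : t ≤ h) (hst : s ≤ t)
    (hs0 : 0 ≤ s) (hh1 : h ≤ 1) (g10 : 0 ≤ g1) (g11 : g1 ≤ 1) (g20 : 0 ≤ g2) (g21 : g2 ≤ 1) (g30 : 0 ≤ g3)
    (g31 : g3 ≤ 1) (t1 : Tri h t g1) (t2 : Tri h s g2) (t3 : Tri t s g3) (t4 : Tri g1 g2 g3) :
    0 ≤ cutR o1 o2 l1 l2 l3 l4 (vec7 h t s g1 g2 g3 r) := by
  have v0 : vec7 h t s g1 g2 g3 r 0 = h := rfl
  have v1 : vec7 h t s g1 g2 g3 r 1 = t := rfl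
  have v2 : vec7 h t s g1 g2 g3 r 2 = s := rfl
  have v3 : vec7 h t s g1 g2 g3 r 3 = g1 := rfl
  have v4 : vec7 h t s g1 g2 g3 r 4 = g2 := rfl
  have v5 : vec7 h t s g1 g2 g3 r 5 = g3 := rfl
  unfold cutR
  rw [v0, v1, v2, v3, v4, v5]
  have p1 := lsV_nonneg l1 (tri3_of t1) (by linarith) hh1 (by linarith) (by linarith) g10 g11
  have p2 := lsV_nonneg l2 (tri3_of t2) (by linarith) hh1 (by linarith) (by linarith) g20 g21
  have p3 := lsV_nonneg l3 (tri3_of t3) (by linarith) (by linarith) (by linarith) (by linarith) g30 g31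
  have p4 := lsV_nonneg l4 (tri3_of t4) g10 g11 g20 g21 g30 g31
  have q1 : 0 ≤ 400 * (o1 : ℝ) * (h - t) := mul_nonneg (by positivity) (by linarith)
  have q2 : 0 ≤ 400 * (o2 : ℝ) * (t - s) := mul_nonneg (by positivity) (by linarith)
  exact div_nonneg (by linarith) (by norm_num)

/-- the weights as real numbers -/
noncomputable def wtR (w3 w7 w8 wA lam c1 c2 c3 : ℕ) : Wt :=
  ⟨w3 / 1000, w7 / 1000, w8 / 1000, wA / 1000, lam / 1000, c1 / 1000, c2 / 1000, c3 / 1000⟩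

lemma wtR_ok {w3 w7 w8 wA lam c1 c2 c3 : ℕ} (h : w3 + w7 + w8 + wA = 1000) :
    (wtR w3 w7 w8 wA lam c1 c2 c3).Ok := by
  have h' : (w3 : ℝ) + w7 + w8 + wA = 1000 := by exact_mod_cast h
  unfold wtR
  refine ⟨by positivity, by positivity, by positivity, by positivity, ?_, by positivity, by positivity,
    by positivity, by positivity⟩
  show (w3 : ℝ) / 1000 + w7 / 1000 + w8 / 1000 + wA / 1000 = 1
  linarith

/-- the function of the special entries, split -/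
lemma S_split (P : SP) (w3 w7 w8 wA lam c1 c2 c3 o1 o2 : ℕ) (l1 l2 l3 l4 : List Ln) (Uk Ul : (Fin 7 → ℝ) → ℝ)
    (v : Fin 7 → ℝ) : 1000 * P.S (wtR w3 w7 w8 wA lam c1 c2 c3) Uk Ul (cutR o1 o2 l1 l2 l3 l4) v
    = G0R w3 o1 o2 (v 0) (v 1) (v 2) + pcR w3 w7 P.αk P.k l1 (Uk v) (v 0) (v 1) (v 3)
      + pcR w3 w8 P.αl P.l l2 (Ul v) (v 0) (v 2) (v 4)
      + lsV l3 (v 1) (v 2) (v 5) / 8000000000000 + lsV l4 (v 3) (v 4) (v 5) / 8000000000000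
      + w7 * L3 (cA P.L7) (cB P.L7) (v 2) (v 4) (v 5) + w8 * L3 (cA P.L8) (cB P.L8) (v 1) (v 3) (v 5)
      - wA * (2 * Real.log (S4f P.md v)) - w3 * P.ψ := by
  unfold SP.S wtR cutR G0R pcR
  ring

/-! ### the tables -/

/-- lines only -/
noncomputable def lnF (ls : List Ln) (a b c : ℕ) : ℕ := Nat.sub (Nat.add (lsP ls a b c) offs) (lsQ ls a b c)

lemma lnF_le (ls : List Ln) (a b c : ℕ) : lsV ls ((a : ℝ) / 400) ((b : ℝ) / 400) ((c : ℝ) / 400) / 8000000000000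
    ≤ ((lnF ls a b c : ℕ) - (offs : ℕ)) / 8000000000000 := by
  rw [lsV_nat]
  refine div_le_div_of_nonneg_right ?_ (by norm_num)
  obtain ⟨p, hp⟩ : ∃ p, p = lsP ls a b c := ⟨_, rfl⟩
  obtain ⟨q, hq⟩ : ∃ q, q = lsQ ls a b c := ⟨_, rfl⟩
  have e : lnF ls a b c = p + offs - q := by rw [hp, hq]; rfl
  rw [e, ← hp, ← hq]
  have h5 : ((p + offs : ℕ) : ℝ) ≤ ((p + offs - q : ℕ) : ℝ) + q := by exact_mod_cast le_tsub_add
  push_cast at h5
  linarith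

/-- the row value of a row with a loss of three entries -/
noncomputable def rwF (w a b : ℕ) (R : List ℕ) (i A B C : ℕ) : ℕ :=
  Nat.add (Nat.mul (nat_lit 200000) (gt R i)) (Nat.mul (nat_lit 25000) (Nat.mul w (L32 a b A B C)))

/-- the permanent of order four, unit `1 / 160000` -/
def Qn (H T S A B C : ℕ) : ℕ :=
  Nat.sub (Nat.add (Nat.mul (nat_lit 1600) (Nat.add (Nat.add (Nat.add H T) S) (Nat.add (Nat.add A B) C)))
    (Nat.mul (nat_lit 2) (Nat.add (Nat.add (Nat.mul H C) (Nat.mul T B)) (Nat.mul S A)))) (nat_lit 960000)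

/-- the last comparison -/
noncomputable def cmp (wA rhs lhs Q : ℕ) : Bool :=
  cond (Nat.beq wA (nat_lit 0)) (Nat.ble lhs rhs)
    (frc Q fun q => cond (Nat.ble (nat_lit 20) q)
      (Nat.ble lhs (Nat.add rhs (Nat.mul (Nat.mul (nat_lit 16) wA) (lgOff q (nat_lit 160000))))) false)

lemma cmp_sound {wA rhs lhs Q : ℕ} (h : cmp wA rhs lhs Q = true) : (wA ≠ 0 → 20 ≤ Q) ∧
    (lhs : ℝ) ≤ rhs + 16 * wA * (10 ^ 12 * Real.log ((Q : ℝ) / 160000) + 10 ^ 13) := by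
  unfold cmp at h
  cases hw : Nat.beq wA 0 with
  | true =>
    rw [show Nat.beq wA (nat_lit 0) = true from hw, cond_true] at h
    have h0 : wA = 0 := Nat.eq_of_beq_eq_true hw
    subst h0
    refine ⟨fun h => absurd rfl h, ?_⟩
    have : (lhs : ℝ) ≤ rhs := by exact_mod_cast Nat.le_of_ble_eq_true h
    simpa using this
  | false =>
    rw [show Nat.beq wA (nat_lit 0) = false from hw, cond_false, frc_eq] at h
    obtain ⟨h1, h2⟩ := cond_eq_true h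
    have h1 : 20 ≤ Q := Nat.le_of_ble_eq_true h1
    have h2 := Nat.le_of_ble_eq_true h2
    refine ⟨fun _ => h1, ?_⟩
    have h3 := lgOff_le Q 160000 (by omega) (by norm_num) (by omega)
    obtain ⟨L, hL⟩ : ∃ L, L = lgOff Q 160000 := ⟨_, rfl⟩
    have h2' : lhs ≤ rhs + 16 * wA * L := by rw [hL]; exact h2
    rw [← hL] at h3
    have h4 : (lhs : ℝ) ≤ rhs + 16 * wA * L := by exact_mod_cast h2'
    refine h4.trans (add_le_add le_rfl (mul_le_mul_of_nonneg_left ?_ (by positivity)))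
    push_cast at h3
    exact h3

/-- the sixty-four corners -/
noncomputable def all6 (wA rhs : ℕ) (x : Bx) (Li a1 a2 a3 a4 b1 b2 b3 : List ℕ) : Bool :=
  allB fun e0 => allB fun e1 => allB fun e2 => frc (gt Li (ix e0 e1 e2)) fun s0 =>
  allB fun e3 => frc (Nat.add s0 (gt a1 (ix e0 e1 e3))) fun s1 =>
  allB fun e4 => frc (Nat.add (Nat.add s1 (gt a2 (ix e0 e2 e4))) (gt b1 (ix e0 e3 e4))) fun s2 =>
  allB fun e5 => cmp wA rhs
    (Nat.add (Nat.add s2 (Nat.add (gt a3 (ix e1 e2 e5)) (gt a4 (ix e3 e4 e5))))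
      (Nat.add (gt b2 (ix e1 e3 e5)) (gt b3 (ix e2 e4 e5))))
    (Qn (cv x.H0 x.H1 e0) (cv x.T0 x.T1 e1) (cv x.S0 x.S1 e2) (cv x.A0 x.A1 e3) (cv x.B0 x.B1 e4)
      (cv x.C0 x.C1 e5))

lemma all6_sound {wA rhs : ℕ} {x : Bx} {Li a1 a2 a3 a4 b1 b2 b3 : List ℕ}
    (h : all6 wA rhs x Li a1 a2 a3 a4 b1 b2 b3 = true) (e0 e1 e2 e3 e4 e5 : Bool) :
    (wA ≠ 0 → 20 ≤ Qn (cv x.H0 x.H1 e0) (cv x.T0 x.T1 e1) (cv x.S0 x.S1 e2) (cv x.A0 x.A1 e3) (cv x.B0 x.B1 e4)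
      (cv x.C0 x.C1 e5)) ∧
    ((Li.getD (ix e0 e1 e2) 0 : ℕ) : ℝ) + (a1.getD (ix e0 e1 e3) 0 : ℕ) + (a2.getD (ix e0 e2 e4) 0 : ℕ)
      + (b1.getD (ix e0 e3 e4) 0 : ℕ) + ((a3.getD (ix e1 e2 e5) 0 : ℕ) + (a4.getD (ix e3 e4 e5) 0 : ℕ))
      + ((b2.getD (ix e1 e3 e5) 0 : ℕ) + (b3.getD (ix e2 e4 e5) 0 : ℕ))
      ≤ rhs + 16 * wA * (10 ^ 12 * Real.log (((Qn (cv x.H0 x.H1 e0) (cv x.T0 x.T1 e1) (cv x.S0 x.S1 e2)
        (cv x.A0 x.A1 e3) (cv x.B0 x.B1 e4) (cv x.C0 x.C1 e5) : ℕ) : ℝ) / 160000) + 10 ^ 13) := by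
  have h1 := allB_sound (allB_sound (allB_sound h e0) e1) e2
  rw [frc_eq] at h1
  have h2 := allB_sound h1 e3
  rw [frc_eq] at h2
  have h3 := allB_sound h2 e4
  rw [frc_eq] at h3
  obtain ⟨g1, g2⟩ := cmp_sound (allB_sound h3 e5)
  refine ⟨g1, le_trans (le_of_eq ?_) g2⟩
  simp only [gt_eq, Nat.add_eq]
  push_cast
  ring

/-- the permanent at a corner -/
lemma Qn_eq {H T S A B C : ℕ} (h : 20 ≤ Qn H T S A B C) {v : Fin 7 → ℝ} (v0 : v 0 = (H : ℝ) / 400)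
    (v1 : v 1 = (T : ℝ) / 400) (v2 : v 2 = (S : ℝ) / 400) (v3 : v 3 = (A : ℝ) / 400) (v4 : v 4 = (B : ℝ) / 400)
    (v5 : v 5 = (C : ℝ) / 400) : S4f 0 v = ((Qn H T S A B C : ℕ) : ℝ) / 160000 := by
  have e : Qn H T S A B C = 1600 * (H + T + S + (A + B + C)) + 2 * (H * C + T * B + S * A) - 960000 := rfl
  rw [e] at h ⊢
  have hle : 960000 ≤ 1600 * (H + T + S + (A + B + C)) + 2 * (H * C + T * B + S * A) := by omega
  unfold S4f
  rw [if_pos rfl, v0, v1, v2, v3, v4, v5]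
  push_cast [Nat.cast_sub hle]
  ring

end C1
end Pool.Agent.Lib.MP_6947cd_al
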