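import Pool.Agent.Lib.MP_6947cd_al.C.Tb
import Pool.Agent.Lib.MP_6947cd_al.C.RowUse
import Pool.Agent.Lib.MP_6947cd_al.L.Far2

/-!
Problem MP_6947cd_al (Chollet).  HEAVY ROWS: a row with three special entries in a box and with a large sum of the
rests (all at most `κ`) is rich.  The rests are concentrated: copies of `κ` and one entry in `[0, κ)`; the nodes are
`n κ`, and one chord for the piece which contains the first sum; beyond the last node the totals are far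
(`Far2.SpecFarD`).
-/

set_option autoImplicit false
open Finset

namespace Pool.Agent.Lib.MP_6947cd_al
namespace SStar

open Ent Ent.Pk Fr Fr.WT CC PkA B1 B2

/-! ### the real part -/

/-- the box of the special entries -/
structure Bx (a0 a1 y0 y1 z0 z1 : ℝ) : Prop where
  la : 0 ≤ a0
  ma : a0 ≤ a1
  ua : a1 ≤ 1
  ly : 0 ≤ y0
  my : y0 ≤ y1
  uy : y1 ≤ 1
  lz : 0 ≤ z0
  mz : z0 ≤ z1
  uz : z1 ≤ 1

/-- a heavy row is rich, with margin `d` -/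
def StarR (κ S d : ℝ) (pay : Bool) (a0 a1 y0 y1 z0 z1 : ℝ) : Prop :=
  ∀ (a y z : ℝ) (M : Multiset ℝ), a0 ≤ a → a ≤ a1 → y0 ≤ y → y ≤ y1 → z0 ≤ z → z ≤ z1 →
    (∀ e ∈ M, 0 ≤ e ∧ e ≤ κ) → S ≤ M.sum →
    FM (1 ::ₘ a ::ₘ y ::ₘ z ::ₘ M) + d ≤ What (a + y + z + M.sum) ∧
    (pay = true → (1 : ℝ) / 2 + d ≤ What (a + y + z + M.sum))

/-- minus the margin at a node: `n` copies of `κ` and `x` -/
noncomputable def D4 (κ : ℝ) (n : ℕ) (a y z x : ℝ) : ℝ :=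
  FM (1 ::ₘ a ::ₘ y ::ₘ z ::ₘ x ::ₘ Multiset.replicate n κ) - WD.Wd (a + y + z + x + n * κ)

lemma cc_D4 {κ : ℝ} (hκ0 : 0 ≤ κ) (hκ1 : κ ≤ 1) (n : ℕ) {lo hi : Fin 4 → ℝ} (h0 : ∀ i, 0 ≤ lo i)
    (h1 : ∀ i, hi i ≤ 1) : Cc lo hi fun v => D4 κ n (v 0) (v 1) (v 2) (v 3) := by
  have hN : ∀ e ∈ Multiset.replicate n κ, 0 ≤ e ∧ e ≤ 1 := by
    intro e he
    rw [Multiset.eq_of_mem_replicate he]
    exact ⟨hκ0, hκ1⟩
  have hF := C1.cc4g (ι := Fin 4) h0 h1 (a := 0) (b := 1) (c := 2) (d := 3) (by decide) (Multiset.replicate n κ) hN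
  have hM : Ma fun v : Fin 4 → ℝ => v 0 + v 1 + v 2 + v 3 + n * κ :=
    ((((Ma.coord 0).add (Ma.coord 1)).add (Ma.coord 2)).add (Ma.coord 3)).add (Ma.const (n * κ))
  refine (hF.add (cc_negWd hM)).congr fun v _ => ?_
  unfold D4
  ring

/-- the corners bound the function -/
lemma D4_box {κ : ℝ} (hκ0 : 0 ≤ κ) (hκ1 : κ ≤ 1) {a0 a1 y0 y1 z0 z1 x0 x1 : ℝ} (hB : Bx a0 a1 y0 y1 z0 z1)
    (hx0 : 0 ≤ x0) (hx1 : x1 ≤ 1) {C : ℝ} {n : ℕ}
    (h0 : ∀ ba bb bc : Bool, D4 κ n (ed a0 a1 ba) (ed y0 y1 bb) (ed z0 z1 bc) x0 ≤ C)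
    (h1 : ∀ ba bb bc : Bool, D4 κ n (ed a0 a1 ba) (ed y0 y1 bb) (ed z0 z1 bc) x1 ≤ C)
    {a y z x : ℝ} (ha0 : a0 ≤ a) (ha1 : a ≤ a1) (hy0 : y0 ≤ y) (hy1 : y ≤ y1) (hz0 : z0 ≤ z) (hz1 : z ≤ z1)
    (hx : x0 ≤ x) (hx' : x ≤ x1) : D4 κ n a y z x ≤ C := by
  have hl : ∀ i : Fin 4, 0 ≤ (![a0, y0, z0, x0] : Fin 4 → ℝ) i := by
    intro i
    fin_cases i
    · exact hB.la
    · exact hB.ly
    · exact hB.lz
    · exact hx0
  have hu : ∀ i : Fin 4, (![a1, y1, z1, x1] : Fin 4 → ℝ) i ≤ 1 := by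
    intro i
    fin_cases i
    · exact hB.ua
    · exact hB.uy
    · exact hB.uz
    · exact hx1
  have hcc := cc_D4 hκ0 hκ1 n hl hu
  have := hcc.le_of_corners (C := C) (v := ![a, y, z, x]) (fun c => ?_) (fun i => ?_)
  · exact this
  · have e : ∀ i : Fin 4, corner ![a0, y0, z0, x0] ![a1, y1, z1, x1] c i
        = ed ((![a0, y0, z0, x0] : Fin 4 → ℝ) i) ((![a1, y1, z1, x1] : Fin 4 → ℝ) i) (c i) := fun i => rfl
    simp only [e]
    show D4 κ n (ed a0 a1 (c 0)) (ed y0 y1 (c 1)) (ed z0 z1 (c 2)) (ed x0 x1 (c 3)) ≤ C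
    cases c 3
    · exact h0 _ _ _
    · exact h1 _ _ _
  · fin_cases i
    · exact ⟨ha0, ha1⟩
    · exact ⟨hy0, hy1⟩
    · exact ⟨hz0, hz1⟩
    · exact ⟨hx, hx'⟩

/-- the chord -/
lemma D4_chord {κ : ℝ} (hκ0 : 0 ≤ κ) (hκ1 : κ ≤ 1) {a y z xA xB x : ℝ} (ha : 0 ≤ a ∧ a ≤ 1) (hy : 0 ≤ y ∧ y ≤ 1)
    (hz : 0 ≤ z ∧ z ≤ 1) (hA : 0 ≤ xA) (hB : xB ≤ 1) (h0 : xA ≤ x) (h1 : x ≤ xB) (n : ℕ) :
    (xB - xA) * D4 κ n a y z x ≤ (xB - x) * D4 κ n a y z xA + (x - xA) * D4 κ n a y z xB := by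
  rcases eq_or_lt_of_le (h0.trans h1) with hAB | hAB
  · have e1 : x = xA := le_antisymm (h1.trans hAB.symm.le) h0
    have e2 : xB = xA := hAB.symm
    rw [e1, e2]
    linarith
  have hl : ∀ i : Fin 4, 0 ≤ (![a, y, z, xA] : Fin 4 → ℝ) i := by
    intro i
    fin_cases i
    · exact ha.1
    · exact hy.1
    · exact hz.1
    · exact hA
  have hu : ∀ i : Fin 4, (![a, y, z, xB] : Fin 4 → ℝ) i ≤ 1 := by
    intro i
    fin_cases i
    · exact ha.2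
    · exact hy.2
    · exact hz.2
    · exact hB
  have hcc := cc_D4 hκ0 hκ1 n hl hu
  have hbox : Box ![a, y, z, xA] ![a, y, z, xB] ![a, y, z, xA] := by
    intro i
    fin_cases i
    · exact ⟨le_rfl, le_rfl⟩
    · exact ⟨le_rfl, le_rfl⟩
    · exact ⟨le_rfl, le_rfl⟩
    · exact ⟨le_rfl, hAB.le⟩
  have h3 := hcc _ hbox 3
  have e : (fun u => D4 κ n (Function.update ![a, y, z, xA] 3 u 0) (Function.update ![a, y, z, xA] 3 u 1)
      (Function.update ![a, y, z, xA] 3 u 2) (Function.update ![a, y, z, xA] 3 u 3)) = fun u => D4 κ n a y z u := by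
    funext u
    rfl
  rw [e] at h3
  have hlt : 0 < xB - xA := by linarith
  have h4 := h3.2 (show xA ∈ Set.Icc xA xB from ⟨le_rfl, hAB.le⟩) (show xB ∈ Set.Icc xA xB from ⟨hAB.le, le_rfl⟩)
    (div_nonneg (show 0 ≤ xB - x by linarith) hlt.le) (div_nonneg (show 0 ≤ x - xA by linarith) hlt.le)
    (by rw [← add_div, div_eq_one_iff_eq hlt.ne']; ring)
  simp only [smul_eq_mul] at h4
  have e2 : (xB - x) / (xB - xA) * xA + (x - xA) / (xB - xA) * xB = x := by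
    field_simp
    ring
  rw [e2] at h4
  have h5 := mul_le_mul_of_nonneg_left h4 hlt.le
  refine h5.trans (le_of_eq ?_)
  field_simp

/-- a full entry -/
lemma D4_full (κ : ℝ) (n : ℕ) (a y z : ℝ) : D4 κ n a y z κ = D4 κ (n + 1) a y z 0 := by
  unfold D4
  have e1 : (1 : ℝ) ::ₘ a ::ₘ y ::ₘ z ::ₘ κ ::ₘ Multiset.replicate n κ
      = 1 ::ₘ a ::ₘ y ::ₘ z ::ₘ Multiset.replicate (n + 1) κ := by
    rw [Multiset.replicate_succ]
  have e2 : (1 : ℝ) ::ₘ a ::ₘ y ::ₘ z ::ₘ (0 : ℝ) ::ₘ Multiset.replicate (n + 1) κ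
      = Multiset.replicate 1 0 + (1 ::ₘ a ::ₘ y ::ₘ z ::ₘ Multiset.replicate (n + 1) κ) := by
    rw [Multiset.replicate_one]
    simp only [← Multiset.singleton_add]
    abel
  rw [e1, e2, FM_zero_add]
  push_cast
  congr 2
  ring

/-- THE WINDOW: rests with a sum in `[x0 + n0 κ, Q κ]`. -/
theorem window {κ : ℝ} (hκ0 : 0 < κ) (hκ1 : κ ≤ 1) {a0 a1 y0 y1 z0 z1 x0 d : ℝ} (hB : Bx a0 a1 y0 y1 z0 z1)
    (hx0 : 0 ≤ x0) {n0 Q : ℕ} (hQ : n0 < Q)
    (hS : ∀ ba bb bc : Bool, D4 κ n0 (ed a0 a1 ba) (ed y0 y1 bb) (ed z0 z1 bc) x0 ≤ -d)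
    (hN : ∀ n, n0 < n → n ≤ Q → ∀ ba bb bc : Bool, D4 κ n (ed a0 a1 ba) (ed y0 y1 bb) (ed z0 z1 bc) 0 ≤ -d)
    {a y z : ℝ} {M : Multiset ℝ} (ha0 : a0 ≤ a) (ha1 : a ≤ a1) (hy0 : y0 ≤ y) (hy1 : y ≤ y1) (hz0 : z0 ≤ z)
    (hz1 : z ≤ z1) (hM : ∀ e ∈ M, 0 ≤ e ∧ e ≤ κ) (h1 : x0 + n0 * κ ≤ M.sum) (h2 : M.sum ≤ Q * κ) :
    FM (1 ::ₘ a ::ₘ y ::ₘ z ::ₘ M) + d ≤ WD.Wd (a + y + z + M.sum) := by
  have ha : 0 ≤ a ∧ a ≤ 1 := ⟨hB.la.trans ha0, ha1.trans hB.ua⟩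
  have hy : 0 ≤ y ∧ y ≤ 1 := ⟨hB.ly.trans hy0, hy1.trans hB.uy⟩
  have hz : 0 ≤ z ∧ z ≤ 1 := ⟨hB.lz.trans hz0, hz1.trans hB.uz⟩
  obtain ⟨m, n, r, p1, p2, -, p4, p5⟩ := piece 0 κ le_rfl hκ0 hκ1 M (1 ::ₘ a ::ₘ y ::ₘ z ::ₘ 0) (by simp) (by
    intro e he
    simp only [Multiset.mem_cons, Multiset.notMem_zero, or_false] at he
    rcases he with rfl | rfl | rfl | rfl
    · exact ⟨zero_le_one, le_rfl⟩
    · exact ha
    · exact hy
    · exact hz) hM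
  rw [mul_zero, zero_add] at p4
  -- the rest
  obtain ⟨x, hx0', hxκ, hsum, hFM⟩ : ∃ x : ℝ, 0 ≤ x ∧ x < κ ∧ n * κ + x = M.sum ∧
      FM (1 ::ₘ a ::ₘ y ::ₘ z ::ₘ M) ≤ FM (1 ::ₘ a ::ₘ y ::ₘ z ::ₘ x ::ₘ Multiset.replicate n κ) := by
    have e0 : ∀ N : Multiset ℝ, (1 ::ₘ a ::ₘ y ::ₘ z ::ₘ 0) + N = (1 : ℝ) ::ₘ a ::ₘ y ::ₘ z ::ₘ N := by
      intro N
      simp only [Multiset.cons_add, zero_add]
    rw [e0, e0] at p5
    rcases Nat.lt_or_ge 0 r.card with hr | hr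
    · obtain ⟨x, rfl⟩ := Multiset.card_eq_one.mp (le_antisymm p1 hr)
      have hx := p2 x (Multiset.mem_singleton_self x)
      rw [Multiset.sum_singleton] at p4
      refine ⟨x, hx.1.le, hx.2, p4, p5.trans (le_of_eq ?_)⟩
      have e1 : (1 : ℝ) ::ₘ a ::ₘ y ::ₘ z ::ₘ (Multiset.replicate m 0 + Multiset.replicate n κ + {x})
          = Multiset.replicate m 0 + (1 ::ₘ a ::ₘ y ::ₘ z ::ₘ x ::ₘ Multiset.replicate n κ) := by
        simp only [← Multiset.singleton_add]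
        abel
      rw [e1, FM_zero_add]
    · have hr0 : r = 0 := Multiset.card_eq_zero.mp (Nat.le_zero.mp hr)
      subst hr0
      rw [Multiset.sum_zero] at p4
      refine ⟨0, le_rfl, hκ0, p4, p5.trans (le_of_eq ?_)⟩
      have e1 : (1 : ℝ) ::ₘ a ::ₘ y ::ₘ z ::ₘ (Multiset.replicate m 0 + Multiset.replicate n κ + 0)
          = Multiset.replicate m 0 + (1 ::ₘ a ::ₘ y ::ₘ z ::ₘ Multiset.replicate n κ) := by
        simp only [← Multiset.singleton_add]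
        abel
      have e2 : (1 : ℝ) ::ₘ a ::ₘ y ::ₘ z ::ₘ (0 : ℝ) ::ₘ Multiset.replicate n κ
          = Multiset.replicate 1 0 + (1 ::ₘ a ::ₘ y ::ₘ z ::ₘ Multiset.replicate n κ) := by
        rw [Multiset.replicate_one]
        simp only [← Multiset.singleton_add]
        abel
      rw [e1, e2, FM_zero_add, FM_zero_add]
  suffices hD : D4 κ n a y z x ≤ -d by
    unfold D4 at hD
    rw [← hsum, show a + y + z + (n * κ + x) = a + y + z + x + n * κ by ring]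
    linarith
  have hn0 : n0 ≤ n := by
    by_contra hcon
    push Not at hcon
    have : (n : ℝ) + 1 ≤ n0 := by exact_mod_cast hcon
    nlinarith
  have hnQ : n ≤ Q := by
    by_contra hcon
    push Not at hcon
    have : (Q : ℝ) + 1 ≤ n := by exact_mod_cast hcon
    nlinarith
  rcases Nat.lt_or_ge n Q with hn | hn
  · -- the upper end
    have hup : ∀ ba bb bc : Bool, D4 κ n (ed a0 a1 ba) (ed y0 y1 bb) (ed z0 z1 bc) κ ≤ -d := by
      intro ba bb bc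
      rw [D4_full]
      exact hN (n + 1) (by omega) (by omega) ba bb bc
    rcases Nat.lt_or_ge n0 n with h3 | h3
    · exact D4_box hκ0.le hκ1 hB le_rfl hκ1 (hN n h3 hnQ) hup ha0 ha1 hy0 hy1 hz0 hz1 hx0' hxκ.le
    · have e : n = n0 := le_antisymm h3 hn0
      subst e
      exact D4_box hκ0.le hκ1 hB hx0 hκ1 hS hup ha0 ha1 hy0 hy1 hz0 hz1 (by linarith) hxκ.le
  · have e : n = Q := le_antisymm hnQ hn
    subst e
    have hx : x = 0 := by linarith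
    subst hx
    exact D4_box hκ0.le hκ1 hB le_rfl zero_le_one (hN n hQ le_rfl) (hN n hQ le_rfl) ha0 ha1 hy0 hy1 hz0 hz1 le_rfl le_rfl

/-! ### the row value is increasing -/

theorem yd_mono : ((List.range 785).all fun i => Nat.ble (WD.yd (15 + i)) (WD.yd (16 + i))) = true := by
  decide +kernel

lemma yd_le (k : ℕ) (h1 : 15 ≤ k) (h2 : k ≤ 799) : WD.yd k ≤ WD.yd (k + 1) := by
  obtain ⟨i, rfl⟩ := Nat.exists_eq_add_of_le h1
  have h3 := List.all_eq_true.mp yd_mono i (List.mem_range.mpr (by omega))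
  have h4 := Nat.le_of_ble_eq_true h3
  rwa [show 15 + i + 1 = 16 + i by omega]

lemma lineD_mono (k : ℕ) (h1 : 15 ≤ k) (h2 : k ≤ 799) {s t : ℝ} (hst : s ≤ t) : WD.lineD k s ≤ WD.lineD k t := by
  unfold WD.lineD
  have h : 0 ≤ WD.yr' (k + 1) - WD.yr' k := by
    unfold WD.yr'
    have : (WD.yd k : ℝ) ≤ WD.yd (k + 1) := by exact_mod_cast yd_le k h1 h2
    rw [← sub_div]
    exact div_nonneg (by linarith) (by norm_num)
  nlinarith

theorem Wd_mono {s t : ℝ} (hst : s ≤ t) : WD.Wd s ≤ WD.Wd t := by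
  unfold WD.Wd
  refine Finset.le_inf' _ _ fun k hk => ?_
  have hk' := Finset.mem_Icc.mp hk
  exact (Finset.inf'_le _ hk).trans (lineD_mono k hk'.1 hk'.2 hst)

/-- the row value at a larger total -/
theorem Wd_le_What_of {s t : ℝ} (h1 : 3 / 10 ≤ s) (h2 : s ≤ 16) (hst : s ≤ t) : WD.Wd s ≤ What t := by
  rcases le_or_gt t 16 with h | h
  · exact (Wd_mono hst).trans (C1.Wd_le_What' t (h1.trans hst) h)
  · have h3 := Far2.star 205 0 (by norm_num) (by norm_num) (by norm_num) Far2.d205 16 t (by norm_num) le_rfl h.le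
    have h4 : Real.log (1 + 16 - ((0 : ℕ) : ℝ) / 100) ≤ Real.log (1 + t - ((0 : ℕ) : ℝ) / 100) := by
      refine Real.log_le_log (by norm_num) ?_
      linarith
    have h5 := Wd_mono h2
    linarith

/-! ### far totals -/

/-- contribution of a special entry to the sum of the entries below `κ` -/
noncomputable def flr (κ lo hi : ℝ) : ℝ := if lo < κ then hi else 0

lemma flr_nonneg {κ lo hi : ℝ} (h0 : 0 ≤ lo) (h : lo ≤ hi) : 0 ≤ flr κ lo hi := by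
  unfold flr
  split
  · linarith
  · exact le_rfl

lemma filter_flr {κ a0 a1 a : ℝ} (h0 : 0 ≤ a0) (ha0 : a0 ≤ a) (ha1 : a ≤ a1) (N : Multiset ℝ) :
    ((a ::ₘ N).filter fun z => z < κ).sum ≤ flr κ a0 a1 + (N.filter fun z => z < κ).sum := by
  by_cases h : a < κ
  · rw [Multiset.filter_cons_of_pos (p := fun z => z < κ) N h, Multiset.sum_cons]
    unfold flr
    rw [if_pos (lt_of_le_of_lt ha0 h)]
    linarith
  · rw [Multiset.filter_cons_of_neg (p := fun z => z < κ) N h]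
    have := flr_nonneg (κ := κ) h0 (ha0.trans ha1)
    linarith

/-- **HEAVY ROWS, real form.** -/
theorem star_real {κ : ℝ} (hκ0 : 0 < κ) (hκ1 : κ ≤ 1) {a0 a1 y0 y1 z0 z1 x0 d T0 sm S : ℝ} {pay : Bool}
    (hd : 0 ≤ d) (hB : Bx a0 a1 y0 y1 z0 z1)
    (hx0 : 0 ≤ x0) {n0 Q : ℕ} (hQ : n0 < Q) (hSe : S = x0 + n0 * κ)
    (hS : ∀ ba bb bc : Bool, D4 κ n0 (ed a0 a1 ba) (ed y0 y1 bb) (ed z0 z1 bc) x0 ≤ -d)
    (hN : ∀ n, n0 < n → n ≤ Q → ∀ ba bb bc : Bool, D4 κ n (ed a0 a1 ba) (ed y0 y1 bb) (ed z0 z1 bc) 0 ≤ -d)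
    (hfar : Far2.SpecFarD T0 sm 1) (hT0 : T0 ≤ 16) (hup : a1 + y1 + z1 + S ≤ T0) (hup' : a1 + y1 + z1 < T0)
    (hlow : 3 / 10 ≤ a0 + y0 + z0 + S) (hwin : T0 + κ ≤ a0 + y0 + z0 + Q * κ)
    (hsm : flr κ a0 a1 + flr κ y0 y1 + flr κ z0 z1 ≤ sm)
    (hpay : pay = true → (1 : ℝ) / 2 + d ≤ WD.Wd (a0 + y0 + z0 + S)) :
    StarR κ S d pay a0 a1 y0 y1 z0 z1 := by
  intro a y z M ha0 ha1 hy0 hy1 hz0 hz1 hM hSM
  have ha : 0 ≤ a ∧ a ≤ 1 := ⟨hB.la.trans ha0, ha1.trans hB.ua⟩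
  have hy : 0 ≤ y ∧ y ≤ 1 := ⟨hB.ly.trans hy0, hy1.trans hB.uy⟩
  have hz : 0 ≤ z ∧ z ≤ 1 := ⟨hB.lz.trans hz0, hz1.trans hB.uz⟩
  refine ⟨?_, fun hp => ?_⟩
  · rcases lt_or_ge (a + y + z + M.sum) T0 with hT | hT
    · have h1 := window hκ0 hκ1 hB hx0 hQ hS hN ha0 ha1 hy0 hy1 hz0 hz1 hM (by linarith) (by linarith)
      exact h1.trans (C1.Wd_le_What' _ (by linarith) (by linarith))
    · have e1 : (a ::ₘ y ::ₘ z ::ₘ (0 : Multiset ℝ)).sum = a + y + z := by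
        simp only [Multiset.sum_cons, Multiset.sum_zero]
        ring
      have e2 : ∀ N : Multiset ℝ, (1 : ℝ) ::ₘ ((a ::ₘ y ::ₘ z ::ₘ 0) + N) = 1 ::ₘ a ::ₘ y ::ₘ z ::ₘ N := by
        intro N
        simp only [Multiset.cons_add, zero_add]
      have h1 := hfar κ d (a ::ₘ y ::ₘ z ::ₘ 0) M hd hκ0 hκ1 (by
        intro e he
        simp only [Multiset.mem_cons, Multiset.notMem_zero, or_false] at he
        rcases he with rfl | rfl | rfl
        · exact ha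
        · exact hy
        · exact hz) hM (by
        have f1 := filter_flr (κ := κ) hB.la ha0 ha1 (y ::ₘ z ::ₘ 0)
        have f2 := filter_flr (κ := κ) hB.ly hy0 hy1 (z ::ₘ 0)
        have f3 := filter_flr (κ := κ) hB.lz hz0 hz1 0
        rw [Multiset.filter_zero, Multiset.sum_zero] at f3
        linarith) (by rw [e1]; linarith) (by rw [e1]; exact hT) (by
        intro M' hM' k1 k2
        rw [e1] at k1 k2 ⊢
        rw [e2]
        exact window hκ0 hκ1 hB hx0 hQ hS hN ha0 ha1 hy0 hy1 hz0 hz1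
          (fun e he => hM e (Multiset.mem_of_le hM' he)) (by linarith) (by linarith))
      rw [e1, e2] at h1
      exact h1
  · exact (hpay hp).trans (Wd_le_What_of hlow (by linarith [hB.ma, hB.my, hB.mz]) (by linarith))

/-! ### the row value at a grid point -/

/-- eight times the row value, unit `1e-7`, at the total `tt / 400` -/
def w8d (tt : ℕ) : ℕ :=
  frc (Nat.div tt (nat_lit 8)) fun k => frc (WD.yd k) fun y =>
    Nat.add (Nat.mul (nat_lit 8) y) (Nat.mul (Nat.sub tt (Nat.mul (nat_lit 8) k)) (Nat.sub (WD.yd (Nat.succ k)) y))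

theorem w8d_eq (tt : ℕ) (h1 : 120 ≤ tt) (h2 : tt ≤ 6399) : (w8d tt : ℝ) / 80000000 = WD.Wd ((tt : ℝ) / 400) := by
  obtain ⟨k, hk⟩ : ∃ k, k = tt / 8 := ⟨_, rfl⟩
  have e : w8d tt = 8 * WD.yd k + (tt - 8 * k) * (WD.yd (k + 1) - WD.yd k) := by
    unfold w8d
    rw [frc_eq, frc_eq, hk]
    rfl
  have k1 : 15 ≤ k := by omega
  have k2 : k ≤ 799 := by omega
  have k3 : 8 * k ≤ tt := by omega
  have k4 : tt ≤ 8 * k + 8 := by omega
  have k3' : (8 : ℝ) * k ≤ tt := by exact_mod_cast k3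
  have k4' : (tt : ℝ) ≤ 8 * k + 8 := by exact_mod_cast k4
  rw [WD.Wd_piece k k1 k2 _ (by linarith) (by linarith), e]
  unfold WD.lineD WD.yr'
  push_cast [Nat.cast_sub (yd_le k k1 k2), Nat.cast_sub k3]
  ring

/-! ### far totals, the check -/

/-- proved windows: `k0 / 50`, `a / 100` -/
def farL : List (ℕ × ℕ) :=
  [(203, 0), (215, 10), (226, 20), (232, 25), (238, 30), (249, 40), (260, 50), (272, 60), (289, 75), (317, 100),
    (345, 125), (373, 150), (401, 175), (428, 200), (456, 225), (483, 250), (538, 300), (593, 350), (647, 400),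
    (701, 450)]

theorem farL_ok : (farL.all fun p => Far2.chkG p.1 p.2) = true := by decide +kernel

/-- the window `k0`, `a` is proved -/
noncomputable def farC (k0 a : ℕ) : Bool :=
  cond (Nat.ble k0 (nat_lit 750)) (@List.rec (ℕ × ℕ) (fun _ => Bool) false
    (fun p _ ih => cond (Nat.ble p.1 k0) (cond (Nat.ble a p.2) true ih) ih) farL) false

lemma chkG_mono {k k' a a' : ℕ} (h : Far2.chkG k a = true) (hk : k ≤ k') (ha : a' ≤ a) : Far2.chkG k' a' = true := by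
  unfold Far2.chkG at h ⊢
  rw [List.all_eq_true] at h ⊢
  intro i hi
  rw [List.mem_range] at hi
  have h1 := h (k' - k + i) (List.mem_range.mpr (by omega))
  have h2 := Nat.le_of_ble_eq_true h1
  have e : k + (k' - k + i) = k' + i := by omega
  rw [e] at h2
  refine Nat.ble_eq_true_of_le (h2.trans ?_)
  exact Nat.mul_le_mul_left _ (Nat.sub_le_sub_left ha _)

theorem farC_sound {k0 a : ℕ} (h : farC k0 a = true) : k0 ≤ 750 ∧ Far2.SpecFarD ((k0 : ℝ) / 50) ((a : ℝ) / 100) 1 := by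
  unfold farC at h
  obtain ⟨h1, h⟩ := cond_eq_true h
  have h1 : k0 ≤ 750 := Nat.le_of_ble_eq_true h1
  have key : ∀ l : List (ℕ × ℕ), (@List.rec (ℕ × ℕ) (fun _ => Bool) false
      (fun p _ ih => cond (Nat.ble p.1 k0) (cond (Nat.ble a p.2) true ih) ih) l) = true →
      ∃ p ∈ l, p.1 ≤ k0 ∧ a ≤ p.2 := by
    intro l
    induction l with
    | nil => intro h; exact absurd h (by simp)
    | cons p l ih =>
      intro h
      have h' : (cond (Nat.ble p.1 k0) (cond (Nat.ble a p.2) true (@List.rec (ℕ × ℕ) (fun _ => Bool) false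
        (fun p _ ih => cond (Nat.ble p.1 k0) (cond (Nat.ble a p.2) true ih) ih) l)) (@List.rec (ℕ × ℕ)
        (fun _ => Bool) false (fun p _ ih => cond (Nat.ble p.1 k0) (cond (Nat.ble a p.2) true ih) ih) l)) = true := h
      cases h2 : Nat.ble p.1 k0 with
      | true =>
        rw [h2, cond_true] at h'
        cases h3 : Nat.ble a p.2 with
        | true => exact ⟨p, List.mem_cons_self, Nat.le_of_ble_eq_true h2, Nat.le_of_ble_eq_true h3⟩
        | false =>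
          rw [h3, cond_false] at h'
          obtain ⟨q, hq, hq'⟩ := ih h'
          exact ⟨q, List.mem_cons_of_mem _ hq, hq'⟩
      | false =>
        rw [h2, cond_false] at h'
        obtain ⟨q, hq, hq'⟩ := ih h'
        exact ⟨q, List.mem_cons_of_mem _ hq, hq'⟩
  obtain ⟨p, hp, p1, p2⟩ := key farL h
  have h2 := List.all_eq_true.mp farL_ok p hp
  have h3 : (farL.all fun p => Nat.ble 16 p.1 && (Nat.ble p.2 500 && Nat.ble p.2 (2 * p.1))) = true := by decide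
  have h4 := List.all_eq_true.mp h3 p hp
  simp only [Bool.and_eq_true, Nat.ble_eq] at h4
  obtain ⟨q1, q2, q3⟩ := h4
  refine ⟨h1, Far2.farD k0 a 1 (by omega) (by omega) (by omega) (by omega) le_rfl ?_ (chkG_mono h2 p1 p2)⟩
  have : (k0 : ℝ) ≤ 750 := by exact_mod_cast h1
  linarith

/-! ### the check -/

/-- the tables at the corners, index function `jx` -/
structure FX (rd ks : List ℕ) (s : ℕ) (a0 a1 y0 y1 z0 z1 : ℝ) (jx : Bool → Bool → Bool → ℕ)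
    (tabs : List (ℕ × ℕ)) : Prop where
  ln : ∀ ba bb bc, jx ba bb bc < tabs.length
  F : ∀ ba bb bc : Bool, ∀ i < prd rd,
    FM (1 ::ₘ (Sp (ed a0 a1 ba) (ed y0 y1 bb) (ed z0 z1 bc) + Ent.mk (CA.dig rd i) (kR ks)))
      ≤ (dg (tabs.getD (jx ba bb bc) (0, 0)).1 i : ℝ) / (s * 10 ^ 7)

/-- the nodes `n0 + 1`, .., `n0 + N` of a corner: `T` the table, `u` the sum of the special entries (unit `1 / 400`),
`c2` the largest entry (unit `1 / 400`), `s8d = 8 s d` -/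
noncomputable def nds (r0 c2 n0 s s8d T u : ℕ) (N : ℕ) : Bool :=
  @Nat.rec (fun _ => Bool) true (fun k ih => cond (frc (Nat.succ (Nat.add n0 k)) fun n =>
    Nat.ble (Nat.add (Nat.mul (nat_lit 8) (dg T (Nat.mul r0 n))) s8d) (Nat.mul s (w8d (Nat.add u (Nat.mul c2 n)))))
      ih false) N

/-- one corner: the chord (positions `pA`, `pB`, unit `1 / 400`, weights `wA`, `wB`, digits `iA`, `iB`), the nodes -/
noncomputable def cor (r0 c2 iA iB wA wB pA pB n0 N s s8d T u : ℕ) : Bool :=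
  frc T fun T =>
  cond (Nat.ble (Nat.add (Nat.mul (nat_lit 8) (Nat.add (Nat.mul wA (dg T iA)) (Nat.mul wB (dg T iB))))
      (Nat.mul s8d (Nat.add wA wB)))
      (Nat.mul s (Nat.add (Nat.mul wA (w8d (Nat.add u pA))) (Nat.mul wB (w8d (Nat.add u pB))))))
    (nds r0 c2 n0 s s8d T u N) false

/-- all the corners -/
noncomputable def evl (f : ℕ → ℕ → Bool) (tabs : List (ℕ × ℕ)) : List ℕ → Bool :=
  @List.rec (ℕ × ℕ) (fun _ => List ℕ → Bool) (fun _ => true)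
    (fun t _ ih us => @List.rec ℕ (fun _ => Bool) false (fun u us' _ => cond (f t.1 u) (ih us') false) us) tabs

/-- contribution of a special entry to the sum of the entries below the largest rest -/
def fln (c2 lo hi : ℕ) : ℕ := cond (Nat.ble c2 lo) (nat_lit 0) hi

/-- the end points of the chord: `0` = from `n0` to `n0 + 1` copies of the largest entry, `1` = from `n0` copies to
`n0` copies and the lower knot, `2` = from `n0` copies and the lower knot to `n0 + 1` copies -/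
noncomputable def stg (r0 kp c2 n0 md : ℕ) (K : ℕ → ℕ → ℕ → ℕ → Bool) : Bool :=
  frc (Nat.mul r0 n0) fun i => frc (Nat.mul c2 n0) fun p =>
  cond (Nat.beq md (nat_lit 0))
    (cond (Nat.ble (nat_lit 1) r0) (K i (Nat.add i r0) p (Nat.add p c2)) false)
    (cond (Nat.ble (nat_lit 2) r0)
      (cond (Nat.beq md (nat_lit 1)) (K i (Nat.succ i) p (Nat.add p (Nat.mul (nat_lit 2) kp)))
        (K (Nat.succ i) (Nat.add i r0) (Nat.add p (Nat.mul (nat_lit 2) kp)) (Nat.add p c2))) false)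

/-- THE CHECK of a heavy row.  Table: radices `[r0, r1]`, knots `[kp, cap]` (unit `1 / 200`); `n0`, `md` start of the
chord; `S` the first sum (unit `1 / 400`); `d` the margin (unit `1e-7`); `Q` the last node; `k0`, `a` the far window;
`pay`: the margin of `1/2` is checked too; borders of the special entries in `1 / 400`; `us` their sums at the
corners. -/
noncomputable def starK (r0 r1 kp cap n0 md S d Q k0 a : ℕ) (pay : Bool) (u0 u1 v0 v1 w0 w1 : ℕ) (us : List ℕ)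
    (s : ℕ) (tabs : List (ℕ × ℕ)) : Bool :=
  frc (Nat.mul (nat_lit 2) cap) fun c2 => frc (Nat.add (Nat.add u0 v0) w0) fun lo =>
  frc (Nat.add (Nat.add u1 v1) w1) fun hi =>
  cond (Nat.ble (nat_lit 1) cap) (cond (Nat.ble cap (nat_lit 200)) (cond (Nat.ble kp cap)
  (cond (Nat.ble (Nat.succ n0) Q) (cond (Nat.ble (Nat.succ Q) r1)
  (cond (Nat.ble (Nat.add hi S) (Nat.mul (nat_lit 8) k0)) (cond (Nat.ble (Nat.succ hi) (Nat.mul (nat_lit 8) k0))
  (cond (Nat.ble (Nat.add (Nat.mul (nat_lit 8) k0) c2) (Nat.add lo (Nat.mul c2 Q)))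
  (cond (Nat.ble (Nat.add hi (Nat.mul c2 Q)) (nat_lit 6399))
  (cond (Nat.ble (Nat.add (Nat.add (fln c2 u0 u1) (fln c2 v0 v1)) (fln c2 w0 w1)) (Nat.mul (nat_lit 4) a))
  (cond (farC k0 a)
  (cond (cond pay (Nat.ble (Nat.mul (nat_lit 8) (Nat.add (nat_lit 5000000) d)) (w8d (Nat.add lo S))) true)
  (stg r0 kp c2 n0 md fun iA iB pA pB =>
    cond (Nat.ble pA S) (cond (Nat.ble S pB) (cond (Nat.ble (Nat.succ pA) pB)
    (cond (Nat.ble (nat_lit 120) (Nat.add lo pA))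
    (frc (Nat.sub pB S) fun wA => frc (Nat.sub S pA) fun wB => frc (Nat.mul (Nat.mul (nat_lit 8) s) d) fun s8d =>
      frc (Nat.sub Q n0) fun N => evl (cor r0 c2 iA iB wA wB pA pB n0 N s s8d) tabs us) false) false) false) false)
  false) false) false) false) false) false) false) false) false) false) false) false

lemma evl_sound {f : ℕ → ℕ → Bool} : ∀ {tabs : List (ℕ × ℕ)} {us : List ℕ}, evl f tabs us = true →
    ∀ q < tabs.length, f (tabs.getD q (0, 0)).1 (us.getD q 0) = true := by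
  intro tabs
  induction tabs with
  | nil => intro us _ q hq; exact absurd hq (Nat.not_lt_zero q)
  | cons t tabs ih =>
    intro us h q hq
    cases us with
    | nil =>
      have h' : false = true := h
      exact absurd h' (by decide)
    | cons u us =>
      have h' : cond (f t.1 u) (evl f tabs us) false = true := h
      obtain ⟨h1, h2⟩ := cond_eq_true h'
      cases q with
      | zero => simpa using h1
      | succ q =>
        have := ih h2 q (by simpa using hq)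
        simpa using this

lemma nds_sound {r0 c2 n0 s s8d T u : ℕ} : ∀ {N : ℕ}, nds r0 c2 n0 s s8d T u N = true → ∀ k < N,
    8 * dg T (r0 * (n0 + 1 + k)) + s8d ≤ s * w8d (u + c2 * (n0 + 1 + k)) := by
  intro N
  induction N with
  | zero => intro _ k hk; exact absurd hk (Nat.not_lt_zero k)
  | succ N ih =>
    intro h k hk
    have h' : cond (frc (Nat.succ (Nat.add n0 N)) fun n =>
      Nat.ble (Nat.add (Nat.mul (nat_lit 8) (dg T (Nat.mul r0 n))) s8d) (Nat.mul s (w8d (Nat.add u (Nat.mul c2 n)))))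
        (nds r0 c2 n0 s s8d T u N) false = true := h
    obtain ⟨h1, h2⟩ := cond_eq_true h'
    rcases Nat.lt_succ_iff_lt_or_eq.mp hk with hk | rfl
    · exact ih h2 k hk
    · rw [frc_eq] at h1
      have h3 := Nat.le_of_ble_eq_true h1
      have e : n0 + 1 + k = Nat.succ (Nat.add n0 k) := by
        show n0 + 1 + k = n0 + k + 1
        omega
      rw [e]
      exact h3

/-- the end points -/
def Pt (r0 kp c2 n0 i p : ℕ) : Prop :=
  (1 ≤ r0 ∧ i = r0 * n0 ∧ p = c2 * n0) ∨ (2 ≤ r0 ∧ i = r0 * n0 + 1 ∧ p = c2 * n0 + 2 * kp) ∨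
    (1 ≤ r0 ∧ i = r0 * (n0 + 1) ∧ p = c2 * n0 + c2)

lemma stg_sound {r0 kp c2 n0 md : ℕ} {K : ℕ → ℕ → ℕ → ℕ → Bool} (h : stg r0 kp c2 n0 md K = true) :
    ∃ iA iB pA pB, K iA iB pA pB = true ∧ Pt r0 kp c2 n0 iA pA ∧ Pt r0 kp c2 n0 iB pB := by
  unfold stg at h
  rw [frc_eq, frc_eq] at h
  have e : r0 * n0 + r0 = r0 * (n0 + 1) := by ring
  cases hm : Nat.beq md 0 with
  | true =>
    rw [hm, cond_true] at h
    obtain ⟨h1, h⟩ := cond_eq_true h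
    have h1 : 1 ≤ r0 := Nat.le_of_ble_eq_true h1
    exact ⟨_, _, _, _, h, Or.inl ⟨h1, rfl, rfl⟩, Or.inr (Or.inr ⟨h1, e, rfl⟩)⟩
  | false =>
    rw [hm, cond_false] at h
    obtain ⟨h1, h⟩ := cond_eq_true h
    have h1 : 2 ≤ r0 := Nat.le_of_ble_eq_true h1
    cases hm1 : Nat.beq md 1 with
    | true =>
      rw [hm1, cond_true] at h
      exact ⟨_, _, _, _, h, Or.inl ⟨by omega, rfl, rfl⟩, Or.inr (Or.inl ⟨h1, rfl, rfl⟩)⟩
    | false =>
      rw [hm1, cond_false] at h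
      exact ⟨_, _, _, _, h, Or.inr (Or.inl ⟨h1, rfl, rfl⟩), Or.inr (Or.inr ⟨by omega, e, rfl⟩)⟩

/-- the digits of a table with two knots -/
lemma row_dig {r0 r1 kp cap s : ℕ} {a0 a1 y0 y1 z0 z1 : ℝ} {jx : Bool → Bool → Bool → ℕ} {tabs : List (ℕ × ℕ)}
    (h : FX [r0, r1] [kp, cap] s a0 a1 y0 y1 z0 z1 jx tabs) (ba bb bc : Bool) (m n : ℕ) (hm : m < r0) (hn : n < r1) :
    FM (1 ::ₘ ed a0 a1 ba ::ₘ ed y0 y1 bb ::ₘ ed z0 z1 bc ::ₘ (Multiset.replicate m ((kp : ℝ) / 200)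
      + Multiset.replicate n ((cap : ℝ) / 200)))
      ≤ (dg (tabs.getD (jx ba bb bc) (0, 0)).1 (m + r0 * n) : ℝ) / (s * 10 ^ 7) := by
  have hok : CA.OkD [r0, r1] [m, n] := List.Forall₂.cons hm (List.Forall₂.cons hn List.Forall₂.nil)
  have h1 := h.F ba bb bc _ (idx_lt _ _ hok)
  rw [CA.dig_idx _ _ hok] at h1
  have e1 : CA.idx [r0, r1] [m, n] = m + r0 * n := by
    show m + r0 * (n + r1 * 0) = _
    ring
  rw [e1] at h1
  refine le_trans (le_of_eq ?_) h1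
  congr 1
  have e2 : Ent.mk [m, n] (kR [kp, cap]) = Multiset.replicate m ((kp : ℝ) / 200)
      + (Multiset.replicate n ((cap : ℝ) / 200) + 0) := rfl
  rw [e2]
  unfold Sp
  simp only [← Multiset.singleton_add]
  abel

/-- an end point at a corner -/
lemma pt_le {r0 r1 kp cap s n0 i p u : ℕ} {a0 a1 y0 y1 z0 z1 : ℝ} {jx : Bool → Bool → Bool → ℕ}
    {tabs : List (ℕ × ℕ)} (h : FX [r0, r1] [kp, cap] s a0 a1 y0 y1 z0 z1 jx tabs) (ba bb bc : Bool)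
    (hp : Pt r0 kp (2 * cap) n0 i p) (hn : n0 + 1 < r1)
    (hu : ed a0 a1 ba + ed y0 y1 bb + ed z0 z1 bc = (u : ℝ) / 400) (h1 : 120 ≤ u + p) (h2 : u + p ≤ 6399) :
    D4 ((cap : ℝ) / 200) n0 (ed a0 a1 ba) (ed y0 y1 bb) (ed z0 z1 bc) (((p : ℝ) - (2 * cap : ℕ) * n0) / 400)
      ≤ (dg (tabs.getD (jx ba bb bc) (0, 0)).1 i : ℝ) / (s * 10 ^ 7) - (w8d (u + p) : ℝ) / 80000000 := by
  have hW := w8d_eq (u + p) h1 h2
  rw [hW]
  rcases hp with ⟨r, rfl, rfl⟩ | ⟨r, rfl, rfl⟩ | ⟨r, rfl, rfl⟩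
  · have hF := row_dig h ba bb bc 0 n0 r (by omega)
    rw [zero_add] at hF
    have e1 : (((2 * cap * n0 : ℕ) : ℝ) - (2 * cap : ℕ) * n0) / 400 = 0 := by push_cast; ring
    rw [e1]
    unfold D4
    have e2 : (1 : ℝ) ::ₘ ed a0 a1 ba ::ₘ ed y0 y1 bb ::ₘ ed z0 z1 bc ::ₘ (0 : ℝ)
        ::ₘ Multiset.replicate n0 ((cap : ℝ) / 200)
        = Multiset.replicate 1 0 + (1 ::ₘ ed a0 a1 ba ::ₘ ed y0 y1 bb ::ₘ ed z0 z1 bc
          ::ₘ (Multiset.replicate 0 ((kp : ℝ) / 200) + Multiset.replicate n0 ((cap : ℝ) / 200))) := by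
      rw [Multiset.replicate_one, Multiset.replicate_zero]
      simp only [← Multiset.singleton_add]
      abel
    have e3 : ed a0 a1 ba + ed y0 y1 bb + ed z0 z1 bc + 0 + n0 * ((cap : ℝ) / 200)
        = ((u + 2 * cap * n0 : ℕ) : ℝ) / 400 := by
      rw [hu]
      push_cast
      ring
    rw [e2, FM_zero_add, e3]
    linarith
  · have hF := row_dig h ba bb bc 1 n0 (by omega) (by omega)
    have e1 : (((2 * cap * n0 + 2 * kp : ℕ) : ℝ) - (2 * cap : ℕ) * n0) / 400 = (kp : ℝ) / 200 := by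
      push_cast; ring
    rw [e1, show r0 * n0 + 1 = 1 + r0 * n0 by ring]
    unfold D4
    have e2 : (1 : ℝ) ::ₘ ed a0 a1 ba ::ₘ ed y0 y1 bb ::ₘ ed z0 z1 bc ::ₘ ((kp : ℝ) / 200)
        ::ₘ Multiset.replicate n0 ((cap : ℝ) / 200)
        = (1 ::ₘ ed a0 a1 ba ::ₘ ed y0 y1 bb ::ₘ ed z0 z1 bc
          ::ₘ (Multiset.replicate 1 ((kp : ℝ) / 200) + Multiset.replicate n0 ((cap : ℝ) / 200))) := by
      rw [Multiset.replicate_one]
      simp only [← Multiset.singleton_add]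
    have e3 : ed a0 a1 ba + ed y0 y1 bb + ed z0 z1 bc + (kp : ℝ) / 200 + n0 * ((cap : ℝ) / 200)
        = ((u + (2 * cap * n0 + 2 * kp) : ℕ) : ℝ) / 400 := by
      rw [hu]
      push_cast
      ring
    rw [e2, e3]
    linarith
  · have hF := row_dig h ba bb bc 0 (n0 + 1) r (by omega)
    rw [zero_add] at hF
    have e1 : (((2 * cap * n0 + 2 * cap : ℕ) : ℝ) - (2 * cap : ℕ) * n0) / 400 = (cap : ℝ) / 200 := by
      push_cast; ring
    rw [e1, D4_full]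
    unfold D4
    have e2 : (1 : ℝ) ::ₘ ed a0 a1 ba ::ₘ ed y0 y1 bb ::ₘ ed z0 z1 bc ::ₘ (0 : ℝ)
        ::ₘ Multiset.replicate (n0 + 1) ((cap : ℝ) / 200)
        = Multiset.replicate 1 0 + (1 ::ₘ ed a0 a1 ba ::ₘ ed y0 y1 bb ::ₘ ed z0 z1 bc
          ::ₘ (Multiset.replicate 0 ((kp : ℝ) / 200) + Multiset.replicate (n0 + 1) ((cap : ℝ) / 200))) := by
      rw [Multiset.replicate_one, Multiset.replicate_zero]
      simp only [← Multiset.singleton_add]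
      abel
    have e3 : ed a0 a1 ba + ed y0 y1 bb + ed z0 z1 bc + 0 + ((n0 + 1 : ℕ) : ℝ) * ((cap : ℝ) / 200)
        = ((u + (2 * cap * n0 + 2 * cap) : ℕ) : ℝ) / 400 := by
      rw [hu]
      push_cast
      ring
    rw [e2, FM_zero_add, e3]
    linarith

/-- a border -/
def eN (a b : ℕ) (c : Bool) : ℕ := bif c then b else a

lemma ed_eN (a b : ℕ) (c : Bool) : ed ((a : ℝ) / 400) ((b : ℝ) / 400) c = (eN a b c : ℝ) / 400 := by
  cases c <;> rfl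

lemma eN_ge {a b : ℕ} (h : a ≤ b) (c : Bool) : a ≤ eN a b c ∧ eN a b c ≤ b := by
  cases c
  · exact ⟨le_rfl, h⟩
  · exact ⟨h, le_rfl⟩

lemma fln_eq (cap a b : ℕ) : (fln (2 * cap) a b : ℝ) / 400 = flr ((cap : ℝ) / 200) ((a : ℝ) / 400) ((b : ℝ) / 400) := by
  unfold fln flr
  cases h : Nat.ble (2 * cap) a with
  | true =>
    have h1 : 2 * cap ≤ a := Nat.le_of_ble_eq_true h
    have h2 : (2 : ℝ) * cap ≤ a := by exact_mod_cast h1
    rw [cond_true, if_neg (by linarith)]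
    simp
  | false =>
    have h1 : a < 2 * cap := by
      by_contra hcon
      push Not at hcon
      rw [Nat.ble_eq_true_of_le hcon] at h
      exact absurd h (by decide)
    have h2 : (a : ℝ) < 2 * cap := by exact_mod_cast h1
    rw [cond_false, if_pos (by linarith)]

/-- **THE CHECK OF A HEAVY ROW, soundness.** -/
theorem starK_sound {r0 r1 kp cap n0 md S d Q k0 a : ℕ} {pay : Bool} {u0 u1 v0 v1 w0 w1 : ℕ} {us : List ℕ}
    {s : ℕ} {tabs : List (ℕ × ℕ)} {jx : Bool → Bool → Bool → ℕ} (hs : 0 < s)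
    (hX : FX [r0, r1] [kp, cap] s ((u0 : ℝ) / 400) ((u1 : ℝ) / 400) ((v0 : ℝ) / 400) ((v1 : ℝ) / 400)
      ((w0 : ℝ) / 400) ((w1 : ℝ) / 400) jx tabs)
    (hB : Bx ((u0 : ℝ) / 400) ((u1 : ℝ) / 400) ((v0 : ℝ) / 400) ((v1 : ℝ) / 400) ((w0 : ℝ) / 400) ((w1 : ℝ) / 400))
    (hus : ∀ ba bb bc, us.getD (jx ba bb bc) 0 = eN u0 u1 ba + eN v0 v1 bb + eN w0 w1 bc)
    (h : starK r0 r1 kp cap n0 md S d Q k0 a pay u0 u1 v0 v1 w0 w1 us s tabs = true) :
    StarR ((cap : ℝ) / 200) ((S : ℝ) / 400) ((d : ℝ) / 10 ^ 7) pay ((u0 : ℝ) / 400) ((u1 : ℝ) / 400)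
      ((v0 : ℝ) / 400) ((v1 : ℝ) / 400) ((w0 : ℝ) / 400) ((w1 : ℝ) / 400) := by
  unfold starK at h
  rw [frc_eq, frc_eq, frc_eq] at h
  obtain ⟨c1, h⟩ := cond_eq_true h
  obtain ⟨c2, h⟩ := cond_eq_true h
  obtain ⟨c3, h⟩ := cond_eq_true h
  obtain ⟨c4, h⟩ := cond_eq_true h
  obtain ⟨c5, h⟩ := cond_eq_true h
  obtain ⟨c6, h⟩ := cond_eq_true h
  obtain ⟨c7, h⟩ := cond_eq_true h
  obtain ⟨c8, h⟩ := cond_eq_true h
  obtain ⟨c9, h⟩ := cond_eq_true h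
  obtain ⟨c10, h⟩ := cond_eq_true h
  obtain ⟨c11, h⟩ := cond_eq_true h
  obtain ⟨c12, h⟩ := cond_eq_true h
  obtain ⟨iA, iB, pA, pB, h, hA, hBp⟩ := stg_sound h
  obtain ⟨c13, h⟩ := cond_eq_true h
  obtain ⟨c14, h⟩ := cond_eq_true h
  obtain ⟨c15, h⟩ := cond_eq_true h
  obtain ⟨c16, h⟩ := cond_eq_true h
  rw [frc_eq, frc_eq, frc_eq, frc_eq] at h
  have c1 : 1 ≤ cap := Nat.le_of_ble_eq_true c1
  have c2 : cap ≤ 200 := Nat.le_of_ble_eq_true c2
  have c3 : kp ≤ cap := Nat.le_of_ble_eq_true c3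
  have c4 : n0 + 1 ≤ Q := Nat.le_of_ble_eq_true c4
  have c5 : Q + 1 ≤ r1 := Nat.le_of_ble_eq_true c5
  have c6 : u1 + v1 + w1 + S ≤ 8 * k0 := Nat.le_of_ble_eq_true c6
  have c7 : u1 + v1 + w1 + 1 ≤ 8 * k0 := Nat.le_of_ble_eq_true c7
  have c8 : 8 * k0 + 2 * cap ≤ u0 + v0 + w0 + 2 * cap * Q := Nat.le_of_ble_eq_true c8
  have c9 : u1 + v1 + w1 + 2 * cap * Q ≤ 6399 := Nat.le_of_ble_eq_true c9
  have c10 : fln (2 * cap) u0 u1 + fln (2 * cap) v0 v1 + fln (2 * cap) w0 w1 ≤ 4 * a := Nat.le_of_ble_eq_true c10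
  have c13 : pA ≤ S := Nat.le_of_ble_eq_true c13
  have c14 : S ≤ pB := Nat.le_of_ble_eq_true c14
  have c15 : pA + 1 ≤ pB := Nat.le_of_ble_eq_true c15
  have c16 : 120 ≤ u0 + v0 + w0 + pA := Nat.le_of_ble_eq_true c16
  obtain ⟨hk0, hfar⟩ := farC_sound c11
  have le4 : ∀ {x y : ℕ}, (x : ℝ) / 400 ≤ (y : ℝ) / 400 → x ≤ y := by
    intro x y hxy
    have h1 := (div_le_div_iff_of_pos_right (by norm_num : (0 : ℝ) < 400)).mp hxy
    exact_mod_cast h1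
  have mu := le4 hB.ma
  have mv := le4 hB.my
  have mw := le4 hB.mz
  have hsR : (0 : ℝ) < s := by exact_mod_cast hs
  have hcapR : (1 : ℝ) ≤ cap := by exact_mod_cast c1
  have hcapR2 : (cap : ℝ) ≤ 200 := by exact_mod_cast c2
  have hκ0 : (0 : ℝ) < (cap : ℝ) / 200 := by positivity
  have hκ1 : (cap : ℝ) / 200 ≤ 1 := by
    rw [div_le_one (by norm_num)]
    exact hcapR2
  -- positions
  have pos : ∀ {i p : ℕ}, Pt r0 kp (2 * cap) n0 i p → 2 * cap * n0 ≤ p ∧ p ≤ 2 * cap * n0 + 2 * cap := by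
    intro i p hp
    rcases hp with ⟨-, -, rfl⟩ | ⟨-, -, rfl⟩ | ⟨-, -, rfl⟩ <;> omega
  obtain ⟨qA, qA'⟩ := pos hA
  obtain ⟨qB, qB'⟩ := pos hBp
  have hQc : 2 * cap * n0 + 2 * cap ≤ 2 * cap * Q := by
    calc 2 * cap * n0 + 2 * cap = 2 * cap * (n0 + 1) := by ring
      _ ≤ 2 * cap * Q := Nat.mul_le_mul_left _ c4
  -- the corners
  have hr1 : 1 ≤ r0 := by
    rcases hA with ⟨h1, -, -⟩ | ⟨h1, -, -⟩ | ⟨h1, -, -⟩ <;> omega
  have hcor := fun ba bb bc => evl_sound h (jx ba bb bc) (hX.ln ba bb bc)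
  have husum : ∀ ba bb bc : Bool, ed ((u0 : ℝ) / 400) ((u1 : ℝ) / 400) ba + ed ((v0 : ℝ) / 400) ((v1 : ℝ) / 400) bb
      + ed ((w0 : ℝ) / 400) ((w1 : ℝ) / 400) bc = ((us.getD (jx ba bb bc) 0 : ℕ) : ℝ) / 400 := by
    intro ba bb bc
    rw [hus, ed_eN, ed_eN, ed_eN]
    push_cast
    ring
  have hub : ∀ ba bb bc : Bool, u0 + v0 + w0 ≤ us.getD (jx ba bb bc) 0 ∧ us.getD (jx ba bb bc) 0 ≤ u1 + v1 + w1 := by
    intro ba bb bc
    rw [hus]
    have e1 := eN_ge mu ba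
    have e2 := eN_ge mv bb
    have e3 := eN_ge mw bc
    omega
  have e01 : ∀ (ba bb bc : Bool), (0 ≤ ed ((u0 : ℝ) / 400) ((u1 : ℝ) / 400) ba ∧ ed ((u0 : ℝ) / 400) ((u1 : ℝ) / 400) ba ≤ 1)
      ∧ (0 ≤ ed ((v0 : ℝ) / 400) ((v1 : ℝ) / 400) bb ∧ ed ((v0 : ℝ) / 400) ((v1 : ℝ) / 400) bb ≤ 1)
      ∧ (0 ≤ ed ((w0 : ℝ) / 400) ((w1 : ℝ) / 400) bc ∧ ed ((w0 : ℝ) / 400) ((w1 : ℝ) / 400) bc ≤ 1) := by
    have key : ∀ {a b : ℝ}, 0 ≤ a → a ≤ b → b ≤ 1 → ∀ q : Bool, 0 ≤ ed a b q ∧ ed a b q ≤ 1 := by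
      intro a b h0 h1 h2 q
      cases q
      · exact ⟨h0, h1.trans h2⟩
      · exact ⟨h0.trans h1, h2⟩
    intro ba bb bc
    exact ⟨key hB.la hB.ma hB.ua ba, key hB.ly hB.my hB.uy bb, key hB.lz hB.mz hB.uz bc⟩
  have hcapn : ((2 * cap : ℕ) : ℝ) = 2 * cap := by push_cast; ring
  have qAR : ((2 * cap : ℕ) : ℝ) * n0 ≤ pA := by exact_mod_cast qA
  have qBR : (pB : ℝ) ≤ ((2 * cap : ℕ) : ℝ) * n0 + (2 * cap : ℕ) := by exact_mod_cast qB'
  have c13R : (pA : ℝ) ≤ S := by exact_mod_cast c13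
  have c14R : (S : ℝ) ≤ pB := by exact_mod_cast c14
  have c15R : (pA : ℝ) + 1 ≤ pB := by exact_mod_cast c15
  refine star_real (x0 := ((S : ℝ) - (2 * cap : ℕ) * n0) / 400) (T0 := (k0 : ℝ) / 50) (sm := (a : ℝ) / 100)
    (n0 := n0) (Q := Q) hκ0 hκ1 (by positivity) hB (by linarith) (by omega) ?_ ?_ ?_ hfar ?_ ?_ ?_ ?_ ?_ ?_ ?_
  · push_cast
    ring
  · -- the chord
    intro ba bb bc
    have h1 := hcor ba bb bc
    unfold cor at h1
    rw [frc_eq] at h1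
    obtain ⟨h2, -⟩ := cond_eq_true h1
    have h2 := Nat.le_of_ble_eq_true h2
    obtain ⟨b1, b2⟩ := hub ba bb bc
    have fA := pt_le hX ba bb bc hA (by omega) (husum ba bb bc) (by omega) (by omega)
    have fB := pt_le hX ba bb bc hBp (by omega) (husum ba bb bc) (by omega) (by omega)
    obtain ⟨g1, g2, g3⟩ := e01 ba bb bc
    have hch := D4_chord (κ := (cap : ℝ) / 200) hκ0.le hκ1 g1 g2 g3
      (xA := ((pA : ℝ) - (2 * cap : ℕ) * n0) / 400) (xB := ((pB : ℝ) - (2 * cap : ℕ) * n0) / 400)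
      (x := ((S : ℝ) - (2 * cap : ℕ) * n0) / 400) (by linarith) (by rw [hcapn] at *; linarith) (by linarith)
      (by linarith) n0
    have e1 : ((pB : ℝ) - (2 * cap : ℕ) * n0) / 400 - ((pA : ℝ) - (2 * cap : ℕ) * n0) / 400 = ((pB : ℝ) - pA) / 400 := by ring
    have e2 : ((pB : ℝ) - (2 * cap : ℕ) * n0) / 400 - ((S : ℝ) - (2 * cap : ℕ) * n0) / 400 = ((pB : ℝ) - S) / 400 := by ring
    have e3 : ((S : ℝ) - (2 * cap : ℕ) * n0) / 400 - ((pA : ℝ) - (2 * cap : ℕ) * n0) / 400 = ((S : ℝ) - pA) / 400 := by ring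
    rw [e1, e2, e3] at hch
    generalize dg (tabs.getD (jx ba bb bc) (0, 0)).1 iA = FA at h2 fA
    generalize dg (tabs.getD (jx ba bb bc) (0, 0)).1 iB = FB at h2 fB
    generalize D4 ((cap : ℝ) / 200) n0 (ed ((u0 : ℝ) / 400) ((u1 : ℝ) / 400) ba) (ed ((v0 : ℝ) / 400) ((v1 : ℝ) / 400) bb)
      (ed ((w0 : ℝ) / 400) ((w1 : ℝ) / 400) bc) (((pA : ℝ) - (2 * cap : ℕ) * n0) / 400) = DA at fA hch
    generalize D4 ((cap : ℝ) / 200) n0 (ed ((u0 : ℝ) / 400) ((u1 : ℝ) / 400) ba) (ed ((v0 : ℝ) / 400) ((v1 : ℝ) / 400) bb)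
      (ed ((w0 : ℝ) / 400) ((w1 : ℝ) / 400) bc) (((pB : ℝ) - (2 * cap : ℕ) * n0) / 400) = DB at fB hch
    generalize D4 ((cap : ℝ) / 200) n0 (ed ((u0 : ℝ) / 400) ((u1 : ℝ) / 400) ba) (ed ((v0 : ℝ) / 400) ((v1 : ℝ) / 400) bb)
      (ed ((w0 : ℝ) / 400) ((w1 : ℝ) / 400) bc) (((S : ℝ) - (2 * cap : ℕ) * n0) / 400) = DS at hch ⊢
    have e4 : us.getD (jx ba bb bc) 0 + pA = Nat.add (us.getD (jx ba bb bc) 0) pA := rfl
    have e5 : us.getD (jx ba bb bc) 0 + pB = Nat.add (us.getD (jx ba bb bc) 0) pB := rfl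
    rw [e4] at fA
    rw [e5] at fB
    generalize w8d (Nat.add (us.getD (jx ba bb bc) 0) pA) = WA at h2 fA
    generalize w8d (Nat.add (us.getD (jx ba bb bc) 0) pB) = WB at h2 fB
    have h3 : 8 * ((pB - S) * FA + (S - pA) * FB) + 8 * s * d * ((pB - S) + (S - pA))
        ≤ s * ((pB - S) * WA + (S - pA) * WB) := h2
    have h4 : (8 : ℝ) * (((pB : ℝ) - S) * FA + ((S : ℝ) - pA) * FB) + 8 * s * d * (((pB : ℝ) - S) + ((S : ℝ) - pA))
        ≤ s * (((pB : ℝ) - S) * WA + ((S : ℝ) - pA) * WB) := by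
      have := (Nat.cast_le (α := ℝ)).mpr h3
      push_cast [Nat.cast_sub c13, Nat.cast_sub c14] at this
      exact this
    have w1' : 0 ≤ ((pB : ℝ) - S) / 400 := by linarith
    have w2' : 0 ≤ ((S : ℝ) - pA) / 400 := by linarith
    have m1 := mul_le_mul_of_nonneg_left fA w1'
    have m2 := mul_le_mul_of_nonneg_left fB w2'
    have h5 : ((pB : ℝ) - S) / 400 * ((FA : ℝ) / (s * 10 ^ 7) - (WA : ℝ) / 80000000)
        + ((S : ℝ) - pA) / 400 * ((FB : ℝ) / (s * 10 ^ 7) - (WB : ℝ) / 80000000)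
        ≤ -((d : ℝ) / 10 ^ 7) * (((pB : ℝ) - pA) / 400) := by
      have e6 : ((pB : ℝ) - S) / 400 * ((FA : ℝ) / (s * 10 ^ 7) - (WA : ℝ) / 80000000)
          + ((S : ℝ) - pA) / 400 * ((FB : ℝ) / (s * 10 ^ 7) - (WB : ℝ) / 80000000)
          = (8 * (((pB : ℝ) - S) * FA + ((S : ℝ) - pA) * FB) - s * (((pB : ℝ) - S) * WA + ((S : ℝ) - pA) * WB))
            / (32000000000 * s) := by
        field_simp
        ring
      have e7 : -((d : ℝ) / 10 ^ 7) * (((pB : ℝ) - pA) / 400)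
          = -(8 * s * d * (((pB : ℝ) - S) + ((S : ℝ) - pA))) / (32000000000 * s) := by
        field_simp
        ring
      rw [e6, e7]
      exact div_le_div_of_nonneg_right (by linarith) (by positivity)
    have h6 : ((pB : ℝ) - pA) / 400 * DS ≤ ((pB : ℝ) - pA) / 400 * -((d : ℝ) / 10 ^ 7) := by linarith
    exact le_of_mul_le_mul_left h6 (by linarith)
  · -- the nodes
    intro n hn hnQ ba bb bc
    have h1 := hcor ba bb bc
    unfold cor at h1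
    rw [frc_eq] at h1
    obtain ⟨-, h2⟩ := cond_eq_true h1
    have h3 := nds_sound h2 (n - (n0 + 1)) (by
      show n - (n0 + 1) < Q - n0
      omega)
    rw [show n0 + 1 + (n - (n0 + 1)) = n by omega] at h3
    obtain ⟨b1, b2⟩ := hub ba bb bc
    have hcn : 2 * cap * n0 + 2 * cap ≤ 2 * cap * n := by
      calc 2 * cap * n0 + 2 * cap = 2 * cap * (n0 + 1) := by ring
        _ ≤ 2 * cap * n := Nat.mul_le_mul_left _ (by omega)
    have hcn' : 2 * cap * n ≤ 2 * cap * Q := Nat.mul_le_mul_left _ hnQ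
    have hF := row_dig hX ba bb bc 0 n (by omega) (by omega)
    rw [zero_add] at hF
    have hW := w8d_eq (us.getD (jx ba bb bc) 0 + 2 * cap * n) (by omega) (by omega)
    unfold D4
    have e2 : (1 : ℝ) ::ₘ ed ((u0 : ℝ) / 400) ((u1 : ℝ) / 400) ba ::ₘ ed ((v0 : ℝ) / 400) ((v1 : ℝ) / 400) bb
        ::ₘ ed ((w0 : ℝ) / 400) ((w1 : ℝ) / 400) bc ::ₘ (0 : ℝ) ::ₘ Multiset.replicate n ((cap : ℝ) / 200)
        = Multiset.replicate 1 0 + (1 ::ₘ ed ((u0 : ℝ) / 400) ((u1 : ℝ) / 400) ba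
          ::ₘ ed ((v0 : ℝ) / 400) ((v1 : ℝ) / 400) bb ::ₘ ed ((w0 : ℝ) / 400) ((w1 : ℝ) / 400) bc
          ::ₘ (Multiset.replicate 0 ((kp : ℝ) / 200) + Multiset.replicate n ((cap : ℝ) / 200))) := by
      rw [Multiset.replicate_one, Multiset.replicate_zero]
      simp only [← Multiset.singleton_add]
      abel
    have e3 : ed ((u0 : ℝ) / 400) ((u1 : ℝ) / 400) ba + ed ((v0 : ℝ) / 400) ((v1 : ℝ) / 400) bb
        + ed ((w0 : ℝ) / 400) ((w1 : ℝ) / 400) bc + 0 + (n : ℝ) * ((cap : ℝ) / 200)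
        = ((us.getD (jx ba bb bc) 0 + 2 * cap * n : ℕ) : ℝ) / 400 := by
      rw [husum]
      push_cast
      ring
    rw [e2, FM_zero_add, e3, ← hW]
    generalize dg (tabs.getD (jx ba bb bc) (0, 0)).1 (r0 * n) = F at h3 hF
    generalize w8d (us.getD (jx ba bb bc) 0 + 2 * cap * n) = W at h3 ⊢
    have h3 : 8 * F + 8 * s * d ≤ s * W := h3
    have h4 : (8 : ℝ) * F + 8 * s * d ≤ s * W := by exact_mod_cast h3
    have e6 : (F : ℝ) / (s * 10 ^ 7) - (W : ℝ) / 80000000 = (8 * F - s * W) / (80000000 * s) := by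
      field_simp
      ring
    have e7 : -((d : ℝ) / 10 ^ 7) = -(8 * s * d) / (80000000 * s) := by
      field_simp
      ring
    have h5 : (F : ℝ) / (s * 10 ^ 7) - (W : ℝ) / 80000000 ≤ -((d : ℝ) / 10 ^ 7) := by
      rw [e6, e7]
      exact div_le_div_of_nonneg_right (by linarith) (by positivity)
    linarith
  · have : (k0 : ℝ) ≤ 750 := by exact_mod_cast hk0
    linarith
  · have : (u1 : ℝ) + v1 + w1 + S ≤ 8 * k0 := by exact_mod_cast c6
    linarith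
  · have : (u1 : ℝ) + v1 + w1 + 1 ≤ 8 * k0 := by exact_mod_cast c7
    linarith
  · have : (120 : ℝ) ≤ u0 + v0 + w0 + pA := by exact_mod_cast c16
    linarith
  · have : (8 : ℝ) * k0 + 2 * cap ≤ u0 + v0 + w0 + 2 * cap * Q := by exact_mod_cast c8
    linarith
  · have : ((fln (2 * cap) u0 u1 : ℝ) + fln (2 * cap) v0 v1 + fln (2 * cap) w0 w1) ≤ 4 * a := by exact_mod_cast c10
    rw [← fln_eq, ← fln_eq, ← fln_eq]
    linarith
  · intro hp
    rw [hp, cond_true] at c12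
    have c12 : 8 * (5000000 + d) ≤ w8d (u0 + v0 + w0 + S) := Nat.le_of_ble_eq_true c12
    have hW := w8d_eq (u0 + v0 + w0 + S) (by omega) (by omega)
    have e1 : (u0 : ℝ) / 400 + (v0 : ℝ) / 400 + (w0 : ℝ) / 400 + (S : ℝ) / 400 = ((u0 + v0 + w0 + S : ℕ) : ℝ) / 400 := by
      push_cast
      ring
    rw [e1, ← hW]
    have c12R : (8 : ℝ) * (5000000 + d) ≤ w8d (u0 + v0 + w0 + S) := by exact_mod_cast c12
    rw [le_div_iff₀ (by norm_num)]
    linarith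

/-! ### the sums of the special entries -/

/-- three special entries, index `ix` -/
def us8 (u0 u1 v0 v1 w0 w1 : ℕ) : List ℕ :=
  [Nat.add (Nat.add u0 v0) w0, Nat.add (Nat.add u1 v0) w0, Nat.add (Nat.add u0 v1) w0, Nat.add (Nat.add u1 v1) w0,
    Nat.add (Nat.add u0 v0) w1, Nat.add (Nat.add u1 v0) w1, Nat.add (Nat.add u0 v1) w1, Nat.add (Nat.add u1 v1) w1]

/-- two special entries, index `ix ba bb false` -/
def us4 (u0 u1 v0 v1 : ℕ) : List ℕ := [Nat.add u0 v0, Nat.add u1 v0, Nat.add u0 v1, Nat.add u1 v1]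

lemma us8_eq (u0 u1 v0 v1 w0 w1 : ℕ) (ba bb bc : Bool) :
    (us8 u0 u1 v0 v1 w0 w1).getD (ix ba bb bc) 0 = eN u0 u1 ba + eN v0 v1 bb + eN w0 w1 bc := by
  cases ba <;> cases bb <;> cases bc <;> rfl

lemma us4_eq (u0 u1 v0 v1 : ℕ) (ba bb bc : Bool) :
    (us4 u0 u1 v0 v1).getD (ix ba bb false) 0 = eN u0 u1 ba + eN v0 v1 bb + eN 0 0 bc := by
  cases ba <;> cases bb <;> cases bc <;> rfl

/-- from the unit `1 / 400` to the statement of case C -/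
theorem StarR.ok {cap S d : ℕ} {pay : Bool} {a0 a1 y0 y1 z0 z1 : ℝ}
    (h : StarR ((cap : ℝ) / 200) (((2 * S : ℕ) : ℝ) / 400) ((d : ℝ) / 10 ^ 7) pay a0 a1 y0 y1 z0 z1) :
    C1.StarOK cap S d pay a0 a1 y0 y1 z0 z1 := by
  intro a y z M h1 h2 h3 h4 h5 h6 hM hS
  refine h a y z M h1 h2 h3 h4 h5 h6 hM (le_trans (le_of_eq ?_) hS)
  push_cast
  ring

/-! ### the tables at the corners -/

theorem FX.of_tb {rd ks : List ℕ} {s bd : ℕ} {a0 a1 y0 y1 z0 z1 : ℝ} {jx : Bool → Bool → Bool → ℕ}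
    {tabs : List (ℕ × ℕ)} (h1 : ∀ ba bb bc, jx ba bb bc < tabs.length)
    (h2 : ∀ ba bb bc : Bool, Tb rd ks s bd (Sp (ed a0 a1 ba) (ed y0 y1 bb) (ed z0 z1 bc))
      (tabs.getD (jx ba bb bc) (0, 0)).1 (tabs.getD (jx ba bb bc) (0, 0)).2) :
    FX rd ks s a0 a1 y0 y1 z0 z1 jx tabs := ⟨h1, fun ba bb bc i hi => (h2 ba bb bc).hF i hi⟩

/-- eight tables -/
theorem FX.of8 {rd ks : List ℕ} {s bd : ℕ} {a0 a1 y0 y1 z0 z1 : ℝ} {tabs : List (ℕ × ℕ)}
    (h : G8 rd ks s bd a0 a1 y0 y1 z0 z1 tabs) : FX rd ks s a0 a1 y0 y1 z0 z1 ix tabs := by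
  refine FX.of_tb (fun ba bb bc => ?_) h.2
  rw [h.1]
  cases ba <;> cases bb <;> cases bc <;> decide

/-- four tables, the third special entry is `0` -/
theorem FX.of4 {rd ks : List ℕ} {s bd : ℕ} {a0 a1 y0 y1 : ℝ} {tabs : List (ℕ × ℕ)}
    (h : G4 rd ks s bd a0 a1 y0 y1 tabs) : FX rd ks s a0 a1 y0 y1 (((0 : ℕ) : ℝ) / 400) (((0 : ℕ) : ℝ) / 400)
      (fun ba bb _ => ix ba bb false) tabs := by
  refine ⟨fun ba bb bc => ?_, fun ba bb bc i hi => ?_⟩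
  · rw [h.1]
    cases ba <;> cases bb <;> decide
  · have e0 : ed (((0 : ℕ) : ℝ) / 400) (((0 : ℕ) : ℝ) / 400) bc = 0 := by cases bc <;> simp [ed]
    rw [e0]
    refine le_trans (le_of_eq ?_) ((h.2 ba bb).hF i hi)
    have e : (1 : ℝ) ::ₘ (Sp (ed a0 a1 ba) (ed y0 y1 bb) 0 + Ent.mk (CA.dig rd i) (kR ks))
        = Multiset.replicate 1 0 + (1 ::ₘ (Sq (ed a0 a1 ba) (ed y0 y1 bb) + Ent.mk (CA.dig rd i) (kR ks))) := by
      unfold Sp Sq
      rw [Multiset.replicate_one]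
      simp only [← Multiset.singleton_add]
      abel
    rw [e, FM_zero_add]

end SStar
end Pool.Agent.Lib.MP_6947cd_al
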