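import Pool.Agent.Lib.MP_6947cd_al.C.SStar

/-!
Problem MP_6947cd_al (Chollet).  ZONE 2 of a row: sums of the rests between two values, the rests are concentrated
(copies of the largest entry and one entry), the row functional is convex between the nodes.  THE REST OF THE ROW `i`
IS SMALL: heavy rows with the special entries `(h, t, s)`.
-/

set_option autoImplicit false
open Finset

namespace Pool.Agent.Lib.MP_6947cd_al
namespace SStar

open Ent Ent.Pk Fr Fr.WT CC PkA B1 B2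

/-! ### the real part -/

/-- a convex function on `[0, κ]` is bounded by its values at two points -/
lemma conv_between {κ C : ℝ} {g : ℝ → ℝ} (hg : ConvexOn ℝ (Set.Icc 0 κ) g) {xL xR x : ℝ} (h0 : 0 ≤ xL) (h1 : xR ≤ κ)
    (hL : g xL ≤ C) (hR : g xR ≤ C) (hx : xL ≤ x) (hx' : x ≤ xR) : g x ≤ C := by
  have h2 : ConvexOn ℝ (Set.Icc xL xR) g := hg.subset (Set.Icc_subset_Icc h0 h1) (convex_Icc _ _)
  exact CC.ends h2 hx hx' hL hR

/-- pieces: `g n` on `[0, κ]`, `g n κ = g (n + 1) 0` -/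
theorem pieces {κ C : ℝ} (hκ : 0 < κ) {g : ℕ → ℝ → ℝ} (hg : ∀ n, ConvexOn ℝ (Set.Icc 0 κ) (g n))
    (hgl : ∀ n, g n κ = g (n + 1) 0) {n0 n1 : ℕ} {xL xR : ℝ} (hL0 : 0 ≤ xL) (hR1 : xR ≤ κ)
    (hL : g n0 xL ≤ C) (hR : g n1 xR ≤ C) (hN : ∀ n, n0 < n → n ≤ n1 → g n 0 ≤ C) {n : ℕ} {x : ℝ} (hx0 : 0 ≤ x)
    (hx1 : x < κ) (h1 : n0 * κ + xL ≤ n * κ + x) (h2 : n * κ + x ≤ n1 * κ + xR) : g n x ≤ C := by
  have hn0 : n0 ≤ n := by
    by_contra hcon
    push Not at hcon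
    have : (n : ℝ) + 1 ≤ n0 := by exact_mod_cast hcon
    nlinarith
  have hn1 : n ≤ n1 + 1 := by
    by_contra hcon
    push Not at hcon
    have : (n1 : ℝ) + 1 + 1 ≤ n := by exact_mod_cast hcon
    nlinarith
  rcases Nat.lt_or_ge n n1 with hn | hn
  · -- the upper end is a node
    have hup : g n κ ≤ C := by
      rw [hgl]
      exact hN (n + 1) (by omega) (by omega)
    rcases Nat.lt_or_ge n0 n with h3 | h3
    · exact conv_between (hg n) le_rfl le_rfl (hN n h3 (by omega)) hup hx0 hx1.le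
    · have e : n = n0 := le_antisymm h3 hn0
      subst e
      exact conv_between (hg n) hL0 le_rfl hL hup (by linarith) hx1.le
  · rcases Nat.lt_or_ge n1 n with h4 | h4
    · have e : n = n1 + 1 := by omega
      subst e
      push_cast at h2
      have hx : x = 0 := by nlinarith
      have hxR : xR = κ := by nlinarith
      rw [hx, ← hgl, ← hxR]
      exact hR
    · have e : n = n1 := le_antisymm h4 hn
      subst e
      rcases Nat.lt_or_ge n0 n with h3 | h3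
      · exact conv_between (hg n) le_rfl hR1 (hN n h3 le_rfl) hR hx0 (by linarith)
      · have e : n = n0 := le_antisymm h3 hn0
        subst e
        exact conv_between (hg n) hL0 hR1 hL hR (by linarith) (by linarith)

/-- the row functional with a linear bound of the omitted entries -/
noncomputable def Z4 (κ A β Cz v a y z : ℝ) (n : ℕ) (x : ℝ) : ℝ :=
  (A + β) * max (FM (1 ::ₘ a ::ₘ y ::ₘ z ::ₘ x ::ₘ Multiset.replicate n κ)) v
    - β * WD.Wd (a + y + z + (n * κ + x)) + Cz * (n * κ + x)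

lemma Z4_conv {κ A β Cz v a y z : ℝ} (hκ0 : 0 ≤ κ) (hκ1 : κ ≤ 1) (hA : 0 ≤ A) (hβ : 0 ≤ β) (ha : 0 ≤ a ∧ a ≤ 1)
    (hy : 0 ≤ y ∧ y ≤ 1) (hz : 0 ≤ z ∧ z ≤ 1) (n : ℕ) : ConvexOn ℝ (Set.Icc 0 κ) (Z4 κ A β Cz v a y z n) := by
  have h1 := (FM_convexOn (1 ::ₘ a ::ₘ y ::ₘ z ::ₘ Multiset.replicate n κ) (by simp) (by
    intro e he
    simp only [Multiset.mem_cons] at he
    rcases he with rfl | rfl | rfl | rfl | he
    · exact ⟨zero_le_one, le_rfl⟩
    · exact ha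
    · exact hy
    · exact hz
    · rw [Multiset.eq_of_mem_replicate he]
      exact ⟨hκ0, hκ1⟩)).subset (Set.Icc_subset_Icc (le_refl (0 : ℝ)) hκ1) (convex_Icc _ _)
  have h2 : ConvexOn ℝ (Set.Icc 0 κ) fun _ : ℝ => v := convexOn_const v (convex_Icc _ _)
  have h3 := (h1.sup h2).smul (show 0 ≤ A + β by linarith)
  have h4 : ConvexOn ℝ (Set.Icc 0 κ) fun x => -WD.Wd (a + y + z + (n * κ + x)) := by
    refine ⟨convex_Icc _ _, fun p _ q _ s t hs ht hst => ?_⟩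
    have h5 := WD.Wd_concave.2 (Set.mem_univ (a + y + z + (n * κ + p))) (Set.mem_univ (a + y + z + (n * κ + q))) hs ht hst
    simp only [smul_eq_mul] at h5 ⊢
    have e : s * (a + y + z + (n * κ + p)) + t * (a + y + z + (n * κ + q))
        = a + y + z + (n * κ + (s * p + t * q)) := by
      calc _ = (s + t) * (a + y + z + n * κ) + (s * p + t * q) := by ring
        _ = _ := by rw [hst]; ring
    rw [e] at h5
    linarith
  have h6 := h4.smul hβ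
  have h7 : ConvexOn ℝ (Set.Icc 0 κ) fun x => Cz * (n * κ + x) := by
    refine ⟨convex_Icc _ _, fun p _ q _ s t _ _ hst => le_of_eq ?_⟩
    simp only [smul_eq_mul]
    calc _ = Cz * (1 * (n * κ) + (s * p + t * q)) := by ring
      _ = _ := by rw [← hst]; ring
  refine ((h3.add h6).add h7).congr fun x _ => ?_
  simp only [Pi.add_apply, Pi.smul_apply, smul_eq_mul, Pi.sup_apply]
  unfold Z4
  have e : x ::ₘ 1 ::ₘ a ::ₘ y ::ₘ z ::ₘ Multiset.replicate n κ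
      = 1 ::ₘ a ::ₘ y ::ₘ z ::ₘ x ::ₘ Multiset.replicate n κ := by
    simp only [← Multiset.singleton_add]
    abel
  rw [e]
  ring

lemma Z4_full (κ A β Cz v a y z : ℝ) (n : ℕ) : Z4 κ A β Cz v a y z n κ = Z4 κ A β Cz v a y z (n + 1) 0 := by
  unfold Z4
  have e1 : (1 : ℝ) ::ₘ a ::ₘ y ::ₘ z ::ₘ κ ::ₘ Multiset.replicate n κ
      = 1 ::ₘ a ::ₘ y ::ₘ z ::ₘ Multiset.replicate (n + 1) κ := by
    rw [Multiset.replicate_succ]
  have e2 : (1 : ℝ) ::ₘ a ::ₘ y ::ₘ z ::ₘ (0 : ℝ) ::ₘ Multiset.replicate (n + 1) κ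
      = Multiset.replicate 1 0 + (1 ::ₘ a ::ₘ y ::ₘ z ::ₘ Multiset.replicate (n + 1) κ) := by
    rw [Multiset.replicate_one]
    simp only [← Multiset.singleton_add]
    abel
  rw [e1, e2, FM_zero_add]
  have e3 : (n : ℝ) * κ + κ = ((n + 1 : ℕ) : ℝ) * κ + 0 := by
    push_cast
    ring
  rw [e3]

/-- the chord -/
lemma chord_of {κ : ℝ} {g : ℝ → ℝ} (hg : ConvexOn ℝ (Set.Icc 0 κ) g) {xA xB x : ℝ} (hA : 0 ≤ xA) (hB : xB ≤ κ)
    (h0 : xA ≤ x) (h1 : x ≤ xB) : (xB - xA) * g x ≤ (xB - x) * g xA + (x - xA) * g xB := by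
  rcases eq_or_lt_of_le (h0.trans h1) with hAB | hAB
  · have e1 : x = xA := le_antisymm (h1.trans hAB.symm.le) h0
    have e2 : xB = xA := hAB.symm
    rw [e1, e2]
    linarith
  have hlt : 0 < xB - xA := by linarith
  have h4 := hg.2 (show xA ∈ Set.Icc 0 κ from ⟨hA, hAB.le.trans hB⟩) (show xB ∈ Set.Icc 0 κ from ⟨hA.trans hAB.le, hB⟩)
    (div_nonneg (show 0 ≤ xB - x by linarith) hlt.le) (div_nonneg (show 0 ≤ x - xA by linarith) hlt.le)
    (by rw [← add_div, div_eq_one_iff_eq hlt.ne']; ring)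
  simp only [smul_eq_mul] at h4
  have e2 : (xB - x) / (xB - xA) * xA + (x - xA) / (xB - xA) * xB = x := by
    field_simp
    ring
  rw [e2] at h4
  have h5 := mul_le_mul_of_nonneg_left h4 hlt.le
  refine h5.trans (le_of_eq ?_)
  field_simp

/-- concentration of the rests -/
theorem conc {κ : ℝ} (hκ0 : 0 < κ) (hκ1 : κ ≤ 1) {a y z : ℝ} (ha : 0 ≤ a ∧ a ≤ 1) (hy : 0 ≤ y ∧ y ≤ 1)
    (hz : 0 ≤ z ∧ z ≤ 1) {M : Multiset ℝ} (hM : ∀ e ∈ M, 0 ≤ e ∧ e ≤ κ) :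
    ∃ (n : ℕ) (x : ℝ), 0 ≤ x ∧ x < κ ∧ n * κ + x = M.sum ∧
      FM (1 ::ₘ a ::ₘ y ::ₘ z ::ₘ M) ≤ FM (1 ::ₘ a ::ₘ y ::ₘ z ::ₘ x ::ₘ Multiset.replicate n κ) := by
  obtain ⟨m, n, r, p1, p2, -, p4, p5⟩ := piece 0 κ le_rfl hκ0 hκ1 M (1 ::ₘ a ::ₘ y ::ₘ z ::ₘ 0) (by simp) (by
    intro e he
    simp only [Multiset.mem_cons, Multiset.notMem_zero, or_false] at he
    rcases he with rfl | rfl | rfl | rfl
    · exact ⟨zero_le_one, le_rfl⟩
    · exact ha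
    · exact hy
    · exact hz) hM
  rw [mul_zero, zero_add] at p4
  have e0 : ∀ N : Multiset ℝ, (1 ::ₘ a ::ₘ y ::ₘ z ::ₘ 0) + N = (1 : ℝ) ::ₘ a ::ₘ y ::ₘ z ::ₘ N := by
    intro N
    simp only [Multiset.cons_add, zero_add]
  rw [e0, e0] at p5
  rcases Nat.lt_or_ge 0 r.card with hr | hr
  · obtain ⟨x, rfl⟩ := Multiset.card_eq_one.mp (le_antisymm p1 hr)
    have hx := p2 x (Multiset.mem_singleton_self x)
    rw [Multiset.sum_singleton] at p4
    refine ⟨n, x, hx.1.le, hx.2, p4, p5.trans (le_of_eq ?_)⟩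
    have e1 : (1 : ℝ) ::ₘ a ::ₘ y ::ₘ z ::ₘ (Multiset.replicate m 0 + Multiset.replicate n κ + {x})
        = Multiset.replicate m 0 + (1 ::ₘ a ::ₘ y ::ₘ z ::ₘ x ::ₘ Multiset.replicate n κ) := by
      simp only [← Multiset.singleton_add]
      abel
    rw [e1, FM_zero_add]
  · have hr0 : r = 0 := Multiset.card_eq_zero.mp (Nat.le_zero.mp hr)
    subst hr0
    rw [Multiset.sum_zero] at p4
    refine ⟨n, 0, le_rfl, hκ0, p4, p5.trans (le_of_eq ?_)⟩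
    have e1 : (1 : ℝ) ::ₘ a ::ₘ y ::ₘ z ::ₘ (Multiset.replicate m 0 + Multiset.replicate n κ + 0)
        = Multiset.replicate m 0 + (1 ::ₘ a ::ₘ y ::ₘ z ::ₘ Multiset.replicate n κ) := by
      simp only [← Multiset.singleton_add]
      abel
    have e2 : (1 : ℝ) ::ₘ a ::ₘ y ::ₘ z ::ₘ (0 : ℝ) ::ₘ Multiset.replicate n κ
        = Multiset.replicate 1 0 + (1 ::ₘ a ::ₘ y ::ₘ z ::ₘ Multiset.replicate n κ) := by
      rw [Multiset.replicate_one]
      simp only [← Multiset.singleton_add]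
      abel
    rw [e1, e2, FM_zero_add, FM_zero_add]

/-- zone 2, general form -/
def ZoneR (κ S1 S A β Cz v a0 a1 y0 y1 z0 z1 : ℝ) (r : Bool → Bool → Bool → ℝ) : Prop :=
  ∀ N : Multiset ℝ, (∀ e ∈ N, 0 ≤ e ∧ e ≤ κ) → S1 ≤ N.sum → N.sum ≤ S → ∀ ba bb bc : Bool,
    (A + β) * max (FM (1 ::ₘ ed a0 a1 ba ::ₘ ed y0 y1 bb ::ₘ ed z0 z1 bc ::ₘ N)) v
      - β * WD.Wd (ed a0 a1 ba + ed y0 y1 bb + ed z0 z1 bc + N.sum) + Cz * N.sum ≤ r ba bb bc

/-- **ZONE 2, real form.** -/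
theorem zone_real {κ : ℝ} (hκ0 : 0 < κ) (hκ1 : κ ≤ 1) {a0 a1 y0 y1 z0 z1 A β Cz v S1 S xL xR : ℝ}
    {r : Bool → Bool → Bool → ℝ} (hB : Bx a0 a1 y0 y1 z0 z1) (hA : 0 ≤ A) (hβ : 0 ≤ β) {n0 n1 : ℕ}
    (hL0 : 0 ≤ xL) (hR1 : xR ≤ κ) (e1 : S1 = n0 * κ + xL) (e2 : S = n1 * κ + xR)
    (hL : ∀ ba bb bc : Bool, Z4 κ A β Cz v (ed a0 a1 ba) (ed y0 y1 bb) (ed z0 z1 bc) n0 xL ≤ r ba bb bc)
    (hR : ∀ ba bb bc : Bool, Z4 κ A β Cz v (ed a0 a1 ba) (ed y0 y1 bb) (ed z0 z1 bc) n1 xR ≤ r ba bb bc)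
    (hN : ∀ n, n0 < n → n ≤ n1 → ∀ ba bb bc : Bool,
      Z4 κ A β Cz v (ed a0 a1 ba) (ed y0 y1 bb) (ed z0 z1 bc) n 0 ≤ r ba bb bc) :
    ZoneR κ S1 S A β Cz v a0 a1 y0 y1 z0 z1 r := by
  intro N hM h1 h2 ba bb bc
  have key : ∀ {a b : ℝ}, 0 ≤ a → a ≤ b → b ≤ 1 → ∀ q : Bool, 0 ≤ ed a b q ∧ ed a b q ≤ 1 := by
    intro a b h0 h1 h2 q
    cases q
    · exact ⟨h0, h1.trans h2⟩
    · exact ⟨h0.trans h1, h2⟩
  have ga := key hB.la hB.ma hB.ua ba
  have gy := key hB.ly hB.my hB.uy bb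
  have gz := key hB.lz hB.mz hB.uz bc
  obtain ⟨n, x, hx0, hx1, hs, hF⟩ := conc hκ0 hκ1 ga gy gz hM
  have h3 := pieces (g := Z4 κ A β Cz v (ed a0 a1 ba) (ed y0 y1 bb) (ed z0 z1 bc)) hκ0
    (fun n => Z4_conv hκ0.le hκ1 hA hβ ga gy gz n) (fun n => Z4_full κ A β Cz v _ _ _ n) hL0 hR1 (hL ba bb bc)
    (hR ba bb bc) (fun n p q => hN n p q ba bb bc) hx0 hx1 (by rw [← e1, hs]; exact h1) (by rw [← e2, hs]; exact h2)
  unfold Z4 at h3
  rw [hs] at h3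
  refine le_trans ?_ h3
  have h4 := mul_le_mul_of_nonneg_left (max_le_max hF (le_refl v)) (show 0 ≤ A + β by linarith)
  linarith

/-! ### the check -/

/-- the left side at a digit: `8 (A + β) max (F, s v) + s C p` -/
noncomputable def zL (ab8 sv sC T i p : ℕ) : ℕ :=
  frc (dg T i) fun F => Nat.add (Nat.mul ab8 (cond (Nat.ble F sv) sv F)) (Nat.mul sC p)

/-- the right side: `s (β W + 2 R)` -/
noncomputable def zR (s β R2 u p : ℕ) : ℕ := Nat.mul s (Nat.add (Nat.mul β (w8d (Nat.add u p))) R2)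

/-- a chord -/
noncomputable def zch (ab8 sv sC s β iA iB wA wB pA pB T u R2 : ℕ) : Bool :=
  Nat.ble (Nat.add (Nat.mul wA (zL ab8 sv sC T iA pA)) (Nat.mul wB (zL ab8 sv sC T iB pB)))
    (Nat.add (Nat.mul wA (zR s β R2 u pA)) (Nat.mul wB (zR s β R2 u pB)))

/-- the nodes `n0 + 1`, .., `n0 + N` -/
noncomputable def znd (r0 c2 n0 ab8 sv sC s β T u R2 : ℕ) (N : ℕ) : Bool :=
  @Nat.rec (fun _ => Bool) true (fun k ih => cond (frc (Nat.succ (Nat.add n0 k)) fun n => frc (Nat.mul c2 n) fun p =>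
    Nat.ble (zL ab8 sv sC T (Nat.mul r0 n) p) (zR s β R2 u p)) ih false) N

/-- three lists -/
noncomputable def evz (f : ℕ → ℕ → ℕ → Bool) (tabs : List (ℕ × ℕ)) : List ℕ → List ℕ → Bool :=
  @List.rec (ℕ × ℕ) (fun _ => List ℕ → List ℕ → Bool) (fun _ _ => true)
    (fun t _ ih us rs => @List.rec ℕ (fun _ => Bool) false (fun u us' _ => @List.rec ℕ (fun _ => Bool) false
      (fun r rs' _ => cond (f t.1 u r) (ih us' rs') false) rs) us) tabs

/-- THE CHECK OF ZONE 2.  Table as in `starK`; `n0`, `md` the piece of `S1`, `n1`, `me` the piece of `S` (unit of `S1`,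
`S`: `1 / 400`); `A`, `β` weights, `C` slope (`C / 200000`), `v` the constant alternative (unit `1e-7`); `rs` the
bounds at the corners (unit `1 / 40000000`). -/
noncomputable def zoneK (r0 r1 kp cap n0 md n1 me S1 S A β C v : ℕ) (u0 u1 v0 v1 w0 w1 : ℕ) (us rs : List ℕ)
    (s : ℕ) (tabs : List (ℕ × ℕ)) : Bool :=
  frc (Nat.mul (nat_lit 2) cap) fun c2 => frc (Nat.add (Nat.add u0 v0) w0) fun lo =>
  frc (Nat.add (Nat.add u1 v1) w1) fun hi =>
  cond (Nat.ble (nat_lit 1) cap) (cond (Nat.ble cap (nat_lit 200)) (cond (Nat.ble kp cap)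
  (cond (Nat.ble n0 n1) (cond (Nat.ble (Nat.add n1 (nat_lit 2)) r1)
  (cond (Nat.ble (nat_lit 120) (Nat.add lo (Nat.mul c2 n0)))
  (cond (Nat.ble (Nat.add hi (Nat.mul c2 (Nat.succ n1))) (nat_lit 6399))
  (stg r0 kp c2 n0 md fun iA iB pA pB => stg r0 kp c2 n1 me fun jA jB qA qB =>
    cond (Nat.ble pA S1) (cond (Nat.ble S1 pB) (cond (Nat.ble (Nat.succ pA) pB)
    (cond (Nat.ble qA S) (cond (Nat.ble S qB) (cond (Nat.ble (Nat.succ qA) qB)
    (frc (Nat.sub pB S1) fun wA => frc (Nat.sub S1 pA) fun wB => frc (Nat.sub qB S) fun xA =>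
      frc (Nat.sub S qA) fun xB => frc (Nat.mul (nat_lit 8) (Nat.add A β)) fun ab8 => frc (Nat.mul s v) fun sv =>
      frc (Nat.mul s C) fun sC => frc (Nat.sub n1 n0) fun N =>
      evz (fun T u R => frc T fun T => frc (Nat.mul (nat_lit 2) R) fun R2 =>
        cond (zch ab8 sv sC s β iA iB wA wB pA pB T u R2) (cond (zch ab8 sv sC s β jA jB xA xB qA qB T u R2)
          (znd r0 c2 n0 ab8 sv sC s β T u R2 N) false) false) tabs us rs) false) false) false) false) false) false)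
  false) false) false) false) false) false) false

lemma evz_sound {f : ℕ → ℕ → ℕ → Bool} : ∀ {tabs : List (ℕ × ℕ)} {us rs : List ℕ}, evz f tabs us rs = true →
    ∀ q < tabs.length, f (tabs.getD q (0, 0)).1 (us.getD q 0) (rs.getD q 0) = true := by
  intro tabs
  induction tabs with
  | nil => intro us rs _ q hq; exact absurd hq (Nat.not_lt_zero q)
  | cons t tabs ih =>
    intro us rs h q hq
    cases us with
    | nil =>
      have h' : false = true := h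
      exact absurd h' (by decide)
    | cons u us =>
      cases rs with
      | nil =>
        have h' : false = true := h
        exact absurd h' (by decide)
      | cons r rs =>
        have h' : cond (f t.1 u r) (evz f tabs us rs) false = true := h
        obtain ⟨h1, h2⟩ := cond_eq_true h'
        cases q with
        | zero => simpa using h1
        | succ q =>
          have := ih h2 q (by simpa using hq)
          simpa using this

lemma znd_sound {r0 c2 n0 ab8 sv sC s β T u R2 : ℕ} : ∀ {N : ℕ}, znd r0 c2 n0 ab8 sv sC s β T u R2 N = true →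
    ∀ k < N, zL ab8 sv sC T (r0 * (n0 + 1 + k)) (c2 * (n0 + 1 + k)) ≤ zR s β R2 u (c2 * (n0 + 1 + k)) := by
  intro N
  induction N with
  | zero => intro _ k hk; exact absurd hk (Nat.not_lt_zero k)
  | succ N ih =>
    intro h k hk
    have h' : cond (frc (Nat.succ (Nat.add n0 N)) fun n => frc (Nat.mul c2 n) fun p =>
      Nat.ble (zL ab8 sv sC T (Nat.mul r0 n) p) (zR s β R2 u p)) (znd r0 c2 n0 ab8 sv sC s β T u R2 N) false = true := h
    obtain ⟨h1, h2⟩ := cond_eq_true h'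
    rcases Nat.lt_succ_iff_lt_or_eq.mp hk with hk | rfl
    · exact ih h2 k hk
    · rw [frc_eq, frc_eq] at h1
      have h3 := Nat.le_of_ble_eq_true h1
      have e : n0 + 1 + k = Nat.succ (Nat.add n0 k) := by
        show n0 + 1 + k = n0 + k + 1
        omega
      rw [e]
      exact h3

lemma zL_eq (ab8 sv sC T i p : ℕ) : zL ab8 sv sC T i p = ab8 * max (dg T i) sv + sC * p := by
  unfold zL
  rw [frc_eq]
  show ab8 * (cond (Nat.ble (dg T i) sv) sv (dg T i)) + sC * p = _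
  congr 2
  cases h : Nat.ble (dg T i) sv with
  | true =>
    have h1 : dg T i ≤ sv := Nat.le_of_ble_eq_true h
    rw [cond_true, max_eq_right h1]
  | false =>
    have h1 : sv ≤ dg T i := by
      by_contra hcon
      push Not at hcon
      rw [Nat.ble_eq_true_of_le hcon.le] at h
      exact absurd h (by decide)
    rw [cond_false, max_eq_left h1]

/-- a value of the functional from the digits -/
lemma Z4_le {κ A β C v a y z x : ℝ} {n s F W p : ℕ} (hs : 0 < s) (hA : 0 ≤ A) (hβ : 0 ≤ β)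
    (hF : FM (1 ::ₘ a ::ₘ y ::ₘ z ::ₘ x ::ₘ Multiset.replicate n κ) ≤ (F : ℝ) / (s * 10 ^ 7))
    (hW : (W : ℝ) / 80000000 = WD.Wd (a + y + z + (n * κ + x))) (hp : n * κ + x = (p : ℝ) / 400) :
    Z4 κ A β (C / 200000) (v / 10 ^ 7) a y z n x
      ≤ (8 * (A + β) * max (F : ℝ) (s * v) + s * C * p - s * (β * W)) / (80000000 * s) := by
  have hsR : (0 : ℝ) < s := by exact_mod_cast hs
  unfold Z4
  rw [← hW, hp]
  have h1 : max (FM (1 ::ₘ a ::ₘ y ::ₘ z ::ₘ x ::ₘ Multiset.replicate n κ)) (v / 10 ^ 7)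
      ≤ max (F : ℝ) (s * v) / (s * 10 ^ 7) := by
    refine max_le (hF.trans ?_) ?_
    · exact div_le_div_of_nonneg_right (le_max_left _ _) (by positivity)
    · have e : v / 10 ^ 7 = s * v / (s * 10 ^ 7) := by field_simp
      rw [e]
      exact div_le_div_of_nonneg_right (le_max_right _ _) (by positivity)
  have h2 := mul_le_mul_of_nonneg_left h1 (show 0 ≤ A + β by linarith)
  have e : (A + β) * (max (F : ℝ) (s * v) / (s * 10 ^ 7)) - β * ((W : ℝ) / 80000000) + C / 200000 * ((p : ℝ) / 400)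
      = (8 * (A + β) * max (F : ℝ) (s * v) + s * C * p - s * (β * W)) / (80000000 * s) := by
    field_simp
    ring
  linarith

/-- the row bound at an end point -/
lemma pt_F {r0 r1 kp cap s n0 i p : ℕ} {a0 a1 y0 y1 z0 z1 : ℝ} {jx : Bool → Bool → Bool → ℕ}
    {tabs : List (ℕ × ℕ)} (h : FX [r0, r1] [kp, cap] s a0 a1 y0 y1 z0 z1 jx tabs) (ba bb bc : Bool)
    (hp : Pt r0 kp (2 * cap) n0 i p) (hn : n0 + 1 < r1) :
    FM (1 ::ₘ ed a0 a1 ba ::ₘ ed y0 y1 bb ::ₘ ed z0 z1 bc ::ₘ ((((p : ℝ) - (2 * cap : ℕ) * n0) / 400))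
      ::ₘ Multiset.replicate n0 ((cap : ℝ) / 200))
      ≤ (dg (tabs.getD (jx ba bb bc) (0, 0)).1 i : ℝ) / (s * 10 ^ 7) := by
  rcases hp with ⟨r, rfl, rfl⟩ | ⟨r, rfl, rfl⟩ | ⟨r, rfl, rfl⟩
  · have hF := row_dig h ba bb bc 0 n0 r (by omega)
    rw [zero_add] at hF
    have e1 : (((2 * cap * n0 : ℕ) : ℝ) - (2 * cap : ℕ) * n0) / 400 = 0 := by push_cast; ring
    rw [e1]
    have e2 : (1 : ℝ) ::ₘ ed a0 a1 ba ::ₘ ed y0 y1 bb ::ₘ ed z0 z1 bc ::ₘ (0 : ℝ)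
        ::ₘ Multiset.replicate n0 ((cap : ℝ) / 200)
        = Multiset.replicate 1 0 + (1 ::ₘ ed a0 a1 ba ::ₘ ed y0 y1 bb ::ₘ ed z0 z1 bc
          ::ₘ (Multiset.replicate 0 ((kp : ℝ) / 200) + Multiset.replicate n0 ((cap : ℝ) / 200))) := by
      rw [Multiset.replicate_one, Multiset.replicate_zero]
      simp only [← Multiset.singleton_add]
      abel
    rw [e2, FM_zero_add]
    exact hF
  · have hF := row_dig h ba bb bc 1 n0 (by omega) (by omega)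
    have e1 : (((2 * cap * n0 + 2 * kp : ℕ) : ℝ) - (2 * cap : ℕ) * n0) / 400 = (kp : ℝ) / 200 := by
      push_cast; ring
    rw [e1, show r0 * n0 + 1 = 1 + r0 * n0 by ring]
    have e2 : (1 : ℝ) ::ₘ ed a0 a1 ba ::ₘ ed y0 y1 bb ::ₘ ed z0 z1 bc ::ₘ ((kp : ℝ) / 200)
        ::ₘ Multiset.replicate n0 ((cap : ℝ) / 200)
        = (1 ::ₘ ed a0 a1 ba ::ₘ ed y0 y1 bb ::ₘ ed z0 z1 bc
          ::ₘ (Multiset.replicate 1 ((kp : ℝ) / 200) + Multiset.replicate n0 ((cap : ℝ) / 200))) := by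
      rw [Multiset.replicate_one]
      simp only [← Multiset.singleton_add]
    rw [e2]
    exact hF
  · have hF := row_dig h ba bb bc 0 (n0 + 1) r (by omega)
    rw [zero_add] at hF
    have e1 : (((2 * cap * n0 + 2 * cap : ℕ) : ℝ) - (2 * cap : ℕ) * n0) / 400 = (cap : ℝ) / 200 := by
      push_cast; ring
    rw [e1]
    have e2 : (1 : ℝ) ::ₘ ed a0 a1 ba ::ₘ ed y0 y1 bb ::ₘ ed z0 z1 bc ::ₘ ((cap : ℝ) / 200)
        ::ₘ Multiset.replicate n0 ((cap : ℝ) / 200)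
        = (1 ::ₘ ed a0 a1 ba ::ₘ ed y0 y1 bb ::ₘ ed z0 z1 bc
          ::ₘ (Multiset.replicate 0 ((kp : ℝ) / 200) + Multiset.replicate (n0 + 1) ((cap : ℝ) / 200))) := by
      rw [Multiset.replicate_zero, Multiset.replicate_succ]
      simp only [← Multiset.singleton_add]
      abel
    rw [e2]
    exact hF

/-- two values of the functional and the chord check -/
lemma z_chord {κ A β a y z : ℝ} {C v : ℕ} {n s s' iA iB wA wB pA pB T u R S : ℕ} {A' β' : ℕ} (hs : 0 < s)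
    (hA : A = A') (hβ : β = β') (hκ0 : 0 ≤ κ) (hκ1 : κ ≤ 1) (ga : 0 ≤ a ∧ a ≤ 1) (gy : 0 ≤ y ∧ y ≤ 1)
    (gz : 0 ≤ z ∧ z ≤ 1) (hu : a + y + z = (u : ℝ) / 400) (hs' : s' = 8 * (A' + β'))
    (hw1 : wA = pB - S) (hw2 : wB = S - pA) (h1 : pA ≤ S) (h2 : S ≤ pB) (h3 : pA + 1 ≤ pB)
    (q1 : (n : ℝ) * κ ≤ (pA : ℝ) / 400) (q2 : (pB : ℝ) / 400 ≤ n * κ + κ)
    (hFA : FM (1 ::ₘ a ::ₘ y ::ₘ z ::ₘ ((pA : ℝ) / 400 - n * κ) ::ₘ Multiset.replicate n κ) ≤ (dg T iA : ℝ) / (s * 10 ^ 7))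
    (hFB : FM (1 ::ₘ a ::ₘ y ::ₘ z ::ₘ ((pB : ℝ) / 400 - n * κ) ::ₘ Multiset.replicate n κ) ≤ (dg T iB : ℝ) / (s * 10 ^ 7))
    (r1 : 120 ≤ u + pA) (r2 : u + pB ≤ 6399)
    (h : zch s' (s * v) (s * C) s β' iA iB wA wB pA pB T u (2 * R) = true) :
    Z4 κ A β ((C : ℝ) / 200000) ((v : ℝ) / 10 ^ 7) a y z n ((S : ℝ) / 400 - n * κ) ≤ (R : ℝ) / 40000000 := by
  have hsR : (0 : ℝ) < s := by exact_mod_cast hs
  have hA0 : 0 ≤ A := by rw [hA]; positivity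
  have hβ0 : 0 ≤ β := by rw [hβ]; positivity
  have h1R : (pA : ℝ) ≤ S := by exact_mod_cast h1
  have h2R : (S : ℝ) ≤ pB := by exact_mod_cast h2
  have h3R : (pA : ℝ) + 1 ≤ pB := by exact_mod_cast h3
  have hWA := w8d_eq (u + pA) (by omega) (by omega)
  have hWB := w8d_eq (u + pB) (by omega) (by omega)
  have eA : (n : ℝ) * κ + ((pA : ℝ) / 400 - n * κ) = (pA : ℝ) / 400 := by ring
  have eB : (n : ℝ) * κ + ((pB : ℝ) / 400 - n * κ) = (pB : ℝ) / 400 := by ring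
  have vA := Z4_le (C := C) (v := v) (W := w8d (u + pA)) hs hA0 hβ0 hFA (by
    rw [hWA, eA, hu]
    push_cast
    congr 1
    ring) eA
  have vB := Z4_le (C := C) (v := v) (W := w8d (u + pB)) hs hA0 hβ0 hFB (by
    rw [hWB, eB, hu]
    push_cast
    congr 1
    ring) eB
  have hch := chord_of (Z4_conv (A := A) (β := β) (Cz := (C : ℝ) / 200000) (v := (v : ℝ) / 10 ^ 7) hκ0 hκ1 hA0 hβ0 ga gy gz n)
    (xA := (pA : ℝ) / 400 - n * κ) (xB := (pB : ℝ) / 400 - n * κ) (x := (S : ℝ) / 400 - n * κ)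
    (by linarith) (by linarith) (by linarith) (by linarith)
  have e1 : ((pB : ℝ) / 400 - n * κ) - ((pA : ℝ) / 400 - n * κ) = ((pB : ℝ) - pA) / 400 := by ring
  have e2 : ((pB : ℝ) / 400 - n * κ) - ((S : ℝ) / 400 - n * κ) = ((pB : ℝ) - S) / 400 := by ring
  have e3 : ((S : ℝ) / 400 - n * κ) - ((pA : ℝ) / 400 - n * κ) = ((S : ℝ) - pA) / 400 := by ring
  rw [e1, e2, e3] at hch
  unfold zch zR at h
  have h := Nat.le_of_ble_eq_true h
  rw [zL_eq, zL_eq] at h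
  have hh : (pB - S) * (8 * (A' + β') * max (dg T iA) (s * v) + s * C * pA)
      + (S - pA) * (8 * (A' + β') * max (dg T iB) (s * v) + s * C * pB)
      ≤ (pB - S) * (s * (β' * w8d (u + pA) + 2 * R)) + (S - pA) * (s * (β' * w8d (u + pB) + 2 * R)) := by
    rw [← hs', ← hw1, ← hw2]
    exact h
  have h4 : ((pB : ℝ) - S) * (8 * (A + β) * max (dg T iA : ℝ) (s * v) + s * C * pA)
      + ((S : ℝ) - pA) * (8 * (A + β) * max (dg T iB : ℝ) (s * v) + s * C * pB)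
      ≤ ((pB : ℝ) - S) * (s * (β * w8d (u + pA) + 2 * R)) + ((S : ℝ) - pA) * (s * (β * w8d (u + pB) + 2 * R)) := by
    have := (Nat.cast_le (α := ℝ)).mpr hh
    push_cast [Nat.cast_sub h1, Nat.cast_sub h2] at this
    rw [hA, hβ]
    exact this
  generalize max (dg T iA : ℝ) (s * v) = MA at *
  generalize max (dg T iB : ℝ) (s * v) = MB at *
  generalize Z4 κ A β ((C : ℝ) / 200000) ((v : ℝ) / 10 ^ 7) a y z n ((pA : ℝ) / 400 - n * κ) = ZA at *
  generalize Z4 κ A β ((C : ℝ) / 200000) ((v : ℝ) / 10 ^ 7) a y z n ((pB : ℝ) / 400 - n * κ) = ZB at *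
  generalize Z4 κ A β ((C : ℝ) / 200000) ((v : ℝ) / 10 ^ 7) a y z n ((S : ℝ) / 400 - n * κ) = ZS at *
  generalize (w8d (u + pA) : ℝ) = WA at *
  generalize (w8d (u + pB) : ℝ) = WB at *
  have m1 := mul_le_mul_of_nonneg_left vA (show 0 ≤ ((pB : ℝ) - S) / 400 by linarith)
  have m2 := mul_le_mul_of_nonneg_left vB (show 0 ≤ ((S : ℝ) - pA) / 400 by linarith)
  have h5 : ((pB : ℝ) - S) / 400 * ((8 * (A + β) * MA + s * C * pA - s * (β * WA)) / (80000000 * s))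
      + ((S : ℝ) - pA) / 400 * ((8 * (A + β) * MB + s * C * pB - s * (β * WB)) / (80000000 * s))
      ≤ ((pB : ℝ) - pA) / 400 * ((R : ℝ) / 40000000) := by
    have e6 : ((pB : ℝ) - S) / 400 * ((8 * (A + β) * MA + s * C * pA - s * (β * WA)) / (80000000 * s))
        + ((S : ℝ) - pA) / 400 * ((8 * (A + β) * MB + s * C * pB - s * (β * WB)) / (80000000 * s))
        = (((pB : ℝ) - S) * (8 * (A + β) * MA + s * C * pA) + ((S : ℝ) - pA) * (8 * (A + β) * MB + s * C * pB)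
          - (((pB : ℝ) - S) * (s * (β * WA)) + ((S : ℝ) - pA) * (s * (β * WB)))) / (32000000000 * s) := by
      field_simp
      ring
    have e7 : ((pB : ℝ) - pA) / 400 * ((R : ℝ) / 40000000)
        = (((pB : ℝ) - S) * (s * (2 * R)) + ((S : ℝ) - pA) * (s * (2 * R))) / (32000000000 * s) := by
      field_simp
      ring
    rw [e6, e7]
    refine div_le_div_of_nonneg_right ?_ (by positivity)
    linarith
  have h6 : ((pB : ℝ) - pA) / 400 * ZS ≤ ((pB : ℝ) - pA) / 400 * ((R : ℝ) / 40000000) := by linarith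
  exact le_of_mul_le_mul_left h6 (by linarith)

/-- **THE CHECK OF ZONE 2, soundness.** -/
theorem zoneK_sound {r0 r1 kp cap n0 md n1 me S1 S A β C v : ℕ} {u0 u1 v0 v1 w0 w1 : ℕ} {us rs : List ℕ}
    {s : ℕ} {tabs : List (ℕ × ℕ)} {jx : Bool → Bool → Bool → ℕ} (hs : 0 < s)
    (hX : FX [r0, r1] [kp, cap] s ((u0 : ℝ) / 400) ((u1 : ℝ) / 400) ((v0 : ℝ) / 400) ((v1 : ℝ) / 400)
      ((w0 : ℝ) / 400) ((w1 : ℝ) / 400) jx tabs)
    (hB : Bx ((u0 : ℝ) / 400) ((u1 : ℝ) / 400) ((v0 : ℝ) / 400) ((v1 : ℝ) / 400) ((w0 : ℝ) / 400) ((w1 : ℝ) / 400))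
    (hus : ∀ ba bb bc, us.getD (jx ba bb bc) 0 = eN u0 u1 ba + eN v0 v1 bb + eN w0 w1 bc)
    (h : zoneK r0 r1 kp cap n0 md n1 me S1 S A β C v u0 u1 v0 v1 w0 w1 us rs s tabs = true) :
    ZoneR ((cap : ℝ) / 200) ((S1 : ℝ) / 400) ((S : ℝ) / 400) A β ((C : ℝ) / 200000) ((v : ℝ) / 10 ^ 7)
      ((u0 : ℝ) / 400) ((u1 : ℝ) / 400) ((v0 : ℝ) / 400) ((v1 : ℝ) / 400) ((w0 : ℝ) / 400) ((w1 : ℝ) / 400)
      (fun ba bb bc => ((rs.getD (jx ba bb bc) 0 : ℕ) : ℝ) / 40000000) := by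
  unfold zoneK at h
  rw [frc_eq, frc_eq, frc_eq] at h
  obtain ⟨c1, h⟩ := cond_eq_true h
  obtain ⟨c2, h⟩ := cond_eq_true h
  obtain ⟨c3, h⟩ := cond_eq_true h
  obtain ⟨c4, h⟩ := cond_eq_true h
  obtain ⟨c5, h⟩ := cond_eq_true h
  obtain ⟨c6, h⟩ := cond_eq_true h
  obtain ⟨c7, h⟩ := cond_eq_true h
  obtain ⟨iA, iB, pA, pB, h, hA, hBp⟩ := stg_sound h
  obtain ⟨jA, jB, qA, qB, h, hA', hBp'⟩ := stg_sound h
  obtain ⟨d1, h⟩ := cond_eq_true h
  obtain ⟨d2, h⟩ := cond_eq_true h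
  obtain ⟨d3, h⟩ := cond_eq_true h
  obtain ⟨d4, h⟩ := cond_eq_true h
  obtain ⟨d5, h⟩ := cond_eq_true h
  obtain ⟨d6, h⟩ := cond_eq_true h
  simp only [frc_eq] at h
  have c1 : 1 ≤ cap := Nat.le_of_ble_eq_true c1
  have c2 : cap ≤ 200 := Nat.le_of_ble_eq_true c2
  have c3 : kp ≤ cap := Nat.le_of_ble_eq_true c3
  have c4 : n0 ≤ n1 := Nat.le_of_ble_eq_true c4
  have c5 : n1 + 2 ≤ r1 := Nat.le_of_ble_eq_true c5
  have c6 : 120 ≤ u0 + v0 + w0 + 2 * cap * n0 := Nat.le_of_ble_eq_true c6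
  have c7 : u1 + v1 + w1 + 2 * cap * (n1 + 1) ≤ 6399 := Nat.le_of_ble_eq_true c7
  have d1 : pA ≤ S1 := Nat.le_of_ble_eq_true d1
  have d2 : S1 ≤ pB := Nat.le_of_ble_eq_true d2
  have d3 : pA + 1 ≤ pB := Nat.le_of_ble_eq_true d3
  have d4 : qA ≤ S := Nat.le_of_ble_eq_true d4
  have d5 : S ≤ qB := Nat.le_of_ble_eq_true d5
  have d6 : qA + 1 ≤ qB := Nat.le_of_ble_eq_true d6
  have le4 : ∀ {x y : ℕ}, (x : ℝ) / 400 ≤ (y : ℝ) / 400 → x ≤ y := by
    intro x y hxy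
    have h1 := (div_le_div_iff_of_pos_right (by norm_num : (0 : ℝ) < 400)).mp hxy
    exact_mod_cast h1
  have mu := le4 hB.ma
  have mv := le4 hB.my
  have mw := le4 hB.mz
  have hsR : (0 : ℝ) < s := by exact_mod_cast hs
  have hcapR : (1 : ℝ) ≤ cap := by exact_mod_cast c1
  have hcapR2 : (cap : ℝ) ≤ 200 := by exact_mod_cast c2
  have hκ0 : (0 : ℝ) < (cap : ℝ) / 200 := by positivity
  have hκ1 : (cap : ℝ) / 200 ≤ 1 := by
    rw [div_le_one (by norm_num)]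
    exact hcapR2
  have pos : ∀ {n i p : ℕ}, Pt r0 kp (2 * cap) n i p → 2 * cap * n ≤ p ∧ p ≤ 2 * cap * n + 2 * cap := by
    intro n i p hp
    rcases hp with ⟨-, -, rfl⟩ | ⟨-, -, rfl⟩ | ⟨-, -, rfl⟩ <;> omega
  obtain ⟨q1, q1'⟩ := pos hA
  obtain ⟨q2, q2'⟩ := pos hBp
  obtain ⟨q3, q3'⟩ := pos hA'
  obtain ⟨q4, q4'⟩ := pos hBp'
  have hr1 : 1 ≤ r0 := by
    rcases hA with ⟨h1, -, -⟩ | ⟨h1, -, -⟩ | ⟨h1, -, -⟩ <;> omega
  have hm1 : 2 * cap * n0 ≤ 2 * cap * n1 := Nat.mul_le_mul_left _ c4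
  have hm2 : 2 * cap * (n1 + 1) = 2 * cap * n1 + 2 * cap := by ring
  have hcor := fun ba bb bc => evz_sound h (jx ba bb bc) (hX.ln ba bb bc)
  have husum : ∀ ba bb bc : Bool, ed ((u0 : ℝ) / 400) ((u1 : ℝ) / 400) ba + ed ((v0 : ℝ) / 400) ((v1 : ℝ) / 400) bb
      + ed ((w0 : ℝ) / 400) ((w1 : ℝ) / 400) bc = ((us.getD (jx ba bb bc) 0 : ℕ) : ℝ) / 400 := by
    intro ba bb bc
    rw [hus, ed_eN, ed_eN, ed_eN]
    push_cast
    ring
  have hub : ∀ ba bb bc : Bool, u0 + v0 + w0 ≤ us.getD (jx ba bb bc) 0 ∧ us.getD (jx ba bb bc) 0 ≤ u1 + v1 + w1 := by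
    intro ba bb bc
    rw [hus]
    have e1 := eN_ge mu ba
    have e2 := eN_ge mv bb
    have e3 := eN_ge mw bc
    omega
  have key : ∀ {a b : ℝ}, 0 ≤ a → a ≤ b → b ≤ 1 → ∀ q : Bool, 0 ≤ ed a b q ∧ ed a b q ≤ 1 := by
    intro a b h0 h1 h2 q
    cases q
    · exact ⟨h0, h1.trans h2⟩
    · exact ⟨h0.trans h1, h2⟩
  have nk : ∀ n : ℕ, (n : ℝ) * ((cap : ℝ) / 200) = ((2 * cap : ℕ) : ℝ) * n / 400 := by
    intro n
    push_cast
    ring
  have lowR : ∀ {n p : ℕ}, 2 * cap * n ≤ p → (n : ℝ) * ((cap : ℝ) / 200) ≤ (p : ℝ) / 400 := by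
    intro n p hp
    rw [nk]
    have : ((2 * cap : ℕ) : ℝ) * n ≤ p := by exact_mod_cast hp
    exact div_le_div_of_nonneg_right this (by norm_num)
  have uppR : ∀ {n p : ℕ}, p ≤ 2 * cap * n + 2 * cap → (p : ℝ) / 400 ≤ (n : ℝ) * ((cap : ℝ) / 200) + (cap : ℝ) / 200 := by
    intro n p hp
    rw [nk]
    have h1 : (p : ℝ) ≤ ((2 * cap : ℕ) : ℝ) * n + (2 * cap : ℕ) := by exact_mod_cast hp
    have h2 : ((2 * cap : ℕ) : ℝ) = 2 * cap := by push_cast; ring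
    rw [h2] at h1 ⊢
    linarith
  have ptF : ∀ {n i p : ℕ} (ba bb bc : Bool), Pt r0 kp (2 * cap) n i p → n + 1 < r1 →
      FM (1 ::ₘ ed ((u0 : ℝ) / 400) ((u1 : ℝ) / 400) ba ::ₘ ed ((v0 : ℝ) / 400) ((v1 : ℝ) / 400) bb
        ::ₘ ed ((w0 : ℝ) / 400) ((w1 : ℝ) / 400) bc ::ₘ ((p : ℝ) / 400 - n * ((cap : ℝ) / 200))
        ::ₘ Multiset.replicate n ((cap : ℝ) / 200))
        ≤ (dg (tabs.getD (jx ba bb bc) (0, 0)).1 i : ℝ) / (s * 10 ^ 7) := by
    intro n i p ba bb bc hp hn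
    have h1 := pt_F hX ba bb bc hp hn
    have e : (p : ℝ) / 400 - n * ((cap : ℝ) / 200) = ((p : ℝ) - (2 * cap : ℕ) * n) / 400 := by
      rw [nk]
      ring
    rw [e]
    exact h1
  refine zone_real (n0 := n0) (n1 := n1) (xL := (S1 : ℝ) / 400 - n0 * ((cap : ℝ) / 200))
    (xR := (S : ℝ) / 400 - n1 * ((cap : ℝ) / 200)) hκ0 hκ1 hB (by positivity) (by positivity)
    (by linarith [lowR (q1.trans d1)]) (by linarith [uppR (d5.trans q4')]) (by ring) (by ring) ?_ ?_ ?_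
  · intro ba bb bc
    obtain ⟨h1, -⟩ := cond_eq_true (hcor ba bb bc)
    obtain ⟨b1, b2⟩ := hub ba bb bc
    exact z_chord (A' := A) (β' := β) hs rfl rfl hκ0.le hκ1 (key hB.la hB.ma hB.ua ba) (key hB.ly hB.my hB.uy bb)
      (key hB.lz hB.mz hB.uz bc) (husum ba bb bc) rfl rfl rfl d1 d2 d3 (lowR q1) (uppR q2')
      (ptF ba bb bc hA (by omega)) (ptF ba bb bc hBp (by omega)) (by omega) (by omega) h1
  · intro ba bb bc
    obtain ⟨-, h1⟩ := cond_eq_true (hcor ba bb bc)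
    obtain ⟨h1, -⟩ := cond_eq_true h1
    obtain ⟨b1, b2⟩ := hub ba bb bc
    exact z_chord (A' := A) (β' := β) hs rfl rfl hκ0.le hκ1 (key hB.la hB.ma hB.ua ba) (key hB.ly hB.my hB.uy bb)
      (key hB.lz hB.mz hB.uz bc) (husum ba bb bc) rfl rfl rfl d4 d5 d6 (lowR q3) (uppR q4')
      (ptF ba bb bc hA' (by omega)) (ptF ba bb bc hBp' (by omega)) (by omega) (by omega) h1
  · intro n hn hn1 ba bb bc
    obtain ⟨-, h1⟩ := cond_eq_true (hcor ba bb bc)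
    obtain ⟨-, h1⟩ := cond_eq_true h1
    have h3 := znd_sound h1 (n - (n0 + 1)) (by
      show n - (n0 + 1) < n1 - n0
      omega)
    rw [show n0 + 1 + (n - (n0 + 1)) = n by omega] at h3
    rw [zL_eq] at h3
    obtain ⟨b1, b2⟩ := hub ba bb bc
    have hcn : 2 * cap * n0 ≤ 2 * cap * n := Nat.mul_le_mul_left _ hn.le
    have hcn' : 2 * cap * n ≤ 2 * cap * n1 := Nat.mul_le_mul_left _ hn1
    have hF := ptF (n := n) (i := r0 * n) (p := 2 * cap * n) ba bb bc (Or.inl ⟨hr1, rfl, rfl⟩) (by omega)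
    have e0 : ((2 * cap * n : ℕ) : ℝ) / 400 - n * ((cap : ℝ) / 200) = 0 := by
      push_cast
      ring
    rw [e0] at hF
    have hW := w8d_eq (us.getD (jx ba bb bc) 0 + 2 * cap * n) (by omega) (by omega)
    have e1 : (n : ℝ) * ((cap : ℝ) / 200) + 0 = ((2 * cap * n : ℕ) : ℝ) / 400 := by
      push_cast
      ring
    have hz := Z4_le (A := A) (β := β) (C := C) (v := v) (W := w8d (us.getD (jx ba bb bc) 0 + 2 * cap * n)) hs
      (Nat.cast_nonneg A) (Nat.cast_nonneg β) hF (by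
        rw [hW, e1, husum]
        push_cast
        congr 1
        ring) e1
    refine hz.trans ?_
    have h3 : 8 * (A + β) * max (dg (tabs.getD (jx ba bb bc) (0, 0)).1 (r0 * n)) (s * v) + s * C * (2 * cap * n)
        ≤ s * (β * w8d (us.getD (jx ba bb bc) 0 + 2 * cap * n) + 2 * rs.getD (jx ba bb bc) 0) := h3
    have h4 := (Nat.cast_le (α := ℝ)).mpr h3
    generalize w8d (us.getD (jx ba bb bc) 0 + 2 * cap * n) = W at h4 ⊢
    generalize dg (tabs.getD (jx ba bb bc) (0, 0)).1 (r0 * n) = F at h4 ⊢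
    generalize rs.getD (jx ba bb bc) 0 = R at h4 ⊢
    have e2 : (R : ℝ) / 40000000 = (s * (2 * R)) / (80000000 * s) := by
      field_simp
      ring
    rw [e2]
    refine div_le_div_of_nonneg_right ?_ (by positivity)
    push_cast at h4 ⊢
    linarith

/-- from the unit `1 / 400` to the statement of case C -/
theorem ZoneR.ok {cap S1 S : ℕ} {A β Cz v a0 a1 y0 y1 z0 z1 : ℝ} {r : ℕ → ℝ}
    (h : ZoneR ((cap : ℝ) / 200) (((2 * S1 : ℕ) : ℝ) / 400) (((2 * S : ℕ) : ℝ) / 400) A β Cz v a0 a1 y0 y1 z0 z1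
      fun ba bb bc => r (ix ba bb bc)) :
    C1.ZoneOK cap S1 S A β Cz v a0 a1 y0 y1 z0 z1 r := by
  intro N hM h1 h2 ba bb bc
  refine h N hM (le_trans (le_of_eq ?_) h1) (h2.trans (le_of_eq ?_)) ba bb bc
  · push_cast
    ring
  · push_cast
    ring

end SStar
end Pool.Agent.Lib.MP_6947cd_al
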