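import Pool.Agent.Lib.MP_6947cd_al.Z.Side2
import Pool.Agent.Lib.MP_6947cd_al.C.Pk5

/-!
Problem MP_6947cd_al (Chollet).  THE CHECK OF A ROW with arbitrary special entries, real form: on every admissible
reduced multiset either the row functional is bounded at all the corners of the box of the three special entries, or
the row is rich on the whole box.
-/

set_option autoImplicit false
open Finset

namespace Pool.Agent.Lib.MP_6947cd_al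
namespace B3

open Ent Ent.Pk Fr Fr.WT PkA B1 B2

lemma ix_surj : ∀ q < 8, ∃ ba bb bc : Bool, ix ba bb bc = q := by decide

lemma ix_lt : ∀ ba bb bc : Bool, ix ba bb bc < 8 := by decide

/-- tables at the eight corners, index function `jx` -/
structure GX (rd ks : List ℕ) (s bd : ℕ) (a0 a1 y0 y1 z0 z1 : ℝ) (jx : Bool → Bool → Bool → ℕ)
    (tabs : List (ℕ × ℕ)) : Prop where
  ln : ∀ ba bb bc, jx ba bb bc < tabs.length
  sj : ∀ q < tabs.length, ∃ ba bb bc, jx ba bb bc = q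
  tb : ∀ ba bb bc : Bool, Tb rd ks s bd (Sp (ed a0 a1 ba) (ed y0 y1 bb) (ed z0 z1 bc))
    (tabs.getD (jx ba bb bc) (0, 0)).1 (tabs.getD (jx ba bb bc) (0, 0)).2

lemma GX.of8 {rd ks : List ℕ} {s bd : ℕ} {a0 a1 y0 y1 z0 z1 : ℝ} {tabs : List (ℕ × ℕ)}
    (h : G8 rd ks s bd a0 a1 y0 y1 z0 z1 tabs) : GX rd ks s bd a0 a1 y0 y1 z0 z1 ix tabs := by
  refine ⟨fun ba bb bc => ?_, fun q hq => ?_, h.2⟩
  · rw [h.1]
    exact ix_lt ba bb bc
  · rw [h.1] at hq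
    exact ix_surj q hq

/-- index of a corner, two special entries -/
def ix4 (a b _ : Bool) : ℕ := ix a b false

lemma ix4_surj : ∀ q < 4, ∃ ba bb bc : Bool, ix4 ba bb bc = q := by decide

lemma ix4_lt : ∀ ba bb bc : Bool, ix4 ba bb bc < 4 := by decide

lemma Tb.of_sq {rd ks : List ℕ} {s bd : ℕ} {a y : ℝ} {T W : ℕ} (h : Tb rd ks s bd (Sq a y) T W) :
    Tb rd ks s bd (Sp a y 0) T W := by
  obtain ⟨h1, h2, h3, h4, h5, h6⟩ := h
  refine ⟨h1, h2, h3, h4, fun i hi => ?_, fun i hi => ?_⟩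
  · refine le_trans (le_of_eq ?_) (h5 i hi)
    have e : (1 : ℝ) ::ₘ (Sp a y 0 + Ent.mk (CA.dig rd i) (kR ks))
        = Multiset.replicate 1 0 + (1 ::ₘ (Sq a y + Ent.mk (CA.dig rd i) (kR ks))) := by
      unfold Sp Sq
      rw [Multiset.replicate_one]
      simp only [← Multiset.singleton_add]
      abel
    rw [e, FM_zero_add]
  · refine (h6 i hi).trans (le_of_eq ?_)
    rw [Sp_sum]
    unfold Sq
    simp

/-- two special entries: the third one is `0` -/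
lemma GX.of4 {rd ks : List ℕ} {s bd : ℕ} {a0 a1 y0 y1 : ℝ} {tabs : List (ℕ × ℕ)}
    (h : G4 rd ks s bd a0 a1 y0 y1 tabs) : GX rd ks s bd a0 a1 y0 y1 0 0 ix4 tabs := by
  refine ⟨fun ba bb bc => ?_, fun q hq => ?_, fun ba bb bc => ?_⟩
  · rw [h.1]
    exact ix4_lt ba bb bc
  · rw [h.1] at hq
    exact ix4_surj q hq
  · have e : ed (0 : ℝ) 0 bc = 0 := by cases bc <;> rfl
    rw [e]
    exact Tb.of_sq (h.2 ba bb)

lemma bd8_of {rd ks : List ℕ} {s bd : ℕ} {a0 a1 y0 y1 z0 z1 : ℝ} {jx : Bool → Bool → Bool → ℕ}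
    {tabs : List (ℕ × ℕ)} (h : GX rd ks s bd a0 a1 y0 y1 z0 z1 jx tabs) : Bd8 (prd rd) bd tabs := by
  intro q hq
  obtain ⟨ba, bb, bc, rfl⟩ := h.sj q hq
  obtain ⟨h1, h2, h3, h4, -, -⟩ := h.tb ba bb bc
  exact ⟨h1, h2, h3, h4⟩

/-- the alternatives of a payer at a corner -/
lemma alt_val3 (hS3 : SpecS3) (hS7 : SpecR7) (ks Gs : List ℕ) (hk : KnOK ks) (hlG : Gs.length = ks.length)
    (vh : ℕ) (lam : Af) (al : Bool) (v0 : ℕ) (b g y : ℝ)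
    (hlam : lam.val b g y ≤ (v0 : ℝ) / 10 ^ 7) (ns : List ℕ) (c1 : ℕ)
    (hln : ns.length = ks.length) :
    (altA vh lam al).val b g y + ((Multiset.replicate c1 (0 : ℝ) + mk ns (kR ks)).map (altG ks Gs al)).sum
      ≤ ((bif al then v0 + Pk.dotN ns Gs else vh : ℕ) : ℝ) / 10 ^ 7 := by
  have h := alt_val hS3 hS7 ks Gs hk hlG vh lam al [v0] false false false b g y (by simpa [ix] using hlam) ns c1 hln
  simpa [ix] using h

/-- the row value at a corner -/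
theorem row_at3 {rd ks : List ℕ} {s bd : ℕ} {a y z : ℝ} {T W : ℕ}
    (hT : Tb rd ks s bd (Sp a y z) T W) (c1 : ℕ) (ns : List ℕ) (hok : CA.OkD rd ns) :
    FM (1 ::ₘ a ::ₘ y ::ₘ z ::ₘ (Multiset.replicate c1 0 + mk ns (kR ks)))
      ≤ (dg T (CA.idx rd ns) : ℝ) / (s * 10 ^ 7) ∧
    (dg W (CA.idx rd ns) : ℝ) / (s * 10 ^ 7)
      ≤ WD.Wd (a + y + z + (Multiset.replicate c1 (0 : ℝ) + mk ns (kR ks)).sum) := by
  have hi := idx_lt rd ns hok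
  have hd := CA.dig_idx rd ns hok
  have h1 := hT.hF _ hi
  have h2 := hT.hw _ hi
  rw [hd] at h1 h2
  constructor
  · refine le_trans (le_of_eq ?_) h1
    have e1 : (1 : ℝ) ::ₘ a ::ₘ y ::ₘ z ::ₘ (Multiset.replicate c1 0 + mk ns (kR ks))
        = Multiset.replicate c1 0 + (1 ::ₘ (Sp a y z + mk ns (kR ks))) := by
      unfold Sp
      simp only [← Multiset.singleton_add]
      abel
    rw [e1, FM_zero_add]
  · refine h2.trans (le_of_eq ?_)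
    rw [Sp_sum, Multiset.sum_add]
    simp only [Multiset.sum_replicate, smul_zero, zero_add]

/-- one corner: the line -/
theorem line_at3 (hS3 : SpecS3) (hS7 : SpecR7) {rd ks : List ℕ} (Os Rs : List ℕ) {s bd : ℕ} {a y z : ℝ} {T W : ℕ}
    (hT : Tb rd ks s bd (Sp a y z) T W) (hs : 0 < s)
    (hk : KnOK ks) (hlO : Os.length = ks.length) (hlR : Rs.length = ks.length)
    (c1 : ℕ) (ns : List ℕ) (hln : ns.length = ks.length) (hok : CA.OkD rd ns) (A β O ρ v : ℕ) (c : Af) (γ : ℝ → ℝ)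
    (hv : c.val a y z + ((Multiset.replicate c1 (0 : ℝ) + mk ns (kR ks)).map γ).sum ≤ (v : ℝ) / 10 ^ 7)
    (h1 : 4 * (A + β) * dg T (CA.idx rd ns) + s * Pk.dotN ns Os + s * O
      ≤ s * ρ + 4 * β * dg W (CA.idx rd ns) + s * Pk.dotN ns Rs)
    (h2 : 4 * (A + β) * (s * v) + s * Pk.dotN ns Os + s * O
      ≤ s * ρ + 4 * β * dg W (CA.idx rd ns) + s * Pk.dotN ns Rs) :
    VJ A β c γ (phF ks Os Rs) a y z (Multiset.replicate c1 0 + mk ns (kR ks)) ≤ ((ρ : ℝ) - O) / 40000000 := by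
  obtain ⟨r1, r3⟩ := row_at3 hT c1 ns hok
  have m1 := phF_mk hS3 hS7 ks Os Rs ns c1 hk hlO hlR hln
  set t := CA.idx rd ns with ht
  set N := Multiset.replicate c1 (0 : ℝ) + mk ns (kR ks) with hN
  unfold VJ
  rw [m1, le_div_iff₀ (by norm_num)]
  have hsR : (0 : ℝ) < s := by exact_mod_cast hs
  have hA : (0 : ℝ) ≤ (A : ℝ) + β := add_nonneg (Nat.cast_nonneg _) (Nat.cast_nonneg _)
  have hβ : (0 : ℝ) ≤ (β : ℝ) := Nat.cast_nonneg _
  have k2 := mul_le_mul_of_nonneg_left r3 hβ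
  have e1 : 4 * ((A : ℝ) + β) * dg T t + s * (Pk.dotN ns Os : ℝ) + s * O
      ≤ s * ρ + 4 * β * dg W t + s * Pk.dotN ns Rs := by
    exact_mod_cast h1
  have e2 : 4 * ((A : ℝ) + β) * (s * v) + s * (Pk.dotN ns Os : ℝ) + s * O
      ≤ s * ρ + 4 * β * dg W t + s * Pk.dotN ns Rs := by
    exact_mod_cast h2
  obtain ⟨tt, htt⟩ : ∃ tt : ℝ, tt = (dg T t : ℝ) / (s * 10 ^ 7) := ⟨_, rfl⟩
  obtain ⟨ww, hww⟩ : ∃ ww : ℝ, ww = (dg W t : ℝ) / (s * 10 ^ 7) := ⟨_, rfl⟩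
  have ht' : (dg T t : ℝ) = s * (10 ^ 7 * tt) := by
    rw [htt]
    field_simp
  have hw' : (dg W t : ℝ) = s * (10 ^ 7 * ww) := by
    rw [hww]
    field_simp
  rw [ht', hw'] at e1
  rw [hw'] at e2
  rw [← htt] at r1
  rw [← hww] at k2
  have f1 : 4 * ((A : ℝ) + β) * (10 ^ 7 * tt) + (Pk.dotN ns Os : ℝ) + O
      ≤ ρ + 4 * β * (10 ^ 7 * ww) + Pk.dotN ns Rs := by
    refine le_of_mul_le_mul_left ?_ hsR
    nlinarith [e1]
  have f2 : 4 * ((A : ℝ) + β) * v + (Pk.dotN ns Os : ℝ) + O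
      ≤ ρ + 4 * β * (10 ^ 7 * ww) + Pk.dotN ns Rs := by
    refine le_of_mul_le_mul_left ?_ hsR
    nlinarith [e2]
  have hmax : max (FM (1 ::ₘ a ::ₘ y ::ₘ z ::ₘ N))
      (c.val a y z + (N.map γ).sum)
      ≤ max tt ((v : ℝ) / 10 ^ 7) := max_le_max r1 hv
  have k1 := mul_le_mul_of_nonneg_left hmax hA
  generalize max (FM (1 ::ₘ a ::ₘ y ::ₘ z ::ₘ N))
    (c.val a y z + (N.map γ).sum) = X at k1 ⊢
  generalize WD.Wd (a + y + z + N.sum) = Y at k2 ⊢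
  rcases max_cases tt ((v : ℝ) / 10 ^ 7) with ⟨h3, -⟩ | ⟨h3, -⟩
  · rw [h3] at k1
    nlinarith [k1, k2, f1]
  · rw [h3] at k1
    nlinarith [k1, k2, f2]

/-- one corner: richness -/
theorem rich_at3 {rd ks : List ℕ} {s bd : ℕ} {a y z : ℝ} {T W : ℕ}
    (hT : Tb rd ks s bd (Sp a y z) T W) (hs : 0 < s) (c1 : ℕ) (ns : List ℕ)
    (hok : CA.OkD rd ns) (d v : ℕ) (c : Af) (γ : ℝ → ℝ)
    (hv : c.val a y z + ((Multiset.replicate c1 (0 : ℝ) + mk ns (kR ks)).map γ).sum ≤ (v : ℝ) / 10 ^ 7)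
    (h1 : dg T (CA.idx rd ns) + s * d ≤ dg W (CA.idx rd ns))
    (h2 : s * v + s * d ≤ dg W (CA.idx rd ns)) :
    max (FM (1 ::ₘ a ::ₘ y ::ₘ z ::ₘ (Multiset.replicate c1 0 + mk ns (kR ks))))
      (c.val a y z + ((Multiset.replicate c1 (0 : ℝ) + mk ns (kR ks)).map γ).sum) + (d : ℝ) / 10 ^ 7
    ≤ WD.Wd (a + y + z + (Multiset.replicate c1 (0 : ℝ) + mk ns (kR ks)).sum) := by
  obtain ⟨r1, r3⟩ := row_at3 hT c1 ns hok
  refine le_trans ?_ r3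
  have hsR : (0 : ℝ) < s := by exact_mod_cast hs
  have e1 : (dg T (CA.idx rd ns) : ℝ) + s * d ≤ dg W (CA.idx rd ns) := by exact_mod_cast h1
  have e2 : (s : ℝ) * v + s * d ≤ dg W (CA.idx rd ns) := by exact_mod_cast h2
  have f1 : (dg T (CA.idx rd ns) : ℝ) / (s * 10 ^ 7) + (d : ℝ) / 10 ^ 7
      ≤ (dg W (CA.idx rd ns) : ℝ) / (s * 10 ^ 7) := by
    have : (d : ℝ) / 10 ^ 7 = (s * d) / (s * 10 ^ 7) := by field_simp
    rw [this, ← add_div]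
    exact div_le_div_of_nonneg_right e1 (by positivity)
  have f2 : (v : ℝ) / 10 ^ 7 + (d : ℝ) / 10 ^ 7
      ≤ (dg W (CA.idx rd ns) : ℝ) / (s * 10 ^ 7) := by
    have : (v : ℝ) / 10 ^ 7 + (d : ℝ) / 10 ^ 7 = (s * v + s * d) / (s * 10 ^ 7) := by field_simp
    rw [this]
    exact div_le_div_of_nonneg_right e2 (by positivity)
  have hmax := max_le_max r1 hv
  rcases max_cases ((dg T (CA.idx rd ns) : ℝ) / (s * 10 ^ 7)) ((v : ℝ) / 10 ^ 7) with ⟨h3, -⟩ | ⟨h3, -⟩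
  · rw [h3] at hmax
    linarith
  · rw [h3] at hmax
    linarith

/-- the box of the special entries -/
structure Bx (a0 a1 y0 y1 z0 z1 : ℝ) : Prop where
  la : 0 ≤ a0
  ma : a0 ≤ a1
  ua : a1 ≤ 1
  ly : 0 ≤ y0
  my : y0 ≤ y1
  uy : y1 ≤ 1
  lz : 0 ≤ z0
  mz : z0 ≤ z1
  uz : z1 ≤ 1

lemma ed01 {a b : ℝ} (h0 : 0 ≤ a) (h : a ≤ b) (h1 : b ≤ 1) (q : Bool) : 0 ≤ ed a b q ∧ ed a b q ≤ 1 := by
  cases q
  · exact ⟨h0, h.trans h1⟩
  · exact ⟨h0.trans h, h1⟩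

/-- a row functional is homogeneous -/
lemma VJ_div (A β D : ℝ) (hD : 0 < D) (c : Af) (γ φ : ℝ → ℝ) (b g y : ℝ) (M : Multiset ℝ) :
    VJ (A / D) (β / D) c γ (fun u => φ u / D) b g y M = VJ A β c γ φ b g y M / D := by
  unfold VJ
  rw [show (M.map fun u => φ u / D).sum = (M.map φ).sum / D by
    rw [Multiset.sum_map_div]]
  field_simp

/-- THE CHECK OF A ROW of a payer, real form. -/
theorem sideP3_real (hS : SpS) (rd ks Ps Os Rs Gs : List ℕ) (hcnt : CntOK rd (cnts rd 1)) (hk : ks.length = rd.length)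
    (hP : Ps.length = rd.length) (hO : Os.length = ks.length) (hRs : Rs.length = ks.length)
    (hG : Gs.length = ks.length) (hkn : KnOK ks) {a0 a1 y0 y1 z0 z1 : ℝ} (hB : Bx a0 a1 y0 y1 z0 z1)
    (s bd : ℕ) (hs : 0 < s) (jx : Bool → Bool → Bool → ℕ) (tabs : List (ℕ × ℕ))
    (hT : GX rd ks s bd a0 a1 y0 y1 z0 z1 jx tabs)
    (A β O d vh T1 p1 lb : ℕ) (rs ls : List ℕ) (lam : Af)
    (hlam : ∀ ba bb bc : Bool, lam.val (ed a0 a1 ba) (ed y0 y1 bb) (ed z0 z1 bc)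
      ≤ (ls.getD (jx ba bb bc) 0 : ℝ) / 10 ^ 7)
    (h : rowP rd ks Ps Os Rs Gs (4 * (A + β)) (4 * β) vh d s bd O T1 p1 lb tabs rs ls = true)
    (ns : List ℕ) (fs : List Bool) (M' : Multiset ℝ) (hred : Red 0 (kR ks) ns fs M')
    (h1 : Pk.dotN ns ks + lowN 0 ks fs ≤ T1) (h2 : Pk.dotN ns Ps + lowN 0 Ps fs ≤ p1)
    (h3 : lb ≤ Pk.dotN ns ks + uppN ks fs) :
    ∃ al : Bool, (∀ ba bb bc : Bool, VJ A β (altA vh lam al) (altG ks Gs al) (phF ks Os Rs)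
      (ed a0 a1 ba) (ed y0 y1 bb) (ed z0 z1 bc) M' ≤ ((rs.getD (jx ba bb bc) 0 : ℝ) - O) / 40000000) ∨
    (∀ a y z : ℝ, a0 ≤ a → a ≤ a1 → y0 ≤ y → y ≤ y1 → z0 ≤ z → z ≤ z1 →
      max (FM (1 ::ₘ a ::ₘ y ::ₘ z ::ₘ M')) ((altA vh lam al).val a y z + (M'.map (altG ks Gs al)).sum)
        + (d : ℝ) / 10 ^ 7 ≤ WD.Wd (a + y + z + M'.sum)) := by
  obtain ⟨q1, q2, q3, q4, q5⟩ := hS.s2 (kR ks) 0 ns fs M' le_rfl hkn hred
  rw [kR_length] at q4 q5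
  obtain ⟨hrm, al, hsc⟩ := rowP_sound rd ks Ps Os Rs Gs hcnt hk hP (4 * (A + β)) (4 * β) vh d s bd O T1 p1 lb
    tabs rs ls (bd8_of hT) h ns fs (by omega) (by omega) h1 h2 h3
  have hc4 := cors2 ns rd fs (by omega) hrm
  refine ⟨al, ?_⟩
  have hγ : Aff (altG ks Gs al) 0 (kR ks) := by
    cases al with
    | false => exact aff_zero _ _
    | true => exact (nF_facts hS.r7 10000000 ks Gs hkn hG).1
  have hφ := (phF_facts hS.r7 ks Os Rs hkn hO hRs).1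
  have mA := ed01 hB.la hB.ma hB.ua
  have mY := ed01 hB.ly hB.my hB.uy
  have mZ := ed01 hB.lz hB.mz hB.uz
  have ev : ∀ (q : ℕ) (ns : List ℕ), (bif al then s * ls.getD q 0 + s * Pk.dotN ns Gs else s * vh)
      = s * (bif al then ls.getD q 0 + Pk.dotN ns Gs else vh) := by
    intro q ns
    cases al
    · rfl
    · simp only [cond_true]
      ring
  rcases hsc with hsc | hsc
  · left
    intro ba bb bc
    refine cellV (Nat.cast_nonneg _) (Nat.cast_nonneg _) _ _ _ (mA ba) (mY bb) (mZ bc) hkn hγ hφ hred ?_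
    intro t ht
    obtain ⟨o, ho, ho1, -, -, ho2, ho3, ho4⟩ := hc4 t ht
    have l1 := hsc o ho
    rw [← ho2] at l1
    have hq := hT.ln ba bb bc
    have hva := alt_val3 hS.s3 hS.r7 ks Gs hkn hG vh lam al _ _ _ _ (hlam ba bb bc) t.2 t.1 (by omega)
    obtain ⟨m2, m3⟩ := l1.2 _ hq
    beta_reduce at m2 m3
    rw [CA.dig_idx rd _ ho3] at m2 m3
    rw [ev] at m3
    exact line_at3 hS.s3 hS.r7 Os Rs (hT.tb ba bb bc) hs hkn hO hRs t.1 t.2 (by omega) ho3 A β O _ _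
      (altA vh lam al) (altG ks Gs al) hva m2 m3
  · right
    intro a y z ha1 ha2 hy1 hy2 hz1 hz2
    have hM : ∀ e ∈ M', 0 ≤ e ∧ e ≤ 1 := fun e he => ⟨(q3 e he).1, (q3 e he).2.trans (S6M.inc_top _ _ hkn)⟩
    refine richV (altA vh lam al) (altG ks Gs al) hB.la hB.ua hB.ly hB.uy hB.lz hB.uz ha1 ha2 hy1 hy2 hz1 hz2
      hkn hγ hred hM ?_
    intro ba bb bc t ht
    obtain ⟨o, ho, ho1, -, -, ho2, ho3, ho4⟩ := hc4 t ht
    have l1 := hsc o ho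
    rw [← ho2] at l1
    have hq := hT.ln ba bb bc
    have hva := alt_val3 hS.s3 hS.r7 ks Gs hkn hG vh lam al _ _ _ _ (hlam ba bb bc) t.2 t.1 (by omega)
    obtain ⟨m2, m3⟩ := l1.2 _ hq
    beta_reduce at m3
    rw [CA.dig_idx rd _ ho3, ev] at m3
    exact rich_at3 (hT.tb ba bb bc) hs t.1 t.2 ho3 d _ (altA vh lam al) (altG ks Gs al) hva m2 m3

lemma cA0 (b g y : ℝ) (N : Multiset ℝ) : (cAf 0).val b g y + (N.map fun _ => (0 : ℝ)).sum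
      ≤ ((0 : ℕ) : ℝ) / 10 ^ 7 := by
  rw [cAf_val, Multiset.map_const', Multiset.sum_replicate, smul_zero]
  simp

/-- THE CHECK OF A ROW of a bad vertex, real form. -/
theorem sideB3_real (hS : SpS) (rd ks Ps Os Rs : List ℕ) (hcnt : CntOK rd (cnts rd 1)) (hk : ks.length = rd.length)
    (hP : Ps.length = rd.length) (hO : Os.length = ks.length) (hRs : Rs.length = ks.length)
    (hkn : KnOK ks) {a0 a1 y0 y1 z0 z1 : ℝ} (hB : Bx a0 a1 y0 y1 z0 z1)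
    (s bd : ℕ) (hs : 0 < s) (jx : Bool → Bool → Bool → ℕ) (tabs : List (ℕ × ℕ))
    (hT : GX rd ks s bd a0 a1 y0 y1 z0 z1 jx tabs)
    (A β O d T1 p1 lb : ℕ) (rs : List ℕ)
    (h : rowB rd ks Ps Os Rs (4 * (A + β)) (4 * β) d s bd O T1 p1 lb tabs rs = true)
    (ns : List ℕ) (fs : List Bool) (M' : Multiset ℝ) (hred : Red 0 (kR ks) ns fs M')
    (h1 : Pk.dotN ns ks + lowN 0 ks fs ≤ T1) (h2 : Pk.dotN ns Ps + lowN 0 Ps fs ≤ p1)
    (h3 : lb ≤ Pk.dotN ns ks + uppN ks fs) :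
    (∀ ba bb bc : Bool, VJ A β (cAf 0) (fun _ => 0) (phF ks Os Rs)
      (ed a0 a1 ba) (ed y0 y1 bb) (ed z0 z1 bc) M' ≤ ((rs.getD (jx ba bb bc) 0 : ℝ) - O) / 40000000) ∨
    (∀ a y z : ℝ, a0 ≤ a → a ≤ a1 → y0 ≤ y → y ≤ y1 → z0 ≤ z → z ≤ z1 →
      max (FM (1 ::ₘ a ::ₘ y ::ₘ z ::ₘ M')) 0 + (d : ℝ) / 10 ^ 7 ≤ WD.Wd (a + y + z + M'.sum)) := by
  obtain ⟨q1, q2, q3, q4, q5⟩ := hS.s2 (kR ks) 0 ns fs M' le_rfl hkn hred
  rw [kR_length] at q4 q5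
  obtain ⟨hrm, hsc⟩ := rowB_sound rd ks Ps Os Rs hcnt hk hP (4 * (A + β)) (4 * β) d s bd O T1 p1 lb
    tabs rs (bd8_of hT) h ns fs (by omega) (by omega) h1 h2 h3
  have hc4 := cors2 ns rd fs (by omega) hrm
  have hφ := (phF_facts hS.r7 ks Os Rs hkn hO hRs).1
  have mA := ed01 hB.la hB.ma hB.ua
  have mY := ed01 hB.ly hB.my hB.uy
  have mZ := ed01 hB.lz hB.mz hB.uz
  rcases hsc with hsc | hsc
  · left
    intro ba bb bc
    refine cellV (Nat.cast_nonneg _) (Nat.cast_nonneg _) _ _ _ (mA ba) (mY bb) (mZ bc) hkn (aff_zero _ _) hφ hred ?_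
    intro t ht
    obtain ⟨o, ho, ho1, -, -, ho2, ho3, ho4⟩ := hc4 t ht
    have l1 := hsc o ho
    rw [← ho2] at l1
    have hq := hT.ln ba bb bc
    have m2 := l1 _ hq
    rw [CA.dig_idx rd _ ho3] at m2
    exact line_at3 hS.s3 hS.r7 Os Rs (hT.tb ba bb bc) hs hkn hO hRs t.1 t.2 (by omega) ho3 A β O _ 0
      (cAf 0) (fun _ => 0) (cA0 _ _ _ _) m2 (by
        rw [Nat.mul_zero, Nat.mul_zero]
        omega)
  · right
    intro a y z ha1 ha2 hy1 hy2 hz1 hz2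
    have hM : ∀ e ∈ M', 0 ≤ e ∧ e ≤ 1 := fun e he => ⟨(q3 e he).1, (q3 e he).2.trans (S6M.inc_top _ _ hkn)⟩
    have hr := richV (d := (d : ℝ) / 10 ^ 7) (cAf 0) (fun _ => 0) hB.la hB.ua hB.ly hB.uy hB.lz hB.uz
      ha1 ha2 hy1 hy2 hz1 hz2 hkn (aff_zero _ _) hred hM (by
      intro ba bb bc t ht
      obtain ⟨o, ho, ho1, -, -, ho2, ho3, ho4⟩ := hc4 t ht
      have l1 := hsc o ho
      rw [← ho2] at l1
      have hq := hT.ln ba bb bc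
      exact rich_at3 (hT.tb ba bb bc) hs t.1 t.2 ho3 d 0 (cAf 0) (fun _ => 0) (cA0 _ _ _ _)
        (l1 _ hq) (by
          have := l1 _ hq
          omega))
    have e0 : (cAf 0).val a y z + (M'.map fun _ => (0 : ℝ)).sum = 0 := by
      rw [cAf_val, Multiset.map_const', Multiset.sum_replicate, smul_zero, add_zero]
    rw [e0] at hr
    exact hr

/-- RICHNESS of a row, real form. -/
theorem sideR3_real (hS : SpS) (rd ks Ps : List ℕ) (hcnt : CntOK rd (cnts rd 1)) (hk : ks.length = rd.length)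
    (hP : Ps.length = rd.length) (hkn : KnOK ks) {a0 a1 y0 y1 z0 z1 : ℝ} (hB : Bx a0 a1 y0 y1 z0 z1)
    (s bd : ℕ) (hs : 0 < s) (jx : Bool → Bool → Bool → ℕ) (tabs : List (ℕ × ℕ))
    (hT : GX rd ks s bd a0 a1 y0 y1 z0 z1 jx tabs)
    (d vh T1 p1 lb : ℕ)
    (h : rowR rd ks Ps vh d s bd T1 p1 lb tabs = true)
    (ns : List ℕ) (fs : List Bool) (M' : Multiset ℝ) (hred : Red 0 (kR ks) ns fs M')
    (h1 : Pk.dotN ns ks + lowN 0 ks fs ≤ T1) (h2 : Pk.dotN ns Ps + lowN 0 Ps fs ≤ p1)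
    (h3 : lb ≤ Pk.dotN ns ks + uppN ks fs) :
    ∀ a y z : ℝ, a0 ≤ a → a ≤ a1 → y0 ≤ y → y ≤ y1 → z0 ≤ z → z ≤ z1 →
      max (FM (1 ::ₘ a ::ₘ y ::ₘ z ::ₘ M')) ((vh : ℝ) / 10 ^ 7) + (d : ℝ) / 10 ^ 7 ≤ WD.Wd (a + y + z + M'.sum) := by
  obtain ⟨q1, q2, q3, q4, q5⟩ := hS.s2 (kR ks) 0 ns fs M' le_rfl hkn hred
  rw [kR_length] at q4 q5
  obtain ⟨hrm, hsc⟩ := rowR_sound rd ks Ps hcnt hk hP vh d s bd T1 p1 lb
    tabs (bd8_of hT) h ns fs (by omega) (by omega) h1 h2 h3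
  have hc4 := cors2 ns rd fs (by omega) hrm
  intro a y z ha1 ha2 hy1 hy2 hz1 hz2
  have hM : ∀ e ∈ M', 0 ≤ e ∧ e ≤ 1 := fun e he => ⟨(q3 e he).1, (q3 e he).2.trans (S6M.inc_top _ _ hkn)⟩
  have hr := richV (d := (d : ℝ) / 10 ^ 7) (cAf ((vh : ℝ) / 10 ^ 7)) (fun _ => 0) hB.la hB.ua hB.ly hB.uy hB.lz hB.uz
    ha1 ha2 hy1 hy2 hz1 hz2 hkn (aff_zero _ _) hred hM (by
    intro ba bb bc t ht
    obtain ⟨o, ho, ho1, -, -, ho2, ho3, ho4⟩ := hc4 t ht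
    have l1 := hsc o ho
    rw [← ho2] at l1
    have hq := hT.ln ba bb bc
    obtain ⟨m2, m3⟩ := l1 _ hq
    exact rich_at3 (hT.tb ba bb bc) hs t.1 t.2 ho3 d vh (cAf ((vh : ℝ) / 10 ^ 7)) (fun _ => 0) (by
      rw [cAf_val, Multiset.map_const', Multiset.sum_replicate, smul_zero, add_zero]) m2 m3)
  have e0 : (cAf ((vh : ℝ) / 10 ^ 7)).val a y z + (M'.map fun _ => (0 : ℝ)).sum = (vh : ℝ) / 10 ^ 7 := by
    rw [cAf_val, Multiset.map_const', Multiset.sum_replicate, smul_zero, add_zero]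
  rw [e0] at hr
  exact hr

end B3
end Pool.Agent.Lib.MP_6947cd_al
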