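import Pool.Agent.Lib.MP_6947cd_al.C.LeafR
import Pool.Agent.Lib.MP_6947cd_al.Z.Side2

/-!
Problem MP_6947cd_al (Chollet).  CASE C: statements of the parts of the check of a leaf.

All the borders of the cells are multiples of `1 / 400`.
-/

set_option autoImplicit false
open Finset

namespace Pool.Agent.Lib.MP_6947cd_al
namespace C1

open Ent Ent.Pk Fr Fr.WT CC B1 PkA

/-- `V` = values (at the corners of the coordinates `0`, `j`, `k`) of a lower bound of the merged entry -/
def UOk (lo hi : Fin 7 → ℝ) (j k : Fin 7) (V : Bool → Bool → Bool → ℝ) : Prop :=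
  ∀ v, Box lo hi v → 2 * (1 + v 0) * Ip lo hi (fun e => V (e 0) (e j) (e k)) v
    ≤ (2 - Real.sqrt (1 - v 0)) * v j + (2 + Real.sqrt (1 - v 0)) * v k - (1 - v 0)

/-- the end of an interval, unit `1 / 400` -/
noncomputable def en (a b : ℕ) (c : Bool) : ℝ := ((bif c then b else a : ℕ) : ℝ) / 400

/-- THE CHECK OF A ROW, result (`al` = alternative of a payer): lines at the eight corners of the box of the special
entries, for every multiset `M'` reduced with respect to the knots `ks` (unit `1 / 200`) which passes the filters. -/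
def RowRes (rd ks Ps : List ℕ) (T1 p1 : ℕ) (A β : ℝ) (cf : B2.Af) (γ φ : ℝ → ℝ) (a0 a1 y0 y1 z0 z1 : ℕ)
    (R : Bool → Bool → Bool → ℝ) : Prop :=
  ∀ (ns : List ℕ) (fs : List Bool) (M' : Multiset ℝ), Red 0 (kR ks) ns fs M' →
    List.Forall₂ (fun n r => n + 3 < r) ns rd →
    Pk.dotN ns ks + lowN 0 ks fs ≤ T1 → Pk.dotN ns Ps + lowN 0 Ps fs ≤ p1 →
    ∀ ba bb bc : Bool, B2.VJ A β cf γ φ (en a0 a1 ba) (en y0 y1 bb) (en z0 z1 bc) M' ≤ R ba bb bc

end C1
end Pool.Agent.Lib.MP_6947cd_al
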