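import Pool.Agent.Lib.MP_6947cd_al.C.TabH
import Pool.Agent.Lib.MP_6947cd_al.L.ReP

/-!
Problem MP_6947cd_al (Chollet).  THE CHECK OF PACKED TABLES, second form: row values exact on the grid `1 / 400`, the
gap to the next nonzero digit is a word of the data (no logarithm), one loop over the rows.
-/

set_option autoImplicit false
open Finset

namespace Pool.Agent.Lib.MP_6947cd_al
namespace PkA
namespace TF

open Ent Ent.Pk Fr Fr.WT B1
open RE (cb frl)

lemma cbT {a x : Bool} (h : cb a x false = true) : a = true ∧ x = true := by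
  cases a with
  | true => exact ⟨rfl, h⟩
  | false => exact Bool.noConfusion h

lemma frlE {α : Type} (n : ℕ) (f : ℕ → α) : frl n f = f n := by cases n <;> rfl

/-! ### row values on the grid `1 / 400` -/

/-- values on the grid `T / 400`, times `8 * 10 ^ 7` -/
def w8d (T : ℕ) : ℕ :=
  frl (Nat.div T (nat_lit 8)) fun k => frl (Nat.mod T (nat_lit 8)) fun r =>
    Nat.add (Nat.mul (Nat.sub (nat_lit 8) r) (WD.yd k)) (Nat.mul r (WD.yd (Nat.succ k)))

theorem w8d_eq (T : ℕ) (h1 : 120 ≤ T) (h2 : T < 6400) : (w8d T : ℝ) / 80000000 = WD.Wd ((T : ℝ) / 400) := by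
  have hk : 15 ≤ T / 8 := by omega
  have hk' : T / 8 ≤ 799 := by omega
  have hT : (T : ℝ) = 8 * ((T / 8 : ℕ) : ℝ) + ((T % 8 : ℕ) : ℝ) := by
    have := Nat.div_add_mod T 8
    exact_mod_cast this.symm
  have hr : ((T % 8 : ℕ) : ℝ) < 8 := by
    have := Nat.mod_lt T (show 8 > 0 by norm_num)
    exact_mod_cast this
  have hr0 : (0 : ℝ) ≤ ((T % 8 : ℕ) : ℝ) := Nat.cast_nonneg _
  rw [WD.Wd_piece (T / 8) hk hk' ((T : ℝ) / 400) (by rw [hT]; linarith) (by rw [hT]; linarith)]
  have e : w8d T = (8 - T % 8) * WD.yd (T / 8) + T % 8 * WD.yd (T / 8 + 1) := by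
    unfold w8d
    rw [frlE, frlE]
    rfl
  rw [e]
  unfold WD.lineD WD.yr'
  have hsub : ((8 - T % 8 : ℕ) : ℝ) = 8 - ((T % 8 : ℕ) : ℝ) := by
    rw [Nat.cast_sub (by have := Nat.mod_lt T (show 8 > 0 by norm_num); omega)]
    norm_num
  push_cast [hsub]
  generalize ((WD.yd (T / 8) : ℕ) : ℝ) = y0
  generalize ((WD.yd (T / 8 + 1) : ℕ) : ℝ) = y1
  rw [hT]
  generalize ((T / 8 : ℕ) : ℝ) = k
  generalize ((T % 8 : ℕ) : ℝ) = r
  ring

/-- the row value; `s` = sum of the special entries (unit `1 / 400`) -/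
noncomputable def wdE (s : ℕ) (ks ns : List ℕ) (w : ℕ) : Bool :=
  frl (Nat.add s (Nat.mul (nat_lit 2) (ldot ns ks (nat_lit 0)))) fun T =>
    cb (Nat.ble (nat_lit 120) T) (cb (Nat.ble T (nat_lit 6399))
      (Nat.ble (Nat.mul (nat_lit 8) w) (w8d T)) false) false

lemma wdE_sound {s w : ℕ} {ks ns : List ℕ} (h : wdE s ks ns w = true) {σ : ℝ} (hσ : (s : ℝ) / 400 = σ) :
    (w : ℝ) / 10 ^ 7 ≤ WD.Wd (σ + (Ent.mk ns (kR ks)).sum) := by
  unfold wdE at h
  rw [frlE] at h
  obtain ⟨h1, h⟩ := cbT h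
  obtain ⟨h2, h⟩ := cbT h
  rw [ldot_eq] at h1 h2 h
  have e : ((Nat.add s (Nat.mul 2 (0 + Pk.dotN ns ks)) : ℕ) : ℝ) / 400 = σ + (Ent.mk ns (kR ks)).sum := by
    rw [mk_sum, Nat.zero_add, ← hσ]
    show ((s + 2 * Pk.dotN ns ks : ℕ) : ℝ) / 400 = _
    push_cast
    ring
  have h1 : 120 ≤ Nat.add s (Nat.mul 2 (0 + Pk.dotN ns ks)) := Nat.le_of_ble_eq_true h1
  have h2 : Nat.add s (Nat.mul 2 (0 + Pk.dotN ns ks)) ≤ 6399 := Nat.le_of_ble_eq_true h2
  rw [← e, ← w8d_eq _ h1 (Nat.lt_succ_of_le h2), div_le_div_iff₀ (by norm_num) (by norm_num)]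
  have h4 : (8 : ℝ) * (w : ℝ) ≤ (w8d (Nat.add s (Nat.mul 2 (0 + Pk.dotN ns ks))) : ℕ) := by
    exact_mod_cast Nat.le_of_ble_eq_true h
  nlinarith

/-! ### the loop over the rows -/

/-- `b` = index of the lowest digit of `B`; a record of `XS` has the `R` words of the certificate and the gap to the
next nonzero digit, `R32 = 32 R`, `msk = 2 ^ (R32 + 32) - 1` -/
noncomputable def tabL (rc : List ℕ → ℕ → ℕ → Bool) (rd ks : List ℕ) (s R32 R33 msk : ℕ) (f : ℕ) :
    ℕ → ℕ → ℕ → Bool :=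
  @Nat.rec (fun _ => ℕ → ℕ → ℕ → Bool) (fun _ B _ => Nat.beq B (nat_lit 0))
    (fun _ ih b B XS =>
      frl (Nat.land XS msk) fun N => frl (Nat.shiftRight N R32) fun d => frl (Nat.mul (nat_lit 64) d) fun q =>
      frl (Nat.shiftRight B q) fun B1 => cb (Nat.beq (Nat.shiftLeft B1 q) B)
        (frl (Nat.land B1 (nat_lit 18446744073709551615)) fun D =>
          frl (Nat.land D (nat_lit 4294967295)) fun V => frl (Nat.add b d) fun i =>
          cb (CA.digC rd i fun ns => cb (rc ns N V) (frl (Nat.shiftRight D (nat_lit 32)) fun w => wdE s ks ns w) false)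
            (frl (Nat.succ i) fun i' => frl (Nat.shiftRight B1 (nat_lit 64)) fun B' =>
              frl (Nat.shiftRight XS R33) fun XS' => ih i' B' XS') false) false) f

/-- THE CHECK OF A RANGE of a table: the digits `i0 ≤ i < i1` of `X`; `n` = number of the nonzero digits -/
noncomputable def tabE (rc : List ℕ → ℕ → ℕ → Bool) (sp rd ks : List ℕ) (R n X XS i0 i1 : ℕ) : Bool :=
  frl (lsum sp (nat_lit 0)) fun s => frl (Nat.mul (nat_lit 32) R) fun R32 =>
  frl (Nat.add R32 (nat_lit 32)) fun R33 =>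
  frl (Nat.sub (Nat.shiftLeft (nat_lit 1) R33) (nat_lit 1)) fun msk =>
  frl (Nat.land (Nat.shiftRight X (Nat.mul (nat_lit 64) i0))
    (Nat.sub (Nat.shiftLeft (nat_lit 1) (Nat.mul (nat_lit 64) (Nat.sub i1 i0))) (nat_lit 1))) fun B =>
    tabL rc rd ks s R32 R33 msk n i0 B XS

section
variable {S : Multiset ℝ} {rd ks : List ℕ} {rc : List ℕ → ℕ → ℕ → Bool} {s : ℕ}

lemma tabL_sound (hrc : RcF S ks rc) (hs : (s : ℝ) / 400 = S.sum) (R32 R33 msk f : ℕ) :
    ∀ b B XS, tabL rc rd ks s R32 R33 msk f b B XS = true → ∀ j, 1 ≤ dg B j → FctF S rd ks (dg B j) (b + j) := by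
  induction f with
  | zero =>
    intro b B XS h j hj
    have h0 : B = 0 := Nat.eq_of_beq_eq_true h
    rw [h0, dg_eq, Nat.zero_div] at hj
    norm_num at hj
  | succ f ih =>
    intro b B XS h j hj
    have e : tabL rc rd ks s R32 R33 msk (f + 1) b B XS =
      (frl (Nat.land XS msk) fun N => frl (Nat.shiftRight N R32) fun d => frl (Nat.mul (nat_lit 64) d) fun q =>
      frl (Nat.shiftRight B q) fun B1 => cb (Nat.beq (Nat.shiftLeft B1 q) B)
        (frl (Nat.land B1 (nat_lit 18446744073709551615)) fun D =>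
          frl (Nat.land D (nat_lit 4294967295)) fun V => frl (Nat.add b d) fun i =>
          cb (CA.digC rd i fun ns => cb (rc ns N V) (frl (Nat.shiftRight D (nat_lit 32)) fun w => wdE s ks ns w) false)
            (frl (Nat.succ i) fun i' => frl (Nat.shiftRight B1 (nat_lit 64)) fun B' =>
              frl (Nat.shiftRight XS R33) fun XS' => tabL rc rd ks s R32 R33 msk f i' B' XS') false) false) := rfl
    rw [e] at h
    simp only [frlE] at h
    obtain ⟨d, hd⟩ : ∃ d, d = Nat.shiftRight (Nat.land XS msk) R32 := ⟨_, rfl⟩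
    rw [← hd] at h
    obtain ⟨h1, h⟩ := cbT h
    obtain ⟨h2, h4⟩ := cbT h
    have h1 : Nat.shiftLeft (Nat.shiftRight B (Nat.mul 64 d)) (Nat.mul 64 d) = B := Nat.eq_of_beq_eq_true h1
    have e3 : Nat.shiftRight (Nat.shiftRight B (Nat.mul 64 d)) (nat_lit 64) = Nat.shiftRight B (Nat.mul 64 (d + 1)) := by
      show (B >>> (64 * d)) >>> 64 = B >>> (64 * (d + 1))
      rw [← Nat.shiftRight_add]
      congr 1
    have eD : Nat.land (Nat.shiftRight B (Nat.mul 64 d)) (nat_lit 18446744073709551615) = dg B d := rfl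
    rw [e3] at h4
    rw [eD] at h2
    rcases Nat.lt_trichotomy j d with hlt | rfl | hgt
    · exfalso
      rw [← h1, dg_shl _ _ _ hlt] at hj
      norm_num at hj
    · rw [CA.digC_eq] at h2
      obtain ⟨h9, h10⟩ := cbT h2
      exact ⟨hrc _ _ _ h9, wdE_sound h10 hs⟩
    · obtain ⟨e', he'⟩ := Nat.exists_eq_add_of_lt hgt
      have h7 := ih _ _ _ h4 e' (by
        rw [dg_shr, show e' + (d + 1) = j by omega]
        exact hj)
      rw [dg_shr, show e' + (d + 1) = j by omega] at h7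
      have e4 : Nat.succ (Nat.add b d) + e' = b + j := by
        show b + d + 1 + e' = b + j
        omega
      rw [e4] at h7
      exact h7

end

/-- SOUNDNESS of the check of a range. -/
theorem tabE_sound {rc : List ℕ → ℕ → ℕ → Bool} {sp rd ks : List ℕ} (hrc : RcF (msp sp) ks rc)
    {R n X XS i0 i1 : ℕ} (h : tabE rc sp rd ks R n X XS i0 i1 = true) : RngF (msp sp) rd ks X i0 i1 := by
  unfold tabE at h
  simp only [frlE] at h
  rw [lsum_eq, Nat.zero_add] at h
  have h4 := tabL_sound hrc (msp_sum sp).symm _ _ _ _ _ _ _ h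
  intro i h5 h6 h7
  obtain ⟨j, rfl⟩ := Nat.exists_eq_add_of_le h5
  have h8 : j < Nat.sub i1 i0 := by
    show j < i1 - i0
    omega
  have h9 := h4 j
  rw [dg_cut _ _ _ h8, dg_shr, show j + i0 = i0 + j by ring] at h9
  exact h9 h7

/-! ### certificates -/

/-- the number one for every nonzero special entry -/
noncomputable def o1 (sp : List ℕ) : List ℕ :=
  @List.rec ℕ (fun _ => List ℕ) [] (fun x _ ih => cond (Nat.beq x (nat_lit 0)) ih ((nat_lit 1) :: ih)) sp

lemma app_eq (a b : List ℕ) : CA.app a b = a ++ b := by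
  induction a with
  | nil => rfl
  | cons x a ih =>
    have e : CA.app (x :: a) b = x :: CA.app a b := rfl
    rw [e, ih, List.cons_append]

lemma oF_app (ns sp : List ℕ) : CA.app (o1 sp) ns = oF ns sp := by
  rw [app_eq]
  induction sp with
  | nil => rfl
  | cons x sp ih =>
    have e : o1 (x :: sp) = cond (Nat.beq x (nat_lit 0)) (o1 sp) (1 :: o1 sp) := rfl
    rw [e, oF]
    cases Nat.beq x (nat_lit 0) with
    | true => exact ih
    | false => exact congrArg (List.cons 1) ih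

/-- `D` = packed numbers, 32 bits; `rk` = `rowOK` or any other sound check -/
noncomputable def rcQ (rk : List (ℕ × ℕ) → List ℕ → List ℕ → ℕ → Bool) (sp ks : List ℕ) (R : ℕ) (ns : List ℕ)
    (D V : ℕ) : Bool :=
  CA.upk R D fun X => rk ((1, 1) :: vF ks sp) (1 :: CA.app (o1 sp) ns) X V

theorem rcF_Q {rk : List (ℕ × ℕ) → List ℕ → List ℕ → ℕ → Bool} (hrk : RcOK rk) (sp ks : List ℕ) (R : ℕ) :
    RcF (msp sp) ks (rcQ rk sp ks R) := by
  intro ns D V h
  unfold rcQ at h
  rw [oF_app] at h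
  exact rcF_P hrk sp ks R ns D V h

/-- a range of a table, certificate `rowOK` -/
theorem rngO2 {sp rd ks : List ℕ} {R n X XS i0 i1 : ℕ}
    (h : tabE (rcQ rowOK sp ks R) sp rd ks R n X XS i0 i1 = true) : RngF (msp sp) rd ks X i0 i1 :=
  tabE_sound (rcF_Q rcOK_row sp ks R) h

/-- a range of a table, certificate `rowE` (its soundness is a hypothesis: the table modules need the program only) -/
theorem rngE (hE : RcOK RE.rowE) {sp rd ks : List ℕ} {R n X XS i0 i1 : ℕ}
    (h : tabE (rcQ RE.rowE sp ks R) sp rd ks R n X XS i0 i1 = true) : RngF (msp sp) rd ks X i0 i1 :=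
  tabE_sound (rcF_Q hE sp ks R) h

end TF
end PkA
end Pool.Agent.Lib.MP_6947cd_al
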