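import Pool.Agent.Lib.MP_6947cd_al.C.TabF

/-!
Problem MP_6947cd_al (Chollet).  Short names for the generated tables: a range with the certificate `rowOK`, a node of
a search tree, environments.
-/

set_option autoImplicit false
open Finset

namespace Pool.Agent.Lib.MP_6947cd_al
namespace PkA
namespace TF

open Ent Ent.Pk Fr Fr.WT B1

/-- a range of a table, certificate `rowOK` -/
theorem rngO {sp rd ks : List ℕ} {R X XS i0 i1 : ℕ}
    (h : tabG (rcP rowOK sp ks R) sp rd ks R X XS i0 i1 = true) : RngF (msp sp) rd ks X i0 i1 :=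
  tabG_sound (rcF_P rcOK_row sp ks R) h

/-- the check of a node of a search tree -/
noncomputable def ndC (rd : List ℕ) (a y z N k : ℕ) : Bool :=
  Nat.beq (prd rd) N && (Nat.ble (a + 1) 1024 && (Nat.ble (y + 1) 1024 && (Nat.ble (z + 1) 1024 &&
    Nat.beq k (ky3 a y z))))

/-- a node of a search tree -/
theorem ndB {rd ks : List ℕ} {l r : TT} {a y z X N k : ℕ} (hl : TOK rd ks l) (hr : TOK rd ks r)
    (h : RngF (msp [a, y, z]) rd ks X 0 N) (hb : ndC rd a y z N k = true) : TOK rd ks (.node l k X r) := by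
  unfold ndC at hb
  rw [Bool.and_eq_true, Bool.and_eq_true, Bool.and_eq_true, Bool.and_eq_true] at hb
  obtain ⟨h1, h2, h3, h4, h5⟩ := hb
  exact TOK.node hl hr h (Nat.eq_of_beq_eq_true h1) (Nat.le_of_ble_eq_true h2) (Nat.le_of_ble_eq_true h3)
    (Nat.le_of_ble_eq_true h4) (Nat.eq_of_beq_eq_true h5)

theorem EnvF.nil : EnvF [] := fun _ h => absurd h (List.not_mem_nil)

theorem EnvF.cons {F : Fam} {l : List Fam} (h : F.OK) (hl : EnvF l) : EnvF (F :: l) := by
  intro G hG
  rcases List.mem_cons.mp hG with rfl | hG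
  · exact h
  · exact hl G hG

end TF
end PkA
end Pool.Agent.Lib.MP_6947cd_al
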