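import Pool.Agent.Lib.MP_6947cd_al.C.TabE

/-!
Problem MP_6947cd_al (Chollet).  Short names for the generated tables of case B (second entry below `17 / 20`).
-/

set_option autoImplicit false
open Finset

namespace Pool.Agent.Lib.MP_6947cd_al
namespace PkA
namespace TF

open Ent Ent.Pk Fr Fr.WT B1

/-- the table of the special entries `a, y, z` of a family is correct -/
def TbF (F : Fam) (a y z X N : ℕ) : Prop := RngF (msp [a, y, z]) F.rd F.ks X 0 N

/-- the check of a range with `rowE` -/
noncomputable def tE (F : Fam) (a y z R n X XS i0 i1 : ℕ) : Bool :=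
  @Fam.rec (fun _ => Bool) (fun rd ks _ => tabE (rcQ RE.rowE [a, y, z] ks R) [a, y, z] rd ks R n X XS i0 i1) F

/-- a range of a table, certificate `rowE` -/
theorem rngT (hE : RcOK RE.rowE) {F : Fam} {a y z R n X XS i0 i1 : ℕ} (h : tE F a y z R n X XS i0 i1 = true) :
    RngF (msp [a, y, z]) F.rd F.ks X i0 i1 := by
  obtain ⟨rd, ks, T⟩ := F
  exact rngE hE h

/-- a whole table in one range -/
theorem tb1 (hE : RcOK RE.rowE) {F : Fam} {a y z R n X XS N : ℕ} (h : tE F a y z R n X XS (nat_lit 0) N = true) :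
    TbF F a y z X N := rngT hE h

/-- the last range -/
theorem tbZ {F : Fam} {a y z X N i : ℕ} (h : RngF (msp [a, y, z]) F.rd F.ks X (nat_lit 0) i)
    (h' : RngF (msp [a, y, z]) F.rd F.ks X i N) : TbF F a y z X N := RngF.glue h h'

/-- a node of the search tree of a family -/
theorem ndF {F : Fam} {l r : TT} {a y z X N k : ℕ} (hl : TOK F.rd F.ks l) (hr : TOK F.rd F.ks r)
    (h : TbF F a y z X N) (hb : ndC F.rd a y z N k = true) : TOK F.rd F.ks (.node l k X r) := ndB hl hr h hb

theorem okF {F : Fam} (h : famC F.rd F.ks = true) (hT : TOK F.rd F.ks F.T) : F.OK := by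
  obtain ⟨rd, ks, T⟩ := F
  exact Fam.OK.of h hT

end TF
end PkA
end Pool.Agent.Lib.MP_6947cd_al
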