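import Pool.Agent.Lib.MP_6947cd_al.C.TabF

/-!
Problem MP_6947cd_al (Chollet).  Sparse numerals of the generated tables.
-/

set_option autoImplicit false

namespace Pool.Agent.Lib.MP_6947cd_al
namespace PkA
namespace TF

/-- the lowest digits `a`, the others (`r`) from the bit `k` on -/
def sg (a k r : ℕ) : ℕ := Nat.add a (Nat.shiftLeft r k)

end TF
end PkA
end Pool.Agent.Lib.MP_6947cd_al
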