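import Pool.Agent.Lib.MP_6947cd_al.Y.Cells
import Pool.Agent.Lib.MP_6947cd_al.Y.S4

/-!
Problem MP_6947cd_al (Chollet).  THE MASKS of a row as a walk over the knots (`2 ^ k` intersections), lazy terms only:
the kernel evaluates every closed term once and caches the value.  Room: two more entries at every knot, one more at
the last one.
-/

set_option autoImplicit false
open Finset

namespace Pool.Agent.Lib.MP_6947cd_al
namespace PkA

open Ent Ent.Pk Fr Fr.WT B1

/-! ### room -/

/-- room for two more entries at every knot, for one more at the last knot -/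
def Rm2 : List ℕ → List ℕ → Prop
  | [], [] => True
  | [n], [r] => n + 1 < r
  | n :: ns, r :: rd => n + 2 < r ∧ Rm2 ns rd
  | _, _ => False

lemma Rm2.cons {n r : ℕ} {ns rd : List ℕ} (h : Rm2 (n :: ns) (r :: rd)) :
    n + 1 < r ∧ (ns ≠ [] → n + 2 < r) ∧ Rm2 ns rd := by
  cases ns with
  | nil =>
    cases rd with
    | nil =>
      have h' : n + 1 < r := h
      exact ⟨h', fun h => absurd rfl h, trivial⟩
    | cons r' rd =>
      have h' : n + 2 < r ∧ Rm2 [] (r' :: rd) := h
      exact absurd h'.2 (by simp [Rm2])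
  | cons n' ns =>
    cases rd with
    | nil =>
      have h' : n + 2 < r ∧ Rm2 (n' :: ns) [] := h
      exact absurd h'.2 (by simp [Rm2])
    | cons r' rd =>
      have h' : n + 2 < r ∧ Rm2 (n' :: ns) (r' :: rd) := h
      exact ⟨by omega, fun _ => h'.1, h'.2⟩

lemma Rm2.of {n r : ℕ} {ns rd : List ℕ} (h1 : n + 1 < r) (h2 : ns ≠ [] → n + 2 < r) (h3 : Rm2 ns rd) :
    Rm2 (n :: ns) (r :: rd) := by
  cases ns with
  | nil =>
    cases rd with
    | nil => exact h1
    | cons r' rd => exact absurd h3 (by simp [Rm2])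
  | cons n' ns =>
    cases rd with
    | nil => exact absurd h3 (by simp [Rm2])
    | cons r' rd => exact ⟨h2 (by simp), h3⟩

lemma Rm2.okD {ns : List ℕ} : ∀ {rd : List ℕ}, Rm2 ns rd → CA.OkD rd ns := by
  induction ns with
  | nil =>
    intro rd h
    cases rd with
    | nil => exact List.Forall₂.nil
    | cons r rd => exact absurd h (by simp [Rm2])
  | cons n ns ih =>
    intro rd h
    cases rd with
    | nil => exact absurd h (by cases ns <;> simp [Rm2])
    | cons r rd =>
      obtain ⟨h1, _, h3⟩ := h.cons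
      exact List.Forall₂.cons (by omega) (ih h3)

/-- the check of the room: `T1` = bound of the sum of the entries, `p1` = bound of the price -/
noncomputable def rmC (T1 p1 : ℕ) : List ℕ → List ℕ → List ℕ → Bool :=
  @List.rec ℕ (fun _ => List ℕ → List ℕ → Bool) (fun _ _ => true)
    (fun r rd' ih ks Ps => @List.rec ℕ (fun _ => Bool) false (fun k ks' _ => @List.rec ℕ (fun _ => Bool) false
      (fun p Ps' _ =>
        let r' := @List.rec ℕ (fun _ => ℕ) (Nat.sub r (nat_lit 1)) (fun _ _ _ => Nat.sub r (nat_lit 2)) rd';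
        cond (cond (Nat.ble (Nat.succ T1) (Nat.mul k r')) true (Nat.ble (Nat.succ p1) (Nat.mul p r')))
          (ih ks' Ps') false) Ps) ks)

theorem rmC_sound (T1 p1 : ℕ) : ∀ (rd ks Ps ns : List ℕ), rmC T1 p1 rd ks Ps = true → ns.length = rd.length →
    Pk.dotN ns ks ≤ T1 → Pk.dotN ns Ps ≤ p1 → Rm2 ns rd := by
  intro rd
  induction rd with
  | nil =>
    intro ks Ps ns _ hl _ _
    have : ns = [] := List.length_eq_zero_iff.mp hl
    subst this
    trivial
  | cons r rd ih =>
    intro ks Ps ns h hl h1 h2
    cases ns with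
    | nil => exact absurd hl (by simp)
    | cons n ns =>
      cases ks with
      | nil => exact absurd h (by simp [rmC])
      | cons k ks =>
        cases Ps with
        | nil => exact absurd h (by simp [rmC])
        | cons p Ps =>
          have e : rmC T1 p1 (r :: rd) (k :: ks) (p :: Ps) =
            cond (cond (Nat.ble (Nat.succ T1) (Nat.mul k
              (@List.rec ℕ (fun _ => ℕ) (Nat.sub r (nat_lit 1)) (fun _ _ _ => Nat.sub r (nat_lit 2)) rd))) true
              (Nat.ble (Nat.succ p1) (Nat.mul p
              (@List.rec ℕ (fun _ => ℕ) (Nat.sub r (nat_lit 1)) (fun _ _ _ => Nat.sub r (nat_lit 2)) rd))))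
              (rmC T1 p1 rd ks Ps) false := rfl
          rw [e] at h
          obtain ⟨h3, h4⟩ := cond_eq_true h
          obtain ⟨r', hr'⟩ : ∃ r', r' = @List.rec ℕ (fun _ => ℕ) (Nat.sub r (nat_lit 1))
            (fun _ _ _ => Nat.sub r (nat_lit 2)) rd := ⟨_, rfl⟩
          rw [← hr'] at h3
          have d1 : n * k + Pk.dotN ns ks ≤ T1 := h1
          have d2 : n * p + Pk.dotN ns Ps ≤ p1 := h2
          have hn : n < r' := by
            cases hb : Nat.ble (Nat.succ T1) (Nat.mul k r') with
            | true =>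
              have h5 : T1 + 1 ≤ k * r' := Nat.le_of_ble_eq_true hb
              by_contra hcon
              push Not at hcon
              have := Nat.mul_le_mul_left k hcon
              rw [Nat.mul_comm k n] at this
              omega
            | false =>
              rw [hb, cond_false] at h3
              have h5 : p1 + 1 ≤ p * r' := Nat.le_of_ble_eq_true h3
              by_contra hcon
              push Not at hcon
              have := Nat.mul_le_mul_left p hcon
              rw [Nat.mul_comm p n] at this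
              omega
          have hl' : ns.length = rd.length := by simpa using hl
          refine Rm2.of ?_ (fun hne => ?_) (ih ks Ps ns h4 hl' (by omega) (by omega))
          · cases rd with
            | nil =>
              have : r' = r - 1 := hr'
              omega
            | cons r2 rd =>
              have : r' = r - 2 := hr'
              omega
          · cases rd with
            | nil => exact absurd (List.length_eq_zero_iff.mp hl') hne
            | cons r2 rd =>
              have : r' = r - 2 := hr'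
              omega

/-- corners and offsets -/
theorem cors2 (ns : List ℕ) : ∀ (rd : List ℕ) (fs : List Bool), fs.length = ns.length →
    Rm2 ns rd → ∀ t ∈ cors ns fs,
    ∃ o ∈ coff rd fs, o.1 = t.1 ∧ t.1 ≤ 1 ∧ (ns = [] → t.1 = 0) ∧ CA.idx rd t.2 = CA.idx rd ns + o.2 ∧
      CA.OkD rd t.2 ∧ t.2.length = ns.length := by
  induction ns with
  | nil =>
    intro rd fs hl h t ht
    have e : t = (0, []) := by simpa [cors] using ht
    subst e
    have e2 : fs = [] := List.length_eq_zero_iff.mp hl
    subst e2
    have hrd : rd = [] := by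
      cases rd with
      | nil => rfl
      | cons r rd => exact absurd h (by simp [Rm2])
    subst hrd
    exact ⟨(0, 0), by simp [coff], rfl, Nat.zero_le 1, fun _ => rfl, rfl, List.Forall₂.nil, rfl⟩
  | cons n ns ih =>
    intro rd fs hl h t ht
    cases rd with
    | nil => exact absurd h (by cases ns <;> simp [Rm2])
    | cons r rd =>
      obtain ⟨h1, h2, h3⟩ := h.cons
      cases fs with
      | nil => exact absurd hl (by simp)
      | cons f fs =>
        have hl' : fs.length = ns.length := by simpa using hl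
        have key : ∀ s ∈ cors ns fs, s.1 ≤ 1 → (ns = [] → s.1 = 0) → n + s.1 + 1 < r := by
          intro s _ hs1 hs0
          by_cases hns : ns = []
          · rw [hs0 hns]
            omega
          · have := h2 hns
            omega
        cases f with
        | true =>
          have ht' : ∃ s ∈ cors ns fs, t = (1, (n + s.1) :: s.2) ∨ t = (0, (n + s.1 + 1) :: s.2) := by
            simpa [cors, List.mem_flatMap] using ht
          obtain ⟨s, hs, hts⟩ := ht'
          obtain ⟨o, ho, e1, e2, e0, e3, e4, e5⟩ := ih rd fs hl' h3 s hs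
          have hk := key s hs e2 e0
          rcases hts with rfl | rfl
          · refine ⟨(1, o.1 + r * o.2), ?_, rfl, le_rfl, fun h => absurd h (by simp), ?_, ?_, ?_⟩
            · simp only [coff, List.mem_flatMap]
              exact ⟨o, ho, by simp⟩
            · show (n + s.1) + r * CA.idx rd s.2 = n + r * CA.idx rd ns + (o.1 + r * o.2)
              rw [e3, e1]
              ring
            · exact List.Forall₂.cons (by omega) e4
            · simpa using e5
          · refine ⟨(0, o.1 + 1 + r * o.2), ?_, rfl, Nat.zero_le 1, fun h => absurd h (by simp), ?_, ?_, ?_⟩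
            · simp only [coff, List.mem_flatMap]
              exact ⟨o, ho, by simp⟩
            · show (n + s.1 + 1) + r * CA.idx rd s.2 = n + r * CA.idx rd ns + (o.1 + 1 + r * o.2)
              rw [e3, e1]
              ring
            · exact List.Forall₂.cons (by omega) e4
            · simpa using e5
        | false =>
          have ht' : ∃ s ∈ cors ns fs, t = (0, (n + s.1) :: s.2) := by
            simpa [cors, List.mem_flatMap] using ht
          obtain ⟨s, hs, rfl⟩ := ht'
          obtain ⟨o, ho, e1, e2, e0, e3, e4, e5⟩ := ih rd fs hl' h3 s hs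
          have hk := key s hs e2 e0
          refine ⟨(0, o.1 + r * o.2), ?_, rfl, Nat.zero_le 1, fun h => absurd h (by simp), ?_, ?_, ?_⟩
          · simp only [coff, List.mem_flatMap]
            exact ⟨o, ho, by simp⟩
          · show (n + s.1) + r * CA.idx rd s.2 = n + r * CA.idx rd ns + (o.1 + r * o.2)
            rw [e3, e1]
            ring
          · exact List.Forall₂.cons (by omega) e4
          · simpa using e5

/-! ### offsets -/

/-- the offsets of the corners: `s'`, `s` = strides of the previous knot and of the knot -/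
def offs : ℕ → ℕ → List ℕ → List Bool → List ℕ
  | s', s, r :: rd, true :: fs => (offs s (s * r) rd fs).flatMap fun o => [o + s', o + s]
  | _, s, r :: rd, false :: fs => offs s (s * r) rd fs
  | _, _, _, _ => [0]

lemma coff_offs (rd : List ℕ) : ∀ (fs : List Bool) (s' s : ℕ), ∀ o ∈ coff rd fs, s' * o.1 + s * o.2 ∈ offs s' s rd fs := by
  induction rd with
  | nil =>
    intro fs s' s o ho
    have e : o = (0, 0) := by simpa [coff] using ho
    subst e
    simp [offs]
  | cons r rd ih =>
    intro fs s' s o ho
    cases fs with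
    | nil =>
      have e : o = (0, 0) := by simpa [coff] using ho
      subst e
      simp [offs]
    | cons f fs =>
      cases f with
      | true =>
        simp only [coff, List.mem_flatMap] at ho
        obtain ⟨t, ht, hot⟩ := ho
        have h1 := ih fs s (s * r) t ht
        simp only [offs, List.mem_flatMap]
        refine ⟨_, h1, ?_⟩
        simp only [List.mem_cons, List.not_mem_nil, or_false] at hot
        rcases hot with rfl | rfl
        · simp only [List.mem_cons]
          left
          ring
        · simp only [List.mem_cons, List.not_mem_nil, or_false]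
          right
          ring
      | false =>
        simp only [coff, List.mem_flatMap, List.mem_singleton] at ho
        obtain ⟨t, ht, rfl⟩ := ho
        have h1 := ih fs s (s * r) t ht
        have e : s' * 0 + s * (t.1 + r * t.2) = s * t.1 + s * r * t.2 := by ring
        simp only [offs]
        rw [e]
        exact h1

/-! ### the walk -/

/-- intersections of the shifts (`a`, `b` in bits) -/
noncomputable def shP (a b : ℕ) (Xs : List ℕ) : List ℕ :=
  @List.rec ℕ (fun _ => List ℕ) []
    (fun P _ ih => Nat.land (Nat.shiftRight P a) (Nat.shiftRight P b) :: ih) Xs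

/-- covering -/
noncomputable def covD (Xs : List ℕ) : ℕ → Bool :=
  @List.rec ℕ (fun _ => ℕ → Bool) (fun D => Nat.beq D (nat_lit 0))
    (fun P _ ih D => let D' := Nat.xor D (Nat.land D P);
      cond (Nat.beq D' (nat_lit 0)) true (ih D')) Xs

/-- the indices to be covered; `m1`, `m2`, `m3` = lower sum, price, upper sum of the mask -/
noncomputable def fD (ONE HH HR HX HP T1 p1 lb bX m1 m2 m3 : ℕ) : ℕ :=
  let D1 := Nat.land HH (Nat.add HR (Nat.mul (Nat.sub T1 m1) ONE));
  let D2 := cond (Nat.ble (Nat.add bX m2) p1) D1 (Nat.land D1 (Nat.add HX (Nat.mul (Nat.sub p1 m2) ONE)));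
  cond (Nat.ble lb m3) D2 (Nat.land D2 (Nat.sub HP (Nat.mul (Nat.sub lb m3) ONE)))

/-- the walk -/
noncomputable def wlk (ONE HH HR HX HP T1 p1 lb bX : ℕ) (rd : List ℕ) :
    List ℕ → List ℕ → ℕ → ℕ → ℕ → ℕ → ℕ → ℕ → ℕ → List ℕ → Bool :=
  @List.rec ℕ (fun _ => List ℕ → List ℕ → ℕ → ℕ → ℕ → ℕ → ℕ → ℕ → ℕ → List ℕ → Bool)
    (fun _ _ _ _ _ _ m1 m2 m3 Xs => let D := fD ONE HH HR HX HP T1 p1 lb bX m1 m2 m3;
      cond (Nat.beq D (nat_lit 0)) true (covD Xs D))
    (fun r _ ih ks Ps s' s kp pp m1 m2 m3 Xs =>
      @List.rec ℕ (fun _ => Bool) false (fun k ks' _ => @List.rec ℕ (fun _ => Bool) false (fun p Ps' _ =>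
        cond (ih ks' Ps' s (Nat.mul s r) k p m1 m2 m3 Xs)
          (let n1 := Nat.add m1 kp; let n2 := Nat.add m2 pp;
            cond (Nat.ble n1 T1) (cond (Nat.ble n2 p1)
            (ih ks' Ps' s (Nat.mul s r) k p n1 n2 (Nat.add m3 k) (shP s' s Xs)) true) true) false) Ps) ks) rd

lemma shP_eq (a b : ℕ) (Xs : List ℕ) : shP a b Xs = Xs.map fun P => Nat.land (Nat.shiftRight P a) (Nat.shiftRight P b) := by
  induction Xs with
  | nil => rfl
  | cons P Xs ih =>
    have e : shP a b (P :: Xs) = Nat.land (Nat.shiftRight P a) (Nat.shiftRight P b) :: shP a b Xs := rfl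
    rw [e, ih]
    rfl

lemma covD_sound (Xs : List ℕ) : ∀ D, covD Xs D = true → ∀ j, D.testBit j = true → ∃ P ∈ Xs, P.testBit j = true := by
  induction Xs with
  | nil =>
    intro D h j hj
    have h0 : D = 0 := Nat.eq_of_beq_eq_true h
    rw [h0, Nat.zero_testBit] at hj
    exact absurd hj (by simp)
  | cons P Xs ih =>
    intro D h j hj
    have e : covD (P :: Xs) D = cond (Nat.beq (Nat.xor D (Nat.land D P)) (nat_lit 0)) true
      (covD Xs (Nat.xor D (Nat.land D P))) := rfl
    rw [e] at h
    cases hP : P.testBit j with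
    | true => exact ⟨P, List.mem_cons_self, hP⟩
    | false =>
      have h3 : (Nat.xor D (Nat.land D P)).testBit j = true := by
        show (D ^^^ (D &&& P)).testBit j = true
        rw [Nat.testBit_xor, Nat.testBit_and, hj, hP]
        rfl
      cases hb : Nat.beq (Nat.xor D (Nat.land D P)) (nat_lit 0) with
      | true =>
        have h0 : Nat.xor D (Nat.land D P) = 0 := Nat.eq_of_beq_eq_true hb
        rw [h0, Nat.zero_testBit] at h3
        exact absurd h3 (by simp)
      | false =>
        rw [hb, cond_false] at h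
        obtain ⟨Q, q1, q2⟩ := ih _ h j h3
        exact ⟨Q, List.mem_cons_of_mem _ q1, q2⟩

/-- bit 63 of a difference -/
lemma bit63 (N : ℕ) (f A B : ℕ → ℕ) (hA : ∀ i < N, A i < 2 ^ 63) (hB : ∀ i < N, B i ≤ 2 ^ 63)
    (hf : ∀ i < N, f i = 2 ^ 63 + A i - B i) (i : ℕ) (hi : i < N) :
    (pk f N).testBit (64 * i + 63) = true ↔ B i ≤ A i := by
  have e : pk f N = pk (fun _ => 2 ^ 63) N + pk A N - pk B N := by
    rw [pk_add, pk_sub _ _ _ fun i hi => by have := hB i hi; omega]
    exact pk_congr _ _ _ hf
  rw [e]
  exact cmp_bit N A B hA hB i hi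

theorem fD_bit (N : ℕ) (r x : ℕ → ℕ) (T1 p1 lb bX m1 m2 m3 : ℕ)
    (hr : ∀ i < N, r i < 2 ^ 62) (hx : ∀ i < N, x i < 2 ^ 62) (hT : T1 < 2 ^ 62) (hp : p1 < 2 ^ 62) (i : ℕ) (hi : i < N) (h1 : r i + m1 ≤ T1) (h2 : x i + m2 ≤ p1) (h3 : lb ≤ r i + m3) :
    (fD (pk (fun _ => 1) N) (pk (fun _ => 2 ^ 63) N) (pk (fun i => 2 ^ 63 - r i) N) (pk (fun i => 2 ^ 63 - x i) N)
      (pk (fun i => 2 ^ 63 + r i) N) T1 p1 lb bX m1 m2 m3).testBit (64 * i + 63) = true := by
  have hc : ∀ c, Nat.mul c (pk (fun _ => 1) N) = pk (fun _ => c) N := by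
    intro c
    show c * pk (fun _ => 1) N = _
    rw [pk_mul]
    simp
  have b1 : (Nat.add (pk (fun i => 2 ^ 63 - r i) N) (Nat.mul (Nat.sub T1 m1) (pk (fun _ => 1) N))).testBit (64 * i + 63)
      = true := by
    rw [hc]
    show (pk (fun i => 2 ^ 63 - r i) N + pk (fun _ => T1 - m1) N).testBit (64 * i + 63) = true
    rw [pk_add]
    refine (bit63 N _ (fun _ => T1 - m1) r (fun i hi => by show T1 - m1 < 2 ^ 63; omega)
      (fun i hi => by have := hr i hi; omega) (fun i hi => by have := hr i hi; omega) i hi).mpr ?_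
    show r i ≤ T1 - m1
    omega
  have b2 : (Nat.add (pk (fun i => 2 ^ 63 - x i) N) (Nat.mul (Nat.sub p1 m2) (pk (fun _ => 1) N))).testBit (64 * i + 63)
      = true := by
    rw [hc]
    show (pk (fun i => 2 ^ 63 - x i) N + pk (fun _ => p1 - m2) N).testBit (64 * i + 63) = true
    rw [pk_add]
    refine (bit63 N _ (fun _ => p1 - m2) x (fun i hi => by show p1 - m2 < 2 ^ 63; omega)
      (fun i hi => by have := hx i hi; omega) (fun i hi => by have := hx i hi; omega) i hi).mpr ?_
    show x i ≤ p1 - m2
    omega
  have b3 : (Nat.sub (pk (fun i => 2 ^ 63 + r i) N) (Nat.mul (Nat.sub lb m3) (pk (fun _ => 1) N))).testBit (64 * i + 63)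
      = true := by
    rw [hc]
    show (pk (fun i => 2 ^ 63 + r i) N - pk (fun _ => lb - m3) N).testBit (64 * i + 63) = true
    rw [pk_sub _ _ _ fun i hi => by have := hr i hi; show lb - m3 ≤ 2 ^ 63 + r i; omega]
    refine (bit63 N _ r (fun _ => lb - m3) (fun i hi => by have := hr i hi; omega)
      (fun i hi => by show lb - m3 ≤ 2 ^ 63; omega) (fun i hi => rfl) i hi).mpr ?_
    show lb - m3 ≤ r i
    omega
  have eA : ∀ a b : ℕ, Nat.land a b = a &&& b := fun _ _ => rfl
  have b5 := hh_bit hi
  have hD1 : (Nat.land (pk (fun _ => 2 ^ 63) N) (Nat.add (pk (fun i => 2 ^ 63 - r i) N)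
      (Nat.mul (Nat.sub T1 m1) (pk (fun _ => 1) N)))).testBit (64 * i + 63) = true := by
    rw [eA, Nat.testBit_and, b1, b5]
    rfl
  unfold fD
  obtain ⟨D1, hD⟩ : ∃ D1, D1 = Nat.land (pk (fun _ => 2 ^ 63) N) (Nat.add (pk (fun i => 2 ^ 63 - r i) N)
      (Nat.mul (Nat.sub T1 m1) (pk (fun _ => 1) N))) := ⟨_, rfl⟩
  rw [← hD] at hD1
  simp only [← hD]
  have hD2 : (cond (Nat.ble (Nat.add bX m2) p1) D1 (Nat.land D1 (Nat.add (pk (fun i => 2 ^ 63 - x i) N)
      (Nat.mul (Nat.sub p1 m2) (pk (fun _ => 1) N))))).testBit (64 * i + 63) = true := by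
    cases Nat.ble (Nat.add bX m2) p1 with
    | true => exact hD1
    | false =>
      show (Nat.land D1 _).testBit _ = true
      rw [eA, Nat.testBit_and, hD1, b2]
      rfl
  cases Nat.ble lb m3 with
  | true => exact hD2
  | false =>
    show (Nat.land _ _).testBit _ = true
    rw [eA, Nat.testBit_and, hD2, b3]
    rfl

theorem wlk_sound (N : ℕ) (r x : ℕ → ℕ) (T1 p1 lb bX : ℕ)
    (hr : ∀ i < N, r i < 2 ^ 62) (hx : ∀ i < N, x i < 2 ^ 62) (hT : T1 < 2 ^ 62) (hp : p1 < 2 ^ 62) (rd : List ℕ) : ∀ (ks Ps : List ℕ) (s' s kp pp m1 m2 m3 : ℕ) (Xs : List ℕ),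
    wlk (pk (fun _ => 1) N) (pk (fun _ => 2 ^ 63) N) (pk (fun i => 2 ^ 63 - r i) N) (pk (fun i => 2 ^ 63 - x i) N)
      (pk (fun i => 2 ^ 63 + r i) N) T1 p1 lb bX rd ks Ps (64 * s') (64 * s) kp pp m1 m2 m3 Xs = true →
    ∀ fs : List Bool, ks.length = rd.length → Ps.length = rd.length → fs.length = rd.length → ∀ i < N,
      r i + m1 + lowN kp ks fs ≤ T1 → x i + m2 + lowN pp Ps fs ≤ p1 → lb ≤ r i + m3 + uppN ks fs →
      ∃ P ∈ Xs, ∀ o ∈ offs s' s rd fs, P.testBit (64 * (i + o) + 63) = true := by
  induction rd with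
  | nil =>
    intro ks Ps s' s kp pp m1 m2 m3 Xs h fs hk hP hf i hi h1 h2 h3
    have e1 := List.length_eq_zero_iff.mp hk
    have e2 := List.length_eq_zero_iff.mp hP
    have e3 := List.length_eq_zero_iff.mp hf
    subst e1 e2 e3
    have hb := fD_bit N r x T1 p1 lb bX m1 m2 m3 hr hx hT hp i hi (by simpa [lowN] using h1)
      (by simpa [lowN] using h2) (by simpa [uppN] using h3)
    have e : wlk (pk (fun _ => 1) N) (pk (fun _ => 2 ^ 63) N) (pk (fun i => 2 ^ 63 - r i) N)
      (pk (fun i => 2 ^ 63 - x i) N) (pk (fun i => 2 ^ 63 + r i) N) T1 p1 lb bX [] [] [] (64 * s') (64 * s)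
      kp pp m1 m2 m3 Xs = cond (Nat.beq (fD (pk (fun _ => 1) N) (pk (fun _ => 2 ^ 63) N) (pk (fun i => 2 ^ 63 - r i) N)
      (pk (fun i => 2 ^ 63 - x i) N) (pk (fun i => 2 ^ 63 + r i) N) T1 p1 lb bX m1 m2 m3) (nat_lit 0)) true
      (covD Xs (fD (pk (fun _ => 1) N) (pk (fun _ => 2 ^ 63) N) (pk (fun i => 2 ^ 63 - r i) N)
      (pk (fun i => 2 ^ 63 - x i) N) (pk (fun i => 2 ^ 63 + r i) N) T1 p1 lb bX m1 m2 m3)) := rfl
    rw [e] at h
    obtain ⟨D, hD⟩ : ∃ D, D = fD (pk (fun _ => 1) N) (pk (fun _ => 2 ^ 63) N) (pk (fun i => 2 ^ 63 - r i) N)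
      (pk (fun i => 2 ^ 63 - x i) N) (pk (fun i => 2 ^ 63 + r i) N) T1 p1 lb bX m1 m2 m3 := ⟨_, rfl⟩
    rw [← hD] at h hb
    cases hb' : Nat.beq D (nat_lit 0) with
    | true =>
      have h0 : D = 0 := Nat.eq_of_beq_eq_true hb'
      rw [h0, Nat.zero_testBit] at hb
      exact absurd hb (by simp)
    | false =>
      rw [hb', cond_false] at h
      obtain ⟨P, p1', p2⟩ := covD_sound Xs D h _ hb
      refine ⟨P, p1', fun o ho => ?_⟩
      have : o = 0 := by simpa [offs] using ho
      subst this
      exact p2
  | cons rr rd ih =>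
    intro ks Ps s' s kp pp m1 m2 m3 Xs h fs hk hP hf i hi h1 h2 h3
    cases ks with
    | nil => exact absurd hk (by simp)
    | cons k ks =>
      cases Ps with
      | nil => exact absurd hP (by simp)
      | cons p Ps =>
        cases fs with
        | nil => exact absurd hf (by simp)
        | cons f fs =>
          have hk' : ks.length = rd.length := by simpa using hk
          have hP' : Ps.length = rd.length := by simpa using hP
          have hf' : fs.length = rd.length := by simpa using hf
          have e : wlk (pk (fun _ => 1) N) (pk (fun _ => 2 ^ 63) N) (pk (fun i => 2 ^ 63 - r i) N)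
            (pk (fun i => 2 ^ 63 - x i) N) (pk (fun i => 2 ^ 63 + r i) N) T1 p1 lb bX (rr :: rd) (k :: ks) (p :: Ps)
            (64 * s') (64 * s) kp pp m1 m2 m3 Xs
            = cond (wlk (pk (fun _ => 1) N) (pk (fun _ => 2 ^ 63) N) (pk (fun i => 2 ^ 63 - r i) N)
              (pk (fun i => 2 ^ 63 - x i) N) (pk (fun i => 2 ^ 63 + r i) N) T1 p1 lb bX rd ks Ps
              (64 * s) (Nat.mul (64 * s) rr) k p m1 m2 m3 Xs)
              (cond (Nat.ble (Nat.add m1 kp) T1) (cond (Nat.ble (Nat.add m2 pp) p1)
              (wlk (pk (fun _ => 1) N) (pk (fun _ => 2 ^ 63) N) (pk (fun i => 2 ^ 63 - r i) N)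
              (pk (fun i => 2 ^ 63 - x i) N) (pk (fun i => 2 ^ 63 + r i) N) T1 p1 lb bX rd ks Ps
              (64 * s) (Nat.mul (64 * s) rr) k p (Nat.add m1 kp) (Nat.add m2 pp) (Nat.add m3 k)
              (shP (64 * s') (64 * s) Xs)) true) true) false := rfl
          have es : Nat.mul (64 * s) rr = 64 * (s * rr) := by
            show 64 * s * rr = _
            ring
          rw [e, es] at h
          obtain ⟨ha, hb⟩ := cond_eq_true h
          cases f with
          | false =>
            have e1 : lowN kp (k :: ks) (false :: fs) = lowN k ks fs := by simp [lowN]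
            have e2 : lowN pp (p :: Ps) (false :: fs) = lowN p Ps fs := by simp [lowN]
            have e3 : uppN (k :: ks) (false :: fs) = uppN ks fs := by simp [uppN]
            rw [e1] at h1
            rw [e2] at h2
            rw [e3] at h3
            exact ih ks Ps s (s * rr) k p m1 m2 m3 Xs ha fs hk' hP' hf' i hi h1 h2 h3
          | true =>
            have e1 : lowN kp (k :: ks) (true :: fs) = kp + lowN k ks fs := by simp [lowN]
            have e2 : lowN pp (p :: Ps) (true :: fs) = pp + lowN p Ps fs := by simp [lowN]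
            have e3 : uppN (k :: ks) (true :: fs) = k + uppN ks fs := by simp [uppN]
            rw [e1] at h1
            rw [e2] at h2
            rw [e3] at h3
            rw [Nat.ble_eq_true_of_le (show Nat.add m1 kp ≤ T1 by show m1 + kp ≤ T1; omega), cond_true,
              Nat.ble_eq_true_of_le (show Nat.add m2 pp ≤ p1 by show m2 + pp ≤ p1; omega), cond_true] at hb
            obtain ⟨P, hP1, hP2⟩ := ih ks Ps s (s * rr) k p (Nat.add m1 kp) (Nat.add m2 pp) (Nat.add m3 k) _ hb fs
              hk' hP' hf' i hi (by show r i + (m1 + kp) + _ ≤ T1; omega) (by show x i + (m2 + pp) + _ ≤ p1; omega)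
              (by show lb ≤ r i + (m3 + k) + _; omega)
            rw [shP_eq, List.mem_map] at hP1
            obtain ⟨Q, hQ1, rfl⟩ := hP1
            refine ⟨Q, hQ1, fun o ho => ?_⟩
            simp only [offs, List.mem_flatMap] at ho
            obtain ⟨o', ho', hoo⟩ := ho
            have h5 := hP2 o' ho'
            obtain ⟨h6, h7⟩ := land_bit h5
            have e6 : ∀ a : ℕ, (Nat.shiftRight Q (64 * a)).testBit (64 * (i + o') + 63)
                = Q.testBit (64 * (i + (o' + a)) + 63) := by
              intro a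
              show (Q >>> (64 * a)).testBit _ = _
              rw [Nat.testBit_shiftRight]
              congr 1
              ring
            rw [e6] at h6 h7
            simp only [List.mem_cons, List.not_mem_nil, or_false] at hoo
            rcases hoo with rfl | rfl
            · exact h6
            · exact h7

end PkA
end Pool.Agent.Lib.MP_6947cd_al
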